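import Mathlib
import Pool.Agent.ESH.Defs

/-!
# HFB: algebraic definitions (structure constants of covers of the line)
-/

namespace Pool.Agent.HFB

open Polynomial

/-- `z` is a root of a non-zero integral polynomial of degree and coefficients at most `B` -/
def AlgB {C : Type*} [Field C] (B : ℕ) (z : C) : Prop :=
  ∃ q : ℤ[X], q ≠ 0 ∧ aeval z q = 0 ∧ q.natDegree ≤ B ∧ ∀ i, (q.coeff i).natAbs ≤ B

/-- sum of the absolute values of the coefficients -/
noncomputable def nrm1 {ι : Type*} (p : MvPolynomial ι ℤ) : ℕ := ∑ m ∈ p.support, (p.coeff m).natAbs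

/-- the structure constants `c`, `N` (multiplication `u_i u_j = ∑ c_ijk u_k`, derivation
`x (x - 1) d/dx : u_i ↦ ∑ N_ik u_k`) define a commutative associative algebra with a derivation -/
structure Sys {R : Type*} [CommRing R] {n : ℕ} (d : Fin n → ℕ) (c : Fin n → Fin n → Fin n → R[X])
    (N : Fin n → Fin n → R[X]) : Prop where
  degc : ∀ i j k s, d i + d j < s + d k → (c i j k).coeff s = 0
  degN : ∀ i k s, d i + 1 < s + d k → (N i k).coeff s = 0
  comm : ∀ i j k, c i j k = c j i k
  assoc : ∀ i j k m, ∑ l, c i j l * c l k m = ∑ l, c j k l * c i l m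
  leib : ∀ i j k, X * (X - 1) * derivative (c i j k) + ∑ l, c i j l * N l k =
    ∑ l, N i l * c l j k + ∑ l, N j l * c i l k

/-- the linearised equations: `(c', N')` is tangent to the solutions of `Sys` at `(c, N)` -/
structure LSys {R : Type*} [CommRing R] {n : ℕ} (d : Fin n → ℕ) (c : Fin n → Fin n → Fin n → R[X])
    (N : Fin n → Fin n → R[X]) (c' : Fin n → Fin n → Fin n → R[X]) (N' : Fin n → Fin n → R[X]) : Prop where
  degc : ∀ i j k s, d i + d j < s + d k → (c' i j k).coeff s = 0
  degN : ∀ i k s, d i + 1 < s + d k → (N' i k).coeff s = 0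
  comm : ∀ i j k, c' i j k = c' j i k
  assoc : ∀ i j k m, ∑ l, (c' i j l * c l k m + c i j l * c' l k m) =
    ∑ l, (c' j k l * c i l m + c j k l * c' i l m)
  leib : ∀ i j k, X * (X - 1) * derivative (c' i j k) + ∑ l, (c' i j l * N l k + c i j l * N' l k) =
    ∑ l, (N' i l * c l j k + N i l * c' l j k) + ∑ l, (N' j l * c i l k + N j l * c' i l k)

/-- infinitesimal action of `θ` on the structure constants `c` -/
noncomputable def psiC {R : Type*} [CommRing R] {n : ℕ} (c : Fin n → Fin n → Fin n → R[X])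
    (θ : Fin n → Fin n → R[X]) : Fin n → Fin n → Fin n → R[X] := fun i j k =>
  ∑ a, θ i a * c a j k + ∑ b, θ j b * c i b k - ∑ l, c i j l * θ l k

/-- infinitesimal action of `θ` on `N` -/
noncomputable def psiN {R : Type*} [CommRing R] {n : ℕ} (N : Fin n → Fin n → R[X])
    (θ : Fin n → Fin n → R[X]) : Fin n → Fin n → R[X] := fun i k =>
  X * (X - 1) * derivative (θ i k) + ∑ l, θ i l * N l k - ∑ l, N i l * θ l k

/-- numerators of the structure constants of the basis `g u` -/
noncomputable def polC {R : Type*} [CommRing R] {n : ℕ} (c : Fin n → Fin n → Fin n → R[X])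
    (g : Matrix (Fin n) (Fin n) R[X]) : Fin n → Fin n → Fin n → R[X] := fun i j k =>
  ∑ a, ∑ b, ∑ l, g i a * g j b * c a b l * g.adjugate l k

/-- numerators of the matrix of the derivation in the basis `g u` -/
noncomputable def polN {R : Type*} [CommRing R] {n : ℕ} (N : Fin n → Fin n → R[X])
    (g : Matrix (Fin n) (Fin n) R[X]) : Fin n → Fin n → R[X] := fun i k =>
  ∑ l, (X * (X - 1) * derivative (g i l) + ∑ a, g i a * N a l) * g.adjugate l k

/-- indices of the coefficients of the structure constants -/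
abbrev ZI (n M : ℕ) : Type := (Fin n × Fin n × Fin n × Fin M) ⊕ (Fin n × Fin n × Fin M)

/-- indices of the coefficients of the graded automorphisms -/
abbrev GI {n : ℕ} (d : Fin n → ℕ) (M : ℕ) : Type :=
  {t : Fin n × Fin n × Fin M // (t.2.2 : ℕ) + d t.2.1 ≤ d t.1}

/-- structure constants with the vector of coefficients `z` -/
noncomputable def cZ {R : Type*} [CommRing R] {n M : ℕ} (z : ZI n M → R) : Fin n → Fin n → Fin n → R[X] :=
  fun i j k => ∑ s : Fin M, C (z (Sum.inl (i, j, k, s))) * X ^ (s : ℕ)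

/-- matrix of the derivation with the vector of coefficients `z` -/
noncomputable def nZ {R : Type*} [CommRing R] {n M : ℕ} (z : ZI n M → R) : Fin n → Fin n → R[X] :=
  fun i k => ∑ s : Fin M, C (z (Sum.inr (i, k, s))) * X ^ (s : ℕ)

/-- matrix with the vector of coefficients `γ` -/
noncomputable def gZ {R : Type*} [CommRing R] {n M : ℕ} {d : Fin n → ℕ} (γ : GI d M → R) :
    Matrix (Fin n) (Fin n) R[X] := fun i j =>
  ∑ s : Fin M, if h : (s : ℕ) + d j ≤ d i then C (γ ⟨(i, j, s), h⟩) * X ^ (s : ℕ) else 0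

end Pool.Agent.HFB
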