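import Mathlib
import Pool.Agent.HFB.DefsA
import Pool.Agent.ESH.DefsG

/-!
# HFB: reduced bases of function fields over the line
-/

namespace Pool.Agent.HFB

open Polynomial Pool.Agent.Helper11 Pool.Agent.ESH
open scoped KaehlerDifferential

/-- `f` has no pole outside the poles of `x`, and at these order at most `m` times the one of `x` -/
def PolB (C : Type*) {Φ : Type*} [Field C] [Field Φ] [Algebra C Φ] (x : Φ) (m : ℕ) (f : Φ) : Prop :=
  (∀ R : Place C Φ, 0 ≤ R.ord x → f ∈ R.ge 0) ∧ ∀ R : Place C Φ, R.ord x < 0 → f ∈ R.ge (m * R.ord x)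

/-- `u` is a reduced basis, with degrees `d`, of the ring of functions without poles at finite values of `x` -/
structure RBas (C : Type*) {Φ : Type*} [Field C] [Field Φ] [Algebra C Φ] (x : Φ) {n : ℕ} (d : Fin n → ℕ)
    (u : Fin n → Φ) : Prop where
  tr : Transcendental C x
  ind : ∀ p : Fin n → C[X], ∑ i, aeval x (p i) * u i = 0 → p = 0
  mem : ∀ i, PolB C x (d i) (u i)
  span : ∀ (m : ℕ) (f : Φ), PolB C x m f →
    ∃ p : Fin n → C[X], (∀ i, p i ≠ 0 → (p i).natDegree + d i ≤ m) ∧ f = ∑ i, aeval x (p i) * u i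

/-- `c`, `N` are the structure constants of the basis `u`: multiplication and the derivation `x (x - 1) d/dx` -/
structure SCon {C Φ : Type*} [Field C] [Field Φ] [Algebra C Φ] (x : Φ) {n : ℕ} (u : Fin n → Φ)
    (c : Fin n → Fin n → Fin n → C[X]) (N : Fin n → Fin n → C[X]) : Prop where
  mul : ∀ i j, u i * u j = ∑ k, aeval x (c i j k) * u k
  der : ∀ i, (x * (x - 1)) • KaehlerDifferential.D C Φ (u i) =
    (∑ k, aeval x (N i k) * u k) • KaehlerDifferential.D C Φ x

end Pool.Agent.HFB
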