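import Mathlib
import Pool.Agent.HFB.DefsR

/-!
# HFB: integral differentials over valuation rings
-/

namespace Pool.Agent.HFB

open Polynomial Pool.Agent.Helper11 Pool.Agent.ESH IntermediateField
open scoped KaehlerDifferential

/-- `W` is a valuation ring of the function field `Φ`, lying over the valuation ring `{a ≤ 1}` of the constant field,
with transcendental residue field extension (the local ring of the generic point of a component of the special
fibre of a semistable model) -/
structure ResTr {k Φ : Type*} [Field k] [Field Φ] [Algebra k Φ] (a : AbsoluteValue k ℝ)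
    (W : ValuationSubring Φ) : Prop where
  base : ∀ c : k, algebraMap k Φ c ∈ W ↔ a c ≤ 1
  tr : ∃ t : Φ, ∀ p : k[X], (∀ i, a (p.coeff i) ≤ 1) → (∃ i, a (p.coeff i) = 1) →
    aeval t p ∈ W ∧ aeval t p ∉ W.nonunits

/-- the differential `ω` belongs to the image of the Kähler differentials of the ring `W` -/
def KInt (k : Type*) {Φ : Type*} [Field k] [Field Φ] [Algebra k Φ] (W : ValuationSubring Φ) (ω : Ω[Φ⁄k]) : Prop :=
  ∃ (n : ℕ) (b c : Fin n → Φ), (∀ i, b i ∈ W ∧ c i ∈ W) ∧ ω = ∑ i, b i • KaehlerDifferential.D k Φ (c i)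

/-- the lattice of integral differentials for the absolute value `a` : the regular differentials which are integral at
all the valuation rings `W` as above (i.e. the sections of the relative dualising sheaf of a semistable model) -/
structure IntDiff {k Φ : Type*} [Field k] [Field Φ] [Algebra k Φ] (a : AbsoluteValue k ℝ) (ω : Ω[Φ⁄k]) : Prop where
  reg : ∀ R : Place k Φ, 0 ≤ R.ordDiff ω
  int : ∀ W : ValuationSubring Φ, ResTr a W → KInt k W ω

/-- minus the logarithm of the norm of `ω₁ ∧ ⋯ ∧ ω_g` in the determinant of the lattice of integral differentials, i.e.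
the logarithm of the (generalised) index in it of the lattice spanned by the `ω_i` -/
noncomputable def locF {k Φ : Type*} [Field k] [Field Φ] [Algebra k Φ] (a : AbsoluteValue k ℝ)
    {ι : Type*} [Fintype ι] [DecidableEq ι] (ω : ι → Ω[Φ⁄k]) : ℝ :=
  sSup {r : ℝ | ∃ A : Matrix ι ι k, A.det ≠ 0 ∧ (∀ i, IntDiff a (∑ j, A i j • ω j)) ∧ r = Real.log (a A.det)}

/-- `f` belongs to the Gauss valuation ring of `k(x)` -/
def InG {k Φ : Type*} [Field k] [Field Φ] [Algebra k Φ] (a : AbsoluteValue k ℝ) (x f : Φ) : Prop :=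
  ∃ p q : k[X], q ≠ 0 ∧ p.gaussNorm a 1 ≤ q.gaussNorm a 1 ∧ f * aeval x q = aeval x p

/-- `V₀` is the Gauss valuation ring of `k(x)` -/
def IsGau {k Φ : Type*} [Field k] [Field Φ] [Algebra k Φ] (a : AbsoluteValue k ℝ) (x : Φ)
    (V₀ : ValuationSubring k⟮x⟯) : Prop := ∀ f : k⟮x⟯, f ∈ V₀ ↔ InG a x (f : Φ)

/-- `b` belongs to all the valuation rings of `Φ` over `V₀` (i.e. to the integral closure of `V₀`) -/
def SInt {E Φ : Type*} [Field E] [Field Φ] [Algebra E Φ] (V₀ : ValuationSubring E) (b : Φ) : Prop :=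
  ∀ W : ValuationSubring Φ, W.comap (algebraMap E Φ) = V₀ → b ∈ W

/-- Gram polynomials of the trace form: `Tr (u_i u_j) = ∑_k ∑_l c_ijk c_kll` -/
noncomputable def tG {R : Type*} [CommRing R] {n : ℕ} (c : Fin n → Fin n → Fin n → R[X]) :
    Matrix (Fin n) (Fin n) R[X] := Matrix.of fun i j => ∑ k, ∑ l, c i j k * c k l l

/-- indices of the basis `x^s u_j^* dx` of the regular differentials -/
abbrev DI {n : ℕ} (d : Fin n → ℕ) (M : ℕ) : Type := {t : Fin n × Fin M // (t.2 : ℕ) + 2 ≤ d t.1}

end Pool.Agent.HFB
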