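import Pool.Agent.HFB.RGM
import Pool.Agent.ESH.TRV
import Pool.Agent.ESH.DUR
import Pool.Agent.HFB.DefsV

/-!
# HFB / DBS: regular differentials and traces

`dbs_tr`: `z = x - c`: at every `R` with `e = R.ord z ≥ 1`, `f ∈ R.ge (1 - e)` (`ordDiff_smul_D`, `ord_dv`: `dx` has order `e - 1`), so `z f u_i ∈ R.ge 1` and TRV for `z f u_i`: its trace `z Tr(f u_i)` vanishes at `z = 0`; so `Tr(f u_i) ∈ k(x)` has no pole at `x = c`: it is a polynomial `p(x)`.  At infinity (`z = x⁻¹`, `e = R.ord z`): `dx` has order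
`- e - 1`, so `f ∈ R.ge (e + 1)`, and for `d_i ≥ 1`..., in general `x^(1 - d_i) f u_i ∈ R.ge 1` (`u_i ∈ R.ge (- d_i e)`), so its trace `x^(1-d_i) p(x)` vanishes at infinity: `deg p < d_i - 1`  (`TRV` for `z = x⁻¹`; `k(x⁻¹) = k(x)`).
`dbs_reg`: as in the proof of ESH / PGN (3): DUR for `z = x - c` (for `w` without poles over `c` the trace `Tr(f w)` has no pole: multiply `w` by a polynomial `q(x)`, `q(c) ≠ 0`, to remove the other finite poles and use `span`), and for `z = x⁻¹`, `h = x² f`: `Tr(x² f x^(-d_i) u_i) = x^(2-d_i) p_i(x)` is regular at infinity.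
`dbs_ex`, `dbs_uniq`: `u` is a basis of `Φ/k(x)` and the trace form is non-degenerate.
`dbb`: `f_t` for `t = (j, s)` with traces `Tr(f_t u_i) = δ_ij x^s`, `s ≤ d_j - 2`.
-/

namespace Pool.Agent.HFB

open Polynomial Pool.Agent.Helper11 Pool.Agent.ESH IntermediateField
open scoped KaehlerDifferential

variable {k Φ : Type*} [Field k] [Field Φ] [Algebra k Φ] [FunField k Φ] [CharZero k] [IsAlgClosed k]

variable {x : Φ} {n : ℕ} {d : Fin n → ℕ} {u : Fin n → Φ}

/-- value of a polynomial in `z` at a zero of `z` -/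
private theorem dbs_poly (R : Place k Φ) {z : Φ} (h : 1 ≤ R.ord z) (q : k[X]) :
    aeval z q ∈ R.ge 0 ∧ ev R (aeval z q) = q.coeff 0 := by
  have hz1 : z ∈ R.ge 1 := R.mem_ge_of_le h
  have hz0 : z ∈ R.ge 0 := R.ge_anti zero_le_one hz1
  have h1 : ∀ p : k[X], aeval z p ∈ R.ge 0 := fun p =>
    R.mem_ge_of_mem_Rx hz0 ⟨_, Polynomial.aeval_mem_adjoin_singleton k z⟩
  refine ⟨h1 q, evl_eq R ?_⟩
  obtain ⟨p, hp⟩ := X_dvd_sub_C (p := q)
  have h2 : aeval z q - algebraMap k Φ (q.coeff 0) = z * aeval z p := by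
    have := congrArg (aeval z) hp
    rwa [map_sub, aeval_C, map_mul, aeval_X] at this
  rw [h2]
  have h3 := R.mul_mem_ge hz1 (h1 p)
  rwa [add_zero] at h3

/-- common denominators away from `z = 0` -/
private theorem dbs_den {z : Φ} (hzne : z ≠ 0) (f : Φ) (hf : ∀ R : Place k Φ, 1 ≤ R.ord z → f ∈ R.ge 0) :
    ∃ q : k[X], q.coeff 0 ≠ 0 ∧ ∀ R : Place k Φ, 0 ≤ R.ord z → aeval z q * f ∈ R.ge 0 := by
  classical
  have hfin := finite_pos_ord (k := k) f⁻¹
  let S : Finset (Place k Φ) := hfin.toFinset.filter fun R => R.ord z = 0 ∧ ev R z ≠ 0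
  refine ⟨∏ R ∈ S, (X - Polynomial.C (ev R z)) ^ (R.ord f).natAbs, ?_, ?_⟩
  · rw [coeff_zero_eq_eval_zero, eval_prod, Finset.prod_ne_zero_iff]
    intro R hR
    rw [eval_pow, eval_sub, eval_X, eval_C, zero_sub]
    exact pow_ne_zero _ (neg_ne_zero.2 (Finset.mem_filter.1 hR).2.2)
  · intro R hR
    have hz0 : z ∈ R.ge 0 := R.mem_ge_of_le hR
    have h1 : ∀ p : k[X], aeval z p ∈ R.ge 0 := fun p =>
      R.mem_ge_of_mem_Rx hz0 ⟨_, Polynomial.aeval_mem_adjoin_singleton k z⟩
    by_cases hfR : f ∈ R.ge 0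
    · have h3 := R.mul_mem_ge (h1 (∏ R ∈ S, (X - Polynomial.C (ev R z)) ^ (R.ord f).natAbs)) hfR
      rwa [add_zero] at h3
    · have h2 : R.ord f < 0 := by
        by_contra hc
        exact hfR (R.mem_ge_of_le (not_lt.1 hc))
      have h3 : ¬ 1 ≤ R.ord z := fun hc => hfR (hf R hc)
      have h4 : R.ord z = 0 := by omega
      have h5 : ev R z ≠ 0 := by
        intro hc
        rw [evl_zero_iff R hz0] at hc
        rcases hc with hc | hc
        · exact hzne hc
        · omega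
      have h6 : R ∈ S := by
        rw [Finset.mem_filter, Set.Finite.mem_toFinset]
        refine ⟨?_, h4, h5⟩
        show 0 < R.ord f⁻¹
        rw [R.ord_inv]
        omega
      rw [← Finset.mul_prod_erase S _ h6, map_mul, map_pow, map_sub, aeval_X, aeval_C]
      have h7 := R.pow_mem_ge (evl_mem R hz0) (R.ord f).natAbs
      have h8 := R.mul_mem_ge (R.mul_mem_ge h7 (h1 (∏ R ∈ S.erase R, (X - Polynomial.C (ev R z)) ^ (R.ord f).natAbs))) (R.mem_ge_ord f)
      refine R.ge_anti ?_ h8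
      omega

omit [FunField k Φ] [CharZero k] [IsAlgClosed k] in
private theorem dbs_tr_sub (hx : Transcendental k x) (c : k) :
    Transcendental k (x - algebraMap k Φ c) ∧ k⟮x - algebraMap k Φ c⟯ = k⟮x⟯ := by
  have h1 : k⟮x - algebraMap k Φ c⟯ = k⟮x⟯ := by
    apply le_antisymm
    · rw [IntermediateField.adjoin_simple_le_iff]
      exact sub_mem (mem_adjoin_simple_self k x) (IntermediateField.algebraMap_mem _ c)
    · rw [IntermediateField.adjoin_simple_le_iff]
      have := add_mem (mem_adjoin_simple_self k (x - algebraMap k Φ c)) (IntermediateField.algebraMap_mem k⟮x - algebraMap k Φ c⟯ c)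
      rwa [sub_add_cancel] at this
  refine ⟨fun h => hx ?_, h1⟩
  have := h.add (isAlgebraic_algebraMap (R := k) (A := Φ) c)
  rwa [sub_add_cancel] at this

omit [FunField k Φ] [CharZero k] [IsAlgClosed k] in
private theorem dbs_tr_inv (hx : Transcendental k x) : Transcendental k x⁻¹ := by
  intro h
  apply hx
  have := h.inv
  rwa [inv_inv] at this

private theorem dbs_w (R : Place k Φ) (c : k) (h : 0 < R.ord (x - algebraMap k Φ c)) :
    R.ord (R.dv x) = R.ord (x - algebraMap k Φ c) - 1 := by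
  have h1 := (R.ord_dv (y := x - algebraMap k Φ c) (by omega)).2
  rwa [map_sub, Derivation.map_algebraMap, sub_zero] at h1

omit [FunField k Φ] [CharZero k] [IsAlgClosed k] in
private theorem dbs_x0 (hx : Transcendental k x) : x ≠ 0 := by
  intro h
  exact hx (by rw [h]; exact isAlgebraic_zero)

private theorem dbs_exists_place {z : Φ} (hz : Transcendental k z) : ∃ R : Place k Φ, 1 ≤ R.ord z := by
  by_contra hcon
  push Not at hcon
  have h1 := finsum_pos_ord (k := k) hz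
  have hfd := FunField.finiteDimensional_adjoin hz
  have h2 : (0 : ℤ) < (Module.finrank k⟮z⟯ Φ : ℤ) := by exact_mod_cast Module.finrank_pos
  rw [← h1] at h2
  have h3 : ∀ R : Place k Φ, max 0 (R.ord z) = 0 := fun R => max_eq_left (by have := hcon R; omega)
  rw [finsum_congr h3, finsum_zero] at h2
  exact lt_irrefl _ h2

omit [FunField k Φ] [CharZero k] [IsAlgClosed k] in
/-- polynomials at infinity -/
private theorem dbs_inf (R : Place k Φ) (h : R.ord x < 0) (q : k[X]) (N : ℕ) (hN : q.natDegree ≤ N) :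
    aeval x q ∈ R.ge (N * R.ord x) := by
  rw [aeval_eq_sum_range]
  refine sum_mem fun i hi => ?_
  rw [Algebra.smul_def]
  have h1 := R.mul_mem_ge (R.algebraMap_mem_ge (q.coeff i)) (R.pow_mem_ge (R.mem_ge_ord x) i)
  refine R.ge_anti ?_ h1
  have h2 : i ≤ N := by
    have := Finset.mem_range.1 hi
    omega
  have h3 : (i : ℤ) ≤ N := by exact_mod_cast h2
  nlinarith

omit [FunField k Φ] [CharZero k] [IsAlgClosed k] in
private theorem dbs_smul (g : k⟮x⟯) (f : Φ) :
    ((Algebra.trace k⟮x⟯ Φ ((g : Φ) * f) : k⟮x⟯) : Φ) = (g : Φ) * ((Algebra.trace k⟮x⟯ Φ f : k⟮x⟯) : Φ) := by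
  have h : (g : Φ) * f = g • f := rfl
  rw [h, map_smul]
  rfl

omit [FunField k Φ] [CharZero k] [IsAlgClosed k] in
private theorem dbs_mem (q : k[X]) : aeval x q ∈ k⟮x⟯ :=
  algebra_adjoin_le_adjoin k {x} (aeval_mem_adjoin_singleton k x)

omit [FunField k Φ] [CharZero k] [IsAlgClosed k] in
private theorem dbs_ne (hx : Transcendental k x) {q : k[X]} (hq : q ≠ 0) : aeval x q ≠ 0 :=
  fun h => hx ⟨q, hq, h⟩

/-- the trace of an element of order at least one at all the zeros of `z` -/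
private theorem dbs_trace_ge (z : Φ) (hE : k⟮x⟯ = k⟮z⟯) (hz : Transcendental k z) (f : Φ)
    (hf : ∀ R : Place k Φ, 1 ≤ R.ord z → f ∈ R.ge 1) (R₀ : Place k Φ) (h₀ : 1 ≤ R₀.ord z) :
    ((Algebra.trace k⟮x⟯ Φ f : k⟮x⟯) : Φ) ∈ R₀.ge 1 := by
  obtain ⟨h1, h2⟩ := trv k⟮x⟯ z hE hz f (fun R hR => R.ge_anti zero_le_one (hf R hR)) R₀ h₀
  rw [← evl_zero_iff R₀ h1, h2]
  have h3 : ∀ R : Place k Φ, (if 1 ≤ R.ord z then ((R.ord z : ℤ) : k) * ev R f else 0) = 0 := by
    intro R
    split_ifs with hR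
    · rw [(evl_zero_iff R (R.ge_anti zero_le_one (hf R hR))).2 (hf R hR), mul_zero]
    · rfl
  rw [finsum_congr h3, finsum_zero]

private theorem dbs_ratfun (hx : Transcendental k x) (g : k⟮x⟯)
    (hg : ∀ c : k, ∀ R : Place k Φ, 1 ≤ R.ord (x - algebraMap k Φ c) →
      (x - algebraMap k Φ c) * (g : Φ) ∈ R.ge 1) : ∃ P : k[X], (g : Φ) = aeval x P := by
  classical
  obtain ⟨r, s, h⟩ := (IntermediateField.mem_adjoin_simple_iff k (g : Φ)).1 g.2
  by_cases hs : s = 0
  · refine ⟨0, ?_⟩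
    rw [h, hs]; simp
  -- reduce to coprime polynomials
  by_cases hr : r = 0
  · refine ⟨0, ?_⟩
    rw [h, hr]; simp
  obtain ⟨a, b, D, hD, hcop, ha, hb⟩ : ∃ a b D : k[X], D ≠ 0 ∧ IsCoprime a b ∧ r = D * a ∧ s = D * b := by
    refine ⟨r / EuclideanDomain.gcd r s, s / EuclideanDomain.gcd r s, EuclideanDomain.gcd r s, ?_, ?_, ?_, ?_⟩
    · intro h0
      exact hs (EuclideanDomain.gcd_eq_zero_iff.1 h0).2
    · have hg0 : EuclideanDomain.gcd r s ≠ 0 := fun h0 => hs (EuclideanDomain.gcd_eq_zero_iff.1 h0).2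
      have e1 := EuclideanDomain.gcd_eq_gcd_ab r s
      have e2 := EuclideanDomain.mul_div_cancel' hg0 (EuclideanDomain.gcd_dvd_left r s)
      have e3 := EuclideanDomain.mul_div_cancel' hg0 (EuclideanDomain.gcd_dvd_right r s)
      refine ⟨EuclideanDomain.gcdA r s, EuclideanDomain.gcdB r s, ?_⟩
      apply mul_left_cancel₀ hg0
      have e4 : EuclideanDomain.gcd r s * (EuclideanDomain.gcdA r s * (r / EuclideanDomain.gcd r s) +
          EuclideanDomain.gcdB r s * (s / EuclideanDomain.gcd r s)) =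
          (EuclideanDomain.gcd r s * (r / EuclideanDomain.gcd r s)) * EuclideanDomain.gcdA r s +
          (EuclideanDomain.gcd r s * (s / EuclideanDomain.gcd r s)) * EuclideanDomain.gcdB r s := by ring
      rw [e4, e2, e3, mul_one]
      exact e1.symm
    · exact (EuclideanDomain.mul_div_cancel' (by
        intro h0
        exact hs (EuclideanDomain.gcd_eq_zero_iff.1 h0).2) (EuclideanDomain.gcd_dvd_left r s)).symm
    · exact (EuclideanDomain.mul_div_cancel' (by
        intro h0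
        exact hs (EuclideanDomain.gcd_eq_zero_iff.1 h0).2) (EuclideanDomain.gcd_dvd_right r s)).symm
  have hb0 : b ≠ 0 := by
    rintro rfl
    exact hs (by rw [hb, mul_zero])
  have hgb : (g : Φ) * aeval x b = aeval x a := by
    have e1 := dbs_ne hx hb0
    have e2 := dbs_ne hx hD
    rw [h, ha, hb, map_mul, map_mul]
    field_simp
  have hdeg : b.degree = 0 := by
    by_contra hne
    obtain ⟨c, hc⟩ := IsAlgClosed.exists_root b hne
    obtain ⟨b', hb'⟩ := dvd_iff_isRoot.2 hc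
    obtain ⟨R, hR⟩ := dbs_exists_place (dbs_tr_sub hx c).1
    have hx0 : x ∈ R.ge 0 := by
      have h4 : x - algebraMap k Φ c ∈ R.ge 1 := R.mem_ge_of_le hR
      have h5 := add_mem (R.ge_anti (by norm_num : (0 : ℤ) ≤ 1) h4) (R.algebraMap_mem_ge c)
      rwa [sub_add_cancel] at h5
    have h1 : ∀ p : k[X], aeval x p ∈ R.ge 0 := fun p =>
      R.mem_ge_of_mem_Rx hx0 ⟨_, Polynomial.aeval_mem_adjoin_singleton k x⟩
    have hbR : aeval x b ∈ R.ge 1 := by
      rw [hb', map_mul, map_sub, aeval_X, aeval_C]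
      have := R.mul_mem_ge (R.mem_ge_of_le hR) (h1 b')
      rwa [add_zero] at this
    have haR : aeval x a ∈ R.ge 1 := by
      rw [← hgb, hb', map_mul, map_sub, aeval_X, aeval_C]
      have := R.mul_mem_ge (hg c R hR) (h1 b')
      rw [add_zero] at this
      have e : (g : Φ) * ((x - algebraMap k Φ c) * aeval x b') =
        (x - algebraMap k Φ c) * (g : Φ) * aeval x b' := by ring
      rwa [e]
    obtain ⟨p, q, hpq⟩ := hcop
    have h2 := congrArg (aeval x) hpq
    rw [map_add, map_mul, map_mul, map_one] at h2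
    have h3 := add_mem (R.mul_mem_ge (h1 p) haR) (R.mul_mem_ge (h1 q) hbR)
    rw [h2, zero_add] at h3
    have h4 := R.le_ord_of_mem h3 one_ne_zero
    rw [R.ord_one] at h4
    omega
  obtain ⟨c, hc⟩ : ∃ c : k, b = Polynomial.C c := ⟨_, eq_C_of_degree_eq_zero hdeg⟩
  have hc0 : c ≠ 0 := by
    rintro rfl
    exact hb0 (by rw [hc, map_zero])
  refine ⟨Polynomial.C c⁻¹ * a, ?_⟩
  rw [map_mul, ← hgb, hc, aeval_C, aeval_C, map_inv₀]
  have h5 : algebraMap k Φ c ≠ 0 := by simpa using hc0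
  field_simp

theorem dbs_tr (hu : RBas k x d u) (f : Φ) (hf : ∀ R : Place k Φ, 0 ≤ R.ordDiff (f • KaehlerDifferential.D k Φ x))
    (i : Fin n) : ∃ P : k[X], ((Algebra.trace k⟮x⟯ Φ (f * u i) : k⟮x⟯) : Φ) = aeval x P ∧
      ∀ s, d i < s + 2 → P.coeff s = 0 := by
  classical
  have hx := hu.tr
  have hx0 := dbs_x0 hx
  by_cases hf0 : f = 0
  · refine ⟨0, ?_, fun s _ => coeff_zero s⟩
    rw [hf0, zero_mul, map_zero, map_zero]
    rfl
  have hord : ∀ R : Place k Φ, 0 ≤ R.ord f + R.ord (R.dv x) := by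
    intro R
    have := hf R
    rwa [R.ordDiff_smul_D, R.ord_mul _ _ hf0 (R.dv_ne_zero hx)] at this
  obtain ⟨P, hP⟩ := dbs_ratfun hx (Algebra.trace k⟮x⟯ Φ (f * u i)) (by
    intro c R₀ hR₀
    obtain ⟨h1, h2⟩ := dbs_tr_sub hx c
    obtain ⟨a, ha⟩ : ∃ a : k⟮x⟯, (a : Φ) = x - algebraMap k Φ c :=
      ⟨⟨_, sub_mem (mem_adjoin_simple_self k x) (IntermediateField.algebraMap_mem _ c)⟩, rfl⟩
    have h3 := dbs_trace_ge (x - algebraMap k Φ c) h2.symm h1 ((x - algebraMap k Φ c) * (f * u i)) (by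
      intro R hR
      have h4 : x - algebraMap k Φ c ∈ R.ge 1 := R.mem_ge_of_le hR
      have h5 := add_mem (R.ge_anti (by norm_num : (0 : ℤ) ≤ 1) h4) (R.algebraMap_mem_ge c)
      rw [sub_add_cancel] at h5
      have h6 := (hu.mem i).1 R (R.le_ord_of_mem h5 hx0)
      have h7 := dbs_w (x := x) R c (by omega)
      have h8 := hord R
      have h9 := R.mul_mem_ge (R.mem_ge_ord (x - algebraMap k Φ c)) (R.mul_mem_ge (R.mem_ge_ord f) h6)
      exact R.ge_anti (by omega) h9) R₀ hR₀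
    rwa [← ha, dbs_smul, ha] at h3)
  refine ⟨P, hP, ?_⟩
  intro s hs
  by_contra hne
  have hP0 : P ≠ 0 := by
    rintro rfl
    exact hne (coeff_zero s)
  have hsN : s ≤ P.natDegree := le_natDegree_of_ne_zero hne
  set N := P.natDegree with hN
  have hN2 : d i < N + 2 := by omega
  obtain ⟨R₀, hR₀⟩ := dbs_exists_place (dbs_tr_inv hx)
  obtain ⟨a, ha⟩ : ∃ a : k⟮x⟯, (a : Φ) = x⁻¹ ^ N :=
    ⟨⟨_, pow_mem (inv_mem (mem_adjoin_simple_self k x)) N⟩, rfl⟩
  have h3 := dbs_trace_ge x⁻¹ (adjoin_inv x).symm (dbs_tr_inv hx) (x⁻¹ ^ N * (f * u i)) (by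
    intro R hR
    rw [R.ord_inv] at hR
    have h6 := (hu.mem i).2 R (by omega)
    have h7 := (R.ord_dv (y := x) (by omega)).2
    have h8 := hord R
    have h9 := R.mul_mem_ge (R.mem_ge_ord (x⁻¹ ^ N)) (R.mul_mem_ge (R.mem_ge_ord f) h6)
    rw [R.ord_pow, R.ord_inv] at h9
    refine R.ge_anti ?_ h9
    have h10 : (d i : ℤ) ≤ N + 1 := by omega
    nlinarith) R₀ hR₀
  rw [← ha, dbs_smul, ha, hP] at h3
  -- the leading coefficient
  have h4 : x⁻¹ ^ N * aeval x P - algebraMap k Φ P.leadingCoeff ∈ R₀.ge 1 := by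
    rw [R₀.ord_inv] at hR₀
    have e1 : x⁻¹ ^ N * aeval x P - algebraMap k Φ P.leadingCoeff =
        x⁻¹ ^ N * aeval x P.eraseLead := by
      conv_lhs => rw [← eraseLead_add_C_mul_X_pow P]
      rw [map_add, map_mul, aeval_C, map_pow, aeval_X, mul_add]
      have e2 : x⁻¹ ^ N * (algebraMap k Φ P.leadingCoeff * x ^ P.natDegree) =
          algebraMap k Φ P.leadingCoeff := by
        rw [← hN, inv_pow, mul_left_comm, inv_mul_cancel₀ (pow_ne_zero _ hx0), mul_one]
      have e3 : (P.eraseLead + Polynomial.C P.leadingCoeff * X ^ P.natDegree).leadingCoeff =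
          P.leadingCoeff := by rw [eraseLead_add_C_mul_X_pow]
      rw [e3, e2]
      ring
    rw [e1]
    by_cases hN0 : N = 0
    · have e2 : P.eraseLead = 0 := by
        rw [eq_C_of_natDegree_eq_zero (hN.symm.trans hN0)]
        exact eraseLead_C _
      rw [e2, map_zero, mul_zero]
      exact zero_mem _
    · have e2 : P.eraseLead.natDegree ≤ N - 1 := by
        have := eraseLead_natDegree_le P
        omega
      have e3 := dbs_inf (x := x) R₀ (by omega) P.eraseLead (N - 1) e2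
      have e4 := R₀.mul_mem_ge (R₀.mem_ge_ord (x⁻¹ ^ N)) e3
      rw [R₀.ord_pow, R₀.ord_inv] at e4
      refine R₀.ge_anti ?_ e4
      have e5 : ((N - 1 : ℕ) : ℤ) = N - 1 := by omega
      rw [e5]
      linarith
  have h5 := sub_mem h3 h4
  rw [sub_sub_cancel] at h5
  have h6 := R₀.le_ord_of_mem h5 (by simpa using hP0)
  rw [R₀.ord_algebraMap] at h6
  omega

/-- functions without finite poles -/
private theorem dbs_polb (g : Φ) (hg : ∀ R : Place k Φ, 0 ≤ R.ord x → g ∈ R.ge 0) :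
    ∃ m : ℕ, PolB k x m g := by
  classical
  have hfin2 := finite_ord_ne_zero (k := k) g
  refine ⟨∑ R ∈ hfin2.toFinset, (R.ord g).natAbs, hg, ?_⟩
  intro R hR
  by_cases h0 : R.ord g = 0
  · apply R.mem_ge_of_le
    rw [h0]
    have : 0 ≤ ((∑ R ∈ hfin2.toFinset, (R.ord g).natAbs : ℕ) : ℤ) := Int.natCast_nonneg _
    nlinarith
  · apply R.mem_ge_of_le
    have h1 : R ∈ hfin2.toFinset := by
      rw [Set.Finite.mem_toFinset]; exact h0
    have h2 : (R.ord g).natAbs ≤ ∑ R ∈ hfin2.toFinset, (R.ord g).natAbs :=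
      Finset.single_le_sum (f := fun R : Place k Φ => (R.ord g).natAbs) (fun _ _ => Nat.zero_le _) h1
    set M := ∑ R ∈ hfin2.toFinset, (R.ord g).natAbs with hM
    have h3 : ((R.ord g).natAbs : ℤ) ≤ (M : ℤ) := by exact_mod_cast h2
    have h4 : - R.ord g ≤ ((R.ord g).natAbs : ℤ) := by omega
    nlinarith

omit [FunField k Φ] [CharZero k] [IsAlgClosed k] in
private theorem dbs_expand (f : Φ) (b : Fin n → k⟮x⟯) :
    ((Algebra.trace k⟮x⟯ Φ (f * ∑ j, (b j : Φ) * u j) : k⟮x⟯) : Φ) =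
      ∑ j, (b j : Φ) * ((Algebra.trace k⟮x⟯ Φ (f * u j) : k⟮x⟯) : Φ) := by
  have h1 : f * ∑ j, (b j : Φ) * u j = ∑ j, b j • (f * u j) := by
    rw [Finset.mul_sum]
    refine Finset.sum_congr rfl fun j _ => ?_
    show f * ((b j : Φ) * u j) = (b j : Φ) * (f * u j)
    ring
  rw [h1, map_sum]
  have h2 : ∀ g : Fin n → k⟮x⟯, ((∑ j, g j : k⟮x⟯) : Φ) = ∑ j, (g j : Φ) := by
    intro g
    exact map_sum (algebraMap k⟮x⟯ Φ) g Finset.univ
  rw [h2]
  refine Finset.sum_congr rfl fun j _ => ?_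
  rw [map_smul]
  rfl

theorem dbs_reg (hu : RBas k x d u) (f : Φ) (P : Fin n → k[X])
    (hP : ∀ i, ((Algebra.trace k⟮x⟯ Φ (f * u i) : k⟮x⟯) : Φ) = aeval x (P i))
    (hd : ∀ i s, d i < s + 2 → (P i).coeff s = 0) (R : Place k Φ) :
    0 ≤ R.ordDiff (f • KaehlerDifferential.D k Φ x) := by
  classical
  have hx := hu.tr
  have hx0 := dbs_x0 hx
  by_cases hf0 : f = 0
  · rw [R.ordDiff_smul_D, hf0, zero_mul, R.ord_zero]
  rw [R.ordDiff_smul_D, R.ord_mul _ _ hf0 (R.dv_ne_zero hx)]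
  by_cases hR : R.ord x < 0
  · -- at infinity
    have h1 : f * x ^ 2 ∈ R.ge (1 - R.ord x⁻¹) := by
      apply dur k⟮x⟯ x⁻¹ (adjoin_inv x).symm (dbs_tr_inv hx) (f * x ^ 2) _ R (by rw [R.ord_inv]; omega)
      intro w hw R₀ hR₀
      obtain ⟨q, hq1, hq2⟩ := dbs_den (inv_ne_zero hx0) w hw
      have hR₀x : R₀.ord x < 0 := by
        rw [R₀.ord_inv] at hR₀
        omega
      -- multiply by a power of `x`
      obtain ⟨M, hM⟩ : ∃ M : ℕ, ∀ Q : Place k Φ, 0 < Q.ord x → -(M : ℤ) ≤ Q.ord (aeval x⁻¹ q * w) := by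
        have hfin := finite_pos_ord (k := k) x
        refine ⟨∑ Q ∈ hfin.toFinset, (Q.ord (aeval x⁻¹ q * w)).natAbs, fun Q hQ => ?_⟩
        have e1 : (Q.ord (aeval x⁻¹ q * w)).natAbs ≤
            ∑ Q ∈ hfin.toFinset, (Q.ord (aeval x⁻¹ q * w)).natAbs :=
          Finset.single_le_sum (f := fun Q : Place k Φ => (Q.ord (aeval x⁻¹ q * w)).natAbs)
            (fun _ _ => Nat.zero_le _) (by rw [Set.Finite.mem_toFinset]; exact hQ)
        have e2 : ((Q.ord (aeval x⁻¹ q * w)).natAbs : ℤ) ≤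
            (∑ Q ∈ hfin.toFinset, (Q.ord (aeval x⁻¹ q * w)).natAbs : ℕ) := by
          exact_mod_cast e1
        omega
      obtain ⟨p, hp1, hp2⟩ := hu.span M (x ^ M * (aeval x⁻¹ q * w)) (by
        refine ⟨fun Q hQ => ?_, fun Q hQ => ?_⟩
        · rcases hQ.lt_or_eq with h | h
          · have e1 := Q.mul_mem_ge (Q.mem_ge_ord (x ^ M)) (Q.mem_ge_ord (aeval x⁻¹ q * w))
            rw [Q.ord_pow] at e1
            refine Q.ge_anti ?_ e1
            have := hM Q h
            nlinarith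
          · have e1 := Q.mul_mem_ge (Q.mem_ge_ord (x ^ M)) (hq2 Q (by rw [Q.ord_inv]; omega))
            rw [Q.ord_pow, ← h] at e1
            simpa using e1
        · have e1 := Q.mul_mem_ge (Q.mem_ge_ord (x ^ M)) (hq2 Q (by rw [Q.ord_inv]; omega))
          rw [Q.ord_pow, add_zero] at e1
          exact e1)
      obtain ⟨a, ha⟩ : ∃ a : Fin n → k⟮x⟯, ∀ j, (a j : Φ) = x ^ 2 * x⁻¹ ^ M * aeval x (p j) :=
        ⟨fun j => ⟨x ^ 2 * x⁻¹ ^ M * aeval x (p j), mul_mem (mul_mem (pow_mem (mem_adjoin_simple_self k x) _)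
          (pow_mem (inv_mem (mem_adjoin_simple_self k x)) _)) (dbs_mem _)⟩, fun j => rfl⟩
      obtain ⟨e, he⟩ : ∃ e : k⟮x⟯, (e : Φ) = aeval x⁻¹ q := by
        refine ⟨⟨aeval x⁻¹ q, ?_⟩, rfl⟩
        rw [← adjoin_inv x]
        exact dbs_mem _
      have h8 : (e : Φ) * (f * x ^ 2 * w) = f * ∑ j, (a j : Φ) * u j := by
        have e1 : ∑ j, (a j : Φ) * u j = x ^ 2 * x⁻¹ ^ M * ∑ j, aeval x (p j) * u j := by
          rw [Finset.mul_sum]
          refine Finset.sum_congr rfl fun j _ => ?_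
          rw [ha]
          ring
        rw [e1, ← hp2, he]
        have e2 : x⁻¹ ^ M * x ^ M = 1 := by
          rw [← mul_pow, inv_mul_cancel₀ hx0, one_pow]
        linear_combination (-(f * x ^ 2 * (aeval x⁻¹ q) * w)) * e2
      have h9 := dbs_smul e (f * x ^ 2 * w)
      rw [h8, dbs_expand] at h9
      have h11 : (∑ j, (a j : Φ) * ((Algebra.trace k⟮x⟯ Φ (f * u j) : k⟮x⟯) : Φ)) ∈ R₀.ge 0 := by
        refine sum_mem fun j _ => ?_
        rw [ha, hP]
        by_cases hpj : p j = 0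
        · rw [hpj, map_zero, mul_zero, zero_mul]
          exact zero_mem _
        by_cases hPj : P j = 0
        · rw [hPj, map_zero, mul_zero]
          exact zero_mem _
        have e1 := hp1 j hpj
        have e2 : (P j).natDegree + 2 ≤ d j := by
          by_contra hc
          have := hd j (P j).natDegree (by omega)
          exact hPj (leadingCoeff_eq_zero.1 this)
        have e3 := dbs_inf R₀ hR₀x (p j) _ le_rfl
        have e4 := dbs_inf R₀ hR₀x (P j) _ le_rfl
        have e5 := R₀.mul_mem_ge (R₀.mul_mem_ge (R₀.mul_mem_ge (R₀.mem_ge_ord (x ^ 2))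
          (R₀.mem_ge_ord (x⁻¹ ^ M))) e3) e4
        rw [R₀.ord_pow, R₀.ord_pow, R₀.ord_inv] at e5
        refine R₀.ge_anti ?_ e5
        have e6 : ((p j).natDegree : ℤ) + (P j).natDegree + 2 ≤ M := by
          have : (p j).natDegree + (P j).natDegree + 2 ≤ M := by omega
          exact_mod_cast this
        push_cast
        nlinarith
      obtain ⟨h12, h13⟩ := dbs_poly R₀ hR₀ q
      have h14 : ev R₀ (aeval x⁻¹ q) ≠ 0 := by rwa [h13]
      obtain ⟨h15, _⟩ := evl_inv R₀ h12 h14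
      have h16 : (e : Φ) ≠ 0 := by
        rw [he]
        intro h
        apply h14
        rw [h]
        have := evl_const R₀ (0 : k)
        rwa [map_zero] at this
      rw [h9] at h11
      have h17 := R₀.mul_mem_ge h15 h11
      rw [← he, inv_mul_cancel_left₀ h16, add_zero] at h17
      exact h17
    have h2 := R.le_ord_of_mem h1 (mul_ne_zero hf0 (pow_ne_zero _ hx0))
    rw [R.ord_mul _ _ hf0 (pow_ne_zero _ hx0), R.ord_pow, R.ord_inv] at h2
    rw [(R.ord_dv (y := x) (by omega)).2]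
    push_cast at h2
    omega
  · -- at a finite value
    have hxR : x ∈ R.ge 0 := R.mem_ge_of_le (not_lt.1 hR)
    obtain ⟨c, hcc⟩ : ∃ c, c = ev R x := ⟨_, rfl⟩
    have h1 := evl_mem R hxR
    rw [← hcc] at h1
    obtain ⟨h2, h3⟩ := dbs_tr_sub hx c
    have hz0 : x - algebraMap k Φ c ≠ 0 := dbs_x0 h2
    have h4 := R.le_ord_of_mem h1 hz0
    have h5 : f ∈ R.ge (1 - R.ord (x - algebraMap k Φ c)) := by
      apply dur k⟮x⟯ (x - algebraMap k Φ c) h3.symm h2 f _ R h4
      intro w hw R₀ hR₀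
      obtain ⟨q, hq1, hq2⟩ := dbs_den hz0 w hw
      obtain ⟨m, hm⟩ := dbs_polb (x := x) (aeval (x - algebraMap k Φ c) q * w) (by
        intro Q hQ
        apply hq2 Q
        have h6 := sub_mem (Q.mem_ge_of_le hQ) (Q.algebraMap_mem_ge c)
        exact Q.le_ord_of_mem h6 hz0)
      obtain ⟨p, _, hp⟩ := hu.span m _ hm
      obtain ⟨a, ha⟩ : ∃ a : Fin n → k⟮x⟯, ∀ j, (a j : Φ) = aeval x (p j) :=
        ⟨fun j => ⟨aeval x (p j), dbs_mem _⟩, fun j => rfl⟩
      obtain ⟨e, he⟩ : ∃ e : k⟮x⟯, (e : Φ) = aeval (x - algebraMap k Φ c) q := by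
        refine ⟨⟨aeval (x - algebraMap k Φ c) q, ?_⟩, rfl⟩
        rw [← h3]
        exact dbs_mem _
      have h8 : (e : Φ) * (f * w) = f * ∑ j, (a j : Φ) * u j := by
        rw [he, Finset.sum_congr rfl fun j _ => by rw [ha j], ← hp]
        ring
      have h9 := dbs_smul e (f * w)
      rw [h8, dbs_expand] at h9
      have hx1 : x ∈ R₀.ge 0 := by
        have h17 := add_mem (R₀.ge_anti (by norm_num : (0 : ℤ) ≤ 1) (R₀.mem_ge_of_le hR₀)) (R₀.algebraMap_mem_ge c)
        rwa [sub_add_cancel] at h17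
      have hpol : ∀ p : k[X], aeval x p ∈ R₀.ge 0 := fun p =>
        R₀.mem_ge_of_mem_Rx hx1 ⟨_, Polynomial.aeval_mem_adjoin_singleton k x⟩
      have h11 : (∑ j, (a j : Φ) * ((Algebra.trace k⟮x⟯ Φ (f * u j) : k⟮x⟯) : Φ)) ∈ R₀.ge 0 := by
        refine sum_mem fun j _ => ?_
        rw [ha, hP]
        have := R₀.mul_mem_ge (hpol (p j)) (hpol (P j))
        rwa [add_zero] at this
      obtain ⟨h12, h13⟩ := dbs_poly R₀ hR₀ q
      have h14 : ev R₀ (aeval (x - algebraMap k Φ c) q) ≠ 0 := by rwa [h13]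
      obtain ⟨h15, _⟩ := evl_inv R₀ h12 h14
      have h16 : (e : Φ) ≠ 0 := by
        rw [he]
        intro h
        apply h14
        rw [h]
        have := evl_const R₀ (0 : k)
        rwa [map_zero] at this
      rw [h9] at h11
      have h17 := R₀.mul_mem_ge h15 h11
      rw [← he, inv_mul_cancel_left₀ h16, add_zero] at h17
      exact h17
    have h6 := R.le_ord_of_mem h5 hf0
    rw [dbs_w R c (by omega)]
    omega

private noncomputable def dbsBasis (hu : RBas k x d u) : Module.Basis (Fin n) k⟮x⟯ Φ :=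
  Module.Basis.mk (rgm_ind hu) (rgm_span hu).ge

theorem dbs_ex (hu : RBas k x d u) (P : Fin n → k[X]) :
    ∃ f : Φ, ∀ i, ((Algebra.trace k⟮x⟯ Φ (f * u i) : k⟮x⟯) : Φ) = aeval x (P i) := by
  classical
  have hx := hu.tr
  have hfd := FunField.finiteDimensional_adjoin hx
  have hchar : CharZero k⟮x⟯ := charZero_of_injective_algebraMap (algebraMap k k⟮x⟯).injective
  let b := dbsBasis hu
  have hb : ∀ i, b i = u i := fun i => Module.Basis.mk_apply _ _ i
  obtain ⟨a, ha⟩ : ∃ a : Fin n → k⟮x⟯, ∀ j, (a j : Φ) = aeval x (P j) :=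
    ⟨fun j => ⟨aeval x (P j), dbs_mem _⟩, fun j => rfl⟩
  let B := (Algebra.traceForm k⟮x⟯ Φ).dualBasis (traceForm_nondegenerate k⟮x⟯ Φ) b
  refine ⟨∑ j, a j • B j, fun i => ?_⟩
  have h1 : Algebra.trace k⟮x⟯ Φ ((∑ j, a j • B j) * u i) = a i := by
    rw [Finset.sum_mul, map_sum, Finset.sum_eq_single i]
    · rw [smul_mul_assoc, map_smul]
      have h1 := (Algebra.traceForm k⟮x⟯ Φ).apply_dualBasis_left (traceForm_nondegenerate k⟮x⟯ Φ) b i i
      rw [Algebra.traceForm_apply, hb, if_pos rfl] at h1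
      rw [h1, smul_eq_mul, mul_one]
    · intro j _ hj
      rw [smul_mul_assoc, map_smul]
      have h1 := (Algebra.traceForm k⟮x⟯ Φ).apply_dualBasis_left (traceForm_nondegenerate k⟮x⟯ Φ) b j i
      rw [Algebra.traceForm_apply, hb, if_neg (fun h => hj h.symm)] at h1
      rw [h1, smul_zero]
    · intro h
      exact absurd (Finset.mem_univ i) h
  rw [h1, ha]

theorem dbs_uniq (hu : RBas k x d u) (f : Φ) (h : ∀ i, Algebra.trace k⟮x⟯ Φ (f * u i) = 0) : f = 0 := by
  classical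
  have hx := hu.tr
  have hfd := FunField.finiteDimensional_adjoin hx
  have hchar : CharZero k⟮x⟯ := charZero_of_injective_algebraMap (algebraMap k k⟮x⟯).injective
  let b := dbsBasis hu
  have hb : ∀ i, b i = u i := fun i => Module.Basis.mk_apply _ _ i
  apply (traceForm_nondegenerate k⟮x⟯ Φ).1 f
  intro w
  rw [← b.sum_repr w, map_sum]
  refine Finset.sum_eq_zero fun i _ => ?_
  rw [map_smul, Algebra.traceForm_apply, hb, h i, smul_zero]

theorem dbb (hu : RBas k x d u) (M : ℕ) (hM : ∀ i, d i < M) :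
    ∃ f : DI d M → Φ, (∀ t i, ((Algebra.trace k⟮x⟯ Φ (f t * u i) : k⟮x⟯) : Φ) =
        if i = t.1.1 then x ^ (t.1.2 : ℕ) else 0) ∧
      (∀ t, ∀ R : Place k Φ, 0 ≤ R.ordDiff (f t • KaehlerDifferential.D k Φ x)) ∧
      LinearIndependent k (fun t => f t • KaehlerDifferential.D k Φ x) ∧
      ∀ η : Ω[Φ⁄k], (∀ R : Place k Φ, 0 ≤ R.ordDiff η) →
        η ∈ Submodule.span k (Set.range (fun t => f t • KaehlerDifferential.D k Φ x)) := by
  classical
  have hx := hu.tr
  have hD0 : KaehlerDifferential.D k Φ x ≠ 0 := D_ne_zero hx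
  choose f hf using fun t : DI d M => dbs_ex hu (fun i => if i = t.1.1 then (X : k[X]) ^ (t.1.2 : ℕ) else 0)
  have hf' : ∀ t i, ((Algebra.trace k⟮x⟯ Φ (f t * u i) : k⟮x⟯) : Φ) =
        if i = t.1.1 then x ^ (t.1.2 : ℕ) else 0 := by
    intro t i
    rw [hf t i]
    split_ifs
    · rw [map_pow, aeval_X]
    · rw [map_zero]
  have hsum : ∀ (c : DI d M → k) (i : Fin n),
      ((Algebra.trace k⟮x⟯ Φ ((∑ t, algebraMap k Φ (c t) * f t) * u i) : k⟮x⟯) : Φ) =
        aeval x (∑ t : DI d M, if i = t.1.1 then Polynomial.C (c t) * X ^ (t.1.2 : ℕ) else 0) := by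
    intro c i
    have h1 : (∑ t, algebraMap k Φ (c t) * f t) * u i =
        ∑ t, (algebraMap k k⟮x⟯ (c t)) • (f t * u i) := by
      rw [Finset.sum_mul]
      refine Finset.sum_congr rfl fun t _ => ?_
      show algebraMap k Φ (c t) * f t * u i = algebraMap k Φ (c t) * (f t * u i)
      ring
    rw [h1, map_sum]
    have h2 : ∀ g : DI d M → k⟮x⟯, ((∑ j, g j : k⟮x⟯) : Φ) = ∑ j, (g j : Φ) := by
      intro g
      exact map_sum (algebraMap k⟮x⟯ Φ) g Finset.univ
    rw [h2, map_sum]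
    refine Finset.sum_congr rfl fun t _ => ?_
    rw [map_smul]
    have h3 : ((algebraMap k k⟮x⟯ (c t) • Algebra.trace k⟮x⟯ Φ (f t * u i) : k⟮x⟯) : Φ) =
        algebraMap k Φ (c t) * ((Algebra.trace k⟮x⟯ Φ (f t * u i) : k⟮x⟯) : Φ) := rfl
    rw [h3, hf']
    split_ifs
    · rw [map_mul, aeval_C, map_pow, aeval_X]
    · rw [mul_zero, map_zero]
  have hcoef : ∀ (c : DI d M → k) (i : Fin n) (t : DI d M), t.1.1 = i →
      (∑ t : DI d M, if i = t.1.1 then Polynomial.C (c t) * X ^ (t.1.2 : ℕ) else 0 : k[X]).coeff (t.1.2 : ℕ) =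
        c t := by
    intro c i t ht
    rw [finsetSum_coeff, Finset.sum_eq_single t]
    · rw [if_pos ht.symm, coeff_C_mul_X_pow, if_pos rfl]
    · intro t' _ htt
      split_ifs with h1
      · rw [coeff_C_mul_X_pow, if_neg]
        intro h2
        apply htt
        apply Subtype.ext
        apply Prod.ext
        · rw [← h1, ht]
        · exact Fin.ext h2.symm
      · rw [coeff_zero]
    · intro h
      exact absurd (Finset.mem_univ t) h
  refine ⟨f, hf', ?_, ?_, ?_⟩
  · intro t R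
    refine dbs_reg hu (f t) _ (hf t) ?_ R
    intro i s hs
    by_cases hi : i = t.1.1
    · rw [if_pos hi, coeff_X_pow, if_neg]
      intro h
      have := t.2
      rw [← hi] at this
      omega
    · rw [if_neg hi, coeff_zero]
  · rw [Fintype.linearIndependent_iff]
    intro c hc t
    have h1 : (∑ t, algebraMap k Φ (c t) * f t) • KaehlerDifferential.D k Φ x = 0 := by
      rw [← hc, Finset.sum_smul]
      refine Finset.sum_congr rfl fun t _ => ?_
      rw [mul_smul, algebraMap_smul]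
    have h2 := (smul_eq_zero.1 h1).resolve_right hD0
    have h3 := hsum c t.1.1
    rw [h2, zero_mul, map_zero] at h3
    have h4 : (∑ t' : DI d M, if t.1.1 = t'.1.1 then Polynomial.C (c t') * X ^ (t'.1.2 : ℕ) else 0 : k[X]) = 0 := by
      by_contra hne
      exact dbs_ne hx hne h3.symm
    have h5 := hcoef c t.1.1 t rfl
    rw [h4, coeff_zero] at h5
    exact h5.symm
  · intro η hη
    obtain ⟨g, hg⟩ : ∃ g : Φ, η = g • KaehlerDifferential.D k Φ x := by
      refine ⟨(kaehlerEquiv hx).symm η, ?_⟩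
      rw [← kaehlerEquiv_apply hx, LinearEquiv.apply_symm_apply]
    rw [hg] at hη
    choose P hP hPd using fun i => dbs_tr hu g hη i
    have h1 : g = ∑ t : DI d M, algebraMap k Φ ((P t.1.1).coeff (t.1.2 : ℕ)) * f t := by
      rw [← sub_eq_zero]
      apply dbs_uniq hu
      intro i
      rw [sub_mul, map_sub, sub_eq_zero]
      apply Subtype.ext
      have e1 := hsum (fun t => (P t.1.1).coeff (t.1.2 : ℕ)) i
      rw [e1, hP i]
      congr 1
      ext s
      by_cases hs : s + 2 ≤ d i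
      · have hsM : s < M := by
          have := hM i
          omega
        have e2 := hcoef (fun t => (P t.1.1).coeff (t.1.2 : ℕ)) i ⟨(i, ⟨s, hsM⟩), hs⟩ rfl
        exact e2.symm
      · rw [hPd i s (by omega), finsetSum_coeff]
        symm
        refine Finset.sum_eq_zero fun t _ => ?_
        split_ifs with h1
        · rw [coeff_C_mul_X_pow, if_neg]
          intro h2
          have := t.2
          rw [← h1, ← h2] at this
          omega
        · rw [coeff_zero]
    rw [hg, h1, Finset.sum_smul]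
    refine Submodule.sum_mem _ fun t _ => ?_
    rw [mul_smul, algebraMap_smul]
    exact Submodule.smul_mem _ _ (Submodule.subset_span ⟨t, rfl⟩)

end Pool.Agent.HFB
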