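import Pool.Agent.HFB.DefsR
import Pool.Agent.ESH.RDB

/-!
# HFB / RBX: existence of reduced bases

From RDB: `u`, `d`.  `ind`: linear independence over `C(x)`.  `span`: let `f` satisfy `PolB C x m f`.  By the fourth clause of RDB `f = ∑ p_i(x) u_i`.  `x^(-m) f` is regular at the poles of `x`, so by the fifth clause `x^(-m) f = ∑ b_i x^(-d_i) u_i` with `b_i ∈ C(x)` regular at the poles of `x`; by linear independence
`p_i(x) = b_i x^(m - d_i)`.  Order at a pole of `x` (there is one): `- deg p_i ≥ d_i - m` times the (negative) order of `x`..., i.e. if `p_i ≠ 0`, `deg p_i + d_i ≤ m`.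
-/

namespace Pool.Agent.HFB

open Polynomial Pool.Agent.Helper11 Pool.Agent.ESH IntermediateField

variable {K Φ : Type*} [Field K] [Field Φ] [Algebra K Φ] [FunField K Φ] [CharZero K] [IsAlgClosed K]

omit [FunField K Φ] [CharZero K] [IsAlgClosed K] in
private theorem rbx_am (x : Φ) (q : K[X]) : aeval x q ∈ K⟮x⟯ :=
  IntermediateField.algebra_adjoin_le_adjoin K {x} (aeval_mem_adjoin_singleton K x)

private theorem rbx_pole {x : Φ} (hx : Transcendental K x) : ∃ R : Place K Φ, R.ord x < 0 := by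
  by_contra hcon
  push Not at hcon
  have h2 := ht_pos (k := K) hx
  unfold ht at h2
  rw [finsum_congr (g := fun _ => (0 : ℤ)), finsum_zero] at h2
  · exact lt_irrefl _ h2
  · intro R
    have := hcon R
    rw [max_eq_left (by omega)]

theorem rbx (x : Φ) (hx : Transcendental K x) :
    ∃ (d : Fin (Module.finrank K⟮x⟯ Φ) → ℕ) (u : Fin (Module.finrank K⟮x⟯ Φ) → Φ), RBas K x d u ∧
      ∃ i₀, d i₀ = 0 ∧ ∀ i, i ≠ i₀ → 1 ≤ d i := by
  obtain ⟨u, d, hli, hfin, hinf, hgen, hgen2, hi₀⟩ := rdb (C := K) x hx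
  have hx0 : x ≠ 0 := by
    rintro rfl
    exact hx isAlgebraic_zero
  obtain ⟨R, hR⟩ := rbx_pole (K := K) hx
  refine ⟨d, u, ⟨hx, ?_, fun i => ⟨hfin i, hinf i⟩, ?_⟩, hi₀⟩
  · intro p hp
    have h1 := Fintype.linearIndependent_iff.1 hli
      (fun i => (⟨aeval x (p i), rbx_am x (p i)⟩ : K⟮x⟯)) (by
        rw [← hp]
        refine Finset.sum_congr rfl fun i _ => ?_
        rw [IntermediateField.smul_def, smul_eq_mul])
    funext i
    have h2 := congrArg (fun z : K⟮x⟯ => (z : Φ)) (h1 i)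
    exact (transcendental_iff.1 hx) (p i) h2
  · intro m f hf
    obtain ⟨p, hp⟩ := hgen f hf.1
    refine ⟨p, fun i hpi => ?_, hp⟩
    obtain ⟨b, hb, hb2⟩ := hgen2 (x⁻¹ ^ m * f) (fun R hR => by
      have h1 := R.mul_mem_ge (R.mem_ge_ord (x⁻¹ ^ m)) (hf.2 R hR)
      rw [R.ord_pow, R.ord_inv] at h1
      have h2 : (m : ℤ) * -R.ord x + m * R.ord x = 0 := by ring
      rwa [h2] at h1)
    have hxx : x ^ m * x⁻¹ ^ m = 1 := by
      rw [← mul_pow, mul_inv_cancel₀ hx0, one_pow]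
    have hsum : ∑ i, ((⟨aeval x (p i), rbx_am x (p i)⟩ : K⟮x⟯) -
        b i * ⟨x ^ m * x⁻¹ ^ d i, mul_mem (pow_mem (mem_adjoin_simple_self K x) _)
          (pow_mem (inv_mem (mem_adjoin_simple_self K x)) _)⟩) • u i = 0 := by
      have h3 : ∑ i, aeval x (p i) * u i = ∑ i, x ^ m * ((b i : Φ) * (x⁻¹ ^ d i * u i)) := by
        rw [← Finset.mul_sum, ← hb2, ← hp, ← mul_assoc, hxx, one_mul]
      rw [← sub_eq_zero, ← Finset.sum_sub_distrib] at h3
      rw [← h3]
      refine Finset.sum_congr rfl fun i _ => ?_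
      rw [IntermediateField.smul_def, smul_eq_mul]
      push_cast
      ring
    have h4 := Fintype.linearIndependent_iff.1 hli _ hsum i
    have h5 := congrArg (fun z : K⟮x⟯ => (z : Φ)) (sub_eq_zero.1 h4)
    have h6 : aeval x (p i) = (b i : Φ) * (x ^ m * x⁻¹ ^ d i) := h5
    obtain ⟨h7, h8⟩ := R.ord_aeval hR hpi
    have hb0 : (b i : Φ) ≠ 0 := by
      intro h0
      rw [h0, zero_mul] at h6
      exact h7 h6
    have hx1 : x ^ m * x⁻¹ ^ d i ≠ 0 := mul_ne_zero (pow_ne_zero _ hx0) (pow_ne_zero _ (inv_ne_zero hx0))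
    have h9 := R.ord_mul _ _ hb0 hx1
    rw [← h6, h8, R.ord_mul _ _ (pow_ne_zero _ hx0) (pow_ne_zero _ (inv_ne_zero hx0)), R.ord_pow,
      R.ord_pow, R.ord_inv] at h9
    have h10 := R.le_ord_of_mem (hb i R hR) hb0
    by_contra hcon
    have h11 : (m : ℤ) + 1 ≤ (p i).natDegree + d i := by
      push Not at hcon
      exact_mod_cast hcon
    nlinarith

end Pool.Agent.HFB
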