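import Pool.Agent.HFB.AND

/-!
# HFB / ASB: sesquilinearity and change of basis

`asb_add` etc.: `ipx y` is additive in each variable on regular differentials (`evl_add` outside finitely many `c`, AIT), and `ipx y (b f) h = b ipx y f h` for constants.  `asb`: `f_i dx = (f_i · der hy x) dy`, and `f_i · der hy x = ∑_j B_ij f'_j` (`kaehler_bijective`); `and_ip`.
-/

namespace Pool.Agent.HFB

open Polynomial Pool.Agent.Helper11 Pool.Agent.ESH IntermediateField MeasureTheory
open scoped KaehlerDifferential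

variable {Φ : Type*} [Field Φ] [Algebra ℂ Φ] [FunField ℂ Φ]

private theorem asb_bad {y : Φ} {ι : Type*} [Finite ι] (f : ι → Φ) :
    ∃ T : Set ℂ, T.Finite ∧ ∀ c ∉ T, ∀ R : Place ℂ Φ, 1 ≤ R.ord (y - algebraMap ℂ Φ c) →
      ∀ i, f i ∈ R.ge 0 := by
  refine ⟨(fun R : Place ℂ Φ => ev R y) '' (⋃ i, {v : Place ℂ Φ | v.ord (f i) ≠ 0}),
    (Set.finite_iUnion fun i => finite_ord_ne_zero (k := ℂ) (f i)).image _, ?_⟩
  intro c hc R hR i
  by_contra hi
  apply hc
  refine ⟨R, Set.mem_iUnion.2 ⟨i, ?_⟩, evl_eq R (R.mem_ge_of_le hR)⟩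
  intro h0
  exact hi (R.mem_ge_of_le (by rw [h0]))

private theorem asb_fin {y : Φ} (c : ℂ) : {R : Place ℂ Φ | 1 ≤ R.ord (y - algebraMap ℂ Φ c)}.Finite := by
  refine (finite_pos_ord (k := ℂ) (y - algebraMap ℂ Φ c)).subset fun R hR => ?_
  have hR' : 1 ≤ R.ord (y - algebraMap ℂ Φ c) := hR
  change 0 < R.ord (y - algebraMap ℂ Φ c)
  omega

private theorem asb_fsum {y : Φ} (c : ℂ) (F : Place ℂ Φ → ℂ) :
    fsum y F c = ∑ R ∈ (asb_fin (y := y) c).toFinset, F R := by
  classical
  unfold fsum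
  rw [finsum_eq_sum_of_support_subset (s := (asb_fin (y := y) c).toFinset)]
  · refine Finset.sum_congr rfl fun R hR => ?_
    have hR' : 1 ≤ R.ord (y - algebraMap ℂ Φ c) := by simpa using hR
    rw [if_pos hR']
  · intro R hR
    rw [Function.mem_support] at hR
    have : 1 ≤ R.ord (y - algebraMap ℂ Φ c) := by
      by_contra hcon
      rw [if_neg hcon] at hR
      exact hR rfl
    simpa using this

private theorem asb_ev {ι : Type*} (R : Place ℂ Φ) (s : Finset ι) (a : ι → ℂ) (f : ι → Φ)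
    (hf : ∀ i, f i ∈ R.ge 0) :
    (∑ i ∈ s, algebraMap ℂ Φ (a i) * f i) ∈ R.ge 0 ∧
      ev R (∑ i ∈ s, algebraMap ℂ Φ (a i) * f i) = ∑ i ∈ s, a i * ev R (f i) := by
  classical
  have hm : ∀ i, algebraMap ℂ Φ (a i) * f i ∈ R.ge 0 := by
    intro i
    have := R.mul_mem_ge (R.algebraMap_mem_ge (a i)) (hf i)
    rwa [zero_add] at this
  refine ⟨sum_mem fun i _ => hm i, ?_⟩
  induction s using Finset.induction_on with
  | empty =>
    rw [Finset.sum_empty, Finset.sum_empty]
    have := evl_const R (0 : ℂ)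
    rwa [map_zero] at this
  | insert i s hi ih =>
    rw [Finset.sum_insert hi, Finset.sum_insert hi, evl_add R (hm i) (sum_mem fun i _ => hm i), ih,
      evl_mul R (R.algebraMap_mem_ge (a i)) (hf i), evl_const]

theorem asb_lin {y : Φ} (hy : Transcendental ℂ y) {ι : Type*} [Fintype ι] (f : ι → Φ)
    (hf : ∀ i, ∀ R : Place ℂ Φ, 0 ≤ R.ordDiff (f i • KaehlerDifferential.D ℂ Φ y)) (a b : ι → ℂ) :
    ipx y (∑ i, algebraMap ℂ Φ (a i) * f i) (∑ i, algebraMap ℂ Φ (b i) * f i) =
      ∑ i, ∑ j, a i * (starRingEnd ℂ) (b j) * ipx y (f i) (f j) := by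
  classical
  obtain ⟨T, hT, hTc⟩ := asb_bad (y := y) f
  have hint : ∀ i j, Integrable (fun c => fsum y (fun R => ev R (f i) * (starRingEnd ℂ) (ev R (f j))) c) :=
    fun i j => (ait hy (f i) (f j) (hf i) (hf j)).1
  have hpt : ∀ c ∉ T, fsum y (fun R => ev R (∑ i, algebraMap ℂ Φ (a i) * f i) *
      (starRingEnd ℂ) (ev R (∑ i, algebraMap ℂ Φ (b i) * f i))) c =
      ∑ i, ∑ j, a i * (starRingEnd ℂ) (b j) * fsum y (fun R => ev R (f i) * (starRingEnd ℂ) (ev R (f j))) c := by
    intro c hc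
    rw [asb_fsum]
    have h1 : ∀ R ∈ (asb_fin (y := y) c).toFinset, ev R (∑ i, algebraMap ℂ Φ (a i) * f i) *
        (starRingEnd ℂ) (ev R (∑ i, algebraMap ℂ Φ (b i) * f i)) =
        ∑ i, ∑ j, a i * (starRingEnd ℂ) (b j) * (ev R (f i) * (starRingEnd ℂ) (ev R (f j))) := by
      intro R hR
      have hR' : 1 ≤ R.ord (y - algebraMap ℂ Φ c) := by simpa using hR
      have hge := hTc c hc R hR'
      rw [(asb_ev R Finset.univ a f hge).2, (asb_ev R Finset.univ b f hge).2, map_sum, Finset.sum_mul_sum]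
      refine Finset.sum_congr rfl fun i _ => Finset.sum_congr rfl fun j _ => ?_
      rw [map_mul]
      ring
    rw [Finset.sum_congr rfl h1, Finset.sum_comm]
    refine Finset.sum_congr rfl fun i _ => ?_
    rw [Finset.sum_comm]
    refine Finset.sum_congr rfl fun j _ => ?_
    rw [asb_fsum, Finset.mul_sum]
  have hae : (fun c => fsum y (fun R => ev R (∑ i, algebraMap ℂ Φ (a i) * f i) *
      (starRingEnd ℂ) (ev R (∑ i, algebraMap ℂ Φ (b i) * f i))) c) =ᵐ[volume]
      fun c => ∑ i, ∑ j, a i * (starRingEnd ℂ) (b j) *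
        fsum y (fun R => ev R (f i) * (starRingEnd ℂ) (ev R (f j))) c := by
    filter_upwards [hT.countable.ae_notMem volume] with c hc
    exact hpt c hc
  unfold ipx
  rw [integral_congr_ae hae, integral_finsetSum]
  · refine Finset.sum_congr rfl fun i _ => ?_
    rw [integral_finsetSum]
    · refine Finset.sum_congr rfl fun j _ => ?_
      rw [integral_const_mul]
    · intro j _
      exact (hint i j).const_mul _
  · intro i _
    exact integrable_finsetSum _ fun j _ => (hint i j).const_mul _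

theorem asb {x y : Φ} (hx : Transcendental ℂ x) (hy : Transcendental ℂ y) {ι : Type*} [Fintype ι]
    [DecidableEq ι] (f f' : ι → Φ)
    (hf' : ∀ i, ∀ R : Place ℂ Φ, 0 ≤ R.ordDiff (f' i • KaehlerDifferential.D ℂ Φ y)) (B : Matrix ι ι ℂ)
    (h : ∀ i, f i • KaehlerDifferential.D ℂ Φ x = ∑ j, B i j • (f' j • KaehlerDifferential.D ℂ Φ y)) :
    gram x f = B * gram y f' * B.conjTranspose := by
  have hF : ∀ i, f i * der hy x = ∑ j, algebraMap ℂ Φ (B i j) * f' j := by
    intro i
    apply (kaehlerEquiv hy).injective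
    rw [kaehlerEquiv_apply, kaehlerEquiv_apply, mul_smul, ← D_eq_der_smul hy x, h i, Finset.sum_smul]
    refine Finset.sum_congr rfl fun j _ => ?_
    rw [mul_smul, algebraMap_smul]
  have hreg : ∀ i, ∀ R : Place ℂ Φ, 0 ≤ R.ordDiff (f i • KaehlerDifferential.D ℂ Φ x) := by
    intro i R
    rw [D_eq_der_smul hy x, ← mul_smul, hF i, R.ordDiff_smul_D]
    have hm : (∑ j, algebraMap ℂ Φ (B i j) * f' j) * R.dv y ∈ R.ge 0 := by
      rw [Finset.sum_mul]
      refine sum_mem fun j _ => ?_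
      rw [mul_assoc]
      have h1 := hf' j R
      rw [R.ordDiff_smul_D] at h1
      have := R.mul_mem_ge (R.algebraMap_mem_ge (B i j)) (R.mem_ge_of_le h1)
      rwa [zero_add] at this
    rcases (R.mem_ge).1 hm with h0 | h0
    · rw [h0, R.ord_zero]
    · exact h0
  ext i j
  change ipx x (f i) (f j) = _
  rw [and_ip hx hy (f i) (f j) (hreg i) (hreg j), hF i, hF j, asb_lin hy f' hf']
  simp only [Matrix.mul_apply, Matrix.conjTranspose_apply, gram, Matrix.of_apply, Finset.sum_mul]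
  rw [Finset.sum_comm]
  refine Finset.sum_congr rfl fun l _ => Finset.sum_congr rfl fun k _ => ?_
  rw [starRingEnd_apply]
  ring

end Pool.Agent.HFB
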