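import Pool.Agent.HFB.ALO
import Pool.Agent.HFB.ASB

/-!
# HFB / AGD: lower bound for the Gram determinant

For `κ ∈ ℂ^ι`, `f_κ = ∑ κ_t f_t`: `Tr(f_κ u_j) = ∑_{t : (idx t).1 = j} κ_t x^(idx t).2`, so ALO gives `|κ_t|² ≤ n³ M³ A² Q(κ)`, `Q(κ) = ∫ fsum |f_κ|² = ipx x f_κ f_κ = ∑ κ_s conj(κ_t) G_st` (`asb_lin`).  Sum over `t`: `∑ |κ_t|² ≤ c Q(κ)`, `c = card ι · n³ M³ A²`.  So the Hermitian matrix `c G - 1` is positive semidefinite, all eigenvalues of `c G` are `≥ 1`,
and `c^(card ι) det G = det (c G) ≥ 1` (`Matrix.IsHermitian.det_eq_prod_eigenvalues`); the determinant of a Hermitian matrix is real.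
-/

namespace Pool.Agent.HFB

open Polynomial Pool.Agent.Helper11 Pool.Agent.ESH IntermediateField MeasureTheory
open scoped KaehlerDifferential

variable {Φ : Type*} [Field Φ] [Algebra ℂ Φ] [FunField ℂ Φ]

private theorem agd_conj (x f h : Φ) : (starRingEnd ℂ) (ipx x f h) = ipx x h f := by
  unfold ipx
  rw [← integral_conj]
  refine integral_congr_ae (Filter.Eventually.of_forall (fun c => ?_))
  show (starRingEnd ℂ) (fsum x (fun R => ev R f * (starRingEnd ℂ) (ev R h)) c) =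
    fsum x (fun R => ev R h * (starRingEnd ℂ) (ev R f)) c
  unfold fsum
  have h1 := AddMonoidHom.map_finsum_of_injective (starRingEnd ℂ).toAddMonoidHom
    (fun a b hab => (starRingEnd ℂ).injective hab)
    (fun R : Place ℂ Φ => if 1 ≤ R.ord (x - algebraMap ℂ Φ c) then ev R f * (starRingEnd ℂ) (ev R h) else 0)
  refine Eq.trans h1 (finsum_congr (fun R => ?_))
  show (starRingEnd ℂ) (if 1 ≤ R.ord (x - algebraMap ℂ Φ c) then ev R f * (starRingEnd ℂ) (ev R h) else 0) = _
  split_ifs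
  · rw [map_mul, Complex.conj_conj, mul_comm]
  · rw [map_zero]

private theorem agd_real (x g : Φ) :
    ipx x g g = ((∫ c, fsum x (fun R => ‖ev R g‖ ^ 2) c : ℝ) : ℂ) := by
  unfold ipx
  rw [← integral_complex_ofReal]
  refine integral_congr_ae (Filter.Eventually.of_forall (fun c => ?_))
  show fsum x (fun R => ev R g * (starRingEnd ℂ) (ev R g)) c =
    ((fsum x (fun R => ‖ev R g‖ ^ 2) c : ℝ) : ℂ)
  unfold fsum
  have h1 := AddMonoidHom.map_finsum_of_injective Complex.ofRealHom.toAddMonoidHom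
    (fun a b hab => Complex.ofReal_injective hab)
    (fun R : Place ℂ Φ => if 1 ≤ R.ord (x - algebraMap ℂ Φ c) then ‖ev R g‖ ^ 2 else 0)
  refine Eq.trans (finsum_congr (fun R => ?_)) h1.symm
  show _ = ((if 1 ≤ R.ord (x - algebraMap ℂ Φ c) then ‖ev R g‖ ^ 2 else 0 : ℝ) : ℂ)
  split_ifs
  · show ev R g * (starRingEnd ℂ) (ev R g) = _
    rw [Complex.mul_conj, Complex.normSq_eq_norm_sq]
  · rw [Complex.ofReal_zero]

private theorem agd_reg {x : Φ} {ι : Type*} [Fintype ι] (f : ι → Φ)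
    (hf : ∀ t, ∀ R : Place ℂ Φ, 0 ≤ R.ordDiff (f t • KaehlerDifferential.D ℂ Φ x)) (κ : ι → ℂ)
    (R : Place ℂ Φ) :
    0 ≤ R.ordDiff ((∑ t, algebraMap ℂ Φ (κ t) * f t) • KaehlerDifferential.D ℂ Φ x) := by
  rw [R.ordDiff_smul_D]
  have h1 : (∑ t, algebraMap ℂ Φ (κ t) * f t) * R.dv x ∈ R.ge 0 := by
    rw [Finset.sum_mul]
    refine sum_mem (fun t _ => ?_)
    have h2 := hf t R
    rw [R.ordDiff_smul_D] at h2
    have h3 := R.mul_mem_ge (R.algebraMap_mem_ge (κ t)) (R.mem_ge_of_le h2)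
    rwa [add_zero, ← mul_assoc] at h3
  rcases eq_or_ne ((∑ t, algebraMap ℂ Φ (κ t) * f t) * R.dv x) 0 with h | h
  · rw [h, R.ord_zero]
  · exact R.le_ord_of_mem h1 h

theorem agd {x : Φ} (hx : Transcendental ℂ x) {n : ℕ} (hn : Module.finrank ℂ⟮x⟯ Φ = n) (u : Fin n → Φ)
    (hu : LinearIndependent ℂ⟮x⟯ u) (c : Fin n → Fin n → Fin n → ℂ[X])
    (hc : ∀ i j, u i * u j = ∑ k, aeval x (c i j k) * u k) (A : ℝ) (hA : 1 ≤ A) (M : ℕ)
    (hcA : ∀ i j k s, ‖(c i j k).coeff s‖ ≤ A) (hcM : ∀ i j k, (c i j k).natDegree < M)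
    {ι : Type*} [Fintype ι] [DecidableEq ι] (idx : ι → Fin n × ℕ) (hidx : Function.Injective idx)
    (hidM : ∀ t, (idx t).2 < M) (f : ι → Φ)
    (hf : ∀ t, ∀ R : Place ℂ Φ, 0 ≤ R.ordDiff (f t • KaehlerDifferential.D ℂ Φ x))
    (htr : ∀ t i, ((Algebra.trace ℂ⟮x⟯ Φ (f t * u i) : ℂ⟮x⟯) : Φ) = if i = (idx t).1 then x ^ (idx t).2 else 0) :
    (gram x f).det.im = 0 ∧
      1 ≤ ((Fintype.card ι : ℝ) * n ^ 3 * M ^ 3 * A ^ 2) ^ Fintype.card ι * (gram x f).det.re := by
  -- the lower bound for the quadratic form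
  have hkey : ∀ κ : ι → ℂ, ∑ t, ‖κ t‖ ^ 2 ≤ ((Fintype.card ι : ℝ) * n ^ 3 * M ^ 3 * A ^ 2) *
      ∫ c, fsum x (fun R => ‖ev R (∑ t, algebraMap ℂ Φ (κ t) * f t)‖ ^ 2) c := by
    intro κ
    have h1 : ∀ t ∈ (Finset.univ : Finset ι), ‖κ t‖ ^ 2 ≤ n ^ 3 * M ^ 3 * A ^ 2 *
        ∫ c, fsum x (fun R => ‖ev R (∑ t, algebraMap ℂ Φ (κ t) * f t)‖ ^ 2) c := by
      intro t _
      set p : ℂ[X] := ∑ t', (if (idx t').1 = (idx t).1 then monomial (idx t').2 (κ t') else 0) with hp
      have hcoef : ∀ s, p.coeff s = ∑ t', (if (idx t').1 = (idx t).1 ∧ (idx t').2 = s then κ t' else 0) := by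
        intro s
        rw [hp, Polynomial.finsetSum_coeff]
        refine Finset.sum_congr rfl (fun t' _ => ?_)
        by_cases h2 : (idx t').1 = (idx t).1
        · rw [if_pos h2, Polynomial.coeff_monomial]
          by_cases h3 : (idx t').2 = s
          · rw [if_pos h3, if_pos ⟨h2, h3⟩]
          · rw [if_neg h3, if_neg (fun h => h3 h.2)]
        · rw [if_neg h2, Polynomial.coeff_zero, if_neg (fun h => h2 h.1)]
      have hpt : p.coeff (idx t).2 = κ t := by
        rw [hcoef, Finset.sum_eq_single t]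
        · rw [if_pos ⟨rfl, rfl⟩]
        · intro t' _ ht'
          rw [if_neg]
          rintro ⟨h2, h3⟩
          exact ht' (hidx (Prod.ext h2 h3))
        · intro h; exact absurd (Finset.mem_univ t) h
      have hM0 : 0 < M := lt_of_le_of_lt (Nat.zero_le _) (hidM t)
      have hpM : p.natDegree < M := by
        have h2 : p.natDegree ≤ M - 1 := by
          rw [Polynomial.natDegree_le_iff_coeff_eq_zero]
          intro s hs
          rw [hcoef]
          refine Finset.sum_eq_zero (fun t' _ => ?_)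
          rw [if_neg]
          rintro ⟨_, h3⟩
          have := hidM t'
          omega
        omega
      have htrp : ((Algebra.trace ℂ⟮x⟯ Φ ((∑ t, algebraMap ℂ Φ (κ t) * f t) * u (idx t).1) : ℂ⟮x⟯) : Φ) =
          aeval x p := by
        rw [Finset.sum_mul, map_sum, hp, map_sum, AddSubmonoidClass.coe_finsetSum]
        refine Finset.sum_congr rfl (fun t' _ => ?_)
        have h2 : algebraMap ℂ Φ (κ t') * f t' * u (idx t).1 =
            (algebraMap ℂ ℂ⟮x⟯ (κ t')) • (f t' * u (idx t).1) := by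
          rw [Algebra.smul_def, ← IsScalarTower.algebraMap_apply, mul_assoc]
        rw [h2, map_smul, smul_eq_mul]
        have h3 : ((algebraMap ℂ ℂ⟮x⟯ (κ t') * Algebra.trace ℂ⟮x⟯ Φ (f t' * u (idx t).1) : ℂ⟮x⟯) : Φ) =
            algebraMap ℂ Φ (κ t') * ((Algebra.trace ℂ⟮x⟯ Φ (f t' * u (idx t).1) : ℂ⟮x⟯) : Φ) := rfl
        rw [h3, htr]
        by_cases h4 : (idx t').1 = (idx t).1
        · rw [if_pos h4.symm, if_pos h4, Polynomial.aeval_monomial]
        · rw [if_neg (fun h => h4 h.symm), if_neg h4, map_zero, mul_zero]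
      have h5 := alo hx hn u hu c hc A hA M hcA hcM (∑ t, algebraMap ℂ Φ (κ t) * f t)
        (agd_reg f hf κ) (idx t).1 p htrp hpM (idx t).2
      rw [hpt] at h5
      exact h5
    refine (Finset.sum_le_sum h1).trans (le_of_eq ?_)
    rw [Finset.sum_const, Finset.card_univ, nsmul_eq_mul]
    ring
  set K : ℝ := (Fintype.card ι : ℝ) * n ^ 3 * M ^ 3 * A ^ 2 with hK
  have hH : (gram x f).IsHermitian := by
    refine Matrix.IsHermitian.ext (fun i j => ?_)
    show star (ipx x (f j) (f i)) = ipx x (f i) (f j)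
    exact agd_conj x (f j) (f i)
  -- the eigenvalues
  have hev : ∀ i, 1 ≤ K * hH.eigenvalues i := by
    intro i
    obtain ⟨v, hv⟩ : ∃ v : ι → ℂ, v = fun j => (hH.eigenvectorBasis i) j := ⟨_, rfl⟩
    have h1 : (gram x f).mulVec v = fun j => (hH.eigenvalues i : ℂ) * v j := by
      have h2 := hH.mulVec_eigenvectorBasis i
      funext j
      have h3 := congrFun h2 j
      rw [hv]
      refine Eq.trans h3 ?_
      simp [Complex.real_smul]
    have h4 : ∑ j, ‖v j‖ ^ 2 = 1 := by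
      have h5 := hH.eigenvectorBasis.orthonormal.1 i
      have h6 := EuclideanSpace.norm_sq_eq (hH.eigenvectorBasis i)
      rw [h5, one_pow] at h6
      rw [h6, hv]
    have h7 := hkey (fun t => (starRingEnd ℂ) (v t))
    have h8 := asb_lin hx f hf (fun t => (starRingEnd ℂ) (v t)) (fun t => (starRingEnd ℂ) (v t))
    rw [agd_real] at h8
    have h9 : ∑ i', ∑ j, (starRingEnd ℂ) (v i') * (starRingEnd ℂ) ((starRingEnd ℂ) (v j)) *
        ipx x (f i') (f j) = ((hH.eigenvalues i : ℝ) : ℂ) := by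
      have h10 : ∀ i', ∑ j, (starRingEnd ℂ) (v i') * (starRingEnd ℂ) ((starRingEnd ℂ) (v j)) *
          ipx x (f i') (f j) = (hH.eigenvalues i : ℂ) * ((‖v i'‖ ^ 2 : ℝ) : ℂ) := by
        intro i'
        have h11 : ∑ j, (starRingEnd ℂ) (v i') * (starRingEnd ℂ) ((starRingEnd ℂ) (v j)) *
            ipx x (f i') (f j) = (starRingEnd ℂ) (v i') * (gram x f).mulVec v i' := by
          rw [Matrix.mulVec, dotProduct, Finset.mul_sum]
          refine Finset.sum_congr rfl (fun j _ => ?_)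
          rw [Complex.conj_conj]
          show _ = (starRingEnd ℂ) (v i') * (ipx x (f i') (f j) * v j)
          ring
        rw [h11, h1]
        show (starRingEnd ℂ) (v i') * ((hH.eigenvalues i : ℂ) * v i') = _
        rw [← Complex.normSq_eq_norm_sq, ← Complex.mul_conj]
        ring
      simp only [h10]
      rw [← Finset.mul_sum, ← Complex.ofReal_sum, h4]
      simp
    rw [h9] at h8
    have h12 : (∫ c, fsum x (fun R => ‖ev R (∑ t, algebraMap ℂ Φ ((starRingEnd ℂ) (v t)) * f t)‖ ^ 2) c) =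
        hH.eigenvalues i := by exact_mod_cast h8
    rw [h12] at h7
    have h13 : ∑ t, ‖(starRingEnd ℂ) (v t)‖ ^ 2 = 1 := by
      rw [← h4]
      refine Finset.sum_congr rfl (fun t _ => ?_)
      rw [RCLike.norm_conj]
    rw [h13] at h7
    exact h7
  have hdet : (gram x f).det = ((∏ i, hH.eigenvalues i : ℝ) : ℂ) := by
    rw [hH.det_eq_prod_eigenvalues, Complex.ofReal_prod]
    rfl
  constructor
  · rw [hdet, Complex.ofReal_im]
  · rw [hdet, Complex.ofReal_re, ← Finset.card_univ, ← Finset.prod_const, ← Finset.prod_mul_distrib]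
    calc (1 : ℝ) = ∏ _i : ι, (1 : ℝ) := by simp
      _ ≤ ∏ i, (K * hH.eigenvalues i) :=
        Finset.prod_le_prod (fun _ _ => zero_le_one) (fun i _ => hev i)

end Pool.Agent.HFB
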