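import Pool.Agent.HFB.DefsV
import Pool.Agent.Helper11.Chi
import Pool.Agent.ESH.EVL

/-!
# HFB / CHA: regular differentials on an affine curve are sums of products b dc

Let `A` be the ring of the functions without poles at finite values of `x` (Helper11 `Ox k x`: a Dedekind domain with fraction field `Φ`).  `I = {s ∈ A : s ω ∈ ∑ A dA}` is an ideal of `A`.  For every `R` with `0 ≤ R.ord x` there is `s ∈ I` with `ev R s ≠ 0`: take `t ∈ A` with `R.ord t = 1` (numerator of `R.unif`, `exists_frac`), `ω = h dt` with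
`R.ord h ≥ 0` (`ordDiff`), and `s ∈ A` with `R.ord s = 0`, `s h ∈ A` (`exists_frac`); `s ω = (s h) dt`.  If `I ≠ A` take a maximal ideal containing `I`: it is the set of the elements of `A` vanishing at some place `R` with `0 ≤ R.ord x` (Helper11 `placeOfPrime`), contradiction.  So `1 ∈ I`.
-/

namespace Pool.Agent.HFB

open Polynomial Pool.Agent.Helper11 Pool.Agent.ESH IntermediateField
open scoped KaehlerDifferential
open IsDedekindDomain

variable {k Φ : Type*} [Field k] [Field Φ] [Algebra k Φ] [FunField k Φ] [CharZero k] [IsAlgClosed k]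

private def SS (x : Φ) (ω : Ω[Φ⁄k]) : Prop :=
  ∃ (m : ℕ) (b c : Fin m → Φ), (∀ i, ∀ R : Place k Φ, 0 ≤ R.ord x → b i ∈ R.ge 0 ∧ c i ∈ R.ge 0) ∧
      ω = ∑ i, b i • KaehlerDifferential.D k Φ (c i)

omit [FunField k Φ] [CharZero k] [IsAlgClosed k] in
private theorem ss_zero (x : Φ) : SS x (0 : Ω[Φ⁄k]) :=
  ⟨0, fun i => i.elim0, fun i => i.elim0, fun i => i.elim0, by simp⟩

omit [FunField k Φ] [CharZero k] [IsAlgClosed k] in
private theorem ss_add (x : Φ) {ω η : Ω[Φ⁄k]} (h1 : SS x ω) (h2 : SS x η) : SS x (ω + η) := by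
  obtain ⟨m, b, c, h3, rfl⟩ := h1
  obtain ⟨m', b', c', h3', rfl⟩ := h2
  refine ⟨m + m', Fin.append b b', Fin.append c c', ?_, ?_⟩
  · intro i R hR
    refine Fin.addCases (fun j => ?_) (fun j => ?_) i
    · rw [Fin.append_left, Fin.append_left]; exact h3 j R hR
    · rw [Fin.append_right, Fin.append_right]; exact h3' j R hR
  · rw [Fin.sum_univ_add]
    simp only [Fin.append_left, Fin.append_right]

omit [FunField k Φ] [CharZero k] [IsAlgClosed k] in
private theorem ss_smul (x : Φ) {ω : Ω[Φ⁄k]} (h1 : SS x ω) (a : Φ) (ha : ∀ R : Place k Φ, 0 ≤ R.ord x → a ∈ R.ge 0) :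
    SS x (a • ω) := by
  obtain ⟨m, b, c, h3, rfl⟩ := h1
  refine ⟨m, fun i => a * b i, c, ?_, ?_⟩
  · intro i R hR
    refine ⟨?_, (h3 i R hR).2⟩
    have := R.mul_mem_ge (ha R hR) (h3 i R hR).1
    rwa [zero_add] at this
  · rw [Finset.smul_sum]
    refine Finset.sum_congr rfl (fun i _ => ?_)
    rw [mul_smul]

omit [FunField k Φ] [CharZero k] [IsAlgClosed k] in
private theorem ox_mem {x : Φ} (a : Ox k x) (R : Place k Φ) (hR : 0 ≤ R.ord x) : (a : Φ) ∈ R.ge 0 :=
  R.mem_ge_of_mem_Ox (Or.inr hR) a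

omit [FunField k Φ] [CharZero k] [IsAlgClosed k] in
private theorem ss_one {x : Φ} (a b : Ox k x) : SS x ((a : Φ) • KaehlerDifferential.D k Φ (b : Φ)) := by
  refine ⟨1, fun _ => (a : Φ), fun _ => (b : Φ), fun i R hR => ⟨ox_mem a R hR, ox_mem b R hR⟩, ?_⟩
  simp

private theorem cha_loc {x : Φ} (hx : Transcendental k x) (ω : Ω[Φ⁄k]) (R : Place k Φ) (hR : 0 ≤ R.ord x)
    (hω : 0 ≤ R.ordDiff ω) : ∃ s : Ox k x, (s : Φ) ≠ 0 ∧ R.ord (s : Φ) = 0 ∧ SS x ((s : Φ) • ω) := by
  have hx0 : x ∈ R.ge 0 := Or.inr hR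
  obtain ⟨n, d, hd0, hd1, hnd⟩ := R.exists_frac hx hx0 (y := R.unif) (Or.inr (by rw [R.ord_unif]; decide))
  have hn1 : R.ord (n : Φ) = 1 := by
    rw [← hnd, R.ord_mul _ _ R.unif_ne_zero hd0, hd1, R.ord_unif, add_zero]
  have htr : Transcendental k (n : Φ) := R.transcendental_of_ord_ne_zero (by rw [hn1]; decide)
  obtain ⟨h1, h2⟩ := R.ord_dv_unif' hn1
  set h := (kaehlerEquiv htr).symm ω with hh
  have hω' : ω = h • KaehlerDifferential.D k Φ (n : Φ) := by
    rw [← kaehlerEquiv_apply htr, hh, LinearEquiv.apply_symm_apply]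
  have hh0 : h ∈ R.ge 0 := by
    by_cases h0 : h = 0
    · rw [h0]; exact zero_mem _
    · refine Or.inr ?_
      rw [hω', R.ordDiff_smul_D, R.ord_mul _ _ h0 h1, h2, add_zero] at hω
      exact hω
  obtain ⟨n', d', hd0', hd1', hnd'⟩ := R.exists_frac hx hx0 hh0
  refine ⟨d', hd0', hd1', ?_⟩
  rw [hω', smul_smul, mul_comm, hnd']
  exact ss_one n' n

theorem cha {x : Φ} (hx : Transcendental k x) (ω : Ω[Φ⁄k])
    (hω : ∀ R : Place k Φ, 0 ≤ R.ord x → 0 ≤ R.ordDiff ω) :
    ∃ (m : ℕ) (b c : Fin m → Φ), (∀ i, ∀ R : Place k Φ, 0 ≤ R.ord x → b i ∈ R.ge 0 ∧ c i ∈ R.ge 0) ∧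
      ω = ∑ i, b i • KaehlerDifferential.D k Φ (c i) := by
  classical
  have hF : Fact (Transcendental k x) := ⟨hx⟩
  let I : Ideal (Ox k x) :=
    { carrier := {s | SS x ((s : Φ) • ω)}
      zero_mem' := by
        change SS x (((0 : Ox k x) : Φ) • ω)
        have : ((0 : Ox k x) : Φ) = 0 := rfl
        rw [this, zero_smul]
        exact ss_zero x
      add_mem' := by
        intro a b ha hb
        change SS x (((a + b : Ox k x) : Φ) • ω)
        have : ((a + b : Ox k x) : Φ) = (a : Φ) + (b : Φ) := rfl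
        rw [this, add_smul]
        exact ss_add x ha hb
      smul_mem' := by
        intro c a ha
        change SS x (((c * a : Ox k x) : Φ) • ω)
        have : ((c * a : Ox k x) : Φ) = (c : Φ) * (a : Φ) := rfl
        rw [this, mul_smul]
        exact ss_smul x ha _ (fun R hR => ox_mem c R hR) }
  have hI : ∀ s : Ox k x, s ∈ I ↔ SS x ((s : Φ) • ω) := fun s => Iff.rfl
  have hbot : ∃ s ∈ I, s ≠ 0 := by
    obtain ⟨a, b, hb, hab⟩ := IsFractionRing.div_surjective (A := Ox k x) ((kaehlerEquiv hx).symm ω)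
    refine ⟨b, ?_, nonZeroDivisors.ne_zero hb⟩
    have hb0 : (b : Φ) ≠ 0 := by
      intro h
      exact nonZeroDivisors.ne_zero hb (Subtype.ext h)
    rw [hI]
    have h1 : ω = ((a : Φ) / (b : Φ)) • KaehlerDifferential.D k Φ x := by
      have h2 : (a : Φ) / (b : Φ) = (kaehlerEquiv hx).symm ω := hab
      rw [h2, ← kaehlerEquiv_apply hx, LinearEquiv.apply_symm_apply]
    rw [h1, smul_smul, mul_div_cancel₀ _ hb0]
    exact ss_one a (algebraMap (Rx k x) (Ox k x) (xR k x))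
  have htop : I = ⊤ := by
    by_contra hne
    obtain ⟨M, hM, hIM⟩ := Ideal.exists_le_maximal I hne
    obtain ⟨s, hs, hs0⟩ := hbot
    have hMb : M ≠ ⊥ := by
      intro h
      have := hIM hs
      rw [h, Ideal.mem_bot] at this
      exact hs0 this
    let P : HeightOneSpectrum (Ox k x) := ⟨M, hM.isPrime, hMb⟩
    have hval : ∀ a : Ox k x, P.valuation Φ (a : Φ) ≤ 1 := fun a => P.valuation_le_one a
    have hlog : ∀ y : Φ, y ≠ 0 → P.valuation Φ y ≤ 1 → 0 ≤ (placeOfPrime P).ord y := by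
      intro y hy h1
      rw [placeOfPrime_ord]
      have h4 : P.valuation Φ y ≠ 0 := (Valuation.ne_zero_iff _).2 hy
      rw [← WithZero.log_le_log h4 one_ne_zero, WithZero.log_one] at h1
      omega
    have hx0 : x ≠ 0 := fun h => hx (by rw [h]; exact isAlgebraic_zero)
    have hR : 0 ≤ (placeOfPrime P).ord x :=
      hlog x hx0 (hval (algebraMap (Rx k x) (Ox k x) (xR k x)))
    obtain ⟨t, ht0, ht1, ht2⟩ := cha_loc hx ω (placeOfPrime P) hR (hω _ hR)
    have htM : t ∈ M := hIM ((hI t).2 ht2)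
    have h5 : P.valuation Φ (t : Φ) < 1 := (P.valuation_lt_one_iff_mem (K := Φ) t).2 htM
    have h4 : P.valuation Φ (t : Φ) ≠ 0 := (Valuation.ne_zero_iff _).2 ht0
    rw [placeOfPrime_ord] at ht1
    rw [← WithZero.log_lt_log h4 one_ne_zero, WithZero.log_one] at h5
    omega
  have h1 : (1 : Ox k x) ∈ I := by rw [htop]; trivial
  rw [hI] at h1
  have : ((1 : Ox k x) : Φ) = 1 := rfl
  rw [this, one_smul] at h1
  exact h1

end Pool.Agent.HFB
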