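import Pool.Agent.HFB.DefsV
import Pool.Agent.Helper11.Chi

/-!
# HFB / CHJ: integrality of functions without poles at finite values of `x`

`chj_int`: `g` belongs to the integral closure of `k[x]` (Helper11 `Ox`, an element which is in all the valuation rings `R.ge 0` with `0 ≤ R.ord x`; see Helper11 Model / Place files: the integral closure is the intersection of the localisations, i.e. of the valuation rings of the places).
`chj_fin`: `S` = all the coefficients of the coefficients `P.coeff i ∈ k[X]` of the monic polynomial; if `x ∈ W` then `P.coeff i (x) ∈ W` and `W` is integrally closed.  `chj_scale`: `c g` is a root of the monic polynomial with coefficients `c^(m-i) P.coeff i`; choose `c ≠ 0` with `a c ≤ 1` and `a (c s) ≤ 1` for all `s` in `S`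
(if `a` is trivial `c = 1` works; otherwise there are `c ≠ 0` with `a c` arbitrarily small).
-/

namespace Pool.Agent.HFB

open Polynomial Pool.Agent.Helper11 Pool.Agent.ESH IntermediateField
open scoped KaehlerDifferential

variable {k Φ : Type*} [Field k] [Field Φ] [Algebra k Φ] [FunField k Φ] [CharZero k] [IsAlgClosed k]

open scoped IntermediateField.algebraAdjoinAdjoin in
omit [IsAlgClosed k] in
/-- functions without poles at finite values of `x` are integral over `k[x]` -/
private theorem chj_mem {x : Φ} (hx : Transcendental k x) {f : Φ}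
    (hf : ∀ R : Place k Φ, 0 ≤ R.ord x → f ∈ R.ge 0) : IsIntegral (Rx k x) f := by
  have hF : Fact (Transcendental k x) := ⟨hx⟩
  obtain ⟨a, ha⟩ := IsDedekindDomain.HeightOneSpectrum.mem_integers_of_valuation_le_one
    (R := Ox k x) Φ f (fun P => by
      by_cases hf0 : f = 0
      · rw [hf0, map_zero]; exact zero_le_one
      have h1 : 0 ≤ (placeOfPrime P).ord x := by
        rw [placeOfPrime_ord]
        have h2 : P.valuation Φ (algebraMap (Ox k x) Φ (algebraMap (Rx k x) (Ox k x) (xR k x))) ≤ 1 :=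
          P.valuation_le_one _
        have h3 : algebraMap (Ox k x) Φ (algebraMap (Rx k x) (Ox k x) (xR k x)) = x := rfl
        rw [h3] at h2
        have hx0 : x ≠ 0 := by
          rintro rfl
          exact hx isAlgebraic_zero
        have h4 : P.valuation Φ x ≠ 0 := (Valuation.ne_zero_iff _).2 hx0
        have h5 := (WithZero.log_le_log h4 one_ne_zero).2 h2
        rw [WithZero.log_one] at h5
        omega
      have h6 := (placeOfPrime P).le_ord_of_mem (hf _ h1) hf0
      rw [placeOfPrime_ord] at h6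
      have h4 : P.valuation Φ f ≠ 0 := (Valuation.ne_zero_iff _).2 hf0
      refine (WithZero.log_le_log h4 one_ne_zero).1 ?_
      rw [WithZero.log_one]
      omega)
  rw [← ha]
  exact a.2

theorem chj_int {x : Φ} (hx : Transcendental k x) (g : Φ) (hg : ∀ R : Place k Φ, 0 ≤ R.ord x → g ∈ R.ge 0) :
    ∃ P : k[X][X], P.Monic ∧ Polynomial.eval₂ (aeval x : k[X] →ₐ[k] Φ).toRingHom g P = 0 := by
  obtain ⟨p, hp, hp0⟩ := chj_mem hx hg
  let e := Polynomial.algEquivOfTranscendental k x hx
  refine ⟨p.map (e.symm : Rx k x →+* k[X]), hp.map _, ?_⟩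
  rw [Polynomial.eval₂_map]
  have h1 : ((aeval x : k[X] →ₐ[k] Φ).toRingHom).comp (e.symm : Rx k x →+* k[X]) =
      algebraMap (Rx k x) Φ := by
    apply RingHom.ext
    intro r
    obtain ⟨q, rfl⟩ := e.surjective r
    rw [RingHom.comp_apply]
    have h2 : (e.symm : Rx k x →+* k[X]) (e q) = q := e.symm_apply_apply q
    rw [h2]
    have h3 : (e q : Φ) = aeval x q := by
      have h4 : e q = aeval (⟨x, Algebra.self_mem_adjoin_singleton k x⟩ : Algebra.adjoin k {x}) q :=
        DFunLike.congr_fun (Polynomial.algEquivOfTranscendental_coe k x hx) q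
      rw [h4]
      exact (Polynomial.aeval_algebraMap_apply Φ
        (⟨x, Algebra.self_mem_adjoin_singleton k x⟩ : Algebra.adjoin k {x}) q).symm
    exact h3.symm
  rw [h1]
  exact hp0

omit [FunField k Φ] [CharZero k] [IsAlgClosed k] in
/-- valuation rings are integrally closed -/
private theorem chj_cl (W : ValuationSubring Φ) (Q : Φ[X]) (hQ : Q.Monic) (hc : ∀ i, Q.coeff i ∈ W)
    (g : Φ) (hg : Q.eval g = 0) : g ∈ W := by
  have h1 : Q ∈ Polynomial.lifts (algebraMap W Φ) := by
    rw [Polynomial.lifts_iff_coeff_lifts]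
    intro i
    exact ⟨⟨_, hc i⟩, rfl⟩
  obtain ⟨q, hq, _, hqm⟩ := Polynomial.lifts_and_natDegree_eq_and_monic h1 hQ
  have h2 : IsIntegral W g := by
    refine ⟨q, hqm, ?_⟩
    rw [← Polynomial.eval_map, hq, hg]
  obtain ⟨y, hy⟩ := (IsIntegrallyClosed.isIntegral_iff (R := W) (K := Φ)).1 h2
  rw [← hy]
  exact y.2

omit [FunField k Φ] [CharZero k] [IsAlgClosed k] in
private theorem chj_ev {a : AbsoluteValue k ℝ} (W : ValuationSubring Φ)
    (hW : ∀ c : k, algebraMap k Φ c ∈ W ↔ a c ≤ 1) {x : Φ} (hx : x ∈ W) (q : k[X])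
    (hq : ∀ j, a (q.coeff j) ≤ 1) : aeval x q ∈ W := by
  rw [Polynomial.aeval_eq_sum_range]
  refine sum_mem fun j _ => ?_
  rw [Algebra.smul_def]
  exact mul_mem ((hW _).2 (hq j)) (pow_mem hx j)


theorem chj_fin {x : Φ} (hx : Transcendental k x) (g : Φ) (hg : ∀ R : Place k Φ, 0 ≤ R.ord x → g ∈ R.ge 0) :
    ∃ S : Finset k, ∀ a : AbsoluteValue k ℝ, IsNonarchimedean a → (∀ s ∈ S, a s ≤ 1) →
      ∀ W : ValuationSubring Φ, (∀ c : k, algebraMap k Φ c ∈ W ↔ a c ≤ 1) → x ∈ W → g ∈ W := by
  classical
  obtain ⟨P, hP, hP0⟩ := chj_int hx g hg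
  refine ⟨P.support.biUnion fun i => (P.coeff i).support.image fun j => (P.coeff i).coeff j, ?_⟩
  intro a _ hS W hW hxW
  apply chj_cl W (P.map (aeval x : k[X] →ₐ[k] Φ).toRingHom) (hP.map _)
  · intro i
    rw [Polynomial.coeff_map]
    apply chj_ev W hW hxW
    intro j
    by_cases h1 : (P.coeff i).coeff j = 0
    · rw [h1, map_zero]
      exact zero_le_one
    · apply hS
      rw [Finset.mem_biUnion]
      refine ⟨i, ?_, Finset.mem_image.2 ⟨j, ?_, rfl⟩⟩
      · rw [Polynomial.mem_support_iff]
        intro h2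
        apply h1
        rw [h2, coeff_zero]
      · rw [Polynomial.mem_support_iff]
        exact h1
  · rw [Polynomial.eval_map]
    exact hP0

omit [FunField k Φ] [CharZero k] [IsAlgClosed k] in
private theorem chj_c (a : AbsoluteValue k ℝ) (S : Finset k) :
    ∃ c : k, c ≠ 0 ∧ a c ≤ 1 ∧ ∀ s ∈ S, a (c * s) ≤ 1 := by
  classical
  induction S using Finset.induction_on with
  | empty => exact ⟨1, one_ne_zero, by rw [map_one], fun s hs => absurd hs (Finset.notMem_empty s)⟩
  | insert s S hs ih =>
    obtain ⟨c, hc0, hc1, hc⟩ := ih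
    by_cases h1 : a s ≤ 1
    · refine ⟨c, hc0, hc1, fun t ht => ?_⟩
      rcases Finset.mem_insert.1 ht with rfl | ht
      · rw [map_mul]
        exact mul_le_one₀ hc1 (a.nonneg _) h1
      · exact hc t ht
    · push Not at h1
      have hs0 : s ≠ 0 := by
        rintro rfl
        rw [map_zero] at h1
        linarith
      have h2 : a s⁻¹ ≤ 1 := by
        rw [map_inv₀]
        exact inv_le_one_of_one_le₀ h1.le
      refine ⟨c * s⁻¹, mul_ne_zero hc0 (inv_ne_zero hs0), ?_, fun t ht => ?_⟩
      · rw [map_mul]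
        exact mul_le_one₀ hc1 (a.nonneg _) h2
      · rcases Finset.mem_insert.1 ht with rfl | ht
        · rw [mul_assoc, inv_mul_cancel₀ hs0, mul_one]
          exact hc1
        · have h3 : c * s⁻¹ * t = (c * t) * s⁻¹ := by ring
          rw [h3, map_mul]
          exact mul_le_one₀ (hc t ht) (a.nonneg _) h2

theorem chj_scale {x : Φ} (hx : Transcendental k x) (g : Φ) (hg : ∀ R : Place k Φ, 0 ≤ R.ord x → g ∈ R.ge 0)
    (a : AbsoluteValue k ℝ) (ha : IsNonarchimedean a) :
    ∃ c : k, c ≠ 0 ∧ a c ≤ 1 ∧ ∀ W : ValuationSubring Φ, (∀ c : k, algebraMap k Φ c ∈ W ↔ a c ≤ 1) → x ∈ W →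
      algebraMap k Φ c * g ∈ W := by
  classical
  obtain ⟨P, hP, hP0⟩ := chj_int hx g hg
  obtain ⟨c, hc0, hc1, hc⟩ := chj_c a
    (P.support.biUnion fun i => (P.coeff i).support.image fun j => (P.coeff i).coeff j)
  refine ⟨c, hc0, hc1, ?_⟩
  intro W hW hxW
  have hcW : algebraMap k Φ c ∈ W := (hW c).2 hc1
  have hQ : (P.map (aeval x : k[X] →ₐ[k] Φ).toRingHom).Monic := hP.map _
  apply chj_cl W (Polynomial.scaleRoots (P.map (aeval x : k[X] →ₐ[k] Φ).toRingHom)
    (algebraMap k Φ c)) ((Polynomial.monic_scaleRoots_iff _).2 hQ)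
  · intro i
    rw [Polynomial.coeff_scaleRoots]
    rcases lt_trichotomy i (P.map (aeval x : k[X] →ₐ[k] Φ).toRingHom).natDegree with h1 | h1 | h1
    · obtain ⟨m, hm⟩ : ∃ m, (P.map (aeval x : k[X] →ₐ[k] Φ).toRingHom).natDegree - i = m + 1 :=
        ⟨_, (Nat.succ_pred_eq_of_pos (Nat.sub_pos_of_lt h1)).symm⟩
      rw [hm, pow_succ', ← mul_assoc]
      apply mul_mem _ (pow_mem hcW m)
      rw [Polynomial.coeff_map]
      have h2 : (aeval x : k[X] →ₐ[k] Φ).toRingHom (P.coeff i) * algebraMap k Φ c =
          aeval x (C c * P.coeff i) := by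
        rw [map_mul, aeval_C, mul_comm]
        rfl
      rw [h2]
      apply chj_ev W hW hxW
      intro j
      rw [coeff_C_mul]
      by_cases h3 : (P.coeff i).coeff j = 0
      · rw [h3, mul_zero, map_zero]
        exact zero_le_one
      · apply hc
        rw [Finset.mem_biUnion]
        refine ⟨i, ?_, Finset.mem_image.2 ⟨j, ?_, rfl⟩⟩
        · rw [Polynomial.mem_support_iff]
          intro h4
          apply h3
          rw [h4, coeff_zero]
        · rw [Polynomial.mem_support_iff]
          exact h3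
    · rw [h1, Nat.sub_self, pow_zero, mul_one, hQ.coeff_natDegree]
      exact one_mem W
    · rw [Polynomial.coeff_eq_zero_of_natDegree_lt h1, zero_mul]
      exact zero_mem W
  · have h1 : Polynomial.eval g (P.map (aeval x : k[X] →ₐ[k] Φ).toRingHom) = 0 := by
      rw [Polynomial.eval_map]
      exact hP0
    have h2 := Polynomial.scaleRoots_eval₂_eq_zero (RingHom.id Φ)
      (p := P.map (aeval x : k[X] →ₐ[k] Φ).toRingHom) (r := g) (s := algebraMap k Φ c) (by
        rw [Polynomial.eval₂_id]; exact h1)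
    rw [RingHom.id_apply, Polynomial.eval₂_id] at h2
    exact h2

end Pool.Agent.HFB
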