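import Pool.Agent.HFB.DefsR
import Pool.Agent.ESH.EVL
import Pool.Agent.Helper11.Degree
import Pool.Agent.Helper11.Chi

/-!
# HFB / RGM: elementary properties of reduced bases

`rgm_frac`: the finitely many poles of `f` at finite values `c` of `x` are killed by a product `q` of powers `(x - c)^m` (`finite_ord_ne_zero`; `evl`), and for `m` large the condition at the poles of `x` holds.
`rgm_ind`: clear denominators in `C(x)` (`IntermediateField.mem_adjoin_simple_iff` or the isomorphism with `RatFunc`).  `rgm_span` from `rgm_frac` and `span`.  `rgm_card`: `u` is a basis of `Φ` over `C(x)`.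
`rgm_uniq`: `ind` applied to the difference.
`rgm_deg`: `span` for `m` and uniqueness.
-/

namespace Pool.Agent.HFB

open Polynomial Pool.Agent.Helper11 Pool.Agent.ESH IntermediateField

variable {K Φ : Type*} [Field K] [Field Φ] [Algebra K Φ] [FunField K Φ] [CharZero K] [IsAlgClosed K]
  {x : Φ} {n : ℕ} {d : Fin n → ℕ} {u : Fin n → Φ}

omit [FunField K Φ] [CharZero K] [IsAlgClosed K] in
private theorem rgm_aeval_ne (hx : Transcendental K x) {q : K[X]} (hq : q ≠ 0) : aeval x q ≠ 0 := by
  intro h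
  exact hx ⟨q, hq, h⟩

omit [FunField K Φ] [CharZero K] [IsAlgClosed K] in
private theorem rgm_aeval_ge (R : Place K Φ) (h : 0 ≤ R.ord x) (q : K[X]) : aeval x q ∈ R.ge 0 := by
  induction q using Polynomial.induction_on' with
  | add p q hp hq => rw [map_add]; exact add_mem hp hq
  | monomial k c =>
    rw [aeval_monomial]
    have h1 := R.mul_mem_ge (R.algebraMap_mem_ge c) (R.pow_mem_ge (R.mem_ge_of_le h) k)
    simpa using h1

theorem rgm_frac (hx : Transcendental K x) (f : Φ) :
    ∃ q : K[X], q ≠ 0 ∧ ∃ m : ℕ, PolB K x m (aeval x q * f) := by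
  classical
  have hfin := finite_ord_ne_zero (k := K) f
  set S : Finset (Place K Φ) := hfin.toFinset with hS
  set q : K[X] := ∏ R ∈ S, (X - C (ev R x)) ^ (R.ord f).natAbs with hq
  have hq0 : q ≠ 0 := by
    rw [hq]
    exact Finset.prod_ne_zero_iff.2 fun R _ => pow_ne_zero _ (X_sub_C_ne_zero _)
  set g : Φ := aeval x q * f with hg
  have hfin2 := finite_ord_ne_zero (k := K) g
  refine ⟨q, hq0, ∑ R ∈ hfin2.toFinset, (R.ord g).natAbs, ?_, ?_⟩
  · intro R hR
    by_cases hf0 : 0 ≤ R.ord f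
    · have := R.mul_mem_ge (rgm_aeval_ge R hR q) (R.mem_ge_of_le hf0)
      simpa using this
    · have hRS : R ∈ S := by
        rw [hS, Set.Finite.mem_toFinset]
        change R.ord f ≠ 0
        omega
      have h1 : q = (∏ R' ∈ S.erase R, (X - C (ev R' x)) ^ (R'.ord f).natAbs) *
          (X - C (ev R x)) ^ (R.ord f).natAbs := by
        rw [hq, mul_comm, ← Finset.mul_prod_erase S _ hRS]
      rw [h1, map_mul, map_pow, map_sub, aeval_X, aeval_C, mul_assoc]
      have h2 := R.pow_mem_ge (evl_mem R (R.mem_ge_of_le hR)) (R.ord f).natAbs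
      have h3 := R.mul_mem_ge h2 (R.mem_ge_ord f)
      have h4 := R.mul_mem_ge (rgm_aeval_ge R hR (∏ R' ∈ S.erase R, (X - C (ev R' x)) ^ (R'.ord f).natAbs)) h3
      refine R.ge_anti ?_ h4
      push_cast
      rw [abs_of_neg (by omega)]
      omega
  · intro R hR
    by_cases h0 : R.ord g = 0
    · apply R.mem_ge_of_le
      rw [h0]
      have : 0 ≤ ((∑ R ∈ hfin2.toFinset, (R.ord g).natAbs : ℕ) : ℤ) := Int.natCast_nonneg _
      nlinarith
    · apply R.mem_ge_of_le
      have h1 : R ∈ hfin2.toFinset := by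
        rw [Set.Finite.mem_toFinset]; exact h0
      have h2 : (R.ord g).natAbs ≤ ∑ R ∈ hfin2.toFinset, (R.ord g).natAbs :=
        Finset.single_le_sum (f := fun R : Place K Φ => (R.ord g).natAbs) (fun _ _ => Nat.zero_le _) h1
      set M := ∑ R ∈ hfin2.toFinset, (R.ord g).natAbs with hM
      have h3 : ((R.ord g).natAbs : ℤ) ≤ (M : ℤ) := by exact_mod_cast h2
      have h4 : - R.ord g ≤ ((R.ord g).natAbs : ℤ) := by omega
      nlinarith

omit [FunField K Φ] [CharZero K] [IsAlgClosed K] in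
private theorem rgm_frac_rep (hx : Transcendental K x) (g : K⟮x⟯) :
    ∃ r s : K[X], s ≠ 0 ∧ (g : Φ) * aeval x s = aeval x r := by
  obtain ⟨r, s, h⟩ := (IntermediateField.mem_adjoin_simple_iff K (g : Φ)).1 g.2
  by_cases hs : s = 0
  · refine ⟨0, 1, one_ne_zero, ?_⟩
    rw [h, hs]; simp
  · refine ⟨r, s, hs, ?_⟩
    rw [h, div_mul_cancel₀ _ (rgm_aeval_ne hx hs)]

theorem rgm_ind (hu : RBas K x d u) : LinearIndependent K⟮x⟯ u := by
  classical
  rw [Fintype.linearIndependent_iff]
  intro g hg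
  choose r s hs hrs using fun i => rgm_frac_rep hu.tr (g i)
  have h1 : ∑ i, aeval x (r i * ∏ j ∈ Finset.univ.erase i, s j) * u i = 0 := by
    have h2 : ∀ i, aeval x (r i * ∏ j ∈ Finset.univ.erase i, s j) * u i =
        aeval x (∏ j, s j) * (g i • u i) := by
      intro i
      rw [map_mul, ← hrs i, ← Finset.mul_prod_erase Finset.univ s (Finset.mem_univ i), map_mul,
        IntermediateField.smul_def, smul_eq_mul]
      ring
    rw [Finset.sum_congr rfl fun i _ => h2 i, ← Finset.mul_sum, hg, mul_zero]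
  have h3 := hu.ind _ h1
  intro i
  have h4 : r i * ∏ j ∈ Finset.univ.erase i, s j = 0 := congrFun h3 i
  have h5 : r i = 0 := by
    rcases mul_eq_zero.1 h4 with h | h
    · exact h
    · exact absurd h (Finset.prod_ne_zero_iff.2 fun j _ => hs j)
  have h6 := hrs i
  rw [h5, map_zero] at h6
  rcases mul_eq_zero.1 h6 with h | h
  · exact_mod_cast h
  · exact absurd h (rgm_aeval_ne hu.tr (hs i))

omit [FunField K Φ] [CharZero K] [IsAlgClosed K] in
private theorem rgm_aeval_mem (q : K[X]) : aeval x q ∈ K⟮x⟯ :=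
  (IntermediateField.mem_adjoin_simple_iff K _).2 ⟨q, 1, by simp⟩

theorem rgm_span (hu : RBas K x d u) : Submodule.span K⟮x⟯ (Set.range u) = ⊤ := by
  rw [eq_top_iff]
  intro f _
  obtain ⟨q, hq, m, hm⟩ := rgm_frac (K := K) hu.tr f
  obtain ⟨p, _, hp⟩ := hu.span m _ hm
  have hq0 := rgm_aeval_ne hu.tr hq
  have h1 : f = ∑ i, (⟨aeval x (p i) * (aeval x q)⁻¹, mul_mem (rgm_aeval_mem _)
      (inv_mem (rgm_aeval_mem _))⟩ : K⟮x⟯) • u i := by
    have h2 : ∀ i, (⟨aeval x (p i) * (aeval x q)⁻¹, mul_mem (rgm_aeval_mem _)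
      (inv_mem (rgm_aeval_mem _))⟩ : K⟮x⟯) • u i = (aeval x q)⁻¹ * (aeval x (p i) * u i) := by
      intro i
      rw [IntermediateField.smul_def, smul_eq_mul]
      ring
    rw [Finset.sum_congr rfl fun i _ => h2 i, ← Finset.mul_sum, ← hp]
    field_simp
  rw [h1]
  exact Submodule.sum_mem _ fun i _ => Submodule.smul_mem _ _ (Submodule.subset_span ⟨i, rfl⟩)

theorem rgm_card (hu : RBas K x d u) : Module.finrank K⟮x⟯ Φ = n := by
  have b := Module.Basis.mk (rgm_ind hu) (rgm_span hu).ge
  rw [Module.finrank_eq_card_basis b, Fintype.card_fin]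

theorem rgm_uniq (hu : RBas K x d u) {p q : Fin n → K[X]}
    (h : ∑ i, aeval x (p i) * u i = ∑ i, aeval x (q i) * u i) : p = q := by
  have h1 : (fun i => p i - q i) = 0 := by
    apply hu.ind
    have h2 : ∀ i, aeval x (p i - q i) * u i = aeval x (p i) * u i - aeval x (q i) * u i := by
      intro i; rw [map_sub, sub_mul]
    rw [Finset.sum_congr rfl fun i _ => h2 i, Finset.sum_sub_distrib, h, sub_self]
  funext i
  exact sub_eq_zero.1 (congrFun h1 i)

theorem rgm_deg (hu : RBas K x d u) {p : Fin n → K[X]} {m : ℕ}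
    (h : PolB K x m (∑ i, aeval x (p i) * u i)) (i : Fin n) (s : ℕ) (hs : m < s + d i) :
    (p i).coeff s = 0 := by
  obtain ⟨p', hp', he⟩ := hu.span m _ h
  rw [rgm_uniq hu he]
  by_contra hne
  have h0 : p' i ≠ 0 := by
    intro h0; rw [h0] at hne; exact hne (coeff_zero s)
  have h1 := hp' i h0
  have h2 := le_natDegree_of_ne_zero hne
  omega

theorem rgm_mul {m m' : ℕ} {f g : Φ} (hf : PolB K x m f) (hg : PolB K x m' g) :
    PolB K x (m + m') (f * g) := by
  refine ⟨fun R hR => ?_, fun R hR => ?_⟩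
  · have := R.mul_mem_ge (hf.1 R hR) (hg.1 R hR)
    simpa using this
  · have := R.mul_mem_ge (hf.2 R hR) (hg.2 R hR)
    refine R.ge_anti (le_of_eq ?_) this
    push_cast
    ring

end Pool.Agent.HFB
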