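import Pool.Agent.HFB.DefsW
import Pool.Agent.HFB.RGM

/-!
# HFB / SJU: bases, degrees and traces after extension of the constants

`sju_tr`: a polynomial relation of `J x` over `ℂ` would be a linear relation between the `J(x^s)`, but the `x^s` are linearly independent over `k` (`disj`).  `sju_ind`: a relation `∑ p_i(J x) J(u_i) = 0`, `p_i ∈ ℂ[X]` (clear denominators) is a linear relation between the `J(x^s u_i)`, and the `x^s u_i` are linearly independent over `k` (`ind`).
`sju_card`: the `ℂ(J x)`-span `S` of the `J(u_i)` is closed under multiplication (structure constants in `k(x)`), contains `J(Φ)` (`rgm_span`) and `ℂ`, so it is a finite-dimensional domain over the field `ℂ(J x)`, a field, and by `gen` it is `Ψ`; the `J(u_i)` are a basis.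
`sju_trace`: the matrix of the multiplication by `J w` in the basis `J(u_i)` is the image of the matrix of the multiplication by `w` in the basis `u_i`.
-/

namespace Pool.Agent.HFB

open Polynomial Pool.Agent.Helper11 Pool.Agent.ESH IntermediateField NumberField
open scoped KaehlerDifferential

variable {k Φ Ψ : Type*} [Field k] [CharZero k] [IsAlgClosed k] [Field Φ] [Algebra k Φ] [FunField k Φ] [Field Ψ]
  [Algebra ℂ Ψ] {x : Φ} {n : ℕ} {d : Fin n → ℕ} {u : Fin n → Φ}

section aux

private theorem sju_map {k Φ Ψ : Type*} [Field k] [Field Φ] [Algebra k Φ] [Field Ψ] [Algebra ℂ Ψ]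
    {τ : k →+* ℂ} {J : Φ →+* Ψ} (hc : ∀ y : k, J (algebraMap k Φ y) = algebraMap ℂ Ψ (τ y)) (x : Φ)
    (p : k[X]) : J (aeval x p) = aeval (J x) (p.map τ) := by
  rw [aeval_def, aeval_def, eval₂_map, hom_eval₂]
  congr 1
  ext y
  exact hc y

private theorem sju_mem {k Φ Ψ : Type*} [Field k] [Field Φ] [Algebra k Φ] [Field Ψ] [Algebra ℂ Ψ]
    {τ : k →+* ℂ} {J : Φ →+* Ψ} (hc : ∀ y : k, J (algebraMap k Φ y) = algebraMap ℂ Ψ (τ y)) {x : Φ}
    (g : Φ) (hg : g ∈ k⟮x⟯) : J g ∈ ℂ⟮J x⟯ := by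
  obtain ⟨r, s, h⟩ := (IntermediateField.mem_adjoin_simple_iff k g).1 hg
  refine (IntermediateField.mem_adjoin_simple_iff ℂ (J g)).2 ⟨r.map τ, s.map τ, ?_⟩
  rw [h, map_div₀, sju_map hc, sju_map hc]

/-- the restriction of `J` to the fields of rational functions -/
private noncomputable def sjuPhi {k Φ Ψ : Type*} [Field k] [Field Φ] [Algebra k Φ] [Field Ψ] [Algebra ℂ Ψ]
    {τ : k →+* ℂ} {J : Φ →+* Ψ} (hc : ∀ y : k, J (algebraMap k Φ y) = algebraMap ℂ Ψ (τ y)) (x : Φ) :
    k⟮x⟯ →+* ℂ⟮J x⟯ :=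
  (J.comp (algebraMap k⟮x⟯ Φ)).codRestrict (ℂ⟮J x⟯).toSubfield.toSubring (fun g => sju_mem hc g g.2)

private theorem sjuPhi_coe {k Φ Ψ : Type*} [Field k] [Field Φ] [Algebra k Φ] [Field Ψ] [Algebra ℂ Ψ]
    {τ : k →+* ℂ} {J : Φ →+* Ψ} (hc : ∀ y : k, J (algebraMap k Φ y) = algebraMap ℂ Ψ (τ y)) (x : Φ)
    (g : k⟮x⟯) : ((sjuPhi hc x g : ℂ⟮J x⟯) : Ψ) = J (g : Φ) := rfl

private theorem sju_ind_field {K Ψ : Type*} [Field K] [Field Ψ] [Algebra K Ψ] {y : Ψ}
    (hy : Transcendental K y) {n : ℕ} {w : Fin n → Ψ}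
    (hw : ∀ p : Fin n → K[X], ∑ i, aeval y (p i) * w i = 0 → p = 0) : LinearIndependent K⟮y⟯ w := by
  classical
  have hne : ∀ {q : K[X]}, q ≠ 0 → aeval y q ≠ 0 := fun {q} hq h => hy ⟨q, hq, h⟩
  have hrep : ∀ g : K⟮y⟯, ∃ r s : K[X], s ≠ 0 ∧ (g : Ψ) * aeval y s = aeval y r := by
    intro g
    obtain ⟨r, s, h⟩ := (IntermediateField.mem_adjoin_simple_iff K (g : Ψ)).1 g.2
    by_cases hs : s = 0
    · refine ⟨0, 1, one_ne_zero, ?_⟩
      rw [h, hs]; simp
    · refine ⟨r, s, hs, ?_⟩
      rw [h, div_mul_cancel₀ _ (hne hs)]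
  rw [Fintype.linearIndependent_iff]
  intro g hg
  choose r s hs hrs using fun i => hrep (g i)
  have h1 : ∑ i, aeval y (r i * ∏ j ∈ Finset.univ.erase i, s j) * w i = 0 := by
    have h2 : ∀ i, aeval y (r i * ∏ j ∈ Finset.univ.erase i, s j) * w i =
        aeval y (∏ j, s j) * (g i • w i) := by
      intro i
      rw [map_mul, ← hrs i, ← Finset.mul_prod_erase Finset.univ s (Finset.mem_univ i), map_mul,
        IntermediateField.smul_def, smul_eq_mul]
      ring
    rw [Finset.sum_congr rfl fun i _ => h2 i, ← Finset.mul_sum, hg, mul_zero]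
  have h3 := hw _ h1
  intro i
  have h4 : r i * ∏ j ∈ Finset.univ.erase i, s j = 0 := congrFun h3 i
  have h5 : r i = 0 := by
    rcases mul_eq_zero.1 h4 with h | h
    · exact h
    · exact absurd h (Finset.prod_ne_zero_iff.2 fun j _ => hs j)
  have h6 := hrs i
  rw [h5, map_zero] at h6
  rcases mul_eq_zero.1 h6 with h | h
  · exact_mod_cast h
  · exact absurd h (hne (hs i))

/-- linear disjointness for arbitrary finite index types -/
private theorem sju_disj {k Φ Ψ : Type*} [Field k] [Field Φ] [Algebra k Φ] [Field Ψ] [Algebra ℂ Ψ]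
    {τ : k →+* ℂ} {J : Φ →+* Ψ} (hJ : CmpE τ J) {ι : Type*} [Fintype ι] (e : ι → Φ)
    (he : LinearIndependent k e) : LinearIndependent ℂ (fun i => J (e i)) := by
  have h1 := hJ.disj (Fintype.card ι) (e ∘ (Fintype.equivFin ι).symm)
    ((linearIndependent_equiv (Fintype.equivFin ι).symm).2 he)
  have h2 := (linearIndependent_equiv (Fintype.equivFin ι)).2 h1
  have h3 : ((fun i => J ((e ∘ (Fintype.equivFin ι).symm) i)) ∘ (Fintype.equivFin ι)) =
      fun i => J (e i) := by
    funext i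
    simp
  rwa [h3] at h2

end aux

theorem sju_tr {τ : k →+* ℂ} {J : Φ →+* Ψ} (hJ : CmpE τ J) (hx : Transcendental k x) :
    Transcendental ℂ (J x) := by
  classical
  rintro ⟨p, hp, h⟩
  apply hp
  have h1 : LinearIndependent k (fun i : Fin (p.natDegree + 1) => x ^ (i : ℕ)) := by
    rw [Fintype.linearIndependent_iff]
    intro g hg i
    have h2 : aeval x (∑ j : Fin (p.natDegree + 1), C (g j) * X ^ (j : ℕ)) = 0 := by
      rw [map_sum, ← hg]
      refine Finset.sum_congr rfl fun j _ => ?_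
      rw [map_mul, aeval_C, map_pow, aeval_X, Algebra.smul_def]
    have h3 : (∑ j : Fin (p.natDegree + 1), C (g j) * X ^ (j : ℕ)) = 0 := by
      by_contra hne
      exact hx ⟨_, hne, h2⟩
    have h4 := congrArg (fun q => q.coeff (i : ℕ)) h3
    simp only [finsetSum_coeff, coeff_C_mul_X_pow, coeff_zero] at h4
    rw [Finset.sum_eq_single i] at h4
    · simpa using h4
    · intro j _ hj
      rw [if_neg]
      intro hij
      exact hj (Fin.ext hij.symm)
    · intro hi
      exact absurd (Finset.mem_univ i) hi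
  have h5 := hJ.disj _ _ h1
  rw [Fintype.linearIndependent_iff] at h5
  have h6 := h5 (fun i => p.coeff i) (by
    rw [← h, aeval_eq_sum_range, Finset.sum_range]
    refine Finset.sum_congr rfl fun i _ => ?_
    rw [map_pow])
  ext m
  rw [coeff_zero]
  by_cases hm : m < p.natDegree + 1
  · exact h6 ⟨m, hm⟩
  · exact coeff_eq_zero_of_natDegree_lt (by omega)

omit [CharZero k] [IsAlgClosed k] [FunField k Φ] in
private theorem sju_pol {τ : k →+* ℂ} {J : Φ →+* Ψ} (hJ : CmpE τ J) (hu : RBas k x d u)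
    (p : Fin n → ℂ[X]) (h : ∑ i, aeval (J x) (p i) * J (u i) = 0) : p = 0 := by
  classical
  set M := (Finset.univ.sup fun i => (p i).natDegree) + 1 with hM
  have hdeg : ∀ i, (p i).natDegree < M := fun i =>
    Nat.lt_succ_of_le (Finset.le_sup (f := fun i => (p i).natDegree) (Finset.mem_univ i))
  have h1 : LinearIndependent k (fun t : Fin n × Fin M => x ^ (t.2 : ℕ) * u t.1) := by
    rw [Fintype.linearIndependent_iff]
    intro g hg
    have h2 : ∑ i, aeval x (∑ j : Fin M, C (g (i, j)) * X ^ (j : ℕ)) * u i = 0 := by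
      rw [← hg, Fintype.sum_prod_type]
      refine Finset.sum_congr rfl fun i _ => ?_
      rw [map_sum, Finset.sum_mul]
      refine Finset.sum_congr rfl fun j _ => ?_
      rw [map_mul, aeval_C, map_pow, aeval_X, Algebra.smul_def, mul_assoc]
    have h3 := hu.ind _ h2
    rintro ⟨i, j⟩
    have h4 : (∑ j : Fin M, C (g (i, j)) * X ^ (j : ℕ)).coeff (j : ℕ) = 0 := by
      have := congrFun h3 i
      simp only [Pi.zero_apply] at this
      rw [this, coeff_zero]
    simp only [finsetSum_coeff, coeff_C_mul_X_pow] at h4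
    rw [Finset.sum_eq_single j] at h4
    · simpa using h4
    · intro j' _ hj
      rw [if_neg]
      intro hij
      exact hj (Fin.ext hij.symm)
    · intro hi
      exact absurd (Finset.mem_univ j) hi
  have h5 := sju_disj hJ _ h1
  rw [Fintype.linearIndependent_iff] at h5
  have h6 := h5 (fun t => (p t.1).coeff t.2) (by
    rw [← h, Fintype.sum_prod_type]
    refine Finset.sum_congr rfl fun i _ => ?_
    have e1 : aeval (J x) (p i) = ∑ j : Fin M, (p i).coeff j • (J x) ^ (j : ℕ) := by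
      rw [aeval_eq_sum_range' (hdeg i), Finset.sum_range]
    rw [e1, Finset.sum_mul]
    refine Finset.sum_congr rfl fun j _ => ?_
    rw [map_mul, map_pow, smul_mul_assoc])
  funext i
  ext m
  rw [Pi.zero_apply, coeff_zero]
  by_cases hm : m < M
  · exact h6 (i, ⟨m, hm⟩)
  · exact coeff_eq_zero_of_natDegree_lt (by have := hdeg i; omega)

theorem sju_ind {τ : k →+* ℂ} {J : Φ →+* Ψ} (hJ : CmpE τ J) (hu : RBas k x d u) :
    LinearIndependent ℂ⟮J x⟯ (fun i => J (u i)) :=
  sju_ind_field (sju_tr hJ hu.tr) (sju_pol hJ hu)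

private theorem sju_Jmem {τ : k →+* ℂ} {J : Φ →+* Ψ} (hJ : CmpE τ J) (hu : RBas k x d u) (f : Φ) :
    J f ∈ Submodule.span ℂ⟮J x⟯ (Set.range fun i => J (u i)) := by
  have h1 : f ∈ Submodule.span k⟮x⟯ (Set.range u) := by rw [rgm_span hu]; trivial
  induction h1 using Submodule.span_induction with
  | mem f hf =>
    obtain ⟨i, rfl⟩ := hf
    exact Submodule.subset_span ⟨i, rfl⟩
  | zero => rw [map_zero]; exact Submodule.zero_mem _
  | add a b _ _ ha hb => rw [map_add]; exact Submodule.add_mem _ ha hb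
  | smul c a _ ha =>
    have : J (c • a) = (sjuPhi hJ.comm x c) • J a := by
      rw [IntermediateField.smul_def, smul_eq_mul, map_mul, IntermediateField.smul_def, smul_eq_mul,
        sjuPhi_coe]
    rw [this]
    exact Submodule.smul_mem _ _ ha

private theorem sju_span {τ : k →+* ℂ} {J : Φ →+* Ψ} (hJ : CmpE τ J) (hu : RBas k x d u) :
    Submodule.span ℂ⟮J x⟯ (Set.range fun i => J (u i)) = ⊤ := by
  classical
  set S := Submodule.span ℂ⟮J x⟯ (Set.range fun i => J (u i)) with hS
  have hmul : ∀ a ∈ S, ∀ b ∈ S, a * b ∈ S := by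
    intro a ha b hb
    have h1 : a * b ∈ S * S := Submodule.mul_mem_mul ha hb
    have h2 : S * S ≤ S := by
      rw [hS, Submodule.span_mul_span]
      refine Submodule.span_le.2 ?_
      rintro _ ⟨_, ⟨i, rfl⟩, _, ⟨j, rfl⟩, rfl⟩
      show J (u i) * J (u j) ∈ S
      rw [← map_mul]
      exact sju_Jmem hJ hu _
    exact h2 h1
  have hone : (1 : Ψ) ∈ S := by
    have := sju_Jmem hJ hu 1
    rwa [map_one] at this
  have hfin : Module.Finite ℂ⟮J x⟯ S := by
    rw [hS]
    exact Module.Finite.span_of_finite _ (Set.finite_range _)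
  have hinv : ∀ b ∈ S, b ≠ 0 → b⁻¹ ∈ S := by
    intro b hb hb0
    let L : S →ₗ[ℂ⟮J x⟯] S :=
      { toFun := fun a => ⟨b * a, hmul b hb a a.2⟩
        map_add' := fun a a' => Subtype.ext (by simp [mul_add])
        map_smul' := fun c a => Subtype.ext (by simp) }
    have hL : Function.Injective L := by
      intro a a' h
      have h1 : b * (a : Ψ) = b * a' := congrArg Subtype.val h
      exact Subtype.ext (mul_left_cancel₀ hb0 h1)
    obtain ⟨a, ha⟩ := LinearMap.surjective_of_injective hL ⟨1, hone⟩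
    have h1 : b * (a : Ψ) = 1 := congrArg Subtype.val ha
    have h2 : b⁻¹ = (a : Ψ) := inv_eq_of_mul_eq_one_right h1
    rw [h2]
    exact a.2
  have hC : ∀ a ∈ Submodule.span ℂ (Set.range J), a ∈ S := by
    intro a ha
    induction ha using Submodule.span_induction with
    | mem a ha =>
      obtain ⟨f, rfl⟩ := ha
      exact sju_Jmem hJ hu f
    | zero => exact Submodule.zero_mem _
    | add a b _ _ ha hb => exact Submodule.add_mem _ ha hb
    | smul c a _ ha =>
      have : c • a = (algebraMap ℂ ℂ⟮J x⟯ c) • a := by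
        rw [algebraMap_smul]
      rw [this]
      exact Submodule.smul_mem _ _ ha
  rw [eq_top_iff]
  intro f _
  obtain ⟨a, ha, b, hb, hb0, hab⟩ := hJ.gen f
  have : f = a * b⁻¹ := by rw [← hab, mul_assoc, mul_inv_cancel₀ hb0, mul_one]
  rw [this]
  exact hmul _ (hC a ha) _ (hinv b (hC b hb) hb0)

theorem sju_card {τ : k →+* ℂ} {J : Φ →+* Ψ} (hJ : CmpE τ J) (hu : RBas k x d u) :
    Module.finrank ℂ⟮J x⟯ Ψ = n := by
  have b := Module.Basis.mk (sju_ind hJ hu) (sju_span hJ hu).ge
  rw [Module.finrank_eq_card_basis b, Fintype.card_fin]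

theorem sju_trace {τ : k →+* ℂ} {J : Φ →+* Ψ} (hJ : CmpE τ J) (hu : RBas k x d u) (w : Φ) :
    ((Algebra.trace ℂ⟮J x⟯ Ψ (J w) : ℂ⟮J x⟯) : Ψ) = J ((Algebra.trace k⟮x⟯ Φ w : k⟮x⟯) : Φ) := by
  classical
  let b₀ := Module.Basis.mk (rgm_ind hu) (rgm_span hu).ge
  let b₁ := Module.Basis.mk (sju_ind hJ hu) (sju_span hJ hu).ge
  have e0 : ∀ i, b₀ i = u i := fun i => Module.Basis.mk_apply _ _ i
  have e1 : ∀ i, b₁ i = J (u i) := fun i => Module.Basis.mk_apply _ _ i
  have h1 : ∀ i j, Algebra.leftMulMatrix b₁ (J w) i j =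
      sjuPhi hJ.comm x (Algebra.leftMulMatrix b₀ w i j) := by
    intro i j
    rw [Algebra.leftMulMatrix_eq_repr_mul, Algebra.leftMulMatrix_eq_repr_mul, e0, e1]
    have h2 : J w * J (u j) = ∑ i, (sjuPhi hJ.comm x (b₀.repr (w * u j) i)) • b₁ i := by
      rw [← map_mul]
      conv_lhs => rw [← b₀.sum_repr (w * u j)]
      rw [map_sum]
      refine Finset.sum_congr rfl fun l _ => ?_
      rw [IntermediateField.smul_def, smul_eq_mul, map_mul, IntermediateField.smul_def, smul_eq_mul,
        sjuPhi_coe, e0, e1]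
    rw [h2, map_sum, Finsupp.finsetSum_apply]
    rw [Finset.sum_eq_single i]
    · rw [map_smul, b₁.repr_self, Finsupp.smul_apply, Finsupp.single_eq_same, smul_eq_mul, mul_one]
    · intro l _ hl
      rw [map_smul, b₁.repr_self, Finsupp.smul_apply, Finsupp.single_eq_of_ne hl.symm, smul_zero]
    · intro hi
      exact absurd (Finset.mem_univ i) hi
  rw [Algebra.trace_eq_matrix_trace b₁, Algebra.trace_eq_matrix_trace b₀, ← sjuPhi_coe hJ.comm,
    Matrix.trace, Matrix.trace, map_sum]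
  congr 1
  refine Finset.sum_congr rfl fun i _ => ?_
  rw [Matrix.diag_apply, Matrix.diag_apply, h1]

end Pool.Agent.HFB
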