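import Pool.Agent.HFB.DefsW
import Pool.Agent.ESH.LFT

/-!
# HFB / SJX: extension of embeddings to function fields

`CmpE σ j` is `Cmps K F ℂ Ψ` for the algebra structures given by `σ`, `j` (`letI := σ.toAlgebra`, …).  `Φ` is the fraction field of the image of `C ⊗[K] F` (`lft_frac`, `lftMu`).  The map `C ⊗[K] F → Ψ`, `c ⊗ f ↦ τ(c) j(f)` is injective: write an element as `∑ c_i ⊗ f_i` with `f_i` linearly independent over `K`; `disj` of `hj`.
So it extends to `J : Φ → Ψ` (`IsFractionRing.lift`).  `disj` for `J`: `e_i = a_i / b` with `a_i, b` in the image of `C ⊗ F` (common denominator), `a_i = ∑_l c_il f_l`, `f_l` linearly independent over `K` (finitely many); the `a_i` are linearly independent over `C`, so the matrix `(c_il)` has independent rows, a non-zero maximal minor (ESH / COL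
`exists_minor`), and so has `(τ c_il)`; the `j(f_l)` are linearly independent over `ℂ`.  `gen`: from `gen` of `hj`, `Set.range j ⊆ Set.range J`.
-/

namespace Pool.Agent.HFB

open Polynomial Pool.Agent.Helper11 Pool.Agent.ESH IntermediateField NumberField
open scoped KaehlerDifferential TensorProduct

private theorem sjx_ind {K F C D Ψ : Type*} [Field K] [Field F] [Field C] [Field D] [Field Ψ] [Algebra K F]
    [Algebra K C] [Algebra C D] [Algebra D Ψ] [Algebra C Ψ] [IsScalarTower C D Ψ] [Algebra K Ψ] [Algebra F Ψ]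
    [IsScalarTower K F Ψ] [IsScalarTower K C Ψ]
    (hd : ∀ (n : ℕ) (e : Fin n → F), LinearIndependent K e → LinearIndependent D (fun i => algebraMap F Ψ (e i)))
    {n : ℕ} {a : Fin n → C ⊗[K] F} (ha : LinearIndependent C a) :
    LinearIndependent D (fun i => (lftMu (a i) : Ψ)) := by
  classical
  let b := Module.Basis.ofVectorSpace K F
  let b' := Algebra.TensorProduct.basis C b
  have hb' : ∀ i, (lftMu (b' i) : Ψ) = algebraMap F Ψ (b i) := by
    intro i
    rw [Algebra.TensorProduct.basis_apply, lftMu_tmul, map_one, one_mul]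
  have hlin : LinearIndependent D (fun i => algebraMap F Ψ (b i)) := by
    rw [linearIndependent_iff_finset_linearIndependent]
    intro s
    let e := s.equivFin
    have h1 := hd s.card (fun i => b (e.symm i)) (b.linearIndependent.comp _ (by
      intro i j hij
      exact e.symm.injective (Subtype.ext hij)))
    have h2 := h1.comp e e.injective
    convert h2 using 1
    ext i
    simp
  let w := Module.Basis.ofVectorSpace C D
  rw [Fintype.linearIndependent_iff]
  intro z hz
  have hexp : ∀ x : C ⊗[K] F, (lftMu x : Ψ) = Finsupp.linearCombination D (fun l => algebraMap F Ψ (b l))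
      ((b'.repr x).mapRange (algebraMap C D) (map_zero _)) := by
    intro x
    conv_lhs => rw [← b'.linearCombination_repr x]
    rw [Finsupp.linearCombination_apply, Finsupp.sum, map_sum, Finsupp.linearCombination_apply,
      Finsupp.sum_mapRange_index (by simp), Finsupp.sum]
    refine Finset.sum_congr rfl fun l _ => ?_
    rw [map_smul, hb', algebraMap_smul]
  have h1 : Finsupp.linearCombination D (fun l => algebraMap F Ψ (b l))
      (∑ i, z i • (b'.repr (a i)).mapRange (algebraMap C D) (map_zero _)) = 0 := by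
    rw [map_sum, ← hz]
    refine Finset.sum_congr rfl fun i _ => ?_
    rw [map_smul, hexp]
  rw [linearIndependent_iff] at hlin
  have h2 := hlin _ h1
  have h3 : ∀ l k, ∑ i, w.repr (z i) k * b'.repr (a i) l = 0 := by
    intro l k
    have h4 := DFunLike.congr_fun h2 l
    rw [Finsupp.finsetSum_apply] at h4
    have h5 : ∑ i, b'.repr (a i) l • z i = 0 := by
      rw [Finsupp.coe_zero, Pi.zero_apply] at h4
      rw [← h4]
      refine Finset.sum_congr rfl fun i _ => ?_
      rw [Finsupp.smul_apply, Finsupp.mapRange_apply, Algebra.smul_def, smul_eq_mul, mul_comm]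
    have h6 := congrArg (fun y => w.repr y k) h5
    simp only [map_sum, map_smul, map_zero, Finsupp.coe_zero, Pi.zero_apply] at h6
    rw [Finsupp.finsetSum_apply] at h6
    rw [← h6]
    refine Finset.sum_congr rfl fun i _ => ?_
    rw [Finsupp.smul_apply, smul_eq_mul, mul_comm]
  rw [Fintype.linearIndependent_iff] at ha
  intro i
  have h7 : ∀ k, w.repr (z i) k = 0 := by
    intro k
    refine ha (fun i => w.repr (z i) k) ?_ i
    apply b'.repr.injective
    ext l
    rw [map_sum, Finsupp.finsetSum_apply, map_zero, Finsupp.coe_zero, Pi.zero_apply, ← h3 l k]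
    refine Finset.sum_congr rfl fun i _ => ?_
    rw [map_smul, Finsupp.smul_apply, smul_eq_mul]
  apply w.repr.injective
  ext k
  rw [h7 k, map_zero, Finsupp.coe_zero, Pi.zero_apply]

theorem sjx {K F C Φ Ψ : Type*} [Field K] [Field F] [Algebra K F] [Field C] [Algebra K C] [Field Φ]
    [Algebra C Φ] [Algebra F Φ] [Field Ψ] [Algebra ℂ Ψ] (hc : Cmps K F C Φ) (σ : K →+* ℂ) (j : F →+* Ψ)
    (hj : CmpE σ j) (τ : C →+* ℂ) (hτ : ∀ y : K, τ (algebraMap K C y) = σ y) :
    ∃ J : Φ →+* Ψ, CmpE τ J ∧ ∀ f : F, J (algebraMap F Φ f) = j f := by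
  classical
  let _ : Algebra K Φ := ((algebraMap F Φ).comp (algebraMap K F)).toAlgebra
  have i1 : IsScalarTower K F Φ := IsScalarTower.of_algebraMap_eq (fun _ => rfl)
  have i2 : IsScalarTower K C Φ := IsScalarTower.of_algebraMap_eq (fun x => hc.comm x)
  let _ : Algebra F Ψ := j.toAlgebra
  let _ : Algebra K Ψ := (j.comp (algebraMap K F)).toAlgebra
  let _ : Algebra C ℂ := τ.toAlgebra
  let _ : Algebra C Ψ := ((algebraMap ℂ Ψ).comp τ).toAlgebra
  have i3 : IsScalarTower K F Ψ := IsScalarTower.of_algebraMap_eq (fun _ => rfl)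
  have i4 : IsScalarTower K C Ψ := IsScalarTower.of_algebraMap_eq (fun x => by
    change j (algebraMap K F x) = algebraMap ℂ Ψ (τ (algebraMap K C x))
    rw [hj.comm, hτ])
  have i5 : IsScalarTower C ℂ Ψ := IsScalarTower.of_algebraMap_eq (fun _ => rfl)
  let _ : Algebra (C ⊗[K] F) Φ := (lftMu : C ⊗[K] F →ₐ[C] Φ).toRingHom.toAlgebra
  have h3 : IsFractionRing (C ⊗[K] F) Φ := lft_frac hc
  let φ : C ⊗[K] F →ₐ[C] Ψ := lftMu
  have hind : ∀ {n : ℕ} {a : Fin n → C ⊗[K] F}, LinearIndependent C a → LinearIndependent ℂ (fun i => φ (a i)) :=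
    fun ha => sjx_ind (K := K) (F := F) (C := C) (D := ℂ) (Ψ := Ψ) hj.disj ha
  have hφ : Function.Injective φ := by
    rw [injective_iff_map_eq_zero]
    intro x hx
    by_contra h0
    have h1 : LinearIndependent C (fun _ : Fin 1 => x) := LinearIndependent.of_subsingleton 0 h0
    have h2 := (hind h1).ne_zero 0
    exact h2 hx
  let J : Φ →+* Ψ := IsFractionRing.lift (A := C ⊗[K] F) (K := Φ) (g := φ.toRingHom) hφ
  have hJ : ∀ z : C ⊗[K] F, J (lftMu z) = φ z := fun z =>
    IsFractionRing.lift_algebraMap (A := C ⊗[K] F) (K := Φ) (g := φ.toRingHom) hφ z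
  have hJC : ∀ c : C, J (algebraMap C Φ c) = algebraMap ℂ Ψ (τ c) := by
    intro c
    have e1 : algebraMap C Φ c = lftMu (c ⊗ₜ[K] (1 : F)) := by
      rw [lftMu_tmul, map_one, mul_one]
    rw [e1, hJ]
    change lftMu (c ⊗ₜ[K] (1 : F)) = _
    rw [lftMu_tmul, map_one, mul_one]
    rfl
  have hJF : ∀ f : F, J (algebraMap F Φ f) = j f := by
    intro f
    have e1 : algebraMap F Φ f = lftMu ((1 : C) ⊗ₜ[K] f) := by
      rw [lftMu_tmul, map_one, one_mul]
    rw [e1, hJ]
    change lftMu ((1 : C) ⊗ₜ[K] f) = _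
    rw [lftMu_tmul, map_one, one_mul]
    rfl
  refine ⟨J, ⟨hJC, ?_, ?_⟩, hJF⟩
  · intro n e he
    obtain ⟨b, hb⟩ := IsLocalization.exist_integer_multiples_of_finite (nonZeroDivisors (C ⊗[K] F)) e
    choose a ha using hb
    have hb0 : (lftMu (b : C ⊗[K] F) : Φ) ≠ 0 := by
      intro h0
      have h4 : (b : C ⊗[K] F) = 0 := by
        apply lftMu_inj hc
        rw [h0, map_zero]
      exact nonZeroDivisors.ne_zero b.2 h4
    have ha' : ∀ i, (lftMu (a i) : Φ) = lftMu (b : C ⊗[K] F) * e i := by
      intro i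
      have := ha i
      rw [Algebra.smul_def] at this
      exact this
    have hai : LinearIndependent C a := by
      rw [Fintype.linearIndependent_iff] at he ⊢
      intro g hg
      apply he
      have h5 : lftMu (b : C ⊗[K] F) * ∑ i, g i • e i = 0 := by
        rw [Finset.mul_sum]
        have h6 := congrArg (fun y => (lftMu y : Φ)) hg
        simp only [map_sum, map_smul, map_zero] at h6
        rw [← h6]
        refine Finset.sum_congr rfl fun i _ => ?_
        rw [ha', mul_smul_comm]
      exact (mul_eq_zero.1 h5).resolve_left hb0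
    have h7 := hind hai
    have hbJ : J (lftMu (b : C ⊗[K] F)) ≠ 0 := by
      rw [Ne, map_eq_zero]
      exact hb0
    rw [Fintype.linearIndependent_iff] at h7 ⊢
    intro g hg
    apply h7
    have h8 : ∀ i, φ (a i) = J (lftMu (b : C ⊗[K] F)) * J (e i) := by
      intro i
      rw [← hJ, ha', map_mul]
    calc ∑ i, g i • φ (a i) = J (lftMu (b : C ⊗[K] F)) * ∑ i, g i • J (e i) := by
          rw [Finset.mul_sum]
          refine Finset.sum_congr rfl fun i _ => ?_
          rw [h8, mul_smul_comm]
      _ = 0 := by rw [hg, mul_zero]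
  · intro f
    obtain ⟨a, ha, b, hb, hb0, hab⟩ := hj.gen f
    have hle : Submodule.span ℂ (Set.range j) ≤ Submodule.span ℂ (Set.range J) := by
      apply Submodule.span_mono
      rintro _ ⟨y, rfl⟩
      exact ⟨algebraMap F Φ y, hJF y⟩
    exact ⟨a, hle ha, b, hle hb, hb0, hab⟩

theorem sfn {K F Ψ : Type*} [Field K] [CharZero K] [Field F] [Algebra K F] [FunField K F] [Field Ψ]
    [Algebra ℂ Ψ] (σ : K →+* ℂ) (j : F →+* Ψ) (hj : CmpE σ j) : FunField ℂ Ψ := by
  let _ : Algebra K ℂ := σ.toAlgebra
  let _ : Algebra F Ψ := j.toAlgebra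
  have h : Cmps K F ℂ Ψ := ⟨hj.comm, hj.disj, hj.gen⟩
  exact ffc h

end Pool.Agent.HFB
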