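import Pool.Agent.HFB.SDF
import Pool.Agent.HFB.SJX
import Pool.Agent.HFB.SJU
import Pool.Agent.HFB.CHA
import Pool.Agent.HFB.CHJ

/-!
# HFB / SRG: regular differentials stay regular after extension of the constants

Choose `y ∈ Φ` transcendental.  CHA for `y` and for `y⁻¹`: `f dx = ∑ b_i dc_i` with `b_i, c_i` without poles at finite values of `y`, and `f dx = ∑ b'_i dc'_i` with `b'_i, c'_i` without poles at finite values of `y⁻¹`.  By SDF `J f d(J x) = ∑ J b_i d(J c_i) = ∑ J b'_i d(J c'_i)`.  Let `R` be a place of `Ψ/ℂ`: `J y ∈ R.ge 0` or `J y⁻¹ ∈ R.ge 0`.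
In the first case `b_i`, `c_i` are roots of monic polynomials over `k[y]` (`chj_int`), so `J b_i`, `J c_i` are roots of monic polynomials with coefficients in `R.ge 0`, hence in `R.ge 0` (valuation), and `J b_i d(J c_i)` has non-negative order (`ordDiff_smul_D`, `dv_mem_ge_zero`).
-/

namespace Pool.Agent.HFB

open Polynomial Pool.Agent.Helper11 Pool.Agent.ESH IntermediateField NumberField
open scoped KaehlerDifferential

/-- roots of monic polynomials with coefficients in the valuation ring of a place -/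
private theorem srg_int {A Ψ : Type*} [CommRing A] [Field Ψ] [Algebra ℂ Ψ] (R : Place ℂ Ψ) (φ : A →+* Ψ)
    (hφ : ∀ c, φ c ∈ R.ge 0) (P : A[X]) (hP : P.Monic) (b : Ψ) (h : Polynomial.eval₂ φ b P = 0) :
    b ∈ R.ge 0 := by
  by_contra hb
  have hb0 : b ≠ 0 := by
    rintro rfl
    exact hb (zero_mem _)
  have hord : ¬ (0 ≤ R.ord b) := fun h0 => hb (R.mem_ge_of_le h0)
  have hinv : b⁻¹ ∈ R.ge 1 := by
    apply R.mem_ge_of_le
    rw [R.ord_inv]
    omega
  have hinv0 : b⁻¹ ∈ R.ge 0 := R.ge_anti (by norm_num) hinv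
  have hpow : ∀ m : ℕ, (b⁻¹) ^ m ∈ R.ge 0 := by
    intro m
    induction m with
    | zero => rw [pow_zero]; exact R.one_mem_ge
    | succ m ih =>
      rw [pow_succ]
      have := R.mul_mem_ge ih hinv0
      rwa [zero_add] at this
  rw [Polynomial.eval₂_eq_sum_range, Finset.sum_range_succ, hP.coeff_natDegree, map_one, one_mul] at h
  have h1 : (1 : Ψ) = -∑ i ∈ Finset.range P.natDegree, φ (P.coeff i) * (b⁻¹) ^ (P.natDegree - i) := by
    have h2 : b ^ P.natDegree = -∑ i ∈ Finset.range P.natDegree, φ (P.coeff i) * b ^ i := by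
      linear_combination h
    have h3 : (1 : Ψ) = b ^ P.natDegree * (b⁻¹) ^ P.natDegree := by
      rw [← mul_pow, mul_inv_cancel₀ hb0, one_pow]
    rw [h3, h2, neg_mul, Finset.sum_mul]
    congr 1
    refine Finset.sum_congr rfl fun i hi => ?_
    have hi' : i ≤ P.natDegree := (Finset.mem_range.1 hi).le
    have h4 : (b⁻¹) ^ P.natDegree = (b⁻¹) ^ i * (b⁻¹) ^ (P.natDegree - i) := by
      rw [← pow_add, Nat.add_sub_cancel' hi']
    have h5 : b ^ i * (b⁻¹) ^ i = 1 := by
      rw [← mul_pow, mul_inv_cancel₀ hb0, one_pow]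
    rw [h4, mul_assoc, ← mul_assoc (b ^ i), h5, one_mul]
  have h2 : (1 : Ψ) ∈ R.ge 1 := by
    rw [h1]
    refine neg_mem (sum_mem fun i hi => ?_)
    have hi' : i < P.natDegree := Finset.mem_range.1 hi
    obtain ⟨m, hm⟩ : ∃ m, P.natDegree - i = m + 1 := ⟨P.natDegree - i - 1, by omega⟩
    rw [hm, pow_succ]
    have h3 := R.mul_mem_ge (hφ (P.coeff i)) (R.mul_mem_ge (hpow m) hinv)
    simpa using h3
  have h3 := R.le_ord_of_mem h2 one_ne_zero
  rw [R.ord_one] at h3
  omega

private theorem srg_aux {k Φ Ψ : Type*} [Field k] [CharZero k] [IsAlgClosed k] [Field Φ] [Algebra k Φ] [FunField k Φ]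
    [Field Ψ] [Algebra ℂ Ψ] [FunField ℂ Ψ] {τ : k →+* ℂ} {J : Φ →+* Ψ} (hJ : CmpE τ J) (f x : Φ)
    (h : ∀ R : Place k Φ, 0 ≤ R.ordDiff (f • KaehlerDifferential.D k Φ x)) (R : Place ℂ Ψ) {z : Φ}
    (hz : Transcendental k z) (hzR : J z ∈ R.ge 0) :
    0 ≤ R.ordDiff (J f • KaehlerDifferential.D ℂ Ψ (J x)) := by
  obtain ⟨m, b, c, hbc, hω⟩ := cha hz (f • KaehlerDifferential.D k Φ x) (fun R' _ => h R')
  have hcoef : ∀ p : k[X], (J.comp (aeval z : k[X] →ₐ[k] Φ).toRingHom) p ∈ R.ge 0 := by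
    intro p
    change J (aeval z p) ∈ R.ge 0
    induction p using Polynomial.induction_on' with
    | add p q hp hq => rw [map_add, map_add]; exact add_mem hp hq
    | monomial n a =>
      rw [aeval_monomial, map_mul, map_pow, hJ.comm]
      have hpow : ∀ m : ℕ, (J z) ^ m ∈ R.ge 0 := by
        intro m
        induction m with
        | zero => rw [pow_zero]; exact R.one_mem_ge
        | succ m ih =>
          rw [pow_succ]
          have := R.mul_mem_ge ih hzR
          rwa [zero_add] at this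
      have := R.mul_mem_ge (R.algebraMap_mem_ge (τ a)) (hpow n)
      rwa [zero_add] at this
  have hint : ∀ g : Φ, (∀ R' : Place k Φ, 0 ≤ R'.ord z → g ∈ R'.ge 0) → J g ∈ R.ge 0 := by
    intro g hg
    obtain ⟨P, hP, hP0⟩ := chj_int hz g hg
    refine srg_int R (J.comp (aeval z : k[X] →ₐ[k] Φ).toRingHom) hcoef P hP (J g) ?_
    rw [← Polynomial.hom_eval₂, hP0, map_zero]
  have hb : ∀ i, J (b i) ∈ R.ge 0 := fun i => hint _ fun R' hR' => (hbc i R' hR').1
  have hc : ∀ i, J (c i) ∈ R.ge 0 := fun i => hint _ fun R' hR' => (hbc i R' hR').2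
  have hrel := sdf τ J hJ.comm (fun o : Option (Fin m) => o.elim f (fun i => -b i))
    (fun o : Option (Fin m) => o.elim x c) (by
      rw [Fintype.sum_option]
      simp only [Option.elim_none, Option.elim_some, neg_smul, Finset.sum_neg_distrib]
      rw [hω, add_neg_cancel])
  rw [Fintype.sum_option] at hrel
  simp only [Option.elim_none, Option.elim_some, map_neg, neg_smul, Finset.sum_neg_distrib] at hrel
  have hrel' : J f • KaehlerDifferential.D ℂ Ψ (J x) =
      ∑ i, J (b i) • KaehlerDifferential.D ℂ Ψ (J (c i)) := by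
    rw [← sub_eq_zero, sub_eq_add_neg]
    exact hrel
  rw [hrel', R.ordDiff_eq, map_sum]
  have hmem : ∑ i, (kaehlerEquiv R.transcendental_unif).symm (J (b i) • KaehlerDifferential.D ℂ Ψ (J (c i))) ∈
      R.ge 0 := by
    refine sum_mem fun i _ => ?_
    have h1 : (kaehlerEquiv R.transcendental_unif).symm (J (b i) • KaehlerDifferential.D ℂ Ψ (J (c i))) =
        J (b i) * R.dv (J (c i)) := by
      rw [LinearEquiv.symm_apply_eq, kaehlerEquiv_apply, mul_smul]
      congr 1
      exact D_eq_der_smul R.transcendental_unif _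
    rw [h1]
    have := R.mul_mem_ge (hb i) (R.dv_mem_ge_zero (hc i))
    rwa [zero_add] at this
  rcases (R.mem_ge).1 hmem with h0 | h0
  · rw [h0, R.ord_zero]
  · exact h0

theorem srg {k Φ Ψ : Type*} [Field k] [CharZero k] [IsAlgClosed k] [Field Φ] [Algebra k Φ] [FunField k Φ]
    [Field Ψ] [Algebra ℂ Ψ] [FunField ℂ Ψ] {τ : k →+* ℂ} {J : Φ →+* Ψ} (hJ : CmpE τ J) (f x : Φ)
    (h : ∀ R : Place k Φ, 0 ≤ R.ordDiff (f • KaehlerDifferential.D k Φ x)) (R : Place ℂ Ψ) :
    0 ≤ R.ordDiff (J f • KaehlerDifferential.D ℂ Ψ (J x)) := by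
  obtain ⟨y, hy⟩ := FunField.exists_transcendental (k := k) (L := Φ)
  by_cases hyR : 0 ≤ R.ord (J y)
  · exact srg_aux hJ f x h R hy (R.mem_ge_of_le hyR)
  · have hyi : Transcendental k y⁻¹ := by
      intro halg
      apply hy
      have := halg.inv
      rwa [inv_inv] at this
    refine srg_aux hJ f x h R hyi ?_
    rw [map_inv₀]
    apply R.mem_ge_of_le
    rw [R.ord_inv]
    omega

end Pool.Agent.HFB
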