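import Pool.Agent.HFB.DefsX
import Pool.Agent.HFB.SRG
import Pool.Agent.HFB.AGD
import Pool.Agent.HFB.ASB

/-!
# HFB / SAR: the inequality at an infinite place

SJX: `J : Φ → Ψ` over `τ` extending `j`.  `FunField ℂ Ψ` (`sfn`).  SDF applied to `h`: `j f₀_i d(j x₀) = ∑_l τ(B_il) (J f_l d(J β))` (write `B_il • (f_l • D β)` as `(algebraMap B_il * f_l) • D β`).  `J β` transcendental (`sju_tr`), the `J f_l d(J β)` are regular (SRG).  `x₀` : if `algebraMap x₀` is not transcendental over `C` then all `ω₀ i = 0`, `B` has zero rows (the `f_l dβ` are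
linearly independent: their traces), so `g = 0` and everything is trivial; otherwise `j x₀ = J x₀` is transcendental and ASB gives `gram (j x₀) (j f₀) = B^τ gram (J β) (J f) (B^τ)^*`, so `det = |τ(det B)|² det gram (J β) (J f)`.
AGD for `x = J β`, `J u_i`, `c_ijl` mapped by `τ` (coefficients bounded by `A`), `idx`, traces by `sju_trace`, `sju_card`, `sju_ind`: `det gram (J β) (J f) ≥ (g n³ M³ A²)^(-g)`.  Take logarithms.
-/

namespace Pool.Agent.HFB

open Polynomial Pool.Agent.Helper11 Pool.Agent.ESH IntermediateField NumberField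
open scoped KaehlerDifferential

private theorem sar_aeval {k Φ Ψ : Type*} [Field k] [Field Φ] [Algebra k Φ] [Field Ψ] [Algebra ℂ Ψ]
    {τ : k →+* ℂ} {J : Φ →+* Ψ} (hJ : CmpE τ J) (β : Φ) (p : k[X]) :
    J (aeval β p) = aeval (J β) (p.map τ) := by
  induction p using Polynomial.induction_on' with
  | add p q hp hq => rw [map_add, map_add, Polynomial.map_add, map_add, hp, hq]
  | monomial s a =>
    rw [aeval_monomial, map_mul, map_pow, hJ.comm, Polynomial.map_monomial, aeval_monomial]

/-- the differentials `f_t dβ` are linearly independent over the constants -/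
private theorem sar_ind {C Φ : Type*} [Field C] [Field Φ] [Algebra C Φ] {β : Φ} (hβ : Transcendental C β)
    {n g : ℕ} {u : Fin n → Φ} (idx : Fin g → Fin n × ℕ) (hidx : Function.Injective idx) (f : Fin g → Φ)
    (hf : ∀ t i, ((Algebra.trace C⟮β⟯ Φ (f t * u i) : C⟮β⟯) : Φ) = if i = (idx t).1 then β ^ (idx t).2 else 0)
    (b : Fin g → C) (hb : ∑ l, algebraMap C Φ (b l) * f l = 0) (t : Fin g) : b t = 0 := by
  classical
  have h1 : ∑ l, algebraMap C Φ (b l) * ((Algebra.trace C⟮β⟯ Φ (f l * u (idx t).1) : C⟮β⟯) : Φ) = 0 := by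
    have h2 : Algebra.trace C⟮β⟯ Φ ((∑ l, algebraMap C Φ (b l) * f l) * u (idx t).1) =
        ∑ l, algebraMap C C⟮β⟯ (b l) * Algebra.trace C⟮β⟯ Φ (f l * u (idx t).1) := by
      rw [Finset.sum_mul, map_sum]
      refine Finset.sum_congr rfl fun l _ => ?_
      have h3 : algebraMap C Φ (b l) * f l * u (idx t).1 = algebraMap C C⟮β⟯ (b l) • (f l * u (idx t).1) := by
        rw [Algebra.smul_def, ← IsScalarTower.algebraMap_apply C C⟮β⟯ Φ, mul_assoc]
      rw [h3, map_smul, smul_eq_mul]
    rw [hb, zero_mul, map_zero] at h2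
    have h4 := congrArg (fun y : C⟮β⟯ => (y : Φ)) h2
    simp only [ZeroMemClass.coe_zero] at h4
    rw [h4]
    push_cast
    refine Finset.sum_congr rfl fun l _ => ?_
    congr 1
  have h5 : aeval β (∑ l, if (idx t).1 = (idx l).1 then monomial (idx l).2 (b l) else 0) = 0 := by
    rw [map_sum, ← h1]
    refine Finset.sum_congr rfl fun l _ => ?_
    rw [hf]
    split_ifs with h6
    · rw [aeval_monomial]
    · rw [map_zero, mul_zero]
  have h7 : (∑ l, if (idx t).1 = (idx l).1 then monomial (idx l).2 (b l) else 0 : C[X]) = 0 := by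
    by_contra h0
    exact hβ ⟨_, h0, h5⟩
  have h8 := congrArg (fun p : C[X] => p.coeff (idx t).2) h7
  simp only [finsetSum_coeff, coeff_zero] at h8
  rw [Finset.sum_eq_single t] at h8
  · simpa using h8
  · intro l _ hl
    split_ifs with h6
    · rw [coeff_monomial, if_neg]
      intro h9
      exact hl (hidx (Prod.ext h6.symm h9))
    · rw [coeff_zero]
  · intro h0
    exact absurd (Finset.mem_univ t) h0

theorem sar
    {K F C Φ : Type*} [Field K] [NumberField K] [Field F] [Algebra K F] [Field C] [Algebra K C]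
    [Algebra.IsAlgebraic K C] [IsAlgClosed C] [CharZero C] [Field Φ] [Algebra C Φ] [Algebra F Φ] [FunField C Φ]
    (hc : Cmps K F C Φ) {β : Φ} {n : ℕ} {d : Fin n → ℕ} {u : Fin n → Φ} {c : Fin n → Fin n → Fin n → C[X]}
    {N : Fin n → Fin n → C[X]} {m : ℕ} {D₀ : C} (hP : Pak β d u c N m D₀) {g : ℕ} (x₀ : F) (f₀ : Fin g → F)
    (idx : Fin g → Fin n × ℕ) (hidx : Function.Injective idx) (f : Fin g → Φ)
    (hf : ∀ t i, ((Algebra.trace C⟮β⟯ Φ (f t * u i) : C⟮β⟯) : Φ) = if i = (idx t).1 then β ^ (idx t).2 else 0)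
    (hr : ∀ t, ∀ R : Place C Φ, 0 ≤ R.ordDiff (f t • KaehlerDifferential.D C Φ β))
    (B : Matrix (Fin g) (Fin g) C) (hB : B.det ≠ 0)
    (h : ∀ i, algebraMap F Φ (f₀ i) • KaehlerDifferential.D C Φ (algebraMap F Φ x₀) =
      ∑ j, B i j • (f j • KaehlerDifferential.D C Φ β))
    (σ : K →+* ℂ) {Ψ : Type*} [Field Ψ] [Algebra ℂ Ψ] (j : F →+* Ψ) (hj : CmpE σ j) (τ : C →+* ℂ)
    (hτ : ∀ y : K, τ (algebraMap K C y) = σ y) (A : ℝ) (hA : 1 ≤ A) (M : ℕ)
    (hcA : ∀ i j k s, ‖τ ((c i j k).coeff s)‖ ≤ A) (hcM : ∀ i j k, (c i j k).natDegree < M)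
    (hidM : ∀ t, (idx t).2 < M) :
    -(1 / 2) * Real.log (gram (j x₀) (fun i => j (f₀ i))).det.re ≤
      -Real.log ‖τ B.det‖ + g / 2 * Real.log (g * n ^ 3 * M ^ 3 * A ^ 2) := by
  classical
  obtain ⟨J, hJ, hJF⟩ := sjx hc σ j hj τ hτ
  have hff : FunField ℂ Ψ := sfn τ J hJ
  have hβ := hP.bas.tr
  have hβJ : Transcendental ℂ (J β) := sju_tr hJ hβ
  -- the relation over `ℂ`
  have hrel : ∀ i, j (f₀ i) • KaehlerDifferential.D ℂ Ψ (j x₀) =
      ∑ l, (B.map τ) i l • (J (f l) • KaehlerDifferential.D ℂ Ψ (J β)) := by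
    intro i
    have h1 := sdf τ J hJ.comm (ι := Option (Fin g))
      (fun o => o.elim (algebraMap F Φ (f₀ i)) fun l => -(algebraMap C Φ (B i l) * f l))
      (fun o => o.elim (algebraMap F Φ x₀) fun _ => β) (by
        rw [Fintype.sum_option]
        simp only [Option.elim]
        rw [h i]
        rw [← Finset.sum_add_distrib]
        refine Finset.sum_eq_zero fun l _ => ?_
        rw [neg_smul, mul_smul, algebraMap_smul, add_neg_cancel])
    rw [Fintype.sum_option] at h1
    simp only [Option.elim] at h1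
    rw [hJF, hJF] at h1
    rw [eq_neg_of_add_eq_zero_left h1, ← Finset.sum_neg_distrib]
    refine Finset.sum_congr rfl fun l _ => ?_
    rw [map_neg, map_mul, hJ.comm, neg_smul, neg_neg, mul_smul, algebraMap_smul, Matrix.map_apply]
  have hreg : ∀ t, ∀ R : Place ℂ Ψ, 0 ≤ R.ordDiff (J (f t) • KaehlerDifferential.D ℂ Ψ (J β)) :=
    fun t R => srg hJ (f t) β (hr t) R
  by_cases hx : Transcendental C (algebraMap F Φ x₀)
  · have hxJ : Transcendental ℂ (j x₀) := by
      rw [← hJF]
      exact sju_tr hJ hx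
    have hG := asb hxJ hβJ (fun i => j (f₀ i)) (fun t => J (f t)) hreg (B.map τ) hrel
    obtain ⟨_, h1⟩ := agd hβJ (sju_card hJ hP.bas) (fun i => J (u i)) (sju_ind hJ hP.bas)
      (fun i j k => (c i j k).map τ) (fun i j => by
        rw [← map_mul, hP.con.mul, map_sum]
        refine Finset.sum_congr rfl fun k _ => ?_
        rw [map_mul, sar_aeval hJ]) A hA M (fun i j k s => by rw [coeff_map]; exact hcA i j k s)
      (fun i j k => lt_of_le_of_lt natDegree_map_le (hcM i j k)) idx hidx hidM (fun t => J (f t)) hreg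
      (fun t i => by
        rw [← map_mul, sju_trace hJ hP.bas, hf]
        split_ifs
        · rw [map_pow]
        · rw [map_zero])
    rw [Fintype.card_fin] at h1
    set G := (gram (J β) (fun t => J (f t))).det with hGdef
    set q : ℝ := (g : ℝ) * n ^ 3 * M ^ 3 * A ^ 2 with hq
    have hq0 : 0 ≤ q := by positivity
    have hqg : 0 < q ^ g := by
      rcases (pow_nonneg hq0 g).lt_or_eq with h2 | h2
      · exact h2
      · rw [← h2, zero_mul] at h1
        exact absurd h1 (by norm_num)
    have hGre : 0 < G.re := by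
      by_contra hcon
      push Not at hcon
      nlinarith
    have hdet : (gram (j x₀) (fun i => j (f₀ i))).det.re = ‖τ B.det‖ ^ 2 * G.re := by
      rw [hG, Matrix.det_mul, Matrix.det_mul, Matrix.det_conjTranspose, ← hGdef]
      have h2 : (B.map τ).det = τ B.det := by
        rw [RingHom.map_det]
        rfl
      rw [h2]
      have h3 : τ B.det * G * star (τ B.det) = ((‖τ B.det‖ ^ 2 : ℝ) : ℂ) * G := by
        have h4 := Complex.mul_conj (τ B.det)
        rw [Complex.normSq_eq_norm_sq] at h4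
        rw [← h4]
        change τ B.det * G * (starRingEnd ℂ) (τ B.det) = _
        ring
      rw [h3, Complex.re_ofReal_mul]
    have hB0 : ‖τ B.det‖ ≠ 0 := by
      rw [norm_ne_zero_iff, Ne, map_eq_zero]
      exact hB
    rw [hdet, Real.log_mul (pow_ne_zero 2 hB0) hGre.ne', Real.log_pow]
    have h2 : 0 ≤ g * Real.log q + Real.log G.re := by
      rw [← Real.log_pow, ← Real.log_mul hqg.ne' hGre.ne']
      exact Real.log_nonneg h1
    push_cast
    nlinarith
  · -- degenerate case
    have hx' : IsAlgebraic C (algebraMap F Φ x₀) := by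
      by_contra h0
      exact hx h0
    obtain ⟨a, ha⟩ := mem_range_of_isAlgebraic hx'
    have hz : ∀ i l, B i l = 0 := by
      intro i
      have h1 := h i
      rw [← ha, Derivation.map_algebraMap, smul_zero] at h1
      have h2 : (∑ l, algebraMap C Φ (B i l) * f l) • KaehlerDifferential.D C Φ β = 0 := by
        rw [Finset.sum_smul, h1]
        refine Finset.sum_congr rfl fun l _ => ?_
        rw [mul_smul, algebraMap_smul]
      have h3 : KaehlerDifferential.D C Φ β ≠ 0 := by
        intro h0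
        have h4 := (kaehlerEquiv hβ).injective (a₁ := 1) (a₂ := 0) (by
          rw [kaehlerEquiv_apply, one_smul, h0, map_zero])
        exact one_ne_zero h4
      have h5 := (smul_eq_zero.1 h2).resolve_right h3
      exact sar_ind hβ idx hidx f hf (B i) h5
    rcases Nat.eq_zero_or_pos g with h0 | h0
    · subst h0
      simp
    · exfalso
      apply hB
      exact Matrix.det_eq_zero_of_row_eq_zero ⟨0, h0⟩ (hz _)

end Pool.Agent.HFB
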