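import Pool.Agent.HFB.DefsV

/-!
# HFB / FPA: algebraic numbers are integral at almost all places

`s` is a root of the monic polynomial `minpoly K s`; for all finite places `v` but finitely many all its coefficients `c_i` satisfy `v c_i ≤ 1` (`FinitePlace.mulSupport_finite` or `NumberField.FinitePlace` finiteness of the support of a non-zero element); for such `v`, `a_v s > 1` would give `a_v(s)^m = a_v(∑_{i<m} c_i s^i) ≤ max a_v(s)^i < a_v(s)^m`.
-/

namespace Pool.Agent.HFB

open Polynomial Pool.Agent.Helper11 Pool.Agent.ESH IntermediateField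
open scoped KaehlerDifferential

open NumberField

private theorem fpa_sum_le {C : Type*} [Field C] (a : AbsoluteValue C ℝ) (ha : IsNonarchimedean a) {B : ℝ}
    (hB : 0 ≤ B) {ι : Type*} (t : Finset ι) (f : ι → C) (h : ∀ i ∈ t, a (f i) ≤ B) :
    a (∑ i ∈ t, f i) ≤ B := by
  classical
  induction t using Finset.induction_on with
  | empty => simpa using hB
  | insert i t hi ih =>
    rw [Finset.sum_insert hi]
    refine (ha _ _).trans (max_le (h i (Finset.mem_insert_self _ _)) (ih ?_))
    intro j hj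
    exact h j (Finset.mem_insert_of_mem hj)

private theorem fpa_root {K C : Type*} [Field K] [Field C] [Algebra K C] (a : AbsoluteValue C ℝ)
    (ha : IsNonarchimedean a) (p : K[X]) (hp : p.Monic)
    (hc : ∀ i, a (algebraMap K C (p.coeff i)) ≤ 1) (s : C) (hs : aeval s p = 0) : a s ≤ 1 := by
  by_contra hlt
  push Not at hlt
  have h0 : 0 < a s := lt_trans one_pos hlt
  have hm : p.natDegree ≠ 0 := by
    intro h
    have : p = 1 := by
      exact hp.natDegree_eq_zero.1 h
    rw [this] at hs
    simp at hs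
  have h1 := hp.as_sum
  have h2 : s ^ p.natDegree = -∑ i ∈ Finset.range p.natDegree, algebraMap K C (p.coeff i) * s ^ i := by
    have h3 : aeval s p = s ^ p.natDegree +
        ∑ i ∈ Finset.range p.natDegree, algebraMap K C (p.coeff i) * s ^ i := by
      conv_lhs => rw [h1]
      simp [map_sum]
    rw [hs] at h3
    exact eq_neg_of_add_eq_zero_left h3.symm
  have h3 : a (s ^ p.natDegree) ≤ a s ^ (p.natDegree - 1) := by
    rw [h2, AbsoluteValue.map_neg]
    apply fpa_sum_le a ha (pow_nonneg h0.le _)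
    intro i hi
    rw [Finset.mem_range] at hi
    rw [map_mul, map_pow]
    calc a (algebraMap K C (p.coeff i)) * a s ^ i ≤ 1 * a s ^ i :=
          mul_le_mul_of_nonneg_right (hc i) (pow_nonneg h0.le _)
      _ = a s ^ i := one_mul _
      _ ≤ a s ^ (p.natDegree - 1) := pow_le_pow_right₀ hlt.le (by omega)
  rw [map_pow] at h3
  have h4 : a s ^ (p.natDegree - 1) < a s ^ p.natDegree :=
    pow_lt_pow_right₀ hlt (by omega)
  exact absurd h3 (not_le.2 h4)

theorem fpa {K C : Type*} [Field K] [NumberField K] [Field C] [Algebra K C] [Algebra.IsAlgebraic K C]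
    (a : FinitePlace K → AbsoluteValue C ℝ)
    (ha : ∀ v, IsNonarchimedean (a v) ∧ ∀ y : K, a v (algebraMap K C y) = v y) (s : C) :
    {v | 1 < a v s}.Finite := by
  classical
  let p := minpoly K s
  have hint : IsIntegral K s := (Algebra.IsAlgebraic.isAlgebraic s).isIntegral
  have hp : p.Monic := minpoly.monic hint
  have hfin : ∀ i, {v : FinitePlace K | ¬ (v (p.coeff i) ≤ 1)}.Finite := by
    intro i
    by_cases hi : p.coeff i = 0
    · have : {v : FinitePlace K | ¬ (v (p.coeff i) ≤ 1)} = ∅ := by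
        ext v
        simp [hi]
      rw [this]
      exact Set.finite_empty
    · have h1 : (Function.mulSupport fun w : FinitePlace K => w (p.coeff i)).Finite :=
        NumberField.FinitePlace.hasFiniteMulSupport hi
      refine h1.subset ?_
      intro v hv hv'
      apply hv
      exact le_of_eq hv'
  have hU : (⋃ i ∈ Finset.range (p.natDegree + 1), {v : FinitePlace K | ¬ (v (p.coeff i) ≤ 1)}).Finite :=
    (Finset.range (p.natDegree + 1)).finite_toSet.biUnion fun i _ => hfin i
  refine hU.subset ?_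
  intro v hv
  by_contra hcon
  simp only [Set.mem_iUnion, not_exists] at hcon
  have hc : ∀ i, a v (algebraMap K C (p.coeff i)) ≤ 1 := by
    intro i
    rw [(ha v).2]
    by_cases hi : i ≤ p.natDegree
    · by_contra h
      exact hcon i (Finset.mem_range.2 (by omega)) h
    · rw [coeff_eq_zero_of_natDegree_lt (by omega)]
      simp
  have := fpa_root (a v) (ha v).1 p hp hc s (minpoly.aeval K s)
  exact absurd hv (not_lt.2 this)

/-- product formula -/
theorem fpa_prod {K : Type*} [Field K] [NumberField K] (y : K) (hy : y ≠ 0) :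
    ∑ᶠ v : FinitePlace K, Real.log (v y) + ∑ σ : K →+* ℂ, Real.log ‖σ y‖ = 0 := by
  classical
  have h1 : (Function.mulSupport fun w : FinitePlace K => w y).Finite :=
    NumberField.FinitePlace.hasFiniteMulSupport hy
  have hpos : ∀ v : FinitePlace K, v y ≠ 0 := fun v h => hy ((map_eq_zero v).1 h)
  have e1 : ∑ᶠ v : FinitePlace K, Real.log (v y) = ∑ v ∈ h1.toFinset, Real.log (v y) := by
    apply finsum_eq_sum_of_support_subset
    intro v hv
    rw [Set.Finite.coe_toFinset]
    intro hv'
    apply hv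
    have h2 : v y = 1 := hv'
    change Real.log (v y) = 0
    rw [h2, Real.log_one]
  have e2 : ∏ᶠ v : FinitePlace K, v y = ∏ v ∈ h1.toFinset, v y := by
    apply finprod_eq_prod_of_mulSupport_subset
    rw [Set.Finite.coe_toFinset]
  have e3 : Real.log (∏ v ∈ h1.toFinset, v y) = ∑ v ∈ h1.toFinset, Real.log (v y) :=
    Real.log_prod fun v _ => hpos v
  have e4 : Real.log (∏ᶠ v : FinitePlace K, v y) = ∑ᶠ v : FinitePlace K, Real.log (v y) := by
    rw [e2, e3, e1]
  have e5 := NumberField.FinitePlace.prod_eq_inv_abs_norm hy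
  have e6 : ∏ σ : K →+* ℂ, ‖σ y‖ = |((Algebra.norm ℚ y : ℚ) : ℝ)| := by
    have h2 := Algebra.norm_eq_prod_embeddings ℚ ℂ y
    have h3 : ‖(algebraMap ℚ ℂ) (Algebra.norm ℚ y)‖ = ∏ σ : K →ₐ[ℚ] ℂ, ‖σ y‖ := by
      rw [h2, norm_prod]
    have h4 : ∏ σ : K →+* ℂ, ‖σ y‖ = ∏ σ : K →ₐ[ℚ] ℂ, ‖σ y‖ := by
      apply Fintype.prod_equiv (RingHom.equivRatAlgHom K ℂ)
      intro σ
      rfl
    rw [h4, ← h3]
    simp
  have hn : Algebra.norm ℚ y ≠ 0 := Algebra.norm_ne_zero_iff.2 hy
  have e7 : Real.log (∏ σ : K →+* ℂ, ‖σ y‖) = ∑ σ : K →+* ℂ, Real.log ‖σ y‖ :=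
    Real.log_prod fun σ _ => norm_ne_zero_iff.2 ((map_ne_zero σ).2 hy)
  rw [← e4, ← e7, e5, e6]
  have h5 : ((|Algebra.norm ℚ y|⁻¹ : ℚ) : ℝ) = |((Algebra.norm ℚ y : ℚ) : ℝ)|⁻¹ := by
    push_cast
    rfl
  rw [h5, Real.log_inv]
  ring

theorem fpa_fin {K : Type*} [Field K] [NumberField K] (y : K) (hy : y ≠ 0) :
    {v : FinitePlace K | Real.log (v y) ≠ 0}.Finite := by
  have h1 : (Function.mulSupport fun w : FinitePlace K => w y).Finite :=
    NumberField.FinitePlace.hasFiniteMulSupport hy
  refine h1.subset ?_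
  intro v hv hv'
  apply hv
  have h2 : v y = 1 := hv'
  rw [h2, Real.log_one]

end Pool.Agent.HFB
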