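import Pool.Agent.HFB.SNA
import Pool.Agent.HFB.FPA

/-!
# HFB / SLB: the local terms are non-negative at almost all places

The differentials `ω₀ i` are regular (combinations of the `f_j dβ`).  `chf` for each `ω₀ i`: finite sets `S_i ⊆ C`; by `fpa` for all finite places `v` but finitely many `a v s ≤ 1` for all `s ∈ ⋃ S_i`; for these `lfs` (with `sna_bdd`) gives `0 ≤ locF`.
-/

namespace Pool.Agent.HFB

open Polynomial Pool.Agent.Helper11 Pool.Agent.ESH IntermediateField NumberField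
open scoped KaehlerDifferential

private theorem slb_reg {C Φ : Type*} [Field C] [IsAlgClosed C] [CharZero C] [Field Φ] [Algebra C Φ]
    [FunField C Φ] (R : Place C Φ) {ι : Type*} (s : Finset ι) (b : ι → C) (ω : ι → Ω[Φ⁄C])
    (h : ∀ i ∈ s, 0 ≤ R.ordDiff (ω i)) : 0 ≤ R.ordDiff (∑ i ∈ s, b i • ω i) := by
  have h1 : (kaehlerEquiv R.transcendental_unif).symm (∑ i ∈ s, b i • ω i) =
      ∑ i ∈ s, algebraMap C Φ (b i) * (kaehlerEquiv R.transcendental_unif).symm (ω i) := by
    rw [map_sum]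
    refine Finset.sum_congr rfl fun i _ => ?_
    rw [← algebraMap_smul Φ (b i), map_smul, smul_eq_mul]
  rw [R.ordDiff_eq, h1]
  have h2 : ∑ i ∈ s, algebraMap C Φ (b i) * (kaehlerEquiv R.transcendental_unif).symm (ω i) ∈
      R.ge 0 := by
    refine sum_mem fun i hi => ?_
    have h3 := h i hi
    rw [R.ordDiff_eq] at h3
    have h4 := R.mul_mem_ge (R.algebraMap_mem_ge (b i)) (R.mem_ge_of_le h3)
    simpa using h4
  rcases R.mem_ge.1 h2 with h3 | h3
  · rw [h3, R.ord_zero]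
  · exact h3

theorem slb
    {K F C Φ : Type*} [Field K] [NumberField K] [Field F] [Algebra K F] [Field C] [Algebra K C]
    [Algebra.IsAlgebraic K C] [IsAlgClosed C] [CharZero C] [Field Φ] [Algebra C Φ] [Algebra F Φ] [FunField C Φ]
    (hc : Cmps K F C Φ) {β : Φ} {n : ℕ} {d : Fin n → ℕ} {u : Fin n → Φ} {c : Fin n → Fin n → Fin n → C[X]}
    {N : Fin n → Fin n → C[X]} {m : ℕ} {D₀ : C} (hP : Pak β d u c N m D₀) {g : ℕ} (x₀ : F) (f₀ : Fin g → F)
    (idx : Fin g → Fin n × ℕ) (hidx : Function.Injective idx) (f : Fin g → Φ)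
    (hf : ∀ t i, ((Algebra.trace C⟮β⟯ Φ (f t * u i) : C⟮β⟯) : Φ) = if i = (idx t).1 then β ^ (idx t).2 else 0)
    (hr : ∀ t, ∀ R : Place C Φ, 0 ≤ R.ordDiff (f t • KaehlerDifferential.D C Φ β))
    (B : Matrix (Fin g) (Fin g) C) (hB : B.det ≠ 0)
    (h : ∀ i, algebraMap F Φ (f₀ i) • KaehlerDifferential.D C Φ (algebraMap F Φ x₀) =
      ∑ j, B i j • (f j • KaehlerDifferential.D C Φ β))
    (a : FinitePlace K → AbsoluteValue C ℝ)
    (ha : ∀ v, IsNonarchimedean (a v) ∧ ∀ y : K, a v (algebraMap K C y) = v y) :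
    {v | locF (a v) (fun i => algebraMap F Φ (f₀ i) • KaehlerDifferential.D C Φ (algebraMap F Φ x₀)) < 0}.Finite := by
  classical
  have hreg : ∀ i, ∀ R : Place C Φ,
      0 ≤ R.ordDiff (algebraMap F Φ (f₀ i) • KaehlerDifferential.D C Φ (algebraMap F Φ x₀)) := by
    intro i R
    rw [h i]
    exact slb_reg R _ _ _ fun j _ => hr j R
  choose S hS using fun i => chf _ (hreg i)
  have hfin : (⋃ s ∈ Finset.univ.biUnion S, {v | 1 < a v s}).Finite :=
    (Finset.univ.biUnion S).finite_toSet.biUnion fun s _ => fpa a ha s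
  refine hfin.subset ?_
  intro v hv
  by_contra hcon
  simp only [Set.mem_iUnion, Set.mem_ofPred_eq, not_exists, not_lt] at hcon
  have h1 : 0 ≤ locF (a v)
      (fun i => algebraMap F Φ (f₀ i) • KaehlerDifferential.D C Φ (algebraMap F Φ x₀)) := by
    refine lfs _ (a v) (fun i => hS i (a v) (ha v).1 fun s hs => hcon s ?_) ?_
    · exact Finset.mem_biUnion.2 ⟨i, Finset.mem_univ _, hs⟩
    · exact sna_bdd hc hP x₀ f₀ idx hidx f hf hr B hB h (a v) (ha v).1
  exact absurd hv (not_lt.2 h1)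

end Pool.Agent.HFB
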