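import Pool.Agent.HFB.FPA
import Pool.Agent.ESH.CLO

/-!
# HFB / SMN: averaging over the Galois group and the product formula

Let `L/K` be a finite Galois extension in `C` containing `b` and `δ` (`clo` for a primitive element, or compositum), `Γ = Gal(L/K)`; every element of `Γ` extends to `C ≃ₐ[K] C` (`AlgEquiv.liftNormal`), fix extensions.  `N = ∏_{γ ∈ Γ} γ(δ b) ∈ K^*` (norm).  `h1` summed over `Γ`: `|Γ| ℓ v ≤ - log a_v(N) = - log v(N)`.
So `ℓ v ≤ - (1/|Γ|) log (v N)`: for all `v` outside the finite sets of `hℓ` and `fpa_fin`, `0 ≤ ℓ v ≤ 0`: `ℓ` has finite support and `∑ᶠ ℓ ≤ - (1/|Γ|) ∑ᶠ log (v N) = (1/|Γ|) ∑_σ log |σ N|` (`fpa_prod`, `finsum_le_finsum`).  For `σ` choose `τ₀ : C → ℂ` over `σ` (`IsAlgClosed.lift`): `log |σ N| = ∑_γ (log |τ₀ γ δ| + log |τ₀ γ b|) ≤ |Γ| E' + ∑_γ log |τ₀ γ b|`,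
and `h2` for `τ₀ ∘ γ`, summed: `|Γ| Λ σ ≤ - ∑_γ log |τ₀ γ b| + |Γ| E`.  Add; the number of the `σ` is `[K : ℚ]` (`NumberField.Embeddings.card`).
-/

namespace Pool.Agent.HFB

open Polynomial Pool.Agent.Helper11 Pool.Agent.ESH IntermediateField NumberField
open scoped KaehlerDifferential

private theorem SMN_gal {K C : Type*} [Field K] [CharZero K] [Field C] [Algebra K C] [Algebra.IsAlgebraic K C]
    [IsAlgClosed C] (b δ : C) :
    ∃ M : IntermediateField K C, b ∈ M ∧ δ ∈ M ∧ FiniteDimensional K M ∧ IsGalois K M := by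
  have hb : IsIntegral K b := (Algebra.IsAlgebraic.isAlgebraic b).isIntegral
  have hδ : IsIntegral K δ := (Algebra.IsAlgebraic.isAlgebraic δ).isIntegral
  have hfd : FiniteDimensional K K⟮b, δ⟯ := by
    apply IntermediateField.finiteDimensional_adjoin
    intro x hx
    rcases hx with rfl | hx
    · exact hb
    · rw [Set.mem_singleton_iff] at hx
      rw [hx]; exact hδ
  obtain ⟨x, hx⟩ := Field.exists_primitive_element K K⟮b, δ⟯
  obtain ⟨M, hxM, h1, h2, _, _⟩ := clo (K := K) (x : C)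
  have hle : K⟮b, δ⟯ ≤ M := by
    have h3 : IntermediateField.adjoin K {(x : C)} ≤ M := by
      rw [IntermediateField.adjoin_le_iff]
      intro y hy
      rw [Set.mem_singleton_iff] at hy
      rw [hy]; exact hxM
    have h4 : IntermediateField.adjoin K {(x : C)} = K⟮b, δ⟯ := by
      have h5 := congrArg IntermediateField.lift hx
      rw [IntermediateField.lift_adjoin_simple, IntermediateField.lift_top] at h5
      exact h5
    rw [← h4]; exact h3
  refine ⟨M, hle ?_, hle ?_, h1, h2⟩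
  · exact IntermediateField.subset_adjoin K _ (Set.mem_insert _ _)
  · exact IntermediateField.subset_adjoin K _ (Set.mem_insert_of_mem _ rfl)

theorem smn {K C : Type*} [Field K] [NumberField K] [Field C] [Algebra K C] [Algebra.IsAlgebraic K C]
    [IsAlgClosed C] (a : FinitePlace K → AbsoluteValue C ℝ)
    (ha : ∀ v, IsNonarchimedean (a v) ∧ ∀ y : K, a v (algebraMap K C y) = v y) (ℓ : FinitePlace K → ℝ)
    (hℓ : {v | ℓ v < 0}.Finite) (Λ : (K →+* ℂ) → ℝ) (b δ : C) (hb : b ≠ 0) (hδ : δ ≠ 0) (E E' : ℝ)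
    (h1 : ∀ v, ∀ γ : C ≃ₐ[K] C, ℓ v ≤ -Real.log (a v (γ (δ * b))))
    (h2 : ∀ σ, ∀ τ : C →+* ℂ, (∀ y : K, τ (algebraMap K C y) = σ y) → Λ σ ≤ -Real.log ‖τ b‖ + E)
    (h3 : ∀ τ : C →+* ℂ, Real.log ‖τ δ‖ ≤ E') :
    ∑ᶠ v, ℓ v + ∑ σ, Λ σ ≤ Module.finrank ℚ K * (E + E') := by
  classical
  obtain ⟨M, hbM, hδM, hfd, hgal⟩ := SMN_gal (K := K) b δ
  have hnorm : Normal K C := by
    have : IsAlgClosure K C := ⟨inferInstance, inferInstance⟩
    infer_instance
  let bM : M := ⟨b, hbM⟩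
  let δM : M := ⟨δ, hδM⟩
  let ext : (M ≃ₐ[K] M) → (C ≃ₐ[K] C) := fun γ => γ.liftNormal C
  have hext : ∀ (γ : M ≃ₐ[K] M) (y : M), ext γ (y : C) = ((γ y : M) : C) := fun γ y =>
    AlgEquiv.liftNormal_commutes γ C y
  let y : K := Algebra.norm K (δM * bM)
  have hw0 : δM * bM ≠ 0 := by
    intro h
    have h5 : δ * b = 0 := congrArg (fun z : M => (z : C)) h
    exact mul_ne_zero hδ hb h5
  have hy : y ≠ 0 := Algebra.norm_ne_zero_iff.2 hw0
  have hprod : algebraMap K C y = ∏ γ : (M ≃ₐ[K] M), ext γ (δ * b) := by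
    have h5 := Algebra.norm_eq_prod_automorphisms K (δM * bM)
    have h6 := congrArg (fun z : M => (z : C)) h5
    have h7 : ((algebraMap K M y : M) : C) = algebraMap K C y := rfl
    rw [← h7, show ((algebraMap K M y : M) : C) = _ from h6]
    have h8 : ((∏ γ : (M ≃ₐ[K] M), γ (δM * bM) : M) : C) =
        ∏ γ : (M ≃ₐ[K] M), ((γ (δM * bM) : M) : C) := map_prod M.val _ _
    rw [h8]
    apply Finset.prod_congr rfl
    intro γ _
    rw [← hext γ (δM * bM)]
    rfl
  have hne : ∀ γ : (M ≃ₐ[K] M), ext γ (δ * b) ≠ 0 := fun γ =>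
    (map_ne_zero (ext γ)).2 (mul_ne_zero hδ hb)
  obtain ⟨G, hG⟩ : ∃ G : ℝ, G = (Fintype.card (M ≃ₐ[K] M) : ℝ) := ⟨_, rfl⟩
  have hGpos : 0 < G := by
    rw [hG]
    exact_mod_cast Fintype.card_pos
  -- finite places
  have hv : ∀ v : FinitePlace K, G * ℓ v ≤ -Real.log (v y) := by
    intro v
    have h5 : Real.log (v y) = ∑ γ : (M ≃ₐ[K] M), Real.log (a v (ext γ (δ * b))) := by
      rw [← (ha v).2 y, hprod, map_prod]
      exact Real.log_prod fun γ _ => ((a v).ne_zero_iff).2 (hne γ)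
    rw [h5, ← Finset.sum_neg_distrib]
    have h6 : G * ℓ v = ∑ γ : (M ≃ₐ[K] M), ℓ v := by
      rw [Finset.sum_const, nsmul_eq_mul, hG, Finset.card_univ]
    rw [h6]
    exact Finset.sum_le_sum fun γ _ => h1 v (ext γ)
  -- infinite places
  have hσ : ∀ σ : K →+* ℂ, G * Λ σ ≤ G * (E + E') - Real.log ‖σ y‖ := by
    intro σ
    obtain ⟨τ, hτ⟩ : ∃ τ : C →+* ℂ, ∀ z : K, τ (algebraMap K C z) = σ z := by
      let _ := σ.toAlgebra
      let φ : C →ₐ[K] ℂ := IsAlgClosed.lift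
      exact ⟨φ.toRingHom, fun z => φ.commutes z⟩
    have h5 : Real.log ‖σ y‖ = ∑ γ : (M ≃ₐ[K] M), (Real.log ‖τ (ext γ δ)‖ + Real.log ‖τ (ext γ b)‖) := by
      rw [← hτ y, hprod, map_prod, norm_prod, Real.log_prod]
      · apply Finset.sum_congr rfl
        intro γ _
        rw [map_mul, map_mul, norm_mul, Real.log_mul]
        · exact norm_ne_zero_iff.2 ((map_ne_zero τ).2 ((map_ne_zero (ext γ)).2 hδ))
        · exact norm_ne_zero_iff.2 ((map_ne_zero τ).2 ((map_ne_zero (ext γ)).2 hb))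
      · intro γ _
        exact norm_ne_zero_iff.2 ((map_ne_zero τ).2 (hne γ))
    have h6 : G * Λ σ = ∑ γ : (M ≃ₐ[K] M), Λ σ := by
      rw [Finset.sum_const, nsmul_eq_mul, hG, Finset.card_univ]
    have h7 : G * (E + E') = ∑ γ : (M ≃ₐ[K] M), (E + E') := by
      rw [Finset.sum_const, nsmul_eq_mul, hG, Finset.card_univ]
    rw [h5, h6, h7, ← Finset.sum_sub_distrib]
    apply Finset.sum_le_sum
    intro γ _
    have h8 := h2 σ (τ.comp ((ext γ : C ≃ₐ[K] C) : C →+* C)) (by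
      intro z
      change τ (ext γ (algebraMap K C z)) = σ z
      rw [AlgEquiv.commutes, hτ])
    have h9 := h3 (τ.comp ((ext γ : C ≃ₐ[K] C) : C →+* C))
    change Λ σ ≤ -Real.log ‖τ (ext γ b)‖ + E at h8
    change Real.log ‖τ (ext γ δ)‖ ≤ E' at h9
    linarith
  -- the finite sum
  have hfy := fpa_fin y hy
  have hsup : (Function.support ℓ).Finite := by
    refine (hℓ.union hfy).subset ?_
    intro v hvs
    by_cases h5 : ℓ v < 0
    · exact Or.inl h5
    · right
      have h6 : 0 < ℓ v := lt_of_le_of_ne (not_lt.1 h5) (Ne.symm hvs)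
      have h7 := hv v
      have h8 : 0 < G * ℓ v := mul_pos hGpos h6
      intro h9
      rw [h9] at h7
      linarith
  have hfin : G * ∑ᶠ v, ℓ v ≤ -∑ᶠ v : FinitePlace K, Real.log (v y) := by
    rw [← smul_eq_mul, smul_finsum' _ hsup, ← finsum_neg_distrib]
    refine finsum_le_finsum' ?_ ?_ ?_
    · refine hsup.subset ?_
      intro v hvs h0
      apply hvs
      change G • ℓ v = 0
      rw [h0, smul_zero]
    · refine hfy.subset ?_
      intro v hvs h0
      apply hvs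
      change -Real.log (v y) = 0
      rw [h0, neg_zero]
    · intro v
      exact hv v
  have hinf : G * ∑ σ, Λ σ ≤ G * (Module.finrank ℚ K * (E + E')) - ∑ σ : K →+* ℂ, Real.log ‖σ y‖ := by
    rw [Finset.mul_sum]
    refine (Finset.sum_le_sum fun σ _ => hσ σ).trans (le_of_eq ?_)
    rw [Finset.sum_sub_distrib, Finset.sum_const, nsmul_eq_mul, Finset.card_univ,
      NumberField.Embeddings.card K ℂ]
    ring
  have hprodf := fpa_prod y hy
  have hfinal : G * (∑ᶠ v, ℓ v + ∑ σ, Λ σ) ≤ G * (Module.finrank ℚ K * (E + E')) := by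
    rw [mul_add]
    linarith
  exact le_of_mul_le_mul_left hfinal hGpos


end Pool.Agent.HFB
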