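import Pool.Agent.HFB.SPK
import Pool.Agent.HFB.SMN
import Pool.Agent.HFB.SAR
import Pool.Agent.HFB.SLB
import Pool.Agent.HFB.DBS
import Pool.Agent.HFB.RBX

/-!
# HFB / HBE: the stable Faltings height is bounded in terms of the Belyi degree

`n = [Φ : C(β)]`, RBX: `d`, `u`.  DBS `dbb` with `M' > d`: the `f_t dβ`, `t ∈ DI d M'`, are a basis of the regular differentials, and so are the `ω₀ i`, so `card (DI d M') = g`; as the indices `(i, s)`, `s + 2 ≤ d_i`, are in `DI`, `d_i ≤ g + 1` for all `i`.  `M = 2 g + 4`.  SPK: `u', c, N, m, D₀` (same `d`).  `dbb` for `u'` and `M`: `f_t`, choose a bijection `Fin g ≃ DI d M`,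
`idx t = (t.1.1, t.1.2)`.  `ω₀ i = ∑_j B_ij (f_j dβ)`, `det B ≠ 0` (two bases).  SMN with `b = det B`, `δ = (m^(2n+2) D₀)^g`, `ℓ v = locF (a v) ω₀` (`h1` = SNA, `hℓ` = SLB), `Λ σ = -(1/2) log det gram` (`h2` = SAR, `A = tw 16 (n + M + 16)`), `E = g/2 · log (g n³ M³ A²)`, `E' = g ((2n+2) log m + log ‖τ D₀‖)`-bound `≤ g (2 n + 3) A`.
`hFal = (∑ᶠ ℓ + ∑ Λ)/[K : ℚ] ≤ E + E'`.  With `s = n + g + 16`: `n + M + 16 ≤ 2^s`, `A ≤ tw 17 s`, everything is at most `tw 20 s` (`log y ≤ y`).  If `g = 0` everything is `0` or trivial (the same proof works).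
-/

namespace Pool.Agent.HFB

open Polynomial Pool.Agent.Helper11 Pool.Agent.ESH IntermediateField NumberField
open scoped KaehlerDifferential

private theorem deg_le {C Φ : Type*} [Field C] [Field Φ] [Algebra C Φ] [FunField C Φ] [CharZero C]
    [IsAlgClosed C] {x : Φ} {n : ℕ} {d : Fin n → ℕ} {g : ℕ}
    (ω : Fin g → Ω[Φ⁄C]) (hr : ∀ i, ∀ R : Place C Φ, 0 ≤ R.ordDiff (ω i))
    (hli : LinearIndependent C ω)
    (hsp : ∀ η : Ω[Φ⁄C], (∀ R : Place C Φ, 0 ≤ R.ordDiff η) → η ∈ Submodule.span C (Set.range ω))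
    (M : ℕ) (hM : ∀ i, d i < M) (f : DI d M → Φ)
    (h1 : ∀ t, ∀ R : Place C Φ, 0 ≤ R.ordDiff (f t • KaehlerDifferential.D C Φ x))
    (h2 : LinearIndependent C (fun t => f t • KaehlerDifferential.D C Φ x))
    (h3 : ∀ η : Ω[Φ⁄C], (∀ R : Place C Φ, 0 ≤ R.ordDiff η) →
      η ∈ Submodule.span C (Set.range (fun t => f t • KaehlerDifferential.D C Φ x))) :
    Fintype.card (DI d M) = g ∧ ∀ i, d i ≤ g + 1 := by
  classical
  have e1 : Submodule.span C (Set.range (fun t => f t • KaehlerDifferential.D C Φ x)) =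
      Submodule.span C (Set.range ω) := by
    apply le_antisymm
    · rw [Submodule.span_le]
      rintro _ ⟨t, rfl⟩
      exact hsp _ (h1 t)
    · rw [Submodule.span_le]
      rintro _ ⟨t, rfl⟩
      exact h3 _ (hr t)
  have hc : Fintype.card (DI d M) = g := by
    have a1 := finrank_span_eq_card h2
    have a2 := finrank_span_eq_card hli
    rw [e1, a2, Fintype.card_fin] at a1
    exact a1.symm
  refine ⟨hc, fun i => ?_⟩
  by_cases hi : d i ≤ 1
  · omega
  have hlt : ∀ s : Fin (d i - 1), (s : ℕ) < M := fun s => by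
    have := hM i
    omega
  have hinj : Function.Injective (fun s : Fin (d i - 1) => (⟨(i, ⟨(s : ℕ), hlt s⟩), by
      simp only
      omega⟩ : DI d M)) := by
    intro s t hst
    have := congrArg (fun t : DI d M => (t.1.2 : ℕ)) hst
    exact Fin.ext this
  have := Fintype.card_le_of_injective _ hinj
  rw [Fintype.card_fin, hc] at this
  omega

private theorem log_le {m D A z : ℝ} {n g : ℕ} (hm : 0 < m) (hD : 0 < D) (h1 : m ≤ A)
    (h2 : D ≤ A) (hz : z = (m ^ (2 * n + 2) * D) ^ g) :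
    Real.log z ≤ g * ((2 * n + 2) * A + A) := by
  rw [hz, Real.log_pow, Real.log_mul (pow_ne_zero _ hm.ne') hD.ne', Real.log_pow]
  have a1 : Real.log m ≤ A := (Real.log_le_self hm.le).trans h1
  have a2 : Real.log D ≤ A := (Real.log_le_self hD.le).trans h2
  push_cast
  have a3 : (2 * (n : ℝ) + 2) * Real.log m ≤ (2 * n + 2) * A :=
    mul_le_mul_of_nonneg_left a1 (by positivity)
  exact mul_le_mul_of_nonneg_left (add_le_add a3 a2) (Nat.cast_nonneg _)

private theorem num1 {n g M T W : ℝ} (hg : 0 ≤ g) (hn : 0 ≤ n) (hM0 : 0 ≤ M) (hT0 : 0 ≤ T)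
    (hgW : g ≤ W) (hnW : n ≤ W) (hMW : M ≤ 2 * W) (hTW : T ≤ W) (h16 : 16 ≤ W) :
    g / 2 * Real.log (g * n ^ 3 * M ^ 3 * T ^ 2) + g * ((2 * n + 2) * T + T) ≤ W ^ 16 := by
  have hW0 : 0 ≤ W := hg.trans hgW
  have b1 : Real.log (g * n ^ 3 * M ^ 3 * T ^ 2) ≤ g * n ^ 3 * M ^ 3 * T ^ 2 :=
    Real.log_le_self (by positivity)
  have b2 : g * n ^ 3 * M ^ 3 * T ^ 2 ≤ W * W ^ 3 * (2 * W) ^ 3 * W ^ 2 := by
    gcongr
  have b3 : g / 2 * Real.log (g * n ^ 3 * M ^ 3 * T ^ 2) ≤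
      W / 2 * (W * W ^ 3 * (2 * W) ^ 3 * W ^ 2) := by
    refine (mul_le_mul_of_nonneg_left (b1.trans b2) (by positivity)).trans ?_
    gcongr
  have b4 : g * ((2 * n + 2) * T + T) ≤ W * ((2 * W + 2) * W + W) := by
    gcongr
  have b5 : W / 2 * (W * W ^ 3 * (2 * W) ^ 3 * W ^ 2) + W * ((2 * W + 2) * W + W) ≤
      W ^ 16 := by
    have c1 : W / 2 * (W * W ^ 3 * (2 * W) ^ 3 * W ^ 2) = 4 * W ^ 10 := by ring
    have c2 : W * ((2 * W + 2) * W + W) = 2 * W ^ 3 + 3 * W ^ 2 := by ring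
    have c0 : 1 ≤ W := by linarith
    have c3 : W ^ 3 ≤ W ^ 10 := pow_le_pow_right₀ c0 (by norm_num)
    have c4 : W ^ 2 ≤ W ^ 10 := pow_le_pow_right₀ c0 (by norm_num)
    have c5 : W ^ 10 * 16 ≤ W ^ 10 * W := mul_le_mul_of_nonneg_left h16 (by positivity)
    have c6 : W ^ 10 * W = W ^ 11 := by ring
    have c7 : W ^ 11 ≤ W ^ 16 := pow_le_pow_right₀ c0 (by norm_num)
    have c8 : 0 ≤ W ^ 10 := by positivity
    rw [c1, c2]
    linarith
  exact (add_le_add b3 b4).trans b5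

private theorem two_mul_le {k : ℕ} (hk : 16 ≤ k) : 2 * k ≤ 2 ^ k := by
  induction k, hk using Nat.le_induction with
  | base => norm_num
  | succ k hk ih =>
    rw [pow_succ]
    omega

private theorem num {n g M T U : ℕ} (hM : M = 2 * g + 4) (hT : T = tw 16 (n + M + 16))
    (hU : tw 20 (n + g + 16) = U) :
    (g : ℝ) / 2 * Real.log (g * n ^ 3 * M ^ 3 * (T : ℝ) ^ 2) + g * ((2 * n + 2) * (T : ℝ) + T) ≤
      (U : ℝ) := by
  have hs : 16 ≤ n + g + 16 := by omega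
  have key : ∃ W, n + g + 16 ≤ W ∧ T ≤ W ∧ W ^ 16 ≤ U := by
    refine ⟨tw 17 (n + g + 16), le_tw _ _, ?_, ?_⟩
    · rw [hT, ← tw_comp 16 1]
      refine tw_mono le_rfl ?_
      have h2 := two_mul_le hs
      rw [tw_succ, tw_zero]
      omega
    · rw [← hU]
      have := tw_pow (c := 17) (s := n + g + 16) hs (x := tw 17 (n + g + 16)) (y := 16) le_rfl
        (hs.trans (le_tw _ _))
      exact this.trans (tw_mono (by norm_num) le_rfl)
  clear hU hT
  obtain ⟨W, hsW, hTW, hWU⟩ := key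
  have hMW : M ≤ 2 * W := by omega
  have hgW : g ≤ W := by omega
  have hnW : n ≤ W := by omega
  have h16 : 16 ≤ W := by omega
  have := num1 (n := n) (g := g) (M := M) (T := T) (W := W) (Nat.cast_nonneg _) (Nat.cast_nonneg _)
    (Nat.cast_nonneg _) (Nat.cast_nonneg _) (by exact_mod_cast hgW) (by exact_mod_cast hnW)
    (by exact_mod_cast hMW) (by exact_mod_cast hTW) (by exact_mod_cast h16)
  refine this.trans ?_
  exact_mod_cast hWU

theorem hbe {K F C Φ : Type*} [Field K] [NumberField K] [Field F] [Algebra K F] [Field C] [Algebra K C]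
    [Algebra.IsAlgebraic K C] [IsAlgClosed C] [Field Φ] [Algebra C Φ] [Algebra F Φ] [FunField C Φ]
    (hc : Cmps K F C Φ) (a : FinitePlace K → AbsoluteValue C ℝ)
    (ha : ∀ v, IsNonarchimedean (a v) ∧ ∀ y : K, a v (algebraMap K C y) = v y)
    {Ψ : (K →+* ℂ) → Type*} [∀ σ, Field (Ψ σ)] [∀ σ, Algebra ℂ (Ψ σ)] (j : ∀ σ, F →+* Ψ σ)
    (hj : ∀ σ, CmpE σ (j σ)) {g : ℕ} (x₀ : F) (f₀ : Fin g → F)
    (hr : ∀ i, ∀ R : Place C Φ, 0 ≤ R.ordDiff (algebraMap F Φ (f₀ i) • KaehlerDifferential.D C Φ (algebraMap F Φ x₀)))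
    (hli : LinearIndependent C (fun i => algebraMap F Φ (f₀ i) • KaehlerDifferential.D C Φ (algebraMap F Φ x₀)))
    (hsp : ∀ η : Ω[Φ⁄C], (∀ R : Place C Φ, 0 ≤ R.ordDiff η) → η ∈ Submodule.span C
      (Set.range (fun i => algebraMap F Φ (f₀ i) • KaehlerDifferential.D C Φ (algebraMap F Φ x₀))))
    (β : Φ) (hβ : IsBelyi C β) :
    hFal (C := C) (Φ := Φ) a j x₀ f₀ ≤ tw 20 (Module.finrank C⟮β⟯ Φ + g + 16) := by
  classical
  have hchar : CharZero C := charZero_of_injective_algebraMap (algebraMap K C).injective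
  have hrb := rbx β hβ.1
  generalize Module.finrank C⟮β⟯ Φ = n at hrb ⊢
  obtain ⟨d, u, hu, -⟩ := hrb
  set ω : Fin g → Ω[Φ⁄C] := fun i => algebraMap F Φ (f₀ i) • KaehlerDifferential.D C Φ (algebraMap F Φ x₀)
    with hω
  have hdM : ∀ i, d i < 1 + ∑ i, d i := fun i => by
    have := Finset.single_le_sum (f := d) (fun i _ => Nat.zero_le _) (Finset.mem_univ i)
    omega
  obtain ⟨f1, -, h11, h12, h13⟩ := dbb hu _ hdM
  obtain ⟨-, hdg⟩ := deg_le ω hr hli hsp _ hdM f1 h11 h12 h13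
  set M : ℕ := 2 * g + 4 with hM
  have hMM : ∀ i j, d i + d j + 1 < M := fun i j => by
    have := hdg i
    have := hdg j
    omega
  have hspk := spk hβ hu M hMM
  obtain ⟨T, hT⟩ : ∃ T : ℕ, tw 16 (n + M + 16) = T := ⟨_, rfl⟩
  rw [hT] at hspk
  obtain ⟨u', c, N, m, D₀, hP, hcM, hmA, hA⟩ := hspk
  have hdM' : ∀ i, d i < M := fun i => by
    have := hdg i
    omega
  obtain ⟨f2, h20, h21, h22, h23⟩ := dbb hP.bas M hdM'
  obtain ⟨hcard, -⟩ := deg_le ω hr hli hsp _ hdM' f2 h21 h22 h23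
  have e : Fin g ≃ DI d M := (Fintype.equivFinOfCardEq hcard).symm
  set idx : Fin g → Fin n × ℕ := fun t => ((e t).1.1, ((e t).1.2 : ℕ)) with hidx
  have hidxi : Function.Injective idx := by
    intro s t hst
    rw [hidx] at hst
    simp only [Prod.mk.injEq] at hst
    apply e.injective
    apply Subtype.ext
    exact Prod.ext hst.1 (Fin.ext hst.2)
  set f : Fin g → Φ := fun t => f2 (e t) with hf
  have hf1 : ∀ t i, ((Algebra.trace C⟮β⟯ Φ (f t * u' i) : C⟮β⟯) : Φ) =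
      if i = (idx t).1 then β ^ (idx t).2 else 0 := fun t i => h20 (e t) i
  have hf2 : ∀ t, ∀ R : Place C Φ, 0 ≤ R.ordDiff (f t • KaehlerDifferential.D C Φ β) :=
    fun t => h21 (e t)
  have hf3 : LinearIndependent C (fun t => f t • KaehlerDifferential.D C Φ β) :=
    h22.comp e e.injective
  have hrange : Set.range (fun t => f t • KaehlerDifferential.D C Φ β) =
      Set.range (fun t => f2 t • KaehlerDifferential.D C Φ β) := by
    have : (fun t => f t • KaehlerDifferential.D C Φ β) =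
      (fun t => f2 t • KaehlerDifferential.D C Φ β) ∘ e := rfl
    rw [this, Set.range_comp, e.surjective.range_eq, Set.image_univ]
  have hB0 : ∀ i, ∃ b : Fin g → C, ω i = ∑ j, b j • (f j • KaehlerDifferential.D C Φ β) := by
    intro i
    have := h23 (ω i) (hr i)
    rw [← hrange, Submodule.mem_span_range_iff_exists_fun] at this
    obtain ⟨b, hb⟩ := this
    exact ⟨b, hb.symm⟩
  choose B' hB' using hB0
  set B : Matrix (Fin g) (Fin g) C := Matrix.of B' with hBdef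
  have hB1 : ∀ i, ω i = ∑ j, B i j • (f j • KaehlerDifferential.D C Φ β) := hB'
  have hdet : B.det ≠ 0 := by
    have hrow : LinearIndependent C B.row := by
      rw [Fintype.linearIndependent_iff] at hli ⊢
      intro w hw i
      refine hli w ?_ i
      have hw' : ∀ j, ∑ i, w i * B i j = 0 := fun j => by
        have := congrFun hw j
        simpa [Finset.sum_apply] using this
      calc ∑ i, w i • ω i = ∑ i, w i • ∑ j, B i j • (f j • KaehlerDifferential.D C Φ β) := by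
            refine Finset.sum_congr rfl fun i _ => ?_
            rw [hB1 i]
        _ = ∑ j, (∑ i, w i * B i j) • (f j • KaehlerDifferential.D C Φ β) := by
            simp_rw [Finset.smul_sum, Finset.sum_smul, mul_smul]
            rw [Finset.sum_comm]
        _ = 0 := by
            simp [hw']
    rw [Matrix.linearIndependent_rows_iff_isUnit, Matrix.isUnit_iff_isUnit_det] at hrow
    exact hrow.ne_zero
  have hT1 : 16 ≤ T := by
    rw [← hT]
    exact (by omega : 16 ≤ n + M + 16).trans (le_tw 16 _)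
  have hA1 : (1 : ℝ) ≤ T := by
    exact_mod_cast (by omega : 1 ≤ T)
  obtain ⟨A, hAdef⟩ : ∃ A : ℝ, (T : ℝ) = A := ⟨_, rfl⟩
  rw [hAdef] at hA1
  rw [hAdef] at hA
  set δ : C := (((m : C) ^ (2 * n + 2) * D₀) ^ g) with hδ
  have hδ0 : δ ≠ 0 := by
    rw [hδ]
    refine pow_ne_zero _ (mul_ne_zero (pow_ne_zero _ ?_) hP.D0)
    exact_mod_cast hP.pos.ne'
  have q1 : {v | locF (a v) ω < 0}.Finite := slb hc hP x₀ f₀ idx hidxi f hf1 hf2 B hdet hB1 a ha
  have q2 : ∀ v, ∀ γ : C ≃ₐ[K] C, locF (a v) ω ≤ -Real.log (a v (γ (δ * B.det))) :=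
    fun v γ => sna hc hP x₀ f₀ idx hidxi f hf1 hf2 B hdet hB1 (a v) (ha v).1 γ
  have q3 : ∀ σ, ∀ τ : C →+* ℂ, (∀ y : K, τ (algebraMap K C y) = σ y) →
      -(1 / 2) * Real.log (gram (j σ x₀) (fun i => j σ (f₀ i))).det.re ≤ -Real.log ‖τ B.det‖ +
        g / 2 * Real.log (g * n ^ 3 * M ^ 3 * A ^ 2) :=
    fun σ τ hτ => sar hc hP x₀ f₀ idx hidxi f hf1 hf2 B hdet hB1 σ (j σ) (hj σ) τ hτ A hA1 M
      (hA τ).1 hcM (fun t => (e t).1.2.2)
  have q4 : ∀ τ : C →+* ℂ, Real.log ‖τ δ‖ ≤ g * ((2 * n + 2) * A + A) := by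
    intro τ
    have h0 : ‖τ δ‖ = ((m : ℝ) ^ (2 * n + 2) * ‖τ D₀‖) ^ g := by
      rw [hδ, map_pow, map_mul, map_pow, map_natCast, norm_pow, norm_mul, norm_pow,
        Complex.norm_natCast]
    refine log_le ?_ ?_ ?_ (hA τ).2 h0
    · exact_mod_cast hP.pos
    · exact norm_pos_iff.2 ((map_ne_zero τ).2 hP.D0)
    · rw [← hAdef]
      exact_mod_cast hmA
  have key := smn (K := K) (C := C) a ha (fun v => locF (a v) ω) q1
    (fun σ => -(1 / 2) * Real.log (gram (j σ x₀) (fun i => j σ (f₀ i))).det.re)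
    B.det δ hdet hδ0 (g / 2 * Real.log (g * n ^ 3 * M ^ 3 * A ^ 2)) (g * ((2 * n + 2) * A + A))
    q2 q3 q4
  rw [hFal, div_le_iff₀ (by exact_mod_cast Module.finrank_pos)]
  have e1 : ∑ σ : K →+* ℂ, -(1 / 2) * Real.log (gram (j σ x₀) (fun i => j σ (f₀ i))).det.re =
      -((1 / 2) * ∑ σ : K →+* ℂ, Real.log (gram (j σ x₀) (fun i => j σ (f₀ i))).det.re) := by
    rw [← Finset.mul_sum]
    ring
  rw [e1, ← sub_eq_add_neg] at key
  refine key.trans ?_
  rw [mul_comm]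
  refine mul_le_mul_of_nonneg_right ?_ (Nat.cast_nonneg _)
  rw [← hAdef]
  exact num hM hT.symm rfl

end Pool.Agent.HFB
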