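import Pool.Agent.HFB.DefsW
import Pool.Agent.HFB.CHJ
import Pool.Agent.ESH.EVL
import Pool.Agent.Helper11.Degree

/-!
# HFB / ABD: boundedness near a point of the x-plane and near infinity

`abd`: there is `q ∈ ℂ[X]` with `q(c₀) ≠ 0` such that `g' = q(x) g` has no pole at finite values of `x` (`finite_ord_ne_zero`, as in `rgm_frac`).  `chj_int`: a monic equation `g'^m + p_1(x) g'^(m-1) + … = 0`, `p_i ∈ ℂ[X]`, bounded on the unit disc around `c₀`; evaluate it at `R` over `c`: `ev R g'` is a root of a monic polynomial with bounded coefficients, so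
it is bounded; `ev R g = ev R g' / q(c)`, `|q(c)| ≥ |q(c₀)|/2` near `c₀`.
`abi`: `abd` for `x⁻¹` and `c₀ = 0`; a place `R` over `c ≠ 0` for `x` is a place over `c⁻¹` for `x⁻¹`.
-/

namespace Pool.Agent.HFB

open Polynomial Pool.Agent.Helper11 Pool.Agent.ESH IntermediateField MeasureTheory
open scoped KaehlerDifferential

variable {Φ : Type*} [Field Φ] [Algebra ℂ Φ] [FunField ℂ Φ]

private theorem ABD_one {R : Place ℂ Φ} {x : Φ} {c : ℂ} (h : 1 ≤ R.ord (x - algebraMap ℂ Φ c)) :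
    x ∈ R.ge 0 ∧ ev R x = c := by
  have h1 := R.mem_ge_of_le h
  refine ⟨?_, evl_eq R h1⟩
  have h2 := add_mem (R.ge_anti (by norm_num : (0 : ℤ) ≤ 1) h1) (R.algebraMap_mem_ge c)
  rwa [sub_add_cancel] at h2

private theorem ABD_ev {R : Place ℂ Φ} {x : Φ} {c : ℂ} (h : 1 ≤ R.ord (x - algebraMap ℂ Φ c))
    (q : ℂ[X]) : aeval x q ∈ R.ge 0 ∧ ev R (aeval x q) = q.eval c := by
  obtain ⟨hx, hxc⟩ := ABD_one h
  induction q using Polynomial.induction_on' with
  | add p q hp hq =>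
    rw [map_add, eval_add]
    exact ⟨add_mem hp.1 hq.1, by rw [evl_add R hp.1 hq.1, hp.2, hq.2]⟩
  | monomial k b =>
    have h0 : ∀ k : ℕ, x ^ k ∈ R.ge 0 ∧ ev R (x ^ k) = c ^ k := by
      intro k
      induction k with
      | zero =>
        rw [pow_zero, pow_zero]
        refine ⟨R.one_mem_ge, ?_⟩
        have := evl_const (C := ℂ) (Φ := Φ) R 1
        rwa [map_one] at this
      | succ k ih =>
        rw [pow_succ, pow_succ]
        refine ⟨?_, by rw [evl_mul R ih.1 hx, ih.2, hxc]⟩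
        have := R.mul_mem_ge ih.1 hx
        simpa using this
    rw [aeval_monomial, eval_monomial]
    have h1 := R.mul_mem_ge (R.algebraMap_mem_ge b) (h0 k).1
    refine ⟨by simpa using h1, ?_⟩
    rw [evl_mul R (R.algebraMap_mem_ge b) (h0 k).1, evl_const, (h0 k).2]

private theorem ABD_ev2 {R : Place ℂ Φ} {x : Φ} {c : ℂ} (h : 1 ≤ R.ord (x - algebraMap ℂ Φ c))
    {g : Φ} (hg : g ∈ R.ge 0) (P : ℂ[X][X]) :
    Polynomial.eval₂ (aeval x : ℂ[X] →ₐ[ℂ] Φ).toRingHom g P ∈ R.ge 0 ∧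
      ev R (Polynomial.eval₂ (aeval x : ℂ[X] →ₐ[ℂ] Φ).toRingHom g P) =
        (P.map (evalRingHom c)).eval (ev R g) := by
  have h0 : ∀ k : ℕ, g ^ k ∈ R.ge 0 ∧ ev R (g ^ k) = (ev R g) ^ k := by
    intro k
    induction k with
    | zero =>
      rw [pow_zero, pow_zero]
      refine ⟨R.one_mem_ge, ?_⟩
      have := evl_const (C := ℂ) (Φ := Φ) R 1
      rwa [map_one] at this
    | succ k ih =>
      rw [pow_succ, pow_succ]
      refine ⟨?_, by rw [evl_mul R ih.1 hg, ih.2]⟩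
      have := R.mul_mem_ge ih.1 hg
      simpa using this
  induction P using Polynomial.induction_on' with
  | add p q hp hq =>
    rw [eval₂_add, Polynomial.map_add, eval_add]
    exact ⟨add_mem hp.1 hq.1, by rw [evl_add R hp.1 hq.1, hp.2, hq.2]⟩
  | monomial k b =>
    rw [eval₂_monomial, Polynomial.map_monomial, eval_monomial]
    have h2 := ABD_ev h b
    have h1 := R.mul_mem_ge h2.1 (h0 k).1
    refine ⟨by simpa using h1, ?_⟩
    have h3 : ev R ((aeval x : ℂ[X] →ₐ[ℂ] Φ).toRingHom b * g ^ k) =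
        ev R (aeval x b) * ev R (g ^ k) := evl_mul R h2.1 (h0 k).1
    rw [h3, h2.2, (h0 k).2]
    rfl

private theorem ABD_root (Q : ℂ[X]) (hQ : Q.Monic) {y : ℂ} (hy : Q.IsRoot y) :
    ‖y‖ ≤ ∑ i ∈ Finset.range Q.natDegree, ‖Q.coeff i‖ + 1 := by
  have h1 := hy.norm_lt_cauchyBound hQ.ne_zero
  have h2 : cauchyBound Q ≤ ∑ i ∈ Finset.range Q.natDegree, ‖Q.coeff i‖₊ + 1 := by
    unfold cauchyBound
    rw [hQ.leadingCoeff, nnnorm_one, div_one]
    refine add_le_add_left (Finset.sup_le fun i hi => ?_) 1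
    exact Finset.single_le_sum (f := fun i => ‖Q.coeff i‖₊) (fun _ _ => zero_le) hi
  have h3 := h1.le.trans h2
  have h4 : ((‖y‖₊ : NNReal) : ℝ) ≤ ((∑ i ∈ Finset.range Q.natDegree, ‖Q.coeff i‖₊ + 1 : NNReal) : ℝ) :=
    NNReal.coe_le_coe.2 h3
  push_cast at h4
  exact h4

/-- functions without poles at finite values of `x` are bounded over bounded sets -/
private theorem ABD_bd {x : Φ} (hx : Transcendental ℂ x) (c₀ : ℂ) (g : Φ)
    (hg : ∀ R : Place ℂ Φ, 0 ≤ R.ord x → g ∈ R.ge 0) :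
    ∃ B : ℝ, 0 ≤ B ∧ ∀ c, ‖c - c₀‖ < 1 → ∀ R : Place ℂ Φ, 1 ≤ R.ord (x - algebraMap ℂ Φ c) →
      g ∈ R.ge 0 ∧ ‖ev R g‖ ≤ B := by
  obtain ⟨P, hP, hP0⟩ := chj_int hx g hg
  have hcont : Continuous fun c : ℂ => ∑ i ∈ Finset.range P.natDegree, ‖(P.coeff i).eval c‖ + 1 :=
    (continuous_finsetSum _ fun i _ => (P.coeff i).continuous.norm).add continuous_const
  obtain ⟨B, hB⟩ := (isCompact_closedBall c₀ 1).exists_bound_of_continuousOn hcont.continuousOn
  refine ⟨B, (norm_nonneg _).trans (hB c₀ (Metric.mem_closedBall_self zero_le_one)), ?_⟩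
  intro c hc R hR
  have hx0 : x ≠ 0 := by
    rintro rfl
    exact hx isAlgebraic_zero
  have hxR : 0 ≤ R.ord x := R.le_ord_of_mem (ABD_one hR).1 hx0
  have hgR := hg R hxR
  refine ⟨hgR, ?_⟩
  have h1 := (ABD_ev2 hR hgR P).2
  rw [hP0] at h1
  have h2 : ev R (0 : Φ) = 0 := by
    have := evl_const (C := ℂ) (Φ := Φ) R 0
    rwa [map_zero] at this
  rw [h2] at h1
  have hQ : (P.map (evalRingHom c)).Monic := hP.map _
  have h3 := ABD_root _ hQ (y := ev R g) h1.symm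
  refine h3.trans ?_
  have h4 := hB c (by rw [Metric.mem_closedBall, dist_eq_norm]; exact hc.le)
  rw [Real.norm_of_nonneg (by positivity)] at h4
  have h5 : (P.map (evalRingHom c)).natDegree = P.natDegree := hP.natDegree_map _
  rw [h5]
  have h6 : ∀ i, (P.map (evalRingHom c)).coeff i = (P.coeff i).eval c := by
    intro i
    rw [coeff_map]; rfl
  simp only [h6]
  exact h4

theorem abd {x : Φ} (hx : Transcendental ℂ x) (c₀ : ℂ) (g : Φ)
    (hg : ∀ R : Place ℂ Φ, 1 ≤ R.ord (x - algebraMap ℂ Φ c₀) → g ∈ R.ge 0) :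
    ∃ ε > 0, ∃ B : ℝ, ∀ c, ‖c - c₀‖ < ε → ∀ R : Place ℂ Φ, 1 ≤ R.ord (x - algebraMap ℂ Φ c) →
      g ∈ R.ge 0 ∧ ‖ev R g‖ ≤ B := by
  classical
  have hfin := finite_ord_ne_zero (k := ℂ) g
  set S : Finset (Place ℂ Φ) := hfin.toFinset.filter (fun R => 0 ≤ R.ord x ∧ g ∉ R.ge 0) with hS
  set q : ℂ[X] := ∏ R ∈ S, (X - C (ev R x)) ^ (R.ord g).natAbs with hq
  have hxne : ∀ c : ℂ, x - algebraMap ℂ Φ c ≠ 0 := by
    intro c h
    apply hx
    rw [sub_eq_zero.1 h]
    exact isAlgebraic_algebraMap c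
  have hq0 : q.eval c₀ ≠ 0 := by
    rw [hq, eval_prod]
    refine Finset.prod_ne_zero_iff.2 fun R hR => ?_
    rw [eval_pow, eval_sub, eval_X, eval_C]
    refine pow_ne_zero _ (sub_ne_zero.2 ?_)
    intro h
    rw [hS, Finset.mem_filter] at hR
    apply hR.2.2
    apply hg
    have h1 := evl_mem R (R.mem_ge_of_le hR.2.1)
    rw [← h] at h1
    exact R.le_ord_of_mem h1 (hxne c₀)
  have haev : ∀ (R : Place ℂ Φ) (p : ℂ[X]), 0 ≤ R.ord x → aeval x p ∈ R.ge 0 := by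
    intro R p h
    induction p using Polynomial.induction_on' with
    | add p q hp hq => rw [map_add]; exact add_mem hp hq
    | monomial k c =>
      rw [aeval_monomial]
      have h1 := R.mul_mem_ge (R.algebraMap_mem_ge c) (R.pow_mem_ge (R.mem_ge_of_le h) k)
      simpa using h1
  have hg' : ∀ R : Place ℂ Φ, 0 ≤ R.ord x → aeval x q * g ∈ R.ge 0 := by
    intro R hR
    by_cases hgR : g ∈ R.ge 0
    · have := R.mul_mem_ge (haev R q hR) hgR
      simpa using this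
    · have hneg : R.ord g < 0 := by
        by_contra hneg
        exact hgR (R.mem_ge_of_le (not_lt.1 hneg))
      have hRS : R ∈ S := by
        rw [hS, Finset.mem_filter, Set.Finite.mem_toFinset]
        exact ⟨hneg.ne, hR, hgR⟩
      have h1 : q = (∏ R' ∈ S.erase R, (X - C (ev R' x)) ^ (R'.ord g).natAbs) *
          (X - C (ev R x)) ^ (R.ord g).natAbs := by
        rw [hq, mul_comm, ← Finset.mul_prod_erase S _ hRS]
      rw [h1, map_mul, map_pow, map_sub, aeval_X, aeval_C, mul_assoc]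
      have h2 := R.pow_mem_ge (evl_mem R (R.mem_ge_of_le hR)) (R.ord g).natAbs
      have h3 := R.mul_mem_ge h2 (R.mem_ge_ord g)
      have h4 := R.mul_mem_ge (haev R (∏ R' ∈ S.erase R, (X - C (ev R' x)) ^ (R'.ord g).natAbs) hR) h3
      refine R.ge_anti ?_ h4
      push_cast
      rw [abs_of_neg hneg]
      omega
  obtain ⟨B, hB0, hB⟩ := ABD_bd hx c₀ _ hg'
  have hqc : Filter.Tendsto (fun c => ‖q.eval c‖) (nhds c₀) (nhds ‖q.eval c₀‖) :=
    (q.continuous.norm).tendsto c₀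
  have hq1 : 0 < ‖q.eval c₀‖ := norm_pos_iff.2 hq0
  obtain ⟨ε, hε, hε'⟩ := Metric.eventually_nhds_iff.1
    (hqc.eventually (lt_mem_nhds (half_lt_self hq1)))
  refine ⟨min ε 1, lt_min hε one_pos, B * (‖q.eval c₀‖ / 2)⁻¹, ?_⟩
  intro c hc R hR
  have hc1 : ‖q.eval c₀‖ / 2 < ‖q.eval c‖ := hε' (by
    rw [dist_eq_norm]; exact hc.trans_le (min_le_left _ _))
  obtain ⟨hgR, hgB⟩ := hB c (hc.trans_le (min_le_right _ _)) R hR
  obtain ⟨hqR, hqe⟩ := ABD_ev hR q
  have hqc0 : q.eval c ≠ 0 := by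
    rw [← norm_pos_iff]
    linarith
  obtain ⟨hinv, hinv2⟩ := evl_inv R hqR (by rw [hqe]; exact hqc0)
  have hne : aeval x q ≠ 0 := by
    intro h0
    rw [h0] at hqe
    have h2 : ev R (0 : Φ) = 0 := by
      have := evl_const (C := ℂ) (Φ := Φ) R 0
      rwa [map_zero] at this
    rw [h2] at hqe
    exact hqc0 hqe.symm
  have hge : g = (aeval x q * g) * (aeval x q)⁻¹ := by
    field_simp
  have hmem := R.mul_mem_ge hgR hinv
  rw [← hge] at hmem
  refine ⟨by simpa using hmem, ?_⟩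
  rw [hge, evl_mul R hgR hinv, hinv2, hqe, norm_mul, norm_inv]
  refine mul_le_mul hgB ?_ (by positivity) hB0
  exact inv_anti₀ (by positivity) hc1.le

theorem abi {x : Φ} (hx : Transcendental ℂ x) (g : Φ) (hg : ∀ R : Place ℂ Φ, R.ord x < 0 → g ∈ R.ge 0) :
    ∃ ρ > 0, ∃ B : ℝ, ∀ c : ℂ, ρ < ‖c‖ → ∀ R : Place ℂ Φ, 1 ≤ R.ord (x - algebraMap ℂ Φ c) →
      g ∈ R.ge 0 ∧ ‖ev R g‖ ≤ B := by
  have hz : Transcendental ℂ x⁻¹ := by
    intro h
    apply hx
    have := h.inv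
    rwa [inv_inv] at this
  obtain ⟨ε, hε, B, hB⟩ := abd hz 0 g (by
    intro R hR
    apply hg
    rw [map_zero, sub_zero, R.ord_inv] at hR
    omega)
  refine ⟨1 / ε, by positivity, B, ?_⟩
  intro c hc R hR
  obtain ⟨hxR, hxc⟩ := ABD_one hR
  have hc0 : 0 < ‖c‖ := lt_trans (by positivity) hc
  have hc1 : c ≠ 0 := norm_pos_iff.1 hc0
  obtain ⟨hinv, hinv2⟩ := evl_inv R hxR (by rw [hxc]; exact hc1)
  refine hB c⁻¹ ?_ R ?_
  · rw [sub_zero, norm_inv]
    rw [div_lt_iff₀ hε] at hc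
    rw [inv_lt_iff_one_lt_mul₀ hc0]
    linarith
  · have h1 := evl_mem R hinv
    rw [hinv2, hxc] at h1
    refine R.le_ord_of_mem h1 ?_
    intro h
    apply hz
    rw [sub_eq_zero.1 h]
    exact isAlgebraic_algebraMap c⁻¹

end Pool.Agent.HFB
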