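import Pool.Agent.HFB.DefsW

/-!
# HFB / ACL: change of variables for holomorphic maps

`MeasureTheory.lintegral_image_eq_lintegral_abs_det_fderiv_mul` for the real derivative `c ↦ φ'(c) ·` of `φ`; the determinant of the `ℝ`-linear map `z ↦ w z` of `ℂ` is `|w|²` (`Complex.det...`, `LinearMap.det_restrictScalars`, or by the matrix in the basis `1, i`).
-/

namespace Pool.Agent.HFB

open Polynomial Pool.Agent.Helper11 Pool.Agent.ESH IntermediateField MeasureTheory
open scoped KaehlerDifferential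

theorem acl {E : Set ℂ} (hE : MeasurableSet E) (φ φ' : ℂ → ℂ) (hd : ∀ c ∈ E, HasDerivAt φ (φ' c) c)
    (hi : Set.InjOn φ E) (F : ℂ → ENNReal) :
    ∫⁻ b in φ '' E, F b = ∫⁻ c in E, ENNReal.ofReal (‖φ' c‖ ^ 2) * F (φ c) := by
  have h1 : ∀ c ∈ E, HasFDerivWithinAt φ
      ((ContinuousLinearMap.toSpanSingleton ℂ (φ' c)).restrictScalars ℝ) E c := fun c hc =>
    ((hd c hc).hasFDerivAt.restrictScalars ℝ).hasFDerivWithinAt
  rw [lintegral_image_eq_lintegral_abs_det_fderiv_mul volume hE h1 hi F]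
  refine lintegral_congr fun c => ?_
  congr 2
  have h2 : ((ContinuousLinearMap.toSpanSingleton ℂ (φ' c)).restrictScalars ℝ).det =
      ‖φ' c‖ ^ 2 := by
    simp [ContinuousLinearMap.det, LinearMap.det_restrictScalars, Algebra.norm_complex_eq,
      Complex.normSq_eq_norm_sq]
  rw [h2, abs_of_nonneg (by positivity)]

end Pool.Agent.HFB
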