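import Pool.Agent.HFB.ALC

/-!
# HFB / ACO: continuity of the fibre sums

On the ball of ALC (`S = {f, h}`) `fsum x F c = ∑_i F (P_i c)` (`finsum` over the finite set of the places `P_i(c)`), and `c ↦ ev (P_i c) f` is continuous.  `aco_fin`: `{R | 1 ≤ R.ord (x - c)}` is finite (`finite_pos_ord`).
-/

namespace Pool.Agent.HFB

open Polynomial Pool.Agent.Helper11 Pool.Agent.ESH IntermediateField MeasureTheory
open scoped KaehlerDifferential

variable {Φ : Type*} [Field Φ] [Algebra ℂ Φ] [FunField ℂ Φ]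

private theorem fsum_eq {E : Type*} [AddCommMonoid E] {n : ℕ} (x : Φ) (F : Place ℂ Φ → E) (c : ℂ)
    (P : Fin n → Place ℂ Φ) (hinj : Function.Injective P)
    (hP : ∀ R : Place ℂ Φ, 1 ≤ R.ord (x - algebraMap ℂ Φ c) ↔ ∃ i, P i = R) :
    fsum x F c = ∑ i, F (P i) := by
  classical
  unfold fsum
  rw [finsum_eq_sum_of_support_subset (s := Finset.univ.image P)]
  · rw [Finset.sum_image fun i _ j _ h => hinj h]
    refine Finset.sum_congr rfl fun i _ => ?_
    rw [if_pos ((hP (P i)).2 ⟨i, rfl⟩)]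
  · intro R hR
    rw [Function.mem_support] at hR
    have h1 : 1 ≤ R.ord (x - algebraMap ℂ Φ c) := by
      by_contra hne
      rw [if_neg hne] at hR
      exact hR rfl
    obtain ⟨i, hi⟩ := (hP R).1 h1
    rw [Finset.coe_image, Finset.coe_univ, Set.image_univ]
    exact ⟨i, hi⟩

theorem aco {x : Φ} (hx : Transcendental ℂ x) (f h : Φ) :
    ∃ T : Finset ℂ, ContinuousOn (fun c => fsum x (fun R => ev R f * (starRingEnd ℂ) (ev R h)) c) (T : Set ℂ)ᶜ ∧
      ContinuousOn (fun c => fsum x (fun R => ‖ev R f‖ ^ 2) c) (T : Set ℂ)ᶜ := by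
  classical
  obtain ⟨y, T, -, -, hloc⟩ := alc hx ({f, h} : Finset Φ)
  refine ⟨T, ?_, ?_⟩
  · intro c₀ hc₀
    have hc₀' : c₀ ∉ T := hc₀
    obtain ⟨r, hr, P, -, hP, -, hd⟩ := hloc c₀ hc₀'
    have hb : Metric.ball c₀ r ∈ nhds c₀ := Metric.ball_mem_nhds c₀ hr
    have hf : ∀ i, ContinuousAt (fun c => ev (P i c) f) c₀ := fun i =>
      (hd f (by simp) i c₀ (Metric.mem_ball_self hr)).continuousAt
    have hh : ∀ i, ContinuousAt (fun c => ev (P i c) h) c₀ := fun i =>
      (hd h (by simp) i c₀ (Metric.mem_ball_self hr)).continuousAt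
    have h1 : ContinuousAt (fun c => ∑ i, ev (P i c) f * (starRingEnd ℂ) (ev (P i c) h)) c₀ := by
      refine tendsto_finsetSum _ fun i _ => ?_
      exact (hf i).mul (Complex.continuous_conj.continuousAt.comp (hh i))
    refine ContinuousAt.continuousWithinAt (h1.congr ?_)
    filter_upwards [hb] with c hc
    exact (fsum_eq x (fun R => ev R f * (starRingEnd ℂ) (ev R h)) c (fun i => P i c) (hP c hc).1 (hP c hc).2).symm
  · intro c₀ hc₀
    have hc₀' : c₀ ∉ T := hc₀
    obtain ⟨r, hr, P, -, hP, -, hd⟩ := hloc c₀ hc₀'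
    have hb : Metric.ball c₀ r ∈ nhds c₀ := Metric.ball_mem_nhds c₀ hr
    have hf : ∀ i, ContinuousAt (fun c => ev (P i c) f) c₀ := fun i =>
      (hd f (by simp) i c₀ (Metric.mem_ball_self hr)).continuousAt
    have h1 : ContinuousAt (fun c => ∑ i, ‖ev (P i c) f‖ ^ 2) c₀ := by
      refine tendsto_finsetSum _ fun i _ => ?_
      exact (hf i).norm.pow 2
    refine ContinuousAt.continuousWithinAt (h1.congr ?_)
    filter_upwards [hb] with c hc
    exact (fsum_eq x (fun R => ‖ev R f‖ ^ 2) c (fun i => P i c) (hP c hc).1 (hP c hc).2).symm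

theorem aco_fin {x : Φ} (hx : Transcendental ℂ x) (c : ℂ) :
    {R : Place ℂ Φ | 1 ≤ R.ord (x - algebraMap ℂ Φ c)}.Finite ∧
      {R : Place ℂ Φ | 1 ≤ R.ord (x - algebraMap ℂ Φ c)}.ncard ≤ Module.finrank ℂ⟮x⟯ Φ := by
  have hfin : {R : Place ℂ Φ | 1 ≤ R.ord (x - algebraMap ℂ Φ c)}.Finite :=
    finite_pos_ord (k := ℂ) (x - algebraMap ℂ Φ c)
  refine ⟨hfin, ?_⟩
  have htr : Transcendental ℂ (x - algebraMap ℂ Φ c) := by
    intro halg
    apply hx
    have := halg.add (isAlgebraic_algebraMap (A := Φ) c)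
    rwa [sub_add_cancel] at this
  have had : ℂ⟮x - algebraMap ℂ Φ c⟯ = ℂ⟮x⟯ := by
    apply le_antisymm
    · rw [adjoin_simple_le_iff]
      exact sub_mem (mem_adjoin_simple_self ℂ x) (IntermediateField.algebraMap_mem _ c)
    · rw [adjoin_simple_le_iff]
      have := add_mem (mem_adjoin_simple_self ℂ (x - algebraMap ℂ Φ c))
        (IntermediateField.algebraMap_mem ℂ⟮x - algebraMap ℂ Φ c⟯ c)
      rwa [sub_add_cancel] at this
  have hsum := finsum_pos_ord (k := ℂ) htr
  rw [had] at hsum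
  have h2 : ((hfin.toFinset.card : ℕ) : ℤ) ≤ (Module.finrank ℂ⟮x⟯ Φ : ℤ) := by
    rw [← hsum, finsum_eq_sum_of_support_subset (s := hfin.toFinset)]
    · rw [Finset.card_eq_sum_ones, Nat.cast_sum]
      refine Finset.sum_le_sum fun R hR => ?_
      rw [Set.Finite.mem_toFinset] at hR
      have hR' : 1 ≤ R.ord (x - algebraMap ℂ Φ c) := hR
      rw [Nat.cast_one]
      exact le_max_of_le_right hR'
    · intro R hR
      rw [Function.mem_support] at hR
      rw [Set.Finite.coe_toFinset]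
      by_contra hne
      have hne' : ¬ 1 ≤ R.ord (x - algebraMap ℂ Φ c) := hne
      exact hR (max_eq_left (by omega))
  rw [Set.ncard_eq_toFinset_card _ hfin]
  exact_mod_cast h2

end Pool.Agent.HFB
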