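import Pool.Agent.HFB.ALC
import Pool.Agent.HFB.ACL

/-!
# HFB / ACV: change of the function used to compute the L² norm

ALC for `x` and `S = {y, f, der hy x}` (call `w` its separating function): `T`.  Enlarge `T` by the (finite) set of the values of `x` at the places where `der hx y` has order `≠ 0`, so that `ev R (der hx y) ≠ 0` for the places over `c ∉ T`.  Every `c₀ ∉ T` has a ball with local sections `P_i` on which moreover the functions `y_i(c) = ev (P_i c) y` are injective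
(`y_i' = ev (P_i c) (der hx y) ≠ 0`, inverse function theorem: strict derivative of a holomorphic function).  Lindelöf: countably many such balls cover `ℂ ∖ T`; number the pairs (ball, section) by `m ∈ ℕ`: `B_m`, `P_m : B_m → places`.  `E_m = {c ∈ B_m : P_m(c) is not of the form P_{m'}(c), m' < m, c ∈ B_{m'}}` is Borel: `P_m(c) = P_{m'}(c)` if and only if
`ev (P_m c) w = ev (P_{m'} c) w`, continuous functions on `B_m ∩ B_{m'}`.  For `c ∉ T`, every place over `c` is `P_m(c)` for exactly one `m` with `c ∈ E_m`; so for `G : places → ENNReal`, `∑_{R | c} G(R) = ∑_m 1_{E_m}(c) G(P_m c)`, `∫ = ∑_m ∫_{E_m} G(P_m c)` (measurability of `c ↦ ev (P_m c) f`: continuous).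
Let `Z` be the finite set of the values `ev R y` at the places over `T` and at the poles of `x`.  For `b ∉ Z` the places with `1 ≤ R.ord (y - b)` (i.e. `y ∈ R.ge 0`, `ev R y = b`) are the `P_m(c)`, `c ∈ E_m`, `y_m(c) = b`, each once.  So the right hand side is `∑_m ∫_{y_m(E_m)} G'(P_m(y_m⁻¹(b))) db = ∑_m ∫_{E_m} |y_m'(c)|² G'(P_m c) dc` (ACL), `G'(R) = |ev R (f · der hy x)|²`, and
`y_m'(c) = ev (P_m c) (der hx y)`, `der hx y · der hy x = 1` (`der_chain`, `der_self`): the integrand is `|ev (P_m c) f|²`.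
-/

namespace Pool.Agent.HFB

open Polynomial Pool.Agent.Helper11 Pool.Agent.ESH IntermediateField MeasureTheory
open scoped KaehlerDifferential

variable {Φ : Type*} [Field Φ] [Algebra ℂ Φ] [FunField ℂ Φ]


omit [FunField ℂ Φ] in
private lemma acv_x_ne {x : Φ} (hx : Transcendental ℂ x) (c : ℂ) : x - algebraMap ℂ Φ c ≠ 0 := by
  intro h
  apply hx
  rw [sub_eq_zero.1 h]
  exact isAlgebraic_algebraMap c

private lemma acv_over {x : Φ} (hx : Transcendental ℂ x) (c : ℂ) (R : Place ℂ Φ) :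
    1 ≤ R.ord (x - algebraMap ℂ Φ c) ↔ x ∈ R.ge 0 ∧ ev R x = c := by
  constructor
  · intro h
    have h1 : x - algebraMap ℂ Φ c ∈ R.ge 1 := R.mem_ge_of_le h
    refine ⟨?_, evl_eq R h1⟩
    have h2 := add_mem (R.ge_anti (by norm_num : (0 : ℤ) ≤ 1) h1) (R.algebraMap_mem_ge c)
    simpa using h2
  · rintro ⟨h1, h2⟩
    have h3 := evl_mem R h1
    rw [h2] at h3
    exact R.le_ord_of_mem h3 (acv_x_ne hx c)

private lemma acv_fin {x : Φ} (hx : Transcendental ℂ x) (c : ℂ) :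
    {R : Place ℂ Φ | 1 ≤ R.ord (x - algebraMap ℂ Φ c)}.Finite := by
  refine (finite_pos_ord (k := ℂ) (x - algebraMap ℂ Φ c)).subset ?_
  intro R hR
  have : 1 ≤ R.ord (x - algebraMap ℂ Φ c) := hR
  show 0 < R.ord (x - algebraMap ℂ Φ c)
  omega

private lemma acv_fsum {x : Φ} (hx : Transcendental ℂ x) (F : Place ℂ Φ → ENNReal) (c : ℂ) :
    fsum x F c = ∑' R : Place ℂ Φ, if 1 ≤ R.ord (x - algebraMap ℂ Φ c) then F R else 0 := by
  unfold fsum
  rw [tsum_eq_finsum]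
  refine (acv_fin hx c).subset ?_
  intro R hR
  by_contra hcon
  apply hR
  exact if_neg hcon

private lemma acv_injOn {g g' : ℂ → ℂ} {c₀ : ℂ} {r : ℝ} (hr : 0 < r)
    (hg : ∀ c ∈ Metric.ball c₀ r, HasDerivAt g (g' c) c) (h0 : g' c₀ ≠ 0) :
    ∃ s > 0, Set.InjOn g (Metric.ball c₀ s) := by
  have h1 : DifferentiableOn ℂ g (Metric.ball c₀ r) := fun c hc =>
    (hg c hc).differentiableAt.differentiableWithinAt
  have h2 : AnalyticAt ℂ g c₀ := h1.analyticAt (Metric.ball_mem_nhds c₀ hr)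
  have h3 := h2.hasStrictDerivAt
  rw [(hg c₀ (Metric.mem_ball_self hr)).deriv] at h3
  have h4 := h3.hasStrictFDerivAt_equiv h0
  let e := h4.toOpenPartialHomeomorph g
  have h5 : e.source ∈ nhds c₀ := e.open_source.mem_nhds h4.mem_toOpenPartialHomeomorph_source
  obtain ⟨s, hs, hs2⟩ := Metric.mem_nhds_iff.1 h5
  exact ⟨s, hs, e.injOn.mono hs2⟩

private lemma acv_data {x y : Φ} (hx : Transcendental ℂ x) (hy : Transcendental ℂ y) (f : Φ) :
    ∃ (T : Finset ℂ) (B : ℕ → Set ℂ) (P : ℕ → ℂ → Place ℂ Φ),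
      (∀ m, IsOpen (B m)) ∧ (∀ m, ∀ c ∈ B m, c ∉ T) ∧
      (∀ m, ∀ c ∈ B m, 1 ≤ (P m c).ord (x - algebraMap ℂ Φ c)) ∧
      (∀ c ∉ T, ∀ R : Place ℂ Φ, 1 ≤ R.ord (x - algebraMap ℂ Φ c) → ∃ m, c ∈ B m ∧ P m c = R) ∧
      (∀ m m', MeasurableSet {c | (c ∈ B m ∧ c ∈ B m') ∧ P m c = P m' c}) ∧
      (∀ m, Set.InjOn (fun c => ev (P m c) y) (B m)) ∧
      (∀ m, ∀ c ∈ B m, HasDerivAt (fun c' => ev (P m c') y) (ev (P m c) (der hx y)) c) ∧
      (∀ m, ContinuousOn (fun c => ev (P m c) f) (B m)) ∧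
      (∀ m, ContinuousOn (fun c => ev (P m c) (der hx y)) (B m)) ∧
      (∀ m, ∀ c ∈ B m, y ∈ (P m c).ge 0 ∧ f ∈ (P m c).ge 0 ∧ der hx y ∈ (P m c).ge 0 ∧
        ev (P m c) (der hx y) ≠ 0) := by
  classical
  obtain ⟨w, T0, hw1, hw2, hw3⟩ := alc hx ({y, f, der hx y} : Finset Φ)
  have hd0 : der hx y ≠ 0 := der_ne_zero hx hy
  have hfin := finite_pos_ord (k := ℂ) (der hx y)
  let T : Finset ℂ := T0 ∪ hfin.toFinset.image (fun R => ev R x)
  have hT0 : ∀ c ∉ T, c ∉ T0 := fun c hc h => hc (Finset.mem_union_left _ h)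
  have hTd : ∀ c ∉ T, ∀ R : Place ℂ Φ, 1 ≤ R.ord (x - algebraMap ℂ Φ c) → ev R (der hx y) ≠ 0 := by
    intro c hc R hR h0
    have hmem := (hw2 c (hT0 c hc) R hR).2.2 (der hx y) (by simp)
    have h1 := (evl_zero_iff R hmem.1).1 h0
    have h2 := R.le_ord_of_mem h1 hd0
    apply hc
    refine Finset.mem_union_right _ (Finset.mem_image.2 ⟨R, ?_, ?_⟩)
    · rw [Set.Finite.mem_toFinset]
      show 0 < R.ord (der hx y)
      omega
    · exact ((acv_over hx c R).1 hR).2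
  have hloc : ∀ c₀ ∉ T, ∃ s > 0, ∃ P : Fin (Module.finrank ℂ⟮x⟯ Φ) → ℂ → Place ℂ Φ,
      (∀ c ∈ Metric.ball c₀ s, c ∉ T) ∧
      (∀ c ∈ Metric.ball c₀ s, ∀ R : Place ℂ Φ, 1 ≤ R.ord (x - algebraMap ℂ Φ c) ↔ ∃ i, P i c = R) ∧
      (∀ i, ContinuousOn (fun c => ev (P i c) w) (Metric.ball c₀ s)) ∧
      (∀ h ∈ ({y, f, der hx y} : Finset Φ), ∀ i, ∀ c ∈ Metric.ball c₀ s,
          HasDerivAt (fun c' => ev (P i c') h) (ev (P i c) (der hx h)) c) ∧
      (∀ i, Set.InjOn (fun c => ev (P i c) y) (Metric.ball c₀ s)) := by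
    intro c₀ hc₀
    obtain ⟨r, hr, P, hP1, hP2, hP3, hP4⟩ := hw3 c₀ (hT0 c₀ hc₀)
    have hinj : ∀ i, ∃ s > 0, Set.InjOn (fun c => ev (P i c) y) (Metric.ball c₀ s) := by
      intro i
      refine acv_injOn (g' := fun c => ev (P i c) (der hx y)) hr (fun c hc => hP4 y (by simp) i c hc) ?_
      have hov := ((hP2 c₀ (Metric.mem_ball_self hr)).2 (P i c₀)).2 ⟨i, rfl⟩
      exact hTd c₀ hc₀ _ hov
    choose s hs hs2 using hinj
    have hopen : ((T : Set ℂ)ᶜ) ∈ nhds c₀ := T.finite_toSet.isClosed.isOpen_compl.mem_nhds (by simpa using hc₀)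
    obtain ⟨t, ht, ht2⟩ := Metric.mem_nhds_iff.1 hopen
    obtain ⟨u, hu, hu2⟩ : ∃ u > 0, ∀ i, u ≤ s i := by
      rcases isEmpty_or_nonempty (Fin (Module.finrank ℂ⟮x⟯ Φ)) with he | he
      · exact ⟨1, one_pos, fun i => (he.false i).elim⟩
      · obtain ⟨i₀, hi₀⟩ := Finite.exists_min s
        exact ⟨s i₀, hs i₀, hi₀⟩
    have hb1 : Metric.ball c₀ (min r (min t u)) ⊆ Metric.ball c₀ r := Metric.ball_subset_ball (min_le_left _ _)
    have hb2 : Metric.ball c₀ (min r (min t u)) ⊆ Metric.ball c₀ t :=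
      Metric.ball_subset_ball ((min_le_right _ _).trans (min_le_left _ _))
    have hb3 : Metric.ball c₀ (min r (min t u)) ⊆ Metric.ball c₀ u :=
      Metric.ball_subset_ball ((min_le_right _ _).trans (min_le_right _ _))
    refine ⟨min r (min t u), lt_min hr (lt_min ht hu), P, ?_, ?_, ?_, ?_, ?_⟩
    · intro c hc hcT
      exact ht2 (hb2 hc) (by simpa using hcT)
    · intro c hc
      exact (hP2 c (hb1 hc)).2
    · exact fun i => (hP3 i).mono hb1
    · exact fun h hh i c hc => hP4 h hh i c (hb1 hc)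
    · exact fun i => (hs2 i).mono ((hb3).trans (Metric.ball_subset_ball (hu2 i)))
  choose! s hs P hP1 hP2 hP3 hP4 hP5 using hloc
  obtain ⟨t, htU, htc, htcov⟩ := TopologicalSpace.countable_cover_nhdsWithin (s := ((T : Set ℂ)ᶜ))
    (f := fun c₀ => Metric.ball c₀ (s c₀)) (fun c₀ hc₀ =>
      mem_nhdsWithin_of_mem_nhds (Metric.ball_mem_nhds c₀ (hs c₀ (by simpa using hc₀))))
  have hn : 0 < Module.finrank ℂ⟮x⟯ Φ := by
    have := FunField.finiteDimensional_adjoin (k := ℂ) hx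
    exact Module.finrank_pos
  have htne : t.Nonempty := by
    obtain ⟨c, hc⟩ := (Set.Finite.infinite_compl T.finite_toSet).nonempty
    obtain ⟨i, hi, -⟩ := Set.mem_iUnion₂.1 (htcov hc)
    exact ⟨i, hi⟩
  have : Nonempty (t × Fin (Module.finrank ℂ⟮x⟯ Φ)) := ⟨⟨⟨_, htne.some_mem⟩, ⟨0, hn⟩⟩⟩
  have : Countable t := htc.to_subtype
  obtain ⟨φ, hφ⟩ := exists_surjective_nat (t × Fin (Module.finrank ℂ⟮x⟯ Φ))
  have htT : ∀ c₀ : t, (c₀ : ℂ) ∉ T := fun c₀ => by simpa using htU c₀.2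
  refine ⟨T, fun m => Metric.ball ((φ m).1 : ℂ) (s (φ m).1), fun m => P (φ m).1 (htT (φ m).1) (φ m).2, ?_, ?_, ?_, ?_, ?_, ?_, ?_,
    ?_, ?_, ?_⟩
  · exact fun m => Metric.isOpen_ball
  · exact fun m c hc => hP1 _ (htT _) c hc
  · exact fun m c hc => (hP2 _ (htT _) c hc _).2 ⟨_, rfl⟩
  · intro c hc R hR
    obtain ⟨i, hi, hci⟩ := Set.mem_iUnion₂.1 (htcov (show c ∈ ((T : Set ℂ)ᶜ) by simpa using hc))
    obtain ⟨j, hj⟩ := (hP2 i (htT ⟨i, hi⟩) c hci R).1 hR
    obtain ⟨m, hm⟩ := hφ (⟨i, hi⟩, j)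
    refine ⟨m, ?_, ?_⟩
    · show c ∈ Metric.ball ((φ m).1 : ℂ) (s (φ m).1)
      rw [hm]; exact hci
    · show P (φ m).1 (htT (φ m).1) (φ m).2 c = R
      rw [hm]; exact hj
  · intro m m'
    set B := Metric.ball ((φ m).1 : ℂ) (s (φ m).1) with hB
    set B' := Metric.ball ((φ m').1 : ℂ) (s (φ m').1) with hB'
    have hcont : ContinuousOn (fun c => ev (P (φ m).1 (htT (φ m).1) (φ m).2 c) w - ev (P (φ m').1 (htT (φ m').1) (φ m').2 c) w) (B ∩ B') :=
      ((hP3 _ (htT _) _).mono Set.inter_subset_left).sub ((hP3 _ (htT _) _).mono Set.inter_subset_right)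
    have hO : IsOpen (B ∩ B') := Metric.isOpen_ball.inter Metric.isOpen_ball
    have h1 : IsOpen ((B ∩ B') ∩ (fun c => ev (P (φ m).1 (htT (φ m).1) (φ m).2 c) w - ev (P (φ m').1 (htT (φ m').1) (φ m').2 c) w) ⁻¹' {0}ᶜ) :=
      hcont.isOpen_inter_preimage hO isOpen_compl_singleton
    have h2 : {c | (c ∈ B ∧ c ∈ B') ∧ P (φ m).1 (htT (φ m).1) (φ m).2 c = P (φ m').1 (htT (φ m').1) (φ m').2 c} =
        (B ∩ B') \ ((B ∩ B') ∩ (fun c => ev (P (φ m).1 (htT (φ m).1) (φ m).2 c) w - ev (P (φ m').1 (htT (φ m').1) (φ m').2 c) w) ⁻¹' {0}ᶜ) := by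
      ext c
      constructor
      · rintro ⟨hc, he⟩
        refine ⟨hc, fun hcon => hcon.2 ?_⟩
        show ev (P (φ m).1 (htT (φ m).1) (φ m).2 c) w - ev (P (φ m').1 (htT (φ m').1) (φ m').2 c) w = 0
        rw [he, sub_self]
      · rintro ⟨hc, hn⟩
        refine ⟨hc, ?_⟩
        have h0 : ev (P (φ m).1 (htT (φ m).1) (φ m).2 c) w - ev (P (φ m').1 (htT (φ m').1) (φ m').2 c) w = 0 := by
          by_contra hcon
          exact hn ⟨hc, hcon⟩
        have hcT := hP1 _ (htT (φ m).1) c hc.1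
        exact hw1 c (hT0 c hcT) _ _ ((hP2 _ (htT _) c hc.1 _).2 ⟨_, rfl⟩) ((hP2 _ (htT _) c hc.2 _).2 ⟨_, rfl⟩)
          (sub_eq_zero.1 h0)
    show MeasurableSet {c | (c ∈ B ∧ c ∈ B') ∧ P (φ m).1 (htT (φ m).1) (φ m).2 c = P (φ m').1 (htT (φ m').1) (φ m').2 c}
    rw [h2]
    exact hO.measurableSet.diff h1.measurableSet
  · exact fun m => hP5 _ (htT _) _
  · exact fun m c hc => hP4 _ (htT _) y (by simp) _ c hc
  · exact fun m c hc => (hP4 _ (htT _) f (by simp) _ c hc).continuousAt.continuousWithinAt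
  · exact fun m c hc => (hP4 _ (htT _) (der hx y) (by simp) _ c hc).continuousAt.continuousWithinAt
  · intro m c hc
    have hcT := hP1 _ (htT (φ m).1) c hc
    have hov : 1 ≤ (P (φ m).1 (htT (φ m).1) (φ m).2 c).ord (x - algebraMap ℂ Φ c) := (hP2 _ (htT _) c hc _).2 ⟨_, rfl⟩
    have h1 := (hw2 c (hT0 c hcT) _ hov).2.2
    exact ⟨(h1 y (by simp)).1, (h1 f (by simp)).1, (h1 (der hx y) (by simp)).1, hTd c hcT _ hov⟩

theorem acv {x y : Φ} (hx : Transcendental ℂ x) (hy : Transcendental ℂ y) (f : Φ) :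
    ∫⁻ c, fsum x (fun R => ENNReal.ofReal (‖ev R f‖ ^ 2)) c =
      ∫⁻ c, fsum y (fun R => ENNReal.ofReal (‖ev R (f * der hy x)‖ ^ 2)) c := by
  classical
  obtain ⟨T, B, P, hBo, hBT, hPov, hPex, hPm, hPi, hPd, hPf, hPg, hPge⟩ := acv_data hx hy f
  -- the disjoint pieces
  let D : ℕ → ℕ → Set ℂ := fun m m' => {c | (c ∈ B m ∧ c ∈ B m') ∧ P m c = P m' c}
  let E : ℕ → Set ℂ := fun m => B m \ ⋃ m' ∈ Finset.range m, D m m'
  have hEB : ∀ m, E m ⊆ B m := fun m => Set.sdiff_subset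
  have hEm : ∀ m, MeasurableSet (E m) := fun m =>
    (hBo m).measurableSet.diff (Finset.measurableSet_biUnion _ (fun m' _ => hPm m m'))
  have hEun : ∀ m m' c, c ∈ E m → c ∈ E m' → P m c = P m' c → m = m' := by
    have key : ∀ m m' c, c ∈ E m → c ∈ E m' → P m c = P m' c → ¬ m' < m := by
      intro m m' c hc hc' he hlt
      apply hc.2
      exact Set.mem_iUnion₂.2 ⟨m', Finset.mem_range.2 hlt, ⟨hEB m hc, hEB m' hc'⟩, he⟩
    intro m m' c hc hc' he
    have h1 := key m m' c hc hc' he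
    have h2 := key m' m c hc' hc he.symm
    omega
  have hEex : ∀ c ∉ T, ∀ R : Place ℂ Φ, 1 ≤ R.ord (x - algebraMap ℂ Φ c) → ∃ m, c ∈ E m ∧ P m c = R := by
    intro c hc R hR
    have hex := hPex c hc R hR
    refine ⟨Nat.find hex, ⟨(Nat.find_spec hex).1, ?_⟩, (Nat.find_spec hex).2⟩
    intro hcon
    obtain ⟨m', hm', h1⟩ := Set.mem_iUnion₂.1 hcon
    refine Nat.find_min hex (Finset.mem_range.1 hm') ⟨h1.1.2, ?_⟩
    rw [← h1.2]
    exact (Nat.find_spec hex).2
  have hsum1 : ∀ F : Place ℂ Φ → ENNReal, ∀ c ∉ T,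
      fsum x F c = ∑' m, (E m).indicator (fun c => F (P m c)) c := by
    intro F c hc
    rw [acv_fsum hx]
    have h1 : ∀ R : Place ℂ Φ, (if 1 ≤ R.ord (x - algebraMap ℂ Φ c) then F R else 0) =
        ∑' m, (if c ∈ E m ∧ P m c = R then F R else 0) := by
      intro R
      by_cases hR : 1 ≤ R.ord (x - algebraMap ℂ Φ c)
      · rw [if_pos hR]
        obtain ⟨m, hm, hmR⟩ := hEex c hc R hR
        rw [tsum_eq_single m, if_pos ⟨hm, hmR⟩]
        intro m' hm'
        apply if_neg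
        rintro ⟨h2, h3⟩
        exact hm' (hEun m' m c h2 hm (h3.trans hmR.symm))
      · rw [if_neg hR]
        symm
        rw [ENNReal.tsum_eq_zero]
        intro m
        apply if_neg
        rintro ⟨h2, h3⟩
        apply hR
        rw [← h3]
        exact hPov m c (hEB m h2)
    rw [tsum_congr h1, ENNReal.tsum_comm]
    refine tsum_congr (fun m => ?_)
    by_cases hm : c ∈ E m
    · rw [Set.indicator_of_mem hm, tsum_eq_single (P m c), if_pos ⟨hm, rfl⟩]
      intro R hR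
      exact if_neg (fun h => hR h.2.symm)
    · rw [Set.indicator_of_notMem hm, ENNReal.tsum_eq_zero]
      intro R
      exact if_neg (fun h => hm h.1)
  -- the maps `y_m`
  let Y : ℕ → ℂ → ℂ := fun m c => ev (P m c) y
  have hYi : ∀ m, Set.InjOn (Y m) (E m) := fun m => (hPi m).mono (hEB m)
  have hYc : ∀ m, ContinuousOn (Y m) (E m) := fun m c hc =>
    (hPd m c (hEB m hc)).continuousAt.continuousWithinAt
  have hYm : ∀ m, MeasurableSet (Y m '' E m) := fun m => (hEm m).image_of_continuousOn_injOn (hYc m) (hYi m)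
  -- the values of the second integrand
  have hxy : der hx y * der hy x = 1 := by
    have := der_chain hx hy x
    rw [der_self hx] at this
    exact this.symm
  have hval : ∀ m, ∀ c ∈ B m, ev (P m c) (f * der hy x) = ev (P m c) f * (ev (P m c) (der hx y))⁻¹ := by
    intro m c hc
    obtain ⟨h1, h2, h3, h4⟩ := hPge m c hc
    have h5 : der hy x = (der hx y)⁻¹ := eq_inv_of_mul_eq_one_right hxy
    obtain ⟨h6, h7⟩ := evl_inv (P m c) h3 h4
    rw [h5, evl_mul (P m c) h2 h6, h7]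
  let G : Place ℂ Φ → ENNReal := fun R => ENNReal.ofReal (‖ev R (f * der hy x)‖ ^ 2)
  have hGc : ∀ m, ContinuousOn (fun c => G (P m c)) (E m) := by
    intro m
    have h1 : ContinuousOn (fun c => ENNReal.ofReal (‖ev (P m c) f * (ev (P m c) (der hx y))⁻¹‖ ^ 2)) (E m) := by
      refine ENNReal.continuous_ofReal.comp_continuousOn (ContinuousOn.pow (ContinuousOn.norm ?_) 2)
      refine ((hPf m).mono (hEB m)).mul (((hPg m).mono (hEB m)).inv₀ ?_)
      intro c hc
      exact (hPge m c (hEB m hc)).2.2.2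
    refine h1.congr (fun c hc => ?_)
    show ENNReal.ofReal (‖ev (P m c) (f * der hy x)‖ ^ 2) = _
    rw [hval m c (hEB m hc)]
  have hFex : ∀ m, ∃ F : ℂ → ENNReal, Measurable F ∧ ∀ c ∈ E m, F (Y m c) = G (P m c) := by
    intro m
    have hemb := ContinuousOn.measurableEmbedding (hEm m) (hYc m) (hYi m)
    have hmeas : Measurable (fun c : E m => G (P m c)) :=
      (continuousOn_iff_continuous_domRestrict.1 (hGc m)).measurable
    obtain ⟨F, hF, hF2⟩ := hemb.exists_measurable_extend hmeas (fun _ => ⟨0⟩)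
    exact ⟨F, hF, fun c hc => congrFun hF2 ⟨c, hc⟩⟩
  choose F hFm hF using hFex
  -- the exceptional values of `y`
  have hfinZ : ({R : Place ℂ Φ | 0 < R.ord x⁻¹} ∪ ⋃ c ∈ T, {R : Place ℂ Φ | 1 ≤ R.ord (x - algebraMap ℂ Φ c)}).Finite :=
    (finite_pos_ord (k := ℂ) x⁻¹).union (Set.Finite.biUnion T.finite_toSet (fun c _ => acv_fin hx c))
  let Z : Set ℂ := (fun R => ev R y) '' ({R : Place ℂ Φ | 0 < R.ord x⁻¹} ∪
    ⋃ c ∈ T, {R : Place ℂ Φ | 1 ≤ R.ord (x - algebraMap ℂ Φ c)})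
  have hZ : Z.Finite := hfinZ.image _
  have hsum2 : ∀ b ∉ Z, fsum y G b = ∑' m, (Y m '' E m).indicator (F m) b := by
    intro b hb
    rw [acv_fsum hy]
    have h1 : ∀ R : Place ℂ Φ, (if 1 ≤ R.ord (y - algebraMap ℂ Φ b) then G R else 0) =
        ∑' m, (if 1 ≤ R.ord (y - algebraMap ℂ Φ b) ∧ ∃ c ∈ E m, P m c = R then G R else 0) := by
      intro R
      by_cases hR : 1 ≤ R.ord (y - algebraMap ℂ Φ b)
      · rw [if_pos hR]
        have hRb := ((acv_over hy b R).1 hR).2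
        have hx0 : x ∈ R.ge 0 := by
          by_contra hcon
          apply hb
          refine ⟨R, Or.inl ?_, hRb⟩
          show 0 < R.ord x⁻¹
          rw [R.ord_inv]
          have : ¬ 0 ≤ R.ord x := fun h => hcon (R.mem_ge_of_le h)
          omega
        have hover : 1 ≤ R.ord (x - algebraMap ℂ Φ (ev R x)) := (acv_over hx _ R).2 ⟨hx0, rfl⟩
        have hcT : ev R x ∉ T := by
          intro hcon
          apply hb
          exact ⟨R, Or.inr (Set.mem_iUnion₂.2 ⟨ev R x, hcon, hover⟩), hRb⟩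
        obtain ⟨m, hm, hmR⟩ := hEex _ hcT R hover
        rw [tsum_eq_single m, if_pos ⟨hR, _, hm, hmR⟩]
        intro m' hm'
        apply if_neg
        rintro ⟨-, c, h2, h3⟩
        have h4 : ev R x = c := by
          have := ((acv_over hx c (P m' c)).1 (hPov m' c (hEB m' h2))).2
          rw [← h3]; exact this
        rw [h4] at hm hmR
        exact hm' (hEun m' m c h2 hm (h3.trans hmR.symm))
      · rw [if_neg hR]
        symm
        rw [ENNReal.tsum_eq_zero]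
        intro m
        exact if_neg (fun h => hR h.1)
    rw [tsum_congr h1, ENNReal.tsum_comm]
    refine tsum_congr (fun m => ?_)
    by_cases hm : b ∈ Y m '' E m
    · rw [Set.indicator_of_mem hm]
      obtain ⟨c, hc, rfl⟩ := hm
      rw [hF m c hc, tsum_eq_single (P m c), if_pos]
      · refine ⟨(acv_over hy _ _).2 ⟨(hPge m c (hEB m hc)).1, rfl⟩, c, hc, rfl⟩
      · intro R hR
        apply if_neg
        rintro ⟨h2, c', hc', h3⟩
        apply hR
        have h4 := ((acv_over hy _ R).1 h2).2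
        have h5 : Y m c' = Y m c := by
          rw [← h4, ← h3]
        rw [← h3, hYi m hc' hc h5]
    · rw [Set.indicator_of_notMem hm, ENNReal.tsum_eq_zero]
      intro R
      apply if_neg
      rintro ⟨h2, c', hc', h3⟩
      apply hm
      refine ⟨c', hc', ?_⟩
      rw [← ((acv_over hy _ R).1 h2).2, ← h3]
  -- the left hand side
  have hL : ∫⁻ c, fsum x (fun R => ENNReal.ofReal (‖ev R f‖ ^ 2)) c =
      ∑' m, ∫⁻ c in E m, ENNReal.ofReal (‖ev (P m c) f‖ ^ 2) := by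
    have hae : ∀ᵐ c : ℂ, c ∉ (T : Set ℂ) := T.finite_toSet.countable.ae_notMem _
    rw [lintegral_congr_ae (g := fun c => ∑' m, (E m).indicator (fun c => ENNReal.ofReal (‖ev (P m c) f‖ ^ 2)) c)
      (hae.mono (fun c hc => hsum1 _ c (by simpa using hc)))]
    rw [lintegral_tsum]
    · exact tsum_congr (fun m => lintegral_indicator (hEm m) _)
    · intro m
      have hc : ContinuousOn (fun c => ENNReal.ofReal (‖ev (P m c) f‖ ^ 2)) (E m) :=
        ENNReal.continuous_ofReal.comp_continuousOn (ContinuousOn.pow (ContinuousOn.norm ((hPf m).mono (hEB m))) 2)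
      exact (aemeasurable_indicator_iff (hEm m)).2 (hc.aemeasurable (hEm m))
  have hR : ∫⁻ c, fsum y G c = ∑' m, ∫⁻ b in Y m '' E m, F m b := by
    have hae : ∀ᵐ c : ℂ, c ∉ Z := hZ.countable.ae_notMem _
    rw [lintegral_congr_ae (g := fun b => ∑' m, (Y m '' E m).indicator (F m) b)
      (hae.mono (fun b hb => hsum2 b hb))]
    rw [lintegral_tsum]
    · exact tsum_congr (fun m => lintegral_indicator (hYm m) _)
    · exact fun m => ((hFm m).indicator (hYm m)).aemeasurable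
  rw [hL]
  refine Eq.trans ?_ hR.symm
  refine tsum_congr (fun m => ?_)
  rw [acl (hEm m) (Y m) (fun c => ev (P m c) (der hx y)) (fun c hc => hPd m c (hEB m hc)) (hYi m) (F m)]
  refine setLIntegral_congr_fun (hEm m) (fun c hc => ?_)
  show ENNReal.ofReal (‖ev (P m c) f‖ ^ 2) = ENNReal.ofReal (‖ev (P m c) (der hx y)‖ ^ 2) * F m (Y m c)
  rw [hF m c hc]
  show _ = _ * ENNReal.ofReal (‖ev (P m c) (f * der hy x)‖ ^ 2)
  rw [← ENNReal.ofReal_mul (by positivity), hval m c (hEB m hc), ← mul_pow, ← norm_mul]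
  congr 3
  have h4 := (hPge m c (hEB m hc)).2.2.2
  rw [mul_comm, mul_assoc, inv_mul_cancel₀ h4, mul_one]

end Pool.Agent.HFB
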