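import Pool.Agent.HFB.DefsW

/-!
# HFB / ADK: the L² norm of a polynomial on the unit disc

Expand `|p(c)|² = ∑_{s,t} p_s conj(p_t) c^s conj(c)^t`.  `∫_{|c|<1} c^s conj(c)^t = 0` for `s ≠ t` (invariance under `c ↦ ζ c`, `|ζ| = 1`: the integral is multiplied by `ζ^(s-t)`; or polar coordinates), and `∫_{|c|<1} |c|^(2s) = π/(s+1)` (polar coordinates).
Only the inequality `(π/(s+1)) |p_s|² ≤ ∫ |p|²` is needed.
-/

namespace Pool.Agent.HFB

open Polynomial Pool.Agent.Helper11 Pool.Agent.ESH IntermediateField MeasureTheory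
open scoped KaehlerDifferential

private theorem adk_ortho (s t : ℕ) (hst : s ≠ t) :
    ∫ c in Metric.ball (0 : ℂ) 1, c ^ s * (starRingEnd ℂ) c ^ t = 0 := by
  obtain ⟨θ, hθ⟩ : ∃ θ : ℝ, ((s : ℝ) - t) * θ = Real.pi := by
    have h : ((s : ℝ) - t) ≠ 0 := sub_ne_zero.2 (by exact_mod_cast hst)
    exact ⟨Real.pi / ((s : ℝ) - t), by field_simp⟩
  have hz : (Complex.exp (θ * Complex.I)) ^ s * (starRingEnd ℂ) (Complex.exp (θ * Complex.I)) ^ t = -1 := by
    rw [← Complex.exp_conj, ← Complex.exp_nat_mul, ← Complex.exp_nat_mul, ← Complex.exp_add]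
    have h : (s : ℂ) * (θ * Complex.I) + t * (starRingEnd ℂ) (θ * Complex.I) = (Real.pi : ℂ) * Complex.I := by
      rw [map_mul, Complex.conj_ofReal, Complex.conj_I, ← hθ]
      push_cast
      ring
    rw [h, Complex.exp_pi_mul_I]
  rw [← integral_indicator Metric.isOpen_ball.measurableSet]
  set G : ℂ → ℂ := (Metric.ball (0 : ℂ) 1).indicator (fun c => c ^ s * (starRingEnd ℂ) c ^ t) with hG
  have h1 : ∀ c : ℂ, G (rotation (Circle.exp θ) c) = - G c := by
    intro c
    rw [rotation_apply, Circle.coe_exp]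
    by_cases hc : c ∈ Metric.ball (0 : ℂ) 1
    · have hc2 : Complex.exp (θ * Complex.I) * c ∈ Metric.ball (0 : ℂ) 1 := by
        rw [mem_ball_zero_iff] at hc ⊢
        rw [norm_mul, Complex.norm_exp_ofReal_mul_I, one_mul]
        exact hc
      rw [hG, Set.indicator_of_mem hc2, Set.indicator_of_mem hc, map_mul, mul_pow, mul_pow]
      linear_combination (c ^ s * (starRingEnd ℂ) c ^ t) * hz
    · have hc2 : Complex.exp (θ * Complex.I) * c ∉ Metric.ball (0 : ℂ) 1 := by
        rw [mem_ball_zero_iff] at hc ⊢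
        rw [norm_mul, Complex.norm_exp_ofReal_mul_I, one_mul]
        exact hc
      rw [hG, Set.indicator_of_notMem hc2, Set.indicator_of_notMem hc, neg_zero]
  have h2 : ∫ c, G (rotation (Circle.exp θ) c) = ∫ c, G c :=
    (rotation (Circle.exp θ)).measurePreserving.integral_comp
      (rotation (Circle.exp θ)).toHomeomorph.measurableEmbedding G
  simp only [h1] at h2
  rw [integral_neg] at h2
  have h3 : (2 : ℂ) * ∫ c, G c = 0 := by linear_combination -h2
  simpa using h3

private theorem adk_norm (s : ℕ) :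
    ∫ c in Metric.ball (0 : ℂ) 1, ‖c‖ ^ (2 * s) = Real.pi / (s + 1) := by
  rw [← integral_indicator Metric.isOpen_ball.measurableSet]
  have h0 : (Metric.ball (0 : ℂ) 1).indicator (fun c => ‖c‖ ^ (2 * s)) =
      fun c => (fun y : ℝ => (Set.Iio (1 : ℝ)).indicator (fun y => y ^ (2 * s)) y) ‖c‖ := by
    funext c
    by_cases hc : c ∈ Metric.ball (0 : ℂ) 1
    · have hc2 : ‖c‖ ∈ Set.Iio (1 : ℝ) := by rwa [mem_ball_zero_iff] at hc
      rw [Set.indicator_of_mem hc]
      simp only
      rw [Set.indicator_of_mem hc2]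
    · have hc2 : ‖c‖ ∉ Set.Iio (1 : ℝ) := by rwa [mem_ball_zero_iff] at hc
      rw [Set.indicator_of_notMem hc]
      simp only
      rw [Set.indicator_of_notMem hc2]
  rw [h0, MeasureTheory.integral_fun_norm_addHaar volume]
  simp only [Complex.finrank_real_complex]
  have h1 : (volume : Measure ℂ).real (Metric.ball 0 1) = Real.pi := by
    rw [Measure.real, Complex.volume_ball]
    simp
  rw [h1]
  have h2 : ∫ y in Set.Ioi (0 : ℝ), y ^ (2 - 1) • (Set.Iio (1 : ℝ)).indicator (fun y => y ^ (2 * s)) y =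
      1 / (2 * s + 2) := by
    have h3 : (fun y : ℝ => y ^ (2 - 1) • (Set.Iio (1 : ℝ)).indicator (fun y => y ^ (2 * s)) y) =
        (Set.Iio (1 : ℝ)).indicator (fun y => y ^ (2 * s + 1)) := by
      funext y
      by_cases hy : y ∈ Set.Iio (1 : ℝ)
      · rw [Set.indicator_of_mem hy, Set.indicator_of_mem hy]
        simp [pow_succ]; ring
      · rw [Set.indicator_of_notMem hy, Set.indicator_of_notMem hy]
        simp
    rw [h3, setIntegral_indicator measurableSet_Iio, Set.Ioi_inter_Iio,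
      ← integral_Ioc_eq_integral_Ioo, ← intervalIntegral.integral_of_le zero_le_one, integral_pow]
    push_cast
    simp
    ring
  rw [h2]
  simp
  field_simp

theorem adk (p : ℂ[X]) (s : ℕ) :
    Real.pi / (s + 1) * ‖p.coeff s‖ ^ 2 ≤ ∫ c in Metric.ball (0 : ℂ) 1, ‖p.eval c‖ ^ 2 := by
  have hint : ∀ f : ℂ → ℂ, Continuous f → IntegrableOn f (Metric.ball (0 : ℂ) 1) := fun f hf =>
    (hf.continuousOn.integrableOn_compact (isCompact_closedBall 0 1)).mono_set
      Metric.ball_subset_closedBall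
  have hintR : ∀ f : ℂ → ℝ, Continuous f → IntegrableOn f (Metric.ball (0 : ℂ) 1) := fun f hf =>
    (hf.continuousOn.integrableOn_compact (isCompact_closedBall 0 1)).mono_set
      Metric.ball_subset_closedBall
  set q : ℂ[X] := p - C (p.coeff s) * X ^ s with hq
  have hqs : q.coeff s = 0 := by simp [hq]
  have hpq : ∀ c : ℂ, p.eval c = p.coeff s * c ^ s + q.eval c := by
    intro c
    simp [hq]
  -- orthogonality
  have h1 : ∫ c in Metric.ball (0 : ℂ) 1, c ^ s * (starRingEnd ℂ) (q.eval c) = 0 := by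
    have e : ∀ c : ℂ, c ^ s * (starRingEnd ℂ) (q.eval c) =
        ∑ t ∈ q.support, (starRingEnd ℂ) (q.coeff t) * (c ^ s * (starRingEnd ℂ) c ^ t) := by
      intro c
      rw [Polynomial.eval_eq_sum, Polynomial.sum_def, map_sum, Finset.mul_sum]
      refine Finset.sum_congr rfl (fun t _ => ?_)
      rw [map_mul, map_pow]
      ring
    simp only [e]
    rw [integral_finsetSum]
    · refine Finset.sum_eq_zero (fun t ht => ?_)
      rw [integral_const_mul]
      have hts : s ≠ t := by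
        rintro rfl
        exact (Polynomial.mem_support_iff.1 ht) hqs
      rw [adk_ortho s t hts, mul_zero]
    · intro t _
      exact hint _ (by fun_prop)
  have h2 : ∫ c in Metric.ball (0 : ℂ) 1, (2 * (p.coeff s * (c ^ s * (starRingEnd ℂ) (q.eval c)))).re = 0 := by
    have h3 : ∫ c in Metric.ball (0 : ℂ) 1, (2 * (p.coeff s * (c ^ s * (starRingEnd ℂ) (q.eval c)))) = 0 := by
      rw [integral_const_mul, integral_const_mul, h1, mul_zero, mul_zero]
    have h4 := integral_re (𝕜 := ℂ) (hint (fun c => 2 * (p.coeff s * (c ^ s * (starRingEnd ℂ) (q.eval c))))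
      (by fun_prop))
    rw [h3] at h4
    simpa using h4
  have h5 : ∀ c : ℂ, ‖p.coeff s‖ ^ 2 * ‖c‖ ^ (2 * s) +
      (2 * (p.coeff s * (c ^ s * (starRingEnd ℂ) (q.eval c)))).re ≤ ‖p.eval c‖ ^ 2 := by
    intro c
    have h6 : ‖p.eval c‖ ^ 2 = ‖p.coeff s * c ^ s‖ ^ 2 + ‖q.eval c‖ ^ 2 +
        2 * (p.coeff s * c ^ s * (starRingEnd ℂ) (q.eval c)).re := by
      rw [hpq c, ← Complex.normSq_eq_norm_sq, ← Complex.normSq_eq_norm_sq, ← Complex.normSq_eq_norm_sq,
        Complex.normSq_add]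
    rw [h6, norm_mul, norm_pow, mul_pow, ← pow_mul, mul_comm s 2]
    have h7 : (2 * (p.coeff s * (c ^ s * (starRingEnd ℂ) (q.eval c)))).re =
        2 * (p.coeff s * c ^ s * (starRingEnd ℂ) (q.eval c)).re := by
      rw [← mul_assoc (p.coeff s)]
      simp
    rw [h7]
    nlinarith [sq_nonneg ‖q.eval c‖]
  have h8 : ∫ c in Metric.ball (0 : ℂ) 1, (‖p.coeff s‖ ^ 2 * ‖c‖ ^ (2 * s) +
      (2 * (p.coeff s * (c ^ s * (starRingEnd ℂ) (q.eval c)))).re) =
      Real.pi / (s + 1) * ‖p.coeff s‖ ^ 2 := by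
    rw [integral_add (hintR _ (by fun_prop))
      (hintR (fun c => (2 * (p.coeff s * (c ^ s * (starRingEnd ℂ) (q.eval c)))).re) ?_), h2, add_zero,
      integral_const_mul, adk_norm, mul_comm]
    exact Complex.continuous_re.comp (by fun_prop)
  rw [← h8]
  refine integral_mono (hintR _ ?_) (hintR _ ?_) h5
  · exact (by fun_prop : Continuous fun c : ℂ => ‖p.coeff s‖ ^ 2 * ‖c‖ ^ (2 * s)).add
      (Complex.continuous_re.comp (by fun_prop))
  · fun_prop

end Pool.Agent.HFB
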