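import Pool.Agent.HFB.DefsA

/-!
# HFB / ADM: degrees of the action

The generic matrix `gZ X` has entries whose coefficients are variables (total degree `≤ 1`).  `polC`: product of two entries, a constant and an entry of the adjugate (coefficients of total degree `≤ n - 1`); the coefficients of a product of polynomials over `MvPolynomial` have total degree at most the sum.  Compatibility with evaluation:
`Polynomial.map (eval γ)` maps `gZ X` to `gZ γ`, commutes with determinants, adjugates, derivatives; constants: `Polynomial.map MvPolynomial.C` then `eval γ` is the identity.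
-/

namespace Pool.Agent.HFB

open Polynomial

variable {K : Type*} [Field K] {n M : ℕ} {d : Fin n → ℕ}

/-- numerators of the coefficients of the structure constants of `g u`, as polynomials in the coefficients of `g` -/
noncomputable def admP (d : Fin n → ℕ) (c : Fin n → Fin n → Fin n → K[X]) (N : Fin n → Fin n → K[X]) :
    ZI n M → MvPolynomial (GI d M) K
  | Sum.inl (i, j, k, s) => (polC (fun a b l => (c a b l).map MvPolynomial.C)
      (gZ (fun t : GI d M => MvPolynomial.X t)) i j k).coeff s
  | Sum.inr (i, k, s) => (polN (fun a l => (N a l).map MvPolynomial.C)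
      (gZ (fun t : GI d M => MvPolynomial.X t)) i k).coeff s

/-- the determinant of `g`, as a polynomial in the coefficients of `g` -/
noncomputable def admU (K : Type*) [Field K] {n : ℕ} (d : Fin n → ℕ) (M : ℕ) : MvPolynomial (GI d M) K :=
  ((gZ (fun t : GI d M => (MvPolynomial.X t : MvPolynomial (GI d M) K))).det).coeff 0

section private_lemmas

variable {σ : Type*} {L : Type*} [CommRing L]

/-- the coefficients have total degree at most `m` -/
private def TB (p : Polynomial (MvPolynomial σ L)) (m : ℕ) : Prop := ∀ s, (p.coeff s).totalDegree ≤ m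

private lemma TB.mono {p : Polynomial (MvPolynomial σ L)} {m m' : ℕ} (h : TB p m) (hm : m ≤ m') : TB p m' :=
  fun s => (h s).trans hm

private lemma TB.zero (m : ℕ) : TB (0 : Polynomial (MvPolynomial σ L)) m := by
  intro s; simp

private lemma TB.one (m : ℕ) : TB (1 : Polynomial (MvPolynomial σ L)) m := by
  intro s
  rw [Polynomial.coeff_one]
  split_ifs <;> simp

private lemma TB.X (m : ℕ) : TB (Polynomial.X : Polynomial (MvPolynomial σ L)) m := by
  intro s
  rw [Polynomial.coeff_X]
  split_ifs <;> simp

private lemma TB.add {p q : Polynomial (MvPolynomial σ L)} {m : ℕ} (hp : TB p m) (hq : TB q m) :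
    TB (p + q) m := by
  intro s
  rw [Polynomial.coeff_add]
  exact (MvPolynomial.totalDegree_add _ _).trans (max_le (hp s) (hq s))

private lemma TB.neg {p : Polynomial (MvPolynomial σ L)} {m : ℕ} (hp : TB p m) : TB (-p) m := by
  intro s
  rw [Polynomial.coeff_neg, MvPolynomial.totalDegree_neg]
  exact hp s

private lemma TB.sub {p q : Polynomial (MvPolynomial σ L)} {m : ℕ} (hp : TB p m) (hq : TB q m) :
    TB (p - q) m := by
  rw [sub_eq_add_neg]; exact hp.add hq.neg

private lemma TB.sum {ι : Type*} (S : Finset ι) {f : ι → Polynomial (MvPolynomial σ L)} {m : ℕ}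
    (h : ∀ i ∈ S, TB (f i) m) : TB (∑ i ∈ S, f i) m := by
  intro s
  rw [Polynomial.finsetSum_coeff]
  exact (MvPolynomial.totalDegree_finsetSum _ _).trans (Finset.sup_le (fun i hi => h i hi s))

private lemma TB.mul {p q : Polynomial (MvPolynomial σ L)} {m m' : ℕ} (hp : TB p m) (hq : TB q m') :
    TB (p * q) (m + m') := by
  intro s
  rw [Polynomial.coeff_mul]
  refine (MvPolynomial.totalDegree_finsetSum _ _).trans (Finset.sup_le (fun x _ => ?_))
  exact (MvPolynomial.totalDegree_mul _ _).trans (add_le_add (hp _) (hq _))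

private lemma TB.prod {ι : Type*} (S : Finset ι) {f : ι → Polynomial (MvPolynomial σ L)} {e : ι → ℕ}
    (h : ∀ i ∈ S, TB (f i) (e i)) : TB (∏ i ∈ S, f i) (∑ i ∈ S, e i) := by
  classical
  induction S using Finset.induction_on with
  | empty => simpa using TB.one 0
  | insert a S ha ih =>
    rw [Finset.prod_insert ha, Finset.sum_insert ha]
    exact (h a (Finset.mem_insert_self _ _)).mul (ih (fun i hi => h i (Finset.mem_insert_of_mem hi)))

private lemma TB.mapC (p : Polynomial L) : TB (p.map (MvPolynomial.C : L →+* MvPolynomial σ L)) 0 := by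
  intro s
  rw [Polynomial.coeff_map]
  simp

private lemma TB.derivative {p : Polynomial (MvPolynomial σ L)} {m : ℕ} (hp : TB p m) :
    TB (Polynomial.derivative p) m := by
  intro s
  rw [Polynomial.coeff_derivative]
  refine (MvPolynomial.totalDegree_mul _ _).trans ?_
  have h0 : ((s : MvPolynomial σ L) + 1).totalDegree = 0 := by
    have : ((s : MvPolynomial σ L) + 1) = MvPolynomial.C ((s : L) + 1) := by simp
    rw [this, MvPolynomial.totalDegree_C]
  rw [h0]
  exact hp _

private lemma TB.det {n : ℕ} {A : Matrix (Fin n) (Fin n) (Polynomial (MvPolynomial σ L))} {e : Fin n → ℕ}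
    (h : ∀ i j, TB (A i j) (e i)) : TB A.det (∑ i, e i) := by
  rw [Matrix.det_apply]
  refine TB.sum _ (fun τ _ => ?_)
  have h1 : TB (∏ i, A (τ i) i) (∑ i, e i) := by
    rw [← Equiv.sum_comp τ e]
    exact TB.prod _ (fun i _ => h _ _)
  rcases Int.units_eq_one_or (Equiv.Perm.sign τ) with hs | hs
  · rw [hs, one_smul]; exact h1
  · rw [hs]
    have : ((-1 : ℤˣ) • ∏ i, A (τ i) i) = -(∏ i, A (τ i) i) := by
      rw [Units.smul_def]; simp
    rw [this]
    exact h1.neg

private lemma TB.adj {n : ℕ} {A : Matrix (Fin n) (Fin n) (Polynomial (MvPolynomial σ L))}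
    (h : ∀ i j, TB (A i j) 1) (i j : Fin n) : TB (A.adjugate i j) (n - 1) := by
  rw [Matrix.adjugate_apply]
  have h1 : ∀ a b, TB ((A.updateRow j (Pi.single i 1)) a b) (if a = j then 0 else 1) := by
    intro a b
    by_cases ha : a = j
    · subst ha
      rw [Matrix.updateRow_self, if_pos rfl]
      by_cases hb : b = i
      · subst hb; rw [Pi.single_eq_same]; exact TB.one 0
      · rw [Pi.single_eq_of_ne hb]; exact TB.zero 0
    · rw [Matrix.updateRow_ne ha, if_neg ha]
      exact h a b
  refine (TB.det h1).mono (le_of_eq ?_)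
  have h2 : ∀ a : Fin n, (if a = j then 0 else 1) = 1 - (if a = j then 1 else 0) := by
    intro a; split_ifs <;> rfl
  have h3 : ∑ a : Fin n, (if a = j then 0 else 1) + ∑ a : Fin n, (if a = j then 1 else 0) = n := by
    rw [← Finset.sum_add_distrib]
    have : ∀ a : Fin n, ((if a = j then 0 else 1) + (if a = j then 1 else 0)) = 1 := by
      intro a; split_ifs <;> rfl
    rw [Finset.sum_congr rfl (fun a _ => this a)]
    simp
  rw [Finset.sum_ite_eq' Finset.univ j, if_pos (Finset.mem_univ _)] at h3
  omega

end private_lemmas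

private lemma gZ_TB {n M : ℕ} {d : Fin n → ℕ} (i j : Fin n) :
    TB (gZ (fun t : GI d M => (MvPolynomial.X t : MvPolynomial (GI d M) K)) i j) 1 := by
  unfold gZ
  refine TB.sum _ (fun s _ => ?_)
  split_ifs with h
  · intro u
    rw [Polynomial.coeff_C_mul_X_pow]
    split_ifs
    · exact (MvPolynomial.totalDegree_X _).le
    · simp
  · exact TB.zero 1

theorem admP_deg (c : Fin n → Fin n → Fin n → K[X]) (N : Fin n → Fin n → K[X]) (ζ : ZI n M) :
    (admP d c N ζ).totalDegree ≤ n + 1 := by
  rcases ζ with ⟨i, j, k, s⟩ | ⟨i, k, s⟩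
  · have hn : 1 ≤ n := by have := i.2; omega
    have h : TB (polC (fun a b l => (c a b l).map MvPolynomial.C)
      (gZ (fun t : GI d M => (MvPolynomial.X t : MvPolynomial (GI d M) K))) i j k) (n + 1) := by
      unfold polC
      refine TB.sum _ (fun a _ => TB.sum _ (fun b _ => TB.sum _ (fun l _ => ?_)))
      exact ((((gZ_TB i a).mul (gZ_TB j b)).mul (TB.mapC _)).mul (TB.adj gZ_TB l k)).mono (by omega)
    exact h s
  · have hn : 1 ≤ n := by have := i.2; omega
    have h : TB (polN (fun a l => (N a l).map MvPolynomial.C)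
      (gZ (fun t : GI d M => (MvPolynomial.X t : MvPolynomial (GI d M) K))) i k) (n + 1) := by
      unfold polN
      refine TB.sum _ (fun l _ => ?_)
      have h1 : TB (X * (X - 1) * derivative
          (gZ (fun t : GI d M => (MvPolynomial.X t : MvPolynomial (GI d M) K)) i l) +
          ∑ a, gZ (fun t : GI d M => (MvPolynomial.X t : MvPolynomial (GI d M) K)) i a *
            (N a l).map MvPolynomial.C) 1 := by
        refine TB.add ?_ (TB.sum _ (fun a _ => ?_))
        · exact (((TB.X 0).mul ((TB.X 0).sub (TB.one 0))).mul (gZ_TB i l).derivative).mono (by omega)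
        · exact ((gZ_TB i a).mul (TB.mapC _)).mono (by omega)
      exact (h1.mul (TB.adj gZ_TB l k)).mono (by omega)
    exact h s

theorem admU_deg : (admU K d M).totalDegree ≤ n := by
  have h : TB ((gZ (fun t : GI d M => (MvPolynomial.X t : MvPolynomial (GI d M) K))).det) n :=
    (TB.det (e := fun _ => 1) gZ_TB).mono (by simp)
  exact h 0

private lemma gZ_map (S : Type*) [CommRing S] [Algebra K S] (γ : GI d M → S) (i j : Fin n) :
    (gZ (fun t : GI d M => (MvPolynomial.X t : MvPolynomial (GI d M) K)) i j).map
      (MvPolynomial.aeval γ : MvPolynomial (GI d M) K →ₐ[K] S).toRingHom = gZ γ i j := by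
  unfold gZ
  rw [Polynomial.map_sum]
  refine Finset.sum_congr rfl (fun s _ => ?_)
  split_ifs with h
  · simp
  · simp

private lemma gZ_mapM (S : Type*) [CommRing S] [Algebra K S] (γ : GI d M → S) :
    (Polynomial.mapRingHom (MvPolynomial.aeval γ : MvPolynomial (GI d M) K →ₐ[K] S).toRingHom).mapMatrix
      (gZ (fun t : GI d M => (MvPolynomial.X t : MvPolynomial (GI d M) K))) = gZ γ := by
  ext1 i j
  rw [RingHom.mapMatrix_apply, Matrix.map_apply]
  exact gZ_map S γ i j

private lemma adj_map (S : Type*) [CommRing S] [Algebra K S] (γ : GI d M → S) (l k : Fin n) :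
    ((gZ (fun t : GI d M => (MvPolynomial.X t : MvPolynomial (GI d M) K))).adjugate l k).map
      (MvPolynomial.aeval γ : MvPolynomial (GI d M) K →ₐ[K] S).toRingHom = (gZ γ).adjugate l k := by
  rw [← gZ_mapM (K := K) S γ, ← RingHom.map_adjugate, RingHom.mapMatrix_apply, Matrix.map_apply]
  rfl

private lemma C_map (S : Type*) [CommRing S] [Algebra K S] (γ : GI d M → S) (p : K[X]) :
    ((p.map MvPolynomial.C : Polynomial (MvPolynomial (GI d M) K))).map
      (MvPolynomial.aeval γ : MvPolynomial (GI d M) K →ₐ[K] S).toRingHom = p.map (algebraMap K S) := by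
  rw [Polynomial.map_map]
  congr 1
  ext x
  simp

theorem admP_inl (S : Type*) [CommRing S] [Algebra K S] (c : Fin n → Fin n → Fin n → K[X])
    (N : Fin n → Fin n → K[X]) (γ : GI d M → S) (i j k : Fin n) (s : Fin M) :
    MvPolynomial.aeval γ (admP d c N (Sum.inl (i, j, k, s))) =
      (polC (fun a b l => (c a b l).map (algebraMap K S)) (gZ γ) i j k).coeff s := by
  have h : (polC (fun a b l => (c a b l).map MvPolynomial.C)
      (gZ (fun t : GI d M => (MvPolynomial.X t : MvPolynomial (GI d M) K))) i j k).map
      (MvPolynomial.aeval γ : MvPolynomial (GI d M) K →ₐ[K] S).toRingHom =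
      polC (fun a b l => (c a b l).map (algebraMap K S)) (gZ γ) i j k := by
    unfold polC
    simp only [Polynomial.map_sum, Polynomial.map_mul, gZ_map, adj_map, C_map]
  rw [← h, Polynomial.coeff_map]
  rfl

theorem admP_inr (S : Type*) [CommRing S] [Algebra K S] (c : Fin n → Fin n → Fin n → K[X])
    (N : Fin n → Fin n → K[X]) (γ : GI d M → S) (i k : Fin n) (s : Fin M) :
    MvPolynomial.aeval γ (admP d c N (Sum.inr (i, k, s))) =
      (polN (fun a l => (N a l).map (algebraMap K S)) (gZ γ) i k).coeff s := by
  have h : (polN (fun a l => (N a l).map MvPolynomial.C)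
      (gZ (fun t : GI d M => (MvPolynomial.X t : MvPolynomial (GI d M) K))) i k).map
      (MvPolynomial.aeval γ : MvPolynomial (GI d M) K →ₐ[K] S).toRingHom =
      polN (fun a l => (N a l).map (algebraMap K S)) (gZ γ) i k := by
    unfold polN
    simp only [Polynomial.map_sum, Polynomial.map_mul, Polynomial.map_add, Polynomial.map_sub,
      Polynomial.map_one, Polynomial.map_X, ← Polynomial.derivative_map, gZ_map, adj_map, C_map]
  rw [← h, Polynomial.coeff_map]
  rfl

theorem admU_eval (S : Type*) [CommRing S] [Algebra K S] (γ : GI d M → S) :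
    MvPolynomial.aeval γ (admU K d M) = ((gZ γ).det).coeff 0 := by
  have h : ((gZ (fun t : GI d M => (MvPolynomial.X t : MvPolynomial (GI d M) K))).det).map
      (MvPolynomial.aeval γ : MvPolynomial (GI d M) K →ₐ[K] S).toRingHom = (gZ γ).det := by
    rw [← gZ_mapM (K := K) S γ, ← RingHom.map_det]
    rfl
  unfold admU
  rw [← h, Polynomial.coeff_map]
  rfl

end Pool.Agent.HFB
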