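import Pool.Agent.HFB.DefsW

/-!
# HFB / AIL: two integrable functions on the plane

`ail_loc`: polar coordinates (`Complex.lintegral_comp_polarCoord_symm` / `integral_comp_polarCoord_symm`) or the formula for radial functions (`MeasureTheory.Measure.integrable_comp_norm...`, `lintegral_fun_norm_addHaar`...): `∫_0^r t^(-2 + 2/n) t dt < ∞`.  (Alternative: decompose the ball in annuli `2^(-k-1) r ≤ |c| < 2^(-k) r` of area `≤ π 4^(-k) r²`: the sum of
`4^(-k) 2^((k+1)(2 - 2/n))` is a convergent geometric series.)  `ail_inf`: `integrable_one_add_norm` (exponent `2 + 2/n > 2 = finrank ℝ ℂ`) and `(1 + |c|) ≤ C |c|` for `|c| > ρ`.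
-/

namespace Pool.Agent.HFB

open Polynomial Pool.Agent.Helper11 Pool.Agent.ESH IntermediateField MeasureTheory
open scoped KaehlerDifferential

theorem ail_loc (c₀ : ℂ) (n : ℕ) (hn : 1 ≤ n) (r : ℝ) :
    IntegrableOn (fun c : ℂ => ‖c - c₀‖ ^ (-2 + 2 / (n : ℝ))) (Metric.ball c₀ r) := by
  have hn0 : (0 : ℝ) < n := by exact_mod_cast hn
  have hn2 : 0 < 2 / (n : ℝ) := by positivity
  have h0 : IntegrableOn (fun c : ℂ => ‖c‖ ^ (-2 + 2 / (n : ℝ))) (Metric.ball 0 r) := by
    refine (integrableOn_fun_norm_addHaar volume (f := fun y : ℝ => y ^ (-2 + 2 / (n : ℝ)))).2 ?_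
    have h1 : IntegrableOn (fun y : ℝ => y ^ (-1 + 2 / (n : ℝ))) (Set.Ioo 0 r) := by
      rcases le_or_gt r 0 with hr | hr
      · rw [Set.Ioo_eq_empty (by linarith)]
        exact integrableOn_empty
      · have h2 := intervalIntegral.intervalIntegrable_rpow' (a := 0) (b := r)
          (r := -1 + 2 / (n : ℝ)) (by linarith)
        rw [intervalIntegrable_iff_integrableOn_Ioo_of_le hr.le] at h2
        exact h2
    refine h1.congr_fun ?_ measurableSet_Ioo
    intro y hy
    simp only [Complex.finrank_real_complex, smul_eq_mul]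
    rw [← Real.rpow_natCast y (2 - 1), ← Real.rpow_add hy.1]
    congr 1
    push_cast
    norm_num
    ring
  have h3 := (measurePreserving_sub_right (volume : Measure ℂ) c₀).integrableOn_comp_preimage
    (MeasurableEquiv.subRight c₀).measurableEmbedding (f := fun c : ℂ => ‖c‖ ^ (-2 + 2 / (n : ℝ)))
    (s := Metric.ball 0 r)
  have h4 : (fun c : ℂ => c - c₀) ⁻¹' Metric.ball 0 r = Metric.ball c₀ r := by
    ext c
    simp [dist_eq_norm]
  rw [h4] at h3
  exact h3.2 h0

theorem ail_inf (n : ℕ) (hn : 1 ≤ n) (ρ : ℝ) (hρ : 0 < ρ) :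
    IntegrableOn (fun c : ℂ => ‖c‖ ^ (-2 - 2 / (n : ℝ))) {c : ℂ | ρ < ‖c‖} := by
  have hn0 : (0 : ℝ) < n := by exact_mod_cast hn
  have hn2 : 0 < 2 / (n : ℝ) := by positivity
  have h1 : Integrable (fun c : ℂ => (1 + ‖c‖) ^ (-(2 + 2 / (n : ℝ)))) := by
    apply integrable_one_add_norm
    rw [Complex.finrank_real_complex]
    push_cast
    linarith
  have h2 := (h1.const_mul ((ρ / (1 + ρ)) ^ (-(2 + 2 / (n : ℝ))))).integrableOn
    (s := {c : ℂ | ρ < ‖c‖})
  have hm : MeasurableSet {c : ℂ | ρ < ‖c‖} := (isOpen_lt continuous_const continuous_norm).measurableSet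
  refine Integrable.mono' h2 ?_ ?_
  · exact (measurable_norm.pow_const _).aestronglyMeasurable
  · refine (ae_restrict_mem hm).mono ?_
    intro c hc
    have hc' : ρ < ‖c‖ := hc
    have hc0 : 0 < ‖c‖ := hρ.trans hc'
    rw [Real.norm_of_nonneg (by positivity), ← Real.mul_rpow (by positivity) (by positivity)]
    have e : (-2 - 2 / (n : ℝ)) = -(2 + 2 / (n : ℝ)) := by ring
    rw [e]
    apply Real.rpow_le_rpow_of_nonpos (by positivity)
    · rw [div_mul_eq_mul_div, div_le_iff₀ (by positivity)]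
      nlinarith
    · linarith

end Pool.Agent.HFB
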