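import Pool.Agent.HFB.ACO
import Pool.Agent.HFB.ABD
import Pool.Agent.HFB.AIL
import Pool.Agent.Helper11.Chi

/-!
# HFB / AIT: integrability

`n = [Φ : ℂ(x)]`.  `|f(R) conj h(R)| ≤ (|f(R)|² + |h(R)|²)/2`, so it is enough to bound `F(c) = ∑_{R | c} |f(R)|²` by an integrable function (measurability: ACO, a function continuous on the complement of a finite set is a.e. strongly measurable).
Near `c₀ ∈ ℂ`: `g = f^n (x - c₀)^(n-1)`; at `R` over `c₀`, `e = R.ord (x - c₀) ≤ n`, `R.ord f ≥ 1 - e` (`ordDiff_smul_D`, `ord_dv`), so `R.ord g ≥ n (1 - e) + (n-1) e = n - e ≥ 0` (or `f = 0`).  ABD: `|f(R)|^n |c - c₀|^(n-1) ≤ B`, `|f(R)|² ≤ B' |c - c₀|^(-2+2/n)` for `c ≠ c₀` near `c₀`.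
Near infinity: `g = f^n x^(n+1)`: at a pole, `e = - R.ord x`, `R.ord f ≥ e + 1`, `R.ord g ≥ n (e+1) - (n+1) e = n - e ≥ 0`: `|f(R)|² ≤ B' |c|^(-2-2/n)`.  So `F` is integrable near every point of the finite set `T` of ACO and near infinity (AIL), and on the remaining compact set it is continuous.
-/

namespace Pool.Agent.HFB

open Polynomial Pool.Agent.Helper11 Pool.Agent.ESH IntermediateField MeasureTheory
open scoped KaehlerDifferential

variable {Φ : Type*} [Field Φ] [Algebra ℂ Φ] [FunField ℂ Φ]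

private theorem AIT_one {R : Place ℂ Φ} {x : Φ} {c : ℂ} (h : 1 ≤ R.ord (x - algebraMap ℂ Φ c)) :
    x ∈ R.ge 0 ∧ ev R x = c := by
  have h1 := R.mem_ge_of_le h
  refine ⟨?_, evl_eq R h1⟩
  have h2 := add_mem (R.ge_anti (by norm_num : (0 : ℤ) ≤ 1) h1) (R.algebraMap_mem_ge c)
  rwa [sub_add_cancel] at h2

private theorem AIT_pow {R : Place ℂ Φ} {g : Φ} (hg : g ∈ R.ge 0) (k : ℕ) :
    g ^ k ∈ R.ge 0 ∧ ev R (g ^ k) = (ev R g) ^ k := by
  induction k with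
  | zero =>
    rw [pow_zero, pow_zero]
    refine ⟨R.one_mem_ge, ?_⟩
    have := evl_const (C := ℂ) (Φ := Φ) R 1
    rwa [map_one] at this
  | succ k ih =>
    rw [pow_succ, pow_succ]
    refine ⟨?_, by rw [evl_mul R ih.1 hg, ih.2]⟩
    have := R.mul_mem_ge ih.1 hg
    simpa using this

private theorem AIT_real {a d B : ℝ} (ha : 0 ≤ a) (hd : 0 < d) (hB : 0 ≤ B) {N k : ℕ} (hN : 1 ≤ N)
    (h : a ^ N * d ^ k ≤ B) : a ^ 2 ≤ B ^ (2 / (N : ℝ)) * d ^ (-(2 * (k : ℝ) / N)) := by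
  have hN0 : (0 : ℝ) < N := by exact_mod_cast hN
  have h1 : a ^ N ≤ B * (d ^ k)⁻¹ := by
    rw [← div_eq_mul_inv, le_div_iff₀ (by positivity)]
    exact h
  have h2 : a ^ 2 = (a ^ N) ^ (2 / (N : ℝ)) := by
    rw [← Real.rpow_natCast a N, ← Real.rpow_mul ha, mul_div_cancel₀ _ hN0.ne']
    norm_num
  have h3 : ((d ^ k)⁻¹) ^ (2 / (N : ℝ)) = d ^ (-(2 * (k : ℝ) / N)) := by
    rw [← Real.rpow_natCast d k, ← Real.rpow_neg hd.le, ← Real.rpow_mul hd.le]
    congr 1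
    ring
  rw [h2, ← h3, ← Real.mul_rpow hB (by positivity)]
  exact Real.rpow_le_rpow (by positivity) h1 (by positivity)

private theorem AIT_ev_norm {R : Place ℂ Φ} {f z : Φ} {N k : ℕ} (hN : 1 ≤ N) (hf : f ≠ 0)
    (hz : z ∈ R.ge 0) {w : ℂ} (hw : w ≠ 0) (hzw : ev R z = w) (hg : f ^ N * z ^ k ∈ R.ge 0) :
    ‖ev R f‖ ^ N * ‖w‖ ^ k = ‖ev R (f ^ N * z ^ k)‖ := by
  obtain ⟨hi1, hi2⟩ := evl_inv R hz (by rw [hzw]; exact hw)
  have hz0 : z ≠ 0 := by
    rintro rfl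
    have := evl_const (C := ℂ) (Φ := Φ) R 0
    rw [map_zero] at this
    exact hw (by rw [← hzw, this])
  have hfN : f ^ N ∈ R.ge 0 := by
    have h1 := R.mul_mem_ge hg (AIT_pow hi1 k).1
    have h2 : f ^ N * z ^ k * z⁻¹ ^ k = f ^ N := by
      rw [mul_assoc, ← mul_pow, mul_inv_cancel₀ hz0, one_pow, mul_one]
    rw [h2] at h1
    simpa using h1
  have hfR : f ∈ R.ge 0 := by
    apply R.mem_ge_of_le
    have h1 := R.le_ord_of_mem hfN (pow_ne_zero _ hf)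
    rw [R.ord_pow] at h1
    by_contra hneg
    push Not at hneg
    have : (N : ℤ) * R.ord f < 0 := mul_neg_of_pos_of_neg (by exact_mod_cast hN) hneg
    omega
  rw [evl_mul R hfN (AIT_pow hz k).1, (AIT_pow hfR N).2, (AIT_pow hz k).2, hzw, norm_mul,
    norm_pow, norm_pow]

private theorem AIT_adj (x : Φ) (c : ℂ) : ℂ⟮x - algebraMap ℂ Φ c⟯ = ℂ⟮x⟯ := by
  apply le_antisymm
  · rw [IntermediateField.adjoin_simple_le_iff]
    exact sub_mem (IntermediateField.mem_adjoin_simple_self ℂ x) (IntermediateField.algebraMap_mem _ c)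
  · rw [IntermediateField.adjoin_simple_le_iff]
    have := add_mem (IntermediateField.mem_adjoin_simple_self ℂ (x - algebraMap ℂ Φ c))
      (IntermediateField.algebraMap_mem ℂ⟮x - algebraMap ℂ Φ c⟯ c)
    rwa [sub_add_cancel] at this

private theorem AIT_le {x : Φ} (hx : Transcendental ℂ x) (c : ℂ) (R : Place ℂ Φ) :
    R.ord (x - algebraMap ℂ Φ c) ≤ Module.finrank ℂ⟮x⟯ Φ := by
  have hx' : Transcendental ℂ (x - algebraMap ℂ Φ c) := by
    intro h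
    apply hx
    have := h.add (isAlgebraic_algebraMap c)
    rwa [sub_add_cancel] at this
  have h1 := finsum_pos_ord hx'
  rw [AIT_adj] at h1
  rw [← h1]
  refine (le_max_right 0 _).trans (single_le_finsum (f := fun R : Place ℂ Φ =>
    max 0 (R.ord (x - algebraMap ℂ Φ c))) R ?_ fun _ => le_max_left _ _)
  refine (finite_ord_ne_zero (k := ℂ) (x - algebraMap ℂ Φ c)).subset ?_
  intro R hR h0
  apply hR
  change max 0 (R.ord (x - algebraMap ℂ Φ c)) = 0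
  rw [h0, max_self]

private theorem AIT_le' {x : Φ} (hx : Transcendental ℂ x) (R : Place ℂ Φ) :
    -R.ord x ≤ Module.finrank ℂ⟮x⟯ Φ := by
  have h1 := finsum_neg_ord hx
  rw [← h1]
  refine (le_max_right 0 _).trans (single_le_finsum (f := fun R : Place ℂ Φ =>
    max 0 (-R.ord x)) R ?_ fun _ => le_max_left _ _)
  refine (finite_ord_ne_zero (k := ℂ) x).subset ?_
  intro R hR h0
  apply hR
  change max 0 (-R.ord x) = 0
  rw [h0, neg_zero, max_self]

private theorem AIT_loc {x : Φ} (hx : Transcendental ℂ x) (f : Φ)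
    (hf : ∀ R : Place ℂ Φ, 0 ≤ R.ordDiff (f • KaehlerDifferential.D ℂ Φ x)) (c₀ : ℂ) :
    ∃ ε > 0, ∃ B : ℝ, 0 ≤ B ∧ ∀ c, ‖c - c₀‖ < ε → c ≠ c₀ → ∀ R : Place ℂ Φ,
      1 ≤ R.ord (x - algebraMap ℂ Φ c) →
      ‖ev R f‖ ^ 2 ≤ B * ‖c - c₀‖ ^ (-2 + 2 / ((Module.finrank ℂ⟮x⟯ Φ + 1 : ℕ) : ℝ)) := by
  set m := Module.finrank ℂ⟮x⟯ Φ with hm
  by_cases hf0 : f = 0
  · refine ⟨1, one_pos, 0, le_refl _, ?_⟩
    intro c _ _ R _
    have := evl_const (C := ℂ) (Φ := Φ) R 0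
    rw [map_zero] at this
    rw [hf0, this]
    simp
  have hxne : ∀ c : ℂ, x - algebraMap ℂ Φ c ≠ 0 := by
    intro c h
    apply hx
    rw [sub_eq_zero.1 h]
    exact isAlgebraic_algebraMap c
  obtain ⟨ε, hε, B, hB⟩ := abd hx c₀ (f ^ (m + 1) * (x - algebraMap ℂ Φ c₀) ^ m) (by
    intro R hR
    apply R.mem_ge_of_le
    have h1 := hf R
    have h2 : R.dv x = R.dv (x - algebraMap ℂ Φ c₀) := by
      rw [map_sub, Derivation.map_algebraMap, sub_zero]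
    obtain ⟨h3, h4⟩ := R.ord_dv (y := x - algebraMap ℂ Φ c₀) (by omega)
    rw [R.ordDiff_smul_D, h2, R.ord_mul _ _ hf0 h3, h4] at h1
    rw [R.ord_mul _ _ (pow_ne_zero _ hf0) (pow_ne_zero _ (hxne c₀)), R.ord_pow, R.ord_pow]
    have h5 := AIT_le hx c₀ R
    rw [← hm] at h5
    push_cast
    have h6 : ((m : ℤ) + 1) * (1 - R.ord (x - algebraMap ℂ Φ c₀)) ≤ ((m : ℤ) + 1) * R.ord f :=
      mul_le_mul_of_nonneg_left (by linarith) (by positivity)
    nlinarith)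
  refine ⟨ε, hε, (max B 0) ^ (2 / ((m + 1 : ℕ) : ℝ)), by positivity, ?_⟩
  intro c hc hcne R hR
  obtain ⟨hgR, hgB⟩ := hB c hc R hR
  obtain ⟨hxR, hxc⟩ := AIT_one hR
  have hz : x - algebraMap ℂ Φ c₀ ∈ R.ge 0 := sub_mem hxR (R.algebraMap_mem_ge c₀)
  have hzw : ev R (x - algebraMap ℂ Φ c₀) = c - c₀ := by
    rw [evl_sub R hxR (R.algebraMap_mem_ge c₀), evl_const, hxc]
  have h1 := AIT_ev_norm (N := m + 1) (k := m) (by omega) hf0 hz (sub_ne_zero.2 hcne) hzw hgR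
  have hd : 0 < ‖c - c₀‖ := norm_pos_iff.2 (sub_ne_zero.2 hcne)
  have h2 := AIT_real (norm_nonneg (ev R f)) hd (le_max_right B 0) (N := m + 1) (k := m) (by omega)
    (by rw [h1]; exact hgB.trans (le_max_left _ _))
  have h3 : (-(2 * (m : ℝ) / ((m + 1 : ℕ) : ℝ))) = -2 + 2 / ((m + 1 : ℕ) : ℝ) := by
    push_cast
    field_simp
    ring
  rw [h3] at h2
  exact h2

private theorem AIT_far {x : Φ} (hx : Transcendental ℂ x) (f : Φ)
    (hf : ∀ R : Place ℂ Φ, 0 ≤ R.ordDiff (f • KaehlerDifferential.D ℂ Φ x)) :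
    ∃ ρ > 0, ∃ B : ℝ, 0 ≤ B ∧ ∀ c : ℂ, ρ < ‖c‖ → ∀ R : Place ℂ Φ,
      1 ≤ R.ord (x - algebraMap ℂ Φ c) →
      ‖ev R f‖ ^ 2 ≤ B * ‖c‖ ^ (-2 - 2 / ((Module.finrank ℂ⟮x⟯ Φ + 1 : ℕ) : ℝ)) := by
  set m := Module.finrank ℂ⟮x⟯ Φ with hm
  by_cases hf0 : f = 0
  · refine ⟨1, one_pos, 0, le_refl _, ?_⟩
    intro c _ R _
    have := evl_const (C := ℂ) (Φ := Φ) R 0
    rw [map_zero] at this
    rw [hf0, this]
    simp
  have hx0 : x ≠ 0 := by
    rintro rfl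
    exact hx isAlgebraic_zero
  obtain ⟨ρ, hρ, B, hB⟩ := abi hx (f ^ (m + 1) * x ^ (m + 2)) (by
    intro R hR
    apply R.mem_ge_of_le
    have h1 := hf R
    obtain ⟨h3, h4⟩ := R.ord_dv (y := x) (by omega)
    rw [R.ordDiff_smul_D, R.ord_mul _ _ hf0 h3, h4] at h1
    rw [R.ord_mul _ _ (pow_ne_zero _ hf0) (pow_ne_zero _ hx0), R.ord_pow, R.ord_pow]
    have h5 := AIT_le' hx R
    rw [← hm] at h5
    push_cast
    have h6 : ((m : ℤ) + 1) * (1 - R.ord x) ≤ ((m : ℤ) + 1) * R.ord f :=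
      mul_le_mul_of_nonneg_left (by linarith) (by positivity)
    nlinarith)
  refine ⟨ρ, hρ, (max B 0) ^ (2 / ((m + 1 : ℕ) : ℝ)), by positivity, ?_⟩
  intro c hc R hR
  obtain ⟨hgR, hgB⟩ := hB c hc R hR
  obtain ⟨hxR, hxc⟩ := AIT_one hR
  have hd : 0 < ‖c‖ := hρ.trans hc
  have h1 := AIT_ev_norm (N := m + 1) (k := m + 2) (by omega) hf0 hxR (norm_pos_iff.1 hd) hxc hgR
  have h2 := AIT_real (norm_nonneg (ev R f)) hd (le_max_right B 0) (N := m + 1) (k := m + 2)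
    (by omega) (by rw [h1]; exact hgB.trans (le_max_left _ _))
  have h3 : (-(2 * ((m + 2 : ℕ) : ℝ) / ((m + 1 : ℕ) : ℝ))) = -2 - 2 / ((m + 1 : ℕ) : ℝ) := by
    push_cast
    field_simp
    ring
  rw [h3] at h2
  exact h2

private theorem AIT_fs {x : Φ} (hx : Transcendental ℂ x) {E : Type*} [AddCommMonoid E]
    (F : Place ℂ Φ → E) (c : ℂ) :
    fsum x F c = ∑ R ∈ (aco_fin hx c).1.toFinset, F R := by
  unfold fsum
  rw [finsum_eq_sum_of_support_subset (s := (aco_fin hx c).1.toFinset)]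
  · refine Finset.sum_congr rfl fun R hR => ?_
    rw [Set.Finite.mem_toFinset] at hR
    exact if_pos hR
  · intro R hR
    rw [Set.Finite.coe_toFinset]
    by_contra h
    exact hR (if_neg h)

private theorem AIT_card {x : Φ} (hx : Transcendental ℂ x) (c : ℂ) :
    ((aco_fin hx c).1.toFinset.card : ℝ) ≤ Module.finrank ℂ⟮x⟯ Φ := by
  have h := (aco_fin hx c).2
  rw [Set.ncard_eq_toFinset_card _ (aco_fin hx c).1] at h
  exact_mod_cast h

private theorem AIT_meas {T : Finset ℂ} {E : Type*} [NormedAddCommGroup E] [SecondCountableTopology E]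
    {F : ℂ → E} (hF : ContinuousOn F (T : Set ℂ)ᶜ) : AEStronglyMeasurable F := by
  have hm : MeasurableSet ((T : Set ℂ)ᶜ) := T.finite_toSet.measurableSet.compl
  have h1 := hF.aestronglyMeasurable hm (μ := volume)
  rwa [Measure.restrict_eq_self_of_ae_mem] at h1
  exact T.finite_toSet.countable.ae_notMem volume

private theorem AIT_sq {x : Φ} (hx : Transcendental ℂ x) (f : Φ)
    (hf : ∀ R : Place ℂ Φ, 0 ≤ R.ordDiff (f • KaehlerDifferential.D ℂ Φ x)) :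
    Integrable (fun c => fsum x (fun R => ‖ev R f‖ ^ 2) c) := by
  obtain ⟨T, -, hT⟩ := aco hx f f
  have hmeas := AIT_meas hT
  have hnn : ∀ c, 0 ≤ fsum x (fun R => ‖ev R f‖ ^ 2) c := by
    intro c
    rw [AIT_fs hx]
    positivity
  have hbd : ∀ (c : ℂ) (M : ℝ), 0 ≤ M → (∀ R : Place ℂ Φ, 1 ≤ R.ord (x - algebraMap ℂ Φ c) →
      ‖ev R f‖ ^ 2 ≤ M) → ‖fsum x (fun R => ‖ev R f‖ ^ 2) c‖ ≤ (Module.finrank ℂ⟮x⟯ Φ : ℝ) * M := by
    intro c M hM h
    rw [Real.norm_of_nonneg (hnn c), AIT_fs hx]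
    refine (Finset.sum_le_card_nsmul _ _ M fun R hR => h R ?_).trans ?_
    · rw [Set.Finite.mem_toFinset] at hR
      exact hR
    · rw [nsmul_eq_mul]
      exact mul_le_mul_of_nonneg_right (AIT_card hx c) hM
  have hloc : LocallyIntegrable (fun c => fsum x (fun R => ‖ev R f‖ ^ 2) c) := by
    intro c₀
    obtain ⟨ε, hε, B, hB0, hB⟩ := AIT_loc hx f hf c₀
    refine ⟨Metric.ball c₀ ε, Metric.ball_mem_nhds _ hε, ?_⟩
    have h1 := ((ail_loc c₀ (Module.finrank ℂ⟮x⟯ Φ + 1) (by omega) ε).const_mul B).const_mul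
      (Module.finrank ℂ⟮x⟯ Φ : ℝ)
    refine Integrable.mono' h1 hmeas.restrict ?_
    filter_upwards [ae_restrict_mem (measurableSet_ball (x := c₀) (ε := ε)),
      ae_restrict_of_ae ((Set.countable_singleton c₀).ae_notMem volume)] with c hc hc'
    refine hbd c _ (by positivity) fun R hR => hB c ?_ hc' R hR
    rw [Metric.mem_ball, dist_eq_norm] at hc
    exact hc
  obtain ⟨ρ, hρ, B, hB0, hB⟩ := AIT_far hx f hf
  have h1 := hloc.integrableOn_isCompact (isCompact_closedBall (0 : ℂ) ρ)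
  have h2 : IntegrableOn (fun c => fsum x (fun R => ‖ev R f‖ ^ 2) c) {c : ℂ | ρ < ‖c‖} := by
    have h3 := ((ail_inf (Module.finrank ℂ⟮x⟯ Φ + 1) (by omega) ρ hρ).const_mul B).const_mul
      (Module.finrank ℂ⟮x⟯ Φ : ℝ)
    have hm : MeasurableSet {c : ℂ | ρ < ‖c‖} :=
      (isOpen_lt continuous_const continuous_norm).measurableSet
    refine Integrable.mono' h3 hmeas.restrict ?_
    filter_upwards [ae_restrict_mem hm] with c hc
    exact hbd c _ (by positivity) fun R hR => hB c hc R hR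
  have h3 := h1.union h2
  have h4 : Metric.closedBall (0 : ℂ) ρ ∪ {c : ℂ | ρ < ‖c‖} = Set.univ := by
    ext c
    simp only [Set.mem_union, Metric.mem_closedBall, dist_zero_right, Set.mem_univ, iff_true]
    exact le_or_gt _ _
  rw [h4, integrableOn_univ] at h3
  exact h3

theorem ait {x : Φ} (hx : Transcendental ℂ x) (f h : Φ)
    (hf : ∀ R : Place ℂ Φ, 0 ≤ R.ordDiff (f • KaehlerDifferential.D ℂ Φ x))
    (hh : ∀ R : Place ℂ Φ, 0 ≤ R.ordDiff (h • KaehlerDifferential.D ℂ Φ x)) :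
    Integrable (fun c => fsum x (fun R => ev R f * (starRingEnd ℂ) (ev R h)) c) ∧
      Integrable (fun c => fsum x (fun R => ‖ev R f‖ ^ 2) c) := by
  refine ⟨?_, AIT_sq hx f hf⟩
  obtain ⟨T, hT, -⟩ := aco hx f h
  refine Integrable.mono' ((AIT_sq hx f hf).add (AIT_sq hx h hh)) (AIT_meas hT) ?_
  refine Filter.Eventually.of_forall fun c => ?_
  simp only [Pi.add_apply]
  rw [AIT_fs hx, AIT_fs hx, AIT_fs hx, ← Finset.sum_add_distrib]
  refine (norm_sum_le _ _).trans (Finset.sum_le_sum fun R _ => ?_)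
  rw [norm_mul, RCLike.norm_conj]
  nlinarith [norm_nonneg (ev R f), norm_nonneg (ev R h), sq_nonneg (‖ev R f‖ - ‖ev R h‖)]

end Pool.Agent.HFB
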