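import Pool.Agent.HFB.DefsW
import Pool.Agent.ESH.PLV
import Pool.Agent.ESH.EVL
import Pool.Agent.Helper11.Degree

/-!
# HFB / ALA: the fibres of a function, algebraically

`y` = a primitive element of `Φ/ℂ(x)` (`Field.exists_primitive_element`), multiplied by a polynomial in `x` so that it is integral over `ℂ[x]`; `P` = its minimal polynomial over `ℂ[x]` (monic, degree `n = [Φ : ℂ(x)]`, irreducible over `ℂ(x)`, separable there: its resultant with its derivative, or a Bezout identity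
`U P + V P' = D(x) ≠ 0`, gives `T ⊇` zeros of `D`; then `P(c, ·)` is separable for `c ∉ T`).  `h ∈ S`: `h = ∑ r_i(x) y^i`, `den h` a common denominator, its zeros are in `T`.
For `c ∉ T`: `y` is integral over `ℂ[x]`, so `y ∈ R.ge 0` and `ev R y` is a root of `P(c, ·)` (evaluate `P(x, y) = 0`).  For every root `b` there is a place `R_b` with `1 ≤ R.ord (x - c)`, `ev R_b y = b`: `y - b` is a non-unit of the localisation of `ℂ[x, y]` at the maximal ideal `(x - c, y - b)` (a proper ideal, because `ℂ[x,y] = ℂ[X][Y]/P`);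
`plv_exists` (or a valuation ring dominating this local ring, `plv`).  The `n` places `R_b` are distinct and `∑_R max 0 (R.ord (x - c)) = n` (`finsum_pos_ord`), so these are all the places over `c` and all orders are `1`.
-/

namespace Pool.Agent.HFB

open Polynomial Pool.Agent.Helper11 Pool.Agent.ESH IntermediateField MeasureTheory
open scoped KaehlerDifferential

variable {Φ : Type*} [Field Φ] [Algebra ℂ Φ] [FunField ℂ Φ]

/-- the map from polynomials to the field of rational functions of `x` -/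
private noncomputable def ala_k (x : Φ) : ℂ[X] →+* ℂ⟮x⟯ :=
  (aeval (AdjoinSimple.gen ℂ x) : ℂ[X] →ₐ[ℂ] ℂ⟮x⟯).toRingHom

private theorem ala_k_coe (x : Φ) (p : ℂ[X]) : algebraMap ℂ⟮x⟯ Φ (ala_k x p) = aeval x p := by
  have h := Polynomial.aeval_algebraMap_apply Φ (AdjoinSimple.gen ℂ x) p
  rw [AdjoinSimple.algebraMap_gen] at h
  exact h.symm

private theorem ala_k_inj {x : Φ} (hx : Transcendental ℂ x) : Function.Injective (ala_k x) := by
  rw [injective_iff_map_eq_zero]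
  intro p hp
  have h := ala_k_coe x p
  rw [hp, map_zero] at h
  exact (transcendental_iff.1 hx) p h.symm

private theorem ala_k_surj (x : Φ) (r : ℂ⟮x⟯) : ∃ p q : ℂ[X], q ≠ 0 ∧ ala_k x q ≠ 0 ∧
    r * ala_k x q = ala_k x p := by
  obtain ⟨p, q, h⟩ := (IntermediateField.mem_adjoin_simple_iff ℂ (r : Φ)).1 r.2
  by_cases hq : ala_k x q = 0
  · refine ⟨0, 1, one_ne_zero, by rw [map_one]; exact one_ne_zero, ?_⟩
    have h1 : aeval x q = 0 := by rw [← ala_k_coe, hq, map_zero]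
    rw [h1, div_zero] at h
    have h2 : r = 0 := Subtype.ext h
    rw [h2, map_zero, zero_mul]
  · refine ⟨p, q, ?_, hq, ?_⟩
    · rintro rfl
      exact hq (map_zero _)
    · apply (algebraMap ℂ⟮x⟯ Φ).injective
      rw [map_mul, ala_k_coe, ala_k_coe]
      have h1 : aeval x q ≠ 0 := by
        intro h2
        apply hq
        apply (algebraMap ℂ⟮x⟯ Φ).injective
        rw [ala_k_coe, h2, map_zero]
      change (r : Φ) * aeval x q = aeval x p
      rw [h, div_mul_cancel₀ _ h1]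

/-- clearing denominators -/
private theorem ala_clr (x : Φ) (a : ℂ⟮x⟯[X]) : ∃ (q : ℂ[X]) (A : ℂ[X][X]), ala_k x q ≠ 0 ∧
    A.map (ala_k x) = C (ala_k x q) * a := by
  induction a using Polynomial.induction_on' with
  | add a b ha hb =>
    obtain ⟨q, A, hq, hA⟩ := ha
    obtain ⟨r, B, hr, hB⟩ := hb
    refine ⟨q * r, C r * A + C q * B, by rw [map_mul]; exact mul_ne_zero hq hr, ?_⟩
    rw [Polynomial.map_add, Polynomial.map_mul, Polynomial.map_mul, Polynomial.map_C,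
      Polynomial.map_C, hA, hB, map_mul, C_mul]
    ring
  | monomial n r =>
    obtain ⟨p, q, -, hq, h⟩ := ala_k_surj x r
    refine ⟨q, monomial n p, hq, ?_⟩
    rw [Polynomial.map_monomial, C_mul_monomial, ← h, mul_comm]

private theorem ala_eval₂ (x y : Φ) (A : ℂ[X][X]) :
    Polynomial.eval₂ (aeval x : ℂ[X] →ₐ[ℂ] Φ).toRingHom y A = aeval y (A.map (ala_k x)) := by
  have h : (aeval x : ℂ[X] →ₐ[ℂ] Φ).toRingHom = (algebraMap ℂ⟮x⟯ Φ).comp (ala_k x) := by
    refine RingHom.ext fun p => ?_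
    exact (ala_k_coe x p).symm
  rw [h, aeval_def, Polynomial.eval₂_map]

private theorem ala_fd {x : Φ} (hx : Transcendental ℂ x) : FiniteDimensional ℂ⟮x⟯ Φ :=
  FunField.finiteDimensional_adjoin hx

private theorem ala_cz (x : Φ) : CharZero ℂ⟮x⟯ :=
  charZero_of_injective_algebraMap (algebraMap ℂ ℂ⟮x⟯).injective

/-- a primitive element which is a root of a monic polynomial with coefficients in `ℂ[x]` -/
private theorem ala_prim {x : Φ} (hx : Transcendental ℂ x) :
    ∃ (y : Φ) (P : ℂ[X][X]), ℂ⟮x⟯⟮y⟯ = ⊤ ∧ P.Monic ∧ P.map (ala_k x) = minpoly ℂ⟮x⟯ y ∧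
      P.natDegree = Module.finrank ℂ⟮x⟯ Φ := by
  have hfd := ala_fd hx
  have hcz := ala_cz x
  obtain ⟨y₀, hy₀⟩ := Field.exists_primitive_element ℂ⟮x⟯ Φ
  obtain ⟨q, A, hq, hA⟩ := ala_clr x (minpoly ℂ⟮x⟯ y₀)
  set κ := ala_k x with hκ
  set n := Module.finrank ℂ⟮x⟯ Φ with hn
  have hint₀ : IsIntegral ℂ⟮x⟯ y₀ := IsIntegral.of_finite _ _
  have hdeg₀ : (minpoly ℂ⟮x⟯ y₀).natDegree = n :=
    (Field.primitive_element_iff_minpoly_natDegree_eq ℂ⟮x⟯ y₀).1 hy₀
  have hnpos : 0 < n := Module.finrank_pos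
  set y : Φ := (κ q : ℂ⟮x⟯) • y₀ with hy
  have hy0 : y₀ = (κ q)⁻¹ • y := by
    rw [hy, smul_smul, inv_mul_cancel₀ hq, one_smul]
  have htop : ℂ⟮x⟯⟮y⟯ = ⊤ := by
    rw [eq_top_iff, ← hy₀, IntermediateField.adjoin_simple_le_iff, hy0]
    exact IntermediateField.smul_mem _ (IntermediateField.mem_adjoin_simple_self _ _)
  have hdeg : (minpoly ℂ⟮x⟯ y).natDegree = n :=
    (Field.primitive_element_iff_minpoly_natDegree_eq ℂ⟮x⟯ y).1 htop
  set Q : ℂ[X][X] := ∑ i ∈ Finset.range n, C (A.coeff i * q ^ (n - 1 - i)) * X ^ i with hQ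
  have hQdeg : Q.degree < n := by
    refine (Polynomial.degree_sum_le _ _).trans_lt ?_
    rw [Finset.sup_lt_iff (by exact WithBot.bot_lt_coe n)]
    intro i hi
    exact (degree_C_mul_X_pow_le _ _).trans_lt (by exact_mod_cast Finset.mem_range.1 hi)
  have hPm : (X ^ n + Q : ℂ[X][X]).Monic := monic_X_pow_add hQdeg
  have hPd : (X ^ n + Q : ℂ[X][X]).natDegree = n := by
    rw [natDegree_add_eq_left_of_degree_lt, natDegree_X_pow]
    rw [degree_X_pow]
    exact hQdeg
  have hroot : aeval y ((X ^ n + Q : ℂ[X][X]).map κ) = 0 := by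
    have h1 : aeval y₀ (minpoly ℂ⟮x⟯ y₀) = 0 := minpoly.aeval _ _
    have hm : (minpoly ℂ⟮x⟯ y₀).Monic := minpoly.monic hint₀
    rw [aeval_eq_sum_range, hdeg₀, Finset.sum_range_succ] at h1
    have h2 : (minpoly ℂ⟮x⟯ y₀).coeff n = 1 := by
      rw [← hdeg₀]
      exact hm.coeff_natDegree
    rw [h2, one_smul] at h1
    have h3 : ∀ i, κ (A.coeff i) = κ q * (minpoly ℂ⟮x⟯ y₀).coeff i := by
      intro i
      have := congrArg (fun p => p.coeff i) hA
      simpa [coeff_map, coeff_C_mul] using this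
    rw [Polynomial.map_add, Polynomial.map_pow, Polynomial.map_X, hQ, Polynomial.map_sum]
    simp only [Polynomial.map_mul, Polynomial.map_C, Polynomial.map_pow, Polynomial.map_X]
    rw [map_add, map_pow, aeval_X, map_sum]
    simp only [map_mul, map_pow, aeval_X, aeval_C]
    have h4 : ∀ i ∈ Finset.range n, algebraMap ℂ⟮x⟯ Φ (κ (A.coeff i)) *
        algebraMap ℂ⟮x⟯ Φ (κ q) ^ (n - 1 - i) * y ^ i =
        algebraMap ℂ⟮x⟯ Φ (κ q) ^ n * ((minpoly ℂ⟮x⟯ y₀).coeff i • y₀ ^ i) := by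
      intro i hi
      have hi' := Finset.mem_range.1 hi
      rw [h3, hy, Algebra.smul_def, Algebra.smul_def, mul_pow, map_mul]
      have e : n = 1 + (n - 1 - i) + i := by omega
      calc _ = algebraMap ℂ⟮x⟯ Φ (κ q) ^ (1 + (n - 1 - i) + i) *
            (algebraMap ℂ⟮x⟯ Φ ((minpoly ℂ⟮x⟯ y₀).coeff i) * y₀ ^ i) := by
              rw [pow_add, pow_add, pow_one]
              ring
        _ = _ := by rw [← e]
    rw [Finset.sum_congr rfl h4, ← Finset.mul_sum]
    have h5 : y ^ n = algebraMap ℂ⟮x⟯ Φ (κ q) ^ n * y₀ ^ n := by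
      rw [hy, Algebra.smul_def, mul_pow]
    rw [h5, ← mul_add, add_comm, h1, mul_zero]
  refine ⟨y, X ^ n + Q, htop, hPm, ?_, hPd⟩
  have hdvd : minpoly ℂ⟮x⟯ y ∣ (X ^ n + Q : ℂ[X][X]).map κ := minpoly.dvd _ _ hroot
  have hm : (minpoly ℂ⟮x⟯ y).Monic := minpoly.monic (IsIntegral.of_finite _ _)
  refine (Polynomial.eq_of_monic_of_dvd_of_natDegree_le hm (hPm.map κ) hdvd ?_)
  rw [hdeg, hPm.natDegree_map, hPd]

/-- a Bezout identity -/
private theorem ala_bez {x y : Φ} (hx : Transcendental ℂ x) (P : ℂ[X][X])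
    (hP : P.map (ala_k x) = minpoly ℂ⟮x⟯ y) :
    ∃ (D : ℂ[X]) (U V : ℂ[X][X]), D ≠ 0 ∧ U * P + V * derivative P = C D := by
  have hfd := ala_fd hx
  have hcz := ala_cz x
  have hsep : (minpoly ℂ⟮x⟯ y).Separable := Algebra.IsSeparable.isSeparable ℂ⟮x⟯ y
  obtain ⟨a, b, hab⟩ := hsep
  obtain ⟨q, A, hq, hA⟩ := ala_clr x a
  obtain ⟨r, B, hr, hB⟩ := ala_clr x b
  refine ⟨q * r, C r * A, C q * B, ?_, ?_⟩
  · intro h0
    have h1 : ala_k x (q * r) = 0 := by rw [h0, map_zero]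
    rw [map_mul] at h1
    exact mul_ne_zero hq hr h1
  · apply Polynomial.map_injective _ (ala_k_inj hx)
    rw [Polynomial.map_add, Polynomial.map_mul, Polynomial.map_mul, Polynomial.map_mul,
      Polynomial.map_mul, Polynomial.map_C, Polynomial.map_C, Polynomial.map_C,
      ← Polynomial.derivative_map, hP, hA, hB, map_mul, C_mul]
    calc _ = C (ala_k x q) * C (ala_k x r) *
          (a * minpoly ℂ⟮x⟯ y + b * derivative (minpoly ℂ⟮x⟯ y)) := by ring
      _ = _ := by rw [hab, mul_one]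

/-- every element is a polynomial in `y` with denominators in `ℂ[x]` -/
private theorem ala_repr {x y : Φ} (hx : Transcendental ℂ x) (htop : ℂ⟮x⟯⟮y⟯ = ⊤) (h : Φ) :
    ∃ (num : ℕ → ℂ[X]) (den : ℂ[X]), den ≠ 0 ∧
      h * aeval x den = ∑ i ∈ Finset.range (Module.finrank ℂ⟮x⟯ Φ), aeval x (num i) * y ^ i := by
  have hfd := ala_fd hx
  have hint : IsIntegral ℂ⟮x⟯ y := IsIntegral.of_finite _ _
  have hdeg : (minpoly ℂ⟮x⟯ y).natDegree = Module.finrank ℂ⟮x⟯ Φ :=
    (Field.primitive_element_iff_minpoly_natDegree_eq ℂ⟮x⟯ y).1 htop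
  have hnpos : 0 < Module.finrank ℂ⟮x⟯ Φ := Module.finrank_pos
  have hmem : h ∈ (ℂ⟮x⟯⟮y⟯).toSubalgebra := by
    rw [htop]
    trivial
  rw [IntermediateField.adjoin_simple_toSubalgebra_of_isAlgebraic hint.isAlgebraic,
    Algebra.adjoin_singleton_eq_range_aeval] at hmem
  obtain ⟨r, hr⟩ := hmem
  change aeval y r = h at hr
  set s := r %ₘ minpoly ℂ⟮x⟯ y with hs
  have hsv : aeval y s = h := by
    rw [hs, ← hr]
    exact (Polynomial.aeval_modByMonic_eq_self_of_root (minpoly.aeval _ _))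
  have hsd : s.natDegree < Module.finrank ℂ⟮x⟯ Φ := by
    rw [← hdeg]
    refine Polynomial.natDegree_modByMonic_lt _ (minpoly.monic hint) ?_
    intro h1
    rw [h1, natDegree_one] at hdeg
    omega
  obtain ⟨q, A, hq, hA⟩ := ala_clr x s
  refine ⟨fun i => A.coeff i, q, ?_, ?_⟩
  · rintro rfl
    exact hq (map_zero _)
  · have h1 : aeval y (A.map (ala_k x)) = algebraMap ℂ⟮x⟯ Φ (ala_k x q) * h := by
      rw [hA, map_mul, aeval_C, hsv]
    have h2 : A.natDegree < Module.finrank ℂ⟮x⟯ Φ := by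
      have h3 : (A.map (ala_k x)).natDegree = A.natDegree :=
        Polynomial.natDegree_map_eq_of_injective (ala_k_inj hx) A
      rw [← h3, hA]
      exact (Polynomial.natDegree_C_mul_le _ _).trans_lt hsd
    rw [← ala_eval₂, Polynomial.eval₂_eq_sum_range' _ h2, ala_k_coe] at h1
    rw [mul_comm, ← h1]
    rfl

/-- nonunits of a valuation ring are in `ge 1` -/
private theorem ala_nonunit {B : ValuationSubring Φ} {R : Place ℂ Φ} (hR : ∀ f, f ∈ R.ge 0 ↔ f ∈ B)
    {b : Φ} (hb : b ∈ B.nonunits) : b ∈ R.ge 1 := by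
  by_cases hb0 : b = 0
  · rw [hb0]
    exact zero_mem _
  rw [ValuationSubring.mem_nonunits_iff] at hb
  have hbiB : b⁻¹ ∉ B := by
    intro h3
    rw [← B.valuation_le_one_iff, map_inv₀] at h3
    have hpos : (0 : B.ValueGroup) < B.valuation b := zero_lt_iff.2 (by
      intro h0
      exact hb0 ((B.valuation.zero_iff).1 h0))
    exact absurd h3 (not_le.2 ((one_lt_inv₀ hpos).2 hb))
  refine R.mem_ge_of_le ?_
  by_contra hcon
  apply hbiB
  rw [← hR]
  refine R.mem_ge_of_le ?_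
  rw [R.ord_inv]
  omega

/-- existence of a place over a point of the plane curve -/
private theorem ala_exists {x y : Φ} (hx : Transcendental ℂ x) (P : ℂ[X][X]) (hPm : P.Monic)
    (hP : P.map (ala_k x) = minpoly ℂ⟮x⟯ y) (c b : ℂ) (hb : (P.map (evalRingHom c)).eval b = 0) :
    ∃ R : Place ℂ Φ, 1 ≤ R.ord (x - algebraMap ℂ Φ c) ∧ y ∈ R.ge 0 ∧ ev R y = b := by
  have hfd := ala_fd hx
  set φ := (aeval x : ℂ[X] →ₐ[ℂ] Φ).toRingHom with hφ
  set ψ : ℂ[X][X] →+* Φ := Polynomial.eval₂RingHom φ y with hψ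
  have hψv : ∀ Q, ψ Q = aeval y (Q.map (ala_k x)) := fun Q => ala_eval₂ x y Q
  have hker : ∀ Q, ψ Q = 0 → ∃ H, Q = P * H := by
    intro Q hQ
    have h1 : Q %ₘ P + P * (Q /ₘ P) = Q := modByMonic_add_div Q P
    have h2 : ψ (Q %ₘ P) = 0 := by
      have h3 : ψ Q = ψ (Q %ₘ P) + ψ P * ψ (Q /ₘ P) := by
        rw [← map_mul, ← map_add, h1]
      have h4 : ψ P = 0 := by
        rw [hψv, hP]
        exact minpoly.aeval _ _
      rw [hQ, h4, zero_mul, add_zero] at h3
      exact h3.symm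
    have h5 : (Q %ₘ P).map (ala_k x) = 0 := by
      by_contra hne
      rw [hψv] at h2
      have h6 := natDegree_le_natDegree (minpoly.degree_le_of_ne_zero ℂ⟮x⟯ y hne h2)
      rw [← hP, hPm.natDegree_map] at h6
      have h7 : (Q %ₘ P).natDegree < P.natDegree := by
        refine natDegree_modByMonic_lt _ hPm ?_
        intro hP1
        rw [hP1, Polynomial.map_one] at hP
        exact minpoly.ne_one ℂ⟮x⟯ y hP.symm
      have h8 : ((Q %ₘ P).map (ala_k x)).natDegree ≤ (Q %ₘ P).natDegree := natDegree_map_le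
      omega
    have h9 : Q %ₘ P = 0 := by
      apply Polynomial.map_injective _ (ala_k_inj hx)
      rw [h5, Polynomial.map_zero]
    exact ⟨Q /ₘ P, by rw [h9, zero_add] at h1; exact h1.symm⟩
  set A : Subring Φ := ψ.range with hA
  have hxA : x - algebraMap ℂ Φ c ∈ A := ⟨C (X - C c), by simp [hψ, hφ]⟩
  have hyA : y - algebraMap ℂ Φ b ∈ A := ⟨X - C (C b), by simp [hψ, hφ]⟩
  set I : Ideal A := Ideal.span {⟨_, hxA⟩, ⟨_, hyA⟩} with hI
  have hItop : I ≠ ⊤ := by
    intro htop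
    have h1 : (1 : A) ∈ I := by
      rw [htop]
      trivial
    rw [hI, Ideal.mem_span_pair] at h1
    obtain ⟨α, β, h2⟩ := h1
    obtain ⟨F, hF⟩ := α.2
    obtain ⟨G, hG⟩ := β.2
    have h3 : (α : Φ) * (x - algebraMap ℂ Φ c) + (β : Φ) * (y - algebraMap ℂ Φ b) = 1 :=
      congrArg (fun a : A => (a : Φ)) h2
    have h4 : ψ (F * C (X - C c) + G * (X - C (C b)) - 1) = 0 := by
      rw [map_sub, map_add, map_mul, map_mul, hF, hG, map_one]
      have e1 : ψ (C (X - C c)) = x - algebraMap ℂ Φ c := by simp [hψ, hφ]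
      have e2 : ψ (X - C (C b)) = y - algebraMap ℂ Φ b := by simp [hψ, hφ]
      rw [e1, e2, h3, sub_self]
    obtain ⟨H, hH⟩ := hker _ h4
    have h5 := congrArg (fun Q => (Q.map (evalRingHom c)).eval b) hH
    simp only [Polynomial.map_sub, Polynomial.map_add, Polynomial.map_mul, Polynomial.map_one,
      Polynomial.map_C, Polynomial.map_X, eval_sub, eval_add, eval_mul, eval_one, eval_C, eval_X,
      coe_evalRingHom, hb, zero_mul, sub_self, mul_zero, zero_sub, add_zero] at h5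
    norm_num at h5
  obtain ⟨B, h1, h2⟩ := Ideal.image_subset_nonunits_valuationSubring I hItop
  have hxB : x - algebraMap ℂ Φ c ∈ B.nonunits :=
    h2 ⟨⟨_, hxA⟩, Ideal.subset_span (by simp), rfl⟩
  have hyB : y - algebraMap ℂ Φ b ∈ B.nonunits :=
    h2 ⟨⟨_, hyA⟩, Ideal.subset_span (by simp), rfl⟩
  have hx0 : x - algebraMap ℂ Φ c ≠ 0 := by
    intro h0
    apply hx
    rw [sub_eq_zero.1 h0]
    exact isAlgebraic_algebraMap c
  have hBtop : B ≠ ⊤ := by
    intro htop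
    rw [ValuationSubring.mem_nonunits_iff] at hxB
    have h3 : (x - algebraMap ℂ Φ c)⁻¹ ∈ B := by
      rw [htop]
      trivial
    rw [← B.valuation_le_one_iff, map_inv₀] at h3
    have hpos : (0 : B.ValueGroup) < B.valuation (x - algebraMap ℂ Φ c) := zero_lt_iff.2 (by
      intro h0
      exact hx0 ((B.valuation.zero_iff).1 h0))
    exact absurd h3 (not_le.2 ((one_lt_inv₀ hpos).2 hxB))
  obtain ⟨R, hR⟩ := plv B hBtop fun a => h1 ⟨C (C a), by simp [hψ, hφ]⟩
  have hy1 := ala_nonunit hR hyB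
  refine ⟨R, R.le_ord_of_mem (ala_nonunit hR hxB) hx0, ?_, evl_eq R hy1⟩
  have h3 := add_mem (R.ge_anti (by norm_num : (0 : ℤ) ≤ 1) hy1) (R.algebraMap_mem_ge b)
  rwa [sub_add_cancel] at h3

private theorem ala_adj (x : Φ) (c : ℂ) : ℂ⟮x - algebraMap ℂ Φ c⟯ = ℂ⟮x⟯ := by
  apply le_antisymm
  · rw [IntermediateField.adjoin_simple_le_iff]
    exact sub_mem (IntermediateField.mem_adjoin_simple_self ℂ x) (IntermediateField.algebraMap_mem _ c)
  · rw [IntermediateField.adjoin_simple_le_iff]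
    have := add_mem (IntermediateField.mem_adjoin_simple_self ℂ (x - algebraMap ℂ Φ c))
      (IntermediateField.algebraMap_mem ℂ⟮x - algebraMap ℂ Φ c⟯ c)
    rwa [sub_add_cancel] at this

private theorem ala_tr {x : Φ} (hx : Transcendental ℂ x) (c : ℂ) :
    Transcendental ℂ (x - algebraMap ℂ Φ c) := by
  intro h
  apply hx
  have := h.add (isAlgebraic_algebraMap (R := ℂ) (A := Φ) c)
  rwa [sub_add_cancel] at this

/-- the places over a good point -/
private theorem ala_fib {x y : Φ} (hx : Transcendental ℂ x) (P : ℂ[X][X]) (hPm : P.Monic)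
    (hP : P.map (ala_k x) = minpoly ℂ⟮x⟯ y) (hPd : P.natDegree = Module.finrank ℂ⟮x⟯ Φ) (c : ℂ)
    (hc : (P.map (evalRingHom c)).Separable) (R : Place ℂ Φ)
    (hR : 1 ≤ R.ord (x - algebraMap ℂ Φ c)) :
    R.ord (x - algebraMap ℂ Φ c) = 1 ∧ ∃ b : ℂ, (P.map (evalRingHom c)).eval b = 0 ∧
      y ∈ R.ge 0 ∧ ev R y = b ∧ ∀ R' : Place ℂ Φ, 1 ≤ R'.ord (x - algebraMap ℂ Φ c) →
        ev R' y = b → R' = R := by
  classical
  set Pc := P.map (evalRingHom c) with hPc
  have hPc0 : Pc ≠ 0 := (hPm.map _).ne_zero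
  set Z : Finset ℂ := Pc.roots.toFinset with hZ
  have hZcard : Z.card = Module.finrank ℂ⟮x⟯ Φ := by
    rw [hZ, Multiset.toFinset_card_of_nodup (nodup_roots hc), ← hPd, ← hPm.natDegree_map (evalRingHom c)]
    exact (splits_iff_card_roots.1 (IsAlgClosed.splits Pc))
  have hZmem : ∀ b, b ∈ Z ↔ Pc.eval b = 0 := fun b => by
    rw [hZ, Multiset.mem_toFinset, mem_roots hPc0]
    rfl
  have hex : ∀ b ∈ Z, ∃ R : Place ℂ Φ, 1 ≤ R.ord (x - algebraMap ℂ Φ c) ∧ y ∈ R.ge 0 ∧ ev R y = b :=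
    fun b hb => ala_exists hx P hPm hP c b ((hZmem b).1 hb)
  set W : Finset (Place ℂ Φ) := (finite_pos_ord (k := ℂ) (x - algebraMap ℂ Φ c)).toFinset with hW
  have hWmem : ∀ R, R ∈ W ↔ 1 ≤ R.ord (x - algebraMap ℂ Φ c) := fun R => by
    rw [hW, Set.Finite.mem_toFinset]
    exact Iff.rfl
  have hsum : ∑ R ∈ W, R.ord (x - algebraMap ℂ Φ c) = (Module.finrank ℂ⟮x⟯ Φ : ℤ) := by
    have h1 := finsum_pos_ord (ala_tr hx c)
    rw [ala_adj] at h1
    rw [← h1, finsum_eq_sum_of_support_subset (s := W)]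
    · refine Finset.sum_congr rfl fun R hR => ?_
      have := (hWmem R).1 hR
      rw [max_eq_right (by omega)]
    · intro R hR
      rw [Function.mem_support] at hR
      rw [Finset.mem_coe, hWmem]
      by_contra hcon
      exact hR (max_eq_left (by omega))
  have hne : Nonempty (Place ℂ Φ) := ⟨R⟩
  choose! r hr using hex
  have hinj : Set.InjOn r Z := by
    intro b hb b' hb' h
    rw [← (hr b hb).2.2, ← (hr b' hb').2.2, h]
  have hsub : Z.image r ⊆ W := by
    intro R hR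
    obtain ⟨b, hb, rfl⟩ := Finset.mem_image.1 hR
    exact (hWmem _).2 (hr b hb).1
  have hcard : (Z.image r).card = Module.finrank ℂ⟮x⟯ Φ := by
    rw [Finset.card_image_of_injOn hinj, hZcard]
  have hle : (W.card : ℤ) ≤ ∑ R ∈ W, R.ord (x - algebraMap ℂ Φ c) := by
    have := Finset.card_nsmul_le_sum W (fun R => R.ord (x - algebraMap ℂ Φ c)) 1
      fun R hR => (hWmem R).1 hR
    simpa using this
  have hWcard : W.card = Module.finrank ℂ⟮x⟯ Φ := by
    have h1 := Finset.card_le_card hsub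
    rw [hsum] at hle
    omega
  have himg : Z.image r = W := Finset.eq_of_subset_of_card_le hsub (by rw [hcard, hWcard])
  have hall : ∀ R ∈ W, R.ord (x - algebraMap ℂ Φ c) = 1 := by
    have h1 : ∑ R ∈ W, (R.ord (x - algebraMap ℂ Φ c) - 1) = 0 := by
      rw [Finset.sum_sub_distrib, hsum, Finset.sum_const, hWcard]
      simp
    have h2 := (Finset.sum_eq_zero_iff_of_nonneg (s := W)
      (f := fun R => R.ord (x - algebraMap ℂ Φ c) - 1) (fun R hR => by
        have := (hWmem R).1 hR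
        omega)).1 h1
    intro R hR
    have := h2 R hR
    omega
  have hRW : R ∈ W := (hWmem R).2 hR
  refine ⟨hall R hRW, ?_⟩
  have hRi : R ∈ Z.image r := by rw [himg]; exact hRW
  obtain ⟨b, hb, hbR⟩ := Finset.mem_image.1 hRi
  have h1 := hr b hb
  rw [hbR] at h1
  refine ⟨b, (hZmem b).1 hb, h1.2.1, h1.2.2, ?_⟩
  intro R' hR' hev
  have hR'i : R' ∈ Z.image r := by rw [himg]; exact (hWmem R').2 hR'
  obtain ⟨b', hb', hbR'⟩ := Finset.mem_image.1 hR'i
  have h2 := hr b' hb'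
  rw [hbR', hev] at h2
  rw [← hbR', ← hbR, h2.2.2]

theorem ala {x : Φ} (hx : Transcendental ℂ x) (S : Finset Φ) :
    ∃ (y : Φ) (P : ℂ[X][X]) (T : Finset ℂ) (num : Φ → ℕ → ℂ[X]) (den : Φ → ℂ[X]), P.Monic ∧
      P.natDegree = Module.finrank ℂ⟮x⟯ Φ ∧ Polynomial.eval₂ (aeval x : ℂ[X] →ₐ[ℂ] Φ).toRingHom y P = 0 ∧
      (∀ c ∉ T, (P.map (evalRingHom c)).Separable) ∧
      (∀ c ∉ T, ∀ R : Place ℂ Φ, 1 ≤ R.ord (x - algebraMap ℂ Φ c) →
        R.ord (x - algebraMap ℂ Φ c) = 1 ∧ y ∈ R.ge 0 ∧ (P.map (evalRingHom c)).eval (ev R y) = 0) ∧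
      (∀ c ∉ T, ∀ b : ℂ, (P.map (evalRingHom c)).eval b = 0 →
        ∃! R : Place ℂ Φ, 1 ≤ R.ord (x - algebraMap ℂ Φ c) ∧ ev R y = b) ∧
      ∀ h ∈ S, (∀ c ∉ T, (den h).eval c ≠ 0) ∧
        h * aeval x (den h) = ∑ i ∈ Finset.range (Module.finrank ℂ⟮x⟯ Φ), aeval x (num h i) * y ^ i := by
  classical
  obtain ⟨y, P, htop, hPm, hP, hPd⟩ := ala_prim hx
  obtain ⟨D, U, V, hD0, hUV⟩ := ala_bez hx P hP
  choose num den hden hrep using fun h => ala_repr hx htop h
  set T : Finset ℂ := D.roots.toFinset ∪ S.biUnion fun h => (den h).roots.toFinset with hT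
  have hTD : ∀ c ∉ T, D.eval c ≠ 0 := by
    intro c hc h0
    apply hc
    rw [hT, Finset.mem_union]
    left
    rw [Multiset.mem_toFinset, mem_roots hD0]
    exact h0
  have hsep : ∀ c ∉ T, (P.map (evalRingHom c)).Separable := by
    intro c hc
    have h1 := congrArg (fun Q => Q.map (evalRingHom c)) hUV
    simp only [Polynomial.map_add, Polynomial.map_mul, Polynomial.map_C, coe_evalRingHom,
      ← Polynomial.derivative_map] at h1
    refine ⟨C (D.eval c)⁻¹ * U.map (evalRingHom c), C (D.eval c)⁻¹ * V.map (evalRingHom c), ?_⟩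
    calc _ = C (D.eval c)⁻¹ * (U.map (evalRingHom c) * P.map (evalRingHom c) +
          V.map (evalRingHom c) * derivative (P.map (evalRingHom c))) := by ring
      _ = 1 := by rw [h1, ← C_mul, inv_mul_cancel₀ (hTD c hc), C_1]
  refine ⟨y, P, T, num, den, hPm, hPd, ?_, hsep, ?_, ?_, ?_⟩
  · rw [ala_eval₂, hP]
    exact minpoly.aeval _ _
  · intro c hc R hR
    obtain ⟨h1, b, h2, h3, h4, -⟩ := ala_fib hx P hPm hP hPd c (hsep c hc) R hR
    exact ⟨h1, h3, by rw [h4]; exact h2⟩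
  · intro c hc b hb
    obtain ⟨R, h1, -, h3⟩ := ala_exists hx P hPm hP c b hb
    refine ⟨R, ⟨h1, h3⟩, ?_⟩
    rintro R' ⟨h4, h5⟩
    obtain ⟨-, b', -, -, h6, h7⟩ := ala_fib hx P hPm hP hPd c (hsep c hc) R h1
    refine h7 R' h4 ?_
    rw [h5, ← h6, h3]
  · intro h hh
    refine ⟨fun c hc h0 => hc ?_, hrep h⟩
    rw [hT, Finset.mem_union]
    right
    rw [Finset.mem_biUnion]
    refine ⟨h, hh, ?_⟩
    rw [Multiset.mem_toFinset, mem_roots (hden h)]
    exact h0

end Pool.Agent.HFB
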