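import Pool.Agent.HFB.DefsW

/-!
# HFB / ALB: local root functions

The polynomial `P(c₀, ·)` has `n` distinct roots `b_i` with `∂_Y P(c₀, b_i) ≠ 0`.  The implicit function theorem (holomorphic version; Mathlib `HasStrictFDerivAt.implicitFunction` over `ℂ`, or apply the inverse function theorem to `(c, y) ↦ (c, P(c, y))`) gives functions `β_i` near `c₀`, `β_i(c₀) = b_i`, `P(c, β_i(c)) = 0`, differentiable near `c₀`.
(Alternative without implicit functions: `β_i(c) = (1/2πi) ∮ y ∂_Y P(c, y)/P(c, y) dy`.)  By continuity the `β_i(c)` stay distinct for `c` near `c₀`, and a monic polynomial of degree `n` has at most `n` roots, so these are all; `P(c, ·) = ∏ (Y - β_i(c))` is separable.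
-/

namespace Pool.Agent.HFB

open Polynomial Pool.Agent.Helper11 Pool.Agent.ESH IntermediateField MeasureTheory
open scoped KaehlerDifferential

private theorem root_fun (P : ℂ[X][X]) (c₀ b : ℂ) (hb : (P.map (evalRingHom c₀)).eval b = 0)
    (hd : (derivative (P.map (evalRingHom c₀))).eval b ≠ 0) :
    ∃ β : ℂ → ℂ, β c₀ = b ∧ ContinuousAt β c₀ ∧ (∀ᶠ c in nhds c₀, DifferentiableAt ℂ β c) ∧
      ∀ᶠ c in nhds c₀, (P.map (evalRingHom c)).eval (β c) = 0 := by
  let G : ℂ × ℂ → ℂ := fun z => (P.map (evalRingHom z.1)).eval z.2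
  have hG : ContDiff ℂ 1 G := by
    have : G = fun z => ∑ i ∈ Finset.range (P.natDegree + 1), (P.coeff i).eval z.1 * z.2 ^ i := by
      funext z
      simp only [G, eval_map, eval₂_eq_sum_range, coe_evalRingHom]
    rw [this]
    refine ContDiff.sum fun i _ => ?_
    refine ContDiff.mul ?_ ?_
    · have h0 : ContDiff ℂ 1 (fun x : ℂ => (P.coeff i).eval x) := by
        simpa [coe_aeval_eq_eval] using (Polynomial.contDiff_aeval (𝕜 := ℂ) (P.coeff i) 1)
      exact h0.comp contDiff_fst
    · exact contDiff_snd.pow i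
  let L : ℂ × ℂ →L[ℂ] ℂ := fderiv ℂ G (c₀, b)
  have hL : HasFDerivAt G L (c₀, b) := (hG.differentiable one_ne_zero _).hasFDerivAt
  have hL1 : L (0, 1) = (derivative (P.map (evalRingHom c₀))).eval b := by
    have h1 : HasDerivAt (fun y : ℂ => G (c₀, y)) (L (0, 1)) b :=
      hL.comp_hasDerivAt b ((hasDerivAt_const b c₀).prodMk (hasDerivAt_id b))
    have h2 : HasDerivAt (fun y : ℂ => G (c₀, y))
        ((derivative (P.map (evalRingHom c₀))).eval b) b :=
      (P.map (evalRingHom c₀)).hasDerivAt b
    exact h1.unique h2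
  have hLne : L (0, 1) ≠ 0 := by rw [hL1]; exact hd
  have hLdec : ∀ u v : ℂ, L (u, v) = L (u, 0) + v * L (0, 1) := by
    intro u v
    have : (u, v) = (u, (0 : ℂ)) + v • ((0 : ℂ), (1 : ℂ)) := by simp
    rw [this, map_add, map_smul, smul_eq_mul]
  let F : ℂ × ℂ → ℂ × ℂ := fun z => (z.1, G z)
  have hF : ContDiff ℂ 1 F := contDiff_fst.prodMk hG
  let f' : (ℂ × ℂ) ≃L[ℂ] (ℂ × ℂ) := ContinuousLinearEquiv.equivOfInverse
    ((ContinuousLinearMap.fst ℂ ℂ ℂ).prod L)
    ((ContinuousLinearMap.fst ℂ ℂ ℂ).prod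
      ((L (0, 1))⁻¹ • (ContinuousLinearMap.snd ℂ ℂ ℂ -
        L.comp ((ContinuousLinearMap.inl ℂ ℂ ℂ).comp (ContinuousLinearMap.fst ℂ ℂ ℂ)))))
    (by
      rintro ⟨u, v⟩
      ext
      · simp
      · simp only [ContinuousLinearMap.prod_apply, ContinuousLinearMap.coe_fst',
          _root_.smul_apply, _root_.sub_apply,
          ContinuousLinearMap.coe_snd', ContinuousLinearMap.comp_apply,
          ContinuousLinearMap.inl_apply, smul_eq_mul]
        rw [hLdec u v]
        field_simp
        ring)
    (by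
      rintro ⟨u, v⟩
      ext
      · simp
      · simp only [ContinuousLinearMap.prod_apply, ContinuousLinearMap.coe_fst',
          _root_.smul_apply, _root_.sub_apply,
          ContinuousLinearMap.coe_snd', ContinuousLinearMap.comp_apply,
          ContinuousLinearMap.inl_apply, smul_eq_mul]
        rw [hLdec u]
        field_simp
        ring)
  have hF' : HasFDerivAt F (f' : (ℂ × ℂ) →L[ℂ] (ℂ × ℂ)) (c₀, b) :=
    hasFDerivAt_fst.prodMk hL
  have hFa : ContDiffAt ℂ 1 F (c₀, b) := hF.contDiffAt
  have hFval : F (c₀, b) = (c₀, 0) := by simp only [F, G]; rw [hb]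
  let g : ℂ × ℂ → ℂ × ℂ := hFa.localInverse hF' one_ne_zero
  have hg : ContDiffAt ℂ 1 g (c₀, 0) := by
    have := hFa.to_localInverse hF' one_ne_zero
    rw [hFval] at this
    exact this
  have hg0 : g (c₀, 0) = (c₀, b) := by
    have := hFa.localInverse_apply_image hF' one_ne_zero
    rw [hFval] at this
    exact this
  have hgr : ∀ᶠ z in nhds (c₀, (0 : ℂ)), F (g z) = z := by
    have := (hFa.hasStrictFDerivAt' hF' one_ne_zero).eventually_right_inverse
    rw [hFval] at this
    exact this
  have hι : Continuous (fun c : ℂ => (c, (0 : ℂ))) := by fun_prop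
  have hιt : Filter.Tendsto (fun c : ℂ => (c, (0 : ℂ))) (nhds c₀) (nhds (c₀, 0)) := hι.tendsto c₀
  have hβc : ContDiffAt ℂ 1 (fun c : ℂ => (g (c, 0)).2) c₀ := by
    refine ContDiffAt.comp c₀ (g := Prod.snd) contDiffAt_snd ?_
    exact ContDiffAt.comp c₀ (g := g) (f := fun c : ℂ => (c, (0 : ℂ))) hg
      (contDiffAt_id.prodMk contDiffAt_const)
  refine ⟨fun c => (g (c, 0)).2, ?_, hβc.continuousAt, ?_, ?_⟩
  · change (g (c₀, 0)).2 = b
    rw [hg0]
  · have := hβc.eventually (by simp)
    filter_upwards [this] with c hc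
    exact hc.differentiableAt one_ne_zero
  · filter_upwards [hιt.eventually hgr] with c hc
    have h1 : (g (c, 0)).1 = c := congrArg Prod.fst hc
    have h2 : G (g (c, 0)) = 0 := congrArg Prod.snd hc
    simp only [G] at h2
    rw [h1] at h2
    exact h2

theorem alb (P : ℂ[X][X]) (hP : P.Monic) (c₀ : ℂ) (h : (P.map (evalRingHom c₀)).Separable) :
    ∃ r > 0, ∃ β : Fin P.natDegree → ℂ → ℂ, (∀ i, DifferentiableOn ℂ (β i) (Metric.ball c₀ r)) ∧
      ∀ c ∈ Metric.ball c₀ r, (P.map (evalRingHom c)).Separable ∧ Function.Injective (fun i => β i c) ∧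
        (∀ i, (P.map (evalRingHom c)).eval (β i c) = 0) ∧
        ∀ b, (P.map (evalRingHom c)).eval b = 0 → ∃ i, β i c = b := by
  have hmon : ∀ c, (P.map (evalRingHom c)).Monic := fun c => hP.map _
  have hdeg : ∀ c, (P.map (evalRingHom c)).natDegree = P.natDegree := fun c => hP.natDegree_map _
  have hcard : (P.map (evalRingHom c₀)).roots.toFinset.card = P.natDegree := by
    rw [Multiset.toFinset_card_of_nodup (nodup_roots h),
      ← (IsAlgClosed.splits (P.map (evalRingHom c₀))).natDegree_eq_card_roots, hdeg]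
  let e := (P.map (evalRingHom c₀)).roots.toFinset.equivFinOfCardEq hcard
  have hroot : ∀ i, (P.map (evalRingHom c₀)).eval (e.symm i : ℂ) = 0 := by
    intro i
    have := (e.symm i).2
    rw [Multiset.mem_toFinset, mem_roots (hmon c₀).ne_zero] at this
    exact this
  have hder : ∀ i, (derivative (P.map (evalRingHom c₀))).eval (e.symm i : ℂ) ≠ 0 := by
    intro i h0
    obtain ⟨u, v, huv⟩ := h
    have := congrArg (eval (e.symm i : ℂ)) huv
    simp only [eval_add, eval_mul, hroot i, h0, mul_zero, add_zero, eval_one] at this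
    exact zero_ne_one this
  choose β hβ0 hβc hβd hβr using fun i => root_fun P c₀ (e.symm i) (hroot i) (hder i)
  have hinj : ∀ᶠ c in nhds c₀, Function.Injective (fun i => β i c) := by
    have : ∀ᶠ c in nhds c₀, ∀ i j, i ≠ j → β i c ≠ β j c := by
      rw [Filter.eventually_all]
      intro i
      rw [Filter.eventually_all]
      intro j
      by_cases hij : i = j
      · exact Filter.Eventually.of_forall fun c hne => absurd hij hne
      · have hne : β i c₀ ≠ β j c₀ := by
          rw [hβ0, hβ0]
          intro h1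
          exact hij (e.symm.injective (Subtype.ext h1))
        have := ((hβc i).sub (hβc j)).eventually_ne (sub_ne_zero.2 hne)
        filter_upwards [this] with c hc _
        exact sub_ne_zero.1 hc
    filter_upwards [this] with c hc i j hij
    by_contra hne
    exact hc i j hne hij
  have hall : ∀ᶠ c in nhds c₀, (∀ i, DifferentiableAt ℂ (β i) c) ∧
      Function.Injective (fun i => β i c) ∧ ∀ i, (P.map (evalRingHom c)).eval (β i c) = 0 :=
    (Filter.eventually_all.2 hβd).and (hinj.and (Filter.eventually_all.2 hβr))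
  obtain ⟨r, hr, hball⟩ := Metric.eventually_nhds_iff_ball.1 hall
  refine ⟨r, hr, β, fun i c hc => ((hball c hc).1 i).differentiableWithinAt, ?_⟩
  intro c hc
  obtain ⟨-, hic, hrc⟩ := hball c hc
  have hsub : Finset.univ.image (fun i => β i c) ⊆ (P.map (evalRingHom c)).roots.toFinset := by
    intro b hb
    obtain ⟨i, -, rfl⟩ := Finset.mem_image.1 hb
    rw [Multiset.mem_toFinset, mem_roots (hmon c).ne_zero]
    exact hrc i
  have hcardi : (Finset.univ.image (fun i => β i c)).card = P.natDegree := by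
    rw [Finset.card_image_of_injective _ hic, Finset.card_univ, Fintype.card_fin]
  have hcr : Multiset.card (P.map (evalRingHom c)).roots = P.natDegree := by
    rw [← (IsAlgClosed.splits (P.map (evalRingHom c))).natDegree_eq_card_roots, hdeg]
  have hle : (P.map (evalRingHom c)).roots.toFinset.card ≤ P.natDegree := by
    rw [← hcr]; exact Multiset.toFinset_card_le _
  have heq := Finset.eq_of_subset_of_card_le hsub (by rw [hcardi]; exact hle)
  have hnd : (P.map (evalRingHom c)).roots.Nodup := by
    rw [← Multiset.toFinset_card_eq_card_iff_nodup, hcr, ← heq, hcardi]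
  refine ⟨(nodup_roots_iff_of_splits (hmon c).ne_zero (IsAlgClosed.splits _)).1 hnd, hic, hrc, ?_⟩
  intro b hb
  have hb2 : b ∈ (P.map (evalRingHom c)).roots.toFinset := by
    rw [Multiset.mem_toFinset, mem_roots (hmon c).ne_zero]; exact hb
  rw [← heq] at hb2
  obtain ⟨i, -, hi⟩ := Finset.mem_image.1 hb2
  exact ⟨i, hi⟩

end Pool.Agent.HFB
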