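import Pool.Agent.HFB.ALA
import Pool.Agent.HFB.ALB
import Pool.Agent.Helper11.Chi

/-!
# HFB / ALC: local sections of the covering given by a function

ALA for `S ∪ {der hx h : h ∈ S}` and (add it to the list) for `y` and `der hx y`: first take the primitive element `y` of ALA for `S`, then it suffices to note that `y` itself is handled by the polynomial: `num y`: if `n = 1` careful; simplest: `ev` of `y` at the place with root `b` is `b`.  `P_i(c)` = the unique place over `c` with `ev y = β_i(c)` (ALB).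
`ev (P_i c) h = ∑ num_i(c) β(c)^i / den(c)` (`evl_add`, `evl_mul`), differentiable in `c`.  Its derivative: differentiate `P(c, β(c)) = 0`: `P_X(c, β) + P_Y(c, β) β' = 0`, and `P_X(x, y) + P_Y(x, y) der y = 0` (`der` is a derivation with `der x = 1`), `P_Y(c, β) ≠ 0` (separable), so `β' = ev (der y)`; then the derivative of
`∑ num_i(c) β^i / den` is the value of `der (∑ num_i(x) y^i / den(x))` at the place.  (All elements occurring are regular at the places over `c ∉ T` : quotients by elements with non-zero values.)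
-/

namespace Pool.Agent.HFB

open Polynomial Pool.Agent.Helper11 Pool.Agent.ESH IntermediateField MeasureTheory
open scoped KaehlerDifferential

variable {Φ : Type*} [Field Φ] [Algebra ℂ Φ] [FunField ℂ Φ]

private theorem mul0 (R : Place ℂ Φ) {f g : Φ} (hf : f ∈ R.ge 0) (hg : g ∈ R.ge 0) :
    f * g ∈ R.ge 0 := by
  have := R.mul_mem_ge hf hg
  rwa [add_zero] at this

private theorem pow0 (R : Place ℂ Φ) {f : Φ} (hf : f ∈ R.ge 0) (n : ℕ) : f ^ n ∈ R.ge 0 := by
  have := R.pow_mem_ge hf n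
  rwa [mul_zero] at this

private theorem ev_pow (R : Place ℂ Φ) {f : Φ} (hf : f ∈ R.ge 0) (n : ℕ) :
    ev R (f ^ n) = ev R f ^ n := by
  induction n with
  | zero => simpa using evl_const R (1 : ℂ)
  | succ n ih => rw [pow_succ, pow_succ, evl_mul R (pow0 R hf n) hf, ih]

private theorem ev_sum {ι : Type*} (R : Place ℂ Φ) (s : Finset ι) (f : ι → Φ)
    (hf : ∀ i ∈ s, f i ∈ R.ge 0) : ev R (∑ i ∈ s, f i) = ∑ i ∈ s, ev R (f i) := by
  classical
  induction s using Finset.induction_on with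
  | empty => simpa using evl_const R (0 : ℂ)
  | insert a s ha ih =>
    rw [Finset.sum_insert ha, Finset.sum_insert ha, evl_add R (hf a (Finset.mem_insert_self a s))
      (sum_mem fun i hi => hf i (Finset.mem_insert_of_mem hi)),
      ih fun i hi => hf i (Finset.mem_insert_of_mem hi)]

private theorem x_ge (R : Place ℂ Φ) {x : Φ} {c : ℂ} (h : 1 ≤ R.ord (x - algebraMap ℂ Φ c)) :
    x ∈ R.ge 0 := by
  have h1 := add_mem (R.ge_anti (by norm_num : (0 : ℤ) ≤ 1) (R.mem_ge_of_le h))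
    (R.algebraMap_mem_ge c)
  rwa [sub_add_cancel] at h1

private theorem x_ev (R : Place ℂ Φ) {x : Φ} {c : ℂ} (h : 1 ≤ R.ord (x - algebraMap ℂ Φ c)) :
    ev R x = c := evl_eq R (R.mem_ge_of_le h)

private theorem ae_ge (R : Place ℂ Φ) {x : Φ} (hx : x ∈ R.ge 0) (p : ℂ[X]) :
    aeval x p ∈ R.ge 0 := by
  rw [aeval_eq_sum_range]
  exact sum_mem fun i _ => R.smul_mem_ge _ (pow0 R hx i)

private theorem ae_ev (R : Place ℂ Φ) {x : Φ} (hx : x ∈ R.ge 0) (p : ℂ[X]) :
    ev R (aeval x p) = p.eval (ev R x) := by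
  rw [aeval_eq_sum_range, eval_eq_sum_range,
    ev_sum R _ _ fun i _ => R.smul_mem_ge _ (pow0 R hx i)]
  refine Finset.sum_congr rfl fun i _ => ?_
  rw [Algebra.smul_def, evl_mul R (R.algebraMap_mem_ge _) (pow0 R hx i), evl_const, ev_pow R hx]

private theorem der_ge {x : Φ} (hx : Transcendental ℂ x) (R : Place ℂ Φ) {c : ℂ}
    (h : R.ord (x - algebraMap ℂ Φ c) = 1) {f : Φ} (hf : f ∈ R.ge 0) : der hx f ∈ R.ge 0 := by
  have h1 := (R.ord_dv_unif' h).2
  have h2 : R.dv (x - algebraMap ℂ Φ c) = R.dv x := by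
    rw [map_sub, Derivation.map_algebraMap, sub_zero]
  rw [h2] at h1
  rw [R.der_eq hx f]
  refine mul0 R ?_ (R.dv_mem_ge_zero hf)
  apply R.mem_ge_of_le
  rw [R.ord_der_unif hx, h1, neg_zero]

private theorem natc_ev (R : Place ℂ Φ) (n : ℕ) : ev R (n : Φ) = n := by
  have := evl_const R (n : ℂ)
  rwa [map_natCast] at this

/-- evaluation of polynomial expressions and of their derivatives -/
private theorem key_ev {x : Φ} (hx : Transcendental ℂ x) (R : Place ℂ Φ) {c : ℂ}
    (h : R.ord (x - algebraMap ℂ Φ c) = 1) {y : Φ} (hy : y ∈ R.ge 0) (q : ℕ → ℂ[X]) (n : ℕ) :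
    (∑ j ∈ Finset.range n, aeval x (q j) * y ^ j) ∈ R.ge 0 ∧
      ev R (∑ j ∈ Finset.range n, aeval x (q j) * y ^ j) =
        ∑ j ∈ Finset.range n, (q j).eval c * ev R y ^ j ∧
      ev R (der hx (∑ j ∈ Finset.range n, aeval x (q j) * y ^ j)) =
        ∑ j ∈ Finset.range n, ((derivative (q j)).eval c * ev R y ^ j +
          (q j).eval c * (j * ev R y ^ (j - 1) * ev R (der hx y))) := by
  have hx0 := x_ge R h.ge
  have hxe := x_ev R h.ge
  have hdy := der_ge hx R h hy
  refine ⟨sum_mem fun j _ => mul0 R (ae_ge R hx0 _) (pow0 R hy j), ?_, ?_⟩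
  · rw [ev_sum R _ _ fun j _ => mul0 R (ae_ge R hx0 _) (pow0 R hy j)]
    refine Finset.sum_congr rfl fun j _ => ?_
    rw [evl_mul R (ae_ge R hx0 _) (pow0 R hy j), ae_ev R hx0, hxe, ev_pow R hy]
  · have hd : der hx (∑ j ∈ Finset.range n, aeval x (q j) * y ^ j) =
        ∑ j ∈ Finset.range n, (aeval x (derivative (q j)) * y ^ j +
          aeval x (q j) * ((j : Φ) * y ^ (j - 1) * der hx y)) := by
      rw [map_sum]
      refine Finset.sum_congr rfl fun j _ => ?_
      rw [Derivation.leibniz, Derivation.leibniz_pow, (der hx).map_aeval, der_self]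
      simp only [smul_eq_mul, nsmul_eq_mul, mul_one]
      ring
    rw [hd]
    have g1 : ∀ j : ℕ, aeval x (derivative (q j)) * y ^ j ∈ R.ge 0 := fun j =>
      mul0 R (ae_ge R hx0 _) (pow0 R hy j)
    have g2 : ∀ j : ℕ, (j : Φ) * y ^ (j - 1) * der hx y ∈ R.ge 0 := fun j =>
      mul0 R (mul0 R (R.natCast_mem_ge j) (pow0 R hy _)) hdy
    have g3 : ∀ j : ℕ, aeval x (q j) * ((j : Φ) * y ^ (j - 1) * der hx y) ∈ R.ge 0 := fun j =>
      mul0 R (ae_ge R hx0 _) (g2 j)
    rw [ev_sum R _ _ fun j _ => add_mem (g1 j) (g3 j)]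
    refine Finset.sum_congr rfl fun j _ => ?_
    rw [evl_add R (g1 j) (g3 j), evl_mul R (ae_ge R hx0 _) (pow0 R hy j), ae_ev R hx0, hxe,
      ev_pow R hy, evl_mul R (ae_ge R hx0 _) (g2 j), ae_ev R hx0, hxe,
      evl_mul R (mul0 R (R.natCast_mem_ge j) (pow0 R hy _)) hdy,
      evl_mul R (R.natCast_mem_ge j) (pow0 R hy _), natc_ev, ev_pow R hy]

private theorem key_d (q : ℕ → ℂ[X]) (n : ℕ) (β : ℂ → ℂ) (β' c : ℂ) (h : HasDerivAt β β' c) :
    HasDerivAt (fun c' => ∑ j ∈ Finset.range n, (q j).eval c' * β c' ^ j)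
      (∑ j ∈ Finset.range n, ((derivative (q j)).eval c * β c ^ j +
          (q j).eval c * (j * β c ^ (j - 1) * β'))) c := by
  refine HasDerivAt.fun_sum fun j _ => ?_
  exact ((q j).hasDerivAt c).mul (h.pow j)

theorem alc {x : Φ} (hx : Transcendental ℂ x) (S : Finset Φ) :
    ∃ (y : Φ) (T : Finset ℂ), (∀ c ∉ T, ∀ R R' : Place ℂ Φ, 1 ≤ R.ord (x - algebraMap ℂ Φ c) →
        1 ≤ R'.ord (x - algebraMap ℂ Φ c) → ev R y = ev R' y → R = R') ∧
      (∀ c ∉ T, ∀ R : Place ℂ Φ, 1 ≤ R.ord (x - algebraMap ℂ Φ c) → R.ord (x - algebraMap ℂ Φ c) = 1 ∧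
        y ∈ R.ge 0 ∧ ∀ h ∈ S, h ∈ R.ge 0 ∧ der hx h ∈ R.ge 0) ∧
      ∀ c₀ ∉ T, ∃ r > 0, ∃ P : Fin (Module.finrank ℂ⟮x⟯ Φ) → ℂ → Place ℂ Φ,
        (∀ c ∈ Metric.ball c₀ r, c ∉ T) ∧
        (∀ c ∈ Metric.ball c₀ r, Function.Injective (fun i => P i c) ∧
          ∀ R : Place ℂ Φ, 1 ≤ R.ord (x - algebraMap ℂ Φ c) ↔ ∃ i, P i c = R) ∧
        (∀ i, ContinuousOn (fun c => ev (P i c) y) (Metric.ball c₀ r)) ∧
        ∀ h ∈ S, ∀ i, ∀ c ∈ Metric.ball c₀ r,
          HasDerivAt (fun c' => ev (P i c') h) (ev (P i c) (der hx h)) c := by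
  obtain ⟨y, P, T, num, den, hP, hdeg, hP0, hsep, hpl, huniq, hS⟩ := ala hx S
  have hSge : ∀ c ∉ T, ∀ R : Place ℂ Φ, 1 ≤ R.ord (x - algebraMap ℂ Φ c) → ∀ h ∈ S, h ∈ R.ge 0 := by
    intro c hc R hR h hh
    obtain ⟨h1, h2⟩ := hS h hh
    obtain ⟨h3, h4, -⟩ := hpl c hc R hR
    have hx0 := x_ge R hR
    have hden : ev R (aeval x (den h)) ≠ 0 := by
      rw [ae_ev R hx0, x_ev R hR]; exact h1 c hc
    obtain ⟨h5, -⟩ := evl_inv R (ae_ge R hx0 (den h)) hden
    have h6 : aeval x (den h) ≠ 0 := by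
      intro h0
      rw [h0] at hden
      exact hden (by simpa using evl_const R (0 : ℂ))
    have h7 : h = (∑ i ∈ Finset.range (Module.finrank ℂ⟮x⟯ Φ), aeval x (num h i) * y ^ i) *
        (aeval x (den h))⁻¹ := by
      rw [← h2, mul_assoc, mul_inv_cancel₀ h6, mul_one]
    rw [h7]
    exact mul0 R (key_ev hx R h3 h4 (num h) _).1 h5
  refine ⟨y, T, ?_, ?_, ?_⟩
  · intro c hc R R' hR hR' he
    obtain ⟨-, -, h3⟩ := hpl c hc R hR
    obtain ⟨R'', -, h5⟩ := huniq c hc (ev R y) h3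
    rw [h5 R ⟨hR, rfl⟩, h5 R' ⟨hR', he.symm⟩]
  · intro c hc R hR
    obtain ⟨h1, h2, -⟩ := hpl c hc R hR
    exact ⟨h1, h2, fun h hh => ⟨hSge c hc R hR h hh, der_ge hx R h1 (hSge c hc R hR h hh)⟩⟩
  · intro c₀ hc₀
    obtain ⟨r₁, hr₁, β₀, hβd₀, hβ₀⟩ := alb P hP c₀ (hsep c₀ hc₀)
    obtain ⟨r₂, hr₂, hb₂⟩ : ∃ r > 0, ∀ c ∈ Metric.ball c₀ r, c ∉ T := by
      have h1 : ((T : Set ℂ)ᶜ) ∈ nhds c₀ :=
        (T.finite_toSet.isClosed.isOpen_compl).mem_nhds (by simpa using hc₀)
      obtain ⟨r, hr, hb⟩ := Metric.mem_nhds_iff.1 h1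
      exact ⟨r, hr, fun c hc hT => hb hc hT⟩
    let r := min r₁ r₂
    have hr : 0 < r := lt_min hr₁ hr₂
    have hbr₁ : ∀ c ∈ Metric.ball c₀ r, c ∈ Metric.ball c₀ r₁ := fun c hc =>
      Metric.ball_subset_ball (min_le_left _ _) hc
    have hbT : ∀ c ∈ Metric.ball c₀ r, c ∉ T := fun c hc =>
      hb₂ c (Metric.ball_subset_ball (min_le_right _ _) hc)
    let β : Fin (Module.finrank ℂ⟮x⟯ Φ) → ℂ → ℂ := fun i => β₀ (Fin.cast hdeg.symm i)
    have hβroot : ∀ c ∈ Metric.ball c₀ r, ∀ i, (P.map (evalRingHom c)).eval (β i c) = 0 :=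
      fun c hc i => (hβ₀ c (hbr₁ c hc)).2.2.1 _
    have hβinj : ∀ c ∈ Metric.ball c₀ r, Function.Injective (fun i => β i c) := by
      intro c hc i j hij
      have := (hβ₀ c (hbr₁ c hc)).2.1 hij
      exact Fin.cast_injective _ this
    have hβall : ∀ c ∈ Metric.ball c₀ r, ∀ b, (P.map (evalRingHom c)).eval b = 0 →
        ∃ i, β i c = b := by
      intro c hc b hb
      obtain ⟨i, hi⟩ := (hβ₀ c (hbr₁ c hc)).2.2.2 b hb
      exact ⟨Fin.cast hdeg i, hi⟩
    have hβd : ∀ i, ∀ c ∈ Metric.ball c₀ r, DifferentiableAt ℂ (β i) c := by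
      intro i c hc
      exact (hβd₀ _ c (hbr₁ c hc)).differentiableAt (Metric.isOpen_ball.mem_nhds (hbr₁ c hc))
    have hex : ∀ (i : Fin (Module.finrank ℂ⟮x⟯ Φ)) (c : ℂ), ∃ R : Place ℂ Φ,
        c ∈ Metric.ball c₀ r → (1 ≤ R.ord (x - algebraMap ℂ Φ c) ∧ ev R y = β i c) := by
      intro i c
      by_cases hc : c ∈ Metric.ball c₀ r
      · obtain ⟨R, hR, -⟩ := huniq c (hbT c hc) (β i c) (hβroot c hc i)
        exact ⟨R, fun _ => hR⟩
      · obtain ⟨R, -, -⟩ := huniq c₀ (hbT c₀ (Metric.mem_ball_self hr)) (β i c₀)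
          (hβroot c₀ (Metric.mem_ball_self hr) i)
        exact ⟨R, fun h => absurd h hc⟩
    choose Q hQ using hex
    refine ⟨r, hr, Q, hbT, ?_, ?_, ?_⟩
    · intro c hc
      refine ⟨?_, ?_⟩
      · intro i j hij
        apply hβinj c hc
        change β i c = β j c
        rw [← (hQ i c hc).2, ← (hQ j c hc).2]
        exact congrArg (fun R => ev R y) hij
      · intro R
        constructor
        · intro hR
          obtain ⟨-, -, h3⟩ := hpl c (hbT c hc) R hR
          obtain ⟨i, hi⟩ := hβall c hc _ h3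
          obtain ⟨R'', -, h5⟩ := huniq c (hbT c hc) (ev R y) h3
          refine ⟨i, ?_⟩
          rw [h5 R ⟨hR, rfl⟩, h5 (Q i c) ⟨(hQ i c hc).1, by rw [(hQ i c hc).2, hi]⟩]
        · rintro ⟨i, rfl⟩
          exact (hQ i c hc).1
    · intro i
      have h1 : ContinuousOn (β i) (Metric.ball c₀ r) := fun c hc =>
        (hβd i c hc).continuousAt.continuousWithinAt
      exact h1.congr fun c hc => (hQ i c hc).2
    · intro h hh i c hc
      have hevQ : ∀ᶠ c' in nhds c, c' ∈ Metric.ball c₀ r := Metric.isOpen_ball.mem_nhds hc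
      have hR := (hQ i c hc).1
      have hRy := (hQ i c hc).2
      obtain ⟨ho, hy0, -⟩ := hpl c (hbT c hc) _ hR
      -- the derivative of the root
      have hβ' : HasDerivAt (β i) (deriv (β i) c) c := (hβd i c hc).hasDerivAt
      have hβe : deriv (β i) c = ev (Q i c) (der hx y) := by
        have e1 := key_d P.coeff (P.natDegree + 1) (β i) _ c hβ'
        have e2 : HasDerivAt (fun c' => ∑ j ∈ Finset.range (P.natDegree + 1),
            (P.coeff j).eval c' * β i c' ^ j) 0 c := by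
          refine (hasDerivAt_const c (0 : ℂ)).congr_of_eventuallyEq ?_
          filter_upwards [hevQ] with c' hc'
          have := hβroot c' hc' i
          rwa [eval_map, eval₂_eq_sum_range] at this
        have e3 := e1.unique e2
        have e4 := (key_ev hx (Q i c) ho hy0 P.coeff (P.natDegree + 1)).2.2
        have e5 : ∑ j ∈ Finset.range (P.natDegree + 1), aeval x (P.coeff j) * y ^ j = 0 := by
          rw [eval₂_eq_sum_range] at hP0
          exact hP0
        rw [e5, map_zero, hRy] at e4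
        have e6 : ev (Q i c) (0 : Φ) = 0 := by simpa using evl_const (Q i c) (0 : ℂ)
        rw [e6] at e4
        have e7 : (∑ j ∈ Finset.range (P.natDegree + 1), (P.coeff j).eval c *
            (j * β i c ^ (j - 1))) * (deriv (β i) c - ev (Q i c) (der hx y)) = 0 := by
          rw [Finset.sum_mul]
          have e8 := e3.trans e4
          rw [← sub_eq_zero, ← Finset.sum_sub_distrib] at e8
          rw [← e8]
          refine Finset.sum_congr rfl fun j _ => ?_
          ring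
        have e9 : (∑ j ∈ Finset.range (P.natDegree + 1), (P.coeff j).eval c *
            (j * β i c ^ (j - 1))) = (derivative (P.map (evalRingHom c))).eval (β i c) := by
          rw [derivative_eval, sum_over_range' _ _ (P.natDegree + 1) (by
            rw [hP.natDegree_map]; exact Nat.lt_succ_self _)]
          · refine Finset.sum_congr rfl fun j _ => ?_
            rw [coeff_map, coe_evalRingHom]; ring
          · intro j; simp
        have e10 : (derivative (P.map (evalRingHom c))).eval (β i c) ≠ 0 := by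
          intro h0
          obtain ⟨u, v, huv⟩ := hsep c (hbT c hc)
          have := congrArg (eval (β i c)) huv
          simp only [eval_add, eval_mul, hβroot c hc i, h0, mul_zero, add_zero, eval_one] at this
          exact zero_ne_one this
        rw [e9] at e7
        exact sub_eq_zero.1 ((mul_eq_zero.1 e7).resolve_left e10)
      rw [hβe] at hβ'
      obtain ⟨hden, hnum⟩ := hS h hh
      have hx0 := x_ge (Q i c) hR
      have hNd := key_d (num h) (Module.finrank ℂ⟮x⟯ Φ) (β i) _ c hβ'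
      have hDd := (den h).hasDerivAt c
      have hq := hNd.div hDd (hden c (hbT c hc))
      have hval : ∀ c' ∈ Metric.ball c₀ r, ev (Q i c') h =
          (∑ j ∈ Finset.range (Module.finrank ℂ⟮x⟯ Φ), (num h j).eval c' * β i c' ^ j) /
            (den h).eval c' := by
        intro c' hc'
        have hR' := (hQ i c' hc').1
        obtain ⟨ho', hy0', -⟩ := hpl c' (hbT c' hc') _ hR'
        rw [eq_div_iff (hden c' (hbT c' hc'))]
        have h1 := (key_ev hx (Q i c') ho' hy0' (num h) (Module.finrank ℂ⟮x⟯ Φ)).2.1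
        rw [← hnum, evl_mul _ (hSge c' (hbT c' hc') _ hR' h hh) (ae_ge _ (x_ge _ hR') _),
          ae_ev _ (x_ge _ hR'), x_ev _ hR', (hQ i c' hc').2] at h1
        exact h1
      have hq2 : HasDerivAt (fun c' => ev (Q i c') h) _ c :=
        hq.congr_of_eventuallyEq (by
          filter_upwards [hevQ] with c' hc'
          exact hval c' hc')
      have hfin : ev (Q i c) (der hx h) =
          ((∑ j ∈ Finset.range (Module.finrank ℂ⟮x⟯ Φ), ((derivative (num h j)).eval c * β i c ^ j +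
            (num h j).eval c * (j * β i c ^ (j - 1) * ev (Q i c) (der hx y)))) * (den h).eval c -
            (∑ j ∈ Finset.range (Module.finrank ℂ⟮x⟯ Φ), (num h j).eval c * β i c ^ j) *
              (derivative (den h)).eval c) / (den h).eval c ^ 2 := by
        have k1 := (key_ev hx (Q i c) ho hy0 (num h) (Module.finrank ℂ⟮x⟯ Φ)).2.2
        have hh0 := hSge c (hbT c hc) _ hR h hh
        rw [← hnum, Derivation.leibniz, (der hx).map_aeval, der_self, smul_eq_mul, smul_eq_mul,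
          smul_eq_mul, mul_one,
          evl_add _ (mul0 _ hh0 (ae_ge _ hx0 _)) (mul0 _ (ae_ge _ hx0 _) (der_ge hx _ ho hh0)),
          evl_mul _ hh0 (ae_ge _ hx0 _), evl_mul _ (ae_ge _ hx0 _) (der_ge hx _ ho hh0),
          ae_ev _ hx0, ae_ev _ hx0, x_ev _ hR, hRy, hval c hc] at k1
        have hdne := hden c (hbT c hc)
        rw [eq_div_iff (pow_ne_zero 2 hdne), ← k1]
        field_simp
        ring
      rw [hfin]
      exact hq2

end Pool.Agent.HFB
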