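import Pool.Agent.HFB.AIT
import Pool.Agent.HFB.ADK
import Pool.Agent.ESH.TRV
import Pool.Agent.ESH.EVL
import Pool.Agent.Helper11.Density

/-!
# HFB / ALO: lower bound for the L² norm

For all `c` but finitely many: the places over `c` are unramified (`R.ord (x - c) = 1`), `f`, the `u_i` and the `e_i`, where `1 = ∑ e_i u_i`, `e_i ∈ ℂ(x)`, are regular at them (each `u_i` is regular at the places over almost all `c`).  TRV for `z = x - c` and `f u_j`: `p(c) = ∑_{R | c} f(R) u_j(R)`.  If `|c| < 1`: `|u_j(R)| ≤ n M A`: choose `k` with `|u_k(R)|` maximal; it is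
not zero because `1 = ∑ e_i(c) u_i(R)`; `u_j(R) u_k(R) = ∑_l c_jkl(c) u_l(R)` and `|c_jkl(c)| ≤ M A`.  There are at most `n` places over `c`, so Cauchy-Schwarz gives `|p(c)|² ≤ n (n M A)² ∑_R |f(R)|²`.  Integrate over the unit disc: ADK, `π/(s+1) ≥ 1/M` for `s < M` (for `s ≥ M` the coefficient is zero).
-/

namespace Pool.Agent.HFB

open Polynomial Pool.Agent.Helper11 Pool.Agent.ESH IntermediateField MeasureTheory
open scoped KaehlerDifferential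

variable {Φ : Type*} [Field Φ] [Algebra ℂ Φ] [FunField ℂ Φ]

private theorem alo_ge0 (R : Place ℂ Φ) {x : Φ} {c : ℂ} (h : 1 ≤ R.ord (x - algebraMap ℂ Φ c)) :
    x ∈ R.ge 0 := by
  have h1 := add_mem (R.mem_ge_of_le (le_trans (by norm_num : (0 : ℤ) ≤ 1) h)) (R.algebraMap_mem_ge c)
  rwa [sub_add_cancel] at h1

private theorem alo_ev (R : Place ℂ Φ) {x : Φ} {c : ℂ} (h : 1 ≤ R.ord (x - algebraMap ℂ Φ c)) :
    ev R x = c := evl_eq R (R.mem_ge_of_le h)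

private theorem alo_eva (R : Place ℂ Φ) {x : Φ} (hx : x ∈ R.ge 0) (p : ℂ[X]) :
    aeval x p ∈ R.ge 0 ∧ ev R (aeval x p) = p.eval (ev R x) := by
  induction p using Polynomial.induction_on' with
  | add p q hp hq =>
    refine ⟨?_, ?_⟩
    · rw [map_add]; exact add_mem hp.1 hq.1
    · rw [map_add, evl_add R hp.1 hq.1, hp.2, hq.2, Polynomial.eval_add]
  | monomial m a =>
    have hpow : x ^ m ∈ R.ge 0 ∧ ev R (x ^ m) = (ev R x) ^ m := by
      induction m with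
      | zero =>
        rw [pow_zero, pow_zero]
        refine ⟨R.one_mem_ge, ?_⟩
        have := evl_const R (1 : ℂ)
        rwa [map_one] at this
      | succ m ih =>
        have h1 := R.mul_mem_ge ih.1 hx
        rw [add_zero] at h1
        rw [pow_succ, pow_succ]
        exact ⟨h1, by rw [evl_mul R ih.1 hx, ih.2]⟩
    rw [Polynomial.aeval_monomial, Polynomial.eval_monomial]
    have h1 := R.mul_mem_ge (R.algebraMap_mem_ge a) hpow.1
    rw [add_zero] at h1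
    exact ⟨h1, by rw [evl_mul R (R.algebraMap_mem_ge a) hpow.1, hpow.2, evl_const]⟩

private theorem alo_sum (R : Place ℂ Φ) {ι : Type*} (s : Finset ι) (g : ι → Φ)
    (hg : ∀ i ∈ s, g i ∈ R.ge 0) :
    (∑ i ∈ s, g i) ∈ R.ge 0 ∧ ev R (∑ i ∈ s, g i) = ∑ i ∈ s, ev R (g i) := by
  classical
  induction s using Finset.induction_on with
  | empty =>
    rw [Finset.sum_empty, Finset.sum_empty]
    refine ⟨zero_mem _, ?_⟩
    have := evl_const R (0 : ℂ)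
    rwa [map_zero] at this
  | insert a s ha ih =>
    obtain ⟨h1, h2⟩ := ih (fun i hi => hg i (Finset.mem_insert_of_mem hi))
    have h3 := hg a (Finset.mem_insert_self a s)
    rw [Finset.sum_insert ha, Finset.sum_insert ha]
    exact ⟨add_mem h3 h1, by rw [evl_add R h3 h1, h2]⟩

private theorem alo_fin1 (x g : Φ) :
    {c : ℂ | ∃ R : Place ℂ Φ, 1 ≤ R.ord (x - algebraMap ℂ Φ c) ∧ g ∉ R.ge 0}.Finite := by
  refine ((finite_ord_ne_zero (k := ℂ) g).image (fun R => ev R x)).subset ?_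
  rintro c ⟨R, h1, h2⟩
  refine ⟨R, ?_, alo_ev R h1⟩
  intro h3
  exact h2 (R.mem_ge_of_le (le_of_eq h3.symm))

private theorem alo_dv (R : Place ℂ Φ) (x : Φ) (c : ℂ) :
    R.dv (x - algebraMap ℂ Φ c) = R.dv x := by
  rw [map_sub, Derivation.map_algebraMap, sub_zero]

private theorem alo_ram {x : Φ} (hx : Transcendental ℂ x) :
    {c : ℂ | ∃ R : Place ℂ Φ, 1 ≤ R.ord (x - algebraMap ℂ Φ c) ∧
      R.ord (x - algebraMap ℂ Φ c) ≠ 1}.Finite := by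
  refine ((finite_ord_dv_ne_zero hx).image (fun R : Place ℂ Φ => ev R x)).subset ?_
  rintro c ⟨R, h1, h2⟩
  refine ⟨R, ?_, alo_ev R h1⟩
  have h3 := (R.ord_dv (y := x - algebraMap ℂ Φ c) (by omega)).2
  rw [alo_dv] at h3
  show R.ord (R.dv x) ≠ 0
  omega

private theorem alo_tr {x : Φ} (hx : Transcendental ℂ x) (c : ℂ) :
    Transcendental ℂ (x - algebraMap ℂ Φ c) := by
  intro h
  apply hx
  have h1 := h.add (isAlgebraic_algebraMap (R := ℂ) (A := Φ) c)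
  rwa [sub_add_cancel] at h1

private theorem alo_adj (x : Φ) (c : ℂ) : ℂ⟮x⟯ = ℂ⟮x - algebraMap ℂ Φ c⟯ := by
  apply le_antisymm
  · rw [adjoin_simple_le_iff]
    have h1 := add_mem (mem_adjoin_simple_self ℂ (x - algebraMap ℂ Φ c))
      (IntermediateField.algebraMap_mem ℂ⟮x - algebraMap ℂ Φ c⟯ c)
    rwa [sub_add_cancel] at h1
  · rw [adjoin_simple_le_iff]
    exact sub_mem (mem_adjoin_simple_self ℂ x) (IntermediateField.algebraMap_mem ℂ⟮x⟯ c)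

private theorem alo_coef {A : ℝ} (hA : 1 ≤ A) {M : ℕ} {q : ℂ[X]} (hq : ∀ s, ‖q.coeff s‖ ≤ A)
    (hM : q.natDegree < M) {c : ℂ} (hc : ‖c‖ < 1) : ‖q.eval c‖ ≤ M * A := by
  rw [Polynomial.eval_eq_sum_range' hM]
  refine (norm_sum_le _ _).trans ?_
  have h1 : ∀ s ∈ Finset.range M, ‖q.coeff s * c ^ s‖ ≤ A := by
    intro s _
    rw [norm_mul, norm_pow]
    calc ‖q.coeff s‖ * ‖c‖ ^ s ≤ A * 1 :=
          mul_le_mul (hq s) (pow_le_one₀ (norm_nonneg c) hc.le) (by positivity) (by linarith)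
      _ = A := mul_one A
  refine (Finset.sum_le_sum h1).trans ?_
  rw [Finset.sum_const, Finset.card_range, nsmul_eq_mul]

private theorem alo_u {x : Φ} {n : ℕ} (u : Fin n → Φ) (c : Fin n → Fin n → Fin n → ℂ[X])
    (hc : ∀ i j, u i * u j = ∑ k, aeval x (c i j k) * u k) (A : ℝ) (hA : 1 ≤ A) (M : ℕ)
    (hcA : ∀ i j k s, ‖(c i j k).coeff s‖ ≤ A) (hcM : ∀ i j k, (c i j k).natDegree < M)
    (R : Place ℂ Φ) {a : ℂ} (ha : ‖a‖ < 1) (hR : 1 ≤ R.ord (x - algebraMap ℂ Φ a))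
    (hu : ∀ i, u i ∈ R.ge 0) (j : Fin n) : ‖ev R (u j)‖ ≤ n * M * A := by
  have : Nonempty (Fin n) := ⟨j⟩
  obtain ⟨k, hk⟩ := Finite.exists_max (fun i => ‖ev R (u i)‖)
  have hx0 := alo_ge0 R hR
  have hxa := alo_ev R hR
  have h1 : ev R (u k) * ev R (u k) = ∑ l, (c k k l).eval a * ev R (u l) := by
    have h2 := congrArg (ev R) (hc k k)
    rw [evl_mul R (hu k) (hu k)] at h2
    rw [h2]
    have h3 : ∀ l ∈ Finset.univ, aeval x (c k k l) * u l ∈ R.ge 0 := by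
      intro l _
      have h4 := R.mul_mem_ge (alo_eva R hx0 (c k k l)).1 (hu l)
      rwa [add_zero] at h4
    rw [(alo_sum R Finset.univ _ h3).2]
    refine Finset.sum_congr rfl (fun l _ => ?_)
    rw [evl_mul R (alo_eva R hx0 (c k k l)).1 (hu l), (alo_eva R hx0 (c k k l)).2, hxa]
  have h5 : ‖ev R (u k)‖ * ‖ev R (u k)‖ ≤ (n * M * A) * ‖ev R (u k)‖ := by
    rw [← norm_mul, h1]
    refine (norm_sum_le _ _).trans ?_
    have h6 : ∀ l ∈ (Finset.univ : Finset (Fin n)), ‖(c k k l).eval a * ev R (u l)‖ ≤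
        M * A * ‖ev R (u k)‖ := by
      intro l _
      rw [norm_mul]
      exact mul_le_mul (alo_coef hA (hcA k k l) (hcM k k l) ha) (hk l) (norm_nonneg _)
        (by positivity)
    refine (Finset.sum_le_sum h6).trans ?_
    rw [Finset.sum_const, Finset.card_univ, Fintype.card_fin, nsmul_eq_mul]
    linarith
  have h7 : ‖ev R (u k)‖ ≤ n * M * A := by
    rcases eq_or_lt_of_le (norm_nonneg (ev R (u k))) with h | h
    · rw [← h]; positivity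
    · exact le_of_mul_le_mul_right h5 h
  exact (hk j).trans h7

private theorem alo_pt {x : Φ} (hx : Transcendental ℂ x) {n : ℕ} (hn : Module.finrank ℂ⟮x⟯ Φ = n)
    (u : Fin n → Φ) (c : Fin n → Fin n → Fin n → ℂ[X])
    (hc : ∀ i j, u i * u j = ∑ k, aeval x (c i j k) * u k) (A : ℝ) (hA : 1 ≤ A) (M : ℕ)
    (hcA : ∀ i j k s, ‖(c i j k).coeff s‖ ≤ A) (hcM : ∀ i j k, (c i j k).natDegree < M) (f : Φ)
    (j : Fin n) (p : ℂ[X])
    (hp : ((Algebra.trace ℂ⟮x⟯ Φ (f * u j) : ℂ⟮x⟯) : Φ) = aeval x p) (a : ℂ) (ha : ‖a‖ < 1)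
    (h1 : ¬ ∃ R : Place ℂ Φ, 1 ≤ R.ord (x - algebraMap ℂ Φ a) ∧ R.ord (x - algebraMap ℂ Φ a) ≠ 1)
    (h2 : ¬ ∃ R : Place ℂ Φ, 1 ≤ R.ord (x - algebraMap ℂ Φ a) ∧ f ∉ R.ge 0)
    (h3 : ∀ i, ¬ ∃ R : Place ℂ Φ, 1 ≤ R.ord (x - algebraMap ℂ Φ a) ∧ u i ∉ R.ge 0) :
    ‖p.eval a‖ ^ 2 ≤ n ^ 3 * M ^ 2 * A ^ 2 * fsum x (fun R => ‖ev R f‖ ^ 2) a := by
  classical
  push Not at h1 h2 h3
  obtain ⟨hfin, hcard⟩ := aco_fin hx a
  rw [hn] at hcard
  set S := hfin.toFinset with hS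
  have hmem : ∀ R : Place ℂ Φ, R ∈ S ↔ 1 ≤ R.ord (x - algebraMap ℂ Φ a) := by
    intro R
    rw [hS, Set.Finite.mem_toFinset]
    exact Iff.rfl
  have hSc : (S.card : ℝ) ≤ n := by
    rw [Set.ncard_eq_toFinset_card _ hfin] at hcard
    exact_mod_cast hcard
  have hsum : ∀ {E : Type} [AddCommMonoid E] (F : Place ℂ Φ → E),
      (∑ᶠ R : Place ℂ Φ, if 1 ≤ R.ord (x - algebraMap ℂ Φ a) then F R else 0) = ∑ R ∈ S, F R := by
    intro E _ F
    rw [finsum_eq_sum_of_support_subset (s := S)]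
    · refine Finset.sum_congr rfl (fun R hR => ?_)
      rw [if_pos ((hmem R).1 hR)]
    · intro R hR
      rw [Finset.mem_coe, hmem]
      by_contra h
      rw [Function.mem_support, if_neg h] at hR
      exact hR rfl
  obtain ⟨R₀, hR₀⟩ := exists_pos_ord (alo_tr hx a)
  have hfu : ∀ R : Place ℂ Φ, 1 ≤ R.ord (x - algebraMap ℂ Φ a) → f * u j ∈ R.ge 0 := by
    intro R hR
    have h4 := R.mul_mem_ge (h2 R hR) (h3 j R hR)
    rwa [add_zero] at h4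
  have htr := (trv ℂ⟮x⟯ (x - algebraMap ℂ Φ a) (alo_adj x a) (alo_tr hx a) (f * u j) hfu R₀
    (by omega)).2
  have hR1 : 1 ≤ R₀.ord (x - algebraMap ℂ Φ a) := by omega
  rw [hp, (alo_eva R₀ (alo_ge0 R₀ hR1) p).2, alo_ev R₀ hR1,
    hsum (fun R => ((R.ord (x - algebraMap ℂ Φ a) : ℤ) : ℂ) * ev R (f * u j))] at htr
  have h5 : p.eval a = ∑ R ∈ S, ev R f * ev R (u j) := by
    rw [htr]
    refine Finset.sum_congr rfl (fun R hR => ?_)
    have hR' := (hmem R).1 hR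
    rw [h1 R hR', evl_mul R (h2 R hR') (h3 j R hR')]
    simp
  have h6 : ‖p.eval a‖ ≤ (n * M * A) * ∑ R ∈ S, ‖ev R f‖ := by
    rw [h5, Finset.mul_sum]
    refine (norm_sum_le _ _).trans (Finset.sum_le_sum (fun R hR => ?_))
    have hR' := (hmem R).1 hR
    rw [norm_mul, mul_comm]
    exact mul_le_mul_of_nonneg_right (alo_u u c hc A hA M hcA hcM R ha hR' (fun i => h3 i R hR') j)
      (norm_nonneg _)
  have h7 : fsum x (fun R => ‖ev R f‖ ^ 2) a = ∑ R ∈ S, ‖ev R f‖ ^ 2 := hsum _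
  rw [h7]
  have h8 : (∑ R ∈ S, ‖ev R f‖) ^ 2 ≤ n * ∑ R ∈ S, ‖ev R f‖ ^ 2 := by
    refine sq_sum_le_card_mul_sum_sq.trans ?_
    exact mul_le_mul_of_nonneg_right hSc (Finset.sum_nonneg (fun R _ => sq_nonneg _))
  calc ‖p.eval a‖ ^ 2 ≤ ((n * M * A) * ∑ R ∈ S, ‖ev R f‖) ^ 2 :=
        pow_le_pow_left₀ (norm_nonneg _) h6 2
    _ = (n * M * A) ^ 2 * (∑ R ∈ S, ‖ev R f‖) ^ 2 := by ring
    _ ≤ (n * M * A) ^ 2 * (n * ∑ R ∈ S, ‖ev R f‖ ^ 2) :=
        mul_le_mul_of_nonneg_left h8 (sq_nonneg _)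
    _ = n ^ 3 * M ^ 2 * A ^ 2 * ∑ R ∈ S, ‖ev R f‖ ^ 2 := by ring

theorem alo {x : Φ} (hx : Transcendental ℂ x) {n : ℕ} (hn : Module.finrank ℂ⟮x⟯ Φ = n) (u : Fin n → Φ)
    (hu : LinearIndependent ℂ⟮x⟯ u) (c : Fin n → Fin n → Fin n → ℂ[X])
    (hc : ∀ i j, u i * u j = ∑ k, aeval x (c i j k) * u k) (A : ℝ) (hA : 1 ≤ A) (M : ℕ)
    (hcA : ∀ i j k s, ‖(c i j k).coeff s‖ ≤ A) (hcM : ∀ i j k, (c i j k).natDegree < M) (f : Φ)
    (hf : ∀ R : Place ℂ Φ, 0 ≤ R.ordDiff (f • KaehlerDifferential.D ℂ Φ x)) (j : Fin n) (p : ℂ[X])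
    (hp : ((Algebra.trace ℂ⟮x⟯ Φ (f * u j) : ℂ⟮x⟯) : Φ) = aeval x p) (hpM : p.natDegree < M) (s : ℕ) :
    ‖p.coeff s‖ ^ 2 ≤ n ^ 3 * M ^ 3 * A ^ 2 * ∫ c, fsum x (fun R => ‖ev R f‖ ^ 2) c := by
  have hint := (ait hx f f hf hf).2
  have hnn : ∀ a : ℂ, 0 ≤ fsum x (fun R => ‖ev R f‖ ^ 2) a := by
    intro a
    refine finsum_nonneg (fun R => ?_)
    split_ifs
    · positivity
    · exact le_rfl
  have hInn : 0 ≤ ∫ c, fsum x (fun R => ‖ev R f‖ ^ 2) c := integral_nonneg hnn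
  by_cases hs : s < M
  swap
  · rw [Polynomial.coeff_eq_zero_of_natDegree_lt (by omega), norm_zero]
    have : (0 : ℝ) ≤ n ^ 3 * M ^ 3 * A ^ 2 * ∫ c, fsum x (fun R => ‖ev R f‖ ^ 2) c := by positivity
    simpa using this
  have hball : ∫ c in Metric.ball (0 : ℂ) 1, ‖p.eval c‖ ^ 2 ≤
      ∫ c in Metric.ball (0 : ℂ) 1, n ^ 3 * M ^ 2 * A ^ 2 * fsum x (fun R => ‖ev R f‖ ^ 2) c := by
    refine setIntegral_mono_on_ae ?_ ((hint.const_mul _).integrableOn) Metric.isOpen_ball.measurableSet ?_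
    · have hcont : Continuous (fun c : ℂ => ‖p.eval c‖ ^ 2) := by fun_prop
      exact (hcont.continuousOn.integrableOn_compact (isCompact_closedBall 0 1)).mono_set
        Metric.ball_subset_closedBall
    · have hbad : ({a : ℂ | ∃ R : Place ℂ Φ, 1 ≤ R.ord (x - algebraMap ℂ Φ a) ∧
            R.ord (x - algebraMap ℂ Φ a) ≠ 1} ∪
          ({a : ℂ | ∃ R : Place ℂ Φ, 1 ≤ R.ord (x - algebraMap ℂ Φ a) ∧ f ∉ R.ge 0} ∪
          ⋃ i, {a : ℂ | ∃ R : Place ℂ Φ, 1 ≤ R.ord (x - algebraMap ℂ Φ a) ∧ u i ∉ R.ge 0})).Finite :=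
        (alo_ram hx).union ((alo_fin1 x f).union (Set.finite_iUnion (fun i => alo_fin1 x (u i))))
      have hae := (hbad.measure_zero volume)
      rw [← compl_compl (_ ∪ _), ← mem_ae_iff] at hae
      filter_upwards [hae] with a ha hab
      rw [mem_ball_zero_iff] at hab
      rw [Set.mem_compl_iff, Set.mem_union, Set.mem_union, Set.mem_iUnion, not_or, not_or,
        not_exists] at ha
      exact alo_pt hx hn u c hc A hA M hcA hcM f j p hp a hab ha.1 ha.2.1 (fun i => ha.2.2 i)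
  have h1 := (adk p s).trans hball
  rw [integral_const_mul] at h1
  have h2 : ∫ c in Metric.ball (0 : ℂ) 1, fsum x (fun R => ‖ev R f‖ ^ 2) c ≤
      ∫ c, fsum x (fun R => ‖ev R f‖ ^ 2) c :=
    setIntegral_le_integral hint (Filter.Eventually.of_forall hnn)
  have hM0 : (0 : ℝ) < M := by
    have : 0 < M := by omega
    exact_mod_cast this
  have h3 : 1 / (M : ℝ) ≤ Real.pi / (s + 1) := by
    have h4 : ((s : ℝ) + 1) ≤ M := by exact_mod_cast hs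
    have h5 : (0 : ℝ) < (s : ℝ) + 1 := by positivity
    rw [div_le_div_iff₀ hM0 h5]
    have h6 := Real.pi_gt_three
    nlinarith
  have h4 : 1 / (M : ℝ) * ‖p.coeff s‖ ^ 2 ≤
      n ^ 3 * M ^ 2 * A ^ 2 * ∫ c, fsum x (fun R => ‖ev R f‖ ^ 2) c := by
    refine (mul_le_mul_of_nonneg_right h3 (sq_nonneg _)).trans (h1.trans ?_)
    exact mul_le_mul_of_nonneg_left h2 (by positivity)
  have h5 : ‖p.coeff s‖ ^ 2 = M * (1 / (M : ℝ) * ‖p.coeff s‖ ^ 2) := by field_simp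
  rw [h5]
  calc (M : ℝ) * (1 / (M : ℝ) * ‖p.coeff s‖ ^ 2) ≤
        M * (n ^ 3 * M ^ 2 * A ^ 2 * ∫ c, fsum x (fun R => ‖ev R f‖ ^ 2) c) :=
        mul_le_mul_of_nonneg_left h4 hM0.le
    _ = n ^ 3 * M ^ 3 * A ^ 2 * ∫ c, fsum x (fun R => ‖ev R f‖ ^ 2) c := by ring

end Pool.Agent.HFB
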