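import Pool.Agent.HFB.ACV
import Pool.Agent.HFB.AIT

/-!
# HFB / AND: the L² scalar product does not depend on the function

`and_self`: for a regular differential `f dx`: `∫ fsum x |f|²` is the real number `(∫⁻ ofReal …).toReal` (`integral_eq_lintegral_of_nonneg_ae`; `ENNReal.ofReal` of a finite sum), so ACV gives the equality; note `f dx = (f · der hy x) dy` (`D_eq_der_smul`) so `f · der hy x` is regular with respect to `y`.
`and_ip`: polarisation `z conj w = (1/4) ∑_{k<4} i^k |z + i^k w|²` pointwise (for the values `ev R`, outside the finitely many `c` over which `f` or `h` has a pole), integrability AIT.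
-/

namespace Pool.Agent.HFB

open Polynomial Pool.Agent.Helper11 Pool.Agent.ESH IntermediateField MeasureTheory
open scoped KaehlerDifferential

variable {Φ : Type*} [Field Φ] [Algebra ℂ Φ] [FunField ℂ Φ]


omit [FunField ℂ Φ] in
private lemma and_x_ne {x : Φ} (hx : Transcendental ℂ x) (c : ℂ) : x - algebraMap ℂ Φ c ≠ 0 := by
  intro h
  apply hx
  rw [sub_eq_zero.1 h]
  exact isAlgebraic_algebraMap c

private lemma and_over {x : Φ} (hx : Transcendental ℂ x) (c : ℂ) (R : Place ℂ Φ) :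
    1 ≤ R.ord (x - algebraMap ℂ Φ c) ↔ x ∈ R.ge 0 ∧ ev R x = c := by
  constructor
  · intro h
    have h1 : x - algebraMap ℂ Φ c ∈ R.ge 1 := R.mem_ge_of_le h
    refine ⟨?_, evl_eq R h1⟩
    have h2 := add_mem (R.ge_anti (by norm_num : (0 : ℤ) ≤ 1) h1) (R.algebraMap_mem_ge c)
    simpa using h2
  · rintro ⟨h1, h2⟩
    have h3 := evl_mem R h1
    rw [h2] at h3
    exact R.le_ord_of_mem h3 (and_x_ne hx c)

private lemma and_fin (x : Φ) (c : ℂ) :
    {R : Place ℂ Φ | 1 ≤ R.ord (x - algebraMap ℂ Φ c)}.Finite := by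
  refine (finite_pos_ord (k := ℂ) (x - algebraMap ℂ Φ c)).subset ?_
  intro R hR
  have : 1 ≤ R.ord (x - algebraMap ℂ Φ c) := hR
  show 0 < R.ord (x - algebraMap ℂ Φ c)
  omega

private lemma and_fsum {E : Type*} [AddCommMonoid E] (x : Φ) (F : Place ℂ Φ → E) (c : ℂ) :
    fsum x F c = ∑ R ∈ (and_fin x c).toFinset, F R := by
  unfold fsum
  rw [finsum_eq_sum_of_support_subset (s := (and_fin x c).toFinset)]
  · refine Finset.sum_congr rfl (fun R hR => ?_)
    rw [Set.Finite.mem_toFinset] at hR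
    exact if_pos hR
  · intro R hR
    rw [Finset.mem_coe, Set.Finite.mem_toFinset]
    by_contra hcon
    exact hR (if_neg hcon)

private lemma and_nonneg (x g : Φ) (c : ℂ) : 0 ≤ fsum x (fun R => ‖ev R g‖ ^ 2) c := by
  rw [and_fsum]
  exact Finset.sum_nonneg (fun R _ => by positivity)

private lemma and_ofReal (x g : Φ) (c : ℂ) : ENNReal.ofReal (fsum x (fun R => ‖ev R g‖ ^ 2) c) =
    fsum x (fun R => ENNReal.ofReal (‖ev R g‖ ^ 2)) c := by
  rw [and_fsum, and_fsum, ENNReal.ofReal_sum_of_nonneg (fun R _ => by positivity)]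

private lemma and_reg_y {x y : Φ} (hy : Transcendental ℂ y) {f : Φ}
    (hf : ∀ R : Place ℂ Φ, 0 ≤ R.ordDiff (f • KaehlerDifferential.D ℂ Φ x)) (R : Place ℂ Φ) :
    0 ≤ R.ordDiff ((f * der hy x) • KaehlerDifferential.D ℂ Φ y) := by
  have h := hf R
  rw [D_eq_der_smul hy x, smul_smul] at h
  exact h

private lemma and_reg_iff (x f : Φ) (R : Place ℂ Φ) :
    0 ≤ R.ordDiff (f • KaehlerDifferential.D ℂ Φ x) ↔ f * R.dv x ∈ R.ge 0 := by
  rw [R.ordDiff_smul_D]
  constructor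
  · intro h; exact R.mem_ge_of_le h
  · intro h
    by_cases h0 : f * R.dv x = 0
    · rw [h0, R.ord_zero]
    · exact R.le_ord_of_mem h h0

private lemma and_reg_add {x f h : Φ} (a : ℂ)
    (hf : ∀ R : Place ℂ Φ, 0 ≤ R.ordDiff (f • KaehlerDifferential.D ℂ Φ x))
    (hh : ∀ R : Place ℂ Φ, 0 ≤ R.ordDiff (h • KaehlerDifferential.D ℂ Φ x)) (R : Place ℂ Φ) :
    0 ≤ R.ordDiff ((f + algebraMap ℂ Φ a * h) • KaehlerDifferential.D ℂ Φ x) := by
  rw [and_reg_iff]
  have h1 := (and_reg_iff x f R).1 (hf R)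
  have h2 := R.mul_mem_ge (R.algebraMap_mem_ge a) ((and_reg_iff x h R).1 (hh R))
  rw [add_zero] at h2
  have h3 := add_mem h1 h2
  have h4 : f * R.dv x + algebraMap ℂ Φ a * (h * R.dv x) = (f + algebraMap ℂ Φ a * h) * R.dv x := by ring
  rwa [h4] at h3

theorem and_self {x y : Φ} (hx : Transcendental ℂ x) (hy : Transcendental ℂ y) (f : Φ)
    (hf : ∀ R : Place ℂ Φ, 0 ≤ R.ordDiff (f • KaehlerDifferential.D ℂ Φ x)) :
    ∫ c, fsum x (fun R => ‖ev R f‖ ^ 2) c = ∫ c, fsum y (fun R => ‖ev R (f * der hy x)‖ ^ 2) c := by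
  have h1 := (ait hx f f hf hf).2
  have h2 := (ait hy (f * der hy x) (f * der hy x) (and_reg_y hy hf) (and_reg_y hy hf)).2
  rw [integral_eq_lintegral_of_nonneg_ae (Filter.Eventually.of_forall (fun c => and_nonneg x f c))
    h1.aestronglyMeasurable, integral_eq_lintegral_of_nonneg_ae
    (Filter.Eventually.of_forall (fun c => and_nonneg y (f * der hy x) c)) h2.aestronglyMeasurable]
  congr 1
  simp only [and_ofReal]
  exact acv hx hy f

private lemma and_pol (z w : ℂ) : z * (starRingEnd ℂ) w =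
    (1 / 4) * ∑ k ∈ Finset.range 4, Complex.I ^ k * ((‖z + Complex.I ^ k * w‖ ^ 2 : ℝ) : ℂ) := by
  have h : ∀ u : ℂ, ((‖u‖ ^ 2 : ℝ) : ℂ) = u * (starRingEnd ℂ) u := by
    intro u
    rw [Complex.mul_conj, Complex.normSq_eq_norm_sq]
  simp only [h, Finset.sum_range_succ, Finset.sum_range_zero, map_add, map_mul, map_pow, Complex.conj_I, zero_add,
    pow_zero, pow_one, one_mul]
  have hI2 : Complex.I ^ 2 = -1 := Complex.I_sq
  have hI3 : Complex.I ^ 3 = -Complex.I := by rw [pow_succ, hI2]; ring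
  have hI2' : (-Complex.I) ^ 2 = -1 := by rw [neg_sq, hI2]
  have hI3' : (-Complex.I) ^ 3 = Complex.I := by rw [pow_succ, hI2']; ring
  rw [hI2, hI3, hI2', hI3']
  ring_nf
  rw [hI2]
  ring

private lemma and_ip_pol {x : Φ} (hx : Transcendental ℂ x) (f h : Φ)
    (hf : ∀ R : Place ℂ Φ, 0 ≤ R.ordDiff (f • KaehlerDifferential.D ℂ Φ x))
    (hh : ∀ R : Place ℂ Φ, 0 ≤ R.ordDiff (h • KaehlerDifferential.D ℂ Φ x)) :
    ipx x f h = (1 / 4) * ∑ k ∈ Finset.range 4, Complex.I ^ k *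
      ((∫ c, fsum x (fun R => ‖ev R (f + algebraMap ℂ Φ (Complex.I ^ k) * h)‖ ^ 2) c : ℝ) : ℂ) := by
  classical
  have hZ : ((fun R : Place ℂ Φ => ev R x) '' ({R : Place ℂ Φ | 0 < R.ord f⁻¹} ∪ {R : Place ℂ Φ | 0 < R.ord h⁻¹})).Finite :=
    ((finite_pos_ord (k := ℂ) f⁻¹).union (finite_pos_ord (k := ℂ) h⁻¹)).image _
  have hae : ∀ᵐ c : ℂ, c ∉ ((fun R : Place ℂ Φ => ev R x) '' ({R : Place ℂ Φ | 0 < R.ord f⁻¹} ∪
      {R : Place ℂ Φ | 0 < R.ord h⁻¹})) := hZ.countable.ae_notMem _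
  have hpt : ∀ c : ℂ, c ∉ ((fun R : Place ℂ Φ => ev R x) '' ({R : Place ℂ Φ | 0 < R.ord f⁻¹} ∪
      {R : Place ℂ Φ | 0 < R.ord h⁻¹})) →
      fsum x (fun R => ev R f * (starRingEnd ℂ) (ev R h)) c = (1 / 4) * ∑ k ∈ Finset.range 4, Complex.I ^ k *
      ((fsum x (fun R => ‖ev R (f + algebraMap ℂ Φ (Complex.I ^ k) * h)‖ ^ 2) c : ℝ) : ℂ) := by
    intro c hc
    have hge : ∀ R ∈ (and_fin x c).toFinset, f ∈ R.ge 0 ∧ h ∈ R.ge 0 := by
      intro R hR
      rw [Set.Finite.mem_toFinset] at hR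
      have hR2 := ((and_over hx c R).1 hR).2
      constructor
      · by_contra hcon
        apply hc
        refine ⟨R, Or.inl ?_, hR2⟩
        show 0 < R.ord f⁻¹
        rw [R.ord_inv]
        have : ¬ 0 ≤ R.ord f := fun h => hcon (R.mem_ge_of_le h)
        omega
      · by_contra hcon
        apply hc
        refine ⟨R, Or.inr ?_, hR2⟩
        show 0 < R.ord h⁻¹
        rw [R.ord_inv]
        have : ¬ 0 ≤ R.ord h := fun h => hcon (R.mem_ge_of_le h)
        omega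
    simp only [and_fsum, Complex.ofReal_sum, Finset.mul_sum]
    rw [Finset.sum_comm]
    refine Finset.sum_congr rfl (fun R hR => ?_)
    obtain ⟨h1, h2⟩ := hge R hR
    rw [and_pol (ev R f) (ev R h), Finset.mul_sum]
    refine Finset.sum_congr rfl (fun k _ => ?_)
    have h3 : ev R (f + algebraMap ℂ Φ (Complex.I ^ k) * h) = ev R f + Complex.I ^ k * ev R h := by
      have h4 := R.mul_mem_ge (R.algebraMap_mem_ge (Complex.I ^ k)) h2
      rw [add_zero] at h4
      rw [evl_add R h1 h4, evl_mul R (R.algebraMap_mem_ge _) h2, evl_const]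
    rw [h3]
  unfold ipx
  rw [integral_congr_ae (g := fun c => (1 / 4 : ℂ) * ∑ k ∈ Finset.range 4, Complex.I ^ k *
      ((fsum x (fun R => ‖ev R (f + algebraMap ℂ Φ (Complex.I ^ k) * h)‖ ^ 2) c : ℝ) : ℂ))
      (hae.mono (fun c hc => hpt c hc))]
  rw [integral_const_mul]
  congr 1
  have hint : ∀ k, Integrable (fun c => fsum x (fun R => ‖ev R (f + algebraMap ℂ Φ (Complex.I ^ k) * h)‖ ^ 2) c) :=
    fun k => (ait hx _ _ (and_reg_add (Complex.I ^ k) hf hh) (and_reg_add (Complex.I ^ k) hf hh)).2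
  rw [integral_finsetSum]
  · refine Finset.sum_congr rfl (fun k _ => ?_)
    rw [integral_const_mul, integral_complex_ofReal]
  · exact fun k _ => ((hint k).ofReal).const_mul _

theorem and_ip {x y : Φ} (hx : Transcendental ℂ x) (hy : Transcendental ℂ y) (f h : Φ)
    (hf : ∀ R : Place ℂ Φ, 0 ≤ R.ordDiff (f • KaehlerDifferential.D ℂ Φ x))
    (hh : ∀ R : Place ℂ Φ, 0 ≤ R.ordDiff (h • KaehlerDifferential.D ℂ Φ x)) :
    ipx x f h = ipx y (f * der hy x) (h * der hy x) := by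
  rw [and_ip_pol hx f h hf hh, and_ip_pol hy _ _ (and_reg_y hy hf) (and_reg_y hy hh)]
  congr 1
  refine Finset.sum_congr rfl (fun k _ => ?_)
  rw [and_self hx hy _ (and_reg_add (Complex.I ^ k) hf hh)]
  have : (f + algebraMap ℂ Φ (Complex.I ^ k) * h) * der hy x =
      f * der hy x + algebraMap ℂ Φ (Complex.I ^ k) * (h * der hy x) := by ring
  rw [this]

end Pool.Agent.HFB
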