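import Pool.Agent.HFB.CHA
import Pool.Agent.HFB.CHJ

/-!
# HFB / CHI: regular differentials are integral at almost all places

Take any transcendental `x`.  CHA for `x` and for `x⁻¹`: `ω = ∑ b_i dc_i` with `b_i, c_i` without poles at the finite values of `x`, and `ω = ∑ b'_i dc'_i` with `b'_i, c'_i` without poles at the finite values of `x⁻¹`.  `chf`: `S` = union of the finite sets of `chj_fin` for all of these.  Every valuation ring `W` contains `x` or `x⁻¹`.
`chs`: `c` with `c b_i, c c_i ∈ W` for all `i` (product of the constants of `chj_scale`, both charts; `a c ≤ 1`): `c² ω = ∑ (c b_i) d(c c_i)`.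
`lne`: diagonal matrix of the constants of `chs`.  `lfs`: the identity matrix belongs to the set, `log 1 = 0`; `le_csSup`.
-/

namespace Pool.Agent.HFB

open Polynomial Pool.Agent.Helper11 Pool.Agent.ESH IntermediateField
open scoped KaehlerDifferential

variable {k Φ : Type*} [Field k] [Field Φ] [Algebra k Φ] [FunField k Φ] [CharZero k] [IsAlgClosed k]

omit [CharZero k] [IsAlgClosed k] [FunField k Φ] in
private theorem tr_inv {x : Φ} (hx : Transcendental k x) : Transcendental k x⁻¹ := by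
  intro h
  apply hx
  have := h.inv
  rwa [inv_inv] at this

private theorem chart_fin {x : Φ} (hx : Transcendental k x) (ω : Ω[Φ⁄k]) (hω : ∀ R : Place k Φ, 0 ≤ R.ordDiff ω) :
    ∃ S : Finset k, ∀ a : AbsoluteValue k ℝ, IsNonarchimedean a → (∀ s ∈ S, a s ≤ 1) →
      ∀ W : ValuationSubring Φ, (∀ c : k, algebraMap k Φ c ∈ W ↔ a c ≤ 1) → x ∈ W → KInt k W ω := by
  classical
  obtain ⟨m, b, c, hbc, hsum⟩ := cha hx ω (fun R _ => hω R)
  choose S1 hS1 using fun i => chj_fin hx (b i) (fun R hR => (hbc i R hR).1)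
  choose S2 hS2 using fun i => chj_fin hx (c i) (fun R hR => (hbc i R hR).2)
  refine ⟨Finset.univ.biUnion S1 ∪ Finset.univ.biUnion S2, fun a ha hS W hW hxW => ⟨m, b, c, fun i => ⟨?_, ?_⟩, hsum⟩⟩
  · refine hS1 i a ha (fun s hs => hS s ?_) W hW hxW
    exact Finset.mem_union_left _ (Finset.mem_biUnion.2 ⟨i, Finset.mem_univ _, hs⟩)
  · refine hS2 i a ha (fun s hs => hS s ?_) W hW hxW
    exact Finset.mem_union_right _ (Finset.mem_biUnion.2 ⟨i, Finset.mem_univ _, hs⟩)

private theorem chart_scale {x : Φ} (hx : Transcendental k x) (ω : Ω[Φ⁄k]) (hω : ∀ R : Place k Φ, 0 ≤ R.ordDiff ω)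
    (a : AbsoluteValue k ℝ) (ha : IsNonarchimedean a) :
    ∃ c : k, c ≠ 0 ∧ a c ≤ 1 ∧ ∀ e : k, a e ≤ 1 →
      ∀ W : ValuationSubring Φ, (∀ c : k, algebraMap k Φ c ∈ W ↔ a c ≤ 1) → x ∈ W → KInt k W ((e * c) • ω) := by
  classical
  obtain ⟨m, b, c, hbc, hsum⟩ := cha hx ω (fun R _ => hω R)
  choose e1 he10 he11 he12 using fun i => chj_scale hx (b i) (fun R hR => (hbc i R hR).1) a ha
  choose e2 he20 he21 he22 using fun i => chj_scale hx (c i) (fun R hR => (hbc i R hR).2) a ha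
  have hprod : ∀ (s : Finset (Fin m)) (e : Fin m → k), (∀ i, a (e i) ≤ 1) → a (∏ i ∈ s, e i) ≤ 1 := by
    intro s e he
    rw [map_prod]
    exact Finset.prod_le_one (fun i _ => a.nonneg _) (fun i _ => he i)
  refine ⟨(∏ i, e1 i) * (∏ i, e2 i), mul_ne_zero (Finset.prod_ne_zero_iff.2 fun i _ => he10 i)
    (Finset.prod_ne_zero_iff.2 fun i _ => he20 i), ?_, ?_⟩
  · rw [map_mul]
    exact mul_le_one₀ (hprod _ _ he11) (a.nonneg _) (hprod _ _ he21)
  · intro e he W hW hxW
    have key : ∀ (f : Fin m → k) (y : Fin m → Φ), (∀ i, a (f i) ≤ 1) → (∀ i, algebraMap k Φ (f i) * y i ∈ W) →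
        ∀ i, algebraMap k Φ (∏ j, f j) * y i ∈ W := by
      intro f y hf hy i
      rw [← Finset.mul_prod_erase Finset.univ f (Finset.mem_univ i), map_mul, mul_comm (algebraMap k Φ (f i)), mul_assoc]
      exact W.mul_mem _ _ ((hW _).2 (hprod _ _ hf)) (hy i)
    refine ⟨m, fun i => algebraMap k Φ e * (algebraMap k Φ (∏ j, e1 j) * b i),
      fun i => algebraMap k Φ (∏ j, e2 j) * c i, fun i => ⟨?_, ?_⟩, ?_⟩
    · exact W.mul_mem _ _ ((hW _).2 he) (key e1 b he11 (fun i => he12 i W hW hxW) i)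
    · exact key e2 c he21 (fun i => he22 i W hW hxW) i
    · rw [hsum, Finset.smul_sum]
      refine Finset.sum_congr rfl (fun i _ => ?_)
      beta_reduce
      rw [← Algebra.smul_def (∏ j, e2 j) (c i), Derivation.map_smul, ← algebraMap_smul Φ (∏ j, e2 j), smul_smul,
        ← algebraMap_smul Φ (e * _), smul_smul]
      congr 1
      rw [map_mul, map_mul]
      ring

theorem chf (ω : Ω[Φ⁄k]) (hω : ∀ R : Place k Φ, 0 ≤ R.ordDiff ω) :
    ∃ S : Finset k, ∀ a : AbsoluteValue k ℝ, IsNonarchimedean a → (∀ s ∈ S, a s ≤ 1) → IntDiff a ω := by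
  classical
  obtain ⟨x, hx⟩ := FunField.exists_transcendental (k := k) (L := Φ)
  obtain ⟨S1, h1⟩ := chart_fin hx ω hω
  obtain ⟨S2, h2⟩ := chart_fin (tr_inv hx) ω hω
  refine ⟨S1 ∪ S2, fun a ha hS => ⟨hω, fun W hW => ?_⟩⟩
  rcases W.mem_or_inv_mem x with hxW | hxW
  · exact h1 a ha (fun s hs => hS s (Finset.mem_union_left _ hs)) W hW.base hxW
  · exact h2 a ha (fun s hs => hS s (Finset.mem_union_right _ hs)) W hW.base hxW

theorem chs (ω : Ω[Φ⁄k]) (hω : ∀ R : Place k Φ, 0 ≤ R.ordDiff ω) (a : AbsoluteValue k ℝ)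
    (ha : IsNonarchimedean a) : ∃ c : k, c ≠ 0 ∧ IntDiff a (c • ω) := by
  classical
  obtain ⟨x, hx⟩ := FunField.exists_transcendental (k := k) (L := Φ)
  obtain ⟨c1, h10, h11, h1⟩ := chart_scale hx ω hω a ha
  obtain ⟨c2, h20, h21, h2⟩ := chart_scale (tr_inv hx) ω hω a ha
  refine ⟨c1 * c2, mul_ne_zero h10 h20, ⟨fun R => ?_, fun W hW => ?_⟩⟩
  · by_cases h0 : ω = 0
    · rw [h0, smul_zero, ← h0]
      exact hω R
    · have hc : algebraMap k Φ (c1 * c2) ≠ 0 := by simpa using mul_ne_zero h10 h20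
      rw [← algebraMap_smul Φ (c1 * c2), R.ordDiff_smul hc h0, R.ord_algebraMap, zero_add]
      exact hω R
  · rcases W.mem_or_inv_mem x with hxW | hxW
    · rw [mul_comm]
      exact h1 c2 h21 W hW.base hxW
    · exact h2 c1 h11 W hW.base hxW

theorem lne {ι : Type*} [Fintype ι] [DecidableEq ι] (ω : ι → Ω[Φ⁄k])
    (hω : ∀ i, ∀ R : Place k Φ, 0 ≤ R.ordDiff (ω i)) (a : AbsoluteValue k ℝ) (ha : IsNonarchimedean a) :
    {r : ℝ | ∃ A : Matrix ι ι k, A.det ≠ 0 ∧ (∀ i, IntDiff a (∑ j, A i j • ω j)) ∧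
      r = Real.log (a A.det)}.Nonempty := by
  classical
  choose c hc0 hc using fun i => chs (ω i) (hω i) a ha
  refine ⟨Real.log (a (Matrix.diagonal c).det), Matrix.diagonal c, ?_, fun i => ?_, rfl⟩
  · rw [Matrix.det_diagonal]
    exact Finset.prod_ne_zero_iff.2 fun i _ => hc0 i
  · have h1 : ∑ j, Matrix.diagonal c i j • ω j = c i • ω i := by
      rw [Finset.sum_eq_single i]
      · rw [Matrix.diagonal_apply_eq]
      · intro j _ hj
        rw [Matrix.diagonal_apply_ne _ (Ne.symm hj), zero_smul]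
      · intro h
        exact absurd (Finset.mem_univ i) h
    rw [h1]
    exact hc i

theorem lfs {ι : Type*} [Fintype ι] [DecidableEq ι] (ω : ι → Ω[Φ⁄k]) (a : AbsoluteValue k ℝ)
    (h : ∀ i, IntDiff a (ω i)) (hb : BddAbove {r : ℝ | ∃ A : Matrix ι ι k, A.det ≠ 0 ∧
      (∀ i, IntDiff a (∑ j, A i j • ω j)) ∧ r = Real.log (a A.det)}) : 0 ≤ locF a ω := by
  classical
  refine le_csSup hb ⟨1, by simp, fun i => ?_, by simp⟩
  have h1 : ∑ j, (1 : Matrix ι ι k) i j • ω j = ω i := by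
    rw [Finset.sum_eq_single i]
    · rw [Matrix.one_apply_eq, one_smul]
    · intro j _ hj
      rw [Matrix.one_apply_ne (Ne.symm hj), zero_smul]
    · intro h
      exact absurd (Finset.mem_univ i) h
  rw [h1]
  exact h i

end Pool.Agent.HFB
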