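import Pool.Agent.HFB.DefsA

/-!
# HFB / COH: symmetric cocycles of a separable extension are coboundaries

Let `e_i` be a basis of `L/k`, `e_i'` the dual basis for the trace form (`Algebra.traceForm_nondegenerate`, `BilinForm.dualBasis`).  `∑ e_i e_i' = 1`: for all `a`, `Tr(a ∑ e_i e_i') = ∑ Tr(a e_i e_i')` is the trace of the multiplication by `a`, i.e. `Tr a`.  And `∑ (b e_i) ⊗ e_i' = ∑ e_i ⊗ (b e_i')` because
`b e_i = ∑_j Tr(b e_i e_j') e_j` and `b e_j' = ∑_i Tr(b e_j' e_i) e_i'`.  Put `θ(a) = ∑ μ(a, e_i) e_i'`.  The cocycle identity with `c = e_i`, multiplied by `e_i'` and summed: `a θ(b) - θ(ab) + ∑ μ(a, b e_i) e_i' - μ(a,b) = 0`, and `∑ μ(a, b e_i) e_i' = ∑ μ(a, e_i) b e_i' = b θ(a)`.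
(Symmetry of `μ` is not even needed.)
-/

namespace Pool.Agent.HFB

open Polynomial

theorem coh {k L : Type*} [Field k] [Field L] [Algebra k L] [FiniteDimensional k L]
    [Algebra.IsSeparable k L] (μ : L →ₗ[k] L →ₗ[k] L)
    (hc : ∀ a b c, a * μ b c - μ (a * b) c + μ a (b * c) - μ a b * c = 0) :
    ∃ θ : L →ₗ[k] L, ∀ a b, μ a b = a * θ b + b * θ a - θ (a * b) := by
  classical
  let e := Module.finBasis k L
  have hB : (Algebra.traceForm k L).Nondegenerate := traceForm_nondegenerate k L
  let f := LinearMap.BilinForm.dualBasis (Algebra.traceForm k L) hB e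
  have hf : ∀ x i, f.repr x i = Algebra.trace k L (x * e i) := fun x i => by
    have := LinearMap.BilinForm.dualBasis_repr_apply hB e x i
    rw [this, Algebra.traceForm_apply]
  have he : ∀ x i, e.repr x i = Algebra.trace k L (f i * x) := by
    intro x i
    have h1 : (e.coord i : L →ₗ[k] k) = (Algebra.traceForm k L) (f i) := by
      refine e.ext fun j => ?_
      have := LinearMap.BilinForm.apply_dualBasis_left hB e i j
      rw [this, Module.Basis.coord_apply, Module.Basis.repr_self, Finsupp.single_apply]
    have h2 := congrArg (fun g : L →ₗ[k] k => g x) h1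
    simpa [Algebra.traceForm_apply] using h2
  have h1 : ∑ i, e i * f i = 1 := by
    have key : ∀ a : L, Algebra.trace k L (a * (∑ i, e i * f i - 1)) = 0 := by
      intro a
      have h2 : Algebra.trace k L a = ∑ i, Algebra.trace k L (f i * (a * e i)) := by
        rw [Algebra.trace_apply, LinearMap.trace_eq_matrix_trace k e, Matrix.trace]
        refine Finset.sum_congr rfl fun i _ => ?_
        rw [Matrix.diag_apply, LinearMap.toMatrix_apply, he]
        rfl
      have h3 : a * (∑ i, e i * f i - 1) = ∑ i, f i * (a * e i) - a := by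
        rw [mul_sub, Finset.mul_sum, mul_one]
        congr 1
        exact Finset.sum_congr rfl fun i _ => by ring
      rw [h3, map_sub, map_sum, ← h2, sub_self]
    have h4 : (∑ i, e i * f i - 1 : L) = 0 := by
      refine hB.2 _ fun a => ?_
      rw [Algebra.traceForm_apply]
      exact key a
    exact sub_eq_zero.1 h4
  let θ : L →ₗ[k] L := ∑ i, (LinearMap.mulRight k (f i)).comp (μ.flip (e i))
  have hθ : ∀ a, θ a = ∑ i, μ a (e i) * f i := by
    intro a
    simp [θ, LinearMap.sum_apply]
  refine ⟨θ, fun a b => ?_⟩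
  have h5 : ∑ i, μ a (b * e i) * f i = b * θ a := by
    have h6 : ∀ i, μ a (b * e i) = ∑ j, Algebra.trace k L (f j * (b * e i)) • μ a (e j) := by
      intro i
      conv_lhs => rw [← e.sum_repr (b * e i), map_sum]
      refine Finset.sum_congr rfl fun j _ => ?_
      rw [map_smul, he]
    have h7 : ∀ j, b * f j = ∑ i, Algebra.trace k L (f j * (b * e i)) • f i := by
      intro j
      conv_lhs => rw [← f.sum_repr (b * f j)]
      refine Finset.sum_congr rfl fun i _ => ?_
      rw [hf]
      congr 2
      ring
    calc ∑ i, μ a (b * e i) * f i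
        = ∑ i, ∑ j, (Algebra.trace k L (f j * (b * e i)) • μ a (e j)) * f i := by
          refine Finset.sum_congr rfl fun i _ => ?_
          rw [h6, Finset.sum_mul]
      _ = ∑ j, ∑ i, (Algebra.trace k L (f j * (b * e i)) • μ a (e j)) * f i := Finset.sum_comm
      _ = ∑ j, μ a (e j) * (b * f j) := by
          refine Finset.sum_congr rfl fun j _ => ?_
          rw [h7, Finset.mul_sum]
          refine Finset.sum_congr rfl fun i _ => ?_
          rw [smul_mul_assoc, mul_smul_comm]
      _ = b * θ a := by
          rw [hθ, Finset.mul_sum]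
          exact Finset.sum_congr rfl fun j _ => by ring
  have h8 : ∑ i, (a * μ b (e i) - μ (a * b) (e i) + μ a (b * e i) - μ a b * e i) * f i = 0 :=
    Finset.sum_eq_zero fun i _ => by rw [hc, zero_mul]
  have h9 : ∑ i, (a * μ b (e i) - μ (a * b) (e i) + μ a (b * e i) - μ a b * e i) * f i
      = a * θ b - θ (a * b) + b * θ a - μ a b := by
    have : ∀ i, (a * μ b (e i) - μ (a * b) (e i) + μ a (b * e i) - μ a b * e i) * f i
        = a * (μ b (e i) * f i) - μ (a * b) (e i) * f i + μ a (b * e i) * f i
          - μ a b * (e i * f i) := fun i => by ring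
    simp only [this, Finset.sum_sub_distrib, Finset.sum_add_distrib, ← Finset.mul_sum]
    rw [h5, h1, ← hθ, ← hθ, mul_one]
  rw [h9] at h8
  linear_combination -h8

end Pool.Agent.HFB
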