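import Pool.Agent.HFB.DefsA

/-!
# HFB / LIF: lifting points along a generically finite map

`L` the fraction field, `φ_j = p_j / u`, algebraically independent (`hφ`).  `R₁ = K[φ, 1 / qs(φ)] ⊆ L` is isomorphic to the localisation of the polynomial ring at `qs`, so `φ_j ↦ a_j` extends to `ε : R₁ → K` (`eval a qs ≠ 0`).  `R₂ = R₁[X_i (i ∈ ι), 1 / (u q)] ⊆ L` is integral over `R₁`: each
generator is a root of a polynomial over `K[φ]` whose leading coefficient `lc(φ)` divides `qs(φ)`, so is invertible in `R₁`.  There is a prime ideal `𝔓` of `R₂` above `ker ε` (`Ideal.exists_ideal_over_prime_of_isIntegral` / lying over), `R₂ / 𝔓` is a domain integral over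
`R₁ / ker ε = K`, hence `= K` (`K` algebraically closed: `IsAlgClosed.algebraMap_bijective_of_isIntegral`).  `g_i` = image of `X_i`.  `1 / (u q) ∈ R₂` gives `u(g) q(g) ≠ 0`, and `p_j = φ_j u` gives `p_j(g) = a_j u(g)`.
-/

namespace Pool.Agent.HFB

open Polynomial

private theorem lif_ext {R L K : Type*} [CommRing R] [Field L] [Field K] [IsAlgClosed K]
    (f : R →+* L) (hf : Function.Injective f) (e : R →+* K) (i : K →+* R) (hi : ∀ c, e (i c) = c) :
    ∃ (S : Subring L) (ψ : S →+* K), (∀ r (h : f r ∈ S), ψ ⟨f r, h⟩ = e r) ∧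
      ∀ x : L, (∃ Q : R[X], Q.Monic ∧ Q.eval₂ f x = 0) → x ∈ S := by
  let _ : Algebra R L := f.toAlgebra
  let S := integralClosure R L
  have hsurj : Function.Surjective e := fun c => ⟨i c, hi c⟩
  have : (RingHom.ker e).IsMaximal := RingHom.ker_isMaximal_of_surjective e hsurj
  have hker : RingHom.ker (algebraMap R S) ≤ RingHom.ker e := by
    intro r hr
    have h1 : algebraMap R S r = 0 := hr
    have h2 : f r = 0 := congrArg (fun z : S => (z : L)) h1
    have h3 : r = 0 := hf (by rw [h2, map_zero])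
    rw [h3]
    exact Ideal.zero_mem _
  obtain ⟨Q, hQ, hQm⟩ := Ideal.exists_ideal_over_maximal_of_isIntegral (S := S) (RingHom.ker e) hker
  let j : K →+* S ⧸ Q := ((Ideal.Quotient.mk Q).comp (algebraMap R S)).comp i
  have hj : ∀ r, Ideal.Quotient.mk Q (algebraMap R S r) = j (e r) := by
    intro r
    change Ideal.Quotient.mk Q (algebraMap R S r) = Ideal.Quotient.mk Q (algebraMap R S (i (e r)))
    rw [Ideal.Quotient.eq, ← map_sub]
    have : r - i (e r) ∈ RingHom.ker e := by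
      rw [RingHom.mem_ker, map_sub, hi, sub_self]
    rw [← hQm] at this
    exact this
  have : IsDomain (S ⧸ Q) := Ideal.Quotient.isDomain Q
  have hint : j.IsIntegral := by
    intro y
    obtain ⟨s, rfl⟩ := Ideal.Quotient.mk_surjective y
    obtain ⟨P, hP, hP0⟩ := Algebra.IsIntegral.isIntegral (R := R) s
    refine ⟨P.map e, hP.map e, ?_⟩
    rw [Polynomial.eval₂_map]
    have h1 : j.comp e = (Ideal.Quotient.mk Q).comp (algebraMap R S) := by
      ext r
      exact (hj r).symm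
    rw [h1, ← Polynomial.hom_eval₂, hP0, map_zero]
  have bij := IsAlgClosed.ringHom_bijective_of_isIntegral j hint
  let E := RingEquiv.ofBijective j bij
  let ψ : S →+* K := (E.symm : S ⧸ Q →+* K).comp (Ideal.Quotient.mk Q)
  refine ⟨S.toSubring, ψ, ?_, ?_⟩
  · intro r h
    change E.symm (Ideal.Quotient.mk Q (algebraMap R S r)) = e r
    rw [hj r]
    exact E.symm_apply_apply (e r)
  · rintro x ⟨P, hP, hP0⟩
    exact ⟨P, hP, hP0⟩

private theorem lif_gen {A L K R : Type*} [CommRing A] [IsDomain A] [Field L] [Field K]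
    [IsAlgClosed K] [CommRing R] [Algebra A R] (Φ : A →+* L) (hΦ : Function.Injective Φ)
    (ev : A →+* K) (i : K →+* A) (hi : ∀ c, ev (i c) = c) (qs : A) (hq : ev qs ≠ 0)
    [IsLocalization.Away qs R] :
    ∃ (S : Subring L) (ψ : S →+* K), (∀ P (h : Φ P ∈ S), ψ ⟨Φ P, h⟩ = ev P) ∧
      ∀ x, (∃ Q : A[X], Q ≠ 0 ∧ Q.leadingCoeff ∣ qs ∧ Polynomial.eval₂ Φ x Q = 0) → x ∈ S := by
  have hqs : qs ≠ 0 := by
    rintro rfl
    exact hq (map_zero _)
  have hu1 : IsUnit (Φ qs) :=
    isUnit_iff_ne_zero.2 (fun h => hqs (hΦ (by rw [h, map_zero])))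
  have hu2 : IsUnit (ev qs) := isUnit_iff_ne_zero.2 hq
  obtain ⟨f, hf1⟩ : ∃ f : R →+* L, ∀ P, f (algebraMap A R P) = Φ P :=
    ⟨IsLocalization.Away.lift qs hu1, fun P => IsLocalization.Away.lift_eq qs hu1 P⟩
  obtain ⟨e, he1⟩ : ∃ e : R →+* K, ∀ P, e (algebraMap A R P) = ev P :=
    ⟨IsLocalization.Away.lift qs hu2, fun P => IsLocalization.Away.lift_eq qs hu2 P⟩
  have hqR : IsUnit (algebraMap A R qs) := IsLocalization.Away.algebraMap_isUnit qs
  have hf : Function.Injective f := by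
    rw [injective_iff_map_eq_zero]
    intro r hr
    obtain ⟨n, P, h⟩ := IsLocalization.Away.surj qs r
    have h1 : Φ P = 0 := by
      rw [← hf1, ← h, map_mul, hr, zero_mul]
    have h2 : P = 0 := hΦ (by rw [h1, map_zero])
    rw [h2, map_zero] at h
    exact (hqR.pow n).mul_left_eq_zero.1 h
  obtain ⟨S, ψ, hψ, hS⟩ := lif_ext f hf e ((algebraMap A R).comp i) (fun c => by
    rw [RingHom.comp_apply, he1, hi])
  refine ⟨S, ψ, ?_, ?_⟩
  · intro P h
    have h1 : f (algebraMap A R P) ∈ S := by rw [hf1]; exact h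
    have h2 := hψ _ h1
    rw [he1] at h2
    rw [← h2]
    congr 1
    exact Subtype.ext (hf1 P).symm
  · rintro x ⟨Q, hQ, hd, h0⟩
    obtain ⟨v, hv⟩ := isUnit_of_dvd_unit (map_dvd (algebraMap A R) hd) hqR
    refine hS x ⟨C ((v⁻¹ : Rˣ) : R) * Q.map (algebraMap A R), ?_, ?_⟩
    · refine monic_of_natDegree_le_of_coeff_eq_one Q.natDegree ?_ ?_
      · exact (natDegree_C_mul_le _ _).trans natDegree_map_le
      · rw [coeff_C_mul, coeff_map]
        change _ * algebraMap A R Q.leadingCoeff = 1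
        rw [← hv]
        exact v.inv_mul
    · rw [eval₂_mul, eval₂_map]
      have : f.comp (algebraMap A R) = Φ := by
        ext1 P
        exact hf1 P
      rw [this, h0, mul_zero]

private theorem lif_gen2 {ι : Type*} [Fintype ι] {K L : Type*} [Field K] [IsAlgClosed K] [Field L]
    [Algebra K L] [Algebra (MvPolynomial ι K) L] [IsScalarTower K (MvPolynomial ι K) L]
    (hinj : Function.Injective (algebraMap (MvPolynomial ι K) L)) (p : ι → MvPolynomial ι K)
    (u q : MvPolynomial ι K) (hu0 : u ≠ 0) (hq0 : q ≠ 0)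
    (φ : ι → L) (hφe : ∀ j, φ j = algebraMap (MvPolynomial ι K) L (p j) /
      algebraMap (MvPolynomial ι K) L u)
    (hφ : ∀ Q : MvPolynomial ι K, Q ≠ 0 → MvPolynomial.aeval φ Q ≠ 0) (qs : MvPolynomial ι K)
    (hX : ∀ i, ∃ Q : (MvPolynomial ι K)[X], Q ≠ 0 ∧ Q.leadingCoeff ∣ qs ∧
      Polynomial.eval₂ (MvPolynomial.aeval (R := K) φ).toRingHom
        (algebraMap (MvPolynomial ι K) L (MvPolynomial.X i)) Q = 0)
    (hw : ∃ Q : (MvPolynomial ι K)[X], Q ≠ 0 ∧ Q.leadingCoeff ∣ qs ∧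
      Polynomial.eval₂ (MvPolynomial.aeval (R := K) φ).toRingHom
        (algebraMap (MvPolynomial ι K) L (u * q))⁻¹ Q = 0)
    (a : ι → K) (ha : MvPolynomial.eval a qs ≠ 0) :
    ∃ g : ι → K, MvPolynomial.eval g u ≠ 0 ∧ MvPolynomial.eval g q ≠ 0 ∧
      ∀ j, MvPolynomial.eval g (p j) = a j * MvPolynomial.eval g u := by
  have hΦ : Function.Injective (MvPolynomial.aeval (R := K) φ).toRingHom :=
    (injective_iff_map_eq_zero _).2 fun Q h => by_contra fun h0 => hφ Q h0 h
  obtain ⟨S, ψ, hψΦ', hroot⟩ := lif_gen (R := Localization.Away qs)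
    (MvPolynomial.aeval (R := K) φ).toRingHom hΦ (MvPolynomial.eval a) MvPolynomial.C
    (fun c => MvPolynomial.eval_C c) qs ha
  have hC : ∀ c, algebraMap (MvPolynomial ι K) L (MvPolynomial.C c) =
      (MvPolynomial.aeval (R := K) φ).toRingHom (MvPolynomial.C c) := by
    intro c
    change _ = MvPolynomial.aeval (R := K) φ (MvPolynomial.C c)
    rw [MvPolynomial.aeval_C, IsScalarTower.algebraMap_apply K (MvPolynomial ι K) L,
      MvPolynomial.algebraMap_eq]
  generalize hΦd : (MvPolynomial.aeval (R := K) φ).toRingHom = Φ at *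
  have hΦX : ∀ j, Φ (MvPolynomial.X j) = φ j := by
    intro j
    rw [← hΦd]
    exact MvPolynomial.aeval_X φ j
  have hin : ∀ P, Φ P ∈ S := by
    intro P
    refine hroot _ ⟨X - C P, X_sub_C_ne_zero P, ?_, ?_⟩
    · rw [leadingCoeff_X_sub_C]
      exact one_dvd _
    · rw [eval₂_sub, eval₂_X, eval₂_C, sub_self]
  have hψΦ : ∀ P, ψ ⟨Φ P, hin P⟩ = MvPolynomial.eval a P := fun P => hψΦ' P (hin P)
  have hXm : ∀ i, algebraMap (MvPolynomial ι K) L (MvPolynomial.X i) ∈ S := fun i => hroot _ (hX i)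
  have hall : ∀ P, algebraMap (MvPolynomial ι K) L P ∈ S := by
    intro P
    induction P using MvPolynomial.induction_on with
    | C c => rw [hC]; exact hin _
    | add P Q hP hQ => rw [map_add]; exact S.add_mem hP hQ
    | mul_X P i hP => rw [map_mul]; exact S.mul_mem hP (hXm i)
  let α : MvPolynomial ι K →+* S := (algebraMap (MvPolynomial ι K) L).codRestrict S hall
  have hα : ψ.comp α = MvPolynomial.eval (fun i => ψ (α (MvPolynomial.X i))) := by
    refine MvPolynomial.ringHom_ext (fun c => ?_) (fun i => ?_)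
    · rw [MvPolynomial.eval_C, RingHom.comp_apply]
      have h1 : α (MvPolynomial.C c) = ⟨Φ (MvPolynomial.C c), hin _⟩ := Subtype.ext (hC c)
      rw [h1, hψΦ, MvPolynomial.eval_C]
    · rw [MvPolynomial.eval_X]
      rfl
  have hα' : ∀ P, MvPolynomial.eval (fun i => ψ (α (MvPolynomial.X i))) P = ψ (α P) := fun P => by
    rw [← hα]
    rfl
  have hw' := hroot _ hw
  have huq : MvPolynomial.eval (fun i => ψ (α (MvPolynomial.X i))) (u * q) ≠ 0 := by
    intro h0
    rw [hα'] at h0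
    have h1 : α (u * q) * ⟨_, hw'⟩ = 1 := by
      refine Subtype.ext ?_
      change algebraMap (MvPolynomial ι K) L (u * q) * (algebraMap (MvPolynomial ι K) L (u * q))⁻¹ = 1
      refine mul_inv_cancel₀ fun h => ?_
      exact mul_ne_zero hu0 hq0 (hinj (by rw [h, map_zero]))
    have h2 := congrArg ψ h1
    rw [map_mul, h0, zero_mul, map_one] at h2
    exact zero_ne_one h2
  rw [map_mul] at huq
  refine ⟨fun i => ψ (α (MvPolynomial.X i)), left_ne_zero_of_mul huq, right_ne_zero_of_mul huq,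
    fun j => ?_⟩
  rw [hα', hα']
  have h1 : α (p j) = ⟨Φ (MvPolynomial.X j), hin _⟩ * α u := by
    refine Subtype.ext ?_
    change algebraMap (MvPolynomial ι K) L (p j) = Φ (MvPolynomial.X j) *
      algebraMap (MvPolynomial ι K) L u
    rw [hΦX, hφe, div_mul_cancel₀]
    intro h
    exact hu0 (hinj (by rw [h, map_zero]))
  rw [h1, map_mul, hψΦ, MvPolynomial.eval_X]

theorem lif {ι : Type*} [Fintype ι] {K : Type*} [Field K] [IsAlgClosed K] (p : ι → MvPolynomial ι K)
    (u q : MvPolynomial ι K) (hu0 : u ≠ 0) (hq0 : q ≠ 0)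
    (φ : ι → FractionRing (MvPolynomial ι K))
    (hφe : ∀ j, φ j = algebraMap (MvPolynomial ι K) (FractionRing (MvPolynomial ι K)) (p j) /
      algebraMap (MvPolynomial ι K) (FractionRing (MvPolynomial ι K)) u)
    (hφ : ∀ Q : MvPolynomial ι K, Q ≠ 0 → MvPolynomial.aeval φ Q ≠ 0) (qs : MvPolynomial ι K)
    (hX : ∀ i, ∃ Q : (MvPolynomial ι K)[X], Q ≠ 0 ∧ Q.leadingCoeff ∣ qs ∧
      Polynomial.eval₂ (MvPolynomial.aeval (R := K) φ).toRingHom
        (algebraMap (MvPolynomial ι K) (FractionRing (MvPolynomial ι K)) (MvPolynomial.X i)) Q = 0)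
    (hw : ∃ Q : (MvPolynomial ι K)[X], Q ≠ 0 ∧ Q.leadingCoeff ∣ qs ∧
      Polynomial.eval₂ (MvPolynomial.aeval (R := K) φ).toRingHom
        (algebraMap (MvPolynomial ι K) (FractionRing (MvPolynomial ι K)) (u * q))⁻¹ Q = 0)
    (a : ι → K) (ha : MvPolynomial.eval a qs ≠ 0) :
    ∃ g : ι → K, MvPolynomial.eval g u ≠ 0 ∧ MvPolynomial.eval g q ≠ 0 ∧
      ∀ j, MvPolynomial.eval g (p j) = a j * MvPolynomial.eval g u :=
  lif_gen2 (IsFractionRing.injective _ _) p u q hu0 hq0 φ hφe hφ qs hX hw a ha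

end Pool.Agent.HFB
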