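import Pool.Agent.HFB.DefsA
import Pool.Agent.ESH.TWA

/-!
# HFB / REL: algebraic relations with bounded degree

`L` the fraction field, `w = u q`, `k = card ι`.  For `m` with all exponents `< N` (`N^(k+1)` of them, index set `Option ι`) the element `w^((k+1) N) r^(m none) ∏ φ_j^(m (some j))` is (the image of) a polynomial of total degree at most `(k+1) N (2 s + 1)`: `w φ_j = p_j q`, `w r = ρ`, `w`
have total degree `≤ 2 s + 1`.  These polynomials lie in the space of polynomials with all exponents `≤ (k+1) N (2s+1)`, of dimension at most `((k+1) N (2s+1) + 1)^k ≤ N^k ((s+1)(2s+1) + 1)^s`.  With `N = ((s+1)(2s+1)+2)^s ≤ tw 2 s` (`(s+1)(2s+1)+2 ≤ 2^s`, `s² ≤ 2^s`) this is `< N^(k+1)`: a non-trivial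
linear relation, i.e. `Q ≠ 0` with `∑_b (Q.coeff b)(φ) r^b = 0` (multiply by `w^(-(k+1)N)`).  `card ι = 0` is allowed.
-/

namespace Pool.Agent.HFB

open Polynomial Pool.Agent.ESH

private theorem rel_num1 (s : ℕ) (hs : 16 ≤ s) : (s + 1) * (2 * s + 1) + 2 ≤ 2 ^ s := by
  induction s, hs using Nat.le_induction with
  | base => norm_num
  | succ n hn ih =>
    rw [pow_succ]
    nlinarith

private theorem rel_num2 (s : ℕ) (hs : 16 ≤ s) : ((s + 1) * (2 * s + 1) + 2) ^ s ≤ tw 2 s := by
  have h1 : s * s ≤ tw 1 s := tw_mul hs (le_refl _) (le_refl _)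
  calc ((s + 1) * (2 * s + 1) + 2) ^ s ≤ (2 ^ s) ^ s := Nat.pow_le_pow_left (rel_num1 s hs) s
    _ = 2 ^ (s * s) := by rw [pow_mul]
    _ ≤ 2 ^ tw 1 s := Nat.pow_le_pow_right (by norm_num) h1
    _ = tw 2 s := rfl

private theorem rel_num3 (s k N : ℕ) (hs : 16 ≤ s) (hk : k ≤ s)
    (hN : N = ((s + 1) * (2 * s + 1) + 2) ^ s) :
    ((k + 1) * N * (2 * s + 1) + 1) ^ k < N ^ (k + 1) := by
  set c := (s + 1) * (2 * s + 1) with hc
  have hN0 : 0 < N := by rw [hN]; positivity
  have h1 : (k + 1) * N * (2 * s + 1) + 1 ≤ (c + 1) * N := by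
    have h2 : (k + 1) * (2 * s + 1) ≤ c := by
      rw [hc]
      exact Nat.mul_le_mul_right _ (by omega)
    have h3 : (k + 1) * N * (2 * s + 1) = (k + 1) * (2 * s + 1) * N := by ring
    rw [h3]
    nlinarith
  calc ((k + 1) * N * (2 * s + 1) + 1) ^ k ≤ ((c + 1) * N) ^ k := Nat.pow_le_pow_left h1 k
    _ = (c + 1) ^ k * N ^ k := by rw [mul_pow]
    _ ≤ (c + 1) ^ s * N ^ k := by
        exact Nat.mul_le_mul_right _ (Nat.pow_le_pow_right (by omega) hk)
    _ < (c + 2) ^ s * N ^ k := by
        refine Nat.mul_lt_mul_of_pos_right ?_ (by positivity)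
        exact Nat.pow_lt_pow_left (by omega) (by omega)
    _ = N * N ^ k := by rw [← hN]
    _ = N ^ (k + 1) := by rw [pow_succ]; ring

/-- linear relation between polynomials of small degree -/
private theorem rel_lin {ι J : Type*} [Fintype ι] [Fintype J] {K : Type*} [Field K]
    (F : J → MvPolynomial ι K) (M : ℕ) (hF : ∀ m, (F m).totalDegree < M)
    (hc : M ^ Fintype.card ι < Fintype.card J) :
    ∃ t : J → K, t ≠ 0 ∧ ∑ m, MvPolynomial.C (t m) * F m = 0 := by
  classical
  let f : (J → K) →ₗ[K] ((ι → Fin M) → K) :=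
    { toFun := fun t e => ∑ m, t m * MvPolynomial.coeff (Finsupp.equivFunOnFinite.symm fun i => (e i : ℕ)) (F m)
      map_add' := fun w w' => by
        funext k
        simp only [Pi.add_apply, add_mul, Finset.sum_add_distrib]
      map_smul' := fun t w => by
        funext k
        simp only [Pi.smul_apply, smul_eq_mul, RingHom.id_apply, Finset.mul_sum, mul_assoc] }
  have hker : LinearMap.ker f ≠ ⊥ := by
    apply LinearMap.ker_ne_bot_of_finrank_lt
    rw [Module.finrank_fintype_fun_eq_card, Module.finrank_fintype_fun_eq_card]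
    simpa using hc
  obtain ⟨t, ht, ht0⟩ := Submodule.exists_mem_ne_zero_of_ne_bot hker
  refine ⟨t, ht0, ?_⟩
  ext e
  rw [MvPolynomial.coeff_sum, MvPolynomial.coeff_zero]
  by_cases he : ∀ i, e i < M
  · have h := congrFun (LinearMap.mem_ker.1 ht) fun i => ⟨e i, he i⟩
    simp only [f, LinearMap.coe_mk, AddHom.coe_mk, Pi.zero_apply] at h
    rw [← h]
    refine Finset.sum_congr rfl fun m _ => ?_
    rw [MvPolynomial.coeff_C_mul]
    congr 2
    ext i
    simp
  · push Not at he
    obtain ⟨i, hi⟩ := he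
    refine Finset.sum_eq_zero fun m _ => ?_
    rw [MvPolynomial.coeff_C_mul]
    have : MvPolynomial.coeff e (F m) = 0 := by
      by_contra hne
      have h1 := MvPolynomial.le_totalDegree (MvPolynomial.mem_support_iff.2 hne)
      have h2 := hF m
      have h3 : e i ≤ e.sum fun _ a => a := by
        rw [Finsupp.sum_fintype _ _ (by simp)]
        exact Finset.single_le_sum (f := fun i => e i) (fun _ _ => Nat.zero_le _) (Finset.mem_univ i)
      omega
    rw [this, mul_zero]

theorem rel {ι : Type*} [Fintype ι] {K : Type*} [Field K] (p : ι → MvPolynomial ι K)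
    (u q ρ : MvPolynomial ι K) (s : ℕ) (hs : 16 ≤ s) (hι : Fintype.card ι ≤ s)
    (hp : ∀ j, (p j).totalDegree ≤ s) (hu : u.totalDegree ≤ s) (hq : q.totalDegree ≤ s)
    (hρ : ρ.totalDegree ≤ 2 * s + 1) (hu0 : u ≠ 0) (hq0 : q ≠ 0) :
    ∃ Q : (MvPolynomial ι K)[X], Q ≠ 0 ∧ (∀ b j, (Q.coeff b).degreeOf j < tw 2 s) ∧
      Polynomial.eval₂ (MvPolynomial.aeval (R := K) (fun j =>
        algebraMap (MvPolynomial ι K) (FractionRing (MvPolynomial ι K)) (p j) /
          algebraMap (MvPolynomial ι K) (FractionRing (MvPolynomial ι K)) u)).toRingHom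
        (algebraMap (MvPolynomial ι K) (FractionRing (MvPolynomial ι K)) ρ /
          algebraMap (MvPolynomial ι K) (FractionRing (MvPolynomial ι K)) (u * q)) Q = 0 := by
  classical
  obtain ⟨k, hk⟩ : ∃ k, k = Fintype.card ι := ⟨_, rfl⟩
  obtain ⟨N, hN⟩ : ∃ N, N = ((s + 1) * (2 * s + 1) + 2) ^ s := ⟨_, rfl⟩
  have hNt : N ≤ tw 2 s := hN ▸ rel_num2 s hs
  have hN0 : 0 < N := by rw [hN]; positivity
  have hnum := rel_num3 s k N hs (hk ▸ hι) hN
  set a : Option ι → MvPolynomial ι K := fun o => o.elim ρ (fun j => p j * q) with ha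
  have had : ∀ o, (a o).totalDegree ≤ 2 * s + 1 := by
    intro o
    cases o with
    | none => exact hρ
    | some j =>
      refine (MvPolynomial.totalDegree_mul _ _).trans ?_
      have := hp j
      omega
  have hwd : (u * q).totalDegree ≤ 2 * s + 1 := by
    refine (MvPolynomial.totalDegree_mul _ _).trans ?_
    omega
  have hsum : ∀ m : Option ι → Fin N, ∑ o, (m o : ℕ) ≤ (k + 1) * N := by
    intro m
    calc ∑ o, (m o : ℕ) ≤ ∑ _o : Option ι, N := Finset.sum_le_sum fun o _ => (m o).2.le
      _ = (k + 1) * N := by simp [hk]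
  set F : (Option ι → Fin N) → MvPolynomial ι K := fun m =>
    (u * q) ^ ((k + 1) * N - ∑ o, (m o : ℕ)) * ∏ o, a o ^ (m o : ℕ) with hF
  have hFd : ∀ m, (F m).totalDegree < (k + 1) * N * (2 * s + 1) + 1 := by
    intro m
    have h1 : ((u * q) ^ ((k + 1) * N - ∑ o, (m o : ℕ))).totalDegree ≤
        ((k + 1) * N - ∑ o, (m o : ℕ)) * (2 * s + 1) :=
      (MvPolynomial.totalDegree_pow _ _).trans (Nat.mul_le_mul_left _ hwd)
    have h2 : (∏ o, a o ^ (m o : ℕ)).totalDegree ≤ (∑ o, (m o : ℕ)) * (2 * s + 1) := by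
      refine (MvPolynomial.totalDegree_finsetProd _ _).trans ?_
      rw [Finset.sum_mul]
      exact Finset.sum_le_sum fun o _ => (MvPolynomial.totalDegree_pow _ _).trans (Nat.mul_le_mul_left _ (had o))
    have h3 := (MvPolynomial.totalDegree_mul ((u * q) ^ ((k + 1) * N - ∑ o, (m o : ℕ))) (∏ o, a o ^ (m o : ℕ)))
    have h4 := hsum m
    have h5 : ((k + 1) * N - ∑ o, (m o : ℕ)) * (2 * s + 1) + (∑ o, (m o : ℕ)) * (2 * s + 1) =
        (k + 1) * N * (2 * s + 1) := by
      rw [← add_mul, Nat.sub_add_cancel h4]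
    have h6 : (F m).totalDegree ≤ (k + 1) * N * (2 * s + 1) := by
      rw [← h5]
      exact h3.trans (Nat.add_le_add h1 h2)
    omega
  obtain ⟨t, ht0, ht⟩ := rel_lin F ((k + 1) * N * (2 * s + 1) + 1) hFd (by
    rw [Fintype.card_fun, Fintype.card_option, Fintype.card_fin, ← hk]
    exact hnum)
  set E : (Option ι → Fin N) → (ι →₀ ℕ) := fun m =>
    Finsupp.equivFunOnFinite.symm fun i => (m (some i) : ℕ) with hE
  have hEi : ∀ m m' : Option ι → Fin N, (m none : ℕ) = m' none → E m = E m' → m = m' := by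
    intro m m' h1 h2
    funext o
    apply Fin.ext
    cases o with
    | none => exact h1
    | some j =>
      have := DFunLike.congr_fun h2 j
      simpa [hE] using this
  set Q : (MvPolynomial ι K)[X] := ∑ m, C (MvPolynomial.monomial (E m) (t m)) * X ^ (m none : ℕ) with hQ
  have hQc : ∀ b, Q.coeff b = ∑ m : Option ι → Fin N, if b = (m none : ℕ) then
      MvPolynomial.monomial (E m) (t m) else 0 := by
    intro b
    rw [hQ, Polynomial.finsetSum_coeff]
    refine Finset.sum_congr rfl fun m _ => ?_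
    rw [Polynomial.coeff_C_mul_X_pow]
  have hQcc : ∀ b e, MvPolynomial.coeff e (Q.coeff b) = ∑ m : Option ι → Fin N,
      if b = (m none : ℕ) ∧ E m = e then t m else 0 := by
    intro b e
    rw [hQc, MvPolynomial.coeff_sum]
    refine Finset.sum_congr rfl fun m _ => ?_
    by_cases hb : b = (m none : ℕ)
    · simp [hb, MvPolynomial.coeff_monomial]
    · simp [hb]
  refine ⟨Q, ?_, ?_, ?_⟩
  · intro h0
    apply ht0
    funext m
    have h1 := hQcc (m none) (E m)
    rw [h0, Polynomial.coeff_zero, MvPolynomial.coeff_zero, Finset.sum_eq_single m] at h1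
    · simpa using h1.symm
    · intro m' _ hne
      rw [if_neg]
      rintro ⟨h2, h3⟩
      exact hne (hEi m' m h2.symm h3)
    · intro h
      exact absurd (Finset.mem_univ m) h
  · intro b j
    refine lt_of_lt_of_le ?_ hNt
    rw [MvPolynomial.degreeOf_lt_iff hN0]
    intro e he
    by_contra hge
    apply MvPolynomial.mem_support_iff.1 he
    rw [hQcc]
    refine Finset.sum_eq_zero fun m _ => ?_
    rw [if_neg]
    rintro ⟨_, h3⟩
    apply hge
    rw [← h3]
    simp [hE]
  · set A := algebraMap (MvPolynomial ι K) (FractionRing (MvPolynomial ι K)) with hA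
    have hinj : Function.Injective A := IsFractionRing.injective _ _
    have hw0 : A (u * q) ≠ 0 := by
      rw [Ne, map_eq_zero_iff A hinj]
      exact mul_ne_zero hu0 hq0
    have hu0' : A u ≠ 0 := by
      rwa [Ne, map_eq_zero_iff A hinj]
    have hq0' : A q ≠ 0 := by
      rwa [Ne, map_eq_zero_iff A hinj]
    have hφ : (fun j => A (p j) / A u) = fun j => A (a (some j)) / A (u * q) := by
      funext j
      rw [ha]
      simp only [Option.elim_some, map_mul]
      field_simp
    rw [hφ]
    have hkey : A (u * q) ^ ((k + 1) * N) * Polynomial.eval₂ (MvPolynomial.aeval (R := K) (fun j =>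
        A (a (some j)) / A (u * q))).toRingHom (A ρ / A (u * q)) Q = A (∑ m, MvPolynomial.C (t m) * F m) := by
      rw [hQ, Polynomial.eval₂_finsetSum, Finset.mul_sum, map_sum]
      refine Finset.sum_congr rfl fun m _ => ?_
      rw [Polynomial.eval₂_mul, Polynomial.eval₂_C, Polynomial.eval₂_pow, Polynomial.eval₂_X]
      have h1 : (MvPolynomial.aeval (R := K) (fun j => A (a (some j)) / A (u * q))).toRingHom
          (MvPolynomial.monomial (E m) (t m)) =
          A (MvPolynomial.C (t m)) * ∏ j, (A (a (some j)) / A (u * q)) ^ (m (some j) : ℕ) := by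
        have h2 : (MvPolynomial.aeval (R := K) (fun j => A (a (some j)) / A (u * q))).toRingHom
          (MvPolynomial.monomial (E m) (t m)) = MvPolynomial.aeval (R := K)
            (fun j => A (a (some j)) / A (u * q)) (MvPolynomial.monomial (E m) (t m)) := rfl
        rw [h2, MvPolynomial.aeval_monomial, Finsupp.prod_fintype _ _ (by simp)]
        congr 1
      rw [h1, map_mul, hF]
      simp only [map_mul, map_pow, map_prod]
      rw [Fintype.prod_option]
      have h4 := hsum m
      have h5 : A u * A q = A (u * q) := (map_mul A u q).symm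
      rw [h5]
      have h6 : A (u * q) ^ ((k + 1) * N) = A (u * q) ^ ((k + 1) * N - ∑ o, (m o : ℕ)) *
          (A (u * q) ^ (m none : ℕ) * ∏ j, A (u * q) ^ (m (some j) : ℕ)) := by
        rw [Finset.prod_pow_eq_pow_sum, ← pow_add, ← pow_add, ← Fintype.sum_option (fun o => (m o : ℕ)),
          Nat.sub_add_cancel h4]
      rw [h6, Finset.prod_congr rfl (fun j _ => div_pow (A (a (some j))) (A (u * q)) (m (some j) : ℕ)),
        Finset.prod_div_distrib, div_pow]
      have h7 : ∏ j, A (u * q) ^ (m (some j) : ℕ) ≠ 0 :=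
        Finset.prod_ne_zero_iff.2 fun j _ => pow_ne_zero _ hw0
      have h8 : a none = ρ := rfl
      rw [h8]
      field_simp
    rw [ht, map_zero] at hkey
    exact (mul_eq_zero.1 hkey).resolve_left (pow_ne_zero _ hw0)

end Pool.Agent.HFB
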