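import Pool.Agent.HFB.JAC
import Pool.Agent.HFB.REL
import Pool.Agent.HFB.LIF

/-!
# HFB / DOM: dominant maps hit small integral points

JAC: `φ_j = p_j / u` algebraically independent.  REL for `ρ = X_i u q` (`r = X_i`, total degree `≤ 2 s + 1`) and `ρ = 1`: polynomials `Q_i`, `Q_w`; `qs` = product of their leading coefficients, non-zero, `degreeOf j qs ≤ (s + 1) (tw 2 s)`.  There is `a ∈ {0, …, (s+1) tw 2 s}^ι` with `eval a qs ≠ 0`
(`MvPolynomial.eq_zero_of_eval_zero_at_prod_finset`), `(s+1) tw 2 s ≤ tw 3 s`.  LIF.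
-/

namespace Pool.Agent.HFB

open Polynomial Pool.Agent.ESH

theorem dom {ι : Type*} [Fintype ι] {K : Type*} [Field K] [CharZero K] [IsAlgClosed K]
    (p : ι → MvPolynomial ι K) (u q : MvPolynomial ι K) (s : ℕ) (hs : 16 ≤ s) (hι : Fintype.card ι ≤ s)
    (hp : ∀ j, (p j).totalDegree ≤ s) (hud : u.totalDegree ≤ s) (hqd : q.totalDegree ≤ s)
    (g : ι → K) (hu : MvPolynomial.eval g u ≠ 0) (hq : MvPolynomial.eval g q ≠ 0)
    (h : ∀ w : ι → K, (∀ j, MvPolynomial.eval g u * ∑ i, w i * MvPolynomial.eval g (MvPolynomial.pderiv i (p j)) -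
      MvPolynomial.eval g (p j) * ∑ i, w i * MvPolynomial.eval g (MvPolynomial.pderiv i u) = 0) → w = 0) :
    ∃ a : ι → ℕ, (∀ j, a j ≤ tw 3 s) ∧ ∃ g' : ι → K, MvPolynomial.eval g' u ≠ 0 ∧
      MvPolynomial.eval g' q ≠ 0 ∧ ∀ j, MvPolynomial.eval g' (p j) = a j * MvPolynomial.eval g' u := by
  classical
  have hu0 : u ≠ 0 := by
    rintro rfl
    exact hu (map_zero _)
  have hq0 : q ≠ 0 := by
    rintro rfl
    exact hq (map_zero _)
  have hjac := jac p u g hu h
  have hrel : ∀ ρ : MvPolynomial ι K, ρ.totalDegree ≤ 2 * s + 1 →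
      ∃ Q : (MvPolynomial ι K)[X], Q ≠ 0 ∧ (∀ b j, (Q.coeff b).degreeOf j < tw 2 s) ∧
        Polynomial.eval₂ (MvPolynomial.aeval (R := K) (fun j =>
          algebraMap (MvPolynomial ι K) (FractionRing (MvPolynomial ι K)) (p j) /
            algebraMap (MvPolynomial ι K) (FractionRing (MvPolynomial ι K)) u)).toRingHom
          (algebraMap (MvPolynomial ι K) (FractionRing (MvPolynomial ι K)) ρ /
            algebraMap (MvPolynomial ι K) (FractionRing (MvPolynomial ι K)) (u * q)) Q = 0 :=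
    fun ρ hρ => rel p u q ρ s hs hι hp hud hqd hρ hu0 hq0
  have hinj : Function.Injective (algebraMap (MvPolynomial ι K)
    (FractionRing (MvPolynomial ι K))) := IsFractionRing.injective _ _
  have huq0 : algebraMap (MvPolynomial ι K) (FractionRing (MvPolynomial ι K)) (u * q) ≠ 0 :=
    fun h0 => mul_ne_zero hu0 hq0 (hinj (by rw [h0, map_zero]))
  have hXd : ∀ i, (MvPolynomial.X i * (u * q) : MvPolynomial ι K).totalDegree ≤ 2 * s + 1 := by
    intro i
    have h1 := MvPolynomial.totalDegree_mul (MvPolynomial.X i) (u * q)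
    have h2 := MvPolynomial.totalDegree_mul u q
    have h3 : (MvPolynomial.X i : MvPolynomial ι K).totalDegree = 1 := MvPolynomial.totalDegree_X i
    omega
  choose Q hQ0 hQd hQr using fun i => hrel (MvPolynomial.X i * (u * q)) (hXd i)
  obtain ⟨W, hW0, hWd, hWr⟩ := hrel 1 (by rw [MvPolynomial.totalDegree_one]; omega)
  let qs : MvPolynomial ι K := (∏ i, (Q i).leadingCoeff) * W.leadingCoeff
  have hqs0 : qs ≠ 0 := mul_ne_zero (Finset.prod_ne_zero_iff.2 fun i _ =>
    leadingCoeff_ne_zero.2 (hQ0 i)) (leadingCoeff_ne_zero.2 hW0)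
  have hdeg : ∀ j, qs.degreeOf j ≤ (s + 1) * tw 2 s := by
    intro j
    have h1 := MvPolynomial.degreeOf_mul_le j (∏ i, (Q i).leadingCoeff) W.leadingCoeff
    have h2 := MvPolynomial.degreeOf_prod_le j Finset.univ (fun i => (Q i).leadingCoeff)
    have h3 : ∑ i, ((Q i).leadingCoeff).degreeOf j ≤ Fintype.card ι * tw 2 s := by
      have := Finset.sum_le_card_nsmul Finset.univ (fun i => ((Q i).leadingCoeff).degreeOf j)
        (tw 2 s) (fun i _ => (hQd i _ j).le)
      simpa using this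
    have h4 : (W.leadingCoeff).degreeOf j < tw 2 s := hWd _ j
    have h5 : Fintype.card ι * tw 2 s ≤ s * tw 2 s := Nat.mul_le_mul_right _ hι
    have h6 : (s + 1) * tw 2 s = s * tw 2 s + tw 2 s := by ring
    change (((∏ i, (Q i).leadingCoeff) * W.leadingCoeff).degreeOf j) ≤ _
    omega
  have hbig : (s + 1) * tw 2 s ≤ tw 3 s := by
    have h1 : s + 1 ≤ tw 2 s := by
      have h2 : s < tw 1 s := Nat.lt_two_pow_self
      have h3 : tw 1 s ≤ tw 2 s := tw_mono (by norm_num) le_rfl
      omega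
    have h2 := tw_mul (c := 2) hs h1 (le_refl (tw 2 s))
    exact h2
  obtain ⟨a, haN, ha⟩ : ∃ a : ι → ℕ, (∀ j, a j ≤ (s + 1) * tw 2 s) ∧
      MvPolynomial.eval (fun j => (a j : K)) qs ≠ 0 := by
    by_contra hcon
    push Not at hcon
    refine hqs0 (MvPolynomial.eq_zero_of_eval_zero_at_prod_finset qs
      (fun _ => (Finset.range ((s + 1) * tw 2 s + 1)).image (fun n : ℕ => (n : K))) (fun j => ?_)
      (fun x hx => ?_))
    · rw [Finset.card_image_of_injective _ Nat.cast_injective, Finset.card_range]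
      exact Nat.lt_succ_of_le (hdeg j)
    · have hx' : ∀ j, ∃ n : ℕ, n < (s + 1) * tw 2 s + 1 ∧ (n : K) = x j := by
        intro j
        have := hx j
        rw [Finset.mem_image] at this
        obtain ⟨n, hn, hn'⟩ := this
        exact ⟨n, Finset.mem_range.1 hn, hn'⟩
      choose n hn hn' using hx'
      have h1 := hcon n (fun j => Nat.lt_succ_iff.1 (hn j))
      have h2 : (fun j => (n j : K)) = x := funext hn'
      rw [h2] at h1
      exact h1
  obtain ⟨g', h1, h2, h3⟩ := lif p u q hu0 hq0 _ (fun _ => rfl) hjac qs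
    (fun i => ⟨Q i, hQ0 i, (Finset.dvd_prod_of_mem (fun i => (Q i).leadingCoeff)
      (Finset.mem_univ i)).trans (dvd_mul_right _ _), by
        have := hQr i
        rwa [map_mul, mul_div_cancel_right₀ _ huq0] at this⟩)
    ⟨W, hW0, dvd_mul_left _ _, by
        have := hWr
        rwa [map_one, one_div] at this⟩
    (fun j => (a j : K)) ha
  exact ⟨a, fun j => (haN j).trans hbig, g', h1, h2, h3⟩

end Pool.Agent.HFB
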