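import Pool.Agent.HFB.SYS
import Pool.Agent.HFB.DefsV

/-!
# HFB / DSC: the discriminant of a Belyi function

`dsc_tr`: the matrix of the multiplication by `u_k` in the basis `u` (`rgm_ind`, `rgm_span`) has trace `τ_k = ∑_l c_kll` (`Algebra.trace_eq_matrix_trace`), and `u_i u_j = ∑ c_ijk u_k`.
`dsc`: (1) `X (X-1) τ_k' = ∑_m N_km τ_m`: sum the Leibniz rule of `Sys` for `(k, l, l)` over `l`; the double sums `∑ c_klm N_ml` and `∑ N_lm c_kml` are equal.  (2) hence for `t = tG c`, `t_ij = ∑ c_ijk τ_k`: `X (X-1) t_ij' = ∑ N_il t_lj + ∑ N_jl t_il`  (the Leibniz rule for `c_ijk` multiplied by `τ_k`, and (1)).  (3) `D = det t`: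
`X (X-1) D' = 2 (∑ N_ll) D` (derivative of a determinant: sum over the rows; the rows `∑_l N_il t_l·` contribute `N_ii D`, and symmetrically the columns).  (4) `D ≠ 0`: the trace form of the separable extension `Φ/k(x)` is non-degenerate (`Algebra.traceForm_nondegenerate`, `dsc_tr`).  (5) a root `c ≠ 0, 1` of multiplicity `m ≥ 1` of `D` would be a root of
multiplicity exactly `m - 1` of `X (X-1) D'`, contradiction; so `D = D₀ X^p (X-1)^q` (`k` algebraically closed).
-/

namespace Pool.Agent.HFB

open Polynomial Pool.Agent.Helper11 Pool.Agent.ESH IntermediateField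
open scoped KaehlerDifferential

variable {k Φ : Type*} [Field k] [Field Φ] [Algebra k Φ] [FunField k Φ] [CharZero k] [IsAlgClosed k]

variable {x : Φ} {n : ℕ} {d : Fin n → ℕ} {u : Fin n → Φ}

private theorem dsc_mem (p : k[X]) : aeval x p ∈ k⟮x⟯ :=
  (IntermediateField.mem_adjoin_simple_iff k _).2 ⟨p, 1, by simp⟩

private theorem dsc_smul (a : k⟮x⟯) (f : Φ) : a • f = (a : Φ) * f := rfl

theorem dsc_tr (hu : RBas k x d u) {c : Fin n → Fin n → Fin n → k[X]} {N : Fin n → Fin n → k[X]}
    (h : SCon x u c N) (i j : Fin n) :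
    ((Algebra.trace k⟮x⟯ Φ (u i * u j) : k⟮x⟯) : Φ) = aeval x (tG c i j) := by
  classical
  let b : Module.Basis (Fin n) k⟮x⟯ Φ := Module.Basis.mk (rgm_ind hu) (rgm_span hu).ge
  have hb : ∀ i, b i = u i := fun i => Module.Basis.mk_apply _ _ i
  have htr : ∀ m : Fin n, Algebra.trace k⟮x⟯ Φ (u m) = ∑ l, (⟨aeval x (c m l l), dsc_mem _⟩ : k⟮x⟯) := by
    intro m
    rw [Algebra.trace_eq_matrix_trace b, Matrix.trace]
    refine Finset.sum_congr rfl fun l _ => ?_
    rw [Matrix.diag_apply, Algebra.leftMulMatrix_eq_repr_mul, hb]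
    have h1 : u m * u l = ∑ q, (⟨aeval x (c m l q), dsc_mem _⟩ : k⟮x⟯) • b q := by
      rw [h.mul]
      refine Finset.sum_congr rfl fun q _ => ?_
      rw [dsc_smul, hb]
    rw [h1, b.repr_sum_self]
  have h2 : u i * u j = ∑ m, (⟨aeval x (c i j m), dsc_mem _⟩ : k⟮x⟯) • u m := by
    rw [h.mul]
    rfl
  rw [h2, map_sum]
  simp only [map_smul, htr, smul_eq_mul]
  simp only [tG, Matrix.of_apply, map_sum, map_mul, Finset.mul_sum]
  push_cast
  rfl

/-- Jacobi's formula -/
private theorem dsc_jac {R : Type*} [CommRing R] (T : Matrix (Fin n) (Fin n) R[X]) :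
    derivative T.det = (T.adjugate * T.map derivative).trace := by
  classical
  have h1 : derivative T.det = ∑ i, (T.updateCol i (fun q => derivative (T q i))).det := by
    simp only [Matrix.det_apply, map_sum]
    rw [Finset.sum_comm]
    refine Finset.sum_congr rfl fun σ _ => ?_
    have h2 : derivative (Equiv.Perm.sign σ • ∏ i, T (σ i) i) =
        Equiv.Perm.sign σ • derivative (∏ i, T (σ i) i) := by
      rw [Units.smul_def, Units.smul_def, map_zsmul]
    rw [h2, derivative_prod_finset, Finset.smul_sum]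
    refine Finset.sum_congr rfl fun i _ => ?_
    congr 1
    rw [← Finset.mul_prod_erase Finset.univ _ (Finset.mem_univ i), Matrix.updateCol_self, mul_comm]
    congr 1
    refine Finset.prod_congr rfl fun j hj => ?_
    rw [Matrix.updateCol_ne (Finset.ne_of_mem_erase hj)]
  rw [h1, Matrix.trace]
  refine Finset.sum_congr rfl fun i _ => ?_
  rw [← Matrix.cramer_apply, Matrix.cramer_eq_adjugate_mulVec, Matrix.diag_apply, Matrix.mul_apply,
    Matrix.mulVec, dotProduct]
  rfl

private theorem dsc_eq (hβ : IsBelyi k x) (hu : RBas k x d u) {c : Fin n → Fin n → Fin n → k[X]}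
    {N : Fin n → Fin n → k[X]} (h : SCon x u c N) :
    X * (X - 1) * derivative (tG c).det = 2 * (∑ l, N l l) * (tG c).det := by
  have hS := sys hβ hu h
  obtain ⟨τ, hτ⟩ : ∃ τ : Fin n → k[X], τ = fun q => ∑ l, c q l l := ⟨_, rfl⟩
  have hτd : ∀ q, X * (X - 1) * derivative (τ q) = ∑ m, N q m * τ m := by
    intro q
    have h1 : X * (X - 1) * derivative (τ q) = ∑ l, X * (X - 1) * derivative (c q l l) := by
      rw [hτ, derivative_sum, Finset.mul_sum]
    have h2 : ∀ l, X * (X - 1) * derivative (c q l l) =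
        ∑ m, N q m * c m l l + ∑ m, N l m * c q m l - ∑ m, c q l m * N m l := by
      intro l
      rw [← hS.leib q l l]
      ring
    rw [h1, Finset.sum_congr rfl fun l _ => h2 l, Finset.sum_sub_distrib, Finset.sum_add_distrib]
    have h3 : ∑ l, ∑ m, N l m * c q m l = ∑ l, ∑ m, c q l m * N m l := by
      rw [Finset.sum_comm]
      exact Finset.sum_congr rfl fun m _ => Finset.sum_congr rfl fun l _ => by ring
    rw [h3, add_sub_cancel_right, Finset.sum_comm]
    refine Finset.sum_congr rfl fun m _ => ?_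
    rw [hτ, Finset.mul_sum]
  have ht : ∀ i j, tG c i j = ∑ q, c i j q * τ q := by
    intro i j
    simp only [tG, Matrix.of_apply, hτ, Finset.mul_sum]
  have htd : ∀ i j, X * (X - 1) * derivative (tG c i j) =
      ∑ l, N i l * tG c l j + ∑ l, N j l * tG c i l := by
    intro i j
    have h1 : X * (X - 1) * derivative (tG c i j) =
        ∑ q, ((X * (X - 1) * derivative (c i j q)) * τ q + c i j q * (X * (X - 1) * derivative (τ q))) := by
      rw [ht, derivative_sum, Finset.mul_sum]
      refine Finset.sum_congr rfl fun q _ => ?_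
      rw [derivative_mul]
      ring
    have h2 : ∀ q, (X * (X - 1) * derivative (c i j q)) * τ q + c i j q * (X * (X - 1) * derivative (τ q)) =
        ∑ l, N i l * (c l j q * τ q) + ∑ l, N j l * (c i l q * τ q) - (∑ l, c i j l * N l q) * τ q +
          ∑ m, c i j q * N q m * τ m := by
      intro q
      have h3 : X * (X - 1) * derivative (c i j q) =
          ∑ l, N i l * c l j q + ∑ l, N j l * c i l q - ∑ l, c i j l * N l q := by
        rw [← hS.leib i j q]
        ring
      rw [h3, hτd, Finset.mul_sum, sub_mul, add_mul, Finset.sum_mul, Finset.sum_mul]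
      congr 1
      · congr 1
        congr 1
        · exact Finset.sum_congr rfl fun l _ => by ring
        · exact Finset.sum_congr rfl fun l _ => by ring
      · exact Finset.sum_congr rfl fun l _ => by ring
    rw [h1, Finset.sum_congr rfl fun q _ => h2 q, Finset.sum_add_distrib, Finset.sum_sub_distrib,
      Finset.sum_add_distrib]
    have h4 : ∑ q, (∑ l, c i j l * N l q) * τ q = ∑ q, ∑ m, c i j q * N q m * τ m := by
      rw [Finset.sum_congr rfl fun q _ => Finset.sum_mul _ _ _, Finset.sum_comm]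
    rw [h4, sub_add_cancel, Finset.sum_comm]
    congr 1
    · refine Finset.sum_congr rfl fun l _ => ?_
      rw [ht, Finset.mul_sum]
    · rw [Finset.sum_comm]
      refine Finset.sum_congr rfl fun l _ => ?_
      rw [ht, Finset.mul_sum]
  have hmat : (X * (X - 1) : k[X]) • (tG c).map derivative =
      (Matrix.of N) * tG c + tG c * (Matrix.of N).transpose := by
    ext1 i j
    rw [Matrix.smul_apply, Matrix.map_apply, smul_eq_mul, htd, Matrix.add_apply, Matrix.mul_apply,
      Matrix.mul_apply]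
    congr 1
    refine Finset.sum_congr rfl fun l _ => ?_
    rw [Matrix.transpose_apply, Matrix.of_apply, mul_comm]
  have e1 : ((tG c).adjugate * (Matrix.of N * tG c)).trace = (tG c).det * ∑ l, N l l := by
    rw [← Matrix.mul_assoc, Matrix.trace_mul_comm, ← Matrix.mul_assoc, Matrix.mul_adjugate, Matrix.smul_mul,
      Matrix.one_mul, Matrix.trace_smul, smul_eq_mul]
    rfl
  have e2 : ((tG c).adjugate * (tG c * (Matrix.of N).transpose)).trace = (tG c).det * ∑ l, N l l := by
    rw [← Matrix.mul_assoc, Matrix.adjugate_mul, Matrix.smul_mul,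
      Matrix.one_mul, Matrix.trace_smul, Matrix.trace_transpose, smul_eq_mul]
    rfl
  have h5 : X * (X - 1) * derivative (tG c).det =
      ((tG c).adjugate * ((X * (X - 1) : k[X]) • (tG c).map derivative)).trace := by
    rw [dsc_jac, Matrix.mul_smul, Matrix.trace_smul, smul_eq_mul]
  rw [h5, hmat, Matrix.mul_add, Matrix.trace_add, e1, e2]
  ring

private theorem dsc_ne (hu : RBas k x d u) {c : Fin n → Fin n → Fin n → k[X]}
    {N : Fin n → Fin n → k[X]} (h : SCon x u c N) : (tG c).det ≠ 0 := by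
  classical
  have hfd := FunField.finiteDimensional_adjoin hu.tr
  have hchar : CharZero k⟮x⟯ := charZero_of_injective_algebraMap (algebraMap k k⟮x⟯).injective
  let b : Module.Basis (Fin n) k⟮x⟯ Φ := Module.Basis.mk (rgm_ind hu) (rgm_span hu).ge
  have hb : ∀ i, b i = u i := fun i => Module.Basis.mk_apply _ _ i
  have h1 := det_traceForm_ne_zero (K := k⟮x⟯) (L := Φ) b
  intro h0
  apply h1
  have h2 : (algebraMap k⟮x⟯ Φ) (LinearMap.BilinForm.toMatrix b (Algebra.traceForm k⟮x⟯ Φ)).det =
      aeval x (tG c).det := by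
    rw [RingHom.map_det, AlgHom.map_det]
    congr 1
    ext i j
    rw [RingHom.mapMatrix_apply, AlgHom.mapMatrix_apply, Matrix.map_apply, Matrix.map_apply]
    rw [LinearMap.BilinForm.toMatrix_apply, Algebra.traceForm_apply, hb, hb]
    exact dsc_tr hu h i j
  rw [h0, map_zero] at h2
  exact (map_eq_zero _).1 h2

theorem dsc (hβ : IsBelyi k x) (hu : RBas k x d u) {c : Fin n → Fin n → Fin n → k[X]}
    {N : Fin n → Fin n → k[X]} (h : SCon x u c N) :
    ∃ (D₀ : k) (p q : ℕ), D₀ ≠ 0 ∧ (tG c).det = C D₀ * X ^ p * (X - 1) ^ q := by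
  classical
  have hD0 := dsc_ne hu h
  have hDE := dsc_eq hβ hu h
  obtain ⟨D, hD⟩ : ∃ D, D = (tG c).det := ⟨_, rfl⟩
  obtain ⟨E, hE⟩ : ∃ E : k[X], E = 2 * (∑ l, N l l) := ⟨_, rfl⟩
  rw [← hD] at hD0 hDE ⊢
  rw [← hE] at hDE
  have hroot : ∀ r : k, D.eval r = 0 → r = 0 ∨ r = 1 := by
    intro r hr
    by_contra hne
    rw [not_or] at hne
    obtain ⟨G, hG, hnd⟩ := exists_eq_pow_rootMultiplicity_mul_and_not_dvd D hD0 r
    have hm : 0 < D.rootMultiplicity r := (rootMultiplicity_pos hD0).2 hr
    obtain ⟨m, hm'⟩ : ∃ m, D.rootMultiplicity r = m + 1 := ⟨D.rootMultiplicity r - 1, by omega⟩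
    rw [hm'] at hG
    have h1 : derivative D = (X - C r) ^ m * (C ((m : k) + 1) * G + (X - C r) * derivative G) := by
      rw [hG, derivative_mul, derivative_pow, derivative_sub, derivative_X, derivative_C]
      simp only [Nat.add_sub_cancel, sub_zero, mul_one]
      push_cast
      rw [C_add, C_1]
      ring
    have h2 : (X - C r) ^ m * (X * (X - 1) * (C ((m : k) + 1) * G + (X - C r) * derivative G)) =
        (X - C r) ^ m * ((X - C r) * (E * G)) := by
      have h3 := hDE
      rw [h1] at h3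
      rw [hG] at h3
      rw [pow_succ] at h3
      linear_combination h3
    have h3 := mul_left_cancel₀ (pow_ne_zero m (X_sub_C_ne_zero r)) h2
    have h4 := congrArg (eval r) h3
    simp only [eval_mul, eval_sub, eval_X, eval_one, eval_add, eval_C, sub_self, zero_mul, add_zero] at h4
    have hGr : G.eval r ≠ 0 := by
      intro h5
      exact hnd (dvd_iff_isRoot.2 h5)
    have hm1 : ((m : k) + 1) ≠ 0 := by exact_mod_cast Nat.succ_ne_zero m
    rcases mul_eq_zero.1 h4 with h5 | h5
    · rcases mul_eq_zero.1 h5 with h6 | h6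
      · exact hne.1 h6
      · exact hne.2 (sub_eq_zero.1 h6)
    · rcases mul_eq_zero.1 h5 with h6 | h6
      · exact hm1 h6
      · exact hGr h6
  obtain ⟨G1, hG1, hn1⟩ := exists_eq_pow_rootMultiplicity_mul_and_not_dvd D hD0 0
  have hG10 : G1 ≠ 0 := by
    rintro rfl
    exact hn1 (dvd_zero _)
  obtain ⟨G2, hG2, hn2⟩ := exists_eq_pow_rootMultiplicity_mul_and_not_dvd G1 hG10 1
  have hdeg : G2.degree = 0 := by
    by_contra hd
    obtain ⟨r, hr⟩ := IsAlgClosed.exists_root G2 hd
    have hr' : G2.eval r = 0 := hr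
    have h1 : G1.eval r = 0 := by rw [hG2, eval_mul, hr', mul_zero]
    have h2 : D.eval r = 0 := by rw [hG1, eval_mul, h1, mul_zero]
    rcases hroot r h2 with rfl | rfl
    · exact hn1 (dvd_iff_isRoot.2 h1)
    · exact hn2 (dvd_iff_isRoot.2 hr')
  rw [eq_C_of_degree_eq_zero hdeg] at hG2
  refine ⟨G2.coeff 0, D.rootMultiplicity 0, G1.rootMultiplicity 1, ?_, ?_⟩
  · intro h0
    rw [h0, C_0, mul_zero] at hG2
    exact hG10 hG2
  · conv_lhs => rw [hG1, hG2]
    rw [C_0, sub_zero, C_1]
    ring

end Pool.Agent.HFB
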