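import Mathlib
import Pool.Agent.HFB.DefsV

/-!
# HFB: complex function fields, `L²` scalar products, the stable Faltings height
-/

namespace Pool.Agent.HFB

open Polynomial Pool.Agent.Helper11 Pool.Agent.ESH NumberField
open scoped KaehlerDifferential

/-- sum of the values of `F` at the places of `Φ` over the point `c` of the `x`-plane -/
noncomputable def fsum {Φ : Type*} [Field Φ] [Algebra ℂ Φ] {E : Type*} [AddCommMonoid E] (x : Φ)
    (F : Place ℂ Φ → E) (c : ℂ) : E :=
  ∑ᶠ R : Place ℂ Φ, if 1 ≤ R.ord (x - algebraMap ℂ Φ c) then F R else 0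

/-- the `L²` scalar product `(i/2) ∫ (f dx) ∧ conj (h dx)` on the compact Riemann surface of the function field
`Φ/ℂ`, computed in the `x`-plane: the integral over `c ∈ ℂ` of the sum of `f(R) conj (h(R))` over the places `R`
above `c` -/
noncomputable def ipx {Φ : Type*} [Field Φ] [Algebra ℂ Φ] (x f h : Φ) : ℂ :=
  ∫ c : ℂ, fsum x (fun R => ev R f * (starRingEnd ℂ) (ev R h)) c

/-- Gram matrix of the differentials `f_i dx` -/
noncomputable def gram {Φ : Type*} [Field Φ] [Algebra ℂ Φ] (x : Φ) {ι : Type*} (f : ι → Φ) : Matrix ι ι ℂ :=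
  Matrix.of fun i j => ipx x (f i) (f j)

/-- `Ψ` is the function field of the complex curve obtained from `F/K` by the embedding `σ : K → ℂ`: the fraction
field of the domain `F ⊗ ℂ`; `j : F → Ψ` is the natural map -/
structure CmpE {K F Ψ : Type*} [Field K] [Field F] [Field Ψ] [Algebra K F] [Algebra ℂ Ψ] (σ : K →+* ℂ)
    (j : F →+* Ψ) : Prop where
  comm : ∀ y : K, j (algebraMap K F y) = algebraMap ℂ Ψ (σ y)
  disj : ∀ (n : ℕ) (e : Fin n → F), LinearIndependent K e → LinearIndependent ℂ (fun i => j (e i))
  gen : ∀ f : Ψ, ∃ a ∈ Submodule.span ℂ (Set.range j), ∃ b ∈ Submodule.span ℂ (Set.range j), b ≠ 0 ∧ f * b = a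

/-- the stable Faltings height of the curve with function field `F/K` (`Φ` is the function field over the algebraic
closure `C`, `Ψ σ` the one over `ℂ` for the embedding `σ` of `K`, with the map `j σ : F → Ψ σ`; `a v` an extension to
`C` of the absolute value of the finite place `v`), computed with the basis `f_i dx` of the regular differentials:
the arithmetic degree, divided by `[K : ℚ]`, of the determinant of the lattice of integral differentials with its
`L²` metrics -/
noncomputable def hFal {K F C Φ : Type*} [Field K] [NumberField K] [Field F] [Field C] [Field Φ]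
    [Algebra C Φ] [Algebra F Φ] (a : FinitePlace K → AbsoluteValue C ℝ) {Ψ : (K →+* ℂ) → Type*}
    [∀ σ, Field (Ψ σ)] [∀ σ, Algebra ℂ (Ψ σ)] (j : ∀ σ, F →+* Ψ σ) {g : ℕ} (x : F) (f : Fin g → F) : ℝ :=
  (∑ᶠ v : FinitePlace K, locF (a v)
      (fun i => algebraMap F Φ (f i) • KaehlerDifferential.D C Φ (algebraMap F Φ x)) -
    (1 / 2) * ∑ σ : K →+* ℂ, Real.log (gram (j σ x) (fun i => j σ (f i))).det.re) / Module.finrank ℚ K

end Pool.Agent.HFB
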