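import Mathlib
import Pool.Agent.HFB.DefsW

/-!
# HFB: bounded models
-/

namespace Pool.Agent.HFB

open Polynomial Pool.Agent.Helper11 Pool.Agent.ESH

/-- a model of the cover `β : X → ℙ¹` with structure constants which become integral after multiplication by `m` -/
structure Pak {k Φ : Type*} [Field k] [Field Φ] [Algebra k Φ] (β : Φ) {n : ℕ} (d : Fin n → ℕ) (u : Fin n → Φ)
    (c : Fin n → Fin n → Fin n → k[X]) (N : Fin n → Fin n → k[X]) (m : ℕ) (D₀ : k) : Prop where
  bel : IsBelyi k β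
  bas : RBas k β d u
  con : SCon β u c N
  pos : 0 < m
  intc : ∀ i j l s, IsIntegral ℤ ((m : k) * (c i j l).coeff s)
  intN : ∀ i l s, IsIntegral ℤ ((m : k) * (N i l).coeff s)
  D0 : D₀ ≠ 0
  dis : ∃ p q : ℕ, (tG c).det = C D₀ * X ^ p * (X - 1) ^ q

end Pool.Agent.HFB
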