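import Pool.Agent.HFB.TAY

/-!
# HFB / LIN: the linearised equations

Apply `hP` to the ring `R = TrivSqZeroExt K K` of dual numbers and to the point `z_i + ε w_i`; by `tay_dual` all `P_k` vanish there if and only if `P_k(z) = 0` and `∑ w_i (∂_i P_k)(z) = 0`.  On the other hand `cZ (z + ε w) = cZ z + ε cZ w` (images under `Polynomial.map` of `inl` and `inr`), and comparing the
coefficients of `1` and `ε`, `Sys d (cZ (z + ε w)) (nZ (z + ε w))` is equivalent to `Sys d (cZ z) (nZ z)` and `LSys d (cZ z) (nZ z) (cZ w) (nZ w)`.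
-/

namespace Pool.Agent.HFB

open Polynomial

universe v

section aux

variable {K : Type v} [Field K]

private noncomputable def E (a b : K[X]) : (TrivSqZeroExt K K)[X] :=
  a.map (TrivSqZeroExt.inlHom K K) + C (TrivSqZeroExt.inr 1) * b.map (TrivSqZeroExt.inlHom K K)

private theorem e_mul (b : K) : (TrivSqZeroExt.inr 1 : TrivSqZeroExt K K) * TrivSqZeroExt.inlHom K K b =
    TrivSqZeroExt.inr b := by
  refine TrivSqZeroExt.ext ?_ ?_
  · rw [TrivSqZeroExt.fst_mul]; simp
  · rw [TrivSqZeroExt.snd_mul]; simp [TrivSqZeroExt.inlHom]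

private theorem E_coeff (a b : K[X]) (s : ℕ) :
    (E a b).coeff s = TrivSqZeroExt.inl (a.coeff s) + TrivSqZeroExt.inr (b.coeff s) := by
  unfold E
  rw [coeff_add, coeff_C_mul, coeff_map, coeff_map, e_mul]
  rfl

private theorem E_fst (a b : K[X]) (s : ℕ) : ((E a b).coeff s).fst = a.coeff s := by
  rw [E_coeff]; simp

private theorem E_snd (a b : K[X]) (s : ℕ) : ((E a b).coeff s).snd = b.coeff s := by
  rw [E_coeff]; simp

private theorem E_ext {a b : K[X]} {p : (TrivSqZeroExt K K)[X]} (h1 : ∀ s, (p.coeff s).fst = a.coeff s)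
    (h2 : ∀ s, (p.coeff s).snd = b.coeff s) : p = E a b := by
  ext s
  · rw [h1, E_fst]
  · rw [h2, E_snd]

private theorem E_inj {a b a' b' : K[X]} : E a b = E a' b' ↔ a = a' ∧ b = b' := by
  constructor
  · intro h
    constructor
    · ext s; rw [← E_fst a b, h, E_fst]
    · ext s; rw [← E_snd a b, h, E_snd]
  · rintro ⟨rfl, rfl⟩; rfl

private theorem E_zero {a b : K[X]} (s : ℕ) : (E a b).coeff s = 0 ↔ a.coeff s = 0 ∧ b.coeff s = 0 := by
  constructor
  · intro h
    constructor
    · rw [← E_fst a b, h]; simp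
    · rw [← E_snd a b, h]; simp
  · rintro ⟨h1, h2⟩
    rw [E_coeff, h1, h2]; simp

private theorem E_add (a b a' b' : K[X]) : E a b + E a' b' = E (a + a') (b + b') := by
  unfold E
  simp only [Polynomial.map_add]
  ring

private theorem eps_sq : (C (TrivSqZeroExt.inr 1) : (TrivSqZeroExt K K)[X]) * C (TrivSqZeroExt.inr 1) = 0 := by
  rw [← C_mul, TrivSqZeroExt.inr_mul_inr, C_0]

private theorem E_mul (a b a' b' : K[X]) : E a b * E a' b' = E (a * a') (b * a' + a * b') := by
  unfold E
  simp only [Polynomial.map_add, Polynomial.map_mul]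
  linear_combination (b.map (TrivSqZeroExt.inlHom K K) * b'.map (TrivSqZeroExt.inlHom K K)) * eps_sq (K := K)

private theorem E_sum {ι : Type*} (s : Finset ι) (f g : ι → K[X]) :
    ∑ i ∈ s, E (f i) (g i) = E (∑ i ∈ s, f i) (∑ i ∈ s, g i) := by
  unfold E
  rw [Polynomial.map_sum, Polynomial.map_sum, Finset.mul_sum, Finset.sum_add_distrib]

private theorem E_der (a b : K[X]) : derivative (E a b) = E (derivative a) (derivative b) := by
  unfold E
  rw [derivative_add, derivative_C_mul, derivative_map, derivative_map]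

private theorem E_X : (X * (X - 1) : (TrivSqZeroExt K K)[X]) = E (X * (X - 1)) 0 := by
  unfold E
  simp

private theorem cZ_E {n M : ℕ} (z w : ZI n M → K) (i j k : Fin n) :
    cZ (fun i => (TrivSqZeroExt.inl (z i) + TrivSqZeroExt.inr (w i) : TrivSqZeroExt K K)) i j k =
      E (cZ z i j k) (cZ w i j k) := by
  unfold cZ
  rw [← E_sum]
  refine Finset.sum_congr rfl (fun s _ => ?_)
  unfold E
  simp only [Polynomial.map_mul, map_C, Polynomial.map_pow, map_X, map_add]
  rw [← mul_assoc, ← C_mul, ← add_mul, e_mul]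
  rfl

private theorem nZ_E {n M : ℕ} (z w : ZI n M → K) (i k : Fin n) :
    nZ (fun i => (TrivSqZeroExt.inl (z i) + TrivSqZeroExt.inr (w i) : TrivSqZeroExt K K)) i k =
      E (nZ z i k) (nZ w i k) := by
  unfold nZ
  rw [← E_sum]
  refine Finset.sum_congr rfl (fun s _ => ?_)
  unfold E
  simp only [Polynomial.map_mul, map_C, Polynomial.map_pow, map_X, map_add]
  rw [← mul_assoc, ← C_mul, ← add_mul, e_mul]
  rfl

private theorem sys_E {n : ℕ} (d : Fin n → ℕ) (c c' : Fin n → Fin n → Fin n → K[X])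
    (N N' : Fin n → Fin n → K[X]) (hz : Sys d c N) :
    Sys d (fun i j k => E (c i j k) (c' i j k)) (fun i k => E (N i k) (N' i k)) ↔ LSys d c N c' N' := by
  constructor
  · intro h
    refine ⟨?_, ?_, ?_, ?_, ?_⟩
    · intro i j k s hs
      exact ((E_zero s).1 (h.degc i j k s hs)).2
    · intro i k s hs
      exact ((E_zero s).1 (h.degN i k s hs)).2
    · intro i j k
      exact (E_inj.1 (h.comm i j k)).2
    · intro i j k m
      have h1 := h.assoc i j k m
      simp only [E_mul, E_sum] at h1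
      exact (E_inj.1 h1).2
    · intro i j k
      have h1 := h.leib i j k
      simp only [E_mul, E_sum, E_der, E_X, E_add] at h1
      have h2 := (E_inj.1 h1).2
      simpa only [zero_mul, zero_add] using h2
  · intro h
    refine ⟨?_, ?_, ?_, ?_, ?_⟩
    · intro i j k s hs
      exact (E_zero s).2 ⟨hz.degc i j k s hs, h.degc i j k s hs⟩
    · intro i k s hs
      exact (E_zero s).2 ⟨hz.degN i k s hs, h.degN i k s hs⟩
    · intro i j k
      exact E_inj.2 ⟨hz.comm i j k, h.comm i j k⟩
    · intro i j k m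
      simp only [E_mul, E_sum]
      exact E_inj.2 ⟨hz.assoc i j k m, h.assoc i j k m⟩
    · intro i j k
      simp only [E_mul, E_sum, E_der, E_X, E_add]
      refine E_inj.2 ⟨hz.leib i j k, ?_⟩
      have h2 := h.leib i j k
      simpa only [zero_mul, zero_add] using h2

end aux

theorem lin {n : ℕ} (d : Fin n → ℕ) (M : ℕ) {κ : Type} (P : κ → MvPolynomial (ZI n M) ℤ)
    (hP : ∀ (R : Type v) [CommRing R] (z : ZI n M → R), (∀ k, MvPolynomial.aeval z (P k) = 0) ↔
        Sys d (cZ z) (nZ z))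
    {K : Type v} [Field K] (z w : ZI n M → K) (hz : Sys d (cZ z) (nZ z)) :
    (∀ k, ∑ i, w i * MvPolynomial.aeval z (MvPolynomial.pderiv i (P k)) = 0) ↔
      LSys d (cZ z) (nZ z) (cZ w) (nZ w) := by
  have h0 : ∀ k, MvPolynomial.aeval z (P k) = 0 := (hP K z).2 hz
  have h1 := hP (TrivSqZeroExt K K)
    (fun i => (TrivSqZeroExt.inl (z i) + TrivSqZeroExt.inr (w i) : TrivSqZeroExt K K))
  have h2 : (∀ k, ∑ i, w i * MvPolynomial.aeval z (MvPolynomial.pderiv i (P k)) = 0) ↔
      ∀ k, MvPolynomial.aeval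
        (fun i => (TrivSqZeroExt.inl (z i) + TrivSqZeroExt.inr (w i) : TrivSqZeroExt K K)) (P k) = 0 := by
    refine forall_congr' (fun k => ?_)
    rw [tay_dual, h0 k, TrivSqZeroExt.inl_zero, zero_add]
    constructor
    · intro h
      rw [h, TrivSqZeroExt.inr_zero]
    · intro h
      have := congrArg TrivSqZeroExt.snd h
      simpa using this
  refine h2.trans ?_
  have h3 : (∀ k, MvPolynomial.aeval
        (fun i => (TrivSqZeroExt.inl (z i) + TrivSqZeroExt.inr (w i) : TrivSqZeroExt K K)) (P k) = 0) ↔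
      Sys d (cZ (fun i => (TrivSqZeroExt.inl (z i) + TrivSqZeroExt.inr (w i) : TrivSqZeroExt K K)))
        (nZ (fun i => (TrivSqZeroExt.inl (z i) + TrivSqZeroExt.inr (w i) : TrivSqZeroExt K K))) := by
    convert h1
    rw [MvPolynomial.aeval_def, MvPolynomial.aeval_def]
    congr 1
  rw [h3]
  have e1 : cZ (fun i => (TrivSqZeroExt.inl (z i) + TrivSqZeroExt.inr (w i) : TrivSqZeroExt K K)) =
      fun i j k => E (cZ z i j k) (cZ w i j k) := by
    funext i j k; exact cZ_E z w i j k
  have e2 : nZ (fun i => (TrivSqZeroExt.inl (z i) + TrivSqZeroExt.inr (w i) : TrivSqZeroExt K K)) =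
      fun i k => E (nZ z i k) (nZ w i k) := by
    funext i k; exact nZ_E z w i k
  rw [e1, e2]
  exact sys_E d _ _ _ _ hz

end Pool.Agent.HFB
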