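import Pool.Agent.HFB.DefsA
import Pool.Agent.ESH.TWA

/-!
# HFB / LOW: lowest homogeneous part of a relation

Write `Q(F, T)`, `F = (F_i)_{i ∈ ι}` (the variables `some i`), `T` the variable `none`.  Let `Q_j` be the part of `Q` of degree `j` in the `F` (sum of the monomials `m` with `∑_i m (some i) = j`), `j` the smallest one with `Q_j ≠ 0`.  Choose a power `b`
of `T` such that the coefficient `r(F) ≠ 0` of `T^b` in `Q_j` is not zero; degrees in each `F_i` `< N = tw 2 s`, so there is `v ∈ {0, …, N - 1}^ι` with `r(v) ≠ 0` (`MvPolynomial.eq_zero_of_eval_zero_at_prod_finset`).  `q(T) = Q_j(v, T)`: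
non-zero, degree `< N`, coefficients at most `N^ν · tw 4 s · N^(s N)` (`≤ tw 6 s` by `tw_mul`, `tw_pow`).
If `y_i ≡ X v_i` modulo `X^(j+1)`, hence `y_i = X y'_i` with `y'_i ≡ v_i` modulo `X^j` and at least `y'_i(0) = v_i`  (for `j = 0`: `y_i(0) = 0`), then `Q_l(y, t)` is divisible by `X^(j+1)` for `l > j`, `Q_l = 0` for `l < j`, and
`Q_j(y, t) = X^j Q_j(y', t)`  (for `j = 0` there is no `y` in `Q_0`).  Careful: for `j ≥ 1`, `X^(j+1) ∣ y_i - X v_i` gives `X^j ∣ y'_i - v_i`, so `y'_i(0) = v_i`.  So `X^(j+1) ∣ X^j Q_j(y', t)`, `X ∣ Q_j(y', t)`, and at `X = 0`: `q(t(0)) = 0`.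
-/

namespace Pool.Agent.HFB

open Polynomial Pool.Agent.ESH

theorem low {ι : Type*} [Fintype ι] (K : Type*) [Field K] [CharZero K] (s : ℕ) (hs : 16 ≤ s)
    (hι : Fintype.card ι ≤ s) (Q : MvPolynomial (Option ι) ℤ) (hQ : Q ≠ 0)
    (hdeg : ∀ o, Q.degreeOf o < tw 2 s) (hco : ∀ m, (Q.coeff m).natAbs ≤ tw 4 s) :
    ∃ (v : ι → ℕ) (j : ℕ) (q : ℤ[X]), q ≠ 0 ∧ q.natDegree ≤ tw 6 s ∧ (∀ i, (q.coeff i).natAbs ≤ tw 6 s) ∧
      ∀ (y : ι → K[X]) (t : K[X]), (∀ i, X ^ (j + 1) ∣ y i - X * C ((v i : ℕ) : K)) →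
        X ^ (j + 1) ∣ MvPolynomial.aeval (fun o : Option ι => o.elim t y) Q → aeval (t.eval 0) q = 0 := by
  classical
  obtain ⟨N, hNdef⟩ : ∃ N : ℕ, N = tw 2 s := ⟨_, rfl⟩
  rw [← hNdef] at hdeg
  have hN0 : 0 < N := by rw [hNdef]; exact Nat.lt_of_lt_of_le (by omega) (le_tw 2 s)
  let dg : (Option ι →₀ ℕ) → ℕ := fun m => ∑ i, m (some i)
  have hne : Q.support.Nonempty := by
    rw [Finset.nonempty_iff_ne_empty, Ne, MvPolynomial.support_eq_empty]
    exact hQ
  obtain ⟨m0, hm0, hmin⟩ := Finset.exists_min_image Q.support dg hne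
  set j := dg m0 with hj
  set S := Q.support.filter (fun m => dg m = j) with hS
  have hm0S : m0 ∈ S := Finset.mem_filter.2 ⟨hm0, rfl⟩
  have hlt : ∀ m ∈ Q.support, ∀ o, m o < N := fun m hm o => (MvPolynomial.degreeOf_lt_iff hN0).1 (hdeg o) m hm
  set Qj : MvPolynomial (Option ι) ℤ := ∑ m ∈ S, MvPolynomial.monomial m (Q.coeff m) with hQj
  have hcoeff : ∀ m, Qj.coeff m = if m ∈ S then Q.coeff m else 0 := by
    intro m
    rw [hQj, MvPolynomial.coeff_sum]
    simp only [MvPolynomial.coeff_monomial]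
    rw [Finset.sum_ite_eq' S m]
  have hQj0 : Qj ≠ 0 := by
    intro h0
    have h1 := hcoeff m0
    rw [h0, if_pos hm0S, MvPolynomial.coeff_zero] at h1
    exact (MvPolynomial.mem_support_iff.1 hm0) h1.symm
  have hdj : ∀ o, Qj.degreeOf o < N := by
    intro o
    rw [MvPolynomial.degreeOf_lt_iff hN0]
    intro m hm
    rw [MvPolynomial.mem_support_iff, hcoeff] at hm
    by_cases hmS : m ∈ S
    · exact hlt m (Finset.mem_filter.1 hmS).1 o
    · rw [if_neg hmS] at hm
      exact absurd rfl hm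
  obtain ⟨w, hw, hwe⟩ : ∃ w : Option ι → ℕ, (∀ o, w o < N) ∧ MvPolynomial.eval (fun o => (w o : ℤ)) Qj ≠ 0 := by
    by_contra hcon
    push Not at hcon
    apply hQj0
    refine MvPolynomial.eq_zero_of_eval_zero_at_prod_finset Qj
      (fun _ => (Finset.range N).image (fun k : ℕ => (k : ℤ))) ?_ ?_
    · intro o
      rw [Finset.card_image_of_injective _ Nat.cast_injective, Finset.card_range]
      exact hdj o
    · intro z hz
      choose w hw using fun o => Finset.mem_image.1 (hz o)
      have := hcon w fun o => Finset.mem_range.1 (hw o).1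
      rw [show z = fun o => (w o : ℤ) from funext fun o => (hw o).2.symm]
      exact this
  let v : ι → ℕ := fun i => w (some i)
  let q : ℤ[X] := ∑ m ∈ S, C (Q.coeff m * ∏ i, (v i : ℤ) ^ (m (some i))) * X ^ (m none)
  have hqe : q.eval (w none : ℤ) = MvPolynomial.eval (fun o => (w o : ℤ)) Qj := by
    simp only [q]
    rw [eval_finsetSum, hQj, map_sum]
    refine Finset.sum_congr rfl fun m _ => ?_
    rw [eval_mul, eval_C, eval_pow, eval_X, MvPolynomial.eval_monomial, Finsupp.prod_fintype _ _ (fun o => pow_zero _),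
      Fintype.prod_option]
    simp only [v]
    ring
  have hN6 : N ≤ tw 6 s := by rw [hNdef]; exact tw_mono (by norm_num) le_rfl
  refine ⟨v, j, q, ?_, ?_, ?_, ?_⟩
  · intro h0
    rw [h0, eval_zero] at hqe
    exact hwe hqe.symm
  · refine le_trans (natDegree_sum_le_of_forall_le _ _ (n := N) fun m hm => ?_) hN6
    refine (natDegree_C_mul_X_pow_le _ _).trans ?_
    exact (hlt m (Finset.mem_filter.1 hm).1 none).le
  · intro b
    have h1 : q.coeff b = ∑ m ∈ S, if b = m none then Q.coeff m * ∏ i, (v i : ℤ) ^ (m (some i)) else 0 := by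
      simp only [q]
      rw [finsetSum_coeff]
      refine Finset.sum_congr rfl fun m _ => ?_
      rw [coeff_C_mul_X_pow]
    have hcard : S.card ≤ tw 4 s := by
      have h2 : S.card ≤ (Fintype.piFinset fun _ : Option ι => Finset.range N).card := by
        refine Finset.card_le_card_of_injOn (fun m => (fun o => m o)) ?_ ?_
        · intro m hm
          rw [Finset.mem_coe, Fintype.mem_piFinset]
          intro o
          exact Finset.mem_range.2 (hlt m (Finset.mem_filter.1 hm).1 o)
        · intro m _ m' _ h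
          exact DFunLike.coe_injective h
      rw [Fintype.card_piFinset, Finset.prod_const, Finset.card_range, Finset.card_univ, Fintype.card_option] at h2
      refine h2.trans (tw_pow hs (c := 2) hNdef.le ?_)
      have h3 : s + 1 ≤ tw 1 s := Nat.lt_two_pow_self
      exact (Nat.succ_le_succ hι).trans (h3.trans (tw_mono (by norm_num) le_rfl))
    have hterm : ∀ m ∈ S, (if b = m none then Q.coeff m * ∏ i, (v i : ℤ) ^ (m (some i)) else 0).natAbs ≤
        tw 4 s * N ^ (N * Fintype.card ι) := by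
      intro m hm
      split_ifs
      · rw [Int.natAbs_mul]
        refine Nat.mul_le_mul (hco m) ?_
        have h4 : (∏ i, (v i : ℤ) ^ (m (some i))) = ((∏ i, v i ^ (m (some i)) : ℕ) : ℤ) := by push_cast; rfl
        rw [h4, Int.natAbs_natCast, pow_mul]
        refine (Finset.prod_le_pow_card _ _ (N ^ N) fun i _ => ?_)
        have h5 : v i < N := hw (some i)
        have h6 := hlt m (Finset.mem_filter.1 hm).1 (some i)
        exact (Nat.pow_le_pow_left h5.le _).trans (Nat.pow_le_pow_right hN0 h6.le)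
      · simp
    have hpow : N ^ (N * Fintype.card ι) ≤ tw 5 s := by
      have h7 : N * Fintype.card ι ≤ tw 3 s := tw_mul hs (c := 2) hNdef.le (hι.trans (le_tw 2 s))
      refine tw_pow hs (c := 3) ?_ h7
      rw [hNdef]
      exact tw_mono (by norm_num) le_rfl
    rw [h1]
    have h8 : (∑ m ∈ S, if b = m none then Q.coeff m * ∏ i, (v i : ℤ) ^ (m (some i)) else 0).natAbs ≤
        S.card * (tw 4 s * N ^ (N * Fintype.card ι)) := by
      refine (Int.natAbs_sum_le _ _).trans ?_
      rw [← smul_eq_mul]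
      exact Finset.sum_le_card_nsmul _ _ _ hterm
    refine h8.trans ?_
    rw [← mul_assoc]
    exact tw_mul hs (c := 5) (tw_mul hs (c := 4) hcard le_rfl) hpow
  · intro y t hy hdvd
    have hyX : ∀ i, (X : K[X]) ∣ y i := by
      intro i
      have h1 : (X : K[X]) ∣ y i - X * C ((v i : ℕ) : K) := (dvd_pow_self X (Nat.succ_ne_zero j)).trans (hy i)
      have h2 := dvd_add h1 (dvd_mul_right (X : K[X]) (C ((v i : ℕ) : K)))
      rwa [sub_add_cancel] at h2
    choose y' hy' using hyX
    have hv : j ≠ 0 → ∀ i, (y' i).eval 0 = ((v i : ℕ) : K) := by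
      intro hj0 i
      have h1 := hy i
      rw [hy' i, ← mul_sub, pow_succ'] at h1
      have h2 : (X : K[X]) ^ j ∣ y' i - C ((v i : ℕ) : K) := (mul_dvd_mul_iff_left X_ne_zero).1 h1
      have h3 : (X : K[X]) ∣ y' i - C ((v i : ℕ) : K) := (dvd_pow_self X hj0).trans h2
      rw [X_dvd_iff, coeff_zero_eq_eval_zero, eval_sub, eval_C, sub_eq_zero] at h3
      exact h3
    obtain ⟨E, hE⟩ : ∃ E : K[X], E = ∑ m ∈ Q.support, X ^ (dg m - j) *
        (C ((Q.coeff m : ℤ) : K) * t ^ (m none) * ∏ i, y' i ^ (m (some i))) := ⟨_, rfl⟩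
    have h1 : MvPolynomial.aeval (fun o : Option ι => o.elim t y) Q = X ^ j * E := by
      rw [MvPolynomial.aeval_def, MvPolynomial.eval₂_eq', hE, Finset.mul_sum]
      refine Finset.sum_congr rfl fun m hm => ?_
      rw [Fintype.prod_option]
      simp only [Option.elim_none, Option.elim_some, hy', mul_pow, Finset.prod_mul_distrib]
      rw [Finset.prod_pow_eq_pow_sum]
      have h2 : ∑ i, m (some i) = j + (dg m - j) := by
        have := hmin m hm
        change dg m = _
        omega
      have h3 : algebraMap ℤ K[X] (Q.coeff m) = C ((Q.coeff m : ℤ) : K) := by simp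
      rw [h2, pow_add, h3]
      ring
    rw [h1, pow_succ] at hdvd
    have h2 : (X : K[X]) ∣ E := (mul_dvd_mul_iff_left (pow_ne_zero j X_ne_zero)).1 hdvd
    rw [X_dvd_iff, coeff_zero_eq_eval_zero] at h2
    refine Eq.trans ?_ h2
    rw [hE, eval_finsetSum]
    simp only [q]
    rw [map_sum, hS, Finset.sum_filter]
    refine Finset.sum_congr rfl fun m hm => ?_
    rw [eval_mul, eval_pow, eval_X]
    split_ifs with h3
    · rw [h3, Nat.sub_self, pow_zero, one_mul, eval_mul, eval_mul, eval_C, eval_pow, eval_prod]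
      rw [map_mul, map_pow, aeval_X, aeval_C, algebraMap_int_eq, eq_intCast]
      have h4 : ∏ i, eval 0 (y' i ^ (m (some i))) = ∏ i, ((v i : ℕ) : K) ^ (m (some i)) := by
        refine Finset.prod_congr rfl fun i _ => ?_
        rw [eval_pow]
        by_cases hj0 : j = 0
        · have h5 : ∑ i, m (some i) = 0 := by
            change dg m = 0
            rw [h3, hj0]
          have h6 : m (some i) = 0 := (Finset.sum_eq_zero_iff.1 h5) i (Finset.mem_univ i)
          rw [h6, pow_zero, pow_zero]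
        · rw [hv hj0 i]
      rw [h4]
      push_cast
      ring
    · have h5 := hmin m hm
      rw [zero_pow (by omega), zero_mul]

end Pool.Agent.HFB
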