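import Pool.Agent.HFB.DefsA

/-!
# HFB / TAY: Taylor expansion to first order

Induction on `P` (`MvPolynomial.induction_on`), or: both sides are compatible with sums and products modulo `I ^ 2`.  `tay_dual`: the same in the dual numbers, `inr w * inr w' = 0`.
-/

namespace Pool.Agent.HFB

open Polynomial

theorem tay {A B ι : Type*} [CommRing A] [CommRing B] [Algebra A B] [Fintype ι] (P : MvPolynomial ι A)
    (x y : ι → B) (I : Ideal B) (hy : ∀ i, y i ∈ I) :
    MvPolynomial.aeval (x + y) P - MvPolynomial.aeval x P -
      ∑ i, y i * MvPolynomial.aeval x (MvPolynomial.pderiv i P) ∈ I ^ 2 := by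
  classical
  induction P using MvPolynomial.induction_on with
  | C a =>
    have h : MvPolynomial.aeval (x + y) (MvPolynomial.C a) - MvPolynomial.aeval x (MvPolynomial.C a) -
        ∑ i, y i * MvPolynomial.aeval x (MvPolynomial.pderiv i (MvPolynomial.C a : MvPolynomial ι A))
        = 0 := by
      simp
    rw [h]
    exact (I ^ 2).zero_mem
  | add p q hp hq =>
    have h : MvPolynomial.aeval (x + y) (p + q) - MvPolynomial.aeval x (p + q) -
        ∑ i, y i * MvPolynomial.aeval x (MvPolynomial.pderiv i (p + q))
        = (MvPolynomial.aeval (x + y) p - MvPolynomial.aeval x p -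
          ∑ i, y i * MvPolynomial.aeval x (MvPolynomial.pderiv i p)) +
          (MvPolynomial.aeval (x + y) q - MvPolynomial.aeval x q -
          ∑ i, y i * MvPolynomial.aeval x (MvPolynomial.pderiv i q)) := by
      simp only [map_add, mul_add, Finset.sum_add_distrib]
      ring
    rw [h]
    exact (I ^ 2).add_mem hp hq
  | mul_X p j hp =>
    have hs : ∑ i, y i * MvPolynomial.aeval x (MvPolynomial.pderiv i (p * MvPolynomial.X j))
        = (∑ i, y i * MvPolynomial.aeval x (MvPolynomial.pderiv i p)) * x j +
          y j * MvPolynomial.aeval x p := by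
      have h1 : ∀ i, y i * MvPolynomial.aeval x (MvPolynomial.pderiv i (p * MvPolynomial.X j))
          = (y i * MvPolynomial.aeval x (MvPolynomial.pderiv i p)) * x j +
            (if i = j then y j * MvPolynomial.aeval x p else 0) := by
        intro i
        rw [MvPolynomial.pderiv_mul, map_add, map_mul, map_mul, MvPolynomial.aeval_X]
        by_cases hij : i = j
        · subst hij
          rw [MvPolynomial.pderiv_X_self, map_one, if_pos rfl]
          ring
        · rw [MvPolynomial.pderiv_X_of_ne (Ne.symm hij), map_zero, if_neg hij]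
          ring
      rw [Finset.sum_congr rfl fun i _ => h1 i, Finset.sum_add_distrib, Finset.sum_mul]
      simp
    set D := ∑ i, y i * MvPolynomial.aeval x (MvPolynomial.pderiv i p) with hD
    have hDI : D ∈ I := I.sum_mem fun i _ => I.mul_mem_right _ (hy i)
    have h : MvPolynomial.aeval (x + y) (p * MvPolynomial.X j) -
        MvPolynomial.aeval x (p * MvPolynomial.X j) -
        ∑ i, y i * MvPolynomial.aeval x (MvPolynomial.pderiv i (p * MvPolynomial.X j))
        = (MvPolynomial.aeval (x + y) p - MvPolynomial.aeval x p - D) * (x j + y j) + D * y j := by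
      rw [hs, map_mul, map_mul, MvPolynomial.aeval_X, MvPolynomial.aeval_X, Pi.add_apply]
      ring
    rw [h]
    refine (I ^ 2).add_mem ((I ^ 2).mul_mem_right _ hp) ?_
    rw [pow_two]
    exact Ideal.mul_mem_mul hDI (hy j)

theorem tay_dual {A C ι : Type*} [CommRing A] [CommRing C] [Algebra A C] [Fintype ι]
    (P : MvPolynomial ι A) (z w : ι → C) :
    MvPolynomial.aeval (fun i => (TrivSqZeroExt.inl (z i) + TrivSqZeroExt.inr (w i) : TrivSqZeroExt C C)) P =
      TrivSqZeroExt.inl (MvPolynomial.aeval z P) +
        TrivSqZeroExt.inr (∑ i, w i * MvPolynomial.aeval z (MvPolynomial.pderiv i P)) := by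
  classical
  induction P using MvPolynomial.induction_on with
  | C a =>
    simp only [MvPolynomial.algHom_C, MvPolynomial.pderiv_C, map_zero, mul_zero,
      Finset.sum_const_zero, TrivSqZeroExt.inr_zero, add_zero]
    rfl
  | add p q hp hq =>
    rw [map_add, hp, hq]
    simp only [map_add, mul_add, Finset.sum_add_distrib, TrivSqZeroExt.inl_add,
      TrivSqZeroExt.inr_add]
    ring
  | mul_X p j hp =>
    have hs : ∑ i, w i * MvPolynomial.aeval z (MvPolynomial.pderiv i (p * MvPolynomial.X j))
        = (∑ i, w i * MvPolynomial.aeval z (MvPolynomial.pderiv i p)) * z j +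
          w j * MvPolynomial.aeval z p := by
      have h1 : ∀ i, w i * MvPolynomial.aeval z (MvPolynomial.pderiv i (p * MvPolynomial.X j))
          = (w i * MvPolynomial.aeval z (MvPolynomial.pderiv i p)) * z j +
            (if i = j then w j * MvPolynomial.aeval z p else 0) := by
        intro i
        rw [MvPolynomial.pderiv_mul, map_add, map_mul, map_mul, MvPolynomial.aeval_X]
        by_cases hij : i = j
        · subst hij
          rw [MvPolynomial.pderiv_X_self, map_one, if_pos rfl]
          ring
        · rw [MvPolynomial.pderiv_X_of_ne (Ne.symm hij), map_zero, if_neg hij]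
          ring
      rw [Finset.sum_congr rfl fun i _ => h1 i, Finset.sum_add_distrib, Finset.sum_mul]
      simp
    rw [map_mul, hp, MvPolynomial.aeval_X, hs, map_mul, MvPolynomial.aeval_X]
    ext
    · simp
    · simp [mul_comm]

end Pool.Agent.HFB
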