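import Pool.Agent.HFB.DefsA
import Pool.Agent.HFB.TAY

/-!
# HFB / NWT: Newton iteration at a non-degenerate solution

Induction on `m`.  `m = 0`: `x_i = z_i` constant, `P_k(z) = 0`: divisible by `X`  (`P_k(z) - X v_k = - X v_k`).  Step: given `x` for `m`, `P_k(x) - X v_k = X^(m+1) r_k`; put `x' = x + X^(m+1) w`, `w` constant.  TAY with `I = (X^(m+1))`:
`P_k(x') ≡ P_k(x) + X^(m+1) ∑ w_i (∂_i P_k)(x)` modulo `X^(2m+2)`, hence modulo `X^(m+2)`, and `(∂_i P_k)(x) ≡ (∂_i P_k)(z)` modulo `X`.  So we need `∑ w_i (∂_i P_k)(z) = - r_k(0)` for all `k ∈ ι`: the square matrix `((∂_i P_k)(z))` is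
invertible by `h1` (`Matrix.exists_mulVec_eq_zero_iff`, or `LinearMap.injective_iff_surjective`).
-/

namespace Pool.Agent.HFB

open Polynomial

private theorem nwt_C {ι : Type*} {K : Type*} [Field K] (z : ι → K) (p : MvPolynomial ι ℤ) :
    MvPolynomial.aeval (fun i => (C (z i) : K[X])) p = C (MvPolynomial.aeval z p) := by
  induction p using MvPolynomial.induction_on with
  | C a => simp
  | add p q hp hq => rw [map_add, map_add, hp, hq, C_add]
  | mul_X p i hp => rw [map_mul, map_mul, hp, MvPolynomial.aeval_X, MvPolynomial.aeval_X, C_mul]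

private theorem nwt_ev {ι : Type*} {K : Type*} [Field K] (x : ι → K[X]) (p : MvPolynomial ι ℤ) :
    (MvPolynomial.aeval x p).eval 0 = MvPolynomial.aeval (fun i => (x i).eval 0) p := by
  induction p using MvPolynomial.induction_on with
  | C a => simp
  | add p q hp hq => rw [map_add, map_add, eval_add, hp, hq]
  | mul_X p i hp => rw [map_mul, map_mul, eval_mul, hp, MvPolynomial.aeval_X, MvPolynomial.aeval_X]

private theorem nwt_surj {ι : Type*} [Fintype ι] {K : Type*} [Field K] (a : ι → ι → K)
    (h1 : ∀ w : ι → K, (∀ k, ∑ i, w i * a i k = 0) → w = 0) (c : ι → K) :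
    ∃ w : ι → K, ∀ k, ∑ i, w i * a i k = c k := by
  classical
  let f : (ι → K) →ₗ[K] (ι → K) :=
    { toFun := fun w k => ∑ i, w i * a i k
      map_add' := fun w w' => by
        funext k
        simp only [Pi.add_apply, add_mul, Finset.sum_add_distrib]
      map_smul' := fun t w => by
        funext k
        simp only [Pi.smul_apply, smul_eq_mul, RingHom.id_apply, Finset.mul_sum, mul_assoc] }
  have hf : Function.Injective f := by
    rw [← LinearMap.ker_eq_bot, LinearMap.ker_eq_bot']
    intro w hw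
    exact h1 w fun k => congrFun hw k
  obtain ⟨w, hw⟩ := (LinearMap.injective_iff_surjective.1 hf) c
  exact ⟨w, fun k => congrFun hw k⟩

theorem nwt {ι : Type*} [Fintype ι] {K : Type*} [Field K] (P : ι → MvPolynomial ι ℤ) (z : ι → K)
    (h0 : ∀ k, MvPolynomial.aeval z (P k) = 0)
    (h1 : ∀ w : ι → K, (∀ k, ∑ i, w i * MvPolynomial.aeval z (MvPolynomial.pderiv i (P k)) = 0) → w = 0)
    (v : ι → K) (m : ℕ) :
    ∃ x : ι → K[X], (∀ i, (x i).eval 0 = z i) ∧
      ∀ k, X ^ (m + 1) ∣ MvPolynomial.aeval x (P k) - X * C (v k) := by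
  induction m with
  | zero =>
    refine ⟨fun i => C (z i), fun i => by simp, fun k => ?_⟩
    rw [nwt_C, h0 k, C_0, zero_sub, zero_add, pow_one]
    exact (dvd_mul_right _ _).neg_right
  | succ m ih =>
    obtain ⟨x, hx, hd⟩ := ih
    choose r hr using hd
    obtain ⟨w, hw⟩ := nwt_surj (fun i k => MvPolynomial.aeval z (MvPolynomial.pderiv i (P k))) h1
      (fun k => -(r k).eval 0)
    have hxz : (fun i => (x i).eval 0) = z := funext hx
    refine ⟨x + fun i => X ^ (m + 1) * C (w i), fun i => by simp [hx], fun k => ?_⟩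
    have hT := tay (P k) x (fun i => X ^ (m + 1) * C (w i)) (Ideal.span {(X : K[X]) ^ (m + 1)})
      (fun i => Ideal.mem_span_singleton.2 (dvd_mul_right _ _))
    rw [Ideal.span_singleton_pow, Ideal.mem_span_singleton] at hT
    have hT' : (X : K[X]) ^ (m + 1 + 1) ∣ MvPolynomial.aeval (x + fun i => X ^ (m + 1) * C (w i)) (P k) -
        MvPolynomial.aeval x (P k) -
        ∑ i, X ^ (m + 1) * C (w i) * MvPolynomial.aeval x (MvPolynomial.pderiv i (P k)) := by
      refine dvd_trans ?_ hT
      rw [← pow_mul]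
      exact pow_dvd_pow _ (by omega)
    have hin : (X : K[X]) ∣ ∑ i, C (w i) * MvPolynomial.aeval x (MvPolynomial.pderiv i (P k)) + r k := by
      rw [X_dvd_iff, coeff_zero_eq_eval_zero, eval_add, eval_finsetSum]
      have : ∑ i, eval 0 (C (w i) * MvPolynomial.aeval x (MvPolynomial.pderiv i (P k))) = -(r k).eval 0 := by
        rw [← hw k]
        refine Finset.sum_congr rfl fun i _ => ?_
        rw [eval_mul, eval_C, nwt_ev, hxz]
      rw [this]
      ring
    have h2 : (X : K[X]) ^ (m + 1 + 1) ∣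
        ∑ i, X ^ (m + 1) * C (w i) * MvPolynomial.aeval x (MvPolynomial.pderiv i (P k)) +
          X ^ (m + 1) * r k := by
      have : ∑ i, X ^ (m + 1) * C (w i) * MvPolynomial.aeval x (MvPolynomial.pderiv i (P k)) +
          X ^ (m + 1) * r k = X ^ (m + 1) *
            (∑ i, C (w i) * MvPolynomial.aeval x (MvPolynomial.pderiv i (P k)) + r k) := by
        rw [mul_add, Finset.mul_sum]
        congr 1
        exact Finset.sum_congr rfl fun i _ => by ring
      rw [this, pow_succ]
      exact mul_dvd_mul_left _ hin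
    have h3 := dvd_add hT' h2
    have hr' := hr k
    have : MvPolynomial.aeval (x + fun i => X ^ (m + 1) * C (w i)) (P k) - X * C (v k) =
        MvPolynomial.aeval (x + fun i => X ^ (m + 1) * C (w i)) (P k) -
        MvPolynomial.aeval x (P k) -
        ∑ i, X ^ (m + 1) * C (w i) * MvPolynomial.aeval x (MvPolynomial.pderiv i (P k)) +
        (∑ i, X ^ (m + 1) * C (w i) * MvPolynomial.aeval x (MvPolynomial.pderiv i (P k)) +
          X ^ (m + 1) * r k) := by
      rw [← hr']
      ring
    rw [this]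
    exact h3

end Pool.Agent.HFB
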