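import Pool.Agent.HFB.SGR
import Pool.Agent.HFB.LOW
import Pool.Agent.HFB.NWT
import Pool.Agent.ESH.COL

/-!
# HFB / NDG: non-degenerate solutions of integral systems have bounded height

Choose `e : ι → κ` injective such that the square system `P ∘ e` is still non-degenerate at `z` (`exists_minor` of ESH / COL applied to the matrix `A i k = (∂_i P_k)(z)`).  SGR for `P ∘ e` and `i₀ = i`: `Q`.  LOW: `v, j, q`.  NWT with `v` and `m = j`: `x` with `x_i(0) = z_i`
and `X^(j+1) ∣ P_{e k}(x) - X v_k`.  `Q(P(x), x_i) = 0` (apply `aeval x` to the relation).  So LOW with `y_k = P_{e k}(x)`, `t = x_i` gives `q(z_i) = 0`.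
-/

namespace Pool.Agent.HFB

open Polynomial Pool.Agent.ESH

theorem ndg {ι κ : Type*} [Fintype ι] [Fintype κ] {K : Type*} [Field K] [CharZero K]
    (P : κ → MvPolynomial ι ℤ) (z : ι → K) (s : ℕ) (hs : 16 ≤ s) (hι : Fintype.card ι ≤ s)
    (hD : ∀ k, (P k).totalDegree ≤ s) (hH : ∀ k, nrm1 (P k) ≤ s)
    (h0 : ∀ k, MvPolynomial.aeval z (P k) = 0)
    (h1 : ∀ w : ι → K, (∀ k, ∑ i, w i * MvPolynomial.aeval z (MvPolynomial.pderiv i (P k)) = 0) → w = 0)
    (i : ι) : AlgB (tw 6 s) (z i) := by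
  classical
  obtain ⟨e, he, hdet⟩ := exists_minor
    (Matrix.of fun i k => MvPolynomial.aeval z (MvPolynomial.pderiv i (P k)))
    (fun c hc => h1 c fun k => by simpa using hc k)
  have h1' : ∀ w : ι → K, (∀ k, ∑ i, w i * MvPolynomial.aeval z
      (MvPolynomial.pderiv i ((P ∘ e) k)) = 0) → w = 0 := by
    intro w hw
    refine Matrix.eq_zero_of_vecMul_eq_zero hdet ?_
    funext k
    simpa [Matrix.vecMul, dotProduct] using hw k
  obtain ⟨Q, hQ, hQd, hQc, hQ0⟩ := sgr (P ∘ e) i s hs hι (fun k => hD _) (fun k => hH _)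
  obtain ⟨v, j, q, hq, hqd, hqc, hlow⟩ := low K s hs hι Q hQ hQd hQc
  obtain ⟨x, hx, hd⟩ := nwt (P ∘ e) z (fun k => h0 _) h1' (fun i => ((v i : ℕ) : K)) j
  refine ⟨q, hq, ?_, hqd, hqc⟩
  have := hlow (fun k => MvPolynomial.aeval x ((P ∘ e) k)) (x i) (fun k => hd k) ?_
  · rwa [hx i] at this
  · have h2 := congrArg (MvPolynomial.aeval x) hQ0
    rw [map_zero, MvPolynomial.comp_aeval_apply] at h2
    have h3 : (fun o : Option ι => (MvPolynomial.aeval x) (o.elim (MvPolynomial.X i) (P ∘ e))) =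
        fun o : Option ι => o.elim (x i) (fun k => MvPolynomial.aeval x ((P ∘ e) k)) := by
      funext o
      cases o with
      | none => simp
      | some k => simp
    rw [h3] at h2
    rw [h2]
    exact dvd_zero _

end Pool.Agent.HFB
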