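import Pool.Agent.HFB.DefsA

/-!
# HFB / UNV: the equations of the structure constants

Take the generic point `Z = X : ZI n M → MvPolynomial (ZI n M) ℤ` and for `P` all the coefficients (of `X^s`, `s < 2 M + 2`) of the differences of the two sides of the equations `comm`, `assoc`, `leib` of `Sys d (cZ Z) (nZ Z)`, and the coefficients occurring in `degc`, `degN` (`s < M`).
(`κ` = a finite sum of products of `Fin`'s.)  For `z : ZI n M → R` the ring homomorphism `aeval z` maps `cZ Z`, `nZ Z` to `cZ z`, `nZ z` (`Polynomial.map`), and derivatives, products, sums are compatible with it; all polynomials occurring have degree `< 2 M + 2`, so vanishing of the coefficients is equality.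
Total degrees `≤ 2`.  `nrm1`: a coefficient of a product `(∑ C a_s X^s) (∑ C b_t X^t)` of two generic polynomials is a sum of at most `M` products of two variables; `assoc`: `≤ 2 n M`; `leib`: `≤ 2 M + 3 n M` (coefficient of `X^s` in `X (X-1) c'`: `(s-1) c_{s-1} - s c_s`).
-/

namespace Pool.Agent.HFB

open Polynomial

universe v

/-! ### The norm -/

private theorem unv_nrm_eq {ι : Type*} (p : MvPolynomial ι ℤ) (S : Finset (ι →₀ ℕ))
    (hS : p.support ⊆ S) : nrm1 p = ∑ m ∈ S, (p.coeff m).natAbs := by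
  unfold nrm1
  apply Finset.sum_subset hS
  intro m _ hm
  rw [MvPolynomial.notMem_support_iff.1 hm]
  rfl

private theorem unv_nrm_zero {ι : Type*} : nrm1 (0 : MvPolynomial ι ℤ) = 0 := by
  unfold nrm1
  simp

private theorem unv_nrm_neg {ι : Type*} (p : MvPolynomial ι ℤ) : nrm1 (-p) = nrm1 p := by
  unfold nrm1
  rw [MvPolynomial.support_neg]
  refine Finset.sum_congr rfl fun m _ => ?_
  rw [MvPolynomial.coeff_neg, Int.natAbs_neg]

private theorem unv_nrm_add {ι : Type*} (p q : MvPolynomial ι ℤ) :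
    nrm1 (p + q) ≤ nrm1 p + nrm1 q := by
  classical
  rw [unv_nrm_eq (p + q) (p.support ∪ q.support) MvPolynomial.support_add,
    unv_nrm_eq p (p.support ∪ q.support) Finset.subset_union_left,
    unv_nrm_eq q (p.support ∪ q.support) Finset.subset_union_right, ← Finset.sum_add_distrib]
  refine Finset.sum_le_sum fun m _ => ?_
  rw [MvPolynomial.coeff_add]
  exact Int.natAbs_add_le _ _

private theorem unv_nrm_sum {ι κ : Type*} (S : Finset κ) (p : κ → MvPolynomial ι ℤ) :
    nrm1 (∑ k ∈ S, p k) ≤ ∑ k ∈ S, nrm1 (p k) := by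
  classical
  induction S using Finset.induction_on with
  | empty => simp [unv_nrm_zero]
  | insert k S hk ih =>
    rw [Finset.sum_insert hk, Finset.sum_insert hk]
    exact (unv_nrm_add _ _).trans (Nat.add_le_add_left ih _)

private theorem unv_nrm_monomial {ι : Type*} (m : ι →₀ ℕ) (a : ℤ) :
    nrm1 (MvPolynomial.monomial m a) ≤ a.natAbs := by
  classical
  rw [unv_nrm_eq _ {m} MvPolynomial.support_monomial_subset, Finset.sum_singleton,
    MvPolynomial.coeff_monomial, if_pos rfl]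

private theorem unv_nrm_mul {ι : Type*} (p q : MvPolynomial ι ℤ) :
    nrm1 (p * q) ≤ nrm1 p * nrm1 q := by
  classical
  have h : p * q = ∑ m ∈ p.support, ∑ m' ∈ q.support,
      MvPolynomial.monomial (m + m') (p.coeff m * q.coeff m') := by
    conv_lhs => rw [MvPolynomial.as_sum p, MvPolynomial.as_sum q]
    rw [Finset.sum_mul_sum]
    refine Finset.sum_congr rfl fun m _ => Finset.sum_congr rfl fun m' _ => ?_
    rw [MvPolynomial.monomial_mul]
  rw [h]
  refine (unv_nrm_sum _ _).trans ?_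
  unfold nrm1
  rw [Finset.sum_mul_sum]
  refine Finset.sum_le_sum fun m _ => ?_
  refine (unv_nrm_sum _ _).trans ?_
  refine Finset.sum_le_sum fun m' _ => ?_
  refine (unv_nrm_monomial _ _).trans ?_
  rw [Int.natAbs_mul]

/-! ### Bounded polynomials -/

private def UB {ι : Type*} (D B : ℕ) (p : MvPolynomial ι ℤ) : Prop :=
  p.totalDegree ≤ D ∧ nrm1 p ≤ B

private theorem ub_mono {ι : Type*} {D B D' B' : ℕ} {p : MvPolynomial ι ℤ} (h : UB D B p)
    (hD : D ≤ D') (hB : B ≤ B') : UB D' B' p := ⟨h.1.trans hD, h.2.trans hB⟩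

private theorem ub_zero {ι : Type*} (D B : ℕ) : UB D B (0 : MvPolynomial ι ℤ) := by
  refine ⟨?_, ?_⟩
  · rw [MvPolynomial.totalDegree_zero]
    exact Nat.zero_le _
  · rw [unv_nrm_zero]
    exact Nat.zero_le _

private theorem ub_X {ι : Type*} (i : ι) : UB 1 1 (MvPolynomial.X i : MvPolynomial ι ℤ) := by
  refine ⟨?_, ?_⟩
  · rw [MvPolynomial.totalDegree_X]
  · exact (unv_nrm_monomial _ _).trans (by simp)

private theorem ub_natCast {ι : Type*} (a : ℕ) : UB 0 a ((a : ℕ) : MvPolynomial ι ℤ) := by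
  have h : ((a : ℕ) : MvPolynomial ι ℤ) = MvPolynomial.C (a : ℤ) := by simp
  rw [h]
  refine ⟨?_, ?_⟩
  · rw [MvPolynomial.totalDegree_C]
  · exact (unv_nrm_monomial _ _).trans (by simp)

private theorem ub_add {ι : Type*} {D B B' : ℕ} {p q : MvPolynomial ι ℤ} (h : UB D B p)
    (h' : UB D B' q) : UB D (B + B') (p + q) :=
  ⟨(MvPolynomial.totalDegree_add p q).trans (max_le h.1 h'.1),
    (unv_nrm_add p q).trans (Nat.add_le_add h.2 h'.2)⟩

private theorem ub_sub {ι : Type*} {D B B' : ℕ} {p q : MvPolynomial ι ℤ} (h : UB D B p)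
    (h' : UB D B' q) : UB D (B + B') (p - q) := by
  rw [sub_eq_add_neg]
  refine ub_add h ⟨?_, ?_⟩
  · rw [MvPolynomial.totalDegree_neg]
    exact h'.1
  · rw [unv_nrm_neg]
    exact h'.2

private theorem ub_mul {ι : Type*} {D D' B B' : ℕ} {p q : MvPolynomial ι ℤ} (h : UB D B p)
    (h' : UB D' B' q) : UB (D + D') (B * B') (p * q) :=
  ⟨(MvPolynomial.totalDegree_mul p q).trans (Nat.add_le_add h.1 h'.1),
    (unv_nrm_mul p q).trans (Nat.mul_le_mul h.2 h'.2)⟩

private theorem ub_sum {ι κ : Type*} {D : ℕ} (S : Finset κ) (B : κ → ℕ)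
    (p : κ → MvPolynomial ι ℤ) (h : ∀ k ∈ S, UB D (B k) (p k)) :
    UB D (∑ k ∈ S, B k) (∑ k ∈ S, p k) :=
  ⟨MvPolynomial.totalDegree_finsetSum_le fun k hk => (h k hk).1,
    (unv_nrm_sum S p).trans (Finset.sum_le_sum fun k hk => (h k hk).2)⟩

/-! ### Generic polynomials -/

/-- A polynomial with generic coefficients, with degree `< M`. -/
private def Gp {ι : Type*} (M : ℕ) (f : (MvPolynomial ι ℤ)[X]) : Prop :=
  ∀ s, (s < M → UB 1 1 (f.coeff s)) ∧ (M ≤ s → f.coeff s = 0)

private theorem gp_ub {ι : Type*} {M : ℕ} {f : (MvPolynomial ι ℤ)[X]} (h : Gp M f) (s : ℕ) :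
    UB 1 (if s < M then 1 else 0) (f.coeff s) := by
  by_cases hs : s < M
  · rw [if_pos hs]
    exact (h s).1 hs
  · rw [if_neg hs, (h s).2 (not_lt.1 hs)]
    exact ub_zero _ _

private theorem gp_mul {ι : Type*} {M : ℕ} {f g : (MvPolynomial ι ℤ)[X]} (hf : Gp M f)
    (hg : Gp M g) (s : ℕ) : UB 2 M ((f * g).coeff s) ∧ (2 * M ≤ s → (f * g).coeff s = 0) := by
  rw [Polynomial.coeff_mul]
  refine ⟨?_, ?_⟩
  · have h1 := ub_sum (D := 2) (Finset.HasAntidiagonal.antidiagonal s) (fun x => if x.1 < M then 1 else 0)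
      (fun x => f.coeff x.1 * g.coeff x.2) (fun x _ => by
        have h2 := gp_ub hf x.1
        have h3 : UB 1 1 (g.coeff x.2) := by
          refine ub_mono (gp_ub hg x.2) le_rfl ?_
          split_ifs <;> simp
        have h4 := ub_mul h2 h3
        simpa using h4)
    refine ub_mono h1 le_rfl ?_
    rw [Finset.Nat.sum_antidiagonal_eq_sum_range_succ_mk]
    rw [← Finset.card_filter]
    calc _ ≤ (Finset.range M).card := by
          apply Finset.card_le_card
          intro a ha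
          rw [Finset.mem_filter] at ha
          exact Finset.mem_range.2 ha.2
      _ = M := Finset.card_range M
  · intro hs
    apply Finset.sum_eq_zero
    intro x hx
    rw [Finset.HasAntidiagonal.mem_antidiagonal] at hx
    by_cases h1 : M ≤ x.1
    · rw [(hf x.1).2 h1, zero_mul]
    · rw [(hg x.2).2 (by omega), mul_zero]

private theorem gp_der {ι : Type*} {M : ℕ} {f : (MvPolynomial ι ℤ)[X]} (hf : Gp M f) (s : ℕ) :
    UB 2 (2 * M) ((X * (X - 1) * derivative f).coeff s) ∧
      (2 * M + 2 ≤ s → (X * (X - 1) * derivative f).coeff s = 0) := by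
  have e1 : X * (X - 1) * derivative f = X * (X * derivative f) - X * derivative f := by ring
  have key : ∀ t : ℕ, ∀ hM : M ≤ M, UB 2 M ((derivative f).coeff t) ∧
      (M ≤ t + 1 → (derivative f).coeff t = 0) := by
    intro t _
    rw [Polynomial.coeff_derivative]
    have e2 : ((t : MvPolynomial ι ℤ) + 1) = ((t + 1 : ℕ) : MvPolynomial ι ℤ) := by
      push_cast
      rfl
    rw [e2]
    refine ⟨?_, fun h => by rw [(hf (t + 1)).2 h, zero_mul]⟩
    by_cases h : t + 1 < M
    · have h1 := ub_mul ((hf (t + 1)).1 h) (ub_natCast (ι := ι) (t + 1))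
      exact ub_mono h1 (by omega) (by omega)
    · rw [(hf (t + 1)).2 (not_lt.1 h), zero_mul]
      exact ub_zero _ _
  have key2 : ∀ t : ℕ, UB 2 M ((X * derivative f).coeff t) ∧
      (M + 1 ≤ t → (X * derivative f).coeff t = 0) := by
    intro t
    cases t with
    | zero =>
      rw [Polynomial.coeff_X_mul_zero]
      exact ⟨ub_zero _ _, fun _ => rfl⟩
    | succ t =>
      rw [Polynomial.coeff_X_mul]
      exact ⟨(key t le_rfl).1, fun h => (key t le_rfl).2 (by omega)⟩
  have key3 : UB 2 M ((X * (X * derivative f)).coeff s) ∧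
      (M + 2 ≤ s → (X * (X * derivative f)).coeff s = 0) := by
    cases s with
    | zero =>
      rw [Polynomial.coeff_X_mul_zero]
      exact ⟨ub_zero _ _, fun _ => rfl⟩
    | succ t =>
      rw [Polynomial.coeff_X_mul]
      exact ⟨(key2 t).1, fun h => (key2 t).2 (by omega)⟩
  rw [e1, Polynomial.coeff_sub]
  refine ⟨?_, fun h => ?_⟩
  · have := ub_sub key3.1 (key2 s).1
    exact ub_mono this le_rfl (by omega)
  · rw [key3.2 (by omega), (key2 s).2 (by omega), sub_zero]

/-! ### Universal families of conditions -/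

private def Uni {ι : Type} (B : ℕ) (Q : ∀ (R : Type v) [CommRing R], (ι → R) → Prop) : Prop :=
  ∃ (κ : Type) (_ : Fintype κ) (P : κ → MvPolynomial ι ℤ), (∀ k, UB 2 B (P k)) ∧
    ∀ (R : Type v) [CommRing R] (z : ι → R), (∀ k, MvPolynomial.aeval z (P k) = 0) ↔ Q R z

private theorem uni_and {ι : Type} {B : ℕ} {Q Q' : ∀ (R : Type v) [CommRing R], (ι → R) → Prop}
    (h : Uni B Q) (h' : Uni B Q') : Uni B (fun R _ z => Q R z ∧ Q' R z) := by
  obtain ⟨κ, _, P, h1, h2⟩ := h
  obtain ⟨κ', _, P', h1', h2'⟩ := h'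
  refine ⟨κ ⊕ κ', inferInstance, Sum.elim P P', ?_, ?_⟩
  · rintro (k | k)
    · exact h1 k
    · exact h1' k
  · intro R _ z
    show _ ↔ (Q R z ∧ Q' R z)
    rw [← h2 R z, ← h2' R z]
    simp

private theorem uni_all {ι : Type} {B : ℕ} {τ : Type} [Fintype τ]
    {Q : τ → ∀ (R : Type v) [CommRing R], (ι → R) → Prop}
    (h : ∀ t, Uni B (Q t)) : Uni B (fun R _ z => ∀ t, Q t R z) := by
  choose κ i P h1 h2 using h
  refine ⟨Σ t, κ t, inferInstance, fun k => P k.1 k.2, fun k => h1 k.1 k.2, ?_⟩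
  intro R _ z
  constructor
  · intro h t
    rw [← h2 t R z]
    exact fun k => h ⟨t, k⟩
  · rintro h ⟨t, k⟩
    exact (h2 t R z).2 (h t) k

private theorem uni_congr {ι : Type} {B : ℕ} {Q Q' : ∀ (R : Type v) [CommRing R], (ι → R) → Prop}
    (h : Uni B Q) (hQ : ∀ (R : Type v) [CommRing R] (z : ι → R), Q R z ↔ Q' R z) : Uni B Q' := by
  obtain ⟨κ, i, P, h1, h2⟩ := h
  exact ⟨κ, i, P, h1, fun R _ z => (h2 R z).trans (hQ R z)⟩

private theorem uni_single {ι : Type} {B : ℕ} (p : MvPolynomial ι ℤ) (h : UB 2 B p) :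
    Uni.{v} B (fun _ _ z => MvPolynomial.aeval z p = 0) :=
  ⟨Unit, inferInstance, fun _ => p, fun _ => h, fun _ _ _ => by simp⟩

private theorem uni_poly {ι : Type} {B T : ℕ} (f g : (MvPolynomial ι ℤ)[X])
    (h : ∀ s, UB 2 B ((f - g).coeff s)) (h0 : ∀ s, T ≤ s → (f - g).coeff s = 0) :
    Uni.{v} B (fun _ _ z => f.map (MvPolynomial.aeval z : MvPolynomial ι ℤ →ₐ[ℤ] _).toRingHom
      = g.map (MvPolynomial.aeval z : MvPolynomial ι ℤ →ₐ[ℤ] _).toRingHom) := by
  refine uni_congr (uni_all (τ := Fin T) (fun s => uni_single _ (h s))) ?_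
  intro R _ z
  rw [← sub_eq_zero, ← Polynomial.map_sub, Polynomial.ext_iff]
  constructor
  · intro h1 s
    rw [Polynomial.coeff_map, Polynomial.coeff_zero]
    by_cases hs : s < T
    · exact h1 ⟨s, hs⟩
    · rw [h0 s (not_lt.1 hs), map_zero]
  · intro h1 s
    have h2 := h1 s
    rw [Polynomial.coeff_map, Polynomial.coeff_zero] at h2
    exact h2

/-! ### The theorem -/

private theorem unv_c_map {n M : ℕ} {R : Type v} [CommRing R] (z : ZI n M → R) (i j k : Fin n) :
    (cZ (MvPolynomial.X : ZI n M → MvPolynomial (ZI n M) ℤ) i j k).map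
      (MvPolynomial.aeval z : MvPolynomial (ZI n M) ℤ →ₐ[ℤ] R).toRingHom = cZ z i j k := by
  unfold cZ
  rw [Polynomial.map_sum]
  refine Finset.sum_congr rfl fun s _ => ?_
  rw [Polynomial.map_mul, Polynomial.map_C, Polynomial.map_pow, Polynomial.map_X]
  congr 2
  simp

private theorem unv_n_map {n M : ℕ} {R : Type v} [CommRing R] (z : ZI n M → R) (i k : Fin n) :
    (nZ (MvPolynomial.X : ZI n M → MvPolynomial (ZI n M) ℤ) i k).map
      (MvPolynomial.aeval z : MvPolynomial (ZI n M) ℤ →ₐ[ℤ] R).toRingHom = nZ z i k := by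
  unfold nZ
  rw [Polynomial.map_sum]
  refine Finset.sum_congr rfl fun s _ => ?_
  rw [Polynomial.map_mul, Polynomial.map_C, Polynomial.map_pow, Polynomial.map_X]
  congr 2
  simp

private theorem unv_coeff {R : Type*} [CommRing R] {M : ℕ} (a : Fin M → R) (t : ℕ) :
    (∑ s : Fin M, C (a s) * X ^ (s : ℕ) : R[X]).coeff t = if h : t < M then a ⟨t, h⟩ else 0 := by
  rw [Polynomial.finsetSum_coeff]
  simp only [Polynomial.coeff_C_mul, Polynomial.coeff_X_pow]
  split_ifs with h
  · rw [Finset.sum_eq_single (⟨t, h⟩ : Fin M)]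
    · simp
    · intro b _ hb
      rw [if_neg, mul_zero]
      intro hh
      apply hb
      apply Fin.ext
      exact hh.symm
    · intro hh
      exact absurd (Finset.mem_univ _) hh
  · apply Finset.sum_eq_zero
    intro b _
    rw [if_neg, mul_zero]
    intro hh
    apply h
    rw [hh]
    exact b.2

private theorem unv_gp {ι : Type*} {M : ℕ} (a : Fin M → ι) :
    Gp M (∑ s : Fin M, C (MvPolynomial.X (a s) : MvPolynomial ι ℤ) * X ^ (s : ℕ)) := by
  intro t
  rw [unv_coeff (fun s => (MvPolynomial.X (a s) : MvPolynomial ι ℤ))]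
  refine ⟨fun h => ?_, fun h => ?_⟩
  · rw [dif_pos h]
    exact ub_X _
  · rw [dif_neg (not_lt.2 h)]

/-- sums of `n` products -/
private theorem gp_sum {ι : Type*} {M n : ℕ} (f g : Fin n → (MvPolynomial ι ℤ)[X])
    (hf : ∀ l, Gp M (f l)) (hg : ∀ l, Gp M (g l)) (s : ℕ) :
    UB 2 (n * M) ((∑ l, f l * g l).coeff s) ∧
      (2 * M + 2 ≤ s → (∑ l, f l * g l).coeff s = 0) := by
  rw [Polynomial.finsetSum_coeff]
  refine ⟨?_, fun h => ?_⟩
  · have := ub_sum (D := 2) Finset.univ (fun _ : Fin n => M) (fun l => (f l * g l).coeff s)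
      (fun l _ => (gp_mul (hf l) (hg l) s).1)
    simpa using this
  · apply Finset.sum_eq_zero
    intro l _
    exact (gp_mul (hf l) (hg l) s).2 (by omega)

theorem unv {n : ℕ} (d : Fin n → ℕ) (M : ℕ) :
    ∃ (κ : Type) (_ : Fintype κ) (P : κ → MvPolynomial (ZI n M) ℤ), (∀ k, (P k).totalDegree ≤ 2) ∧
      (∀ k, nrm1 (P k) ≤ 8 * (n + 1) * (M + 1)) ∧
      ∀ (R : Type v) [CommRing R] (z : ZI n M → R), (∀ k, MvPolynomial.aeval z (P k) = 0) ↔
        Sys d (cZ z) (nZ z) := by
  set c := cZ (MvPolynomial.X : ZI n M → MvPolynomial (ZI n M) ℤ) with hc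
  set N := nZ (MvPolynomial.X : ZI n M → MvPolynomial (ZI n M) ℤ) with hN
  have gc : ∀ i j k, Gp M (c i j k) := fun i j k => unv_gp (fun s => Sum.inl (i, j, k, s))
  have gN : ∀ i k, Gp M (N i k) := fun i k => unv_gp (fun s => Sum.inr (i, k, s))
  have hB : 2 * M + 3 * (n * M) ≤ 8 * (n + 1) * (M + 1) := by nlinarith [Nat.zero_le (n * M)]
  have hB1 : 1 ≤ 8 * (n + 1) * (M + 1) := by nlinarith [Nat.zero_le (n * M)]
  -- degrees
  have u1 : Uni.{v} (8 * (n + 1) * (M + 1)) (fun (R : Type v) [CommRing R] (z : ZI n M → R) =>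
      ∀ t : Fin n × Fin n × Fin n × Fin M, d t.1 + d t.2.1 < t.2.2.2 + d t.2.2.1 →
        z (Sum.inl t) = 0) := by
    apply uni_all
    intro t
    by_cases ht : d t.1 + d t.2.1 < t.2.2.2 + d t.2.2.1
    · refine uni_congr (uni_single (MvPolynomial.X (Sum.inl t))
        (ub_mono (ub_X _) (by omega) hB1)) ?_
      intro R _ z
      simp [ht]
    · refine uni_congr (uni_single (0 : MvPolynomial (ZI n M) ℤ) (ub_zero _ _)) ?_
      intro R _ z
      simp [ht]
  have u2 : Uni.{v} (8 * (n + 1) * (M + 1)) (fun (R : Type v) [CommRing R] (z : ZI n M → R) =>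
      ∀ t : Fin n × Fin n × Fin M, d t.1 + 1 < t.2.2 + d t.2.1 → z (Sum.inr t) = 0) := by
    apply uni_all
    intro t
    by_cases ht : d t.1 + 1 < t.2.2 + d t.2.1
    · refine uni_congr (uni_single (MvPolynomial.X (Sum.inr t))
        (ub_mono (ub_X _) (by omega) hB1)) ?_
      intro R _ z
      simp [ht]
    · refine uni_congr (uni_single (0 : MvPolynomial (ZI n M) ℤ) (ub_zero _ _)) ?_
      intro R _ z
      simp [ht]
  have u3 : Uni.{v} (8 * (n + 1) * (M + 1)) (fun (R : Type v) [CommRing R] (z : ZI n M → R) =>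
      ∀ t : Fin n × Fin n × Fin n, cZ z t.1 t.2.1 t.2.2 = cZ z t.2.1 t.1 t.2.2) := by
    apply uni_all
    intro t
    refine uni_congr (uni_poly (T := M) (c t.1 t.2.1 t.2.2) (c t.2.1 t.1 t.2.2) ?_ ?_) ?_
    · intro s
      rw [Polynomial.coeff_sub]
      have h1 := gp_ub (gc t.1 t.2.1 t.2.2) s
      have h2 := gp_ub (gc t.2.1 t.1 t.2.2) s
      refine ub_mono (ub_sub h1 h2) (by omega) ?_
      split_ifs <;> nlinarith [Nat.zero_le (n * M)]
    · intro s hs
      rw [Polynomial.coeff_sub, (gc _ _ _ s).2 hs, (gc _ _ _ s).2 hs, sub_zero]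
    · intro R _ z
      rw [unv_c_map, unv_c_map]
  have u4 : Uni.{v} (8 * (n + 1) * (M + 1)) (fun (R : Type v) [CommRing R] (z : ZI n M → R) =>
      ∀ t : Fin n × Fin n × Fin n × Fin n,
        ∑ l, cZ z t.1 t.2.1 l * cZ z l t.2.2.1 t.2.2.2
          = ∑ l, cZ z t.2.1 t.2.2.1 l * cZ z t.1 l t.2.2.2) := by
    apply uni_all
    intro t
    refine uni_congr (uni_poly (T := 2 * M + 2) (∑ l, c t.1 t.2.1 l * c l t.2.2.1 t.2.2.2)
      (∑ l, c t.2.1 t.2.2.1 l * c t.1 l t.2.2.2) ?_ ?_) ?_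
    · intro s
      rw [Polynomial.coeff_sub]
      have h1 := (gp_sum _ _ (fun l => gc t.1 t.2.1 l) (fun l => gc l t.2.2.1 t.2.2.2) s).1
      have h2 := (gp_sum _ _ (fun l => gc t.2.1 t.2.2.1 l) (fun l => gc t.1 l t.2.2.2) s).1
      exact ub_mono (ub_sub h1 h2) le_rfl (by omega)
    · intro s hs
      rw [Polynomial.coeff_sub,
        (gp_sum _ _ (fun l => gc t.1 t.2.1 l) (fun l => gc l t.2.2.1 t.2.2.2) s).2 hs,
        (gp_sum _ _ (fun l => gc t.2.1 t.2.2.1 l) (fun l => gc t.1 l t.2.2.2) s).2 hs, sub_zero]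
    · intro R _ z
      simp only [Polynomial.map_sum, Polynomial.map_mul, hc, unv_c_map]
  have u5 : Uni.{v} (8 * (n + 1) * (M + 1)) (fun (R : Type v) [CommRing R] (z : ZI n M → R) =>
      ∀ t : Fin n × Fin n × Fin n,
        X * (X - 1) * derivative (cZ z t.1 t.2.1 t.2.2) + ∑ l, cZ z t.1 t.2.1 l * nZ z l t.2.2
          = ∑ l, nZ z t.1 l * cZ z l t.2.1 t.2.2 + ∑ l, nZ z t.2.1 l * cZ z t.1 l t.2.2) := by
    apply uni_all
    intro t
    refine uni_congr (uni_poly (T := 2 * M + 2)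
      (X * (X - 1) * derivative (c t.1 t.2.1 t.2.2) + ∑ l, c t.1 t.2.1 l * N l t.2.2)
      (∑ l, N t.1 l * c l t.2.1 t.2.2 + ∑ l, N t.2.1 l * c t.1 l t.2.2) ?_ ?_) ?_
    · intro s
      rw [Polynomial.coeff_sub, Polynomial.coeff_add, Polynomial.coeff_add]
      have h0 := (gp_der (gc t.1 t.2.1 t.2.2) s).1
      have h1 := (gp_sum _ _ (fun l => gc t.1 t.2.1 l) (fun l => gN l t.2.2) s).1
      have h2 := (gp_sum _ _ (fun l => gN t.1 l) (fun l => gc l t.2.1 t.2.2) s).1
      have h3 := (gp_sum _ _ (fun l => gN t.2.1 l) (fun l => gc t.1 l t.2.2) s).1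
      exact ub_mono (ub_sub (ub_add h0 h1) (ub_add h2 h3)) le_rfl (by omega)
    · intro s hs
      rw [Polynomial.coeff_sub, Polynomial.coeff_add, Polynomial.coeff_add,
        (gp_der (gc t.1 t.2.1 t.2.2) s).2 hs,
        (gp_sum _ _ (fun l => gc t.1 t.2.1 l) (fun l => gN l t.2.2) s).2 hs,
        (gp_sum _ _ (fun l => gN t.1 l) (fun l => gc l t.2.1 t.2.2) s).2 hs,
        (gp_sum _ _ (fun l => gN t.2.1 l) (fun l => gc t.1 l t.2.2) s).2 hs]
      simp
    · intro R _ z
      simp only [Polynomial.map_add, Polynomial.map_sub, Polynomial.map_one,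
        Polynomial.map_X, Polynomial.map_sum, Polynomial.map_mul, ← Polynomial.derivative_map,
        hc, hN, unv_c_map, unv_n_map]
  obtain ⟨κ, i, P, h1, h2⟩ := uni_congr (uni_and u1 (uni_and u2 (uni_and u3 (uni_and u4 u5))))
    (Q' := fun R _ z => Sys d (cZ z) (nZ z)) (by
      intro R _ z
      constructor
      · rintro ⟨a1, a2, a3, a4, a5⟩
        refine ⟨?_, ?_, fun i j k => a3 (i, j, k), fun i j k m => a4 (i, j, k, m),
          fun i j k => a5 (i, j, k)⟩
        · intro i j k s hs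
          unfold cZ
          rw [unv_coeff (fun s => z (Sum.inl (i, j, k, s)))]
          split_ifs with h
          · exact a1 (i, j, k, ⟨s, h⟩) hs
          · rfl
        · intro i k s hs
          unfold nZ
          rw [unv_coeff (fun s => z (Sum.inr (i, k, s)))]
          split_ifs with h
          · exact a2 (i, k, ⟨s, h⟩) hs
          · rfl
      · intro a
        refine ⟨?_, ?_, fun t => a.comm t.1 t.2.1 t.2.2,
          fun t => a.assoc t.1 t.2.1 t.2.2.1 t.2.2.2, fun t => a.leib t.1 t.2.1 t.2.2⟩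
        · rintro ⟨i, j, k, s⟩ hs
          have h3 := a.degc i j k s hs
          unfold cZ at h3
          rw [unv_coeff (fun s => z (Sum.inl (i, j, k, s))), dif_pos s.2] at h3
          exact h3
        · rintro ⟨i, k, s⟩ hs
          have h3 := a.degN i k s hs
          unfold nZ at h3
          rw [unv_coeff (fun s => z (Sum.inr (i, k, s))), dif_pos s.2] at h3
          exact h3)
  exact ⟨κ, i, P, fun k => (h1 k).1, fun k => (h1 k).2, h2⟩

end Pool.Agent.HFB
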