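import Pool.Agent.HFB.SLC
import Pool.Agent.HFB.UNV
import Pool.Agent.HFB.LIN
import Pool.Agent.HFB.NDG

/-!
# HFB / EFR: bounded models of Belyi covers (effective Riemann existence theorem)

SLC: `u', z, J, a`.  UNV: `P : κ → MvPolynomial (ZI n M) ℤ`.  Consider the system `κ ⊕ GI d M → MvPolynomial (ZI n M) ℤ`, `P_k` and `X_{J t} - a_t`.  `z` is a solution (`sys`, UNV), non-degenerate: if `w` is in the kernel of all differentials then `LSys d (cZ z) (nZ z) (cZ w) (nZ w)` by LIN and `w ∘ J = 0`, so `w = 0` by SLC.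
NDG with `s = tw 5 (n + M + 16)`: `card (ZI n M) = n³ M + n² M`, `nrm1 (X - a) ≤ a + 1`, `8 (n+1)(M+1)`, all at most `s`.  `tw 6 (tw 5 _) = tw 11 _`.
-/

namespace Pool.Agent.HFB

open Polynomial Pool.Agent.Helper11 Pool.Agent.ESH

variable {K Φ : Type*} [Field K] [Field Φ] [Algebra K Φ] [FunField K Φ] [CharZero K] [IsAlgClosed K]
  {x : Φ} {n : ℕ} {d : Fin n → ℕ} {u : Fin n → Φ}

private theorem algB_mono {C : Type*} [Field C] {B B' : ℕ} (h : B ≤ B') {z : C} (hz : AlgB B z) :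
    AlgB B' z := by
  obtain ⟨q, h0, h1, h2, h3⟩ := hz
  exact ⟨q, h0, h1, h2.trans h, fun i => (h3 i).trans h⟩

private theorem nrm1_X_sub_C {ι : Type*} (i : ι) (a : ℕ) :
    nrm1 (MvPolynomial.X i - MvPolynomial.C (a : ℤ) : MvPolynomial ι ℤ) ≤ a + 1 := by
  classical
  unfold nrm1
  have hsub : (MvPolynomial.X i - MvPolynomial.C (a : ℤ) : MvPolynomial ι ℤ).support ⊆
      ({Finsupp.single i 1, 0} : Finset (ι →₀ ℕ)) := by
    intro m hm
    rw [MvPolynomial.mem_support_iff] at hm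
    rw [Finset.mem_insert, Finset.mem_singleton]
    by_contra hcon
    push Not at hcon
    apply hm
    rw [MvPolynomial.coeff_sub, MvPolynomial.coeff_X, MvPolynomial.coeff_C,
      if_neg (Ne.symm hcon.1), if_neg (Ne.symm hcon.2), sub_zero]
  have hne : (Finsupp.single i 1 : ι →₀ ℕ) ≠ 0 := by
    simp
  calc ∑ m ∈ (MvPolynomial.X i - MvPolynomial.C (a : ℤ) : MvPolynomial ι ℤ).support,
        ((MvPolynomial.X i - MvPolynomial.C (a : ℤ) : MvPolynomial ι ℤ).coeff m).natAbs
      ≤ ∑ m ∈ ({Finsupp.single i 1, 0} : Finset (ι →₀ ℕ)),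
        ((MvPolynomial.X i - MvPolynomial.C (a : ℤ) : MvPolynomial ι ℤ).coeff m).natAbs :=
        Finset.sum_le_sum_of_subset hsub
    _ = a + 1 := by
        rw [Finset.sum_pair hne]
        simp only [MvPolynomial.coeff_sub, MvPolynomial.coeff_X, MvPolynomial.coeff_C,
          if_neg hne, if_neg (Ne.symm hne), if_true]
        simp
        omega

theorem efr (hβ : IsBelyi K x) (hu : RBas K x d u) (M : ℕ) (hM : ∀ i j, d i + d j + 1 < M) :
    ∃ (u' : Fin n → Φ) (z : ZI n M → K), RBas K x d u' ∧ SCon x u' (cZ z) (nZ z) ∧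
      ∀ ζ, AlgB (tw 12 (n + M + 16)) (z ζ) := by
  classical
  obtain ⟨u', z, J, a, hu', hsc, ha, hz, hw⟩ := slc hβ hu M hM
  obtain ⟨κ, hκ, P, hdeg, hnrm, hP⟩ := unv d M
  have hs0 : 16 ≤ n + M + 16 := by omega
  have hsys : Sys d (cZ z) (nZ z) := sys hβ hu' hsc
  refine ⟨u', z, hu', hsc, fun ζ => ?_⟩
  let Q : κ ⊕ GI d M → MvPolynomial (ZI n M) ℤ :=
    Sum.elim P (fun t => MvPolynomial.X (J t) - MvPolynomial.C (a t : ℤ))
  have hbig : ∀ c, n + M + 16 ≤ tw c (n + M + 16) := fun c => le_tw c _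
  have h16 : 16 ≤ tw 5 (n + M + 16) := hs0.trans (hbig 5)
  have hn : n ≤ tw 0 (n + M + 16) := by rw [tw_zero]; omega
  have hMM : M ≤ tw 0 (n + M + 16) := by rw [tw_zero]; omega
  have hn1 : n + 1 ≤ tw 0 (n + M + 16) := by rw [tw_zero]; omega
  have hM1 : M + 1 ≤ tw 0 (n + M + 16) := by rw [tw_zero]; omega
  have h8 : 8 ≤ tw 0 (n + M + 16) := by rw [tw_zero]; omega
  have card : Fintype.card (ZI n M) ≤ tw 5 (n + M + 16) := by
    have e : Fintype.card (ZI n M) = n * (n * (n * M)) + n * (n * M) := by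
      simp [ZI]
    rw [e]
    have h1 := tw_mul hs0 hn hMM
    have h2 := tw_mul hs0 (hn.trans (tw_mono (by norm_num) le_rfl)) h1
    have h3 := tw_mul hs0 (hn.trans (tw_mono (by norm_num) le_rfl)) h2
    have h4 := tw_add hs0 h3 (h2.trans (tw_mono (by norm_num) le_rfl))
    exact h4.trans (tw_mono (by norm_num) le_rfl)
  have hQd : ∀ k, (Q k).totalDegree ≤ tw 5 (n + M + 16) := by
    rintro (k | t)
    · exact (hdeg k).trans (by omega)
    · refine (MvPolynomial.totalDegree_sub _ _).trans ?_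
      rw [MvPolynomial.totalDegree_X, MvPolynomial.totalDegree_C]
      simp only [max_def]
      split_ifs <;> omega
  have hQn : ∀ k, nrm1 (Q k) ≤ tw 5 (n + M + 16) := by
    rintro (k | t)
    · refine (hnrm k).trans ?_
      have h1 := tw_mul hs0 h8 hn1
      have h2 := tw_mul hs0 h1 (hM1.trans (tw_mono (by norm_num) le_rfl))
      exact h2.trans (tw_mono (by norm_num) le_rfl)
    · refine (nrm1_X_sub_C (J t) (a t)).trans ?_
      have h1 : 1 ≤ tw 4 (n + M + 16) := le_trans (by omega) (hbig 4)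
      exact tw_add hs0 (ha t) h1
  have hQ0 : ∀ k, MvPolynomial.aeval z (Q k) = 0 := by
    rintro (k | t)
    · exact (hP K z).2 hsys k
    · show MvPolynomial.aeval z (MvPolynomial.X (J t) - MvPolynomial.C (a t : ℤ)) = 0
      rw [map_sub, MvPolynomial.aeval_X, MvPolynomial.aeval_C, hz]
      simp
  have hQ1 : ∀ w : ZI n M → K, (∀ k, ∑ i, w i * MvPolynomial.aeval z
      (MvPolynomial.pderiv i (Q k)) = 0) → w = 0 := by
    intro w hwk
    refine hw w ((lin d M P hP z w hsys).1 fun k => hwk (Sum.inl k)) fun t => ?_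
    have h1 := hwk (Sum.inr t)
    have h2 : ∀ i, MvPolynomial.aeval z (MvPolynomial.pderiv i (Q (Sum.inr t))) =
        if i = J t then (1 : K) else 0 := by
      intro i
      show MvPolynomial.aeval z (MvPolynomial.pderiv i
        (MvPolynomial.X (J t) - MvPolynomial.C (a t : ℤ))) = _
      rw [map_sub, MvPolynomial.pderiv_C, sub_zero, MvPolynomial.pderiv_X]
      by_cases hi : i = J t
      · subst hi
        simp
      · rw [if_neg hi, Pi.single_eq_of_ne (Ne.symm hi)]
        simp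
    simp only [h2, mul_ite, mul_one, mul_zero, Finset.sum_ite_eq', Finset.mem_univ, if_true] at h1
    exact h1
  have key := ndg Q z (tw 5 (n + M + 16)) h16 card hQd hQn hQ0 hQ1 ζ
  rw [tw_comp] at key
  exact algB_mono (tw_mono (by norm_num) le_rfl) key

end Pool.Agent.HFB
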