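import Pool.Agent.HFB.GNU
import Pool.Agent.ESH.RRA

/-!
# HFB / GNL: lower bound for the degree of the canonical divisor

`x`, RBX: `d`, `u`, `n`; `m ≥ 1`, `m ≥ d_i` for all `i`.  (1) `dim L(m (x)_∞) = ∑ (m - d_i + 1) = n m + n - ∑ d_i = n m + 1 - g` (the elements are the `∑ p_i(x) u_i`, `deg p_i ≤ m - d_i`; `gnu_card`; `LL` of ESH / RRA with the divisor `m max(0, - ord x)`).  (2) Let `ω ≠ 0` be a regular differential (`g ≥ 1`), `K ≥ 0` its divisor.  The space `L(K + m (x)_∞)` is isomorphic (`h ↦ h ω = f dx`) to the space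
of the differentials `f dx` regular at the finite places and with `ordDiff ≥ m ord x` at the poles of `x`; it contains all `f` with `Tr(f u_i) = P_i(x)`, `deg P_i ≤ d_i - 2 + m` (`dbs_ex`; proof as for `dbs_reg`: DUR for `z = x - c` and, at infinity, DUR for `x^(2-m) f`), a space of dimension `∑ (d_i - 1 + m) = ∑ d_i - n + n m = n m + g - 1`.
(3) `rra_le` for `D = m (x)_∞ ≤ D' = K + m (x)_∞`: `n m + g - 1 ≤ n m + 1 - g + deg K`, so `deg K = chi ≥ 2 g - 2`.
-/

namespace Pool.Agent.HFB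

open Polynomial Pool.Agent.Helper11 Pool.Agent.ESH IntermediateField NumberField
open scoped KaehlerDifferential

section aux

variable {k Φ : Type*} [Field k] [Field Φ] [Algebra k Φ] [FunField k Φ] [CharZero k] [IsAlgClosed k]

variable {x : Φ} {n : ℕ} {d : Fin n → ℕ} {u : Fin n → Φ}

/-- value of a polynomial in `z` at a zero of `z` -/
private theorem gnl_poly (R : Place k Φ) {z : Φ} (h : 1 ≤ R.ord z) (q : k[X]) :
    aeval z q ∈ R.ge 0 ∧ ev R (aeval z q) = q.coeff 0 := by
  have hz1 : z ∈ R.ge 1 := R.mem_ge_of_le h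
  have hz0 : z ∈ R.ge 0 := R.ge_anti zero_le_one hz1
  have h1 : ∀ p : k[X], aeval z p ∈ R.ge 0 := fun p =>
    R.mem_ge_of_mem_Rx hz0 ⟨_, Polynomial.aeval_mem_adjoin_singleton k z⟩
  refine ⟨h1 q, evl_eq R ?_⟩
  obtain ⟨p, hp⟩ := X_dvd_sub_C (p := q)
  have h2 : aeval z q - algebraMap k Φ (q.coeff 0) = z * aeval z p := by
    have := congrArg (aeval z) hp
    rwa [map_sub, aeval_C, map_mul, aeval_X] at this
  rw [h2]
  have h3 := R.mul_mem_ge hz1 (h1 p)
  rwa [add_zero] at h3

/-- common denominators away from `z = 0` -/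
private theorem gnl_den {z : Φ} (hzne : z ≠ 0) (f : Φ) (hf : ∀ R : Place k Φ, 1 ≤ R.ord z → f ∈ R.ge 0) :
    ∃ q : k[X], q.coeff 0 ≠ 0 ∧ ∀ R : Place k Φ, 0 ≤ R.ord z → aeval z q * f ∈ R.ge 0 := by
  classical
  have hfin := finite_pos_ord (k := k) f⁻¹
  let S : Finset (Place k Φ) := hfin.toFinset.filter fun R => R.ord z = 0 ∧ ev R z ≠ 0
  refine ⟨∏ R ∈ S, (X - Polynomial.C (ev R z)) ^ (R.ord f).natAbs, ?_, ?_⟩
  · rw [coeff_zero_eq_eval_zero, eval_prod, Finset.prod_ne_zero_iff]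
    intro R hR
    rw [eval_pow, eval_sub, eval_X, eval_C, zero_sub]
    exact pow_ne_zero _ (neg_ne_zero.2 (Finset.mem_filter.1 hR).2.2)
  · intro R hR
    have hz0 : z ∈ R.ge 0 := R.mem_ge_of_le hR
    have h1 : ∀ p : k[X], aeval z p ∈ R.ge 0 := fun p =>
      R.mem_ge_of_mem_Rx hz0 ⟨_, Polynomial.aeval_mem_adjoin_singleton k z⟩
    by_cases hfR : f ∈ R.ge 0
    · have h3 := R.mul_mem_ge (h1 (∏ R ∈ S, (X - Polynomial.C (ev R z)) ^ (R.ord f).natAbs)) hfR
      rwa [add_zero] at h3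
    · have h2 : R.ord f < 0 := by
        by_contra hc
        exact hfR (R.mem_ge_of_le (not_lt.1 hc))
      have h3 : ¬ 1 ≤ R.ord z := fun hc => hfR (hf R hc)
      have h4 : R.ord z = 0 := by omega
      have h5 : ev R z ≠ 0 := by
        intro hc
        rw [evl_zero_iff R hz0] at hc
        rcases hc with hc | hc
        · exact hzne hc
        · omega
      have h6 : R ∈ S := by
        rw [Finset.mem_filter, Set.Finite.mem_toFinset]
        refine ⟨?_, h4, h5⟩
        show 0 < R.ord f⁻¹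
        rw [R.ord_inv]
        omega
      rw [← Finset.mul_prod_erase S _ h6, map_mul, map_pow, map_sub, aeval_X, aeval_C]
      have h7 := R.pow_mem_ge (evl_mem R hz0) (R.ord f).natAbs
      have h8 := R.mul_mem_ge (R.mul_mem_ge h7 (h1 (∏ R ∈ S.erase R, (X - Polynomial.C (ev R z)) ^ (R.ord f).natAbs))) (R.mem_ge_ord f)
      refine R.ge_anti ?_ h8
      omega

omit [FunField k Φ] [CharZero k] [IsAlgClosed k] in
private theorem gnl_tr_sub (hx : Transcendental k x) (c : k) :
    Transcendental k (x - algebraMap k Φ c) ∧ k⟮x - algebraMap k Φ c⟯ = k⟮x⟯ := by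
  have h1 : k⟮x - algebraMap k Φ c⟯ = k⟮x⟯ := by
    apply le_antisymm
    · rw [IntermediateField.adjoin_simple_le_iff]
      exact sub_mem (mem_adjoin_simple_self k x) (IntermediateField.algebraMap_mem _ c)
    · rw [IntermediateField.adjoin_simple_le_iff]
      have := add_mem (mem_adjoin_simple_self k (x - algebraMap k Φ c)) (IntermediateField.algebraMap_mem k⟮x - algebraMap k Φ c⟯ c)
      rwa [sub_add_cancel] at this
  refine ⟨fun h => hx ?_, h1⟩
  have := h.add (isAlgebraic_algebraMap (R := k) (A := Φ) c)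
  rwa [sub_add_cancel] at this

omit [FunField k Φ] [CharZero k] [IsAlgClosed k] in
private theorem gnl_tr_inv (hx : Transcendental k x) : Transcendental k x⁻¹ := by
  intro h
  apply hx
  have := h.inv
  rwa [inv_inv] at this

private theorem gnl_w (R : Place k Φ) (c : k) (h : 0 < R.ord (x - algebraMap k Φ c)) :
    R.ord (R.dv x) = R.ord (x - algebraMap k Φ c) - 1 := by
  have h1 := (R.ord_dv (y := x - algebraMap k Φ c) (by omega)).2
  rwa [map_sub, Derivation.map_algebraMap, sub_zero] at h1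

omit [FunField k Φ] [CharZero k] [IsAlgClosed k] in
private theorem gnl_x0 (hx : Transcendental k x) : x ≠ 0 := by
  intro h
  exact hx (by rw [h]; exact isAlgebraic_zero)

omit [FunField k Φ] [CharZero k] [IsAlgClosed k] in
/-- polynomials at infinity -/
private theorem gnl_inf (R : Place k Φ) (h : R.ord x < 0) (q : k[X]) (N : ℕ) (hN : q.natDegree ≤ N) :
    aeval x q ∈ R.ge (N * R.ord x) := by
  rw [aeval_eq_sum_range]
  refine sum_mem fun i hi => ?_
  rw [Algebra.smul_def]
  have h1 := R.mul_mem_ge (R.algebraMap_mem_ge (q.coeff i)) (R.pow_mem_ge (R.mem_ge_ord x) i)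
  refine R.ge_anti ?_ h1
  have h2 : i ≤ N := by
    have := Finset.mem_range.1 hi
    omega
  have h3 : (i : ℤ) ≤ N := by exact_mod_cast h2
  nlinarith

omit [FunField k Φ] [CharZero k] [IsAlgClosed k] in
private theorem gnl_smul (g : k⟮x⟯) (f : Φ) :
    ((Algebra.trace k⟮x⟯ Φ ((g : Φ) * f) : k⟮x⟯) : Φ) = (g : Φ) * ((Algebra.trace k⟮x⟯ Φ f : k⟮x⟯) : Φ) := by
  have h : (g : Φ) * f = g • f := rfl
  rw [h, map_smul]
  rfl

omit [FunField k Φ] [CharZero k] [IsAlgClosed k] in
private theorem gnl_mem (q : k[X]) : aeval x q ∈ k⟮x⟯ :=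
  algebra_adjoin_le_adjoin k {x} (aeval_mem_adjoin_singleton k x)

omit [FunField k Φ] [CharZero k] [IsAlgClosed k] in
private theorem gnl_ne (hx : Transcendental k x) {q : k[X]} (hq : q ≠ 0) : aeval x q ≠ 0 :=
  fun h => hx ⟨q, hq, h⟩

/-- functions without finite poles -/
private theorem gnl_polb (g : Φ) (hg : ∀ R : Place k Φ, 0 ≤ R.ord x → g ∈ R.ge 0) :
    ∃ m : ℕ, PolB k x m g := by
  classical
  have hfin2 := finite_ord_ne_zero (k := k) g
  refine ⟨∑ R ∈ hfin2.toFinset, (R.ord g).natAbs, hg, ?_⟩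
  intro R hR
  by_cases h0 : R.ord g = 0
  · apply R.mem_ge_of_le
    rw [h0]
    have : 0 ≤ ((∑ R ∈ hfin2.toFinset, (R.ord g).natAbs : ℕ) : ℤ) := Int.natCast_nonneg _
    nlinarith
  · apply R.mem_ge_of_le
    have h1 : R ∈ hfin2.toFinset := by
      rw [Set.Finite.mem_toFinset]; exact h0
    have h2 : (R.ord g).natAbs ≤ ∑ R ∈ hfin2.toFinset, (R.ord g).natAbs :=
      Finset.single_le_sum (f := fun R : Place k Φ => (R.ord g).natAbs) (fun _ _ => Nat.zero_le _) h1
    set M := ∑ R ∈ hfin2.toFinset, (R.ord g).natAbs with hM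
    have h3 : ((R.ord g).natAbs : ℤ) ≤ (M : ℤ) := by exact_mod_cast h2
    have h4 : - R.ord g ≤ ((R.ord g).natAbs : ℤ) := by omega
    nlinarith

omit [FunField k Φ] [CharZero k] [IsAlgClosed k] in
private theorem gnl_expand (f : Φ) (b : Fin n → k⟮x⟯) :
    ((Algebra.trace k⟮x⟯ Φ (f * ∑ j, (b j : Φ) * u j) : k⟮x⟯) : Φ) =
      ∑ j, (b j : Φ) * ((Algebra.trace k⟮x⟯ Φ (f * u j) : k⟮x⟯) : Φ) := by
  have h1 : f * ∑ j, (b j : Φ) * u j = ∑ j, b j • (f * u j) := by
    rw [Finset.mul_sum]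
    refine Finset.sum_congr rfl fun j _ => ?_
    show f * ((b j : Φ) * u j) = (b j : Φ) * (f * u j)
    ring
  rw [h1, map_sum]
  have h2 : ∀ g : Fin n → k⟮x⟯, ((∑ j, g j : k⟮x⟯) : Φ) = ∑ j, (g j : Φ) := by
    intro g
    exact map_sum (algebraMap k⟮x⟯ Φ) g Finset.univ
  rw [h2]
  refine Finset.sum_congr rfl fun j _ => ?_
  rw [map_smul]
  rfl

private theorem gnl_reg (hu : RBas k x d u) (f : Φ) (P : Fin n → k[X])
    (hP : ∀ i, ((Algebra.trace k⟮x⟯ Φ (f * u i) : k⟮x⟯) : Φ) = aeval x (P i))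
    (m : ℕ) (hd : ∀ i s, d i + m < s + 2 → (P i).coeff s = 0) (R : Place k Φ) :
    (0 ≤ R.ord x → 0 ≤ R.ordDiff (f • KaehlerDifferential.D k Φ x)) ∧
      (R.ord x < 0 → m * R.ord x ≤ R.ordDiff (f • KaehlerDifferential.D k Φ x)) := by
  classical
  have hx := hu.tr
  have hx0 := gnl_x0 hx
  by_cases hf0 : f = 0
  · rw [R.ordDiff_smul_D, hf0, zero_mul, R.ord_zero]
    refine ⟨fun _ => le_rfl, fun h => ?_⟩
    have := Int.natCast_nonneg m
    nlinarith
  rw [R.ordDiff_smul_D, R.ord_mul _ _ hf0 (R.dv_ne_zero hx)]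
  constructor
  rotate_left
  · -- at infinity
    intro hR
    have h1 : f * (x ^ 2 * x⁻¹ ^ m) ∈ R.ge (1 - R.ord x⁻¹) := by
      apply dur k⟮x⟯ x⁻¹ (adjoin_inv x).symm (gnl_tr_inv hx) (f * (x ^ 2 * x⁻¹ ^ m)) _ R
        (by rw [R.ord_inv]; omega)
      intro w hw R₀ hR₀
      obtain ⟨q, hq1, hq2⟩ := gnl_den (inv_ne_zero hx0) w hw
      have hR₀x : R₀.ord x < 0 := by
        rw [R₀.ord_inv] at hR₀
        omega
      -- multiply by a power of `x`
      obtain ⟨M, hM⟩ : ∃ M : ℕ, ∀ Q : Place k Φ, 0 < Q.ord x → -(M : ℤ) ≤ Q.ord (aeval x⁻¹ q * w) := by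
        have hfin := finite_pos_ord (k := k) x
        refine ⟨∑ Q ∈ hfin.toFinset, (Q.ord (aeval x⁻¹ q * w)).natAbs, fun Q hQ => ?_⟩
        have e1 : (Q.ord (aeval x⁻¹ q * w)).natAbs ≤
            ∑ Q ∈ hfin.toFinset, (Q.ord (aeval x⁻¹ q * w)).natAbs :=
          Finset.single_le_sum (f := fun Q : Place k Φ => (Q.ord (aeval x⁻¹ q * w)).natAbs)
            (fun _ _ => Nat.zero_le _) (by rw [Set.Finite.mem_toFinset]; exact hQ)
        have e2 : ((Q.ord (aeval x⁻¹ q * w)).natAbs : ℤ) ≤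
            (∑ Q ∈ hfin.toFinset, (Q.ord (aeval x⁻¹ q * w)).natAbs : ℕ) := by
          exact_mod_cast e1
        omega
      obtain ⟨p, hp1, hp2⟩ := hu.span M (x ^ M * (aeval x⁻¹ q * w)) (by
        refine ⟨fun Q hQ => ?_, fun Q hQ => ?_⟩
        · rcases hQ.lt_or_eq with h | h
          · have e1 := Q.mul_mem_ge (Q.mem_ge_ord (x ^ M)) (Q.mem_ge_ord (aeval x⁻¹ q * w))
            rw [Q.ord_pow] at e1
            refine Q.ge_anti ?_ e1
            have := hM Q h
            nlinarith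
          · have e1 := Q.mul_mem_ge (Q.mem_ge_ord (x ^ M)) (hq2 Q (by rw [Q.ord_inv]; omega))
            rw [Q.ord_pow, ← h] at e1
            simpa using e1
        · have e1 := Q.mul_mem_ge (Q.mem_ge_ord (x ^ M)) (hq2 Q (by rw [Q.ord_inv]; omega))
          rw [Q.ord_pow, add_zero] at e1
          exact e1)
      obtain ⟨a, ha⟩ : ∃ a : Fin n → k⟮x⟯, ∀ j, (a j : Φ) = x ^ 2 * x⁻¹ ^ m * x⁻¹ ^ M * aeval x (p j) :=
        ⟨fun j => ⟨x ^ 2 * x⁻¹ ^ m * x⁻¹ ^ M * aeval x (p j),
          mul_mem (mul_mem (mul_mem (pow_mem (mem_adjoin_simple_self k x) _)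
          (pow_mem (inv_mem (mem_adjoin_simple_self k x)) _))
          (pow_mem (inv_mem (mem_adjoin_simple_self k x)) _)) (gnl_mem _)⟩, fun j => rfl⟩
      obtain ⟨e, he⟩ : ∃ e : k⟮x⟯, (e : Φ) = aeval x⁻¹ q := by
        refine ⟨⟨aeval x⁻¹ q, ?_⟩, rfl⟩
        rw [← adjoin_inv x]
        exact gnl_mem _
      have h8 : (e : Φ) * (f * (x ^ 2 * x⁻¹ ^ m) * w) = f * ∑ j, (a j : Φ) * u j := by
        have e1 : ∑ j, (a j : Φ) * u j = x ^ 2 * x⁻¹ ^ m * x⁻¹ ^ M * ∑ j, aeval x (p j) * u j := by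
          rw [Finset.mul_sum]
          refine Finset.sum_congr rfl fun j _ => ?_
          rw [ha]
          ring
        rw [e1, ← hp2, he]
        have e2 : x⁻¹ ^ M * x ^ M = 1 := by
          rw [← mul_pow, inv_mul_cancel₀ hx0, one_pow]
        linear_combination (-(f * x ^ 2 * x⁻¹ ^ m * (aeval x⁻¹ q) * w)) * e2
      have h9 := gnl_smul e (f * (x ^ 2 * x⁻¹ ^ m) * w)
      rw [h8, gnl_expand] at h9
      have h11 : (∑ j, (a j : Φ) * ((Algebra.trace k⟮x⟯ Φ (f * u j) : k⟮x⟯) : Φ)) ∈ R₀.ge 0 := by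
        refine sum_mem fun j _ => ?_
        rw [ha, hP]
        by_cases hpj : p j = 0
        · rw [hpj, map_zero, mul_zero, zero_mul]
          exact zero_mem _
        by_cases hPj : P j = 0
        · rw [hPj, map_zero, mul_zero]
          exact zero_mem _
        have e1 := hp1 j hpj
        have e2 : (P j).natDegree + 2 ≤ d j + m := by
          by_contra hc
          have := hd j (P j).natDegree (by omega)
          exact hPj (leadingCoeff_eq_zero.1 this)
        have e3 := gnl_inf R₀ hR₀x (p j) _ le_rfl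
        have e4 := gnl_inf R₀ hR₀x (P j) _ le_rfl
        have e5 := R₀.mul_mem_ge (R₀.mul_mem_ge (R₀.mul_mem_ge (R₀.mul_mem_ge (R₀.mem_ge_ord (x ^ 2))
          (R₀.mem_ge_ord (x⁻¹ ^ m))) (R₀.mem_ge_ord (x⁻¹ ^ M))) e3) e4
        rw [R₀.ord_pow, R₀.ord_pow, R₀.ord_pow, R₀.ord_inv] at e5
        refine R₀.ge_anti ?_ e5
        have e6 : ((p j).natDegree : ℤ) + (P j).natDegree + 2 ≤ m + M := by
          have : (p j).natDegree + (P j).natDegree + 2 ≤ m + M := by omega
          exact_mod_cast this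
        push_cast
        nlinarith
      obtain ⟨h12, h13⟩ := gnl_poly R₀ hR₀ q
      have h14 : ev R₀ (aeval x⁻¹ q) ≠ 0 := by rwa [h13]
      obtain ⟨h15, _⟩ := evl_inv R₀ h12 h14
      have h16 : (e : Φ) ≠ 0 := by
        rw [he]
        intro h
        apply h14
        rw [h]
        have := evl_const R₀ (0 : k)
        rwa [map_zero] at this
      rw [h9] at h11
      have h17 := R₀.mul_mem_ge h15 h11
      rw [← he, inv_mul_cancel_left₀ h16, add_zero] at h17
      exact h17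
    have hq0 : x ^ 2 * x⁻¹ ^ m ≠ 0 := mul_ne_zero (pow_ne_zero _ hx0) (pow_ne_zero _ (inv_ne_zero hx0))
    have h2 := R.le_ord_of_mem h1 (mul_ne_zero hf0 hq0)
    rw [R.ord_mul _ _ hf0 hq0, R.ord_mul _ _ (pow_ne_zero _ hx0) (pow_ne_zero _ (inv_ne_zero hx0)),
      R.ord_pow, R.ord_pow, R.ord_inv] at h2
    rw [(R.ord_dv (y := x) (by omega)).2]
    push_cast at h2
    linarith
  · -- at a finite value
    intro hR
    have hxR : x ∈ R.ge 0 := R.mem_ge_of_le hR
    obtain ⟨c, hcc⟩ : ∃ c, c = ev R x := ⟨_, rfl⟩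
    have h1 := evl_mem R hxR
    rw [← hcc] at h1
    obtain ⟨h2, h3⟩ := gnl_tr_sub hx c
    have hz0 : x - algebraMap k Φ c ≠ 0 := gnl_x0 h2
    have h4 := R.le_ord_of_mem h1 hz0
    have h5 : f ∈ R.ge (1 - R.ord (x - algebraMap k Φ c)) := by
      apply dur k⟮x⟯ (x - algebraMap k Φ c) h3.symm h2 f _ R h4
      intro w hw R₀ hR₀
      obtain ⟨q, hq1, hq2⟩ := gnl_den hz0 w hw
      obtain ⟨m, hm⟩ := gnl_polb (x := x) (aeval (x - algebraMap k Φ c) q * w) (by
        intro Q hQ
        apply hq2 Q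
        have h6 := sub_mem (Q.mem_ge_of_le hQ) (Q.algebraMap_mem_ge c)
        exact Q.le_ord_of_mem h6 hz0)
      obtain ⟨p, _, hp⟩ := hu.span m _ hm
      obtain ⟨a, ha⟩ : ∃ a : Fin n → k⟮x⟯, ∀ j, (a j : Φ) = aeval x (p j) :=
        ⟨fun j => ⟨aeval x (p j), gnl_mem _⟩, fun j => rfl⟩
      obtain ⟨e, he⟩ : ∃ e : k⟮x⟯, (e : Φ) = aeval (x - algebraMap k Φ c) q := by
        refine ⟨⟨aeval (x - algebraMap k Φ c) q, ?_⟩, rfl⟩
        rw [← h3]
        exact gnl_mem _
      have h8 : (e : Φ) * (f * w) = f * ∑ j, (a j : Φ) * u j := by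
        rw [he, Finset.sum_congr rfl fun j _ => by rw [ha j], ← hp]
        ring
      have h9 := gnl_smul e (f * w)
      rw [h8, gnl_expand] at h9
      have hx1 : x ∈ R₀.ge 0 := by
        have h17 := add_mem (R₀.ge_anti (by norm_num : (0 : ℤ) ≤ 1) (R₀.mem_ge_of_le hR₀)) (R₀.algebraMap_mem_ge c)
        rwa [sub_add_cancel] at h17
      have hpol : ∀ p : k[X], aeval x p ∈ R₀.ge 0 := fun p =>
        R₀.mem_ge_of_mem_Rx hx1 ⟨_, Polynomial.aeval_mem_adjoin_singleton k x⟩
      have h11 : (∑ j, (a j : Φ) * ((Algebra.trace k⟮x⟯ Φ (f * u j) : k⟮x⟯) : Φ)) ∈ R₀.ge 0 := by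
        refine sum_mem fun j _ => ?_
        rw [ha, hP]
        have := R₀.mul_mem_ge (hpol (p j)) (hpol (P j))
        rwa [add_zero] at this
      obtain ⟨h12, h13⟩ := gnl_poly R₀ hR₀ q
      have h14 : ev R₀ (aeval (x - algebraMap k Φ c) q) ≠ 0 := by rwa [h13]
      obtain ⟨h15, _⟩ := evl_inv R₀ h12 h14
      have h16 : (e : Φ) ≠ 0 := by
        rw [he]
        intro h
        apply h14
        rw [h]
        have := evl_const R₀ (0 : k)
        rwa [map_zero] at this
      rw [h9] at h11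
      have h17 := R₀.mul_mem_ge h15 h11
      rw [← he, inv_mul_cancel_left₀ h16, add_zero] at h17
      exact h17
    have h6 := R.le_ord_of_mem h5 hf0
    rw [gnl_w R c (by omega)]
    omega

/-- the number of indices -/
private theorem gnl_DI {n : ℕ} (d : Fin n → ℕ) (M : ℕ) (hM : ∀ i, d i < M) :
    Fintype.card (DI d M) = ∑ i, (d i - 1) := by
  classical
  rw [Fintype.card_subtype, Finset.card_filter, Fintype.sum_prod_type]
  refine Finset.sum_congr rfl fun i _ => ?_
  rw [← Finset.card_filter]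
  have h1 : (Finset.univ.filter fun s : Fin M => (s : ℕ) + 2 ≤ d i).card = (Finset.range (d i - 1)).card := by
    refine Finset.card_bij (fun s _ => (s : ℕ)) ?_ ?_ ?_
    · intro s hs
      rw [Finset.mem_filter] at hs
      rw [Finset.mem_range]
      omega
    · intro s _ t _ h
      exact Fin.ext h
    · intro s hs
      rw [Finset.mem_range] at hs
      have := hM i
      refine ⟨⟨s, by omega⟩, ?_, rfl⟩
      rw [Finset.mem_filter]
      refine ⟨Finset.mem_univ _, ?_⟩
      show s + 2 ≤ d i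
      omega
  rw [h1, Finset.card_range]

/-- the family of the differentials with poles at most `m (x)_∞` -/
private theorem gnl_fam (hu : RBas k x d u) (m M : ℕ) :
    ∃ f : DI (fun i => d i + m) M → Φ,
      (∀ t, ∀ R : Place k Φ, (0 ≤ R.ord x → 0 ≤ R.ordDiff (f t • KaehlerDifferential.D k Φ x)) ∧
        (R.ord x < 0 → m * R.ord x ≤ R.ordDiff (f t • KaehlerDifferential.D k Φ x))) ∧
      LinearIndependent k f := by
  classical
  have hx := hu.tr
  choose f hf using fun t : DI (fun i => d i + m) M =>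
    dbs_ex hu (fun i => if i = t.1.1 then (X : k[X]) ^ (t.1.2 : ℕ) else 0)
  have hf' : ∀ t i, ((Algebra.trace k⟮x⟯ Φ (f t * u i) : k⟮x⟯) : Φ) =
        if i = t.1.1 then x ^ (t.1.2 : ℕ) else 0 := by
    intro t i
    rw [hf t i]
    split_ifs
    · rw [map_pow, aeval_X]
    · rw [map_zero]
  have hsum : ∀ (c : DI (fun i => d i + m) M → k) (i : Fin n),
      ((Algebra.trace k⟮x⟯ Φ ((∑ t, algebraMap k Φ (c t) * f t) * u i) : k⟮x⟯) : Φ) =
        aeval x (∑ t : DI (fun i => d i + m) M,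
          if i = t.1.1 then Polynomial.C (c t) * X ^ (t.1.2 : ℕ) else 0) := by
    intro c i
    have h1 : (∑ t, algebraMap k Φ (c t) * f t) * u i =
        ∑ t, (algebraMap k k⟮x⟯ (c t)) • (f t * u i) := by
      rw [Finset.sum_mul]
      refine Finset.sum_congr rfl fun t _ => ?_
      show algebraMap k Φ (c t) * f t * u i = algebraMap k Φ (c t) * (f t * u i)
      ring
    rw [h1, map_sum]
    have h2 : ∀ g : DI (fun i => d i + m) M → k⟮x⟯, ((∑ j, g j : k⟮x⟯) : Φ) = ∑ j, (g j : Φ) := by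
      intro g
      exact map_sum (algebraMap k⟮x⟯ Φ) g Finset.univ
    rw [h2, map_sum]
    refine Finset.sum_congr rfl fun t _ => ?_
    rw [map_smul]
    have h3 : ((algebraMap k k⟮x⟯ (c t) • Algebra.trace k⟮x⟯ Φ (f t * u i) : k⟮x⟯) : Φ) =
        algebraMap k Φ (c t) * ((Algebra.trace k⟮x⟯ Φ (f t * u i) : k⟮x⟯) : Φ) := rfl
    rw [h3, hf']
    split_ifs
    · rw [map_mul, aeval_C, map_pow, aeval_X]
    · rw [mul_zero, map_zero]
  have hcoef : ∀ (c : DI (fun i => d i + m) M → k) (i : Fin n) (t : DI (fun i => d i + m) M),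
      t.1.1 = i →
      (∑ t : DI (fun i => d i + m) M,
        if i = t.1.1 then Polynomial.C (c t) * X ^ (t.1.2 : ℕ) else 0 : k[X]).coeff (t.1.2 : ℕ) =
        c t := by
    intro c i t ht
    rw [finsetSum_coeff, Finset.sum_eq_single t]
    · rw [if_pos ht.symm, coeff_C_mul_X_pow, if_pos rfl]
    · intro t' _ htt
      split_ifs with h1
      · rw [coeff_C_mul_X_pow, if_neg]
        intro h2
        apply htt
        apply Subtype.ext
        apply Prod.ext
        · rw [← h1, ht]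
        · exact Fin.ext h2.symm
      · rw [coeff_zero]
    · intro h
      exact absurd (Finset.mem_univ t) h
  refine ⟨f, ?_, ?_⟩
  · intro t R
    refine gnl_reg hu (f t) _ (hf t) m ?_ R
    intro i s hs
    by_cases hi : i = t.1.1
    · rw [if_pos hi, coeff_X_pow, if_neg]
      intro h
      have := t.2
      rw [← hi] at this
      simp only at this
      omega
    · rw [if_neg hi, coeff_zero]
  · rw [Fintype.linearIndependent_iff]
    intro c hc t
    have h2 : (∑ t, algebraMap k Φ (c t) * f t) = 0 := by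
      rw [← hc]
      refine Finset.sum_congr rfl fun t _ => ?_
      rw [Algebra.smul_def]
    have h3 := hsum c t.1.1
    rw [h2, zero_mul, map_zero] at h3
    have h4 : (∑ t' : DI (fun i => d i + m) M,
        if t.1.1 = t'.1.1 then Polynomial.C (c t') * X ^ (t'.1.2 : ℕ) else 0 : k[X]) = 0 := by
      by_contra hne
      exact gnl_ne hx hne h3.symm
    have h5 := hcoef c t.1.1 t rfl
    rw [h4, coeff_zero] at h5
    exact h5.symm

/-- the divisor of poles of `x`, `m` times -/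
private noncomputable def gnl_D (k : Type*) {Φ : Type*} [Field k] [Field Φ] [Algebra k Φ] (x : Φ) (m : ℕ) :
    Place k Φ → ℤ := fun R => m * max 0 (-R.ord x)

private theorem gnl_D_fin (x : Φ) (m : ℕ) : {R | gnl_D k x m R ≠ 0}.Finite := by
  refine (finite_ord_ne_zero (k := k) x).subset fun R hR => ?_
  intro h
  apply hR
  show (m : ℤ) * max 0 (-R.ord x) = 0
  rw [h, neg_zero, max_self, mul_zero]

private theorem gnl_upper (hu : RBas k x d u) (m : ℕ) (hm : ∀ i, d i ≤ m) :
    Module.finrank k (LL (gnl_D k x m)) + ∑ i, d i ≤ n * (m + 1) := by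
  classical
  let T : Type := {t : Fin n × Fin (m + 1) // (t.2 : ℕ) + d t.1 ≤ m}
  set w : T → Φ := fun t => x ^ (t.1.2 : ℕ) * u t.1.1 with hw
  have hle : LL (gnl_D k x m) ≤ Submodule.span k (Set.range w) := by
    intro f hf
    have hpol : PolB k x m f := by
      refine ⟨fun R hR => ?_, fun R hR => ?_⟩
      · have := hf R
        rw [gnl_D, max_eq_left (by omega), mul_zero, neg_zero] at this
        exact this
      · have := hf R
        rw [gnl_D, max_eq_right (by omega), mul_neg, neg_neg] at this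
        exact this
    obtain ⟨p, hp1, hp2⟩ := hu.span m f hpol
    rw [hp2]
    refine Submodule.sum_mem _ fun i _ => ?_
    by_cases hpi : p i = 0
    · rw [hpi, map_zero, zero_mul]
      exact zero_mem _
    have h1 := hp1 i hpi
    rw [aeval_eq_sum_range, Finset.sum_mul]
    refine Submodule.sum_mem _ fun s hs => ?_
    rw [Finset.mem_range] at hs
    rw [smul_mul_assoc]
    refine Submodule.smul_mem _ _ (Submodule.subset_span ?_)
    exact ⟨⟨(i, ⟨s, by omega⟩), by
      show s + d i ≤ m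
      omega⟩, rfl⟩
  have hfd : FiniteDimensional k (Submodule.span k (Set.range w)) :=
    FiniteDimensional.span_of_finite k (Set.finite_range w)
  have h1 : Module.finrank k (LL (gnl_D k x m)) ≤ Fintype.card T :=
    (Submodule.finrank_mono hle).trans (finrank_range_le_card w)
  have h2 : Fintype.card T = ∑ i, (m + 1 - d i) := by
    show Fintype.card {t : Fin n × Fin (m + 1) // (t.2 : ℕ) + d t.1 ≤ m} = _
    rw [Fintype.card_subtype, Finset.card_filter, Fintype.sum_prod_type]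
    refine Finset.sum_congr rfl fun i _ => ?_
    rw [← Finset.card_filter]
    have h3 : (Finset.univ.filter fun s : Fin (m + 1) => (s : ℕ) + d i ≤ m).card =
        (Finset.range (m + 1 - d i)).card := by
      refine Finset.card_bij (fun s _ => (s : ℕ)) ?_ ?_ ?_
      · intro s hs
        rw [Finset.mem_filter] at hs
        rw [Finset.mem_range]
        omega
      · intro s _ t _ h
        exact Fin.ext h
      · intro s hs
        rw [Finset.mem_range] at hs
        refine ⟨⟨s, by omega⟩, ?_, rfl⟩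
        rw [Finset.mem_filter]
        refine ⟨Finset.mem_univ _, ?_⟩
        show s + d i ≤ m
        omega
    rw [h3, Finset.card_range]
  have h3 : ∑ i, (m + 1 - d i) + ∑ i, d i = n * (m + 1) := by
    rw [← Finset.sum_add_distrib]
    have : ∀ i, m + 1 - d i + d i = m + 1 := fun i => by
      have := hm i
      omega
    rw [Finset.sum_congr rfl fun i _ => this i, Finset.sum_const, Finset.card_univ, Fintype.card_fin,
      smul_eq_mul]
  omega

end aux

variable {C Φ : Type*} [Field C] [Field Φ] [Algebra C Φ] [FunField C Φ] [CharZero C] [IsAlgClosed C]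

theorem gnl {g : ℕ} (hg : 1 ≤ g) (ω : Fin g → Ω[Φ⁄C]) (hr : ∀ i, ∀ R : Place C Φ, 0 ≤ R.ordDiff (ω i))
    (hli : LinearIndependent C ω)
    (hsp : ∀ η : Ω[Φ⁄C], (∀ R : Place C Φ, 0 ≤ R.ordDiff η) → η ∈ Submodule.span C (Set.range ω)) :
    chi C Φ = 2 * g - 2 := by
  classical
  refine le_antisymm (gnu ω hr hli hsp) ?_
  obtain ⟨x, hx⟩ := FunField.exists_transcendental (k := C) (L := Φ)
  have hrb := rbx x hx
  generalize Module.finrank C⟮x⟯ Φ = n at hrb
  obtain ⟨d, u, hu, i₀, h0, h1⟩ := hrb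
  have hcard := gnu_card ω hr hli hsp hu i₀ h0 h1
  have hD0 : KaehlerDifferential.D C Φ x ≠ 0 := D_ne_zero hx
  obtain ⟨m, hmdef⟩ : ∃ m, m = ∑ i, d i + 2 := ⟨_, rfl⟩
  have hdm : ∀ i, d i ≤ m := fun i => by
    have := Finset.single_le_sum (f := d) (fun i _ => Nat.zero_le _) (Finset.mem_univ i)
    omega
  have hupper := gnl_upper hu m hdm
  have hM : ∀ i, d i + m < m + m + 1 := fun i => by
    have := hdm i
    omega
  obtain ⟨f, hf1, hf2⟩ := gnl_fam hu m (m + m + 1)
  have hcT := gnl_DI (fun i => d i + m) (m + m + 1) hM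
  have hω : ω ⟨0, hg⟩ ≠ 0 := hli.ne_zero _
  obtain ⟨h, hh⟩ : ∃ h : Φ, ω ⟨0, hg⟩ = h • KaehlerDifferential.D C Φ x := by
    refine ⟨(kaehlerEquiv hx).symm (ω ⟨0, hg⟩), ?_⟩
    rw [← kaehlerEquiv_apply hx, LinearEquiv.apply_symm_apply]
  have hh0 : h ≠ 0 := by
    rintro rfl
    exact hω (by rw [hh, zero_smul])
  obtain ⟨K, hK⟩ : ∃ K : Place C Φ → ℤ, K = fun R => R.ordDiff (ω ⟨0, hg⟩) := ⟨_, rfl⟩
  have hKeq : ∀ R, K R = R.ord h + R.ord (R.dv x) := fun R => by
    rw [hK]
    show R.ordDiff (ω ⟨0, hg⟩) = _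
    rw [hh, R.ordDiff_smul_D, R.ord_mul _ _ hh0 (R.dv_ne_zero hx)]
  have hKfin : {R | K R ≠ 0}.Finite := by
    have := supp_add (finite_ord_ne_zero (k := C) h) (finite_ord_dv_ne_zero (k := C) hx)
    refine this.subset fun R hR => ?_
    have h2 : K R ≠ 0 := hR
    rw [hKeq] at h2
    exact h2
  have hK0 : ∀ R, 0 ≤ K R := fun R => by
    rw [hK]
    exact hr _ R
  have hfinD := gnl_D_fin (k := C) x m
  have hle := rra_le (gnl_D C x m) (fun R => gnl_D C x m R + K R) hfinD (supp_add hfinD hKfin)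
    (fun R => by have := hK0 R; omega)
  have hsumK : ∑ᶠ R, (gnl_D C x m R + K R - gnl_D C x m R) = chi C Φ := by
    rw [finsum_congr (fun R => add_sub_cancel_left (gnl_D C x m R) (K R)), hK]
    exact finsum_ordDiff hω
  rw [hsumK] at hle
  -- the elements of the bigger space
  have hmem : ∀ t, h⁻¹ * f t ∈ LL (fun R => gnl_D C x m R + K R) := by
    intro t R
    by_cases hft : f t = 0
    · rw [hft, mul_zero]
      exact zero_mem _
    apply R.mem_ge_of_le
    rw [R.ord_mul _ _ (inv_ne_zero hh0) hft, R.ord_inv]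
    obtain ⟨a1, a2⟩ := hf1 t R
    rw [R.ordDiff_smul_D, R.ord_mul _ _ hft (R.dv_ne_zero hx)] at a1 a2
    show -(m * max 0 (-R.ord x) + K R) ≤ _
    rw [hKeq]
    by_cases hR : R.ord x < 0
    · have := a2 hR
      rw [max_eq_right (by omega)]
      linarith
    · have := a1 (not_lt.1 hR)
      rw [max_eq_left (by omega)]
      linarith
  have hind : LinearIndependent C (fun t => (⟨h⁻¹ * f t, hmem t⟩ : LL (fun R => gnl_D C x m R + K R))) := by
    rw [Fintype.linearIndependent_iff] at hf2 ⊢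
    intro c hc t
    refine hf2 c ?_ t
    have h2 := congrArg (fun z : LL (fun R => gnl_D C x m R + K R) => (z : Φ)) hc
    simp only [Submodule.coe_sum, Submodule.coe_smul, Submodule.coe_zero] at h2
    have h3 : h⁻¹ * ∑ t, c t • f t = 0 := by
      rw [← h2, Finset.mul_sum]
      refine Finset.sum_congr rfl fun t _ => ?_
      rw [mul_smul_comm]
    exact (mul_eq_zero.1 h3).resolve_left (inv_ne_zero hh0)
  have hfd := rra_fin (fun R => gnl_D C x m R + K R) (supp_add hfinD hKfin)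
  have hlow := hind.fintype_card_le_finrank
  rw [hcT] at hlow
  have hsum2 : ∑ i, (d i + m - 1) + n = ∑ i, d i + n * m := by
    have e1 : ∑ i : Fin n, (d i + m - 1) + ∑ i : Fin n, 1 = ∑ i, d i + ∑ i : Fin n, m := by
      rw [← Finset.sum_add_distrib, ← Finset.sum_add_distrib]
      refine Finset.sum_congr rfl fun i _ => ?_
      omega
    simpa using e1
  have e1 : n * (m + 1) = n * m + n := by ring
  rw [e1] at hupper
  zify at hupper hsum2 hlow hcard
  linarith

end Pool.Agent.HFB
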