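import Pool.Agent.HFB.HBE
import Pool.Agent.HFB.GNL
import Pool.Agent.ESH.FNC
import Pool.Agent.ESH.PGN

/-!
# HFB / FHA: effective Shafarevich for curves geometrically Galois over the line, Faltings height

`FunField C Φ` by `sff`, `ffc`.  GNL: `chi C Φ = 2 g - 2`; `pgn`, `fnc`: `β` with `[Φ : C(β)] ≤ tw 130 S`, `S = szK K T + 86 g` (`≥ 16`).  HBE: `hFal ≤ tw 20 (tw 130 S + g + 16) ≤ tw 20 (tw 131 S) = tw 151 S`.
-/

namespace Pool.Agent.HFB

open Polynomial Pool.Agent.Helper11 Pool.Agent.ESH IntermediateField NumberField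
open scoped KaehlerDifferential
open CategoryTheory AlgebraicGeometry IsDedekindDomain

universe u

theorem fha {K F : Type u} {C Φ : Type*} [Field K] [NumberField K] [Field F] [Algebra K F] [Field C]
    [Algebra K C] [Algebra.IsAlgebraic K C] [IsAlgClosed C] [Field Φ] [Algebra C Φ] [Algebra F Φ]
    (hc : Cmps K F C Φ) {X : Scheme.{u}} [IsIntegral X] (f : X ⟶ Spec (.of K)) [IsProper f]
    [SmoothOfRelativeDimension 1 f] [GeometricallyIntegral f]
    (e : X.functionField ≃+* F) (he : ∀ c : K, e (constMap f c) = algebraMap K F c)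
    (T : Finset (HeightOneSpectrum (𝓞 K))) (hT : ∀ v : HeightOneSpectrum (𝓞 K), v ∉ T → GoodRed f v)
    (a : FinitePlace K → AbsoluteValue C ℝ)
    (ha : ∀ v, IsNonarchimedean (a v) ∧ ∀ y : K, a v (algebraMap K C y) = v y)
    {Ψ : (K →+* ℂ) → Type*} [∀ σ, Field (Ψ σ)] [∀ σ, Algebra ℂ (Ψ σ)] (j : ∀ σ, F →+* Ψ σ)
    (hj : ∀ σ, CmpE σ (j σ)) (g : ℕ) (hg : 2 ≤ g) (x₀ : F) (f₀ : Fin g → F)
    (hr : ∀ i, ∀ R : Place C Φ, 0 ≤ R.ordDiff (algebraMap F Φ (f₀ i) • KaehlerDifferential.D C Φ (algebraMap F Φ x₀)))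
    (hli : LinearIndependent C (fun i => algebraMap F Φ (f₀ i) • KaehlerDifferential.D C Φ (algebraMap F Φ x₀)))
    (hsp : ∀ η : Ω[Φ⁄C], (∀ R : Place C Φ, 0 ≤ R.ordDiff η) → η ∈ Submodule.span C
      (Set.range (fun i => algebraMap F Φ (f₀ i) • KaehlerDifferential.D C Φ (algebraMap F Φ x₀))))
    (G : Subgroup (Φ ≃ₐ[C] Φ)) (x : Φ) (hx : FixGen G x) :
    hFal (C := C) (Φ := Φ) a j x₀ f₀ ≤ tw 151 (szK K T + 86 * g) := by
  have : CharZero C := charZero_of_injective_algebraMap (algebraMap K C).injective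
  have : FunField K F := sff f e he
  have : FunField C Φ := ffc hc
  have hchi : chi C Φ = 2 * g - 2 := gnl (by omega) _ hr hli hsp
  have hchi0 : 0 < chi C Φ := by omega
  have hpos : PosGenus C Φ := pgn hchi0
  obtain ⟨β, hβ, hd⟩ := fnc hc f e he T hT g hg hchi hpos G x hx
  refine (hbe hc a ha j hj x₀ f₀ hr hli hsp β hβ).trans ?_
  have h16 : 16 ≤ szK K T := by unfold szK; omega
  obtain ⟨S, hS⟩ : ∃ S, S = szK K T + 86 * g := ⟨_, rfl⟩
  rw [← hS] at hd ⊢
  have hS16 : 16 ≤ S := by omega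
  have h1 : g + 16 ≤ tw 130 S := le_trans (by omega) (le_tw 130 S)
  have h2 := tw_add hS16 hd h1
  have h3 : tw 20 (Module.finrank C⟮β⟯ Φ + g + 16) ≤ tw 151 S := by
    have h4 : tw 20 (tw 131 S) = tw 151 S := tw_comp 20 131 S
    rw [← h4]
    exact tw_mono le_rfl (by rw [add_assoc]; exact h2)
  exact_mod_cast h3

end Pool.Agent.HFB
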