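import Pool.Agent.HFB.HBE
import Pool.Agent.HFB.GNL
import Pool.Agent.ESH.FND

/-!
# HFB / FHB: effective Shafarevich for curves geometrically Galois over a genus one curve, Faltings height

As FHA with `fnd`: `S = szK K T + 170 g`.
-/

namespace Pool.Agent.HFB

open Polynomial Pool.Agent.Helper11 Pool.Agent.ESH IntermediateField NumberField
open scoped KaehlerDifferential
open CategoryTheory AlgebraicGeometry IsDedekindDomain

universe u

theorem fhb {K F : Type u} {C Φ : Type*} [Field K] [NumberField K] [Field F] [Algebra K F] [Field C]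
    [Algebra K C] [Algebra.IsAlgebraic K C] [IsAlgClosed C] [Field Φ] [Algebra C Φ] [Algebra F Φ]
    (hc : Cmps K F C Φ) {X : Scheme.{u}} [IsIntegral X] (f : X ⟶ Spec (.of K)) [IsProper f]
    [SmoothOfRelativeDimension 1 f] [GeometricallyIntegral f]
    (e : X.functionField ≃+* F) (he : ∀ c : K, e (constMap f c) = algebraMap K F c)
    (T : Finset (HeightOneSpectrum (𝓞 K))) (hT : ∀ v : HeightOneSpectrum (𝓞 K), v ∉ T → GoodRed f v)
    (a : FinitePlace K → AbsoluteValue C ℝ)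
    (ha : ∀ v, IsNonarchimedean (a v) ∧ ∀ y : K, a v (algebraMap K C y) = v y)
    {Ψ : (K →+* ℂ) → Type*} [∀ σ, Field (Ψ σ)] [∀ σ, Algebra ℂ (Ψ σ)] (j : ∀ σ, F →+* Ψ σ)
    (hj : ∀ σ, CmpE σ (j σ)) (g : ℕ) (hg : 2 ≤ g) (x₀ : F) (f₀ : Fin g → F)
    (hr : ∀ i, ∀ R : Place C Φ, 0 ≤ R.ordDiff (algebraMap F Φ (f₀ i) • KaehlerDifferential.D C Φ (algebraMap F Φ x₀)))
    (hli : LinearIndependent C (fun i => algebraMap F Φ (f₀ i) • KaehlerDifferential.D C Φ (algebraMap F Φ x₀)))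
    (hsp : ∀ η : Ω[Φ⁄C], (∀ R : Place C Φ, 0 ≤ R.ordDiff η) → η ∈ Submodule.span C
      (Set.range (fun i => algebraMap F Φ (f₀ i) • KaehlerDifferential.D C Φ (algebraMap F Φ x₀))))
    (G : Subgroup (Φ ≃ₐ[C] Φ)) {x y : Φ} {l : C} (hx : FixLeg G x y l)
    (hO : ∃ Q : Place C Φ, Q.ord x < 0 ∧ Ram G Q) :
    hFal (C := C) (Φ := Φ) a j x₀ f₀ ≤ tw 151 (szK K T + 170 * g) := by
  have : CharZero C := charZero_of_injective_algebraMap (algebraMap K C).injective
  have : FunField K F := sff f e he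
  have : FunField C Φ := ffc hc
  have hchi : chi C Φ = 2 * g - 2 := gnl (by omega) _ hr hli hsp
  obtain ⟨β, hβ, hd⟩ := fnd hc f e he T hT g hg hchi G hx hO
  have h1 := hbe hc a ha j hj x₀ f₀ hr hli hsp β hβ
  refine h1.trans ?_
  have hS : 16 ≤ szK K T + 170 * g := by
    unfold szK
    omega
  have h2 : Module.finrank C⟮β⟯ Φ + g + 16 ≤ tw 131 (szK K T + 170 * g) := by
    have h3 : g + 16 ≤ tw 130 (szK K T + 170 * g) := (by
      have : g + 16 ≤ szK K T + 170 * g := by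
        unfold szK
        omega
      exact this.trans (le_tw _ _))
    have h4 := tw_add hS hd h3
    have h5 : Module.finrank C⟮β⟯ Φ + g + 16 = Module.finrank C⟮β⟯ Φ + (g + 16) := by ring
    rw [h5]
    exact h4
  have h6 : tw 20 (Module.finrank C⟮β⟯ Φ + g + 16) ≤ tw 151 (szK K T + 170 * g) := by
    refine (tw_mono (le_refl 20) h2).trans ?_
    rw [tw_comp]
  exact_mod_cast h6

end Pool.Agent.HFB
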