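import Pool.Agent.HFB.RRX
import Pool.Agent.ESH.RRA
import Pool.Agent.Helper11.Degree

/-!
# HFB / GZR: function fields of genus zero

`gzr`: `D` = the divisor `O`: `dim L(O) ≥ 2` (`rrc_zero`), so there is a non-constant `x` with poles at most a simple pole at `O`; `O.ord x = -1`, `[E : C(x)] = 1` (`finsum_neg_ord`), `C(x) = E`.
`gzr_chi`: conversely if `E = C(x)`, `x` transcendental, then `chi = -2`: the differential `dx` has order `0` at the finite places and `-2` at the pole (`finsum_ord_dv`, `ord_dv`; all the places have order one: `finsum_pos_ord`).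
-/

namespace Pool.Agent.HFB

open Polynomial Pool.Agent.Helper11 Pool.Agent.ESH IntermediateField NumberField
open scoped KaehlerDifferential

variable {C E : Type*} [Field C] [Field E] [Algebra C E] [FunField C E] [CharZero C] [IsAlgClosed C]

private theorem GZR_pole {x : E} (hx : Transcendental C x) (O : Place C E)
    (h : ∀ v : Place C E, v ≠ O → x ∈ v.ge 0) :
    O.ord x < 0 ∧ (Module.finrank C⟮x⟯ E : ℤ) = -O.ord x := by
  have h1 := finsum_neg_ord hx
  have hx0 : x ≠ 0 := by
    rintro rfl
    exact hx (isAlgebraic_zero)
  rw [finsum_eq_single _ O (fun v hv => by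
    have := v.le_ord_of_mem (h v hv) hx0
    exact max_eq_left (by omega))] at h1
  have hfd := FunField.finiteDimensional_adjoin hx
  have h2 : 0 < Module.finrank C⟮x⟯ E := Module.finrank_pos
  rcases le_total 0 (-O.ord x) with h3 | h3
  · rw [max_eq_right h3] at h1
    exact ⟨by omega, h1.symm⟩
  · rw [max_eq_left h3] at h1
    omega

private theorem GZR_top {x : E} (hx : Transcendental C x) (h : Module.finrank C⟮x⟯ E = 1) :
    C⟮x⟯ = ⊤ := by
  have hfd := FunField.finiteDimensional_adjoin hx
  exact IntermediateField.finrank_eq_one_iff_eq_top.1 h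

theorem gzr (h : chi C E = -2) (O : Place C E) :
    ∃ x : E, Transcendental C x ∧ C⟮x⟯ = ⊤ ∧ O.ord x = -1 := by
  classical
  have hD : {v : Place C E | (if v = O then (1 : ℤ) else 0) ≠ 0}.Finite :=
    (Set.finite_singleton O).subset fun v hv => by
      by_contra hne
      exact hv (if_neg hne)
  have h1 := rrc_zero h (fun v : Place C E => if v = O then (1 : ℤ) else 0) hD
  have h2 : ∑ᶠ v : Place C E, (if v = O then (1 : ℤ) else 0) = 1 := by
    rw [finsum_eq_single _ O (fun v hv => if_neg hv), if_pos rfl]
  rw [h2] at h1
  have hfin := rra_fin (fun v : Place C E => if v = O then (1 : ℤ) else 0) hD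
  have hex : ∃ x ∈ LL (fun v : Place C E => if v = O then (1 : ℤ) else 0), Transcendental C x := by
    by_contra hcon
    push Not at hcon
    have hle : LL (fun v : Place C E => if v = O then (1 : ℤ) else 0) ≤ Submodule.span C {(1 : E)} := by
      intro x hx
      have h3 := hcon x hx
      rw [Transcendental, not_not] at h3
      obtain ⟨c, hc⟩ := mem_range_of_isAlgebraic h3
      rw [← hc, Submodule.mem_span_singleton]
      exact ⟨c, by rw [Algebra.smul_def, mul_one]⟩
    have h4 := Submodule.finrank_mono hle
    have h5 : Module.finrank C (Submodule.span C {(1 : E)}) ≤ 1 := by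
      have := finrank_span_le_card (R := C) ({(1 : E)} : Set E)
      simpa using this
    omega
  obtain ⟨x, hx, hxt⟩ := hex
  obtain ⟨h3, h4⟩ := GZR_pole hxt O (fun v hv => by
    have h5 := hx v
    simp only [if_neg hv, neg_zero] at h5
    exact h5)
  have h6 : -1 ≤ O.ord x := by
    have h5 := hx O
    simp only [if_true] at h5
    exact O.le_ord_of_mem h5 (O.ne_zero_of_ord_ne_zero h3.ne)
  refine ⟨x, hxt, GZR_top hxt (by omega), by omega⟩

theorem gzr_chi {x : E} (hx : Transcendental C x) (h : C⟮x⟯ = ⊤) : chi C E = -2 := by
  have hone : ∀ y : E, Transcendental C y → C⟮y⟯ = ⊤ → Module.finrank C⟮y⟯ E = 1 := by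
    intro y _ hy
    exact IntermediateField.finrank_eq_one_iff_eq_top.2 hy
  have hx0 : x ≠ 0 := by
    rintro rfl
    exact hx (isAlgebraic_zero)
  -- order one at the finite places
  have hfinite : ∀ v : Place C E, 0 ≤ v.ord x → v.ord (v.dv x) = 0 := by
    intro v hv
    obtain ⟨c, hc⟩ := v.exists_residue (v.mem_ge_of_le hv)
    have hxc : Transcendental C (x - algebraMap C E c) := by
      intro h0
      apply hx
      have h1 := h0.add (isAlgebraic_algebraMap c)
      rwa [sub_add_cancel] at h1
    have htop : C⟮x - algebraMap C E c⟯ = ⊤ := by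
      rw [eq_top_iff, ← h, IntermediateField.adjoin_simple_le_iff]
      have h1 := add_mem (IntermediateField.mem_adjoin_simple_self C (x - algebraMap C E c))
        (IntermediateField.algebraMap_mem C⟮x - algebraMap C E c⟯ c)
      rwa [sub_add_cancel] at h1
    have h1 := finsum_pos_ord hxc
    rw [hone _ hxc htop] at h1
    have hne : x - algebraMap C E c ≠ 0 := by
      intro h0
      rw [h0] at hxc
      exact hxc (isAlgebraic_zero)
    have h2 := v.le_ord_of_mem hc hne
    have h3 := fs_single_le (supp_max (finite_ord_ne_zero (k := C) (x - algebraMap C E c)))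
      (fun v => le_max_left _ _) v
    rw [h1] at h3
    have h4 : v.ord (x - algebraMap C E c) = 1 := by
      have h5 := le_max_right 0 (v.ord (x - algebraMap C E c))
      push_cast at h3
      omega
    have h5 := (v.ord_dv_unif' h4).2
    rwa [map_sub, Derivation.map_algebraMap, sub_zero] at h5
  -- the pole
  have h1 := finsum_neg_ord hx
  rw [hone x hx h] at h1
  have hpole : ∃ O : Place C E, O.ord x < 0 := by
    by_contra hcon
    push Not at hcon
    rw [finsum_congr (g := fun _ => (0 : ℤ)) (fun v => max_eq_left (by
      have := hcon v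
      omega)), finsum_zero] at h1
    norm_num at h1
  obtain ⟨O, hO⟩ := hpole
  have hsupp : {v : Place C E | max 0 (-v.ord x) ≠ 0}.Finite := by
    refine supp_max (f := fun v : Place C E => -v.ord x) ?_
    refine (finite_ord_ne_zero (k := C) x).subset fun v hv h0 => hv ?_
    rw [h0, neg_zero]
  have hO1 : O.ord x = -1 := by
    have h3 := fs_single_le hsupp (fun v => le_max_left _ _) O
    rw [h1] at h3
    have h5 := le_max_right 0 (-O.ord x)
    push_cast at h3
    omega
  have huniq : ∀ v : Place C E, v ≠ O → 0 ≤ v.ord x := by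
    intro v hv
    by_contra hneg
    push Not at hneg
    obtain ⟨S, hS⟩ : ∃ S : Set (Place C E), S = {O, v} := ⟨_, rfl⟩
    have hSf : S.Finite := by rw [hS]; exact Set.toFinite _
    have h3 := fs_mono (supp_ind hSf) hsupp (by
      intro w
      split_ifs with hw
      · rw [hS] at hw
        rcases hw with rfl | hw
        · rw [hO1]; norm_num
        · rw [Set.mem_singleton_iff.1 hw]
          have := le_max_right 0 (-v.ord x)
          omega
      · exact le_max_left _ _)
    rw [fs_ind hSf, h1, hS, Set.ncard_pair (Ne.symm hv)] at h3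
    norm_num at h3
  rw [← finsum_ord_dv hx, finsum_eq_single _ O (fun v hv => hfinite v (huniq v hv)),
    (O.ord_dv (y := x) (by rw [hO1]; decide)).2, hO1]
  norm_num

end Pool.Agent.HFB
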