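import Pool.Agent.HFB.GOC
import Pool.Agent.ESH.GTB
import Pool.Agent.ESH.RST
import Pool.Agent.Helper11.Ext
import Pool.Agent.HFB.GZR

/-!
# HFB / FXF: quotients by finite groups

`F = fixedField G`: `[Φ : F] = card G` finite (Artin), so `F` is a function field (`fxf_ff`: `F` is finitely generated over `C` as `Φ` is finite over it and finitely generated: Artin-Tate; or `F/C(x)` is a subextension of the finite extension `Φ/C(x)` for a transcendental `x ∈ F`).
`fxf_zero`: `gzr` for `F` gives `x ∈ F` with `C(x) = F`; `FixGen G x` (`IntermediateField.lift`, coercions).  `fxf_one`: `O` = the restriction `Q.res F` of `Q` (Helper11), `goc`; `Q.ord x = (Q.ram F) (Q.res F).ord x < 0`.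
`fxf_ram`: otherwise for every place `R` there is a `G`-invariant function of order one at `R` (`gtb_unr`), so `R.ram F = 1`; `chi C Φ = ∑_R R.ord (R.dv x) = ∑_R (R.res F).ord ((R.res F).dv x)` (`ord_dv_algebraMap`, `x ∈ F` transcendental) `= (card G) · chi C F = 0`: every place `v` of `F` has the same number of places above it (sum of the `ram` = degree: apply
`finsum_pos_ord` to an `f ∈ F`..., or GTB: they are conjugate and `R.ram = 1 = sO`, so there are `card G` of them; compare the proof of ESH / RHG), contradiction.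
-/

namespace Pool.Agent.HFB

open Polynomial Pool.Agent.Helper11 Pool.Agent.ESH IntermediateField NumberField
open scoped KaehlerDifferential

variable {C Φ : Type*} [Field C] [Field Φ] [Algebra C Φ] [FunField C Φ] [CharZero C] [IsAlgClosed C]

private theorem fxf_fd (Γ : Subgroup (Φ ≃ₐ[C] Φ)) [Finite Γ] :
    FiniteDimensional (IntermediateField.fixedField Γ) Φ := by
  have hfr : Module.finrank (IntermediateField.fixedField Γ) Φ = Nat.card Γ := by
    have := Fintype.ofFinite Γ
    rw [Nat.card_eq_fintype_card]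
    exact FixedPoints.finrank_eq_card Γ Φ
  apply FiniteDimensional.of_finrank_pos
  rw [hfr]
  exact Nat.card_pos

/-- a field over which a function field is finite is a function field -/
private theorem fxf_ff' (F : IntermediateField C Φ) [FiniteDimensional F Φ] : FunField C F := by
  have halg : Algebra.IsAlgebraic F Φ := inferInstance
  have hex : ∃ x : F, Transcendental C x := by
    by_contra hcon
    push Not at hcon
    have h1 : Algebra.IsAlgebraic C F := ⟨fun x => by
      have := hcon x
      rwa [Transcendental, not_not] at this⟩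
    have h2 : Algebra.IsAlgebraic C Φ := Algebra.IsAlgebraic.trans C F Φ
    obtain ⟨y, hy⟩ := FunField.exists_transcendental (k := C) (L := Φ)
    exact hy (h2.isAlgebraic y)
  obtain ⟨x, hx⟩ := hex
  have hx' : Transcendental C (x : Φ) := by
    intro h
    exact hx ((isAlgebraic_algHom_iff F.val F.val.injective).1 h)
  have hfd := FunField.finiteDimensional_adjoin hx'
  have h1 : (C⟮x⟯).map F.val = C⟮(x : Φ)⟯ := by
    rw [IntermediateField.adjoin_map]
    simp
  have hfd2 : FiniteDimensional ((C⟮x⟯).map F.val) Φ := by rw [h1]; exact hfd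
  have hfd3 : Module.Finite C⟮x⟯ Φ := by
    refine Module.Finite.of_equiv_equiv (A₁ := (C⟮x⟯).map F.val) (B₁ := Φ) (A₂ := C⟮x⟯) (B₂ := Φ)
      (equivMap C⟮x⟯ F.val).symm.toRingEquiv (RingEquiv.refl Φ) ?_
    ext a
    obtain ⟨b, rfl⟩ := (equivMap C⟮x⟯ F.val).surjective a
    simp
    rfl
  have hfd4 : FiniteDimensional C⟮x⟯ F := FiniteDimensional.left C⟮x⟯ F Φ
  refine ⟨?_, ?_⟩
  · have h2 : Algebra.EssFiniteType C C⟮x⟯ := by
      rw [IntermediateField.essFiniteType_iff]
      exact ⟨{x}, by simp⟩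
    exact Algebra.EssFiniteType.comp C C⟮x⟯ F
  · have h3 := lift_trdeg_add_eq C F Φ
    rw [trdeg_eq_zero (R := F) (A := Φ), FunField.trdeg (k := C) (L := Φ)] at h3
    simpa using h3

theorem fxf_ff (G : Subgroup (Φ ≃ₐ[C] Φ)) [Finite G] : FunField C (IntermediateField.fixedField G) := by
  have := fxf_fd G
  exact fxf_ff' _

private theorem fxf_fix (Γ : Subgroup (Φ ≃ₐ[C] Φ)) (f : fixedField Γ) (g : Φ ≃ₐ[C] Φ) (hg : g ∈ Γ) :
    g (f : Φ) = f := by
  have := f.2
  rw [IntermediateField.mem_fixedField_iff] at this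
  exact this g hg

private theorem fxf_place (C Φ : Type*) [Field C] [Field Φ] [Algebra C Φ] [FunField C Φ] [CharZero C]
    [IsAlgClosed C] : Nonempty (Place C Φ) := by
  by_contra hcon
  rw [not_nonempty_iff] at hcon
  obtain ⟨x, hx⟩ := FunField.exists_transcendental (k := C) (L := Φ)
  have h1 := finsum_pos_ord hx
  rw [finsum_of_isEmpty] at h1
  have hfd := FunField.finiteDimensional_adjoin hx
  have h2 : 0 < Module.finrank C⟮x⟯ Φ := Module.finrank_pos
  omega

private theorem fxf_gen (F : IntermediateField C Φ) (S : Set F) (h : IntermediateField.adjoin C S = ⊤)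
    {f : Φ} (hf : f ∈ F) : f ∈ IntermediateField.adjoin C ((fun a : F => (a : Φ)) '' S) := by
  have h1 : (⟨f, hf⟩ : F) ∈ IntermediateField.adjoin C S := by
    rw [h]
    trivial
  have h2 : (IntermediateField.adjoin C S).map F.val =
      IntermediateField.adjoin C ((fun a : F => (a : Φ)) '' S) := by
    rw [IntermediateField.adjoin_map]
    rfl
  rw [← h2]
  exact ⟨⟨f, hf⟩, h1, rfl⟩

theorem fxf_zero (G : Subgroup (Φ ≃ₐ[C] Φ)) [Finite G] (h : chi C (IntermediateField.fixedField G) = -2) :
    ∃ x : Φ, FixGen G x := by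
  have hff := fxf_ff G
  obtain ⟨O⟩ := fxf_place C (IntermediateField.fixedField G)
  obtain ⟨x, -, hx, -⟩ := gzr h O
  refine ⟨(x : Φ), fun g hg => fxf_fix G x g hg, fun f hf => ?_⟩
  have h1 : f ∈ fixedField G := by
    rw [IntermediateField.mem_fixedField_iff]
    exact hf
  have h2 := fxf_gen (fixedField G) {x} hx h1
  rwa [Set.image_singleton] at h2

theorem fxf_one (G : Subgroup (Φ ≃ₐ[C] Φ)) [Finite G] (h : chi C (IntermediateField.fixedField G) = 0)
    (Q : Place C Φ) : ∃ (x y : Φ) (l : C), FixLeg G x y l ∧ Q.ord x < 0 := by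
  have hff := fxf_ff G
  have hfd := fxf_fd G
  obtain ⟨x, y, l, hl, hg, ho⟩ := goc h (Q.res (IntermediateField.fixedField G))
  refine ⟨(x : Φ), (y : Φ), l, ⟨⟨?_, ?_, hl.l0, hl.l1⟩, fun g hg => fxf_fix G x g hg,
    fun g hg => fxf_fix G y g hg, fun f hf => ?_⟩, ?_⟩
  · intro h1
    exact hl.tr ((isAlgebraic_algHom_iff (fixedField G).val (fixedField G).val.injective).1 h1)
  · have h1 := congrArg (fun a : fixedField G => (a : Φ)) hl.eq
    exact h1
  · have h1 : f ∈ fixedField G := by
      rw [IntermediateField.mem_fixedField_iff]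
      exact hf
    have h2 := fxf_gen (fixedField G) {x, y} hg h1
    rwa [Set.image_pair] at h2
  · have h1 : Q.ord (x : Φ) = Q.ram (fixedField G) * (Q.res (fixedField G)).ord x :=
      Q.ord_restrict (F := fixedField G) x
    rw [h1]
    have h2 : (0 : ℤ) < Q.ram (fixedField G) := by
      have := Q.ram_pos (fixedField G)
      omega
    exact mul_neg_of_pos_of_neg h2 ho

/-- a differential without zeros and poles on a curve of genus one -/
private theorem fxf_diff (C E : Type*) [Field C] [Field E] [Algebra C E] [FunField C E] [CharZero C]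
    [IsAlgClosed C] (h : chi C E = 0) : ∃ ω : Ω[E⁄C], ω ≠ 0 ∧ ∀ R : Place C E, R.ordDiff ω = 0 := by
  obtain ⟨g, ω, hr, hli, hsp⟩ := rrx C E
  have h1 := gnu ω hr hli hsp
  rw [h] at h1
  have hg : 0 < g := by omega
  have h0 : ω ⟨0, hg⟩ ≠ 0 := hli.ne_zero _
  refine ⟨ω ⟨0, hg⟩, h0, ?_⟩
  have h2 := finsum_ordDiff h0
  rw [h] at h2
  have hfin := finite_ordDiff_ne_zero (k := C) (ω ⟨0, hg⟩)
  rw [finsum_eq_sum_of_support_subset (s := hfin.toFinset) _ (by
    intro R hR
    rw [Set.Finite.coe_toFinset]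
    exact hR)] at h2
  have h3 := (Finset.sum_eq_zero_iff_of_nonneg (fun R _ => hr ⟨0, hg⟩ R)).1 h2
  intro R
  by_contra hcon
  exact hcon (h3 R ((Set.Finite.mem_toFinset _).2 hcon))

theorem fxf_ram (G : Subgroup (Φ ≃ₐ[C] Φ)) [Finite G] (h : chi C (IntermediateField.fixedField G) = 0)
    (h0 : 0 < chi C Φ) : ∃ Q : Place C Φ, Ram G Q := by
  have hff := fxf_ff G
  have hfd := fxf_fd G
  by_contra hcon
  push Not at hcon
  obtain ⟨ω, hω, hω0⟩ := fxf_diff C (fixedField G) h
  obtain ⟨x, hx⟩ := FunField.exists_transcendental (k := C) (L := fixedField G)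
  obtain ⟨f, hf⟩ := (kaehler_bijective hx).2 ω
  change f • KaehlerDifferential.D C (fixedField G) x = ω at hf
  have hf0 : f ≠ 0 := by
    rintro rfl
    rw [zero_smul] at hf
    exact hω hf.symm
  have hxΦ : Transcendental C (algebraMap (fixedField G) Φ x) := transcendental_algebraMap (L := Φ) hx
  have hfΦ : algebraMap (fixedField G) Φ f ≠ 0 := by
    rw [Ne, map_eq_zero]
    exact hf0
  set η : Ω[Φ⁄C] := algebraMap (fixedField G) Φ f • KaehlerDifferential.D C Φ (algebraMap (fixedField G) Φ x)
    with hη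
  have hη0 : η ≠ 0 := smul_ne_zero hfΦ (D_ne_zero hxΦ)
  have hord : ∀ R : Place C Φ, R.ordDiff η = 0 := by
    intro R
    have hram : R.ram (fixedField G) = 1 := by
      obtain ⟨t, ht, ht1⟩ := gtb_unr G R (hcon R)
      have h1 := R.ord_restrict (F := fixedField G) ⟨t, by
        rw [IntermediateField.mem_fixedField_iff]; exact ht⟩
      have h2 : R.ord (algebraMap (fixedField G) Φ ⟨t, by
        rw [IntermediateField.mem_fixedField_iff]; exact ht⟩) = 1 := ht1
      rw [h2] at h1
      have h3 : ((R.ram (fixedField G) : ℕ) : ℤ) ∣ ((1 : ℕ) : ℤ) := ⟨_, by exact_mod_cast h1⟩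
      exact Nat.dvd_one.1 (Int.natCast_dvd_natCast.1 h3)
    have h4 := hω0 (R.res (fixedField G))
    rw [← hf, Place.ordDiff_smul_D, Place.ord_mul _ _ _ hf0 (Place.dv_ne_zero _ hx)] at h4
    rw [hη, Place.ordDiff_smul_D, Place.ord_mul _ _ _ hfΦ (Place.dv_ne_zero _ hxΦ),
      R.ord_dv_algebraMap hx, R.ord_restrict, hram]
    push_cast
    linarith
  have h5 := finsum_ordDiff hη0
  rw [finsum_congr hord, finsum_zero] at h5
  omega

end Pool.Agent.HFB
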