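import Pool.Agent.HFB.FHA
import Pool.Agent.HFB.FHB
import Pool.Agent.HFB.FXF

/-!
# HFB / FHC: final theorems, natural form

`FunField C Φ` (`sff`, `ffc`), `chi C Φ = 2 g - 2 > 0` (GNL), `PosGenus` (`pgn`), the automorphism group is finite (ESH / FAU).  `fhc_zero`: `fxf_zero`, FHA.  `fhc_one`: `fxf_ram`: `Q`; `fxf_one` for this `Q`; FHB.
-/

namespace Pool.Agent.HFB

open Polynomial Pool.Agent.Helper11 Pool.Agent.ESH IntermediateField NumberField
open scoped KaehlerDifferential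
open CategoryTheory AlgebraicGeometry IsDedekindDomain

universe u

theorem fhc_zero {K F : Type u} {C Φ : Type*} [Field K] [NumberField K] [Field F] [Algebra K F] [Field C]
    [Algebra K C] [Algebra.IsAlgebraic K C] [IsAlgClosed C] [Field Φ] [Algebra C Φ] [Algebra F Φ]
    (hc : Cmps K F C Φ) {X : Scheme.{u}} [IsIntegral X] (f : X ⟶ Spec (.of K)) [IsProper f]
    [SmoothOfRelativeDimension 1 f] [GeometricallyIntegral f]
    (e : X.functionField ≃+* F) (he : ∀ c : K, e (constMap f c) = algebraMap K F c)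
    (T : Finset (HeightOneSpectrum (𝓞 K))) (hT : ∀ v : HeightOneSpectrum (𝓞 K), v ∉ T → GoodRed f v)
    (a : FinitePlace K → AbsoluteValue C ℝ)
    (ha : ∀ v, IsNonarchimedean (a v) ∧ ∀ y : K, a v (algebraMap K C y) = v y)
    {Ψ : (K →+* ℂ) → Type*} [∀ σ, Field (Ψ σ)] [∀ σ, Algebra ℂ (Ψ σ)] (j : ∀ σ, F →+* Ψ σ)
    (hj : ∀ σ, CmpE σ (j σ)) (g : ℕ) (hg : 2 ≤ g) (x₀ : F) (f₀ : Fin g → F)
    (hr : ∀ i, ∀ R : Place C Φ, 0 ≤ R.ordDiff (algebraMap F Φ (f₀ i) • KaehlerDifferential.D C Φ (algebraMap F Φ x₀)))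
    (hli : LinearIndependent C (fun i => algebraMap F Φ (f₀ i) • KaehlerDifferential.D C Φ (algebraMap F Φ x₀)))
    (hsp : ∀ η : Ω[Φ⁄C], (∀ R : Place C Φ, 0 ≤ R.ordDiff η) → η ∈ Submodule.span C
      (Set.range (fun i => algebraMap F Φ (f₀ i) • KaehlerDifferential.D C Φ (algebraMap F Φ x₀))))
    (G : Subgroup (Φ ≃ₐ[C] Φ)) (hG : chi C (IntermediateField.fixedField G) = -2) :
    hFal (C := C) (Φ := Φ) a j x₀ f₀ ≤ tw 151 (szK K T + 86 * g) := by
  have : CharZero C := charZero_of_injective_algebraMap (algebraMap K C).injective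
  have : FunField K F := sff f e he
  have : FunField C Φ := ffc hc
  have hchi : chi C Φ = 2 * g - 2 := gnl (by omega) _ hr hli hsp
  have hchi0 : 0 < chi C Φ := by omega
  have hfin : Finite (Φ ≃ₐ[C] Φ) := fau (pgn hchi0) hchi0
  obtain ⟨x, hx⟩ := fxf_zero G hG
  exact fha hc f e he T hT a ha j hj g hg x₀ f₀ hr hli hsp G x hx

theorem fhc_one {K F : Type u} {C Φ : Type*} [Field K] [NumberField K] [Field F] [Algebra K F] [Field C]
    [Algebra K C] [Algebra.IsAlgebraic K C] [IsAlgClosed C] [Field Φ] [Algebra C Φ] [Algebra F Φ]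
    (hc : Cmps K F C Φ) {X : Scheme.{u}} [IsIntegral X] (f : X ⟶ Spec (.of K)) [IsProper f]
    [SmoothOfRelativeDimension 1 f] [GeometricallyIntegral f]
    (e : X.functionField ≃+* F) (he : ∀ c : K, e (constMap f c) = algebraMap K F c)
    (T : Finset (HeightOneSpectrum (𝓞 K))) (hT : ∀ v : HeightOneSpectrum (𝓞 K), v ∉ T → GoodRed f v)
    (a : FinitePlace K → AbsoluteValue C ℝ)
    (ha : ∀ v, IsNonarchimedean (a v) ∧ ∀ y : K, a v (algebraMap K C y) = v y)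
    {Ψ : (K →+* ℂ) → Type*} [∀ σ, Field (Ψ σ)] [∀ σ, Algebra ℂ (Ψ σ)] (j : ∀ σ, F →+* Ψ σ)
    (hj : ∀ σ, CmpE σ (j σ)) (g : ℕ) (hg : 2 ≤ g) (x₀ : F) (f₀ : Fin g → F)
    (hr : ∀ i, ∀ R : Place C Φ, 0 ≤ R.ordDiff (algebraMap F Φ (f₀ i) • KaehlerDifferential.D C Φ (algebraMap F Φ x₀)))
    (hli : LinearIndependent C (fun i => algebraMap F Φ (f₀ i) • KaehlerDifferential.D C Φ (algebraMap F Φ x₀)))
    (hsp : ∀ η : Ω[Φ⁄C], (∀ R : Place C Φ, 0 ≤ R.ordDiff η) → η ∈ Submodule.span C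
      (Set.range (fun i => algebraMap F Φ (f₀ i) • KaehlerDifferential.D C Φ (algebraMap F Φ x₀))))
    (G : Subgroup (Φ ≃ₐ[C] Φ)) (hG : chi C (IntermediateField.fixedField G) = 0) :
    hFal (C := C) (Φ := Φ) a j x₀ f₀ ≤ tw 151 (szK K T + 170 * g) := by
  have : CharZero C := charZero_of_injective_algebraMap (algebraMap K C).injective
  have : FunField K F := sff f e he
  have : FunField C Φ := ffc hc
  have hchi : chi C Φ = 2 * g - 2 := gnl (by omega) _ hr hli hsp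
  have hchi0 : 0 < chi C Φ := by omega
  have hfin : Finite (Φ ≃ₐ[C] Φ) := fau (pgn hchi0) hchi0
  obtain ⟨Q, hQ⟩ := fxf_ram G hG hchi0
  obtain ⟨x, y, l, hx, hQx⟩ := fxf_one G hG Q
  exact fhb hc f e he T hT a ha j hj g hg x₀ f₀ hr hli hsp G hx ⟨Q, hQx, hQ⟩

end Pool.Agent.HFB
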