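import Pool.Agent.HFB.RGM

/-!
# HFB / GAC: change of the reduced basis

`gac_det`: in the expansion `∑_π sign ∏_i g_{i π(i)}` the degree of a non-zero term is at most `∑ (d_i - d_{π(i)}) = 0`.
`gac`: `g.det = C δ`, `δ ≠ 0`, so `g` is invertible over `C[X]`, and `(g⁻¹)_ij` satisfies the same degree bounds: `g⁻¹ = δ⁻¹ adjugate g`, where `(adjugate g)_ij` is the determinant of the matrix with row `j` replaced by the unit vector `e_i`: degree of each term `≤ d_i - d_j` (the sum of the `d_k - d_{π(k)}` over `k ≠ j`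
with `π(j) = i`).  `mem`: `g_ij(x) u_j` satisfies `PolB (deg + d_j)`.  `ind`, `span`: write the elements in terms of `u` and use `g⁻¹`, with the degrees: `f = ∑ p_i u_i = ∑_i p_i ∑_j (g⁻¹)_ij u'_j`, `deg p_i + d_i - d_j ≤ m - d_j`.
-/

namespace Pool.Agent.HFB

open Polynomial Pool.Agent.Helper11 Pool.Agent.ESH

variable {K Φ : Type*} [Field K] [Field Φ] [Algebra K Φ] [FunField K Φ] [CharZero K] [IsAlgClosed K]
  {x : Φ} {n : ℕ} {d : Fin n → ℕ} {u : Fin n → Φ}

private theorem gac_mul {R : Type*} [CommRing R] {D E D' E' : ℕ} {f g : R[X]}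
    (hf : ∀ t, D < t + E → f.coeff t = 0) (hg : ∀ t, D' < t + E' → g.coeff t = 0) (t : ℕ)
    (ht : D + D' < t + (E + E')) : (f * g).coeff t = 0 := by
  rw [coeff_mul]
  refine Finset.sum_eq_zero fun ab hab => ?_
  rw [Finset.HasAntidiagonal.mem_antidiagonal] at hab
  by_cases h : D < ab.1 + E
  · rw [hf _ h, zero_mul]
  · rw [hg ab.2 (by omega), mul_zero]

private theorem gac_prod {R : Type*} [CommRing R] {ι : Type*} (s : Finset ι) (f : ι → R[X])
    (D E : ι → ℕ) (h : ∀ i ∈ s, ∀ t, D i < t + E i → (f i).coeff t = 0) :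
    ∀ t, ∑ i ∈ s, D i < t + ∑ i ∈ s, E i → (∏ i ∈ s, f i).coeff t = 0 := by
  classical
  induction s using Finset.induction_on with
  | empty =>
    intro t ht
    rw [Finset.sum_empty, Finset.sum_empty] at ht
    rw [Finset.prod_empty, coeff_one, if_neg (by omega)]
  | insert a s ha ih =>
    intro t ht
    rw [Finset.sum_insert ha, Finset.sum_insert ha] at ht
    rw [Finset.prod_insert ha]
    exact gac_mul (h a (Finset.mem_insert_self a s))
      (ih fun i hi => h i (Finset.mem_insert_of_mem hi)) t ht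

private theorem gac_bd {R : Type*} [CommRing R] {n : ℕ} (D E : Fin n → ℕ)
    (g : Matrix (Fin n) (Fin n) R[X]) (hg : ∀ i j t, D i < t + E j → (g i j).coeff t = 0) (t : ℕ)
    (ht : ∑ i, D i < t + ∑ i, E i) : g.det.coeff t = 0 := by
  rw [Matrix.det_apply, finsetSum_coeff]
  refine Finset.sum_eq_zero fun σ _ => ?_
  have h1 := gac_prod Finset.univ (fun i => g (σ i) i) (fun i => D (σ i)) E
    (fun i _ t h => hg _ _ _ h) t (by rw [Equiv.sum_comp σ D]; exact ht)
  rw [Units.smul_def, coeff_smul, h1, smul_zero]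

private theorem gac_adj {R : Type*} [CommRing R] {n : ℕ} (d : Fin n → ℕ)
    (g : Matrix (Fin n) (Fin n) R[X]) (hg : ∀ i j s, d i < s + d j → (g i j).coeff s = 0)
    (i j : Fin n) (s : ℕ) (hs : d i < s + d j) : (g.adjugate i j).coeff s = 0 := by
  classical
  rw [Matrix.adjugate_apply]
  refine gac_bd (Function.update d j (d i)) d _ (fun k l t ht => ?_) s ?_
  · by_cases hk : k = j
    · subst hk
      rw [Function.update_self] at ht
      rw [Matrix.updateRow_self]
      by_cases hl : l = i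
      · subst hl
        rw [Pi.single_eq_same, coeff_one, if_neg (by omega)]
      · rw [Pi.single_eq_of_ne hl, coeff_zero]
    · rw [Function.update_of_ne hk] at ht
      rw [Matrix.updateRow_ne hk]
      exact hg k l t ht
  · have h1 := Finset.sum_update_of_mem (Finset.mem_univ j) d (d i)
    have h2 := Finset.add_sum_erase Finset.univ d (Finset.mem_univ j)
    rw [← Finset.sdiff_singleton_eq_erase] at h2
    rw [h1]
    omega

theorem gac_det {R : Type*} [CommRing R] {n : ℕ} (d : Fin n → ℕ) (g : Matrix (Fin n) (Fin n) R[X])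
    (hg : ∀ i j s, d i < s + d j → (g i j).coeff s = 0) : ∃ δ : R, g.det = C δ := by
  refine ⟨g.det.coeff 0, ?_⟩
  ext t
  rw [coeff_C]
  split_ifs with h
  · rw [h]
  · exact gac_bd d d g hg t (by omega)

private theorem gac_PolB_zero {m : ℕ} : PolB K x m 0 :=
  ⟨fun _ _ => zero_mem _, fun _ _ => zero_mem _⟩

private theorem gac_PolB_add {m : ℕ} {f g : Φ} (hf : PolB K x m f) (hg : PolB K x m g) :
    PolB K x m (f + g) :=
  ⟨fun R h => add_mem (hf.1 R h) (hg.1 R h), fun R h => add_mem (hf.2 R h) (hg.2 R h)⟩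

private theorem gac_PolB_sum {ι : Type*} {m : ℕ} (s : Finset ι) (f : ι → Φ)
    (h : ∀ i ∈ s, PolB K x m (f i)) : PolB K x m (∑ i ∈ s, f i) :=
  ⟨fun R hR => sum_mem fun i hi => (h i hi).1 R hR, fun R hR => sum_mem fun i hi => (h i hi).2 R hR⟩

private theorem gac_PolB_mono {m m' : ℕ} (hm : m ≤ m') {f : Φ} (hf : PolB K x m f) :
    PolB K x m' f := by
  refine ⟨hf.1, fun R hR => R.ge_anti ?_ (hf.2 R hR)⟩
  exact mul_le_mul_of_nonpos_right (by exact_mod_cast hm) hR.le

private theorem gac_PolB_pow (s : ℕ) (c : K) : PolB K x s (algebraMap K Φ c * x ^ s) := by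
  refine ⟨fun R hR => ?_, fun R hR => ?_⟩
  · have h1 := R.mul_mem_ge (R.algebraMap_mem_ge c) (R.pow_mem_ge (R.mem_ge_of_le hR) s)
    simpa using h1
  · have h1 := R.mul_mem_ge (R.algebraMap_mem_ge c) (R.pow_mem_ge (R.mem_ge_ord x) s)
    rwa [zero_add] at h1

private theorem gac_PolB_poly {D E : ℕ} {p : K[X]} (hp : ∀ t, D < t + E → p.coeff t = 0) {f : Φ}
    (hf : PolB K x E f) : PolB K x D (aeval x p * f) := by
  rw [aeval_eq_sum_range, Finset.sum_mul]
  refine gac_PolB_sum _ _ fun t _ => ?_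
  by_cases h : D < t + E
  · rw [hp t h, zero_smul, zero_mul]
    exact gac_PolB_zero
  · rw [Algebra.smul_def]
    exact gac_PolB_mono (by omega) (rgm_mul (gac_PolB_pow t _) hf)


theorem gac (hu : RBas K x d u) (g : Matrix (Fin n) (Fin n) K[X])
    (hg : ∀ i j s, d i < s + d j → (g i j).coeff s = 0) (h0 : g.det ≠ 0) :
    RBas K x d (fun i => ∑ j, aeval x (g i j) * u j) := by
  classical
  obtain ⟨δ, hδ⟩ := gac_det d g hg
  have hδ0 : δ ≠ 0 := by
    rintro rfl
    exact h0 (by rw [hδ, C_0])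
  have hrow : ∀ p : Fin n → K[X], ∑ i, aeval x (p i) * ∑ j, aeval x (g i j) * u j =
      ∑ j, aeval x (∑ i, p i * g i j) * u j := by
    intro p
    simp_rw [Finset.mul_sum, map_sum, Finset.sum_mul]
    rw [Finset.sum_comm]
    refine Finset.sum_congr rfl fun j _ => Finset.sum_congr rfl fun i _ => ?_
    rw [map_mul, mul_assoc]
  refine ⟨hu.tr, fun p hp => ?_, fun i => ?_, fun m f hf => ?_⟩
  · rw [hrow] at hp
    have h1 := hu.ind _ hp
    exact Matrix.eq_zero_of_vecMul_eq_zero h0 h1
  · exact gac_PolB_sum _ _ fun j _ => gac_PolB_poly (fun t ht => hg i j t ht) (hu.mem j)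
  · obtain ⟨p, hp, hf'⟩ := hu.span m f hf
    have hp' : ∀ i t, m < t + d i → (p i).coeff t = 0 := by
      intro i t ht
      by_cases h1 : p i = 0
      · rw [h1, coeff_zero]
      · exact coeff_eq_zero_of_natDegree_lt (by have := hp i h1; omega)
    refine ⟨fun j => ∑ i, p i * (C δ⁻¹ * g.adjugate i j), fun j hj => ?_, ?_⟩
    · have h1 : ∀ t, m < t + d j → (∑ i, p i * (C δ⁻¹ * g.adjugate i j)).coeff t = 0 := by
        intro t ht
        rw [finsetSum_coeff]
        refine Finset.sum_eq_zero fun i _ => ?_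
        refine gac_mul (D := m) (E := d i) (D' := d i) (E' := d j) (hp' i) (fun s hs => ?_) t
          (by omega)
        rw [coeff_C_mul, gac_adj d g hg i j s hs, mul_zero]
      by_contra hcon
      exact hj (leadingCoeff_eq_zero.1 (h1 _ (by omega)))
    · rw [hf', hrow]
      refine Finset.sum_congr rfl fun k _ => ?_
      congr 2
      have h1 : ∀ j, ∑ j', g.adjugate j j' * g j' k = if j = k then C δ else 0 := by
        intro j
        have h2 := congrFun (congrFun (Matrix.adjugate_mul g) j) k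
        rw [Matrix.mul_apply, Matrix.smul_apply, Matrix.one_apply, hδ] at h2
        rw [h2]
        split_ifs <;> simp
      have h3 : ∑ j, (∑ i, p i * (C δ⁻¹ * g.adjugate i j)) * g j k =
          ∑ i, p i * (C δ⁻¹ * ∑ j, g.adjugate i j * g j k) := by
        simp_rw [Finset.sum_mul, Finset.mul_sum]
        rw [Finset.sum_comm]
        refine Finset.sum_congr rfl fun i _ => Finset.sum_congr rfl fun j _ => ?_
        ring
      rw [h3]
      simp_rw [h1]
      simp only [mul_ite, mul_zero, Finset.sum_ite_eq', Finset.mem_univ, if_true]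
      rw [← C_mul, inv_mul_cancel₀ hδ0, C_1, mul_one]


end Pool.Agent.HFB
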