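import Pool.Agent.HFB.RGM

/-!
# HFB / GAF: structure constants of the new basis

`u' = g u`.  `u'_i u'_j = ∑ g_ia g_jb c_abl u_l` and `u_l = δ⁻¹ ∑_k (adjugate g)_lk u'_k` (`Matrix.adjugate_mul`).  For the derivation: `∇ = x (x-1) d/dx`, `∇ (p(x)) = (X (X-1) p')(x)`; `∇ u'_i = ∑_l (X (X-1) g_il' + ∑_a g_ia N_al)(x) u_l`.  In terms of differentials: `D (g u) = g D u + u D g`, `D (aeval x p) = aeval x p' • D x`.
-/

namespace Pool.Agent.HFB

open Polynomial Pool.Agent.Helper11 Pool.Agent.ESH

variable {K Φ : Type*} [Field K] [Field Φ] [Algebra K Φ] [FunField K Φ] [CharZero K] [IsAlgClosed K]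
  {x : Φ} {n : ℕ} {u : Fin n → Φ}

private theorem gaf_back {K Φ : Type*} [Field K] [Field Φ] [Algebra K Φ] {x : Φ} {n : ℕ}
    {u : Fin n → Φ} (g : Matrix (Fin n) (Fin n) K[X]) {δ : K} (hδ : g.det = C δ)
    (h0 : δ ≠ 0) (v : Fin n → K[X]) :
    ∑ k, aeval x (C δ⁻¹ * ∑ l, v l * g.adjugate l k) * (∑ j, aeval x (g k j) * u j)
      = ∑ l, aeval x (v l) * u l := by
  have h1 : ∀ l j, ∑ k, g.adjugate l k * g k j = if l = j then C δ else 0 := by
    intro l j
    have h2 : (g.adjugate * g) l j = (g.det • (1 : Matrix (Fin n) (Fin n) K[X])) l j := by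
      rw [Matrix.adjugate_mul]
    rw [Matrix.mul_apply, Matrix.smul_apply, Matrix.one_apply, hδ] at h2
    rw [h2]
    split_ifs <;> simp
  have h3 : ∀ k, aeval x (C δ⁻¹ * ∑ l, v l * g.adjugate l k) * (∑ j, aeval x (g k j) * u j)
      = ∑ j, ∑ l, aeval x (C δ⁻¹ * v l * (g.adjugate l k * g k j)) * u j := by
    intro k
    rw [Finset.mul_sum]
    refine Finset.sum_congr rfl fun j _ => ?_
    rw [Finset.mul_sum, map_sum, Finset.sum_mul]
    refine Finset.sum_congr rfl fun l _ => ?_
    simp only [map_mul]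
    ring
  rw [Finset.sum_congr rfl fun k _ => h3 k, Finset.sum_comm]
  refine Finset.sum_congr rfl fun j _ => ?_
  rw [Finset.sum_comm]
  have h4 : ∀ l, ∑ k, aeval x (C δ⁻¹ * v l * (g.adjugate l k * g k j)) * u j
      = aeval x (C δ⁻¹ * v l * (if l = j then C δ else 0)) * u j := by
    intro l
    rw [← h1 l j, Finset.mul_sum, map_sum, Finset.sum_mul]
  rw [Finset.sum_congr rfl fun l _ => h4 l, Finset.sum_eq_single j]
  · rw [if_pos rfl]
    congr 2
    have h5 : (C δ⁻¹ : K[X]) * C δ = 1 := by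
      rw [← C_mul, inv_mul_cancel₀ h0, C_1]
    calc C δ⁻¹ * v j * C δ = (C δ⁻¹ * C δ) * v j := by ring
      _ = v j := by rw [h5, one_mul]
  · intro l _ hl
    rw [if_neg hl]
    simp
  · intro h
    exact absurd (Finset.mem_univ j) h

theorem gaf {c : Fin n → Fin n → Fin n → K[X]} {N : Fin n → Fin n → K[X]} (h : SCon x u c N)
    (g : Matrix (Fin n) (Fin n) K[X]) {δ : K} (hδ : g.det = C δ) (h0 : δ ≠ 0) :
    SCon x (fun i => ∑ j, aeval x (g i j) * u j) (fun i j k => C δ⁻¹ * polC c g i j k)
      (fun i k => C δ⁻¹ * polN N g i k) := by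
  constructor
  · intro i j
    have e1 : ∀ k, C δ⁻¹ * polC c g i j k
        = C δ⁻¹ * ∑ l, (∑ a, ∑ b, g i a * g j b * c a b l) * g.adjugate l k := by
      intro k
      unfold polC
      congr 1
      simp only [Finset.sum_mul]
      have e2 : ∀ a : Fin n, ∑ b, ∑ l, g i a * g j b * c a b l * g.adjugate l k
          = ∑ l, ∑ b, g i a * g j b * c a b l * g.adjugate l k := fun a => Finset.sum_comm
      rw [Finset.sum_congr rfl fun a _ => e2 a, Finset.sum_comm]
    simp only [e1]
    rw [gaf_back g hδ h0]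
    have e3 : ∀ l, aeval x (∑ a, ∑ b, g i a * g j b * c a b l) * u l
        = ∑ a, ∑ b, aeval x (g i a) * aeval x (g j b) * (aeval x (c a b l) * u l) := by
      intro l
      rw [map_sum, Finset.sum_mul]
      refine Finset.sum_congr rfl fun a _ => ?_
      rw [map_sum, Finset.sum_mul]
      refine Finset.sum_congr rfl fun b _ => ?_
      simp only [map_mul]
      ring
    rw [Finset.sum_congr rfl fun l _ => e3 l, Finset.sum_comm, Finset.sum_mul_sum]
    refine Finset.sum_congr rfl fun a _ => ?_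
    rw [Finset.sum_comm]
    refine Finset.sum_congr rfl fun b _ => ?_
    rw [← Finset.mul_sum, ← h.mul a b]
    ring
  · intro i
    have e1 : ∀ k, C δ⁻¹ * polN N g i k
        = C δ⁻¹ * ∑ l, (X * (X - 1) * derivative (g i l) + ∑ a, g i a * N a l)
          * g.adjugate l k := fun k => rfl
    simp only [e1]
    rw [gaf_back g hδ h0]
    rw [map_sum, Finset.smul_sum]
    have e2 : ∀ j, (x * (x - 1)) • KaehlerDifferential.D K Φ (aeval x (g i j) * u j)
        = (aeval x (X * (X - 1) * derivative (g i j)) * u j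
            + aeval x (g i j) * ∑ k, aeval x (N j k) * u k) • KaehlerDifferential.D K Φ x := by
      intro j
      rw [Derivation.leibniz, smul_add, Derivation.map_aeval, smul_comm (x * (x - 1)) _ _,
        h.der j, smul_smul, smul_smul, smul_smul, ← add_smul]
      congr 1
      simp only [map_mul, map_sub, aeval_X, map_one]
      ring
    rw [Finset.sum_congr rfl fun j _ => e2 j, ← Finset.sum_smul]
    congr 1
    rw [Finset.sum_add_distrib]
    have e3 : ∀ l, aeval x (X * (X - 1) * derivative (g i l) + ∑ a, g i a * N a l) * u l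
        = aeval x (X * (X - 1) * derivative (g i l)) * u l
          + ∑ a, aeval x (g i a) * (aeval x (N a l) * u l) := by
      intro l
      rw [map_add, add_mul, map_sum, Finset.sum_mul]
      congr 1
      refine Finset.sum_congr rfl fun a _ => ?_
      rw [map_mul]
      ring
    rw [Finset.sum_congr rfl fun l _ => e3 l, Finset.sum_add_distrib]
    congr 1
    rw [Finset.sum_comm]
    refine Finset.sum_congr rfl fun a _ => ?_
    rw [Finset.mul_sum]

end Pool.Agent.HFB
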