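import Pool.Agent.HFB.DefsV
import Pool.Agent.Helper11.Chi

/-!
# HFB / GAU: the Gauss valuation ring of k(x)

`gau_le`: definition of `gaussNorm` (a finite supremum, exponent factor `1`).  `gaussNorm` for `c = 1` is multiplicative (`Polynomial.gaussNorm_mul`, see Mathlib `RingTheory/Polynomial/GaussNorm`) and non-archimedean.
`gau`: the set of the `f ∈ k(x)` with `InG a x f` is closed under products and sums (common denominators), contains `1`, and contains `f` or `f⁻¹` for every `f = p(x)/q(x)`.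
`gau_pol`: if `aeval x p * aeval x q = aeval x p'` then `p q = p'` (`x` transcendental), `|p| |q| = |p'| ≤ |q|`.
`gau_unit`: `|p| = 1`, so `1/p(x)` is in the Gauss ring.
`gau_der`: `f q(x) = p(x)`, so `der f = (p' q - p q')(x) / q(x)²`, and `|p'| ≤ |p|`, `|q'| ≤ |q|` because `a n ≤ 1` for natural numbers `n`.
-/

namespace Pool.Agent.HFB

open Polynomial Pool.Agent.Helper11 Pool.Agent.ESH IntermediateField
open scoped KaehlerDifferential

variable {k Φ : Type*} [Field k] [Field Φ] [Algebra k Φ] [FunField k Φ] [CharZero k] [IsAlgClosed k]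

theorem gau_le (a : AbsoluteValue k ℝ) (p : k[X]) {r : ℝ} (hr : 0 ≤ r) :
    p.gaussNorm a 1 ≤ r ↔ ∀ i, a (p.coeff i) ≤ r := by
  constructor
  · intro h i
    have := p.le_gaussNorm a (zero_le_one (α := ℝ)) i
    rw [one_pow, mul_one] at this
    exact this.trans h
  · intro h
    obtain ⟨i, hi⟩ := p.exists_eq_gaussNorm a (1 : ℝ)
    rw [hi, one_pow, mul_one]
    exact h i

private theorem gau_nn (a : AbsoluteValue k ℝ) (p : k[X]) : 0 ≤ p.gaussNorm a 1 :=
  p.gaussNorm_nonneg a zero_le_one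

private theorem gau_pos (a : AbsoluteValue k ℝ) {p : k[X]} (hp : p ≠ 0) : 0 < p.gaussNorm a 1 := by
  refine lt_of_le_of_ne (gau_nn a p) fun h => hp ?_
  exact (p.gaussNorm_eq_zero_iff a (fun x hx => (AbsoluteValue.eq_zero a).1 hx) zero_lt_one).1 h.symm

private theorem gau_one (a : AbsoluteValue k ℝ) : (1 : k[X]).gaussNorm a 1 = 1 := by
  rw [← C_1, gaussNorm_C, map_one]

private theorem gau_ne {x : Φ} (hx : Transcendental k x) {p : k[X]} (hp : p ≠ 0) : aeval x p ≠ 0 :=
  fun h => hp ((transcendental_iff.1 hx) p h)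

private theorem gau_mulm {a : AbsoluteValue k ℝ} (ha : IsNonarchimedean a) (p q : k[X]) :
    (p * q).gaussNorm a 1 = p.gaussNorm a 1 * q.gaussNorm a 1 := gaussNorm_mul ha zero_lt_one p q

private theorem gau_neg (a : AbsoluteValue k ℝ) (p : k[X]) : (-p).gaussNorm a 1 ≤ p.gaussNorm a 1 := by
  rw [gau_le a _ (gau_nn a p)]
  intro i
  rw [coeff_neg, map_neg_eq_map]
  exact (gau_le a p (gau_nn a p)).1 le_rfl i

private theorem gau_add {a : AbsoluteValue k ℝ} (ha : IsNonarchimedean a) (p q : k[X]) {r : ℝ}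
    (hp : p.gaussNorm a 1 ≤ r) (hq : q.gaussNorm a 1 ≤ r) : (p + q).gaussNorm a 1 ≤ r :=
  (isNonarchimedean_gaussNorm a ha zero_le_one p q).trans (max_le hp hq)

private theorem gau_dv {a : AbsoluteValue k ℝ} (ha : IsNonarchimedean a) (p : k[X]) :
    (derivative p).gaussNorm a 1 ≤ p.gaussNorm a 1 := by
  rw [gau_le a _ (gau_nn a p)]
  intro i
  rw [coeff_derivative, map_mul]
  have h1 := (gau_le a p (gau_nn a p)).1 le_rfl (i + 1)
  have h2 : a ((i : k) + 1) ≤ 1 := by
    have : a ((i + 1 : ℕ) : k) ≤ 1 := ha.apply_natCast_le_one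
    simpa using this
  calc a (p.coeff (i + 1)) * a ((i : k) + 1) ≤ a (p.coeff (i + 1)) * 1 :=
        mul_le_mul_of_nonneg_left h2 (a.nonneg _)
    _ ≤ _ := by rwa [mul_one]

theorem gau {a : AbsoluteValue k ℝ} (ha : IsNonarchimedean a) {x : Φ} (hx : Transcendental k x) :
    ∃ V₀ : ValuationSubring k⟮x⟯, IsGau a x V₀ := by
  have hmul : ∀ f f' : Φ, InG a x f → InG a x f' → InG a x (f * f') := by
    rintro f f' ⟨p, q, hq, h, e⟩ ⟨p', q', hq', h', e'⟩
    refine ⟨p * p', q * q', mul_ne_zero hq hq', ?_, ?_⟩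
    · rw [gau_mulm ha, gau_mulm ha]
      exact mul_le_mul h h' (gau_nn a _) (gau_nn a _)
    · rw [map_mul, map_mul, ← e, ← e']
      ring
  have hadd : ∀ f f' : Φ, InG a x f → InG a x f' → InG a x (f + f') := by
    rintro f f' ⟨p, q, hq, h, e⟩ ⟨p', q', hq', h', e'⟩
    refine ⟨p * q' + p' * q, q * q', mul_ne_zero hq hq', ?_, ?_⟩
    · rw [gau_mulm ha]
      refine gau_add ha _ _ ?_ ?_
      · rw [gau_mulm ha]
        exact mul_le_mul_of_nonneg_right h (gau_nn a _)
      · rw [gau_mulm ha, mul_comm (q.gaussNorm a 1)]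
        exact mul_le_mul_of_nonneg_right h' (gau_nn a _)
    · rw [map_add, map_mul, map_mul, map_mul, ← e, ← e']
      ring
  have hneg : ∀ f : Φ, InG a x f → InG a x (-f) := by
    rintro f ⟨p, q, hq, h, e⟩
    refine ⟨-p, q, hq, (gau_neg a p).trans h, ?_⟩
    rw [map_neg, ← e]
    ring
  have hone : InG a x (1 : Φ) := ⟨1, 1, one_ne_zero, le_rfl, by simp⟩
  have hzero : InG a x (0 : Φ) := ⟨0, 1, one_ne_zero, by simpa using gau_nn a 1, by simp⟩
  let R : Subring k⟮x⟯ :=
    { carrier := {f | InG a x (f : Φ)}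
      mul_mem' := fun {f g} hf hg => by
        simpa using hmul _ _ hf hg
      one_mem' := by simpa using hone
      add_mem' := fun {f g} hf hg => by
        simpa using hadd _ _ hf hg
      zero_mem' := by simpa using hzero
      neg_mem' := fun {f} hf => by
        simpa using hneg _ hf }
  have hR : ∀ f : k⟮x⟯, f ∈ R ↔ InG a x (f : Φ) := fun f => Iff.rfl
  have hor : ∀ f : k⟮x⟯, f ∈ R ∨ f⁻¹ ∈ R := by
    intro f
    obtain ⟨r, s, hrs⟩ := (mem_adjoin_simple_iff k (f : Φ)).1 f.2
    by_cases hs : s = 0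
    · left
      rw [hR, hrs, hs, map_zero, div_zero]
      exact hzero
    · rcases le_total (r.gaussNorm a 1) (s.gaussNorm a 1) with h | h
      · left
        rw [hR]
        refine ⟨r, s, hs, h, ?_⟩
        rw [hrs, div_mul_cancel₀ _ (gau_ne hx hs)]
      · right
        rw [hR]
        have hr : r ≠ 0 := by
          rintro rfl
          rw [gaussNorm_zero] at h
          exact absurd (gau_pos a hs) (not_lt.2 h)
        refine ⟨s, r, hr, h, ?_⟩
        have h1 : ((f⁻¹ : k⟮x⟯) : Φ) = (f : Φ)⁻¹ := by simp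
        rw [h1, hrs, inv_div, div_mul_cancel₀ _ (gau_ne hx hr)]
  exact ⟨ValuationSubring.ofSubring R hor, fun f => by
    rw [ValuationSubring.mem_ofSubring]
    exact hR f⟩

theorem gau_pol {a : AbsoluteValue k ℝ} (ha : IsNonarchimedean a) {x : Φ} (hx : Transcendental k x) (p : k[X]) :
    InG a x (aeval x p) ↔ ∀ i, a (p.coeff i) ≤ 1 := by
  rw [← gau_le a p zero_le_one]
  constructor
  · rintro ⟨p', q, hq, h, e⟩
    have h1 : p * q = p' := by
      rw [← sub_eq_zero]
      by_contra hne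
      apply gau_ne hx hne
      rw [map_sub, map_mul, e, sub_self]
    rw [← h1, gau_mulm ha] at h
    have h2 := gau_pos a hq
    by_contra hlt
    push Not at hlt
    nlinarith
  · intro h
    exact ⟨p, 1, one_ne_zero, by rwa [gau_one], by simp⟩

theorem gau_const {a : AbsoluteValue k ℝ} (ha : IsNonarchimedean a) {x : Φ} (hx : Transcendental k x) (c : k) :
    InG a x (algebraMap k Φ c) ↔ a c ≤ 1 := by
  have h := gau_pol ha hx (C c)
  rw [← gau_le a _ zero_le_one, gaussNorm_C, aeval_C] at h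
  exact h

theorem gau_unit {a : AbsoluteValue k ℝ} (ha : IsNonarchimedean a) {x : Φ} (hx : Transcendental k x) (p : k[X])
    (h : ∀ i, a (p.coeff i) ≤ 1) (h1 : ∃ i, a (p.coeff i) = 1) : InG a x (aeval x p)⁻¹ := by
  obtain ⟨i, hi⟩ := h1
  have hp : p ≠ 0 := by
    rintro rfl
    rw [coeff_zero, map_zero] at hi
    exact zero_ne_one hi
  refine ⟨1, p, hp, ?_, ?_⟩
  · have h3 := (gau_le a p (gau_nn a p)).1 le_rfl i
    rw [hi] at h3
    rwa [gau_one]
  · rw [inv_mul_cancel₀ (gau_ne hx hp), map_one]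

theorem gau_der {a : AbsoluteValue k ℝ} (ha : IsNonarchimedean a) {x : Φ} (hx : Transcendental k x) {f : Φ}
    (hf : InG a x f) : InG a x (der hx f) := by
  obtain ⟨p, q, hq, h, e⟩ := hf
  have hd : ∀ r : k[X], der hx (aeval x r) = aeval x (derivative r) := by
    intro r
    rw [(der hx).map_aeval, der_self, smul_eq_mul, mul_one]
  refine ⟨derivative p * q - p * derivative q, q * q, mul_ne_zero hq hq, ?_, ?_⟩
  · rw [gau_mulm ha, sub_eq_add_neg]
    refine gau_add ha _ _ ?_ ((gau_neg a _).trans ?_)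
    · rw [gau_mulm ha]
      exact mul_le_mul_of_nonneg_right ((gau_dv ha p).trans h) (gau_nn a _)
    · rw [gau_mulm ha]
      exact mul_le_mul h (gau_dv ha q) (gau_nn a _) (gau_nn a _)
  · have h1 := congrArg (der hx) e
    rw [Derivation.leibniz, hd, hd, smul_eq_mul, smul_eq_mul] at h1
    rw [map_sub, map_mul, map_mul, map_mul, ← e, ← h1]
    ring

end Pool.Agent.HFB
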