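import Pool.Agent.HFB.RBX
import Pool.Agent.HFB.DBS
import Pool.Agent.ESH.DSL

/-!
# HFB / GNU: upper bound for the degree of the canonical divisor

`x` transcendental, `n = [Φ : C(x)]`, RBX: `d`, `u`, exactly one `d_i` is zero.  As in ESH / PGN (1), (2): `∑_R (e_R - 1) ≤ 2 ∑ d_i` (DSL at the finite places for `u`, at infinity for `x^(-d_i) u_i`, product formula), and `chi = ∑ (e_R - 1) - 2 n`, so `chi ≤ 2 ∑ d_i - 2 n`.  `dbb`: `g = card (DI d M) = ∑_{d_i ≥ 1} (d_i - 1) = ∑ d_i - (n - 1)`.  So `chi ≤ 2 g - 2`.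
(The private lemmas of ESH / PGN can be copied.)
-/

namespace Pool.Agent.HFB

open Polynomial Pool.Agent.Helper11 Pool.Agent.ESH IntermediateField NumberField
open scoped KaehlerDifferential

variable {C Φ : Type*} [Field C] [Field Φ] [Algebra C Φ] [FunField C Φ] [CharZero C] [IsAlgClosed C]

private theorem gnu_tr_sub {x : Φ} (hx : Transcendental C x) (c : C) :
    Transcendental C (x - algebraMap C Φ c) ∧ C⟮x - algebraMap C Φ c⟯ = C⟮x⟯ := by
  have h1 : C⟮x - algebraMap C Φ c⟯ = C⟮x⟯ := by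
    apply le_antisymm
    · rw [IntermediateField.adjoin_simple_le_iff]
      exact sub_mem (mem_adjoin_simple_self C x) (IntermediateField.algebraMap_mem _ c)
    · rw [IntermediateField.adjoin_simple_le_iff]
      have := add_mem (mem_adjoin_simple_self C (x - algebraMap C Φ c)) (IntermediateField.algebraMap_mem C⟮x - algebraMap C Φ c⟯ c)
      rwa [sub_add_cancel] at this
  refine ⟨fun h => hx ?_, h1⟩
  have := h.add (isAlgebraic_algebraMap (R := C) (A := Φ) c)
  rwa [sub_add_cancel] at this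

private theorem gnu_tr_inv {x : Φ} (hx : Transcendental C x) : Transcendental C x⁻¹ := by
  intro h
  apply hx
  have := h.inv
  rwa [inv_inv] at this

private theorem gnu_sum {z : Φ} (hz : Transcendental C z) :
    ∑ R ∈ (finite_pos_ord (k := C) z).toFinset, R.ord z = (Module.finrank C⟮z⟯ Φ : ℤ) := by
  rw [← finsum_pos_ord hz, finsum_eq_sum_of_support_subset (s := (finite_pos_ord (k := C) z).toFinset)]
  · refine Finset.sum_congr rfl fun R hR => ?_
    rw [Set.Finite.mem_toFinset] at hR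
    have : 0 < R.ord z := hR
    rw [max_eq_right this.le]
  · intro R hR
    rw [Set.Finite.coe_toFinset]
    rw [Function.mem_support] at hR
    show 0 < R.ord z
    by_contra hc
    exact hR (max_eq_left (not_lt.1 hc))

/-- fibre inequality -/
private theorem gnu_fib (E : IntermediateField C Φ) (z : Φ) (hE : E = C⟮z⟯) (hz : Transcendental C z)
    (v : Fin (Module.finrank E Φ) → Φ) (hv : ∀ i, ∀ R : Place C Φ, 1 ≤ R.ord z → v i ∈ R.ge 0)
    (hv' : LinearIndependent E v) :
    (Module.finrank E Φ : ℤ) * (∑ R ∈ (finite_pos_ord (k := C) z).toFinset, (R.ord z - 1)) ≤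
      ∑ R ∈ (finite_pos_ord (k := C) z).toFinset,
        R.ord (Matrix.of fun i j => ((Algebra.trace E Φ (v i * v j) : E) : Φ)).det := by
  have h1 := dsl_ne E z hE hz v hv'
  have h2 : ∑ᶠ R : Place C Φ, (if 1 ≤ R.ord z then R.ord z - 1 else 0) =
      ∑ R ∈ (finite_pos_ord (k := C) z).toFinset, (R.ord z - 1) := by
    rw [finsum_eq_sum_of_support_subset (s := (finite_pos_ord (k := C) z).toFinset)]
    · refine Finset.sum_congr rfl fun R hR => ?_
      rw [Set.Finite.mem_toFinset] at hR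
      have : 0 < R.ord z := hR
      rw [if_pos (by omega)]
    · intro R hR
      rw [Set.Finite.coe_toFinset]
      rw [Function.mem_support] at hR
      show 0 < R.ord z
      by_contra hc
      exact hR (if_neg (by omega))
  have h3 := gnu_sum hz
  rw [← hE] at h3
  rw [← h3, Finset.sum_mul]
  refine Finset.sum_le_sum fun R hR => ?_
  rw [Set.Finite.mem_toFinset] at hR
  have h4 : 0 < R.ord z := hR
  have h5 := dsl E z hE hz v hv h1 R (by omega)
  rwa [h2] at h5

private theorem gnu_det {n : ℕ} (E : IntermediateField C Φ) (a : Fin n → E) (u : Fin n → Φ) :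
    (Matrix.of fun i j => ((Algebra.trace E Φ (((a i : Φ) * u i) * ((a j : Φ) * u j)) : E) : Φ)).det =
      (∏ i, (a i : Φ)) ^ 2 * (Matrix.of fun i j => ((Algebra.trace E Φ (u i * u j) : E) : Φ)).det := by
  have h1 : (Matrix.of fun i j => ((Algebra.trace E Φ (((a i : Φ) * u i) * ((a j : Φ) * u j)) : E) : Φ)) =
      Matrix.of fun i j => (a i : Φ) * (Matrix.of fun i j => (a j : Φ) *
        (Matrix.of fun i j => ((Algebra.trace E Φ (u i * u j) : E) : Φ)) i j) i j := by
    ext i j
    rw [Matrix.of_apply, Matrix.of_apply, Matrix.of_apply, Matrix.of_apply]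
    have h2 : ((a i : Φ) * u i) * ((a j : Φ) * u j) = (a i * a j) • (u i * u j) := by
      rw [Algebra.smul_def, map_mul]
      show _ = (a i : Φ) * (a j : Φ) * (u i * u j)
      ring
    rw [h2, map_smul, smul_eq_mul]
    show (a i : Φ) * (a j : Φ) * _ = _
    ring
  rw [h1, Matrix.det_mul_column, Matrix.det_mul_row]
  ring

private theorem gnu_w (R : Place C Φ) {x : Φ} (c : C) (h : 0 < R.ord (x - algebraMap C Φ c)) :
    R.ord (R.dv x) = R.ord (x - algebraMap C Φ c) - 1 := by
  have h1 := (R.ord_dv (y := x - algebraMap C Φ c) (by omega)).2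
  rwa [map_sub, Derivation.map_algebraMap, sub_zero] at h1

/-- the coordinate at a point of the line -/
private noncomputable def gnu_z (x : Φ) : Option C → Φ
  | none => x⁻¹
  | some c => x - algebraMap C Φ c

private noncomputable def gnu_val (x : Φ) (R : Place C Φ) : Option C :=
  open Classical in if R.ord x < 0 then none else some (ev R x)

private theorem gnu_val_iff {x : Φ} (hx : Transcendental C x) (R : Place C Φ) (b : Option C) :
    0 < R.ord (gnu_z x b) ↔ gnu_val x R = b := by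
  unfold gnu_val
  have hx0 : x ≠ 0 := by
    intro h
    exact hx (by rw [h]; exact isAlgebraic_zero)
  cases b with
  | none =>
    show 0 < R.ord x⁻¹ ↔ _
    rw [R.ord_inv]
    split_ifs with h
    · simp only [iff_true]
      omega
    · simp only [iff_false]
      omega
  | some c =>
    show 0 < R.ord (x - algebraMap C Φ c) ↔ _
    have hxc : x - algebraMap C Φ c ≠ 0 := by
      intro h
      apply hx
      rw [sub_eq_zero.1 h]
      exact isAlgebraic_algebraMap c
    constructor
    · intro h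
      have h1 : x - algebraMap C Φ c ∈ R.ge 1 := R.mem_ge_of_le (by omega)
      have h2 := add_mem (R.ge_anti (by norm_num : (0 : ℤ) ≤ 1) h1) (R.algebraMap_mem_ge c)
      rw [sub_add_cancel] at h2
      have h3 := R.le_ord_of_mem h2 hx0
      rw [if_neg (by omega), evl_eq R h1]
    · intro h
      split_ifs at h with h1
      rw [Option.some.injEq] at h
      have h2 := evl_mem R (R.mem_ge_of_le (not_lt.1 h1))
      rw [h] at h2
      have := R.le_ord_of_mem h2 hxc
      omega

private theorem gnu_bound {x : Φ} (hx : Transcendental C x)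
    (u : Fin (Module.finrank C⟮x⟯ Φ) → Φ) (d : Fin (Module.finrank C⟮x⟯ Φ) → ℕ)
    (hu : LinearIndependent C⟮x⟯ u) (hb : ∀ i, ∀ R : Place C Φ, 0 ≤ R.ord x → u i ∈ R.ge 0)
    (hc : ∀ i, ∀ R : Place C Φ, R.ord x < 0 → u i ∈ R.ge (d i * R.ord x)) :
    chi C Φ ≤ 2 * (∑ i, d i : ℕ) - 2 * (Module.finrank C⟮x⟯ Φ : ℤ) := by
  classical
  have hx0 : x ≠ 0 := by
    intro h
    exact hx (by rw [h]; exact isAlgebraic_zero)
  have hx' := gnu_tr_inv hx
  have hfd := FunField.finiteDimensional_adjoin hx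
  obtain ⟨D, hD⟩ : ∃ D, D = (Matrix.of fun i j => ((Algebra.trace C⟮x⟯ Φ (u i * u j) : C⟮x⟯) : Φ)).det := ⟨_, rfl⟩
  have hD0 : D ≠ 0 := by
    rw [hD]
    exact dsl_ne C⟮x⟯ x rfl hx u hu
  obtain ⟨n, hn⟩ : ∃ n : ℤ, n = (Module.finrank C⟮x⟯ Φ : ℤ) := ⟨_, rfl⟩
  obtain ⟨s, hs⟩ : ∃ s : ℕ, s = ∑ i, d i := ⟨_, rfl⟩
  have hnpos : 0 < n := by
    rw [hn]
    exact_mod_cast Module.finrank_pos
  obtain ⟨κ, hκ⟩ : ∃ κ : Option C → ℤ, κ = fun b => if b = none then 2 * n - 2 * s else 0 := ⟨_, rfl⟩
  obtain ⟨F, hF⟩ : ∃ F : Option C → Finset (Place C Φ), F = fun b => (finite_pos_ord (k := C) (gnu_z x b)).toFinset := ⟨_, rfl⟩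
  have hmF : ∀ b R, R ∈ F b ↔ gnu_val x R = b := by
    intro b R
    rw [hF, ← gnu_val_iff hx R b, Set.Finite.mem_toFinset]
    rfl
  -- the fibres
  have key : ∀ b, n * ((∑ R ∈ F b, R.ord (R.dv x)) + κ b) ≤ ∑ R ∈ F b, R.ord D := by
    intro b
    cases b with
    | some c =>
      obtain ⟨h1, h2⟩ := gnu_tr_sub hx c
      have h3 := gnu_fib C⟮x⟯ (x - algebraMap C Φ c) h2.symm h1 u (by
        intro i R hR
        have h4 : x - algebraMap C Φ c ∈ R.ge 1 := R.mem_ge_of_le hR
        have h5 := add_mem (R.ge_anti (by norm_num : (0 : ℤ) ≤ 1) h4) (R.algebraMap_mem_ge c)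
        rw [sub_add_cancel] at h5
        exact hb i R (R.le_ord_of_mem h5 hx0)) hu
      rw [← hD, ← hn] at h3
      rw [hκ]
      have h6 : F (some c) = (finite_pos_ord (k := C) (x - algebraMap C Φ c)).toFinset := by
        rw [hF]
        rfl
      rw [← h6] at h3
      refine le_trans (le_of_eq ?_) h3
      simp only [reduceCtorEq, if_false, add_zero]
      congr 1
      refine Finset.sum_congr rfl fun R hR => ?_
      rw [h6, Set.Finite.mem_toFinset] at hR
      exact gnu_w R c hR
    | none =>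
      obtain ⟨a, ha⟩ : ∃ a : Fin (Module.finrank C⟮x⟯ Φ) → C⟮x⟯, ∀ i, (a i : Φ) = x⁻¹ ^ d i :=
        ⟨fun i => ⟨x⁻¹ ^ d i, pow_mem (inv_mem (mem_adjoin_simple_self C x)) _⟩, fun i => rfl⟩
      have ha0 : ∀ i, a i ≠ 0 := by
        intro i h
        have h1 := ha i
        rw [h] at h1
        exact pow_ne_zero (d i) (inv_ne_zero hx0) h1.symm
      have h3 := gnu_fib C⟮x⟯ x⁻¹ (adjoin_inv x).symm hx' (fun i => (a i : Φ) * u i) (by
        intro i R hR
        rw [ha]
        have h5 : R.ord x < 0 := by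
          rw [R.ord_inv] at hR
          omega
        have h4 := R.mul_mem_ge (R.pow_mem_ge (R.mem_ge_ord x⁻¹) (d i)) (hc i R h5)
        rw [R.ord_inv] at h4
        refine R.ge_anti ?_ h4
        nlinarith) (by
        have h4 := hu.units_smul (fun i => Units.mk0 (a i) (ha0 i))
        exact h4)
      rw [gnu_det, ← hD, ← hn] at h3
      have h6 : F none = (finite_pos_ord (k := C) x⁻¹).toFinset := by
        rw [hF]
        rfl
      rw [← h6] at h3
      have hprod : (∏ i, (a i : Φ)) = x⁻¹ ^ s := by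
        rw [Finset.prod_congr rfl fun i _ => ha i, Finset.prod_pow_eq_pow_sum, hs]
      have h7 : ∀ R : Place C Φ, R.ord ((∏ i, (a i : Φ)) ^ 2 * D) = 2 * s * R.ord x⁻¹ + R.ord D := by
        intro R
        rw [hprod, R.ord_mul _ _ (pow_ne_zero _ (pow_ne_zero _ (inv_ne_zero hx0))) hD0, R.ord_pow, R.ord_pow]
        push_cast
        ring
      rw [Finset.sum_congr rfl fun R _ => h7 R, Finset.sum_add_distrib, ← Finset.mul_sum] at h3
      have h8 := gnu_sum (C := C) hx'
      rw [adjoin_inv, ← hn, ← h6] at h8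
      rw [h8, Finset.sum_sub_distrib, h8] at h3
      have h9 : ∑ R ∈ F none, R.ord (R.dv x) = ∑ R ∈ F none, (-R.ord x⁻¹ - 1) := by
        refine Finset.sum_congr rfl fun R hR => ?_
        rw [h6, Set.Finite.mem_toFinset] at hR
        have h10 : 0 < R.ord x⁻¹ := hR
        rw [R.ord_inv] at h10 ⊢
        rw [(R.ord_dv (y := x) (by omega)).2]
        ring
      rw [h9, Finset.sum_sub_distrib, Finset.sum_neg_distrib, h8, hκ]
      simp only [if_true]
      nlinarith
  -- sum over all the fibres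
  have hfin1 := finite_ord_ne_zero (k := C) D
  have hfin2 := finite_ord_dv_ne_zero (k := C) hx
  obtain ⟨B, hB⟩ : ∃ B : Finset (Option C), B = insert none ((hfin1.toFinset ∪ hfin2.toFinset).image (gnu_val x)) := ⟨_, rfl⟩
  have hdisj : (B : Set (Option C)).PairwiseDisjoint F := by
    intro b _ b' _ hbb
    rw [Function.onFun, Finset.disjoint_left]
    intro R h1 h2
    rw [hmF] at h1 h2
    exact hbb (h1.symm.trans h2)
  have hT : ∀ g : Place C Φ → ℤ, (∀ R, g R ≠ 0 → gnu_val x R ∈ B) → ∑ᶠ R, g R = ∑ b ∈ B, ∑ R ∈ F b, g R := by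
    intro g hg
    rw [← Finset.sum_biUnion hdisj, finsum_eq_sum_of_support_subset]
    intro R hR
    rw [Finset.mem_coe, Finset.mem_biUnion]
    exact ⟨_, hg R hR, (hmF _ _).2 rfl⟩
  have e1 := hT (fun R => R.ord D) (by
    intro R hR
    rw [hB]
    refine Finset.mem_insert_of_mem (Finset.mem_image_of_mem _ (Finset.mem_union_left _ ?_))
    rw [Set.Finite.mem_toFinset]
    exact hR)
  have e2 := hT (fun R => R.ord (R.dv x)) (by
    intro R hR
    rw [hB]
    refine Finset.mem_insert_of_mem (Finset.mem_image_of_mem _ (Finset.mem_union_right _ ?_))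
    rw [Set.Finite.mem_toFinset]
    exact hR)
  rw [finsum_ord] at e1
  rw [finsum_ord_dv hx] at e2
  have e3 : ∑ b ∈ B, n * ((∑ R ∈ F b, R.ord (R.dv x)) + κ b) ≤ 0 := by
    rw [e1]
    exact Finset.sum_le_sum fun b _ => key b
  rw [← Finset.mul_sum, Finset.sum_add_distrib, ← e2] at e3
  have e4 : ∑ b ∈ B, κ b = 2 * n - 2 * s := by
    rw [Finset.sum_eq_single none, hκ]
    · simp only [if_true]
    · intro b _ hb
      rw [hκ]
      exact if_neg hb
    · intro h
      exact absurd (by rw [hB]; exact Finset.mem_insert_self _ _) h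
  rw [e4] at e3
  rw [← hn, ← hs]
  by_contra hcon
  have e5 : 0 < chi C Φ + (2 * n - 2 * s) := by omega
  have e6 := mul_pos hnpos e5
  omega


/-- the number of indices -/
private theorem gnu_DI {n : ℕ} (d : Fin n → ℕ) (M : ℕ) (hM : ∀ i, d i < M) :
    Fintype.card (DI d M) = ∑ i, (d i - 1) := by
  classical
  rw [Fintype.card_subtype, Finset.card_filter, Fintype.sum_prod_type]
  refine Finset.sum_congr rfl fun i _ => ?_
  rw [← Finset.card_filter]
  have h1 : (Finset.univ.filter fun s : Fin M => (s : ℕ) + 2 ≤ d i).card = (Finset.range (d i - 1)).card := by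
    refine Finset.card_bij (fun s _ => (s : ℕ)) ?_ ?_ ?_
    · intro s hs
      rw [Finset.mem_filter] at hs
      rw [Finset.mem_range]
      omega
    · intro s _ t _ h
      exact Fin.ext h
    · intro s hs
      rw [Finset.mem_range] at hs
      have := hM i
      refine ⟨⟨s, by omega⟩, ?_, rfl⟩
      rw [Finset.mem_filter]
      refine ⟨Finset.mem_univ _, ?_⟩
      show s + 2 ≤ d i
      omega
  rw [h1, Finset.card_range]

/-- the number of the regular differentials in terms of the degrees of a reduced basis -/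
theorem gnu_card {g : ℕ} (ω : Fin g → Ω[Φ⁄C]) (hr : ∀ i, ∀ R : Place C Φ, 0 ≤ R.ordDiff (ω i))
    (hli : LinearIndependent C ω)
    (hsp : ∀ η : Ω[Φ⁄C], (∀ R : Place C Φ, 0 ≤ R.ordDiff η) → η ∈ Submodule.span C (Set.range ω))
    {x : Φ} {n : ℕ} {d : Fin n → ℕ} {u : Fin n → Φ} (hu : RBas C x d u) (i₀ : Fin n) (h0 : d i₀ = 0)
    (h1 : ∀ i, i ≠ i₀ → 1 ≤ d i) : g + n = ∑ i, d i + 1 := by
  classical
  have hM : ∀ i, d i < ∑ j, d j + 1 := fun i =>
    Nat.lt_succ_of_le (Finset.single_le_sum (f := d) (fun _ _ => Nat.zero_le _) (Finset.mem_univ i))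
  obtain ⟨f, _, hfr, hfl, hfs⟩ := dbb hu (∑ j, d j + 1) hM
  have e1 : Submodule.span C (Set.range ω) =
      Submodule.span C (Set.range fun t => f t • KaehlerDifferential.D C Φ x) := by
    apply le_antisymm
    · rw [Submodule.span_le]
      rintro _ ⟨i, rfl⟩
      exact hfs _ (hr i)
    · rw [Submodule.span_le]
      rintro _ ⟨t, rfl⟩
      exact hsp _ (hfr t)
  have e2 := finrank_span_eq_card hli
  have e3 := finrank_span_eq_card hfl
  rw [← e1, e2, Fintype.card_fin, gnu_DI d _ hM] at e3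
  have e4 : ∑ i, (d i - 1) + (n - 1) = ∑ i, d i := by
    have e5 : ∑ i ∈ Finset.univ.erase i₀, (d i - 1) + (n - 1) = ∑ i ∈ Finset.univ.erase i₀, d i := by
      have e6 : (n - 1) = ∑ i ∈ Finset.univ.erase i₀, 1 := by
        rw [Finset.sum_const, smul_eq_mul, mul_one, Finset.card_erase_of_mem (Finset.mem_univ _),
          Finset.card_univ, Fintype.card_fin]
      rw [e6, ← Finset.sum_add_distrib]
      refine Finset.sum_congr rfl fun i hi => ?_
      have := h1 i (Finset.ne_of_mem_erase hi)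
      omega
    rw [← Finset.add_sum_erase _ _ (Finset.mem_univ i₀), ← Finset.add_sum_erase Finset.univ d (Finset.mem_univ i₀), h0]
    omega
  have hn : 0 < n := Fin.pos i₀
  omega

theorem gnu {g : ℕ} (ω : Fin g → Ω[Φ⁄C]) (hr : ∀ i, ∀ R : Place C Φ, 0 ≤ R.ordDiff (ω i))
    (hli : LinearIndependent C ω)
    (hsp : ∀ η : Ω[Φ⁄C], (∀ R : Place C Φ, 0 ≤ R.ordDiff η) → η ∈ Submodule.span C (Set.range ω)) :
    chi C Φ ≤ 2 * g - 2 := by
  obtain ⟨x, hx⟩ := FunField.exists_transcendental (k := C) (L := Φ)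
  obtain ⟨d, u, hu, i₀, h0, h1⟩ := rbx x hx
  have h2 := gnu_card ω hr hli hsp hu i₀ h0 h1
  have h3 := gnu_bound hx u d (rgm_ind hu) (fun i => (hu.mem i).1) (fun i => (hu.mem i).2)
  have h4 : (g : ℤ) + (Module.finrank C⟮x⟯ Φ : ℤ) = ((∑ i, d i : ℕ) : ℤ) + 1 := by exact_mod_cast h2
  omega

end Pool.Agent.HFB
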