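import Pool.Agent.HFB.GZR

/-!
# HFB / GOA: functions with few poles on a genus one curve

`m ≥ 1`: `dim L(m O) ≥ m` (`rrc_one`).  `L(O) = C`: a non-constant element would have exactly one simple pole and generate `E` (`finsum_neg_ord`), so `chi = -2` by `gzr_chi`.  So `dim L(2 O) ≥ 2` gives `x` with `O.ord x = -2` (not `-1`), no other pole, and `dim L(3 O) ≥ 3 > dim L(2 O)` (`= 2`: `rra_step`) gives `y` with `O.ord y = -3`.
`goa_dim`: `dim L(m O) ≤ m` by induction with `rra_step`.
-/

namespace Pool.Agent.HFB

open Polynomial Pool.Agent.Helper11 Pool.Agent.ESH IntermediateField NumberField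
open scoped KaehlerDifferential

variable {C E : Type*} [Field C] [Field E] [Algebra C E] [FunField C E] [CharZero C] [IsAlgClosed C]

private theorem GOA_pole {x : E} (hx : Transcendental C x) (O : Place C E)
    (h : ∀ v : Place C E, v ≠ O → x ∈ v.ge 0) :
    O.ord x < 0 ∧ (Module.finrank C⟮x⟯ E : ℤ) = -O.ord x := by
  have h1 := finsum_neg_ord hx
  have hx0 : x ≠ 0 := by
    rintro rfl
    exact hx (isAlgebraic_zero)
  rw [finsum_eq_single _ O (fun v hv => by
    have := v.le_ord_of_mem (h v hv) hx0
    exact max_eq_left (by omega))] at h1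
  have hfd := FunField.finiteDimensional_adjoin hx
  have h2 : 0 < Module.finrank C⟮x⟯ E := Module.finrank_pos
  rcases le_total 0 (-O.ord x) with h3 | h3
  · rw [max_eq_right h3] at h1
    exact ⟨by omega, h1.symm⟩
  · rw [max_eq_left h3] at h1
    omega

open scoped Classical in
private theorem GOA_supp (O : Place C E) (m : ℤ) :
    {v : Place C E | (if v = O then (m : ℤ) else 0) ≠ 0}.Finite :=
  (Set.finite_singleton O).subset fun v hv => by
    by_contra hne
    exact hv (if_neg hne)

open scoped Classical in
private theorem GOA_one (h : chi C E = 0) (O : Place C E) :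
    Module.finrank C (LL (fun v : Place C E => if v = O then (1 : ℤ) else 0)) ≤ 1 := by
  have hle : LL (fun v : Place C E => if v = O then (1 : ℤ) else 0) ≤ Submodule.span C {(1 : E)} := by
    intro x hx
    by_cases hxt : Transcendental C x
    · exfalso
      obtain ⟨h3, h4⟩ := GOA_pole hxt O (fun v hv => by
        have h5 := hx v
        simp only [if_neg hv, neg_zero] at h5
        exact h5)
      have h6 : -1 ≤ O.ord x := by
        have h5 := hx O
        simp only [if_true] at h5
        exact O.le_ord_of_mem h5 (O.ne_zero_of_ord_ne_zero h3.ne)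
      have h7 : Module.finrank C⟮x⟯ E = 1 := by omega
      have hfd := FunField.finiteDimensional_adjoin hxt
      have h8 := gzr_chi hxt (IntermediateField.finrank_eq_one_iff_eq_top.1 h7)
      rw [h] at h8
      norm_num at h8
    · rw [Transcendental, not_not] at hxt
      obtain ⟨c, hc⟩ := mem_range_of_isAlgebraic hxt
      rw [← hc, Submodule.mem_span_singleton]
      exact ⟨c, by rw [Algebra.smul_def, mul_one]⟩
  have h4 := Submodule.finrank_mono hle
  have h5 : Module.finrank C (Submodule.span C {(1 : E)}) ≤ 1 := by
    have := finrank_span_le_card (R := C) ({(1 : E)} : Set E)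
    simpa using this
  omega

open scoped Classical in
theorem goa_dim (h : chi C E = 0) (O : Place C E) (m : ℕ) (hm : 1 ≤ m) :
    Module.finrank C (LL (fun v : Place C E => if v = O then (m : ℤ) else 0)) = m := by
  refine le_antisymm ?_ ?_
  · induction m, hm using Nat.le_induction with
    | base => simpa using GOA_one h O
    | succ n hn ih =>
      have hfin := rra_fin (fun v : Place C E => if v = O then (n : ℤ) else 0) (GOA_supp O n)
      have h1 := (rra_step (fun v : Place C E => if v = O then (n : ℤ) else 0) O).2
      have h2 : (fun v : Place C E => (fun v : Place C E => if v = O then (n : ℤ) else 0) v +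
          if v = O then (1 : ℤ) else 0) =
          (fun v : Place C E => if v = O then ((n + 1 : ℕ) : ℤ) else 0) := by
        funext v
        by_cases hv : v = O
        · simp [hv]
        · simp [hv]
      rw [h2] at h1
      omega
  · have h1 := rrc_one h (fun v : Place C E => if v = O then (m : ℤ) else 0) (GOA_supp O m)
    rw [finsum_eq_single _ O (fun v hv => if_neg hv), if_pos rfl] at h1
    exact_mod_cast h1

open scoped Classical in
private theorem GOA_ex (h : chi C E = 0) (O : Place C E) (m : ℕ) (hm : 1 ≤ m) :
    ∃ x : E, O.ord x = -((m + 1 : ℕ) : ℤ) ∧ ∀ R : Place C E, R ≠ O → x ∈ R.ge 0 := by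
  have hex : ∃ x ∈ LL (fun v : Place C E => if v = O then ((m + 1 : ℕ) : ℤ) else 0),
      x ∉ LL (fun v : Place C E => if v = O then (m : ℤ) else 0) := by
    by_contra hcon
    push Not at hcon
    have hfin := rra_fin (fun v : Place C E => if v = O then (m : ℤ) else 0) (GOA_supp O m)
    have h1 := Submodule.finrank_mono (s := LL (fun v : Place C E => if v = O then ((m + 1 : ℕ) : ℤ) else 0))
      (t := LL (fun v : Place C E => if v = O then (m : ℤ) else 0)) hcon
    rw [goa_dim h O (m + 1) (by omega), goa_dim h O m hm] at h1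
    omega
  obtain ⟨x, hx, hx2⟩ := hex
  have h3 : ∀ R : Place C E, R ≠ O → x ∈ R.ge 0 := fun R hR => by
    have h5 := hx R
    simp only [if_neg hR, neg_zero] at h5
    exact h5
  refine ⟨x, ?_, h3⟩
  have h5 := hx O
  simp only [if_true] at h5
  by_contra hne
  apply hx2
  intro v
  by_cases hv : v = O
  · have h6 : x ∈ O.ge (-(m : ℤ)) := by
      rcases h5 with h5 | h5
      · exact Or.inl h5
      · refine Or.inr ?_
        push_cast at h5 hne
        omega
    rw [hv]
    simpa using h6
  · have h6 := h3 v hv
    simpa [hv] using h6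

theorem goa (h : chi C E = 0) (O : Place C E) :
    ∃ x y : E, O.ord x = -2 ∧ O.ord y = -3 ∧ ∀ R : Place C E, R ≠ O → x ∈ R.ge 0 ∧ y ∈ R.ge 0 := by
  obtain ⟨x, hx, hx2⟩ := GOA_ex h O 1 le_rfl
  obtain ⟨y, hy, hy2⟩ := GOA_ex h O 2 (by norm_num)
  exact ⟨x, y, by rw [hx]; norm_num, by rw [hy]; norm_num, fun R hR => ⟨hx2 R hR, hy2 R hR⟩⟩

end Pool.Agent.HFB
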