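import Pool.Agent.HFB.GOA

/-!
# HFB / GOB: Weierstrass equation

`x, y` of GOA.  `[E : C(x)] = 2`, `[E : C(y)] = 3` (`finsum_neg_ord`), so `C(x, y) = E`.  The seven elements `1, x, y, x², x y, x³, y²` are in `L(6 O)`, of dimension `6` (`goa_dim`): a linear relation; the coefficients of `x³` and `y²` are not zero (the other elements have distinct orders at `O`: `0, -2, -3, -4, -5, -6`).  Scale `x`, `y` and complete the square in `y`: `y² = x³ + a x² + b x + c
= (x - e₁)(x - e₂)(x - e₃)`.  The `e_i` are distinct: if `e₁ = e₂` then `t = y/(x - e₁)` satisfies `t² = x - e₃`, `E = C(x, y) = C(t)`, `chi = -2` (`gzr_chi`), contradiction.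
-/

namespace Pool.Agent.HFB

open Polynomial Pool.Agent.Helper11 Pool.Agent.ESH IntermediateField NumberField
open scoped KaehlerDifferential

variable {C E : Type*} [Field C] [Field E] [Algebra C E] [FunField C E] [CharZero C] [IsAlgClosed C]

omit [FunField C E] [CharZero C] [IsAlgClosed C] in
/-- elements with distinct orders at a place are linearly independent over the constants -/
private theorem gob_li (O : Place C E) {ι : Type*} (s : Finset ι) (f : ι → E) (hf : ∀ i ∈ s, f i ≠ 0)
    (hinj : ∀ i ∈ s, ∀ j ∈ s, O.ord (f i) = O.ord (f j) → i = j) (a : ι → C)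
    (h : ∑ i ∈ s, algebraMap C E (a i) * f i = 0) : ∀ i ∈ s, a i = 0 := by
  classical
  by_contra hcon
  push Not at hcon
  obtain ⟨i₁, hi₁, hai₁⟩ := hcon
  set t := s.filter fun i => a i ≠ 0 with ht
  have htne : t.Nonempty := ⟨i₁, by rw [ht, Finset.mem_filter]; exact ⟨hi₁, hai₁⟩⟩
  obtain ⟨i₀, hi₀, hmin⟩ := Finset.exists_min_image t (fun i => O.ord (f i)) htne
  have hi₀s : i₀ ∈ s ∧ a i₀ ≠ 0 := by rw [ht, Finset.mem_filter] at hi₀; exact hi₀
  have hsum : ∑ i ∈ t, algebraMap C E (a i) * f i = 0 := by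
    rw [← h, ht]
    apply Finset.sum_subset (Finset.filter_subset _ _)
    intro i hi hi'
    have : a i = 0 := by
      by_contra h0
      exact hi' (Finset.mem_filter.2 ⟨hi, h0⟩)
    rw [this, map_zero, zero_mul]
  rw [← Finset.add_sum_erase t _ hi₀] at hsum
  have h1 : ∑ i ∈ t.erase i₀, algebraMap C E (a i) * f i ∈ O.ge (O.ord (f i₀) + 1) := by
    refine sum_mem fun i hi => ?_
    rw [Finset.mem_erase] at hi
    have his : i ∈ s := (Finset.mem_filter.1 hi.2).1
    have h2 := hmin i hi.2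
    have h3 : O.ord (f i) ≠ O.ord (f i₀) := fun h0 => hi.1 (hinj i his i₀ hi₀s.1 h0)
    have h4 := O.mul_mem_ge (O.algebraMap_mem_ge (a i)) (O.mem_ge_ord (f i))
    refine O.ge_anti ?_ h4
    omega
  have h5 : algebraMap C E (a i₀) * f i₀ ∈ O.ge (O.ord (f i₀) + 1) := by
    rw [eq_neg_of_add_eq_zero_left hsum]
    exact neg_mem h1
  have h6 : algebraMap C E (a i₀) ≠ 0 := by rw [Ne, map_eq_zero]; exact hi₀s.2
  have h7 := O.le_ord_of_mem h5 (mul_ne_zero h6 (hf i₀ hi₀s.1))
  rw [O.ord_mul _ _ h6 (hf i₀ hi₀s.1), O.ord_algebraMap] at h7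
  omega

/-- the degree of a function whose only pole is `O` -/
private theorem gob_deg (O : Place C E) {x : E} {m : ℕ} (hm : 0 < m) (hx : O.ord x = -m)
    (h : ∀ R : Place C E, R ≠ O → x ∈ R.ge 0) : Module.finrank C⟮x⟯ E = m := by
  have hx0 : O.ord x ≠ 0 := by omega
  have htr : Transcendental C x := O.transcendental_of_ord_ne_zero hx0
  have h1 := finsum_neg_ord htr
  rw [finsum_eq_single _ O] at h1
  · rw [hx] at h1
    omega
  · intro R hR
    rcases (R.mem_ge).1 (h R hR) with h0 | h0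
    · rw [h0, R.ord_zero]; simp
    · omega

/-- a singular Weierstrass equation has genus zero -/
private theorem gob_sing (h : chi C E = 0) {x y : E} (hx : Transcendental C x)
    (hg : IntermediateField.adjoin C {x, y} = ⊤) (e e' : C)
    (he : y ^ 2 = (x - algebraMap C E e) * (x - algebraMap C E e) * (x - algebraMap C E e')) : False := by
  have h0 : x - algebraMap C E e ≠ 0 := by
    intro h0
    apply hx
    rw [sub_eq_zero.1 h0]
    exact isAlgebraic_algebraMap e
  set t := y / (x - algebraMap C E e) with ht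
  have h1 : t ^ 2 = x - algebraMap C E e' := by
    rw [ht, div_pow, he]
    field_simp
  have hxt : x ∈ C⟮t⟯ := by
    have : x = t ^ 2 + algebraMap C E e' := by rw [h1]; ring
    rw [this]
    exact add_mem (pow_mem (IntermediateField.mem_adjoin_simple_self C t) 2) (IntermediateField.algebraMap_mem _ _)
  have hyt : y ∈ C⟮t⟯ := by
    have : y = t * (x - algebraMap C E e) := by rw [ht]; field_simp
    rw [this]
    exact mul_mem (IntermediateField.mem_adjoin_simple_self C t)
      (sub_mem hxt (IntermediateField.algebraMap_mem _ _))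
  have htop : C⟮t⟯ = ⊤ := by
    rw [eq_top_iff, ← hg]
    apply IntermediateField.adjoin_le_iff.2
    rintro z hz
    rcases hz with rfl | hz
    · exact hxt
    · rw [Set.mem_singleton_iff] at hz
      rw [hz]
      exact hyt
  have htt : Transcendental C t := by
    intro hal
    apply hx
    have h2 : IsAlgebraic C (t ^ 2 + algebraMap C E e') := (hal.pow 2).add (isAlgebraic_algebraMap e')
    have : x = t ^ 2 + algebraMap C E e' := by rw [h1]; ring
    rw [this]
    exact h2
  have := gzr_chi htt htop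
  omega

theorem gob (h : chi C E = 0) (O : Place C E) :
    ∃ (x y : E) (e₁ e₂ e₃ : C), O.ord x < 0 ∧ IntermediateField.adjoin C {x, y} = ⊤ ∧ Transcendental C x ∧
      y ^ 2 = (x - algebraMap C E e₁) * (x - algebraMap C E e₂) * (x - algebraMap C E e₃) ∧
      e₁ ≠ e₂ ∧ e₁ ≠ e₃ ∧ e₂ ≠ e₃ := by
  classical
  obtain ⟨x, y, hx, hy, hR⟩ := goa h O
  have hx0 : x ≠ 0 := O.ne_zero_of_ord_ne_zero (by omega)
  have hy0 : y ≠ 0 := O.ne_zero_of_ord_ne_zero (by omega)
  have hdim := goa_dim h O 6 (by norm_num)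
  set V := LL (fun v : Place C E => if v = O then ((6 : ℕ) : ℤ) else 0) with hV
  have hfd : FiniteDimensional C V := FiniteDimensional.of_finrank_pos (by omega)
  -- monomials
  have hmon : ∀ a b : ℕ, O.ord (x ^ a * y ^ b) = -(2 * a + 3 * b : ℤ) := by
    intro a b
    rw [O.ord_mul _ _ (pow_ne_zero _ hx0) (pow_ne_zero _ hy0), O.ord_pow, O.ord_pow, hx, hy]
    ring
  have hmem : ∀ a b : ℕ, 2 * a + 3 * b ≤ 6 → x ^ a * y ^ b ∈ V := by
    intro a b hab v
    by_cases hv : v = O
    · rw [hv]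
      simp only [if_true]
      apply O.mem_ge_of_le
      rw [hmon]
      push_cast
      omega
    · simp only [if_neg hv]
      have h1 := v.mul_mem_ge (v.pow_mem_ge (hR v hv).1 a) (v.pow_mem_ge (hR v hv).2 b)
      simpa using h1
  let P : Fin 7 → ℕ × ℕ := ![(0, 0), (1, 0), (0, 1), (2, 0), (1, 1), (3, 0), (0, 2)]
  have hP : ∀ i, 2 * (P i).1 + 3 * (P i).2 ≤ 6 := by decide
  let e : Fin 7 → V := fun i => ⟨x ^ (P i).1 * y ^ (P i).2, hmem _ _ (hP i)⟩
  have hdep : ¬ LinearIndependent C e := by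
    intro hli
    have := hli.fintype_card_le_finrank
    rw [hdim, Fintype.card_fin] at this
    omega
  rw [Fintype.linearIndependent_iff] at hdep
  push Not at hdep
  obtain ⟨g, hg, i₁, hi₁⟩ := hdep
  have hrel : ∑ i, algebraMap C E (g i) * (x ^ (P i).1 * y ^ (P i).2) = 0 := by
    have h1 := congrArg (fun v : V => (v : E)) hg
    simp only [Submodule.coe_sum, Submodule.coe_smul, ZeroMemClass.coe_zero] at h1
    rw [← h1]
    refine Finset.sum_congr rfl fun i _ => ?_
    rw [Algebra.smul_def]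
  have hf0 : ∀ i : Fin 7, x ^ (P i).1 * y ^ (P i).2 ≠ 0 :=
    fun i => mul_ne_zero (pow_ne_zero _ hx0) (pow_ne_zero _ hy0)
  -- the coefficients of `x ^ 3` and `y ^ 2`
  have key : ∀ k : Fin 7, (k = 5 ∨ k = 6) → g k ≠ 0 := by
    intro k hk hgk
    have h1 : ∑ i ∈ Finset.univ.erase k, algebraMap C E (g i) * (x ^ (P i).1 * y ^ (P i).2) = 0 := by
      rw [← hrel, ← Finset.add_sum_erase Finset.univ _ (Finset.mem_univ k), hgk, map_zero, zero_mul, zero_add]
    have h2 := gob_li O (Finset.univ.erase k) (fun i => x ^ (P i).1 * y ^ (P i).2) (fun i _ => hf0 i) (by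
      intro i hi j hj hij
      simp only [hmon] at hij
      rw [Finset.mem_erase] at hi hj
      have hij' : 2 * (P i).1 + 3 * (P i).2 = 2 * (P j).1 + 3 * (P j).2 := by omega
      have hdec : ∀ k : Fin 7, (k = 5 ∨ k = 6) → ∀ i j : Fin 7, i ≠ k → j ≠ k →
          2 * (P i).1 + 3 * (P i).2 = 2 * (P j).1 + 3 * (P j).2 → i = j := by decide
      exact hdec k hk i j hi.1 hj.1 hij') g h1
    apply hi₁
    by_cases h3 : i₁ = k
    · rw [h3]; exact hgk
    · exact h2 i₁ (Finset.mem_erase.2 ⟨h3, Finset.mem_univ _⟩)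
  have hA := key 6 (Or.inr rfl)
  have hB := key 5 (Or.inl rfl)
  rw [Fin.sum_univ_seven] at hrel
  simp only [P, Matrix.cons_val_zero, Matrix.cons_val_one, Matrix.cons_val, pow_zero, pow_one, mul_one,
    one_mul] at hrel
  -- Weierstrass form
  have hchar : CharZero E := charZero_of_injective_algebraMap (algebraMap C E).injective
  have h2 : (2 : E) ≠ 0 := two_ne_zero
  set a0 := algebraMap C E (g 0) with ha0
  set a1 := algebraMap C E (g 1) with ha1
  set a2 := algebraMap C E (g 2) with ha2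
  set a3 := algebraMap C E (g 3) with ha3
  set a4 := algebraMap C E (g 4) with ha4
  set B := algebraMap C E (g 5) with hBdef
  set A := algebraMap C E (g 6) with hAdef
  have hA0 : A ≠ 0 := by rw [hAdef, Ne, map_eq_zero]; exact hA
  have hB0 : B ≠ 0 := by rw [hBdef, Ne, map_eq_zero]; exact hB
  set X : E := -(A * B * x) with hX
  set Z : E := A ^ 2 * B * y + (-a4 * X + A * B * a2) / 2 with hZ
  let p : C[X] := Polynomial.X ^ 3 + Polynomial.C (-(g 6 * g 3) + g 4 ^ 2 / 4) * Polynomial.X ^ 2 +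
    Polynomial.C (g 6 ^ 2 * g 5 * g 1 - g 4 * (g 6 * g 5 * g 2) / 2) * Polynomial.X +
    Polynomial.C (-(g 6 ^ 3 * g 5 ^ 2 * g 0) + (g 6 * g 5 * g 2) ^ 2 / 4)
  have hpZ : Z ^ 2 = aeval X p := by
    simp only [p, map_add, map_mul, map_pow, aeval_X, aeval_C, map_sub, map_neg, map_div₀, map_ofNat]
    rw [← ha0, ← ha1, ← ha2, ← ha3, ← ha4, ← hBdef, ← hAdef, hZ, hX]
    linear_combination (A ^ 3 * B ^ 2) * hrel
  have hdeg : p.natDegree = 3 := by
    simp only [p]
    compute_degree!
  have hmonic : p.Monic := by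
    simp only [p]
    monicity!
  have hspl : p.Splits := IsAlgClosed.splits p
  have hcard : p.roots.card = 3 := by rw [← hspl.natDegree_eq_card_roots, hdeg]
  obtain ⟨e₁, e₂, e₃, he⟩ := Multiset.card_eq_three.1 hcard
  have hprod : p = (Polynomial.X - Polynomial.C e₁) * (Polynomial.X - Polynomial.C e₂) *
      (Polynomial.X - Polynomial.C e₃) := by
    have h3 := hspl.eq_prod_roots_of_monic hmonic
    rw [he] at h3
    rw [h3]
    simp [mul_assoc]
  have hW : Z ^ 2 = (X - algebraMap C E e₁) * (X - algebraMap C E e₂) * (X - algebraMap C E e₃) := by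
    rw [hpZ, hprod]
    simp [mul_assoc]
  -- orders
  have hAB : A * B ≠ 0 := mul_ne_zero hA0 hB0
  have hoX : O.ord X = -2 := by
    rw [hX, O.ord_neg, O.ord_mul _ _ hAB hx0, O.ord_mul _ _ hA0 hB0, hAdef, hBdef, O.ord_algebraMap,
      O.ord_algebraMap, hx]
    ring
  have hXR : ∀ R : Place C E, R ≠ O → X ∈ R.ge 0 := by
    intro R hRO
    rw [hX]
    have h3 := R.mul_mem_ge (R.mul_mem_ge (R.algebraMap_mem_ge (g 6)) (R.algebraMap_mem_ge (g 5))) (hR R hRO).1
    exact neg_mem (by simpa using h3)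
  have hlin : ∀ R : Place C E, ∀ m : ℤ, m ≤ 0 → X ∈ R.ge m → (-a4 * X + A * B * a2) / 2 ∈ R.ge m := by
    intro R m hm hXm
    have e1 : (-a4 * X + A * B * a2) / 2 = algebraMap C E (-(g 4) / 2) * X +
        algebraMap C E (g 6 * g 5 * g 2 / 2) := by
      simp only [map_div₀, map_mul, map_neg, map_ofNat]
      rw [← ha4, ← hBdef, ← hAdef, ← ha2]
      field_simp
    rw [e1]
    refine add_mem ?_ (R.ge_anti hm (R.algebraMap_mem_ge _))
    have h3 := R.mul_mem_ge (R.algebraMap_mem_ge (-(g 4) / 2)) hXm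
    rwa [zero_add] at h3
  have hA2B : A ^ 2 * B ≠ 0 := mul_ne_zero (pow_ne_zero _ hA0) hB0
  have hoY : O.ord (A ^ 2 * B * y) = -3 := by
    rw [O.ord_mul _ _ hA2B hy0, O.ord_mul _ _ (pow_ne_zero _ hA0) hB0, O.ord_pow, hAdef, hBdef,
      O.ord_algebraMap, O.ord_algebraMap, hy]
    ring
  have hoZ : O.ord Z = -3 := by
    rw [hZ]
    have h3 := hlin O (-2) (by norm_num) (O.mem_ge_of_le hoX.ge)
    rw [(O.ord_add_eq_left (mul_ne_zero hA2B hy0) (by
      by_cases h4 : (-a4 * X + A * B * a2) / 2 = 0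
      · exact Or.inl h4
      · right
        have := O.le_ord_of_mem h3 h4
        omega)).2, hoY]
  have hZR : ∀ R : Place C E, R ≠ O → Z ∈ R.ge 0 := by
    intro R hRO
    rw [hZ]
    refine add_mem ?_ (hlin R 0 le_rfl (hXR R hRO))
    have h3 := R.mul_mem_ge (R.mul_mem_ge (R.pow_mem_ge (R.algebraMap_mem_ge (g 6)) 2)
      (R.algebraMap_mem_ge (g 5))) (hR R hRO).2
    simpa using h3
  have hdX := gob_deg O (m := 2) (by norm_num) (by rw [hoX]; norm_num) hXR
  have hdZ := gob_deg O (m := 3) (by norm_num) (by rw [hoZ]; norm_num) hZR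
  have htX : Transcendental C X := O.transcendental_of_ord_ne_zero (by omega)
  have htop : IntermediateField.adjoin C {X, Z} = ⊤ := by
    have l1 : C⟮X⟯ ≤ IntermediateField.adjoin C {X, Z} :=
      IntermediateField.adjoin.mono C _ _ (by simp)
    have l2 : C⟮Z⟯ ≤ IntermediateField.adjoin C {X, Z} :=
      IntermediateField.adjoin.mono C _ _ (by simp)
    have d1 := IntermediateField.finrank_dvd_of_le_left l1
    have d2 := IntermediateField.finrank_dvd_of_le_left l2
    rw [hdX] at d1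
    rw [hdZ] at d2
    have d3 := Nat.dvd_gcd d1 d2
    have d4 : Module.finrank (IntermediateField.adjoin C {X, Z}) E = 1 := by
      have : Nat.gcd 2 3 = 1 := by norm_num
      rw [this] at d3
      exact Nat.dvd_one.1 d3
    exact IntermediateField.finrank_eq_one_iff_eq_top.1 d4
  refine ⟨X, Z, e₁, e₂, e₃, by omega, htop, htX, hW, ?_, ?_, ?_⟩
  · intro h12
    refine gob_sing h htX htop e₁ e₃ ?_
    rw [hW, ← h12]
  · intro h13
    refine gob_sing h htX htop e₁ e₂ ?_
    rw [hW, ← h13]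
    ring
  · intro h23
    refine gob_sing h htX htop e₂ e₁ ?_
    rw [hW, ← h23]
    ring

end Pool.Agent.HFB
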