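import Pool.Agent.HFB.GOB
import Pool.Agent.ESH.DefsE

/-!
# HFB / GOC: Legendre equation

GOB; `x' = (x - e₁)/(e₂ - e₁)`, `y' = y/ρ` with `ρ² = (e₂ - e₁)³`, `l = (e₃ - e₁)/(e₂ - e₁)`.
-/

namespace Pool.Agent.HFB

open Polynomial Pool.Agent.Helper11 Pool.Agent.ESH IntermediateField NumberField
open scoped KaehlerDifferential

variable {C E : Type*} [Field C] [Field E] [Algebra C E] [FunField C E] [CharZero C] [IsAlgClosed C]

theorem goc (h : chi C E = 0) (O : Place C E) :
    ∃ (x y : E) (l : C), Leg x y l ∧ IntermediateField.adjoin C {x, y} = ⊤ ∧ O.ord x < 0 := by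
  obtain ⟨x, y, e₁, e₂, e₃, hO, hadj, htr, heq, h12, h13, h23⟩ := gob h O
  obtain ⟨ρ, hρ⟩ := IsAlgClosed.exists_pow_nat_eq ((e₂ - e₁) ^ 3) (n := 2) (by norm_num)
  have hd : e₂ - e₁ ≠ 0 := sub_ne_zero.2 (Ne.symm h12)
  have hρ0 : ρ ≠ 0 := by
    intro h0
    rw [h0] at hρ
    exact pow_ne_zero 3 hd (by rw [← hρ]; norm_num)
  have hdE : algebraMap C E (e₂ - e₁) ≠ 0 := by
    rwa [Ne, map_eq_zero_iff _ (algebraMap C E).injective]
  have hρE : algebraMap C E ρ ≠ 0 := by
    rwa [Ne, map_eq_zero_iff _ (algebraMap C E).injective]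
  have hρ2 : algebraMap C E ρ ^ 2 = algebraMap C E (e₂ - e₁) ^ 3 := by
    rw [← map_pow, ← map_pow, hρ]
  have hxx : x = algebraMap C E (e₂ - e₁) * ((x - algebraMap C E e₁) / algebraMap C E (e₂ - e₁)) +
      algebraMap C E e₁ := by
    field_simp
    ring
  have hyy : y = algebraMap C E ρ * (y / algebraMap C E ρ) := by
    field_simp
  refine ⟨(x - algebraMap C E e₁) / algebraMap C E (e₂ - e₁), y / algebraMap C E ρ,
    (e₃ - e₁) / (e₂ - e₁), ⟨?_, ?_, ?_, ?_⟩, ?_, ?_⟩
  · intro halg
    apply htr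
    rw [hxx]
    exact (((isAlgebraic_algebraMap _).mul halg).add (isAlgebraic_algebraMap _))
  · have h1 : algebraMap C E ((e₃ - e₁) / (e₂ - e₁)) =
        (algebraMap C E e₃ - algebraMap C E e₁) / algebraMap C E (e₂ - e₁) := by
      rw [map_div₀, map_sub]
    rw [h1, div_pow, heq, hρ2]
    rw [map_sub] at hdE ⊢
    field_simp
    ring
  · exact div_ne_zero (sub_ne_zero.2 (Ne.symm h13)) hd
  · intro h1
    rw [div_eq_one_iff_eq hd] at h1
    exact h23 (sub_left_injective h1).symm
  · rw [eq_top_iff, ← hadj, IntermediateField.adjoin_le_iff]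
    intro z hz
    have hx' : (x - algebraMap C E e₁) / algebraMap C E (e₂ - e₁) ∈
        IntermediateField.adjoin C {(x - algebraMap C E e₁) / algebraMap C E (e₂ - e₁),
          y / algebraMap C E ρ} := IntermediateField.subset_adjoin _ _ (by simp)
    have hy' : y / algebraMap C E ρ ∈
        IntermediateField.adjoin C {(x - algebraMap C E e₁) / algebraMap C E (e₂ - e₁),
          y / algebraMap C E ρ} := IntermediateField.subset_adjoin _ _ (by simp)
    rcases hz with hz | hz
    · rw [hz]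
      have h2 := add_mem (mul_mem (IntermediateField.algebraMap_mem _ (e₂ - e₁)) hx')
        (IntermediateField.algebraMap_mem _ e₁)
      rwa [← hxx] at h2
    · rw [Set.mem_singleton_iff] at hz
      rw [hz]
      have h2 := mul_mem (IntermediateField.algebraMap_mem _ ρ) hy'
      rwa [← hyy] at h2
  · have hx0 : x ≠ 0 := O.ne_zero_of_ord_ne_zero hO.ne
    by_cases he : e₁ = 0
    · have h2 : (x - algebraMap C E e₁) / algebraMap C E (e₂ - e₁) = x / algebraMap C E (e₂ - e₁) := by
        rw [he, map_zero, sub_zero]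
      rw [h2, O.ord_div hx0 hdE, O.ord_algebraMap, sub_zero]
      exact hO
    · have hne : -algebraMap C E e₁ ≠ 0 := by
        rw [neg_ne_zero, Ne, map_eq_zero_iff _ (algebraMap C E).injective]
        exact he
      have h2 := O.ord_add_eq_left hx0 (Or.inr (show O.ord x < O.ord (-algebraMap C E e₁) by
        rw [O.ord_neg, O.ord_algebraMap]; exact hO))
      rw [← sub_eq_add_neg] at h2
      rw [O.ord_div h2.1 hdE, O.ord_algebraMap, sub_zero, h2.2]
      exact hO

end Pool.Agent.HFB
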