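import Pool.Agent.HFB.DefsA

/-!
# HFB / IDN: the action of `1 + e θ`, `e² = 0`

`det (1 + e θ) = 1 + e tr θ` and `adjugate (1 + e θ) = 1 + e (tr θ - θ)` for `e² = 0` (`Matrix.det_one_add_smul`?  or: `(1 + e θ)(1 + e (tr θ - θ)) = (1 + e tr θ) 1` and `1 + e θ` is invertible with inverse `1 - e θ`, so the adjugate is `det · inverse`).  Then expand the definitions; for `polN` note `derivative (C e * p) = C e * derivative p`.
-/

namespace Pool.Agent.HFB

open Polynomial

variable {R : Type*} [CommRing R] {n : ℕ}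

private theorem IDN_sq (e : R) (he : e * e = 0) : (C e : R[X]) * C e = 0 := by
  rw [← C_mul, he, C_0]

private theorem IDN_ent (ε : R[X]) (θ : Matrix (Fin n) (Fin n) R[X]) (i a : Fin n) :
    (1 + ε • θ) i a = (1 : Matrix (Fin n) (Fin n) R[X]) i a + ε * θ i a := by
  simp [Matrix.add_apply, Matrix.smul_apply]

private theorem IDN_sum (ε : R[X]) (θ : Matrix (Fin n) (Fin n) R[X]) (i : Fin n)
    (f : Fin n → R[X]) : ∑ a, (1 + ε • θ) i a * f a = f i + ε * ∑ a, θ i a * f a := by
  simp only [IDN_ent, add_mul, Finset.sum_add_distrib, Matrix.one_apply, ite_mul, one_mul,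
    zero_mul, Finset.sum_ite_eq, Finset.mem_univ, if_true]
  rw [Finset.mul_sum]
  congr 1
  exact Finset.sum_congr rfl fun a _ => by ring

theorem idn_det (e : R) (he : e * e = 0) (θ : Matrix (Fin n) (Fin n) R[X]) :
    (1 + (C e) • θ).det = 1 + C e * ∑ l, θ l l := by
  have h2 : (C e : R[X]) ^ 2 = 0 := by rw [sq]; exact IDN_sq e he
  rw [Matrix.det_one_add_smul, h2, mul_zero, add_zero, mul_comm]
  rfl

private theorem IDN_adj (e : R) (he : e * e = 0) (θ : Matrix (Fin n) (Fin n) R[X])
    (l k : Fin n) : (1 + (C e) • θ).adjugate l k =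
      (1 : Matrix (Fin n) (Fin n) R[X]) l k * (1 + C e * ∑ l, θ l l) - C e * θ l k := by
  have h0 := IDN_sq e he
  have h1 : (1 - (C e) • θ) * (1 + (C e) • θ) = 1 := by
    rw [sub_mul, one_mul, mul_add, mul_one, smul_mul_smul_comm, h0, zero_smul]
    abel
  have h2 : (1 + (C e) • θ).adjugate = (1 + (C e) • θ).det • (1 - (C e) • θ) := by
    calc (1 + (C e) • θ).adjugate
        = ((1 - (C e) • θ) * (1 + (C e) • θ)) * (1 + (C e) • θ).adjugate := by rw [h1, one_mul]
      _ = (1 - (C e) • θ) * ((1 + (C e) • θ) * (1 + (C e) • θ).adjugate) := by rw [mul_assoc]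
      _ = (1 + (C e) • θ).det • (1 - (C e) • θ) := by
          rw [Matrix.mul_adjugate, Matrix.mul_smul, mul_one]
  rw [h2, idn_det e he, Matrix.smul_apply, Matrix.sub_apply, Matrix.smul_apply, smul_eq_mul,
    smul_eq_mul]
  linear_combination (-(∑ l, θ l l) * θ l k) * h0

private theorem IDN_comm (F : Fin n → Fin n → Fin n → R[X]) (A : Fin n → R[X]) :
    ∑ a, ∑ b, ∑ l, F a b l * A l = ∑ l, (∑ a, ∑ b, F a b l) * A l := by
  have e1 : ∀ l, (∑ a, ∑ b, F a b l) * A l = ∑ a, ∑ b, F a b l * A l := by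
    intro l
    rw [Finset.sum_mul]
    exact Finset.sum_congr rfl fun a _ => Finset.sum_mul _ _ _
  rw [Finset.sum_congr rfl fun l _ => e1 l]
  have e2 : ∑ l, ∑ a, ∑ b, F a b l * A l = ∑ a, ∑ l, ∑ b, F a b l * A l := Finset.sum_comm
  rw [e2]
  exact Finset.sum_congr rfl fun a _ => Finset.sum_comm

theorem idn_c (e : R) (he : e * e = 0) (c : Fin n → Fin n → Fin n → R[X]) (θ : Matrix (Fin n) (Fin n) R[X])
    (i j k : Fin n) : polC c (1 + (C e) • θ) i j k =
      c i j k + C e * (psiC c θ i j k + (∑ l, θ l l) * c i j k) := by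
  have h0 := IDN_sq e he
  have hG : ∀ l, ∑ a, ∑ b, (1 + (C e) • θ) i a * (1 + (C e) • θ) j b * c a b l =
      c i j l + C e * (∑ a, θ i a * c a j l + ∑ b, θ j b * c i b l) := by
    intro l
    have e1 : ∀ a, ∑ b, (1 + (C e) • θ) i a * (1 + (C e) • θ) j b * c a b l =
        (1 + (C e) • θ) i a * (c a j l + C e * ∑ b, θ j b * c a b l) := by
      intro a
      rw [← IDN_sum (C e) θ j (fun b => c a b l), Finset.mul_sum]
      exact Finset.sum_congr rfl fun b _ => by ring
    rw [Finset.sum_congr rfl fun a _ => e1 a,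
      IDN_sum (C e) θ i (fun a => c a j l + C e * ∑ b, θ j b * c a b l)]
    have e2 : ∑ a, θ i a * (c a j l + C e * ∑ b, θ j b * c a b l) =
        ∑ a, θ i a * c a j l + C e * ∑ a, θ i a * ∑ b, θ j b * c a b l := by
      rw [Finset.mul_sum, ← Finset.sum_add_distrib]
      exact Finset.sum_congr rfl fun a _ => by ring
    rw [e2]
    linear_combination (∑ a, θ i a * ∑ b, θ j b * c a b l) * h0
  have h1 : polC c (1 + (C e) • θ) i j k = ∑ l, (∑ a, ∑ b, (1 + (C e) • θ) i a *
      (1 + (C e) • θ) j b * c a b l) * (1 + (C e) • θ).adjugate l k := by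
    exact IDN_comm (fun a b l => (1 + (C e) • θ) i a * (1 + (C e) • θ) j b * c a b l)
      (fun l => (1 + (C e) • θ).adjugate l k)
  rw [h1]
  have h2 : ∀ l, (∑ a, ∑ b, (1 + (C e) • θ) i a * (1 + (C e) • θ) j b * c a b l) *
      (1 + (C e) • θ).adjugate l k =
      (if l = k then (c i j l + C e * (∑ a, θ i a * c a j l + ∑ b, θ j b * c i b l)) *
        (1 + C e * ∑ l, θ l l) else 0) - C e * (c i j l * θ l k) := by
    intro l
    rw [hG, IDN_adj e he, Matrix.one_apply]
    split_ifs
    · linear_combination (-(∑ a, θ i a * c a j l + ∑ b, θ j b * c i b l) * θ l k) * h0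
    · linear_combination (-(∑ a, θ i a * c a j l + ∑ b, θ j b * c i b l) * θ l k) * h0
  rw [Finset.sum_congr rfl fun l _ => h2 l, Finset.sum_sub_distrib, Finset.sum_ite_eq',
    if_pos (Finset.mem_univ k), ← Finset.mul_sum]
  unfold psiC
  linear_combination ((∑ a, θ i a * c a j k + ∑ b, θ j b * c i b k) * ∑ l, θ l l) * h0

theorem idn_n (e : R) (he : e * e = 0) (N : Fin n → Fin n → R[X]) (θ : Matrix (Fin n) (Fin n) R[X])
    (i k : Fin n) : polN N (1 + (C e) • θ) i k =
      N i k + C e * (psiN N θ i k + (∑ l, θ l l) * N i k) := by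
  have h0 := IDN_sq e he
  have hd : ∀ l, derivative ((1 + (C e) • θ) i l) = C e * derivative (θ i l) := by
    intro l
    rw [IDN_ent, derivative_add, derivative_mul, derivative_C, zero_mul, zero_add,
      Matrix.one_apply]
    split_ifs <;> simp
  have hG : ∀ l, X * (X - 1) * derivative ((1 + (C e) • θ) i l) +
      ∑ a, (1 + (C e) • θ) i a * N a l =
      N i l + C e * (X * (X - 1) * derivative (θ i l) + ∑ a, θ i a * N a l) := by
    intro l
    rw [hd, IDN_sum (C e) θ i (fun a => N a l)]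
    ring
  unfold polN
  have h2 : ∀ l, (X * (X - 1) * derivative ((1 + (C e) • θ) i l) +
      ∑ a, (1 + (C e) • θ) i a * N a l) * (1 + (C e) • θ).adjugate l k =
      (if l = k then (N i l + C e * (X * (X - 1) * derivative (θ i l) + ∑ a, θ i a * N a l)) *
        (1 + C e * ∑ l, θ l l) else 0) - C e * (N i l * θ l k) := by
    intro l
    rw [hG, IDN_adj e he, Matrix.one_apply]
    split_ifs
    · linear_combination
        (-(X * (X - 1) * derivative (θ i l) + ∑ a, θ i a * N a l) * θ l k) * h0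
    · linear_combination
        (-(X * (X - 1) * derivative (θ i l) + ∑ a, θ i a * N a l) * θ l k) * h0
  rw [Finset.sum_congr rfl fun l _ => h2 l, Finset.sum_sub_distrib, Finset.sum_ite_eq',
    if_pos (Finset.mem_univ k), ← Finset.mul_sum]
  unfold psiN
  linear_combination
    ((X * (X - 1) * derivative (θ i k) + ∑ a, θ i a * N a k) * ∑ l, θ l l) * h0

end Pool.Agent.HFB
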