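import Pool.Agent.HFB.DefsA
import Pool.Agent.Helper11.DerExt

/-!
# HFB / JAC: rational functions with non-degenerate Jacobian are algebraically independent

Let `L` be the fraction field, `φ_j = p_j / u`, `D_i` the derivation of `L` extending `pderiv i`  (Mathlib: derivations extend to localisations, or work with the matrix of the numerators `u ∂_i p_j - p_j ∂_i u = u² D_i φ_j`).  The matrix `(D_i φ_j)` is invertible: the
determinant of `(u ∂_i p_j - p_j ∂_i u)` does not vanish at `g` by `h`.  Suppose `Q ≠ 0` of minimal total degree with `Q(φ) = 0`.  Applying `D_i`: `∑_j (∂_j Q)(φ) D_i φ_j = 0` for all `i`, hence `(∂_j Q)(φ) = 0` for all `j`, so `∂_j Q = 0` for all `j` by minimality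
(total degree of `∂_j Q` smaller), so `Q` is constant (characteristic zero), `Q = 0`: contradiction.
-/

namespace Pool.Agent.HFB

open Polynomial

private theorem chain {ι : Type*} [Fintype ι] {K L : Type*} [Field K] [Field L] [Algebra K L]
    (D : Derivation K L L) (φ : ι → L) (Q : MvPolynomial ι K) :
    D (MvPolynomial.aeval φ Q) =
      ∑ j, MvPolynomial.aeval φ (MvPolynomial.pderiv j Q) * D (φ j) := by
  classical
  induction Q using MvPolynomial.induction_on with
  | C a => simp
  | add p q hp hq => simp [hp, hq, add_mul, Finset.sum_add_distrib]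
  | mul_X p i hp =>
    have h1 : ∀ j, MvPolynomial.aeval φ (MvPolynomial.pderiv j (p * MvPolynomial.X i)) * D (φ j) =
        MvPolynomial.aeval φ (MvPolynomial.pderiv j p) * D (φ j) * φ i +
          (if i = j then MvPolynomial.aeval φ p * D (φ j) else 0) := by
      intro j
      rw [MvPolynomial.pderiv_mul, map_add, map_mul, map_mul, MvPolynomial.aeval_X]
      by_cases hij : i = j
      · subst hij
        rw [MvPolynomial.pderiv_X_self, map_one, if_pos rfl]
        ring
      · rw [MvPolynomial.pderiv_X_of_ne hij, map_zero, if_neg hij]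
        ring
    rw [Finset.sum_congr rfl fun j _ => h1 j, Finset.sum_add_distrib, Finset.sum_ite_eq,
      if_pos (Finset.mem_univ _), ← Finset.sum_mul, ← hp, map_mul, MvPolynomial.aeval_X,
      Derivation.leibniz, smul_eq_mul, smul_eq_mul]
    ring

private theorem deg_pderiv {ι : Type*} {K : Type*} [Field K] (Q : MvPolynomial ι K)
    (n : ℕ) (hn : Q.totalDegree ≤ n + 1) (j : ι) : (MvPolynomial.pderiv j Q).totalDegree ≤ n := by
  apply Finset.sup_le
  intro m hm
  have h1 : Q.coeff (m + Finsupp.single j 1) ≠ 0 := by
    intro hc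
    rw [MvPolynomial.mem_support_iff, MvPolynomial.coeff_pderiv, hc, zero_mul] at hm
    exact hm rfl
  have h2 := MvPolynomial.le_totalDegree (MvPolynomial.mem_support_iff.2 h1)
  have h3 : ((m + Finsupp.single j 1).sum fun _ e => e) = (m.sum fun _ e => e) + 1 := by
    rw [Finsupp.sum_add_index' (fun _ => rfl) (fun _ _ _ => rfl),
      Finsupp.sum_single_index rfl]
  omega

theorem jac {ι : Type*} [Fintype ι] {K : Type*} [Field K] [CharZero K] (p : ι → MvPolynomial ι K)
    (u : MvPolynomial ι K) (g : ι → K) (hu : MvPolynomial.eval g u ≠ 0)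
    (h : ∀ w : ι → K, (∀ j, MvPolynomial.eval g u * ∑ i, w i * MvPolynomial.eval g (MvPolynomial.pderiv i (p j)) -
      MvPolynomial.eval g (p j) * ∑ i, w i * MvPolynomial.eval g (MvPolynomial.pderiv i u) = 0) → w = 0)
    (Q : MvPolynomial ι K) (hQ : Q ≠ 0) :
    MvPolynomial.aeval (fun j => algebraMap (MvPolynomial ι K) (FractionRing (MvPolynomial ι K)) (p j) /
      algebraMap (MvPolynomial ι K) (FractionRing (MvPolynomial ι K)) u) Q ≠ 0 := by
  classical
  have hu0 : u ≠ 0 := fun hc => hu (by rw [hc, map_zero])
  have hinj : Function.Injective (algebraMap (MvPolynomial ι K) (FractionRing (MvPolynomial ι K))) := IsFractionRing.injective (MvPolynomial ι K) (FractionRing (MvPolynomial ι K))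
  have hu1 : algebraMap (MvPolynomial ι K) (FractionRing (MvPolynomial ι K)) u ≠ 0 := fun hc => hu0 (hinj (by rw [hc, map_zero]))
  set φ : ι → FractionRing (MvPolynomial ι K) := fun j => algebraMap (MvPolynomial ι K) (FractionRing (MvPolynomial ι K)) (p j) / algebraMap (MvPolynomial ι K) (FractionRing (MvPolynomial ι K)) u with hφ
  have hD : ∀ i : ι, ∃ D : Derivation K (FractionRing (MvPolynomial ι K)) (FractionRing (MvPolynomial ι K)), ∀ a : MvPolynomial ι K, D (algebraMap (MvPolynomial ι K) (FractionRing (MvPolynomial ι K)) a) =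
      algebraMap (MvPolynomial ι K) (FractionRing (MvPolynomial ι K)) (MvPolynomial.pderiv i a) := by
    intro i
    obtain ⟨D, hD⟩ := Pool.Agent.Helper11.exists_derivation_extend
      ((Algebra.linearMap (MvPolynomial ι K) (FractionRing (MvPolynomial ι K))).compDer (MvPolynomial.pderiv (R := K) i))
    exact ⟨D, fun a => by rw [hD]; rfl⟩
  choose D hD using hD
  let A : Matrix ι ι (MvPolynomial ι K) := fun i j => u * MvPolynomial.pderiv i (p j) - p j * MvPolynomial.pderiv i u
  have hA : ∀ i j, algebraMap (MvPolynomial ι K) (FractionRing (MvPolynomial ι K)) (A i j) = algebraMap (MvPolynomial ι K) (FractionRing (MvPolynomial ι K)) u ^ 2 * D i (φ j) := by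
    intro i j
    have h1 : φ j * algebraMap (MvPolynomial ι K) (FractionRing (MvPolynomial ι K)) u = algebraMap (MvPolynomial ι K) (FractionRing (MvPolynomial ι K)) (p j) := div_mul_cancel₀ _ hu1
    have h2 : D i (φ j * algebraMap (MvPolynomial ι K) (FractionRing (MvPolynomial ι K)) u) = algebraMap (MvPolynomial ι K) (FractionRing (MvPolynomial ι K)) (MvPolynomial.pderiv i (p j)) := by
      rw [h1, hD]
    rw [Derivation.leibniz, smul_eq_mul, smul_eq_mul, hD] at h2
    change algebraMap (MvPolynomial ι K) (FractionRing (MvPolynomial ι K)) (u * MvPolynomial.pderiv i (p j) - p j * MvPolynomial.pderiv i u) = _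
    rw [map_sub, map_mul, map_mul, ← h2, ← h1]
    ring
  have hdet : A.det ≠ 0 := by
    intro hdet
    have h1 : (A.map (MvPolynomial.eval g)).det = 0 := by
      have := (MvPolynomial.eval g).map_det A
      rw [hdet, map_zero] at this
      exact this.symm
    obtain ⟨w, hw, hw'⟩ := Matrix.exists_vecMul_eq_zero_iff.2 h1
    apply hw
    apply h
    intro j
    have h2 := congrFun hw' j
    rw [Matrix.vecMul, dotProduct] at h2
    rw [Pi.zero_apply] at h2
    rw [← h2, Finset.mul_sum, Finset.mul_sum, ← Finset.sum_sub_distrib]
    apply Finset.sum_congr rfl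
    intro i _
    rw [Matrix.map_apply]
    change _ = w i * MvPolynomial.eval g (u * MvPolynomial.pderiv i (p j) - p j * MvPolynomial.pderiv i u)
    rw [map_sub, map_mul, map_mul]
    ring
  have hdet' : (A.map (algebraMap (MvPolynomial ι K) (FractionRing (MvPolynomial ι K)))).det ≠ 0 := by
    have := (algebraMap (MvPolynomial ι K) (FractionRing (MvPolynomial ι K))).map_det A
    rw [RingHom.mapMatrix_apply] at this
    rw [← this]
    exact fun hc => hdet (hinj (by rw [hc, map_zero]))
  have key : ∀ (n : ℕ) (Q : MvPolynomial ι K), Q.totalDegree ≤ n → MvPolynomial.aeval φ Q = 0 → Q = 0 := by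
    intro n
    induction n with
    | zero =>
      intro Q hQn hQ0
      have h1 := MvPolynomial.totalDegree_eq_zero_iff_eq_C.1 (Nat.le_zero.1 hQn)
      rw [h1, MvPolynomial.aeval_C] at hQ0
      have h2 : Q.coeff 0 = 0 := by
        have : Function.Injective (algebraMap K (FractionRing (MvPolynomial ι K))) := (algebraMap K (FractionRing (MvPolynomial ι K))).injective
        exact this (by rw [hQ0, map_zero])
      rw [h1, h2, map_zero]
    | succ n ih =>
      intro Q hQn hQ0
      have h1 : (A.map (algebraMap (MvPolynomial ι K) (FractionRing (MvPolynomial ι K)))).mulVec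
          (fun j => MvPolynomial.aeval φ (MvPolynomial.pderiv j Q)) = 0 := by
        funext i
        have h2 := chain (D i) φ Q
        rw [hQ0, map_zero] at h2
        rw [Matrix.mulVec, dotProduct, Pi.zero_apply]
        calc ∑ j, (A.map (algebraMap (MvPolynomial ι K) (FractionRing (MvPolynomial ι K)))) i j * MvPolynomial.aeval φ (MvPolynomial.pderiv j Q)
            = algebraMap (MvPolynomial ι K) (FractionRing (MvPolynomial ι K)) u ^ 2 * ∑ j, MvPolynomial.aeval φ (MvPolynomial.pderiv j Q) * D i (φ j) := by
              rw [Finset.mul_sum]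
              apply Finset.sum_congr rfl
              intro j _
              rw [Matrix.map_apply, hA]
              ring
          _ = 0 := by rw [← h2, mul_zero]
      have h3 : (fun j => MvPolynomial.aeval φ (MvPolynomial.pderiv j Q)) = (0 : ι → FractionRing (MvPolynomial ι K)) := by
        by_contra hne
        exact hdet' (Matrix.exists_mulVec_eq_zero_iff.1 ⟨_, hne, h1⟩)
      have h4 : ∀ j, MvPolynomial.pderiv j Q = 0 := fun j =>
        ih _ (deg_pderiv Q n hQn j) (congrFun h3 j)
      apply ih Q _ hQ0
      refine le_trans (le_of_eq ?_) (Nat.zero_le n)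
      rw [MvPolynomial.totalDegree_eq_zero_iff_eq_C]
      ext m
      rw [MvPolynomial.coeff_C]
      by_cases hm : 0 = m
      · rw [if_pos hm, hm]
      · rw [if_neg hm]
        obtain ⟨i, hi⟩ : ∃ i, m i ≠ 0 := by
          by_contra hc
          push Not at hc
          exact hm (by ext i; simp [hc i])
        have h5 := MvPolynomial.coeff_pderiv (i := i) Q (m - Finsupp.single i 1)
        rw [h4 i, MvPolynomial.coeff_zero] at h5
        have h6 : m - Finsupp.single i 1 + Finsupp.single i 1 = m := by
          ext k
          by_cases hk : k = i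
          · subst hk
            simp
            omega
          · simp [Finsupp.single_eq_of_ne hk]
        rw [h6] at h5
        have h7 : (((m - Finsupp.single i 1 : ι →₀ ℕ) i : ℕ) : K) + 1 ≠ 0 := Nat.cast_add_one_ne_zero _
        rcases mul_eq_zero.1 h5.symm with h8 | h8
        · exact h8
        · exact absurd h8 h7
  intro hc
  exact hQ (key _ Q le_rfl hc)

end Pool.Agent.HFB
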