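import Pool.Agent.HFB.DefsV

/-!
# HFB / LCB: change of basis

`∑_j A_ij ω_j = ∑_j (A B)_ij ω'_j`, so `A ↦ A B` maps the matrices for `ω` bijectively to the ones for `ω'`, and `log a (det (A B)) = log a (det A) + log a (det B)`: the set of `ω'` is the translate of the set of `ω`.
-/

namespace Pool.Agent.HFB

open Polynomial Pool.Agent.Helper11 Pool.Agent.ESH IntermediateField
open scoped KaehlerDifferential

variable {k Φ : Type*} [Field k] [Field Φ] [Algebra k Φ]

theorem lcb (a : AbsoluteValue k ℝ) {ι : Type*} [Fintype ι] [DecidableEq ι] (ω ω' : ι → Ω[Φ⁄k])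
    (B : Matrix ι ι k) (hB : B.det ≠ 0) (h : ∀ i, ω i = ∑ j, B i j • ω' j)
    (hn : {r : ℝ | ∃ A : Matrix ι ι k, A.det ≠ 0 ∧ (∀ i, IntDiff a (∑ j, A i j • ω' j)) ∧
      r = Real.log (a A.det)}.Nonempty)
    (hb : BddAbove {r : ℝ | ∃ A : Matrix ι ι k, A.det ≠ 0 ∧ (∀ i, IntDiff a (∑ j, A i j • ω' j)) ∧
      r = Real.log (a A.det)}) : locF a ω = locF a ω' - Real.log (a B.det) := by
  have hsum : ∀ (A : Matrix ι ι k) (i : ι), ∑ j, A i j • ω j = ∑ j, (A * B) i j • ω' j := by
    intro A i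
    simp only [h, Finset.smul_sum, smul_smul, Matrix.mul_apply, Finset.sum_smul]
    exact Finset.sum_comm
  have haB : a B.det ≠ 0 := (a.ne_zero_iff).2 hB
  have hset : {r : ℝ | ∃ A : Matrix ι ι k, A.det ≠ 0 ∧ (∀ i, IntDiff a (∑ j, A i j • ω j)) ∧
      r = Real.log (a A.det)} = (OrderIso.subRight (Real.log (a B.det))) ''
      {r : ℝ | ∃ A : Matrix ι ι k, A.det ≠ 0 ∧ (∀ i, IntDiff a (∑ j, A i j • ω' j)) ∧
      r = Real.log (a A.det)} := by
    ext r
    constructor
    · rintro ⟨A, hA, hA2, rfl⟩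
      refine ⟨Real.log (a (A * B).det), ⟨A * B, ?_, ?_, rfl⟩, ?_⟩
      · rw [Matrix.det_mul]; exact mul_ne_zero hA hB
      · intro i; rw [← hsum]; exact hA2 i
      · rw [OrderIso.subRight_apply, Matrix.det_mul, map_mul,
          Real.log_mul ((a.ne_zero_iff).2 hA) haB, add_sub_cancel_right]
    · rintro ⟨_, ⟨A, hA, hA2, rfl⟩, rfl⟩
      have hBu : IsUnit B.det := isUnit_iff_ne_zero.2 hB
      have hAB : A * B⁻¹ * B = A := Matrix.nonsing_inv_mul_cancel_right _ _ hBu
      refine ⟨A * B⁻¹, ?_, ?_, ?_⟩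
      · intro h0
        apply hA
        rw [← hAB, Matrix.det_mul, h0, zero_mul]
      · intro i; rw [hsum, hAB]; exact hA2 i
      · have h1 : A.det = (A * B⁻¹).det * B.det := by rw [← Matrix.det_mul, hAB]
        have h2 : (A * B⁻¹).det ≠ 0 := by
          intro h0
          apply hA
          rw [h1, h0, zero_mul]
        rw [OrderIso.subRight_apply, h1, map_mul, Real.log_mul ((a.ne_zero_iff).2 h2) haB,
          add_sub_cancel_right]
  unfold locF
  rw [hset, ← OrderIso.map_csSup' _ hn hb, OrderIso.subRight_apply]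

end Pool.Agent.HFB
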