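import Pool.Agent.HFB.VUP

/-!
# HFB / LFU: upper bound for the lattice of integral differentials

Let `V₀` be the Gauss valuation ring (`gau`).  Every `W` over `V₀` satisfies `ResTr a W` (`vrt`).  For a row `t` of `A` the differential `(∑_s A_ts f_s) dx` is in the lattice; the trace of `(∑_s A_ts f_s) u_i` is `∑_{s : (idx s).1 = i} A_ts x^(idx s).2`, whose coefficient of `x^(idx s).2` is `A_ts` (`idx` injective).
So `a (δ A_ts) ≤ 1` with `δ = α^(2n+2) D₀` (`vup`), and `δ^(card ι) det A = det (δ A)` has absolute value at most one (non-archimedean).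
-/

namespace Pool.Agent.HFB

open Polynomial Pool.Agent.Helper11 Pool.Agent.ESH IntermediateField
open scoped KaehlerDifferential

private theorem na_sum {k : Type*} [Field k] {a : AbsoluteValue k ℝ} (ha : IsNonarchimedean a)
    {κ : Type*} (T : Finset κ) (f : κ → k) (h : ∀ i ∈ T, a (f i) ≤ 1) : a (∑ i ∈ T, f i) ≤ 1 := by
  classical
  induction T using Finset.induction_on with
  | empty => rw [Finset.sum_empty, map_zero]; exact zero_le_one
  | insert b T hb ih =>
    rw [Finset.sum_insert hb]
    exact (ha _ _).trans (max_le (h b (Finset.mem_insert_self b T))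
      (ih fun i hi => h i (Finset.mem_insert_of_mem hi)))

private theorem na_det {k : Type*} [Field k] {a : AbsoluteValue k ℝ} (ha : IsNonarchimedean a)
    {ι : Type*} [Fintype ι] [DecidableEq ι] (B : Matrix ι ι k) (h : ∀ i j, a (B i j) ≤ 1) :
    a B.det ≤ 1 := by
  rw [Matrix.det_apply']
  apply na_sum ha
  intro σ _
  rw [map_mul, map_prod]
  have h1 : a (((Equiv.Perm.sign σ : ℤˣ) : ℤ) : k) = 1 := by
    rcases Int.units_eq_one_or (Equiv.Perm.sign σ) with h2 | h2
    · rw [h2]
      simp
    · rw [h2]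
      simp
  rw [h1, one_mul]
  exact Finset.prod_le_one (fun _ _ => a.nonneg _) fun _ _ => h _ _

variable {k Φ : Type*} [Field k] [Field Φ] [Algebra k Φ] [FunField k Φ] [CharZero k] [IsAlgClosed k]

variable {x : Φ} {n : ℕ} {d : Fin n → ℕ} {u : Fin n → Φ}

theorem lfu {a : AbsoluteValue k ℝ} (ha : IsNonarchimedean a) (hβ : IsBelyi k x) (hu : RBas k x d u)
    {c : Fin n → Fin n → Fin n → k[X]} {N : Fin n → Fin n → k[X]} (h : SCon x u c N)
    {α : k} (hα : α ≠ 0) (hα1 : a α ≤ 1)
    (hc : ∀ i j l s, a (α * (c i j l).coeff s) ≤ 1) (hN : ∀ i l s, a (α * (N i l).coeff s) ≤ 1)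
    {D₀ : k} {p q : ℕ} (hD0 : D₀ ≠ 0) (hD : (tG c).det = C D₀ * X ^ p * (X - 1) ^ q)
    {ι : Type*} [Fintype ι] [DecidableEq ι] (idx : ι → Fin n × ℕ) (hidx : Function.Injective idx)
    (f : ι → Φ) (hf : ∀ t i, ((Algebra.trace k⟮x⟯ Φ (f t * u i) : k⟮x⟯) : Φ) =
      if i = (idx t).1 then x ^ (idx t).2 else 0)
    (A : Matrix ι ι k)
    (hA : ∀ i, IntDiff a (∑ j, A i j • (f j • KaehlerDifferential.D k Φ x))) :
    a ((α ^ (2 * n + 2) * D₀) ^ Fintype.card ι * A.det) ≤ 1 := by
  classical
  have hx : Transcendental k x := hu.tr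
  obtain ⟨V₀, hV⟩ := gau (k := k) (Φ := Φ) ha hx
  have key : ∀ t s, a (α ^ (2 * n + 2) * D₀ * A t s) ≤ 1 := by
    intro t s
    let g : Φ := ∑ j, A t j • f j
    have hg : g • KaehlerDifferential.D k Φ x =
        ∑ j, A t j • (f j • KaehlerDifferential.D k Φ x) := by
      rw [Finset.sum_smul]
      apply Finset.sum_congr rfl
      intro j _
      rw [smul_assoc]
    let P : k[X] := ∑ j, if (idx s).1 = (idx j).1 then C (A t j) * X ^ (idx j).2 else 0
    have hP : ((Algebra.trace k⟮x⟯ Φ (g * u (idx s).1) : k⟮x⟯) : Φ) = aeval x P := by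
      have h1 : g * u (idx s).1 = ∑ j, (algebraMap k k⟮x⟯ (A t j)) • (f j * u (idx s).1) := by
        change (∑ j, A t j • f j) * u (idx s).1 = _
        rw [Finset.sum_mul]
        apply Finset.sum_congr rfl
        intro j _
        rw [algebraMap_smul, smul_mul_assoc]
      rw [h1, map_sum]
      change algebraMap k⟮x⟯ Φ _ = _
      rw [map_sum, map_sum]
      apply Finset.sum_congr rfl
      intro j _
      rw [map_smul, smul_eq_mul, map_mul]
      have h2 := hf j (idx s).1
      change algebraMap k⟮x⟯ Φ _ = _ at h2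
      rw [h2, ← IsScalarTower.algebraMap_apply k k⟮x⟯ Φ]
      split_ifs with h3
      · rw [map_mul, aeval_C, map_pow, aeval_X]
      · rw [mul_zero, map_zero]
    have hco : P.coeff (idx s).2 = A t s := by
      change (∑ j, if (idx s).1 = (idx j).1 then C (A t j) * X ^ (idx j).2 else 0).coeff _ = _
      rw [Polynomial.finsetSum_coeff, Finset.sum_eq_single s]
      · rw [if_pos rfl, coeff_C_mul, coeff_X_pow, if_pos rfl, mul_one]
      · intro j _ hj
        split_ifs with h3
        · rw [coeff_C_mul, coeff_X_pow, if_neg, mul_zero]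
          intro h4
          exact hj (hidx (Prod.ext h3.symm h4.symm))
        · rw [coeff_zero]
      · intro h3
        exact absurd (Finset.mem_univ _) h3
    have h5 := vup ha hβ hu h hV hα hα1 hc hN hD0 hD g (fun W hW => by
      rw [hg]
      exact (hA t).int W (vrt ha hx hV hW)) (idx s).1 P hP (idx s).2
    rwa [hco] at h5
  rw [← Matrix.det_smul]
  apply na_det ha
  intro i j
  rw [Matrix.smul_apply, smul_eq_mul]
  exact key i j

end Pool.Agent.HFB
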