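import Pool.Agent.HFB.DefsV
import Pool.Agent.ESH.LFT
import Pool.Agent.ESH.DefsG
import Pool.Agent.Helper11.Chi

/-!
# HFB / LIV: Galois invariance

`σ : Φ ≃+* Φ` with `σ c = γ c` for constants, `σ f = f` for `f ∈ F` (`lft`).  `σ` induces a `γ`-semilinear bijection `s` of `Ω[Φ⁄C]` with `s(b dc) = σ(b) dσ(c)`  (universal property: `c ↦ d(σ c)` is a derivation over `C` for the twisted module structure; or write every differential as `b dx₁` with a transcendental `x₁`).
`IntDiff (a ∘ γ) η ↔ IntDiff a (s η)`: places `R ↦ plMap σ γ R`, and `W ↦ σ(W)` is a bijection from the `W` with `ResTr (a ∘ γ) W` to those with `ResTr a`: `c ∈ σ(W) ↔ γ⁻¹ c ∈ W ↔ a (γ (γ⁻¹ c)) ≤ 1`.  `s` fixes the `ω_j = f_j dx`, so `s(∑ A_ij ω_j) = ∑ γ(A_ij) ω_j`, and `a (det (γ A)) = (a ∘ γ) (det A)`.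
-/

namespace Pool.Agent.HFB

open Polynomial Pool.Agent.Helper11 Pool.Agent.ESH IntermediateField
open scoped KaehlerDifferential

section

variable {C Φ : Type*} [Field C] [IsAlgClosed C] [CharZero C] [Field Φ] [Algebra C Φ] [FunField C Φ]

private theorem liv_aeval (σ : Φ ≃+* Φ) (γ : C ≃+* C)
    (hs : ∀ c : C, σ (algebraMap C Φ c) = algebraMap C Φ (γ c)) (x : Φ) (r : C[X]) :
    σ (aeval x r) = aeval (σ x) (r.map (γ : C →+* C)) := by
  rw [aeval_def, aeval_def, eval₂_map]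
  have h : (σ : Φ →+* Φ).comp (algebraMap C Φ) = (algebraMap C Φ).comp (γ : C →+* C) :=
    RingHom.ext hs
  rw [← h]
  exact hom_eval₂ r (algebraMap C Φ) (σ : Φ →+* Φ) x

private theorem liv_symm (σ : Φ ≃+* Φ) (γ : C ≃+* C)
    (hs : ∀ c : C, σ (algebraMap C Φ c) = algebraMap C Φ (γ c)) (c : C) :
    σ.symm (algebraMap C Φ c) = algebraMap C Φ (γ.symm c) := by
  rw [RingEquiv.symm_apply_eq, hs, RingEquiv.apply_symm_apply]

private theorem liv_tr (σ : Φ ≃+* Φ) (γ : C ≃+* C)
    (hs : ∀ c : C, σ (algebraMap C Φ c) = algebraMap C Φ (γ c)) {x : Φ} (hx : Transcendental C x) :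
    Transcendental C (σ x) := by
  rintro ⟨p, hp, hp0⟩
  apply hx
  refine ⟨p.map (γ.symm : C →+* C), ?_, ?_⟩
  · intro h0
    apply hp
    exact (Polynomial.map_eq_zero_iff (f := (γ.symm : C →+* C)) γ.symm.injective).1 h0
  · apply σ.injective
    rw [liv_aeval σ γ hs, map_zero, Polynomial.map_map]
    have h1 : (γ : C →+* C).comp (γ.symm : C →+* C) = RingHom.id C := by
      ext c
      exact γ.apply_symm_apply c
    rw [h1, Polynomial.map_id]
    exact hp0

/-- the derivation `σ⁻¹ ∘ d/dσ(x) ∘ σ` -/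
private noncomputable def livDer (σ : Φ ≃+* Φ) (γ : C ≃+* C)
    (hs : ∀ c : C, σ (algebraMap C Φ c) = algebraMap C Φ (γ c)) {y : Φ} (hy : Transcendental C y) :
    Derivation C Φ Φ where
  toFun c := σ.symm (der hy (σ c))
  map_add' a b := by rw [map_add, map_add, map_add]
  map_smul' c a := by
    rw [Algebra.smul_def, map_mul, hs, ← Algebra.smul_def, Derivation.map_smul, Algebra.smul_def,
      map_mul, liv_symm σ γ hs, γ.symm_apply_apply, ← Algebra.smul_def]
    rfl
  map_one_eq_zero' := by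
    change σ.symm (der hy (σ 1)) = 0
    rw [map_one, Derivation.map_one_eq_zero, map_zero]
  leibniz' a b := by
    change σ.symm (der hy (σ (a * b))) = a • σ.symm (der hy (σ b)) + b • σ.symm (der hy (σ a))
    rw [map_mul, Derivation.leibniz, map_add, smul_eq_mul, smul_eq_mul, map_mul, map_mul,
      σ.symm_apply_apply, σ.symm_apply_apply, smul_eq_mul, smul_eq_mul]

private theorem liv_der_uniq {x : Φ} (hx : Transcendental C x) (δ : Derivation C Φ Φ) (y : Φ) :
    δ y = der hx y * δ x := by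
  have h1 : δ.liftKaehlerDifferential (KaehlerDifferential.D C Φ y) = δ y :=
    Derivation.liftKaehlerDifferential_comp_D δ y
  rw [← h1, D_eq_der_smul hx y, map_smul, Derivation.liftKaehlerDifferential_comp_D, smul_eq_mul]

private theorem liv_der (σ : Φ ≃+* Φ) (γ : C ≃+* C)
    (hs : ∀ c : C, σ (algebraMap C Φ c) = algebraMap C Φ (γ c)) {x : Φ} (hx : Transcendental C x)
    (c : Φ) : der (liv_tr σ γ hs hx) (σ c) = σ (der hx c) := by
  have h1 := liv_der_uniq hx (livDer σ γ hs (liv_tr σ γ hs hx)) c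
  have h2 : (livDer σ γ hs (liv_tr σ γ hs hx)) x = 1 := by
    change σ.symm (der (liv_tr σ γ hs hx) (σ x)) = 1
    rw [der_self, map_one]
  rw [h2, mul_one] at h1
  rw [← h1]
  change _ = σ (σ.symm (der (liv_tr σ γ hs hx) (σ c)))
  rw [σ.apply_symm_apply]

private theorem liv_sm (σ : Φ ≃+* Φ) (γ : C ≃+* C)
    (hs : ∀ c : C, σ (algebraMap C Φ c) = algebraMap C Φ (γ c)) :
    ∃ s : Ω[Φ⁄C] →+ Ω[Φ⁄C], ∀ b c : Φ, s (b • KaehlerDifferential.D C Φ c) =
      σ b • KaehlerDifferential.D C Φ (σ c) := by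
  obtain ⟨x, hx⟩ := FunField.exists_transcendental (k := C) (L := Φ)
  refine ⟨{ toFun := fun ω => σ ((kaehlerEquiv hx).symm ω) • KaehlerDifferential.D C Φ (σ x)
            map_zero' := ?_
            map_add' := ?_ }, ?_⟩
  · rw [map_zero, map_zero, zero_smul]
  · intro ω ω'
    rw [map_add, map_add, add_smul]
  · intro b c
    change σ ((kaehlerEquiv hx).symm (b • KaehlerDifferential.D C Φ c)) •
      KaehlerDifferential.D C Φ (σ x) = _
    have h1 : (kaehlerEquiv hx).symm (b • KaehlerDifferential.D C Φ c) = b * der hx c := by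
      rw [LinearEquiv.symm_apply_eq, kaehlerEquiv_apply, mul_smul, ← D_eq_der_smul]
    rw [h1, map_mul, mul_smul, ← liv_der σ γ hs hx, ← D_eq_der_smul]

private theorem liv_ordDiff (R : Place C Φ) {π : Φ} (hπ : R.ord π = 1) (f : Φ) :
    R.ordDiff (f • KaehlerDifferential.D C Φ π) = R.ord f := by
  rw [R.ordDiff_smul_D]
  obtain ⟨h1, h2⟩ := R.ord_dv_unif' hπ
  by_cases hf0 : f = 0
  · rw [hf0, zero_mul]
  · rw [R.ord_mul _ _ hf0 h1, h2, add_zero]

private theorem liv_int (σ : Φ ≃+* Φ) (γ : C ≃+* C)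
    (hs : ∀ c : C, σ (algebraMap C Φ c) = algebraMap C Φ (γ c)) (s : Ω[Φ⁄C] →+ Ω[Φ⁄C])
    (hss : ∀ b c : Φ, s (b • KaehlerDifferential.D C Φ c) =
      σ b • KaehlerDifferential.D C Φ (σ c)) (a a' : AbsoluteValue C ℝ) (haa : ∀ c, a' c = a (γ c))
    (ω : Ω[Φ⁄C]) (hω : IntDiff a' ω) : IntDiff a (s ω) := by
  refine ⟨?_, ?_⟩
  · intro R
    let R' : Place C Φ := plMap σ.symm γ.symm (liv_symm σ γ hs) R
    have hR' : ∀ f, R'.ord f = R.ord (σ f) := fun f => rfl
    obtain ⟨π, hπ⟩ := R'.exists_ord_eq_one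
    have hπt : Transcendental C R'.unif := R'.transcendental_unif
    obtain ⟨g, hg⟩ := (kaehlerEquiv hπt).surjective ω
    rw [kaehlerEquiv_apply] at hg
    have h1 := hω.reg R'
    rw [← hg, liv_ordDiff R' R'.ord_unif g, hR'] at h1
    rw [← hg, hss, liv_ordDiff R (by rw [← hR']; exact R'.ord_unif)]
    exact h1
  · intro W hW
    let W' : ValuationSubring Φ := W.comap (σ : Φ →+* Φ)
    have hmem : ∀ f, f ∈ W' ↔ σ f ∈ W := fun f => Iff.rfl
    have hnon : ∀ f, f ∈ W'.nonunits ↔ σ f ∈ W.nonunits := by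
      intro f
      rw [ValuationSubring.mem_nonunits_iff_or, ValuationSubring.mem_nonunits_iff_or, hmem,
        map_inv₀, map_eq_zero_iff σ σ.injective]
    have hW' : ResTr a' W' := by
      refine ⟨?_, ?_⟩
      · intro c
        rw [hmem, hs, hW.base, haa]
      · obtain ⟨t, ht⟩ := hW.tr
        refine ⟨σ.symm t, ?_⟩
        intro p hp1 hp2
        rw [hmem, hnon, liv_aeval σ γ hs, σ.apply_symm_apply]
        apply ht
        · intro i
          rw [coeff_map]
          change a (γ (p.coeff i)) ≤ 1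
          rw [← haa]
          exact hp1 i
        · obtain ⟨i, hi⟩ := hp2
          refine ⟨i, ?_⟩
          rw [coeff_map]
          change a (γ (p.coeff i)) = 1
          rw [← haa]
          exact hi
    obtain ⟨n, b, c, hbc, hsum⟩ := hω.int W' hW'
    refine ⟨n, fun i => σ (b i), fun i => σ (c i), fun i => hbc i, ?_⟩
    rw [hsum, map_sum]
    exact Finset.sum_congr rfl fun i _ => hss _ _

private theorem liv_sub (σ : Φ ≃+* Φ) (γ : C ≃+* C)
    (hs : ∀ c : C, σ (algebraMap C Φ c) = algebraMap C Φ (γ c)) (a a' : AbsoluteValue C ℝ)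
    (haa : ∀ c, a' c = a (γ c)) {ι : Type*} [Fintype ι] [DecidableEq ι] (x : Φ) (f : ι → Φ)
    (hx : σ x = x) (hf : ∀ j, σ (f j) = f j) (r : ℝ)
    (h : ∃ A : Matrix ι ι C, A.det ≠ 0 ∧
      (∀ i, IntDiff a' (∑ j, A i j • (f j • KaehlerDifferential.D C Φ x))) ∧
      r = Real.log (a' A.det)) :
    ∃ A : Matrix ι ι C, A.det ≠ 0 ∧
      (∀ i, IntDiff a (∑ j, A i j • (f j • KaehlerDifferential.D C Φ x))) ∧
      r = Real.log (a A.det) := by
  obtain ⟨s, hss⟩ := liv_sm σ γ hs
  obtain ⟨A, hA, hi, hr⟩ := h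
  have hdet : (A.map (γ : C →+* C)).det = γ A.det := by
    have := RingHom.map_det (γ : C →+* C) A
    exact this.symm
  refine ⟨A.map (γ : C →+* C), ?_, ?_, ?_⟩
  · rw [hdet]
    intro h0
    exact hA ((map_eq_zero_iff γ γ.injective).1 h0)
  · intro i
    have h1 := liv_int σ γ hs s hss a a' haa _ (hi i)
    rw [map_sum] at h1
    convert h1 using 2
    rename_i j _
    rw [← algebraMap_smul Φ (A i j), smul_smul, hss, map_mul, hs, hf, hx, mul_smul, algebraMap_smul]
    rfl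
  · rw [hdet, ← haa]
    exact hr

end

theorem liv {K F C Φ : Type*} [Field K] [Field F] [Algebra K F] [Field C] [Algebra K C] [IsAlgClosed C]
    [CharZero C] [Field Φ] [Algebra C Φ] [Algebra F Φ] [FunField C Φ] (hc : Cmps K F C Φ) (γ : C ≃ₐ[K] C)
    (a : AbsoluteValue C ℝ) (a' : AbsoluteValue C ℝ) (haa : ∀ c, a' c = a (γ c)) {ι : Type*} [Fintype ι]
    [DecidableEq ι] (x : F) (f : ι → F) :
    locF a' (fun j => algebraMap F Φ (f j) • KaehlerDifferential.D C Φ (algebraMap F Φ x)) =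
      locF a (fun j => algebraMap F Φ (f j) • KaehlerDifferential.D C Φ (algebraMap F Φ x)) := by
  obtain ⟨σ, hσ, hσf⟩ := lft hc γ
  have hs : ∀ c : C, σ (algebraMap C Φ c) = algebraMap C Φ (γ.toRingEquiv c) := hσ
  unfold locF
  congr 1
  ext r
  constructor
  · intro h
    exact liv_sub σ γ.toRingEquiv hs a a' haa (algebraMap F Φ x) (fun j => algebraMap F Φ (f j))
      (hσf x) (fun j => hσf (f j)) r h
  · intro h
    refine liv_sub σ.symm γ.toRingEquiv.symm (liv_symm σ γ.toRingEquiv hs) a' a ?_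
      (algebraMap F Φ x) (fun j => algebraMap F Φ (f j)) ?_ ?_ r h
    · intro c
      rw [haa]
      change a c = a (γ (γ.symm c))
      rw [γ.apply_symm_apply]
    · rw [RingEquiv.symm_apply_eq, hσf]
    · intro j
      rw [RingEquiv.symm_apply_eq, hσf]

end Pool.Agent.HFB
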