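import Pool.Agent.HFB.DefsR
import Pool.Agent.ESH.EVL
import Pool.Agent.Helper11.Chi

/-!
# HFB / LOC: the local rigidity lemma

Suppose not; let `-k < 0` be the minimal order at `R` of the `θ(a) ≠ 0`, `a ∈ A` (`hb`).  Every derivation is `D = (D π) d/dπ` (`der`), and `d/dπ` maps an element of order `j ≠ 0` to one of order `j - 1`, preserves `R.ge 0` (compare `π` with `R.unif`: `dv_mem_ge`, `ord_dv`, `der_chain`).
Case `R.ord (D π) = 0`: take `a` with `ord θ(a) = -k`: `D θ(a)` has order `-k - 1`, `θ(D a) ∈ R.ge (-k)`: the difference has order `-k - 1 < 0`, contradiction to `h2`.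
Case `R.ord (D π) = 1`: `α = ev R (D π / π) ≠ 0`, and `D f ≡ j α f` modulo `R.ge (j + 1)` for `f` of order `j`.  Put `λ(a) = ev R (π^k θ(a))` for `a ∈ A`; `λ` is additive, `λ(a b) = a(R) λ(b) + b(R) λ(a)` (from `h1`, as `k ≥ 1`), `λ(1) = 0`, `λ(c) = 0` for constants (`θ` is `C`-linear).
If `b ∈ A` has order `≥ 2`, then `λ(b) = 0`: `b = π² f`, `s ∈ A` with `s(R) ≠ 0`, `s f ∈ A` (`hf`); `s b = π · (π s f)`, so `λ(s b) = 0`, and `λ(s b) = s(R) λ(b)`.  So for `a ∈ A`, `λ(a) = a_1 λ(π)`, `a ≡ a(R) + a_1 π`; hence `λ(π) ≠ 0`, `θ(π)` has order `-k`.  `D π ≡ α π` modulo order 2, so `λ(D π) = α λ(π)`, and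
`ev R (π^k D θ(π)) = - k α λ(π)`.  `h2` for `π`: `- k α λ(π) - α λ(π) = 0`: contradiction in characteristic zero.
-/

namespace Pool.Agent.HFB

open Polynomial Pool.Agent.Helper11 Pool.Agent.ESH

variable {K Φ : Type*} [Field K] [Field Φ] [Algebra K Φ] [FunField K Φ] [CharZero K] [IsAlgClosed K]

private theorem loc_der (R : Place K Φ) (D : Derivation K Φ Φ) (f : Φ) :
    D f = D R.unif * R.dv f := by
  have h := D_eq_der_smul R.transcendental_unif f
  have h1 := congrArg D.liftKaehlerDifferential h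
  rw [Derivation.liftKaehlerDifferential_comp_D, map_smul,
    Derivation.liftKaehlerDifferential_comp_D, smul_eq_mul] at h1
  rw [h1, mul_comm]
  rfl

theorem loc (R : Place K Φ) (A : Subring Φ) (hA : ∀ a ∈ A, a ∈ R.ge 0) (hK : ∀ c : K, algebraMap K Φ c ∈ A)
    (hf : ∀ f ∈ R.ge 0, ∃ s ∈ A, ev R s ≠ 0 ∧ s * f ∈ A) (π : Φ) (hπ : π ∈ A) (hπ1 : R.ord π = 1)
    (D : Derivation K Φ Φ) (hD : ∀ a ∈ A, D a ∈ A) (hDπ : D π ≠ 0 ∧ (R.ord (D π) = 0 ∨ R.ord (D π) = 1))
    (θ : Φ →ₗ[K] Φ) (h1 : ∀ a ∈ A, ∀ b ∈ A, θ (a * b) - a * θ b - b * θ a ∈ R.ge 0)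
    (h2 : ∀ a ∈ A, D (θ a) - θ (D a) ∈ R.ge 0) (hb : ∃ m : ℕ, ∀ a ∈ A, θ a ∈ R.ge (-m)) :
    ∀ a ∈ A, θ a ∈ R.ge 0 := by
  classical
  have hπ0 : π ≠ 0 := R.ne_zero_of_ord_ne_zero (by rw [hπ1]; decide)
  set k := Nat.find hb with hkdef
  have hk : ∀ a ∈ A, θ a ∈ R.ge (-k) := Nat.find_spec hb
  by_cases hk0 : k = 0
  · intro a ha
    have := hk a ha
    rw [hk0] at this
    simpa using this
  exfalso
  have hk1 : 1 ≤ k := Nat.one_le_iff_ne_zero.2 hk0
  have hmin : ∃ a ∈ A, θ a ∉ R.ge (-((k - 1 : ℕ) : ℤ)) := by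
    have h := Nat.find_min hb (m := k - 1) (by omega)
    push Not at h
    exact h
  obtain ⟨a₀, ha₀, hθ₀⟩ := hmin
  have hπge : π ∈ R.ge 1 := R.mem_ge_of_le (by rw [hπ1])
  have hπk : ∀ n : ℕ, π ^ n ∈ R.ge n := fun n => by
    apply R.mem_ge_of_le
    rw [R.ord_pow, hπ1, mul_one]
  have hg : ∀ a ∈ A, π ^ k * θ a ∈ R.ge 0 := fun a ha => by
    have := R.mul_mem_ge (hπk k) (hk a ha)
    simpa using this
  have hge1 : ∀ x ∈ R.ge 0, π ^ k * x ∈ R.ge 1 := fun x hx => by
    have := R.mul_mem_ge (hπk k) hx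
    refine R.ge_anti ?_ this
    omega
  set lam : Φ → K := fun a => ev R (π ^ k * θ a) with hlam
  have hadd : ∀ a ∈ A, ∀ b ∈ A, lam (a + b) = lam a + lam b := fun a ha b hb => by
    simp only [hlam]
    rw [map_add, mul_add, evl_add R (hg a ha) (hg b hb)]
  have hmul : ∀ a ∈ A, ∀ b ∈ A, lam (a * b) = ev R a * lam b + ev R b * lam a := by
    intro a ha b hb
    have h := hge1 _ (h1 a ha b hb)
    have e : π ^ k * (θ (a * b) - a * θ b - b * θ a) =
        π ^ k * θ (a * b) - (a * (π ^ k * θ b) + b * (π ^ k * θ a)) := by ring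
    rw [e] at h
    have m1 : a * (π ^ k * θ b) ∈ R.ge 0 := by
      have := R.mul_mem_ge (hA a ha) (hg b hb)
      simpa using this
    have m2 : b * (π ^ k * θ a) ∈ R.ge 0 := by
      have := R.mul_mem_ge (hA b hb) (hg a ha)
      simpa using this
    have m3 := sub_mem (hg _ (mul_mem ha hb)) (add_mem m1 m2)
    have h3 := (evl_zero_iff R m3).2 h
    rw [evl_sub R (hg _ (mul_mem ha hb)) (add_mem m1 m2), evl_add R m1 m2,
      evl_mul R (hA a ha) (hg b hb), evl_mul R (hA b hb) (hg a ha)] at h3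
    exact sub_eq_zero.1 h3
  have hev1 : ev R (1 : Φ) = 1 := by
    have := evl_const R (1 : K)
    rwa [map_one] at this
  have hlam1 : lam 1 = 0 := by
    have h := hmul 1 (one_mem A) 1 (one_mem A)
    rw [mul_one, hev1, one_mul] at h
    have : lam 1 + lam 1 = lam 1 + 0 := by rw [← h, add_zero]
    exact add_left_cancel this
  have hconst : ∀ c : K, lam (algebraMap K Φ c) = 0 := by
    intro c
    simp only [hlam] at hlam1 ⊢
    have h3 := (evl_zero_iff R (hg 1 (one_mem A))).1 hlam1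
    have e : π ^ k * θ (algebraMap K Φ c) = c • (π ^ k * θ 1) := by
      rw [Algebra.algebraMap_eq_smul_one, map_smul, mul_smul_comm]
    rw [evl_zero_iff R (hg _ (hK c)), e]
    exact R.smul_mem_ge c h3
  have hevπ : ev R π = 0 := (evl_zero_iff R (hA π hπ)).2 hπge
  have hsq : ∀ b ∈ A, b ∈ R.ge 2 → lam b = 0 := by
    intro b hbA hb2
    have hf0 : b / π ^ 2 ∈ R.ge 0 := by
      by_cases hb0 : b = 0
      · rw [hb0, zero_div]
        exact zero_mem _
      · apply R.mem_ge_of_le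
        rw [R.ord_div hb0 (pow_ne_zero _ hπ0), R.ord_pow, hπ1]
        have := R.le_ord_of_mem hb2 hb0
        push_cast
        omega
    obtain ⟨s, hs, hs0, hsf⟩ := hf _ hf0
    have e1 : s * b = π * (π * (s * (b / π ^ 2))) := by
      field_simp
    have m1 : π * (s * (b / π ^ 2)) ∈ A := mul_mem hπ hsf
    have h3 := hmul π hπ _ m1
    have h4 : ev R (π * (s * (b / π ^ 2))) = 0 := by
      rw [evl_mul R (hA π hπ) (hA _ hsf), hevπ, zero_mul]
    rw [← e1, hevπ, h4, zero_mul, zero_mul, add_zero] at h3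
    have h5 := hmul s hs b hbA
    have h6 : ev R b = 0 := (evl_zero_iff R (hA b hbA)).2 (R.ge_anti (by norm_num) hb2)
    rw [h3, h6, zero_mul, add_zero] at h5
    exact (mul_eq_zero.1 h5.symm).resolve_left hs0
  have hlin : ∀ a ∈ A, lam a = ev R ((a - algebraMap K Φ (ev R a)) / π) * lam π := by
    intro a ha
    set c := ev R a with hc
    set a' := a - algebraMap K Φ c with ha'
    have m1 : a' ∈ R.ge 1 := evl_mem R (hA a ha)
    have mA : a' ∈ A := sub_mem ha (hK c)
    have m2 : a' / π ∈ R.ge 0 := by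
      by_cases h0 : a' = 0
      · rw [h0, zero_div]
        exact zero_mem _
      · apply R.mem_ge_of_le
        rw [R.ord_div h0 hπ0, hπ1]
        have := R.le_ord_of_mem m1 h0
        omega
    set c₁ := ev R (a' / π) with hc₁
    have m3 : a' / π - algebraMap K Φ c₁ ∈ R.ge 1 := evl_mem R m2
    have m4 : a' - algebraMap K Φ c₁ * π ∈ R.ge 2 := by
      have h := R.mul_mem_ge m3 hπge
      have e : (a' / π - algebraMap K Φ c₁) * π = a' - algebraMap K Φ c₁ * π := by
        field_simp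
      rw [e] at h
      exact h
    have m5 : a' - algebraMap K Φ c₁ * π ∈ A := sub_mem mA (mul_mem (hK c₁) hπ)
    have h3 := hsq _ m5 m4
    have h4 := hadd _ m5 _ (mul_mem (hK c₁) hπ)
    rw [sub_add_cancel, h3, zero_add, hmul _ (hK c₁) π hπ, evl_const, hconst, mul_zero,
      add_zero] at h4
    have h5 := hadd _ mA _ (hK c)
    rw [hconst, add_zero, h4, ha', sub_add_cancel] at h5
    exact h5
  have hlam₀ : lam a₀ ≠ 0 := by
    intro h
    apply hθ₀
    have h3 := (evl_zero_iff R (hg a₀ ha₀)).1 h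
    by_cases h0 : θ a₀ = 0
    · rw [h0]
      exact zero_mem _
    · apply R.mem_ge_of_le
      have h4 := R.le_ord_of_mem h3 (mul_ne_zero (pow_ne_zero _ hπ0) h0)
      rw [R.ord_mul _ _ (pow_ne_zero _ hπ0) h0, R.ord_pow, hπ1] at h4
      omega
  have hlamπ : lam π ≠ 0 := by
    intro h
    apply hlam₀
    rw [hlin a₀ ha₀, h, mul_zero]
  -- the derivation
  obtain ⟨hDπ0, hδ⟩ := hDπ
  have hdvπ := R.ord_dv_unif' hπ1
  have hDe := loc_der R D π
  have hu0 : D R.unif ≠ 0 := by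
    intro h
    rw [h, zero_mul] at hDe
    exact hDπ0 hDe
  have hu : R.ord (D R.unif) = R.ord (D π) := by
    have h := R.ord_mul _ _ hu0 hdvπ.1
    rw [← hDe, hdvπ.2, add_zero] at h
    exact h.symm
  rcases hδ with hδ | hδ
  · -- order zero
    have h0 : θ a₀ ≠ 0 := by
      intro h
      apply hθ₀
      rw [h]
      exact zero_mem _
    have hord : R.ord (θ a₀) = -k := by
      have h3 := R.le_ord_of_mem (hk a₀ ha₀) h0
      have h4 : ¬ (-((k - 1 : ℕ) : ℤ)) ≤ R.ord (θ a₀) := fun h => hθ₀ (R.mem_ge_of_le h)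
      omega
    have h3 := R.ord_dv (y := θ a₀) (by rw [hord]; omega)
    have h4 : R.ord (D (θ a₀)) = -k - 1 := by
      rw [loc_der R D, R.ord_mul _ _ hu0 h3.1, hu, hδ, h3.2, hord, zero_add]
    have h5 : D (θ a₀) ∈ R.ge (-k) := by
      have h6 := add_mem (R.ge_anti (by omega : (-(k : ℤ)) ≤ 0) (h2 a₀ ha₀)) (hk _ (hD a₀ ha₀))
      rwa [sub_add_cancel] at h6
    have h6 : D (θ a₀) ≠ 0 := by
      rw [loc_der R D]
      exact mul_ne_zero hu0 h3.1
    have h7 := R.le_ord_of_mem h5 h6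
    omega
  · -- order one
    set w := D π / π with hw
    have hw0 : w ≠ 0 := div_ne_zero hDπ0 hπ0
    have hword : R.ord w = 0 := by
      rw [hw, R.ord_div hDπ0 hπ0, hδ, hπ1]
      rfl
    have hwge : w ∈ R.ge 0 := R.mem_ge_of_le (by rw [hword])
    have hα : ev R w ≠ 0 := by
      intro h
      have h3 := R.le_ord_of_mem ((evl_zero_iff R hwge).1 h) hw0
      omega
    have hDπw : D π = w * π := by
      rw [hw]
      field_simp
    have hDge : ∀ x ∈ R.ge 0, D x ∈ R.ge 1 := by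
      intro x hx
      rw [loc_der R D]
      have := R.mul_mem_ge (R.mem_ge_of_le (x := D R.unif) (n := 1) (by rw [hu, hδ]))
        (R.dv_mem_ge_zero hx)
      simpa using this
    have hDπA := hD π hπ
    have hDπ1 : D π ∈ R.ge 1 := R.mem_ge_of_le (by rw [hδ])
    have hl : lam (D π) = ev R w * lam π := by
      have h3 := hlin _ hDπA
      have h4 : ev R (D π) = 0 := (evl_zero_iff R (hA _ hDπA)).2 hDπ1
      rw [h4, map_zero, sub_zero] at h3
      exact h3
    have e1 : π ^ k * D (θ π) = D (π ^ k * θ π) - (k : Φ) * (w * (π ^ k * θ π)) := by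
      obtain ⟨k', hk'⟩ := Nat.exists_eq_succ_of_ne_zero hk0
      rw [Derivation.leibniz, Derivation.leibniz_pow, hDπw, hk']
      simp only [Nat.succ_eq_add_one, Nat.add_sub_cancel, smul_eq_mul, nsmul_eq_mul]
      push_cast
      ring
    have mg := hg π hπ
    have mw : w * (π ^ k * θ π) ∈ R.ge 0 := by
      have := R.mul_mem_ge hwge mg
      simpa using this
    have mk : (k : Φ) * (w * (π ^ k * θ π)) ∈ R.ge 0 := by
      have := R.mul_mem_ge (R.natCast_mem_ge k) mw
      simpa using this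
    have mD := hDge _ mg
    have mD0 : D (π ^ k * θ π) ∈ R.ge 0 := R.ge_anti (by norm_num) mD
    have hk_ev : ev R ((k : Φ)) = k := by
      have := evl_const R (k : K)
      rwa [map_natCast] at this
    have h3 : ev R (π ^ k * D (θ π)) = -((k : K) * (ev R w * lam π)) := by
      rw [e1, evl_sub R mD0 mk, (evl_zero_iff R mD0).2 mD, evl_mul R (R.natCast_mem_ge k) mw,
        hk_ev, evl_mul R hwge mg, zero_sub]
    have h4 : π ^ k * (D (θ π) - θ (D π)) ∈ R.ge 1 := hge1 _ (h2 π hπ)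
    have m5 : π ^ k * D (θ π) ∈ R.ge 0 := by
      rw [e1]
      exact sub_mem mD0 mk
    have h5 : ev R (π ^ k * D (θ π)) = lam (D π) := by
      rw [mul_sub] at h4
      have h6 := (evl_zero_iff R (sub_mem m5 (hg _ hDπA))).2 h4
      rw [evl_sub R m5 (hg _ hDπA)] at h6
      exact sub_eq_zero.1 h6
    rw [h3, hl] at h5
    have h6 : ((k : K) + 1) * (ev R w * lam π) = 0 := by linear_combination -h5
    rcases mul_eq_zero.1 h6 with h7 | h7
    · have : ((k + 1 : ℕ) : K) ≠ 0 := Nat.cast_ne_zero.2 (Nat.succ_ne_zero k)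
      push_cast at this
      exact this h7
    · exact (mul_ne_zero hα hlamπ) h7

end Pool.Agent.HFB
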