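import Pool.Agent.HFB.SYS
import Pool.Agent.HFB.COH
import Pool.Agent.HFB.LOC

/-!
# HFB / RIG: infinitesimal rigidity of Belyi functions

`k = C(x)`, `u` is a basis of `Φ/k` (`rgm_ind`, `rgm_span`).  `μ` = the `k`-bilinear map with `μ(u_i, u_j) = ∑ c'_ijk(x) u_k`: symmetric, and the linearised associativity gives the cocycle identity of COH.  So `μ(a, b) = a θ(b) + b θ(a) - θ(ab)` with `θ` `k`-linear.  Let `∇ = x (x-1) d/dx` and `ν` the `k`-linear map `u_i ↦ ∑ N'_ik(x) u_k`.
The linearised Leibniz rule: `∇(μ(a,b)) + ν(ab) = μ(∇a, b) + μ(a, ∇b) + a ν(b) + b ν(a)` (for `a, b` among the `u_i`, then for all `a, b`: both sides are compatible with multiplication by elements of `k`).  Hence `κ = ν - [∇, θ]` is a `k`-linear derivation of `Φ`, so `κ = 0` (`Φ/k` algebraic, characteristic zero).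
Finite places: `A` = the ring of functions without poles at finite values of `x` = `⊕ C[x] u_i` (`span`; every such function satisfies `PolB m` for some `m`).  `μ(A, A) ⊆ A`, `ν(A) ⊆ A`.  LOC for every `R` with `0 ≤ R.ord x`: `hf` and `π` from Helper11 `exists_frac` (Chi) (`π` = numerator of `R.unif`), `∇ A ⊆ A` (`scx_der`);
`ord ∇π`: `dπ/dx` has order `1 - e`, so `ord ∇π = 0` if `x(R) ≠ 0, 1` (`e = 1`), `= 1` if `x(R) ∈ {0, 1}`; `hb`: `A` is generated over `C[x]` by the `u_i` and `θ(p(x) u_i) = p(x) θ(u_i)`.  So `θ(A) ⊆ A`.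
Poles of `x`: `A' ` = the functions with poles only at the zeros of `x` `= ⊕ C[1/x] x^(-d_i) u_i` (for `f ∈ A'` and `m` large `x^m f` satisfies `PolB m`; `span`), `∇' = x⁻¹ ∇`, `[∇', θ] = x⁻¹ ν`.  `μ(A', A') ⊆ A'` and `x⁻¹ ν(A') ⊆ A'`, `∇'(A') ⊆ A'` by the degree bounds (`degc`, `degN` of `LSys`; for `∇'`: orders, or `N`).
`ord ∇'π = 1` at a pole: `dπ/dx` has order `1 + e`, `x - 1` has order `- e`.  LOC: `θ(A') ⊆ R.ge 0` at the poles.
So `θ(u_i)` satisfies `PolB d_i`, and `θ(u_i) = ∑ θ_ij(x) u_j` with `deg θ_ij ≤ d_i - d_j`.  Comparing coefficients: `c'_ijk u_k = μ(u_i, u_j) = u_i θ(u_j) + u_j θ(u_i) - θ(u_i u_j)` and `ν(u_i) = ∇ θ(u_i) - θ(∇ u_i)` are the formulas of `psiC` and `psiN`.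
-/

namespace Pool.Agent.HFB

open Polynomial Pool.Agent.Helper11 Pool.Agent.ESH

variable {K Φ : Type*} [Field K] [Field Φ] [Algebra K Φ] [FunField K Φ] [CharZero K] [IsAlgClosed K]
  {x : Φ} {n : ℕ} {d : Fin n → ℕ} {u : Fin n → Φ}

private noncomputable def rT (x : Φ) (u : Fin n → Φ) (f : Fin n → K[X]) : Φ := ∑ m, aeval x (f m) * u m

omit [FunField K Φ] [CharZero K] [IsAlgClosed K] in
private theorem rT_add (x : Φ) (u : Fin n → Φ) (f g : Fin n → K[X]) :
    rT x u (fun m => f m + g m) = rT x u f + rT x u g := by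
  simp only [rT, map_add, add_mul, Finset.sum_add_distrib]

omit [FunField K Φ] [CharZero K] [IsAlgClosed K] in
private theorem rT_sub (x : Φ) (u : Fin n → Φ) (f g : Fin n → K[X]) :
    rT x u (fun m => f m - g m) = rT x u f - rT x u g := by
  simp only [rT, map_sub, sub_mul, Finset.sum_sub_distrib]

omit [FunField K Φ] [CharZero K] [IsAlgClosed K] in
private theorem rT_zero (x : Φ) (u : Fin n → Φ) : rT x u (fun _ => (0 : K[X])) = 0 := by
  simp only [rT, map_zero, zero_mul, Finset.sum_const_zero]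

omit [FunField K Φ] [CharZero K] [IsAlgClosed K] in
private theorem rT_mul (x : Φ) (u : Fin n → Φ) (p : K[X]) (f : Fin n → K[X]) :
    aeval x p * rT x u f = rT x u (fun m => p * f m) := by
  simp only [rT, map_mul, mul_assoc, Finset.mul_sum]

omit [FunField K Φ] [CharZero K] [IsAlgClosed K] in
private theorem rT_sum (x : Φ) (u : Fin n → Φ) (p : Fin n → K[X]) (q : Fin n → Fin n → K[X]) :
    ∑ l, aeval x (p l) * rT x u (q l) = rT x u (fun m => ∑ l, p l * q l m) := by
  simp only [rT, map_sum, map_mul, Finset.mul_sum, Finset.sum_mul, mul_assoc]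
  exact Finset.sum_comm

omit [FunField K Φ] [CharZero K] [IsAlgClosed K] in
private theorem rT_mul_left {c : Fin n → Fin n → Fin n → K[X]} (h : ∀ i j, u i * u j = rT x u (c i j))
    (i : Fin n) (f : Fin n → K[X]) : u i * rT x u f = rT x u (fun m => ∑ l, f l * c i l m) := by
  rw [← rT_sum, rT, Finset.mul_sum]
  refine Finset.sum_congr rfl fun l _ => ?_
  rw [← h i l]
  ring

omit [FunField K Φ] [CharZero K] [IsAlgClosed K] in
private theorem rT_mul_right {c : Fin n → Fin n → Fin n → K[X]} (h : ∀ i j, u i * u j = rT x u (c i j))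
    (i : Fin n) (f : Fin n → K[X]) : rT x u f * u i = rT x u (fun m => ∑ l, f l * c l i m) := by
  rw [← rT_sum, rT, Finset.sum_mul]
  refine Finset.sum_congr rfl fun l _ => ?_
  rw [← h l i]
  ring

omit [FunField K Φ] [CharZero K] [IsAlgClosed K] in
/-- a map commuting with the multiplication by polynomials in `x` on `rT` -/
private theorem rT_map (φ : Φ →+ Φ) (hφ : ∀ (p : K[X]) (a : Φ), φ (aeval x p * a) = aeval x p * φ a)
    {g : Fin n → Fin n → K[X]} (hg : ∀ l, φ (u l) = rT x u (g l)) (f : Fin n → K[X]) :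
    φ (rT x u f) = rT x u (fun m => ∑ l, f l * g l m) := by
  rw [← rT_sum, rT, map_sum]
  refine Finset.sum_congr rfl fun l _ => ?_
  rw [hφ, hg]

private theorem rT_frac (hu : RBas K x d u) (a : Φ) :
    ∃ q : K[X], aeval x q ≠ 0 ∧ ∃ f : Fin n → K[X], aeval x q * a = rT x u f := by
  obtain ⟨q, hq, m, hm⟩ := rgm_frac hu.tr a
  obtain ⟨p, -, hp⟩ := hu.span m _ hm
  refine ⟨q, fun h => hu.tr ⟨q, hq, h⟩, p, hp⟩

private theorem rT_ext (hu : RBas K x d u) (G : Φ →+ Φ)
    (hmul : ∀ (p : K[X]) (a : Φ), G (aeval x p * a) = aeval x p * G a) (h0 : ∀ i, G (u i) = 0) (a : Φ) :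
    G a = 0 := by
  obtain ⟨q, hq, f, hf⟩ := rT_frac hu a
  have h1 := hmul q a
  rw [hf, rT, map_sum] at h1
  have h2 : ∑ l, G (aeval x (f l) * u l) = 0 := by
    refine Finset.sum_eq_zero fun l _ => ?_
    rw [hmul, h0, mul_zero]
  rw [h2] at h1
  exact (mul_eq_zero.1 h1.symm).resolve_left hq

/-- the derivation `x (x - 1) d/dx` -/
private noncomputable def rD {x : Φ} (hx : Transcendental K x) : Derivation K Φ Φ := (x * (x - 1)) • der hx

omit [IsAlgClosed K] in
private theorem rD_apply {x : Φ} (hx : Transcendental K x) (a : Φ) :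
    rD hx a = x * (x - 1) * der hx a := rfl

omit [IsAlgClosed K] in
private theorem rD_mul {x : Φ} (hx : Transcendental K x) (a b : Φ) :
    rD hx (a * b) = a * rD hx b + b * rD hx a := by
  rw [Derivation.leibniz, smul_eq_mul, smul_eq_mul]

omit [IsAlgClosed K] in
private theorem rD_aeval {x : Φ} (hx : Transcendental K x) (p : K[X]) :
    rD hx (aeval x p) = aeval x (X * (X - 1) * derivative p) := by
  rw [rD_apply, (der hx).map_aeval, der_self, smul_eq_mul, mul_one]
  simp

omit [IsAlgClosed K] in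
private theorem rD_u {x : Φ} (hx : Transcendental K x) {c : Fin n → Fin n → Fin n → K[X]}
    {N : Fin n → Fin n → K[X]} (h : SCon x u c N) (i : Fin n) : rD hx (u i) = rT x u (N i) := by
  have h1 := h.der i
  rw [D_eq_der_smul hx (u i), smul_smul] at h1
  exact (kaehlerEquiv hx).injective h1

omit [IsAlgClosed K] in
private theorem rD_T {x : Φ} (hx : Transcendental K x) {N : Fin n → Fin n → K[X]}
    (hN : ∀ i, rD hx (u i) = rT x u (N i)) (f : Fin n → K[X]) :
    rD hx (rT x u f) = rT x u (fun m => X * (X - 1) * derivative (f m) + ∑ l, f l * N l m) := by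
  rw [rT_add, ← rT_sum, rT, map_sum, rT, ← Finset.sum_add_distrib]
  refine Finset.sum_congr rfl fun l _ => ?_
  rw [rD_mul, rD_aeval, hN]
  ring

omit [IsAlgClosed K] in
private theorem drv_zero {x : Φ} (hx : Transcendental K x) (κ : Derivation K Φ Φ) (h : κ x = 0) (a : Φ) :
    κ a = 0 := by
  have h1 : ∀ y, κ y = κ.liftKaehlerDifferential (KaehlerDifferential.D K Φ y) := fun y =>
    (Derivation.liftKaehlerDifferential_comp_D κ y).symm
  rw [h1, D_eq_der_smul hx a, map_smul, ← h1, h, smul_zero]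

/-- Hochschild coboundary and the `C(x)`-linear map of the perturbation of the derivation -/
private theorem rig_maps (hu : RBas K x d u) {c : Fin n → Fin n → Fin n → K[X]}
    {N : Fin n → Fin n → K[X]} (h : SCon x u c N) {c' : Fin n → Fin n → Fin n → K[X]}
    {N' : Fin n → Fin n → K[X]} (hL : LSys d c N c' N') :
    ∃ θ ν : Φ →ₗ[K] Φ, (∀ (p : K[X]) (a : Φ), θ (aeval x p * a) = aeval x p * θ a) ∧
      (∀ (p : K[X]) (a : Φ), ν (aeval x p * a) = aeval x p * ν a) ∧
      (∀ i j, u i * θ (u j) + u j * θ (u i) - θ (u i * u j) = rT x u (c' i j)) ∧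
      (∀ i, ν (u i) = rT x u (N' i)) := by
  classical
  let k := IntermediateField.adjoin K {x}
  have hsm : ∀ (p : K[X]) (y : Φ), (aeval (IntermediateField.AdjoinSimple.gen K x) p : k) • y = aeval x p * y := by
    intro p y
    rw [Algebra.smul_def]
    congr 1
    rw [← aeval_algebraMap_apply]
    rfl
  let b : Module.Basis (Fin n) k Φ := Module.Basis.mk (rgm_ind hu) (rgm_span hu).ge
  have hb : ∀ i, b i = u i := fun i => by simp [b]
  let μ : Φ →ₗ[k] Φ →ₗ[k] Φ := b.constr k fun i => b.constr k fun j => rT x u (c' i j)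
  let ν : Φ →ₗ[k] Φ := b.constr k fun i => rT x u (N' i)
  have hμu : ∀ i j, μ (u i) (u j) = rT x u (c' i j) := by
    intro i j
    rw [← hb i, ← hb j]
    simp only [μ]
    rw [b.constr_basis, b.constr_basis]
  have hνu : ∀ i, ν (u i) = rT x u (N' i) := by
    intro i
    rw [← hb i]
    simp only [ν]
    rw [b.constr_basis]
  have hμ1 : ∀ (p : K[X]) (a e : Φ), μ (aeval x p * a) e = aeval x p * μ a e := by
    intro p a e
    rw [← hsm, map_smul, LinearMap.smul_apply, hsm]
  have hμ2 : ∀ (p : K[X]) (a e : Φ), μ a (aeval x p * e) = aeval x p * μ a e := by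
    intro p a e
    rw [← hsm, map_smul, hsm]
  have hmul : ∀ i j, u i * u j = rT x u (c i j) := h.mul
  have hc : ∀ a b c, a * μ b c - μ (a * b) c + μ a (b * c) - μ a b * c = 0 := by
    -- reduction to the basis
    have h1 : ∀ i j l, u i * μ (u j) (u l) - μ (u i * u j) (u l) + μ (u i) (u j * u l) - μ (u i) (u j) * u l = 0 := by
      intro i j l
      have e1 : μ (u i) (rT x u (c j l)) = rT x u (fun m => ∑ s, c j l s * c' i s m) :=
        rT_map (μ (u i)).toAddMonoidHom (fun p a => hμ2 p _ a) (fun m => hμu i m) _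
      have e2 : μ (rT x u (c i j)) (u l) = rT x u (fun m => ∑ s, c i j s * c' s l m) :=
        rT_map (μ.flip (u l)).toAddMonoidHom (fun p a => hμ1 p a _) (fun m => hμu m l) _
      rw [hμu, hμu, hmul i j, hmul j l, rT_mul_left hmul, rT_mul_right hmul, e1, e2,
        ← rT_sub, ← rT_add, ← rT_sub, ← rT_zero (K := K) x u]
      congr 1
      funext m
      have h2 := hL.assoc i j l m
      rw [Finset.sum_add_distrib, Finset.sum_add_distrib] at h2
      linear_combination -h2
    have h2 : ∀ i j z, u i * μ (u j) z - μ (u i * u j) z + μ (u i) (u j * z) - μ (u i) (u j) * z = 0 := by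
      intro i j z
      let G : Φ →+ Φ := 
        { toFun := fun z => u i * μ (u j) z - μ (u i * u j) z + μ (u i) (u j * z) - μ (u i) (u j) * z
          map_zero' := by simp
          map_add' := by intro a e; simp only [map_add, mul_add]; ring }
      refine rT_ext hu G ?_ (fun l => h1 i j l) z
      intro p a
      change u i * μ (u j) (aeval x p * a) - μ (u i * u j) (aeval x p * a) + μ (u i) (u j * (aeval x p * a)) -
        μ (u i) (u j) * (aeval x p * a) = aeval x p * (u i * μ (u j) a - μ (u i * u j) a + μ (u i) (u j * a) - μ (u i) (u j) * a)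
      rw [mul_left_comm (u j), hμ2, hμ2, hμ2]
      ring
    have h3 : ∀ i y z, u i * μ y z - μ (u i * y) z + μ (u i) (y * z) - μ (u i) y * z = 0 := by
      intro i y z
      let G : Φ →+ Φ := 
        { toFun := fun y => u i * μ y z - μ (u i * y) z + μ (u i) (y * z) - μ (u i) y * z
          map_zero' := by simp
          map_add' := by intro a e; simp only [map_add, mul_add, add_mul, LinearMap.add_apply]; ring }
      refine rT_ext hu G ?_ (fun l => h2 i l z) y
      intro p a
      change u i * μ (aeval x p * a) z - μ (u i * (aeval x p * a)) z + μ (u i) ((aeval x p * a) * z) -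
        μ (u i) (aeval x p * a) * z = aeval x p * (u i * μ a z - μ (u i * a) z + μ (u i) (a * z) - μ (u i) a * z)
      rw [mul_left_comm (u i), mul_assoc (aeval x p), hμ1, hμ1, hμ2, hμ2]
      ring
    intro w y z
    let G : Φ →+ Φ := 
      { toFun := fun w => w * μ y z - μ (w * y) z + μ w (y * z) - μ w y * z
        map_zero' := by simp
        map_add' := by intro a e; simp only [map_add, add_mul, LinearMap.add_apply]; ring }
    refine rT_ext hu G ?_ (fun l => h3 l y z) w
    intro p a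
    change (aeval x p * a) * μ y z - μ ((aeval x p * a) * y) z + μ (aeval x p * a) (y * z) -
      μ (aeval x p * a) y * z = aeval x p * (a * μ y z - μ (a * y) z + μ a (y * z) - μ a y * z)
    rw [mul_assoc (aeval x p) a y, hμ1, hμ1, hμ1]
    ring
  have := FunField.finiteDimensional_adjoin hu.tr
  have : CharZero k := charZero_of_injective_algebraMap (algebraMap K k).injective
  obtain ⟨θ, hθ⟩ := coh μ hc
  refine ⟨θ.restrictScalars K, ν.restrictScalars K, ?_, ?_, ?_, ?_⟩
  · intro p a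
    change θ (aeval x p * a) = aeval x p * θ a
    rw [← hsm, map_smul, hsm]
  · intro p a
    change ν (aeval x p * a) = aeval x p * ν a
    rw [← hsm, map_smul, hsm]
  · intro i j
    exact (hθ (u i) (u j)).symm.trans (hμu i j)
  · exact hνu

private theorem rig_kappa (hu : RBas K x d u) {c : Fin n → Fin n → Fin n → K[X]}
    {N : Fin n → Fin n → K[X]} (h : SCon x u c N) {c' : Fin n → Fin n → Fin n → K[X]}
    {N' : Fin n → Fin n → K[X]} (hL : LSys d c N c' N') (θ ν : Φ →ₗ[K] Φ)
    (hθ : ∀ (p : K[X]) (a : Φ), θ (aeval x p * a) = aeval x p * θ a)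
    (hν : ∀ (p : K[X]) (a : Φ), ν (aeval x p * a) = aeval x p * ν a)
    (hc : ∀ i j, u i * θ (u j) + u j * θ (u i) - θ (u i * u j) = rT x u (c' i j))
    (hN : ∀ i, ν (u i) = rT x u (N' i)) (a : Φ) :
    ν a = rD hu.tr (θ a) - θ (rD hu.tr a) := by
  have hmul : ∀ i j, u i * u j = rT x u (c i j) := h.mul
  have hDu := rD_u hu.tr h
  set D := rD hu.tr with hD
  -- `μ`
  obtain ⟨μ, hμ⟩ : ∃ μ : Φ → Φ → Φ, ∀ a b, μ a b = a * θ b + b * θ a - θ (a * b) := ⟨_, fun _ _ => rfl⟩
  have hμu : ∀ i j, μ (u i) (u j) = rT x u (c' i j) := fun i j => by rw [hμ, hc]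
  have hμ1 : ∀ (p : K[X]) (a e : Φ), μ (aeval x p * a) e = aeval x p * μ a e := by
    intro p a e
    rw [hμ, hμ, hθ, mul_assoc (aeval x p) a e, hθ]
    ring
  have hμ2 : ∀ (p : K[X]) (a e : Φ), μ a (aeval x p * e) = aeval x p * μ a e := by
    intro p a e
    rw [hμ, hμ, hθ, mul_left_comm a (aeval x p) e, hθ]
    ring
  have hμa1 : ∀ a b e : Φ, μ (a + b) e = μ a e + μ b e := by
    intro a b e
    simp only [hμ, map_add, add_mul, mul_add]
    ring
  have hμa2 : ∀ a b e : Φ, μ e (a + b) = μ e a + μ e b := by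
    intro a b e
    simp only [hμ, map_add, add_mul, mul_add]
    ring
  have hμT1 : ∀ f j, μ (rT x u f) (u j) = rT x u (fun m => ∑ l, f l * c' l j m) := by
    intro f j
    let G : Φ →+ Φ :=
      { toFun := fun z => μ z (u j)
        map_zero' := by simp [hμ]
        map_add' := fun a b => hμa1 a b (u j) }
    exact rT_map G (fun p a => hμ1 p a _) (fun l => hμu l j) f
  have hμT2 : ∀ f j, μ (u j) (rT x u f) = rT x u (fun m => ∑ l, f l * c' j l m) := by
    intro f j
    let G : Φ →+ Φ :=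
      { toFun := fun z => μ (u j) z
        map_zero' := by simp [hμ]
        map_add' := fun a b => hμa2 a b (u j) }
    exact rT_map G (fun p a => hμ2 p _ a) (fun l => hμu j l) f
  have hνT : ∀ f, ν (rT x u f) = rT x u (fun m => ∑ l, f l * N' l m) := fun f =>
    rT_map ν.toAddMonoidHom hν hN f
  -- linearised Leibniz rule on the basis
  have h1 : ∀ i j, D (μ (u i) (u j)) + ν (u i * u j) - μ (D (u i)) (u j) - μ (u i) (D (u j)) -
      u i * ν (u j) - u j * ν (u i) = 0 := by
    intro i j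
    have e4 : u j * rT x u (N' i) = rT x u (fun m => ∑ l, N' i l * c l j m) := by
      rw [mul_comm, rT_mul_right hmul]
    rw [hμu, hmul i j, hDu, hDu, hN, hN, hμT1, hμT2, hνT, rD_T hu.tr hDu, rT_mul_left hmul, e4,
      ← rT_add, ← rT_sub, ← rT_sub, ← rT_sub, ← rT_sub, ← rT_zero (K := K) x u]
    congr 1
    funext m
    have h2 := hL.leib i j m
    simp only [Finset.sum_add_distrib] at h2
    linear_combination h2
  have h2 : ∀ i z, D (μ (u i) z) + ν (u i * z) - μ (D (u i)) z - μ (u i) (D z) - u i * ν z - z * ν (u i) = 0 := by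
    intro i z
    let G : Φ →+ Φ :=
      { toFun := fun z => D (μ (u i) z) + ν (u i * z) - μ (D (u i)) z - μ (u i) (D z) - u i * ν z - z * ν (u i)
        map_zero' := by simp [hμ]
        map_add' := by intro a e; simp only [map_add, mul_add, add_mul, hμa2]; ring }
    refine rT_ext hu G ?_ (fun l => h1 i l) z
    intro p a
    change D (μ (u i) (aeval x p * a)) + ν (u i * (aeval x p * a)) - μ (D (u i)) (aeval x p * a) -
      μ (u i) (D (aeval x p * a)) - u i * ν (aeval x p * a) - (aeval x p * a) * ν (u i) = aeval x p *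
      (D (μ (u i) a) + ν (u i * a) - μ (D (u i)) a - μ (u i) (D a) - u i * ν a - a * ν (u i))
    rw [mul_left_comm (u i), hμ2, hμ2, hν, hν, hD, rD_mul, rD_mul, hμa2, hμ2, rD_aeval,
      mul_comm a (aeval x (X * (X - 1) * derivative p)), hμ2]
    ring
  have h3 : ∀ y z, D (μ y z) + ν (y * z) - μ (D y) z - μ y (D z) - y * ν z - z * ν y = 0 := by
    intro y z
    let G : Φ →+ Φ :=
      { toFun := fun y => D (μ y z) + ν (y * z) - μ (D y) z - μ y (D z) - y * ν z - z * ν y
        map_zero' := by simp [hμ]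
        map_add' := by intro a e; simp only [map_add, mul_add, add_mul, hμa1]; ring }
    refine rT_ext hu G ?_ (fun l => h2 l z) y
    intro p a
    change D (μ (aeval x p * a) z) + ν ((aeval x p * a) * z) - μ (D (aeval x p * a)) z -
      μ (aeval x p * a) (D z) - (aeval x p * a) * ν z - z * ν (aeval x p * a) = aeval x p *
      (D (μ a z) + ν (a * z) - μ (D a) z - μ a (D z) - a * ν z - z * ν a)
    rw [mul_assoc (aeval x p) a z, hμ1, hμ1, hν, hν, hD, rD_mul, rD_mul, hμa1, hμ1, rD_aeval,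
      mul_comm a (aeval x (X * (X - 1) * derivative p)), hμ1]
    ring
  -- the derivation `κ`
  let κ0 : Φ →ₗ[K] Φ := ν - D.toLinearMap ∘ₗ θ + θ ∘ₗ D.toLinearMap
  have hκ0 : ∀ a, κ0 a = ν a - D (θ a) + θ (D a) := fun a => rfl
  have hleib : ∀ a b, κ0 (a * b) = a • κ0 b + b • κ0 a := by
    intro a b
    have e := h3 a b
    rw [hμ, hμ, hμ] at e
    simp only [map_add, map_sub] at e
    rw [hD] at e
    simp only [rD_mul] at e
    rw [mul_comm (rD hu.tr a) b] at e
    rw [hκ0, hκ0, hκ0, smul_eq_mul, smul_eq_mul, hD]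
    simp only [rD_mul, map_add]
    linear_combination e
  let κ : Derivation K Φ Φ := Derivation.mk' κ0 hleib
  have hκ : ∀ a, κ a = ν a - D (θ a) + θ (D a) := fun a => rfl
  have hκx : κ x = 0 := by
    have e1 : κ 1 = 0 := Derivation.map_one_eq_zero κ
    rw [hκ] at e1 ⊢
    have e2 := hν X 1
    have e3 := hθ X 1
    have e5 : θ (D x) = D x * θ 1 := by
      have e6 : D x = aeval x (X * (X - 1) * derivative (X : K[X])) := by
        rw [hD, ← rD_aeval, aeval_X]
      rw [e6]
      have := hθ (X * (X - 1) * derivative (X : K[X])) 1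
      rwa [mul_one] at this
    rw [aeval_X, mul_one] at e2 e3
    rw [e2, e3, e5, hD, rD_mul]
    rw [hD] at e1
    have e7 : rD hu.tr (1 : Φ) = 0 := Derivation.map_one_eq_zero _
    rw [e7, map_zero, add_zero] at e1
    linear_combination x * e1
  have := drv_zero hu.tr κ hκx a
  rw [hκ] at this
  linear_combination this

omit [FunField K Φ] [CharZero K] [IsAlgClosed K] in
private theorem ge_aeval_fin (R : Place K Φ) (hR : 0 ≤ R.ord x) (p : K[X]) : aeval x p ∈ R.ge 0 := by
  rw [aeval_eq_sum_range]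
  refine sum_mem fun i _ => R.smul_mem_ge _ ?_
  have := R.pow_mem_ge (R.mem_ge_of_le hR) i
  simpa using this

omit [FunField K Φ] [CharZero K] [IsAlgClosed K] in
private theorem ge_aeval_pole (R : Place K Φ) (hR : R.ord x ≤ 0) {p : K[X]} {e : ℕ} (he : p.natDegree ≤ e) :
    aeval x p ∈ R.ge (e * R.ord x) := by
  rw [aeval_eq_sum_range]
  refine sum_mem fun i hi => R.smul_mem_ge _ ?_
  have := R.pow_mem_ge (R.mem_ge_ord x) i
  refine R.ge_anti ?_ this
  have h1 : i ≤ e := by
    have := Finset.mem_range.1 hi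
    omega
  have h2 : (i : ℤ) ≤ e := by exact_mod_cast h1
  nlinarith

omit [FunField K Φ] [CharZero K] [IsAlgClosed K] in
private theorem polB_ge {m : ℕ} {f : Φ} (h : PolB K x m f) (R : Place K Φ) (hR : R.ord x ≤ 0) :
    f ∈ R.ge (m * R.ord x) := by
  rcases hR.lt_or_eq with h1 | h1
  · exact h.2 R h1
  · rw [h1, mul_zero]
    exact h.1 R h1.ge

omit [FunField K Φ] [CharZero K] [IsAlgClosed K] in
private theorem polB_aeval {p : K[X]} {e : ℕ} (he : p.natDegree ≤ e) : PolB K x e (aeval x p) :=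
  ⟨fun R hR => ge_aeval_fin R hR p, fun R hR => ge_aeval_pole R hR.le he⟩

omit [FunField K Φ] [CharZero K] [IsAlgClosed K] in
private theorem polB_sum {ι : Type*} (s : Finset ι) {m : ℕ} {f : ι → Φ} (h : ∀ i ∈ s, PolB K x m (f i)) :
    PolB K x m (∑ i ∈ s, f i) :=
  ⟨fun R hR => sum_mem fun i hi => (h i hi).1 R hR, fun R hR => sum_mem fun i hi => (h i hi).2 R hR⟩

omit [FunField K Φ] [CharZero K] [IsAlgClosed K] in
private theorem polB_zero {m : ℕ} : PolB K x m (0 : Φ) := ⟨fun _ _ => zero_mem _, fun _ _ => zero_mem _⟩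

private theorem polB_T (hu : RBas K x d u) {D : ℕ} {f : Fin n → K[X]}
    (hf : ∀ k s, D < s + d k → (f k).coeff s = 0) : PolB K x D (rT x u f) := by
  refine polB_sum _ fun k _ => ?_
  by_cases h0 : f k = 0
  · rw [h0, map_zero, zero_mul]
    exact polB_zero
  have h1 : (f k).natDegree + d k ≤ D := by
    by_contra hcon
    push Not at hcon
    have := hf k _ hcon
    rw [coeff_natDegree] at this
    exact h0 (leadingCoeff_eq_zero.1 this)
  have h2 := rgm_mul (polB_aeval (x := x) (e := D - d k) (p := f k) (by omega)) (hu.mem k)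
  rwa [show D - d k + d k = D by omega] at h2

/-- combination of the values on the basis -/
private theorem polB_lin (φ : Φ →+ Φ) (hφ : ∀ (p : K[X]) (a : Φ), φ (aeval x p * a) = aeval x p * φ a)
    (hu : RBas K x d u) {e : ℕ} (hg : ∀ l, PolB K x (d l + e) (φ (u l))) {m : ℕ} {a : Φ}
    (ha : PolB K x m a) : PolB K x (m + e) (φ a) := by
  obtain ⟨f, hf, rfl⟩ := hu.span m a ha
  rw [map_sum]
  refine polB_sum _ fun l _ => ?_
  rw [hφ]
  by_cases h0 : f l = 0
  · rw [h0, map_zero, zero_mul]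
    exact polB_zero
  have h1 := hf l h0
  have h2 := rgm_mul (polB_aeval (x := x) (e := m - d l) (p := f l) (by omega)) (hg l)
  rwa [show m - d l + (d l + e) = m + e by omega] at h2

private theorem ex_m (x a : Φ) : ∃ m : ℕ, ∀ R : Place K Φ, R.ord x ≠ 0 → a ∈ R.ge (-(m : ℤ)) := by
  classical
  have hfin := finite_ord_ne_zero (k := K) x
  refine ⟨hfin.toFinset.sup fun R => (-R.ord a).toNat, fun R hR => ?_⟩
  have h1 := Finset.le_sup (f := fun R : Place K Φ => (-R.ord a).toNat) (hfin.mem_toFinset.2 hR)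
  refine R.mem_ge_of_le ?_
  have h2 : (-R.ord a).toNat ≤ hfin.toFinset.sup fun R => (-R.ord a).toNat := h1
  omega

/-- functions regular at the places where `y` is regular -/
private def rO (K : Type*) {Φ : Type*} [Field K] [Field Φ] [Algebra K Φ] (y : Φ) : Subring Φ where
  carrier := {f | ∀ R : Place K Φ, y ∈ R.ge 0 → f ∈ R.ge 0}
  mul_mem' := by
    intro a b ha hb R hR
    have := R.mul_mem_ge (ha R hR) (hb R hR)
    rwa [add_zero] at this
  one_mem' := fun R _ => R.one_mem_ge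
  add_mem' := fun ha hb R hR => add_mem (ha R hR) (hb R hR)
  zero_mem' := fun R _ => zero_mem _
  neg_mem' := fun ha R hR => neg_mem (ha R hR)

omit [FunField K Φ] [CharZero K] [IsAlgClosed K] in
private theorem mem_rO {y f : Φ} : f ∈ rO K y ↔ ∀ R : Place K Φ, y ∈ R.ge 0 → f ∈ R.ge 0 := Iff.rfl

omit [IsAlgClosed K] in
private theorem rO_frac {y : Φ} (hy : Transcendental K y) (R : Place K Φ) (hR : y ∈ R.ge 0) {f : Φ}
    (hf : f ∈ R.ge 0) : ∃ s ∈ rO K y, R.ord s = 0 ∧ s ≠ 0 ∧ s * f ∈ rO K y := by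
  obtain ⟨a, b, hb, hb0, hab⟩ := R.exists_frac hy hR hf
  refine ⟨(b : Φ), fun R' hR' => R'.mem_ge_of_mem_Ox hR' b, hb0, hb, ?_⟩
  rw [mul_comm, hab]
  exact fun R' hR' => R'.mem_ge_of_mem_Ox hR' a

private theorem ev_ne {R : Place K Φ} {s : Φ} (h : R.ord s = 0) (h0 : s ≠ 0) : ev R s ≠ 0 := by
  intro h1
  have h2 := (evl_zero_iff R (R.mem_ge_of_le h.ge)).1 h1
  have := R.le_ord_of_mem h2 h0
  omega

omit [IsAlgClosed K] in
private theorem rO_unif {y : Φ} (hy : Transcendental K y) (R : Place K Φ) (hR : y ∈ R.ge 0) :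
    ∃ π ∈ rO K y, R.ord π = 1 := by
  obtain ⟨s, -, hs0, hs1, hs2⟩ := rO_frac hy R hR (f := R.unif) (R.mem_ge_of_le (by rw [R.ord_unif]; decide))
  refine ⟨s * R.unif, hs2, ?_⟩
  rw [R.ord_mul _ _ hs1 R.unif_ne_zero, hs0, R.ord_unif, zero_add]

omit [FunField K Φ] [CharZero K] [IsAlgClosed K] in
private theorem tr_ne {x : Φ} (hx : Transcendental K x) (c : K) : x - algebraMap K Φ c ≠ 0 := by
  intro h
  apply hx
  rw [sub_eq_zero.1 h]
  exact isAlgebraic_algebraMap c

omit [FunField K Φ] [CharZero K] [IsAlgClosed K] in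
private theorem tr_ne0 {x : Φ} (hx : Transcendental K x) : x ≠ 0 := by
  have := tr_ne hx 0
  rwa [map_zero, sub_zero] at this

omit [FunField K Φ] [CharZero K] [IsAlgClosed K] in
private theorem tr_ne1 {x : Φ} (hx : Transcendental K x) : x - 1 ≠ 0 := by
  have := tr_ne hx 1
  rwa [map_one] at this

/-- order of `dx/x(x-1)` -/
private theorem ord_cases (hβ : IsBelyi K x) (R : Place K Φ) (hR : 0 ≤ R.ord x) {π : Φ} (hπ : R.ord π = 1) :
    rD hβ.1 π ≠ 0 ∧ (R.ord (rD hβ.1 π) = 0 ∨ R.ord (rD hβ.1 π) = 1) := by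
  have hx0 := tr_ne0 hβ.1
  have hx1 := tr_ne1 hβ.1
  obtain ⟨h1, h2⟩ := R.ord_dv_unif' hπ
  have h3 : der hβ.1 R.unif ≠ 0 := der_ne_zero hβ.1 R.transcendental_unif
  have h4 := R.ord_der_unif hβ.1
  have h5 : der hβ.1 π = der hβ.1 R.unif * R.dv π := R.der_eq hβ.1 π
  have h6 : rD hβ.1 π = x * (x - 1) * (der hβ.1 R.unif * R.dv π) := by rw [rD_apply, h5]
  have h7 : R.ord (rD hβ.1 π) = R.ord x + R.ord (x - 1) - R.ord (R.dv x) := by
    rw [h6, R.ord_mul _ _ (mul_ne_zero hx0 hx1) (mul_ne_zero h3 h1), R.ord_mul _ _ hx0 hx1,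
      R.ord_mul _ _ h3 h1, h2, h4]
    ring
  refine ⟨by rw [h6]; exact mul_ne_zero (mul_ne_zero hx0 hx1) (mul_ne_zero h3 h1), ?_⟩
  rw [h7]
  obtain ⟨c, hc⟩ := R.exists_residue (R.mem_ge_of_le hR)
  have hc1 := R.le_ord_of_mem hc (tr_ne hβ.1 c)
  have h8 : R.ord (R.dv x) = R.ord (x - algebraMap K Φ c) - 1 := by
    have := (R.ord_dv (y := x - algebraMap K Φ c) (by omega)).2
    rwa [map_sub, Derivation.map_algebraMap, sub_zero] at this
  -- order of `x - c'` for `c' ≠ c`
  have h9 : ∀ c' : K, c' ≠ c → R.ord (x - algebraMap K Φ c') = 0 := by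
    intro c' hne
    have e1 : x - algebraMap K Φ c' = algebraMap K Φ (c - c') + (x - algebraMap K Φ c) := by
      rw [map_sub]; ring
    have e2 : algebraMap K Φ (c - c') ≠ 0 := by
      rw [Ne, map_eq_zero]
      exact sub_ne_zero.2 hne.symm
    have := (R.ord_add_eq_left e2 (y := x - algebraMap K Φ c) (Or.inr (by rw [R.ord_algebraMap]; omega))).2
    rw [e1, this, R.ord_algebraMap]
  have h90 : c ≠ 0 → R.ord x = 0 := by
    intro h
    have := h9 0 h.symm
    rwa [map_zero, sub_zero] at this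
  have h91 : c ≠ 1 → R.ord (x - 1) = 0 := by
    intro h
    have := h9 1 h.symm
    rwa [map_one] at this
  by_cases e0 : c = 0
  · subst e0
    rw [map_zero, sub_zero] at h8
    have := h91 (by norm_num)
    right
    omega
  by_cases e1 : c = 1
  · subst e1
    rw [map_one] at h8
    have := h90 (by norm_num)
    right
    omega
  · have := hβ.2 R c e0 e1
    have := h90 e0
    have := h91 e1
    left
    omega

/-- order of `(x - 1) dπ/dx` at the poles -/
private theorem ord_pole {x : Φ} (hx : Transcendental K x) (R : Place K Φ) (hR : R.ord x < 0) {π : Φ}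
    (hπ : R.ord π = 1) : x⁻¹ * rD hx π ≠ 0 ∧ R.ord (x⁻¹ * rD hx π) = 1 := by
  have hx0 := tr_ne0 hx
  have hx1 := tr_ne1 hx
  obtain ⟨h1, h2⟩ := R.ord_dv_unif' hπ
  have h3 : der hx R.unif ≠ 0 := der_ne_zero hx R.transcendental_unif
  have h4 := R.ord_der_unif hx
  have h5 : der hx π = der hx R.unif * R.dv π := R.der_eq hx π
  have h6 : x⁻¹ * rD hx π = (x - 1) * (der hx R.unif * R.dv π) := by
    rw [rD_apply, h5]
    field_simp
  have h8 := (R.ord_dv (y := x) (by omega)).2
  have h9 : R.ord (x - 1) = R.ord x := by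
    have := (R.ord_add_eq_left hx0 (y := -1) (Or.inr (by rw [R.ord_neg_one]; omega))).2
    rwa [← sub_eq_add_neg] at this
  refine ⟨by rw [h6]; exact mul_ne_zero hx1 (mul_ne_zero h3 h1), ?_⟩
  rw [h6, R.ord_mul _ _ hx1 (mul_ne_zero h3 h1), R.ord_mul _ _ h3 h1, h2, h4, h8, h9]
  ring

theorem rig (hβ : IsBelyi K x) (hu : RBas K x d u) {c : Fin n → Fin n → Fin n → K[X]}
    {N : Fin n → Fin n → K[X]} (h : SCon x u c N) {c' : Fin n → Fin n → Fin n → K[X]}
    {N' : Fin n → Fin n → K[X]} (hL : LSys d c N c' N') :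
    ∃ θ : Fin n → Fin n → K[X], (∀ i j s, d i < s + d j → (θ i j).coeff s = 0) ∧
      c' = psiC c θ ∧ N' = psiN N θ := by
  classical
  obtain ⟨θ, ν, hθ, hν, hc, hN⟩ := rig_maps hu h hL
  have hκ := rig_kappa hu h hL θ ν hθ hν hc hN
  have hx0 := tr_ne0 hu.tr
  have hmul : ∀ i j, u i * u j = rT x u (c i j) := h.mul
  have hDu := rD_u hu.tr h
  obtain ⟨μ, hμ⟩ : ∃ μ : Φ → Φ → Φ, ∀ a b, μ a b = a * θ b + b * θ a - θ (a * b) := ⟨_, fun _ _ => rfl⟩
  have hμu : ∀ i j, μ (u i) (u j) = rT x u (c' i j) := fun i j => by rw [hμ, hc]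
  have hμ1 : ∀ (p : K[X]) (a e : Φ), μ (aeval x p * a) e = aeval x p * μ a e := by
    intro p a e
    rw [hμ, hμ, hθ, mul_assoc (aeval x p) a e, hθ]
    ring
  have hμ2 : ∀ (p : K[X]) (a e : Φ), μ a (aeval x p * e) = aeval x p * μ a e := by
    intro p a e
    rw [hμ, hμ, hθ, mul_left_comm a (aeval x p) e, hθ]
    ring
  have hμa1 : ∀ a b e : Φ, μ (a + b) e = μ a e + μ b e := by
    intro a b e
    simp only [hμ, map_add, add_mul, mul_add]
    ring
  have hμa2 : ∀ a b e : Φ, μ e (a + b) = μ e a + μ e b := by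
    intro a b e
    simp only [hμ, map_add, add_mul, mul_add]
    ring
  have hxp : ∀ (m : ℕ), aeval x (X ^ m : K[X]) = x ^ m := fun m => by rw [map_pow, aeval_X]
  have hμB : ∀ (m m' : ℕ) (a b : Φ), PolB K x m a → PolB K x m' b → PolB K x (m + m') (μ a b) := by
    intro m m' a b ha hb
    let G : Φ →+ Φ :=
      { toFun := fun z => μ z b
        map_zero' := by simp [hμ]
        map_add' := fun a e => hμa1 a e b }
    refine polB_lin G (fun p a => hμ1 p a _) hu (fun l => ?_) ha
    let G' : Φ →+ Φ :=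
      { toFun := fun z => μ (u l) z
        map_zero' := by simp [hμ]
        map_add' := fun a e => hμa2 a e (u l) }
    rw [add_comm]
    refine polB_lin G' (fun p a => hμ2 p _ a) hu (fun j => ?_) hb
    change PolB K x (d j + d l) (μ (u l) (u j))
    rw [hμu]
    refine polB_T hu fun k s hs => hL.degc l j k s (by omega)
  have hνB : ∀ (m : ℕ) (a : Φ), PolB K x m a → PolB K x (m + 1) (ν a) := by
    intro m a ha
    refine polB_lin ν.toAddMonoidHom hν hu (fun l => ?_) ha
    change PolB K x (d l + 1) (ν (u l))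
    rw [hN]
    exact polB_T hu fun k s hs => hL.degN l k s hs
  have hDB : ∀ (m : ℕ) (a : Φ), PolB K x m a → PolB K x (m + 1) (rD hu.tr a) := fun m a ha =>
    scx_der hβ ha
  have hAB : ∀ a ∈ rO K x, ∃ m : ℕ, PolB K x m a := by
    intro a ha
    obtain ⟨m, hm⟩ := ex_m (K := K) x a
    refine ⟨m, fun R hR => ha R (R.mem_ge_of_le hR), fun R hR => R.ge_anti ?_ (hm R hR.ne)⟩
    have : (0 : ℤ) ≤ m := Int.natCast_nonneg m
    nlinarith
  have hBA : ∀ (m : ℕ) (a : Φ), PolB K x m a → a ∈ rO K x := fun m a ha R hR =>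
    ha.1 R (R.le_ord_of_mem hR hx0)
  have hbd : ∀ R : Place K Φ, ∃ M : ℕ, ∀ l, θ (u l) ∈ R.ge (-(M : ℤ)) := by
    intro R
    refine ⟨Finset.univ.sup fun l => (-R.ord (θ (u l))).toNat, fun l => R.mem_ge_of_le ?_⟩
    have h1 : (-R.ord (θ (u l))).toNat ≤ Finset.univ.sup fun l => (-R.ord (θ (u l))).toNat :=
      Finset.le_sup (f := fun l => (-R.ord (θ (u l))).toNat) (Finset.mem_univ l)
    omega
  -- finite places
  have hfin : ∀ R : Place K Φ, 0 ≤ R.ord x → ∀ a ∈ rO K x, θ a ∈ R.ge 0 := by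
    intro R hR
    have hxR : x ∈ R.ge 0 := R.mem_ge_of_le hR
    obtain ⟨π, hπ, hπ1⟩ := rO_unif hu.tr R hxR
    obtain ⟨M, hM⟩ := hbd R
    refine loc R (rO K x) (fun a ha => ha R hxR) (fun c R' _ => R'.algebraMap_mem_ge c) ?_ π hπ hπ1
      (rD hu.tr) ?_ (ord_cases hβ R hR hπ1) θ ?_ ?_ ⟨M, ?_⟩
    · intro f hf
      obtain ⟨s, hs, hs0, hs1, hs2⟩ := rO_frac hu.tr R hxR hf
      exact ⟨s, hs, ev_ne hs0 hs1, hs2⟩
    · intro a ha
      obtain ⟨m, hm⟩ := hAB a ha
      exact hBA _ _ (hDB m a hm)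
    · intro a ha b hb
      obtain ⟨m, hm⟩ := hAB a ha
      obtain ⟨m', hm'⟩ := hAB b hb
      have h1 := neg_mem ((hμB m m' a b hm hm').1 R hR)
      rw [hμ] at h1
      have h2 : θ (a * b) - a * θ b - b * θ a = -(a * θ b + b * θ a - θ (a * b)) := by ring
      rw [h2]
      exact h1
    · intro a ha
      obtain ⟨m, hm⟩ := hAB a ha
      rw [← hκ]
      exact (hνB m a hm).1 R hR
    · intro a ha
      obtain ⟨m, hm⟩ := hAB a ha
      obtain ⟨f, hf, rfl⟩ := hu.span m a hm
      rw [map_sum]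
      refine sum_mem fun l _ => ?_
      rw [hθ]
      have := R.mul_mem_ge (ge_aeval_fin R hR (f l)) (hM l)
      rwa [zero_add] at this
  -- places at infinity
  have hxinv : Transcendental K x⁻¹ := by
    intro hcon
    exact hu.tr (by simpa using hcon.inv)
  have hθinv : ∀ a, θ (x⁻¹ * a) = x⁻¹ * θ a := by
    intro a
    have e1 := hθ X (x⁻¹ * a)
    rw [aeval_X, mul_inv_cancel_left₀ hx0] at e1
    rw [e1, inv_mul_cancel_left₀ hx0]
  have hpow : ∀ (m : ℕ) (R : Place K Φ), (x ^ m)⁻¹ ∈ R.ge (-(m * R.ord x)) := by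
    intro m R
    have := R.mem_ge_ord (x ^ m)⁻¹
    rwa [R.ord_inv, R.ord_pow] at this
  have hA'B : ∀ a ∈ rO K x⁻¹, ∃ m : ℕ, PolB K x m (x ^ m * a) := by
    intro a ha
    obtain ⟨m, hm⟩ := ex_m (K := K) x a
    have hm0 : (0 : ℤ) ≤ m := Int.natCast_nonneg m
    have hxm : ∀ R : Place K Φ, x ^ m ∈ R.ge (m * R.ord x) := fun R => by
      have := R.mem_ge_ord (x ^ m)
      rwa [R.ord_pow] at this
    have hle : ∀ R : Place K Φ, R.ord x ≤ 0 → x ^ m * a ∈ R.ge (m * R.ord x) := by
      intro R hR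
      have := R.mul_mem_ge (hxm R) (ha R (R.mem_ge_of_le (by rw [R.ord_inv]; omega)))
      rwa [add_zero] at this
    refine ⟨m, fun R hR => ?_, fun R hR => hle R hR.le⟩
    rcases hR.lt_or_eq with h1 | h1
    · have := R.mul_mem_ge (hxm R) (hm R h1.ne')
      refine R.ge_anti ?_ this
      nlinarith
    · have := hle R h1.ge
      rwa [← h1, mul_zero] at this
  have hpole : ∀ R : Place K Φ, R.ord x < 0 → ∀ a ∈ rO K x⁻¹, θ a ∈ R.ge 0 := by
    intro R hR
    have hxR : x⁻¹ ∈ R.ge 0 := R.mem_ge_of_le (by rw [R.ord_inv]; omega)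
    obtain ⟨π, hπ, hπ1⟩ := rO_unif hxinv R hxR
    obtain ⟨M, hM⟩ := hbd R
    obtain ⟨k1, k2⟩ := ord_pole hu.tr R hR hπ1
    refine loc R (rO K x⁻¹) (fun a ha => ha R hxR) (fun c R' _ => R'.algebraMap_mem_ge c) ?_ π hπ hπ1
      (x⁻¹ • rD hu.tr) ?_ ⟨k1, Or.inr k2⟩ θ ?_ ?_ ⟨M, ?_⟩
    · intro f hf
      obtain ⟨s, hs, hs0, hs1, hs2⟩ := rO_frac hxinv R hxR hf
      exact ⟨s, hs, ev_ne hs0 hs1, hs2⟩
    · intro a ha R' hR'
      change x⁻¹ * rD hu.tr a ∈ R'.ge 0
      have hR'0 : R'.ord x ≤ 0 := by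
        have := R'.le_ord_of_mem hR' (inv_ne_zero hx0)
        rw [R'.ord_inv] at this
        omega
      obtain ⟨m, hm⟩ := hA'B a ha
      have e1 := polB_ge (hDB m _ hm) R' hR'0
      have e2 : x⁻¹ * rD hu.tr a = (x ^ (m + 1))⁻¹ * rD hu.tr (x ^ m * a) - x⁻¹ * ((m : Φ) * ((x - 1) * a)) := by
        rw [rD_mul, ← hxp m, rD_aeval, hxp, derivative_X_pow]
        rcases m with _ | m
        · simp
        · simp only [map_mul, aeval_X, map_sub, map_one, map_natCast, map_pow, Nat.add_sub_cancel]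
          field_simp
          push_cast
          ring
      rw [e2]
      refine sub_mem ?_ ?_
      · have := R'.mul_mem_ge (hpow (m + 1) R') e1
        refine R'.ge_anti ?_ this
        omega
      · have e3 : x - 1 ∈ R'.ge (R'.ord x) := sub_mem (R'.mem_ge_ord x) (R'.ge_anti hR'0 R'.one_mem_ge)
        have := R'.mul_mem_ge (hpow 1 R') (R'.mul_mem_ge (R'.natCast_mem_ge m) (R'.mul_mem_ge e3 (ha R' hR')))
        rw [pow_one] at this
        refine R'.ge_anti ?_ this
        push_cast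
        omega
    · intro a ha b hb
      obtain ⟨m, hm⟩ := hA'B a ha
      obtain ⟨m', hm'⟩ := hA'B b hb
      have h1 := hμB m m' _ _ hm hm'
      rw [← hxp m, ← hxp m', hμ1, hμ2, hxp, hxp] at h1
      have h2 := neg_mem (R.mul_mem_ge (hpow (m + m') R) (h1.2 R hR))
      have h3 : θ (a * b) - a * θ b - b * θ a = -((x ^ (m + m'))⁻¹ * (x ^ m * (x ^ m' * μ a b))) := by
        rw [hμ, pow_add]
        field_simp
        ring
      rw [h3]
      refine R.ge_anti ?_ h2
      push_cast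
      omega
    · intro a ha
      change x⁻¹ * rD hu.tr (θ a) - θ (x⁻¹ * rD hu.tr a) ∈ R.ge 0
      rw [hθinv, ← mul_sub, ← hκ]
      obtain ⟨m, hm⟩ := hA'B a ha
      have h1 := (hνB m _ hm).2 R hR
      rw [← hxp m, hν, hxp] at h1
      have h2 := R.mul_mem_ge (hpow (m + 1) R) h1
      have h3 : x⁻¹ * ν a = (x ^ (m + 1))⁻¹ * (x ^ m * ν a) := by
        field_simp
        ring
      rw [h3]
      refine R.ge_anti ?_ h2
      omega
    · intro a ha
      obtain ⟨m, hm⟩ := hA'B a ha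
      obtain ⟨f, hf, hf'⟩ := hu.span m _ hm
      have h1 : θ (x ^ m * a) ∈ R.ge (m * R.ord x + (-(M : ℤ))) := by
        rw [hf', map_sum]
        refine sum_mem fun l _ => ?_
        rw [hθ]
        refine R.mul_mem_ge ?_ (hM l)
        by_cases h0 : f l = 0
        · rw [h0, map_zero]
          exact zero_mem _
        · exact ge_aeval_pole R hR.le (by have := hf l h0; omega)
      rw [← hxp m, hθ, hxp] at h1
      have h2 := R.mul_mem_ge (hpow m R) h1
      rw [inv_mul_cancel_left₀ (pow_ne_zero _ hx0)] at h2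
      refine R.ge_anti ?_ h2
      omega
  -- `θ(u_i)` satisfies `PolB d_i`
  have hθB : ∀ i, PolB K x (d i) (θ (u i)) := by
    intro i
    refine ⟨fun R hR => hfin R hR _ (hBA _ _ (hu.mem i)), fun R hR => ?_⟩
    have h1 : (x ^ d i)⁻¹ * u i ∈ rO K x⁻¹ := by
      intro R' hR'
      have hR'0 : R'.ord x ≤ 0 := by
        have := R'.le_ord_of_mem hR' (inv_ne_zero hx0)
        rw [R'.ord_inv] at this
        omega
      have := R'.mul_mem_ge (hpow (d i) R') (polB_ge (hu.mem i) R' hR'0)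
      rwa [neg_add_cancel] at this
    have h2 := hpole R hR _ h1
    have h3 := hθ (X ^ d i) ((x ^ d i)⁻¹ * u i)
    rw [hxp, mul_inv_cancel_left₀ (pow_ne_zero _ hx0)] at h3
    rw [h3]
    have h4 := R.mem_ge_ord (x ^ d i)
    rw [R.ord_pow] at h4
    have := R.mul_mem_ge h4 h2
    rwa [add_zero] at this
  choose t ht1 ht2 using fun i => hu.span (d i) _ (hθB i)
  have ht : ∀ i, θ (u i) = rT x u (t i) := ht2
  refine ⟨t, ?_, ?_, ?_⟩
  · intro i j s hs
    by_cases h0 : t i j = 0
    · rw [h0, coeff_zero]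
    · have := ht1 i j h0
      exact coeff_eq_zero_of_natDegree_lt (by omega)
  · funext i j
    refine rgm_uniq hu ?_
    change rT x u (c' i j) = rT x u (psiC c t i j)
    have e1 : rT x u (psiC c t i j) = rT x u (fun k => ∑ a, t i a * c a j k) +
        rT x u (fun k => ∑ b, t j b * c i b k) - rT x u (fun k => ∑ l, c i j l * t l k) := by
      rw [← rT_add, ← rT_sub]
      rfl
    rw [e1, ← rT_mul_left hmul, ← rT_mul_right hmul, ← rT_map θ.toAddMonoidHom hθ ht, ← hmul, ← ht, ← ht, ← hc i j]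
    change _ = _ - θ (u i * u j)
    ring
  · funext i
    refine rgm_uniq hu ?_
    change rT x u (N' i) = rT x u (psiN N t i)
    have e1 : rT x u (psiN N t i) = rT x u (fun k => X * (X - 1) * derivative (t i k) + ∑ l, t i l * N l k) -
        rT x u (fun k => ∑ l, N i l * t l k) := by
      rw [← rT_sub]
      rfl
    rw [e1, ← rD_T hu.tr hDu, ← rT_map θ.toAddMonoidHom hθ ht, ← ht, ← hDu, ← hN i]
    exact hκ (u i)

end Pool.Agent.HFB
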