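import Pool.Agent.HFB.RGM

/-!
# HFB / RIN: injectivity of the infinitesimal action

`θ` defines a `C(x)`-linear map `θ : Φ → Φ`, `u_i ↦ ∑ θ_ij(x) u_j`.  `psiC c θ = 0` says `θ(u_i) u_j + u_i θ(u_j) = θ(u_i u_j)`, so `θ` is a `C(x)`-linear derivation of `Φ`, hence zero (`Φ/C(x)` is algebraic, characteristic zero); `ind`.
-/

namespace Pool.Agent.HFB

open Polynomial Pool.Agent.Helper11 Pool.Agent.ESH
open scoped IntermediateField

variable {K Φ : Type*} [Field K] [Field Φ] [Algebra K Φ] [FunField K Φ] [CharZero K] [IsAlgClosed K]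
  {x : Φ} {n : ℕ} {d : Fin n → ℕ} {u : Fin n → Φ}

theorem rin (hu : RBas K x d u) {c : Fin n → Fin n → Fin n → K[X]} {N : Fin n → Fin n → K[X]}
    (h : SCon x u c N) (θ : Fin n → Fin n → K[X]) (h0 : psiC c θ = 0) : θ = 0 := by
  classical
  have hpsi : ∀ i j k, ∑ a, θ i a * c a j k + ∑ b, θ j b * c i b k = ∑ l, c i j l * θ l k := by
    intro i j k
    have h1 := congrFun (congrFun (congrFun h0 i) j) k
    unfold psiC at h1
    exact sub_eq_zero.1 h1
  let b := Module.Basis.mk (rgm_ind hu) (rgm_span hu).ge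
  have hb : ∀ i, b i = u i := fun i => Module.Basis.mk_apply _ _ i
  have : Module.Finite K⟮x⟯ Φ := Module.Finite.of_basis b
  let T : Φ →ₗ[K⟮x⟯] Φ := b.constr K⟮x⟯ (fun i => ∑ j, aeval x (θ i j) * u j)
  have hT : ∀ i, T (u i) = ∑ j, aeval x (θ i j) * u j := by
    intro i
    rw [← hb i]
    exact b.constr_basis _ _ i
  have hlin : ∀ (p : K[X]) (f : Φ), T (aeval x p * f) = aeval x p * T f := by
    intro p f
    have h1 : ∀ g : Φ, aeval x p * g = (aeval (IntermediateField.AdjoinSimple.gen K x) p : K⟮x⟯) • g := by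
      intro g
      rw [Algebra.smul_def]
      congr 1
      rw [← Polynomial.aeval_algebraMap_apply, IntermediateField.AdjoinSimple.algebraMap_gen]
    rw [h1, map_smul, ← h1]
  have hl : ∀ i j, T (u i * u j) = u i * T (u j) + T (u i) * u j := by
    intro i j
    rw [h.mul i j, map_sum, hT i, hT j]
    have e1 : ∑ l, T (aeval x (c i j l) * u l) = ∑ k, aeval x (∑ l, c i j l * θ l k) * u k := by
      calc ∑ l, T (aeval x (c i j l) * u l) = ∑ l, ∑ k, aeval x (c i j l) * (aeval x (θ l k) * u k) := by
            refine Finset.sum_congr rfl (fun l _ => ?_)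
            rw [hlin, hT l, Finset.mul_sum]
        _ = ∑ k, ∑ l, aeval x (c i j l) * (aeval x (θ l k) * u k) := Finset.sum_comm
        _ = _ := by
            refine Finset.sum_congr rfl (fun k _ => ?_)
            rw [map_sum, Finset.sum_mul]
            refine Finset.sum_congr rfl (fun l _ => ?_)
            rw [map_mul, mul_assoc]
    have e2 : u i * ∑ j', aeval x (θ j j') * u j' = ∑ k, aeval x (∑ b, θ j b * c i b k) * u k := by
      calc u i * ∑ j', aeval x (θ j j') * u j' = ∑ a, ∑ k, aeval x (θ j a) * (aeval x (c i a k) * u k) := by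
            rw [Finset.mul_sum]
            refine Finset.sum_congr rfl (fun a _ => ?_)
            rw [← Finset.mul_sum, ← h.mul i a]
            ring
        _ = ∑ k, ∑ a, aeval x (θ j a) * (aeval x (c i a k) * u k) := Finset.sum_comm
        _ = _ := by
            refine Finset.sum_congr rfl (fun k _ => ?_)
            rw [map_sum, Finset.sum_mul]
            refine Finset.sum_congr rfl (fun l _ => ?_)
            rw [map_mul, mul_assoc]
    have e3 : (∑ j', aeval x (θ i j') * u j') * u j = ∑ k, aeval x (∑ a, θ i a * c a j k) * u k := by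
      calc (∑ j', aeval x (θ i j') * u j') * u j = ∑ a, ∑ k, aeval x (θ i a) * (aeval x (c a j k) * u k) := by
            rw [Finset.sum_mul]
            refine Finset.sum_congr rfl (fun a _ => ?_)
            rw [← Finset.mul_sum, ← h.mul a j]
            ring
        _ = ∑ k, ∑ a, aeval x (θ i a) * (aeval x (c a j k) * u k) := Finset.sum_comm
        _ = _ := by
            refine Finset.sum_congr rfl (fun k _ => ?_)
            rw [map_sum, Finset.sum_mul]
            refine Finset.sum_congr rfl (fun l _ => ?_)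
            rw [map_mul, mul_assoc]
    rw [e1, e2, e3, ← Finset.sum_add_distrib]
    refine Finset.sum_congr rfl (fun k _ => ?_)
    rw [← hpsi i j k, map_add]
    ring
  have hB : (LinearMap.mul K⟮x⟯ Φ).compr₂ T =
      (LinearMap.mul K⟮x⟯ Φ).compl₂ T + (LinearMap.mul K⟮x⟯ Φ).comp T := by
    refine LinearMap.ext_basis b b (fun i j => ?_)
    rw [hb, hb]
    exact hl i j
  let D : Derivation K⟮x⟯ Φ Φ := Derivation.mk' T (fun f g => by
    have h1 := LinearMap.congr_fun (LinearMap.congr_fun hB f) g
    have h2 : T (f * g) = f * T g + T f * g := h1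
    rw [h2, smul_eq_mul, smul_eq_mul, mul_comm (T f) g])
  have hD : ∀ f, D f = 0 := by
    intro f
    have hint : IsIntegral K⟮x⟯ f := Algebra.IsIntegral.isIntegral f
    have h1 : D (aeval f (minpoly K⟮x⟯ f)) = aeval f (derivative (minpoly K⟮x⟯ f)) • D f :=
      Derivation.map_aeval _ _ _
    rw [minpoly.aeval, map_zero, smul_eq_mul] at h1
    have hsep : (minpoly K⟮x⟯ f).Separable := (minpoly.irreducible hint).separable
    have h2 : aeval f (derivative (minpoly K⟮x⟯ f)) ≠ 0 := hsep.aeval_derivative_ne_zero (minpoly.aeval _ _)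
    rcases mul_eq_zero.1 h1.symm with h3 | h3
    · exact absurd h3 h2
    · exact h3
  funext i
  refine hu.ind (θ i) ?_
  rw [← hT i]
  exact hD (u i)

end Pool.Agent.HFB
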