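import Pool.Agent.HFB.GNL
import Pool.Agent.HFB.RBX
import Pool.Agent.HFB.DBS
import Pool.Agent.ESH.RRA
import Pool.Agent.ESH.RRB

/-!
# HFB / RRX: the Riemann-Roch inequality

`rrx`: RBX and `dbb` for a transcendental element.  `rrg`: let `x` be transcendental, `n = [E : C(x)]`, `D_m = m max(0, - ord x)`: `dim L(D_m) = n m + 1 - g` for large `m` (GNL (1): RBX, `gnu_card`).  For large `m` there is `f ≠ 0` in `L(D_m - D⁺)`, `D⁺` the positive part (`rra_le`: `dim L(D_m) ≤ dim L(D_m - D⁺) + deg D⁺`), so `D - div f ≤ D_m`.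
`L(D) ≅ L(D - div f)` (`h ↦ h f`), and `rra_le` for `D - div f ≤ D_m`: `n m + 1 - g ≤ dim L(D) + (n m - deg D)`  (`finsum_ord`: `deg div f = 0`).
`rrc`: `chi = -2` gives `g = 0` (`gnl` if `g ≥ 1`), `chi = 0` gives `g = 1` (`gnu`: `g = 0` would give `chi ≤ -2`).
-/

namespace Pool.Agent.HFB

open Polynomial Pool.Agent.Helper11 Pool.Agent.ESH IntermediateField NumberField
open scoped KaehlerDifferential

variable {C E : Type*} [Field C] [Field E] [Algebra C E] [FunField C E] [CharZero C] [IsAlgClosed C]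

private theorem rrx_lower {x : E} {n : ℕ} {d : Fin n → ℕ} {u : Fin n → E} (hu : RBas C x d u)
    (m : ℕ) (hm : ∀ i, d i ≤ m) :
    (n : ℤ) * m + n - ∑ i, (d i : ℤ) ≤
      Module.finrank C (LL (fun v : Place C E => (m : ℤ) * max 0 (-v.ord x))) := by
  classical
  have hfd : FiniteDimensional C (LL (fun v : Place C E => (m : ℤ) * max 0 (-v.ord x))) := by
    apply rra_fin
    apply (finite_ord_ne_zero x).subset
    intro v hv hv'
    apply hv
    rw [hv']
    simp
  let φ : (∀ i : Fin n, Polynomial.degreeLT C (m - d i + 1)) →ₗ[C] E :=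
    { toFun := fun p => ∑ i, aeval x (p i : C[X]) * u i
      map_add' := fun p q => by
        rw [← Finset.sum_add_distrib]
        refine Finset.sum_congr rfl fun i _ => ?_
        simp only [Pi.add_apply, Submodule.coe_add, map_add]
        ring
      map_smul' := fun c p => by
        simp only [RingHom.id_apply, Finset.smul_sum]
        refine Finset.sum_congr rfl fun i _ => ?_
        simp only [Pi.smul_apply, Submodule.coe_smul, map_smul, smul_mul_assoc] }
  have hφ : ∀ p, φ p = ∑ i, aeval x (p i : C[X]) * u i := fun p => rfl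
  have hinj : Function.Injective φ := by
    rw [← LinearMap.ker_eq_bot, LinearMap.ker_eq_bot']
    intro p hp
    rw [hφ] at hp
    have h1 := hu.ind (fun i => (p i : C[X])) hp
    funext i
    exact Subtype.ext (congrFun h1 i)
  have hmem : ∀ p, φ p ∈ LL (fun v : Place C E => (m : ℤ) * max 0 (-v.ord x)) := by
    intro p
    rw [hφ]
    refine Submodule.sum_mem _ fun i _ => ?_
    rw [aeval_eq_sum_range, Finset.sum_mul]
    refine Submodule.sum_mem _ fun j hj => ?_
    by_cases hj0 : (p i : C[X]).coeff j = 0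
    · rw [hj0, zero_smul, zero_mul]; exact Submodule.zero_mem _
    rw [smul_mul_assoc]
    refine Submodule.smul_mem _ _ ?_
    have hjm : j + d i ≤ m := by
      have h1 := (Polynomial.mem_degreeLT.1 (p i).2)
      have h2 : (j : WithBot ℕ) ≤ (p i : C[X]).degree := Polynomial.le_degree_of_ne_zero hj0
      have h3 : (j : WithBot ℕ) < ((m - d i + 1 : ℕ) : WithBot ℕ) := lt_of_le_of_lt h2 h1
      have h4 : j < m - d i + 1 := by exact_mod_cast h3
      have := hm i
      omega
    intro v
    rcases le_or_gt 0 (v.ord x) with hv | hv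
    · have h1 := v.mul_mem_ge (v.pow_mem_ge (v.mem_ge_of_le hv) j) ((hu.mem i).1 v hv)
      simp only [max_eq_left (show -v.ord x ≤ 0 by omega), mul_zero, neg_zero]
      simpa using h1
    · have h1 := v.mul_mem_ge (v.mem_ge_ord (x ^ j)) ((hu.mem i).2 v hv)
      rw [v.ord_pow] at h1
      refine v.ge_anti ?_ h1
      change -((m : ℤ) * max 0 (-v.ord x)) ≤ _
      rw [max_eq_right (by omega)]
      have h2 : ((j : ℤ) + d i) ≤ m := by exact_mod_cast hjm
      nlinarith
  have h1 := LinearMap.finrank_le_finrank_of_injective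
    (f := φ.codRestrict (LL (fun v : Place C E => (m : ℤ) * max 0 (-v.ord x))) hmem)
    (fun a b hab => hinj (congrArg Subtype.val hab))
  have h2 : Module.finrank C (∀ i : Fin n, Polynomial.degreeLT C (m - d i + 1)) =
      ∑ i, (m - d i + 1) := by
    rw [Module.finrank_pi_fintype]
    refine Finset.sum_congr rfl fun i _ => ?_
    rw [LinearEquiv.finrank_eq (Polynomial.degreeLTEquiv C (m - d i + 1)), Module.finrank_fin_fun]
  rw [h2] at h1
  have h3 : ((∑ i, (m - d i + 1) : ℕ) : ℤ) ≤
      Module.finrank C (LL (fun v : Place C E => (m : ℤ) * max 0 (-v.ord x))) := by exact_mod_cast h1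
  refine le_trans (le_of_eq ?_) h3
  push_cast
  rw [Finset.sum_congr rfl (fun i _ => show (((m - d i : ℕ) : ℤ) + 1) = (m + 1) - d i by
    rw [Nat.cast_sub (hm i)]; ring), Finset.sum_sub_distrib, Finset.sum_const, Finset.card_univ,
    Fintype.card_fin, nsmul_eq_mul]
  ring

theorem rrx (C E : Type*) [Field C] [Field E] [Algebra C E] [FunField C E] [CharZero C] [IsAlgClosed C] :
    ∃ (g : ℕ) (ω : Fin g → Ω[E⁄C]), (∀ i, ∀ R : Place C E, 0 ≤ R.ordDiff (ω i)) ∧ LinearIndependent C ω ∧
      ∀ η : Ω[E⁄C], (∀ R : Place C E, 0 ≤ R.ordDiff η) → η ∈ Submodule.span C (Set.range ω) := by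
  classical
  obtain ⟨x, hx⟩ := FunField.exists_transcendental (k := C) (L := E)
  obtain ⟨d, u, hu, -⟩ := rbx x hx
  obtain ⟨f, -, hreg, hli, hsp⟩ := dbb hu (∑ i, d i + 1) (fun i => Nat.lt_succ_of_le
    (Finset.single_le_sum (f := d) (fun _ _ => Nat.zero_le _) (Finset.mem_univ i)))
  let e := (Fintype.equivFin (DI d (∑ i, d i + 1))).symm
  refine ⟨Fintype.card (DI d (∑ i, d i + 1)), fun i => f (e i) • KaehlerDifferential.D C E x,
    fun i R => hreg _ R, hli.comp e e.injective, fun η hη => ?_⟩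
  have h1 := hsp η hη
  have h2 : Set.range (fun i => f (e i) • KaehlerDifferential.D C E x) =
      Set.range (fun t => f t • KaehlerDifferential.D C E x) :=
    e.surjective.range_comp (fun t => f t • KaehlerDifferential.D C E x)
  rw [h2]
  exact h1

private theorem rrx_aux {g : ℕ} (x : E) (hx : Transcendental C x) (n : ℕ)
    (hndef : n = Module.finrank C⟮x⟯ E) (hn : 0 < n) (d : Fin n → ℕ) (u : Fin n → E)
    (hu : RBas C x d u) (hcard : g + n = ∑ i, d i + 1)
    (D : Place C E → ℤ) (hD : {v | D v ≠ 0}.Finite) :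
    (∑ᶠ v, D v) + 1 - g ≤ Module.finrank C (LL D) := by
  classical
  have hneg : ∑ᶠ v : Place C E, max 0 (-v.ord x) = n := by
    rw [hndef]; exact finsum_neg_ord hx
  have hxf : {v : Place C E | max 0 (-v.ord x) ≠ 0}.Finite := by
    apply (finite_ord_ne_zero x).subset
    intro v hv hv'
    apply hv
    rw [hv']
    simp
  have hDp : {v : Place C E | max (D v) 0 ≠ 0}.Finite :=
    hD.subset fun v hv h0 => hv (by rw [h0, max_self])
  set S : ℤ := ∑ᶠ v, max (D v) 0 with hS
  have hS0 : 0 ≤ S := fs_nonneg fun v => le_max_right _ _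
  set m : ℕ := S.toNat + g + ∑ i, d i with hm
  have hmS : S ≤ S.toNat := Int.self_le_toNat S
  have hlow := rrx_lower hu m (fun i => by
    have := Finset.single_le_sum (f := d) (fun _ _ => Nat.zero_le _) (Finset.mem_univ i)
    omega)
  have hcardZ : (g : ℤ) + n = ∑ i, (d i : ℤ) + 1 := by exact_mod_cast hcard
  have hDm : {v : Place C E | (m : ℤ) * max 0 (-v.ord x) ≠ 0}.Finite := supp_const_mul _ hxf
  have hDmS : ∑ᶠ v : Place C E, (m : ℤ) * max 0 (-v.ord x) = m * n := by
    rw [fs_const_mul, hneg]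
  have hDd := supp_sub hDm hDp
  have hle := rra_le (fun v : Place C E => (m : ℤ) * max 0 (-v.ord x) - max (D v) 0)
    (fun v : Place C E => (m : ℤ) * max 0 (-v.ord x)) hDd hDm
    (fun v => sub_le_self _ (le_max_right _ _))
  have hsum1 : ∑ᶠ v : Place C E, ((m : ℤ) * max 0 (-v.ord x) -
      ((m : ℤ) * max 0 (-v.ord x) - max (D v) 0)) = S := by
    rw [hS]
    exact finsum_congr fun v => by ring
  rw [hsum1] at hle
  have hmn : (m : ℤ) ≤ n * m := by
    have : (1 : ℤ) ≤ n := by exact_mod_cast hn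
    nlinarith [Nat.cast_nonneg (α := ℤ) m]
  have hmcast : (m : ℤ) = S.toNat + g + ∑ i, (d i : ℤ) := by rw [hm]; push_cast; ring
  have hd0 : (0 : ℤ) ≤ ∑ i, (d i : ℤ) := Finset.sum_nonneg fun i _ => Nat.cast_nonneg _
  have hpos : (0 : ℤ) < Module.finrank C (LL (fun v : Place C E =>
      (m : ℤ) * max 0 (-v.ord x) - max (D v) 0)) := by
    linarith
  have hfin1 := rra_fin _ hDd
  obtain ⟨⟨f, hf⟩, hf0⟩ := (Module.finrank_pos_iff_exists_ne_zero (R := C)).1
    (show 0 < Module.finrank C (LL (fun v : Place C E =>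
      (m : ℤ) * max 0 (-v.ord x) - max (D v) 0)) by exact_mod_cast hpos)
  have hf1 : f ≠ 0 := fun h => hf0 (Subtype.ext h)
  have hford : ∀ v : Place C E, D v - v.ord f ≤ (m : ℤ) * max 0 (-v.ord x) := by
    intro v
    have h2 := v.le_ord_of_mem (hf v) hf1
    have h3 := le_max_left (D v) 0
    linarith
  have hD1 := supp_sub hD (finite_ord_ne_zero (k := C) f)
  have hle2 := rra_le (fun v => D v - v.ord f) (fun v : Place C E => (m : ℤ) * max 0 (-v.ord x))
    hD1 hDm hford
  have hsum2 : ∑ᶠ v : Place C E, ((m : ℤ) * max 0 (-v.ord x) - (D v - v.ord f)) =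
      m * n - ∑ᶠ v, D v := by
    rw [fs_sub hDm hD1, hDmS, fs_sub hD (finite_ord_ne_zero (k := C) f), finsum_ord, sub_zero]
  rw [hsum2] at hle2
  have hfinD := rra_fin D hD
  have hle3 : Module.finrank C (LL (fun v => D v - v.ord f)) ≤ Module.finrank C (LL D) := by
    let ψ : LL (fun v : Place C E => D v - v.ord f) →ₗ[C] LL D :=
      { toFun := fun h => ⟨(h : E) * f⁻¹, fun v => by
          have h2 := v.mul_mem_ge (h.2 v) (v.mem_ge_ord f⁻¹)
          rw [v.ord_inv] at h2
          have e : -(D v - v.ord f) + -v.ord f = -D v := by ring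
          rwa [e] at h2⟩
        map_add' := fun a b => Subtype.ext (by simp only [Submodule.coe_add]; ring)
        map_smul' := fun c a => Subtype.ext (by
          simp only [Submodule.coe_smul, RingHom.id_apply, smul_mul_assoc]) }
    refine LinearMap.finrank_le_finrank_of_injective (f := ψ) fun a b hab => ?_
    have h2 : (a : E) * f⁻¹ = (b : E) * f⁻¹ := congrArg Subtype.val hab
    exact Subtype.ext (mul_right_cancel₀ (inv_ne_zero hf1) h2)
  have hle3' : (Module.finrank C (LL (fun v => D v - v.ord f)) : ℤ) ≤ Module.finrank C (LL D) := by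
    exact_mod_cast hle3
  have hcomm : (n : ℤ) * m = m * n := mul_comm _ _
  linarith

theorem rrg {g : ℕ} (ω : Fin g → Ω[E⁄C]) (hr : ∀ i, ∀ R : Place C E, 0 ≤ R.ordDiff (ω i))
    (hli : LinearIndependent C ω)
    (hsp : ∀ η : Ω[E⁄C], (∀ R : Place C E, 0 ≤ R.ordDiff η) → η ∈ Submodule.span C (Set.range ω))
    (D : Place C E → ℤ) (hD : {v | D v ≠ 0}.Finite) :
    (∑ᶠ v, D v) + 1 - g ≤ Module.finrank C (LL D) := by
  classical
  obtain ⟨x, hx⟩ := FunField.exists_transcendental (k := C) (L := E)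
  obtain ⟨d, u, hu, i₀, h0, h1⟩ := rbx x hx
  have hcard := gnu_card ω hr hli hsp hu i₀ h0 h1
  have hfd := FunField.finiteDimensional_adjoin hx
  have hn : 0 < Module.finrank C⟮x⟯ E := Module.finrank_pos
  have hgen : ∀ (n : ℕ) (hn1 : n = Module.finrank C⟮x⟯ E) (d : Fin n → ℕ) (u : Fin n → E)
      (hu : RBas C x d u) (hcard : g + n = ∑ i, d i + 1),
      (∑ᶠ v, D v) + 1 - g ≤ Module.finrank C (LL D) := by
    clear! d
    intro n hndef d u hu hcard
    rw [← hndef] at hn
    exact rrx_aux x hx n hndef hn d u hu hcard D hD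
  exact hgen _ rfl d u hu hcard

theorem rrc_zero (h : chi C E = -2) (D : Place C E → ℤ) (hD : {v | D v ≠ 0}.Finite) :
    (∑ᶠ v, D v) + 1 ≤ Module.finrank C (LL D) := by
  obtain ⟨g, ω, hr, hli, hsp⟩ := rrx C E
  have h1 := rrg ω hr hli hsp D hD
  have h2 : g = 0 := by
    by_contra hg
    have h3 := gnl (Nat.one_le_iff_ne_zero.2 hg) ω hr hli hsp
    rw [h] at h3
    omega
  rw [h2] at h1
  simpa using h1

theorem rrc_one (h : chi C E = 0) (D : Place C E → ℤ) (hD : {v | D v ≠ 0}.Finite) :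
    (∑ᶠ v, D v) ≤ Module.finrank C (LL D) := by
  obtain ⟨g, ω, hr, hli, hsp⟩ := rrx C E
  have h1 := rrg ω hr hli hsp D hD
  have h2 : g = 1 := by
    rcases Nat.eq_zero_or_pos g with hg | hg
    · have h3 := gnu ω hr hli hsp
      rw [h, hg] at h3
      norm_num at h3
    · have h3 := gnl hg ω hr hli hsp
      rw [h] at h3
      omega
  rw [h2] at h1
  push_cast at h1
  linarith

end Pool.Agent.HFB
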