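import Pool.Agent.HFB.RGM
import Pool.Agent.ESH.DefsG

/-!
# HFB / SCX: existence of the structure constants

`u_i u_j` satisfies `PolB (d_i + d_j)` (`rgm_mul`), so `span` gives `c`.  Let `∇ = x (x - 1) d/dx` (`der`).  Claim: `PolB m f → PolB (m + 1) (∇ f)`.  At `R` with `0 ≤ ord x`, let `c` be the value of `x` and `e = R.ord (x - c)`: `df` has non-negative order (`dv_mem_ge_zero`), `dx` has order `e - 1` (`ord_dv`), so
`df/dx` has order `≥ 1 - e`; if `c ≠ 0, 1` then `e = 1` because `x` is a Belyi function; if `c = 0` or `1`, `x (x - 1)` has order `e`.  At a pole, `e = - R.ord x`, `f ∈ R.ge (- m e)`, `dv f ∈ R.ge (- m e - 1)` (`dv_mem_ge`; for `m = 0` even `≥ 0`), `dv x` has order `- e - 1`: `df/dx ∈ R.ge (- m e + e)`,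
`∇ f ∈ R.ge (- m e - e)`.  `span` for `m = d_i + 1` gives `N`; `D u_i = (du_i/dx) • D x` (`D_eq_der_smul`).
-/

namespace Pool.Agent.HFB

open Polynomial Pool.Agent.Helper11 Pool.Agent.ESH

variable {K Φ : Type*} [Field K] [Field Φ] [Algebra K Φ] [FunField K Φ] [CharZero K] [IsAlgClosed K]
  {x : Φ} {n : ℕ} {d : Fin n → ℕ} {u : Fin n → Φ}

theorem scx_der (hβ : IsBelyi K x) {m : ℕ} {f : Φ} (hf : PolB K x m f) :
    PolB K x (m + 1) (x * (x - 1) * der hβ.1 f) := by
  have hx := hβ.1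
  refine ⟨fun R hR => ?_, fun R hR => ?_⟩
  · rw [R.der_eq hx]
    have hfd : R.dv f ∈ R.ge 0 := R.dv_mem_ge_zero (hf.1 R hR)
    set c := ev R x with hc
    have h1 : x - algebraMap K Φ c ∈ R.ge 1 := evl_mem R (R.mem_ge_of_le hR)
    have h0 : x - algebraMap K Φ c ≠ 0 := by
      intro h0
      apply hx
      rw [sub_eq_zero.1 h0]
      exact isAlgebraic_algebraMap c
    have he : 1 ≤ R.ord (x - algebraMap K Φ c) := R.le_ord_of_mem h1 h0
    set e := R.ord (x - algebraMap K Φ c) with hee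
    have h2 := R.ord_dv (y := x - algebraMap K Φ c) (by omega)
    rw [map_sub, Derivation.map_algebraMap, sub_zero] at h2
    have h3 : R.ord (der hx R.unif) = - (e - 1) := by
      rw [R.ord_der_unif hx, h2.2]
    have h4 : der hx R.unif ∈ R.ge (-(e - 1)) := R.mem_ge_of_le h3.ge
    have h5 : der hx R.unif * R.dv f ∈ R.ge (-(e - 1) + 0) := R.mul_mem_ge h4 hfd
    have hx0 : x ∈ R.ge 0 := R.mem_ge_of_le hR
    have hx1 : x - 1 ∈ R.ge 0 := sub_mem hx0 R.one_mem_ge
    by_cases hc0 : c = 0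
    · have h6 : x ∈ R.ge e := by
        rw [hee, hc0, map_zero, sub_zero]
        exact R.mem_ge_ord x
      have h7 := R.mul_mem_ge (R.mul_mem_ge h6 hx1) h5
      exact R.ge_anti (by omega) h7
    by_cases hc1 : c = 1
    · have h6 : x - 1 ∈ R.ge e := by
        rw [hee, hc1, map_one]
        exact R.mem_ge_ord _
      have h7 := R.mul_mem_ge (R.mul_mem_ge hx0 h6) h5
      exact R.ge_anti (by omega) h7
    · have h6 : e ≤ 1 := hβ.2 R c hc0 hc1
      have h7 := R.mul_mem_ge (R.mul_mem_ge hx0 hx1) h5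
      exact R.ge_anti (by omega) h7
  · rw [R.der_eq hx]
    have hfd : R.dv f ∈ R.ge (m * R.ord x - 1) := R.dv_mem_ge (hf.2 R hR)
    have h2 := R.ord_dv (y := x) (by omega)
    have h3 : R.ord (der hx R.unif) = - (R.ord x - 1) := by
      rw [R.ord_der_unif hx, h2.2]
    have h4 : der hx R.unif ∈ R.ge (-(R.ord x - 1)) := R.mem_ge_of_le h3.ge
    have hx0 : x ∈ R.ge (R.ord x) := R.mem_ge_ord x
    have hx1 : x - 1 ∈ R.ge (R.ord x) := sub_mem hx0 (R.ge_anti hR.le R.one_mem_ge)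
    have h7 := R.mul_mem_ge (R.mul_mem_ge hx0 hx1) (R.mul_mem_ge h4 hfd)
    refine R.ge_anti (le_of_eq ?_) h7
    push_cast
    ring

theorem scx (hβ : IsBelyi K x) (hu : RBas K x d u) :
    ∃ (c : Fin n → Fin n → Fin n → K[X]) (N : Fin n → Fin n → K[X]), SCon x u c N := by
  have h1 : ∀ i j, ∃ p : Fin n → K[X], u i * u j = ∑ k, aeval x (p k) * u k := by
    intro i j
    obtain ⟨p, _, hp⟩ := hu.span _ _ (rgm_mul (hu.mem i) (hu.mem j))
    exact ⟨p, hp⟩
  have h2 : ∀ i, ∃ p : Fin n → K[X], x * (x - 1) * der hβ.1 (u i) = ∑ k, aeval x (p k) * u k := by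
    intro i
    obtain ⟨p, _, hp⟩ := hu.span _ _ (scx_der hβ (hu.mem i))
    exact ⟨p, hp⟩
  choose c hc using h1
  choose N hN using h2
  refine ⟨c, N, ⟨hc, fun i => ?_⟩⟩
  rw [← hN i, D_eq_der_smul hβ.1 (u i), smul_smul]

end Pool.Agent.HFB
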