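import Pool.Agent.HFB.DefsW

/-!
# HFB / SDF: relations between differentials after extension of the constants

`letI := τ.toAlgebra; letI := J.toAlgebra; letI : Algebra k Ψ := ((algebraMap ℂ Ψ).comp τ).toAlgebra` and the scalar towers (`hJ.comm`); apply `KaehlerDifferential.map k ℂ Φ Ψ` to the relation (`KaehlerDifferential.map_D`, it is `Φ`-linear, and `Φ` acts on `Ω[Ψ⁄ℂ]` through `J`).
-/

namespace Pool.Agent.HFB

open Polynomial Pool.Agent.Helper11 Pool.Agent.ESH IntermediateField NumberField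
open scoped KaehlerDifferential

theorem sdf {k Φ Ψ : Type*} [Field k] [Field Φ] [Algebra k Φ] [Field Ψ] [Algebra ℂ Ψ] (τ : k →+* ℂ)
    (J : Φ →+* Ψ) (hJ : ∀ y : k, J (algebraMap k Φ y) = algebraMap ℂ Ψ (τ y)) {ι : Type*} [Fintype ι]
    (a b : ι → Φ) (h : ∑ i, a i • KaehlerDifferential.D k Φ (b i) = 0) :
    ∑ i, J (a i) • KaehlerDifferential.D ℂ Ψ (J (b i)) = 0 := by
  let _ : Algebra k ℂ := τ.toAlgebra
  let _ : Algebra Φ Ψ := J.toAlgebra
  let _ : Algebra k Ψ := ((algebraMap ℂ Ψ).comp τ).toAlgebra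
  have _ : IsScalarTower k ℂ Ψ := IsScalarTower.of_algebraMap_eq' rfl
  have _ : IsScalarTower k Φ Ψ := by
    refine IsScalarTower.of_algebraMap_eq' ?_
    ext y
    exact (hJ y).symm
  have h1 := congrArg (KaehlerDifferential.map k ℂ Φ Ψ) h
  rw [map_sum, map_zero] at h1
  rw [← h1]
  refine Finset.sum_congr rfl fun i _ => ?_
  rw [map_smul, KaehlerDifferential.map_D]
  rfl

end Pool.Agent.HFB
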