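import Pool.Agent.HFB.DefsA
import Pool.Agent.ESH.TWA

/-!
# HFB / SGR: algebraic relation with bounded coefficients (Siegel)

Let `ν = card ι`, `N = 2 (s² + 2)^s` (`≤ tw 2 s`: `s² + 2 ≤ 2^s`, so `N ≤ 2^(s² + 1) ≤ 2^(2^s)`).  Unknowns: the coefficients `t_m` of `Q`, `m` with all exponents `< N`: `N^(ν+1)` unknowns.  Equations: the coefficients of the
polynomial `∑ t_m x_{i₀}^(m none) ∏ P_k^(m (some k))` in `ι` variables; its total degree is at most `s N · s + N ≤ N (s² + 1)`, so every exponent is at most `N (s² + 1)`, number of equations `≤ (N (s² + 1) + 1)^ν ≤ N^ν (s² + 2)^s ≤ N^(ν+1) / 2`.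
The entries of the matrix are coefficients of products, bounded by `∏ nrm1 (P_k)^(m_k) ≤ s^(s N)` (`nrm1` is submultiplicative, bounds every coefficient).  Siegel's lemma `Int.Matrix.exists_ne_zero_int_vec_norm_le`: exponent `m / (n - m) ≤ 1` since `n ≥ 2 m`:
a non-zero solution bounded by `N^(ν+1) · s^(sN)`.  Numerics (`16 ≤ s`): `N^(s+1) ≤ 2^((s²+1)(s+1)) ≤ 2^(2^s)`; `s^(sN) ≤ 2^(s² N) ≤ tw 3 s` (`s² N ≤ 2^(s² + 1 + s) ≤ 2^(2^s)`), product `≤ tw 4 s`.
(If the matrix is zero, or there are no equations, any unit vector does it; treat these cases separately.)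
-/

namespace Pool.Agent.HFB

open Polynomial Pool.Agent.ESH

private theorem nrm1_eq {ι : Type*} (p : MvPolynomial ι ℤ) (T : Finset (ι →₀ ℕ))
    (hT : p.support ⊆ T) : nrm1 p = ∑ m ∈ T, (p.coeff m).natAbs := by
  apply Finset.sum_subset hT
  intro m _ hm
  rw [MvPolynomial.notMem_support_iff.1 hm, Int.natAbs_zero]

private theorem nrm1_add {ι : Type*} (p q : MvPolynomial ι ℤ) : nrm1 (p + q) ≤ nrm1 p + nrm1 q := by
  classical
  rw [nrm1_eq (p + q) (p.support ∪ q.support) MvPolynomial.support_add,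
    nrm1_eq p (p.support ∪ q.support) Finset.subset_union_left,
    nrm1_eq q (p.support ∪ q.support) Finset.subset_union_right, ← Finset.sum_add_distrib]
  apply Finset.sum_le_sum
  intro m _
  rw [MvPolynomial.coeff_add]
  exact Int.natAbs_add_le _ _

private theorem nrm1_zero {ι : Type*} : nrm1 (0 : MvPolynomial ι ℤ) = 0 := by
  rw [nrm1, MvPolynomial.support_zero, Finset.sum_empty]

private theorem nrm1_sum {ι κ : Type*} (T : Finset κ) (f : κ → MvPolynomial ι ℤ) :
    nrm1 (∑ k ∈ T, f k) ≤ ∑ k ∈ T, nrm1 (f k) := by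
  classical
  induction T using Finset.induction_on with
  | empty => rw [Finset.sum_empty, Finset.sum_empty, nrm1_zero]
  | insert a T ha ih =>
    rw [Finset.sum_insert ha, Finset.sum_insert ha]
    exact (nrm1_add _ _).trans (Nat.add_le_add_left ih _)

private theorem nrm1_monomial {ι : Type*} (m : ι →₀ ℕ) (c : ℤ) :
    nrm1 (MvPolynomial.monomial m c) ≤ c.natAbs := by
  classical
  rw [nrm1_eq (MvPolynomial.monomial m c) {m} MvPolynomial.support_monomial_subset,
    Finset.sum_singleton, MvPolynomial.coeff_monomial, if_pos rfl]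

private theorem nrm1_mul {ι : Type*} (p q : MvPolynomial ι ℤ) : nrm1 (p * q) ≤ nrm1 p * nrm1 q := by
  have h1 : p * q = ∑ a ∈ p.support, ∑ b ∈ q.support,
      MvPolynomial.monomial (a + b) (p.coeff a * q.coeff b) := by
    conv_lhs => rw [p.as_sum, q.as_sum]
    rw [Finset.sum_mul_sum]
    apply Finset.sum_congr rfl
    intro a _
    apply Finset.sum_congr rfl
    intro b _
    rw [MvPolynomial.monomial_mul]
  rw [h1]
  refine (nrm1_sum _ _).trans ?_
  rw [nrm1, nrm1, Finset.sum_mul_sum]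
  apply Finset.sum_le_sum
  intro a _
  refine (nrm1_sum _ _).trans ?_
  apply Finset.sum_le_sum
  intro b _
  refine (nrm1_monomial _ _).trans ?_
  rw [Int.natAbs_mul]

private theorem nrm1_one {ι : Type*} : nrm1 (1 : MvPolynomial ι ℤ) ≤ 1 := by
  have := nrm1_monomial (0 : ι →₀ ℕ) 1
  simpa using this

private theorem nrm1_X {ι : Type*} (i : ι) : nrm1 (MvPolynomial.X i : MvPolynomial ι ℤ) ≤ 1 := by
  have := nrm1_monomial (Finsupp.single i 1) 1
  simpa [MvPolynomial.X] using this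

private theorem nrm1_pow {ι : Type*} (p : MvPolynomial ι ℤ) (k : ℕ) : nrm1 (p ^ k) ≤ nrm1 p ^ k := by
  induction k with
  | zero => rw [pow_zero, pow_zero]; exact nrm1_one
  | succ k ih =>
    rw [pow_succ, pow_succ]
    exact (nrm1_mul _ _).trans (Nat.mul_le_mul_right _ ih)

private theorem nrm1_prod {ι κ : Type*} (T : Finset κ) (f : κ → MvPolynomial ι ℤ) :
    nrm1 (∏ k ∈ T, f k) ≤ ∏ k ∈ T, nrm1 (f k) := by
  classical
  induction T using Finset.induction_on with
  | empty => rw [Finset.prod_empty, Finset.prod_empty]; exact nrm1_one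
  | insert a T ha ih =>
    rw [Finset.prod_insert ha, Finset.prod_insert ha]
    exact (nrm1_mul _ _).trans (Nat.mul_le_mul_left _ ih)

private theorem coeff_le_nrm1 {ι : Type*} (p : MvPolynomial ι ℤ) (m : ι →₀ ℕ) :
    (p.coeff m).natAbs ≤ nrm1 p := by
  by_cases hm : m ∈ p.support
  · exact Finset.single_le_sum (f := fun m => (p.coeff m).natAbs) (fun _ _ => Nat.zero_le _) hm
  · rw [MvPolynomial.notMem_support_iff.1 hm, Int.natAbs_zero]
    exact Nat.zero_le _

/-- `x² ≤ 2^x`, `(x²+1)(x+1) ≤ 2^x` for `16 ≤ x` -/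
private theorem num0 (s : ℕ) (hs : 16 ≤ s) : (s * s + 1) * (s + 1) ≤ 2 ^ s := by
  induction s, hs using Nat.le_induction with
  | base => norm_num
  | succ n hn ih =>
    rw [pow_succ]
    nlinarith

private theorem num1 (s : ℕ) (hs : 16 ≤ s) : 2 * (s * s + 2) ^ s ≤ 2 ^ (s * s + 1) := by
  have h1 : s * s + 2 ≤ 2 ^ s := by
    have := num0 s hs
    nlinarith
  calc 2 * (s * s + 2) ^ s ≤ 2 * (2 ^ s) ^ s := Nat.mul_le_mul_left _ (Nat.pow_le_pow_left h1 s)
    _ = 2 ^ (s * s + 1) := by rw [← pow_mul, pow_succ]; ring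

section

attribute [local instance] Matrix.seminormedAddCommGroup

private theorem siegel {α β : Type*} [Fintype α] [Fintype β] (A : Matrix α β ℤ) (B : ℕ)
    (hA : ∀ a b, (A a b).natAbs ≤ B) (hB : 1 ≤ B) (h0 : 0 < Fintype.card α)
    (h2 : 2 * Fintype.card α ≤ Fintype.card β) :
    ∃ t : β → ℤ, t ≠ 0 ∧ A.mulVec t = 0 ∧ ∀ b, (t b).natAbs ≤ Fintype.card β * B := by
  obtain ⟨t, ht0, ht1, ht2⟩ := Int.Matrix.exists_ne_zero_int_vec_norm_le A (by omega) h0
  refine ⟨t, ht0, ht1, fun b => ?_⟩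
  have h3 : ‖t b‖ ≤ ‖t‖ := norm_le_pi_norm t b
  have h4 : ‖A‖ ≤ (B : ℝ) := by
    rw [Matrix.norm_le_iff (Nat.cast_nonneg B)]
    intro a b
    rw [Int.norm_eq_abs]
    have := hA a b
    rw [← Int.cast_abs, Int.abs_eq_natAbs]
    exact_mod_cast this
  have h5 : (1 : ℝ) ≤ Fintype.card β * max 1 ‖A‖ := by
    have h6 : (1 : ℝ) ≤ Fintype.card β := by
      have : 1 ≤ Fintype.card β := by omega
      exact_mod_cast this
    have h7 : (1 : ℝ) ≤ max 1 ‖A‖ := le_max_left _ _
    nlinarith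
  have h6 : ((Fintype.card α : ℝ) / ((Fintype.card β : ℝ) - Fintype.card α)) ≤ 1 := by
    have h7 : (2 : ℝ) * Fintype.card α ≤ Fintype.card β := by exact_mod_cast h2
    have h8 : (0 : ℝ) < Fintype.card α := by exact_mod_cast h0
    rw [div_le_one (by linarith)]
    linarith
  have h7 : ‖t‖ ≤ Fintype.card β * max 1 ‖A‖ := by
    refine ht2.trans ?_
    calc _ ≤ ((Fintype.card β : ℝ) * max 1 ‖A‖) ^ (1 : ℝ) := Real.rpow_le_rpow_of_exponent_le h5 h6
      _ = _ := Real.rpow_one _
  have h8 : max 1 ‖A‖ ≤ (B : ℝ) := max_le (by exact_mod_cast hB) h4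
  have h9 : ‖t b‖ ≤ (Fintype.card β : ℝ) * B :=
    h3.trans (h7.trans (mul_le_mul_of_nonneg_left h8 (Nat.cast_nonneg _)))
  rw [Int.norm_eq_abs, ← Int.cast_abs, Int.abs_eq_natAbs] at h9
  exact_mod_cast h9

end

/-- the exponent vector of a bounded function -/
private noncomputable def ev {κ : Type*} [Finite κ] {N : ℕ} (b : κ → Fin N) : κ →₀ ℕ :=
  Finsupp.equivFunOnFinite.symm fun o => (b o : ℕ)

private theorem ev_apply {κ : Type*} [Finite κ] {N : ℕ} (b : κ → Fin N) (o : κ) :
    ev b o = (b o : ℕ) := rfl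

private theorem ev_inj {κ : Type*} [Finite κ] {N : ℕ} {b c : κ → Fin N} (h : ev b = ev c) :
    b = c := by
  funext o
  apply Fin.ext
  rw [← ev_apply, h, ev_apply]

theorem sgr {ι : Type*} [Fintype ι] (P : ι → MvPolynomial ι ℤ) (i₀ : ι) (s : ℕ) (hs : 16 ≤ s)
    (hι : Fintype.card ι ≤ s) (hD : ∀ k, (P k).totalDegree ≤ s) (hH : ∀ k, nrm1 (P k) ≤ s) :
    ∃ Q : MvPolynomial (Option ι) ℤ, Q ≠ 0 ∧ (∀ o, Q.degreeOf o < tw 2 s) ∧
      (∀ m, (Q.coeff m).natAbs ≤ tw 4 s) ∧
      MvPolynomial.aeval (fun o : Option ι => o.elim (MvPolynomial.X i₀) P) Q = 0 := by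
  classical
  obtain ⟨N, hN⟩ : ∃ N : ℕ, N = 2 * (s * s + 2) ^ s := ⟨_, rfl⟩
  obtain ⟨M, hM⟩ : ∃ M : ℕ, M = N * (s * s + 1) + 1 := ⟨_, rfl⟩
  have hs0 : s * s ≤ 2 ^ s := by have := num0 s hs; nlinarith
  have hN1 : N ≤ 2 ^ (s * s + 1) := by rw [hN]; exact num1 s hs
  have hN0 : 1 ≤ N := by
    rw [hN]
    have : 1 ≤ (s * s + 2) ^ s := Nat.one_le_pow _ _ (by omega)
    omega
  have hN2 : N ≤ tw 2 s := by
    refine hN1.trans ?_
    change _ ≤ 2 ^ 2 ^ s
    apply Nat.pow_le_pow_right (by norm_num)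
    have := num0 s hs
    nlinarith
  obtain ⟨g, hg⟩ : ∃ g : Option ι → MvPolynomial ι ℤ, g = fun o => o.elim (MvPolynomial.X i₀) P :=
    ⟨_, rfl⟩
  have hgn : g none = MvPolynomial.X i₀ := by rw [hg]; rfl
  have hgs : ∀ k, g (some k) = P k := fun k => by rw [hg]; rfl
  rw [← hg]
  let mon : (Option ι → Fin N) → MvPolynomial ι ℤ := fun b => ∏ o, g o ^ (b o : ℕ)
  have hmondeg : ∀ b, (mon b).totalDegree ≤ N * (s * s + 1) := by
    intro b
    refine (MvPolynomial.totalDegree_finsetProd _ _).trans ?_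
    rw [Fintype.sum_option]
    have h1 : (g none ^ (b none : ℕ)).totalDegree ≤ N := by
      refine (MvPolynomial.totalDegree_pow _ _).trans ?_
      rw [hgn, MvPolynomial.totalDegree_X, mul_one]
      exact (b none).2.le
    have h2 : ∀ k ∈ (Finset.univ : Finset ι), (g (some k) ^ (b (some k) : ℕ)).totalDegree ≤ N * s := by
      intro k _
      refine (MvPolynomial.totalDegree_pow _ _).trans ?_
      rw [hgs]
      exact Nat.mul_le_mul (b (some k)).2.le (hD k)
    have h3 := Finset.sum_le_sum h2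
    rw [Finset.sum_const, Finset.card_univ, smul_eq_mul] at h3
    have h4 : Fintype.card ι * (N * s) ≤ s * (N * s) := Nat.mul_le_mul_right _ hι
    calc _ ≤ N + s * (N * s) := Nat.add_le_add h1 (h3.trans h4)
      _ = N * (s * s + 1) := by ring
  have hmonnrm : ∀ b, nrm1 (mon b) ≤ s ^ (s * N) := by
    intro b
    refine (nrm1_prod _ _).trans ?_
    rw [Fintype.prod_option]
    have h1 : nrm1 (g none ^ (b none : ℕ)) ≤ 1 := by
      refine (nrm1_pow _ _).trans ?_
      rw [hgn]
      calc _ ≤ 1 ^ (b none : ℕ) := Nat.pow_le_pow_left (nrm1_X i₀) _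
        _ = 1 := one_pow _
    have h2 : ∀ k ∈ (Finset.univ : Finset ι), nrm1 (g (some k) ^ (b (some k) : ℕ)) ≤ s ^ N := by
      intro k _
      refine (nrm1_pow _ _).trans ?_
      rw [hgs]
      exact (Nat.pow_le_pow_left (hH k) _).trans
        (Nat.pow_le_pow_right (by omega) (b (some k)).2.le)
    have h3 := Finset.prod_le_prod' h2
    rw [Finset.prod_const, Finset.card_univ] at h3
    calc _ ≤ 1 * (s ^ N) ^ Fintype.card ι := Nat.mul_le_mul h1 h3
      _ = (s ^ N) ^ Fintype.card ι := one_mul _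
      _ ≤ (s ^ N) ^ s := Nat.pow_le_pow_right (Nat.one_le_pow _ _ (by omega)) hι
      _ = s ^ (s * N) := by rw [← pow_mul, mul_comm N s]
  let A : Matrix (ι → Fin M) (Option ι → Fin N) ℤ := fun a b => (mon b).coeff (ev a)
  have hA : ∀ a b, (A a b).natAbs ≤ s ^ (s * N) := fun a b =>
    (coeff_le_nrm1 _ _).trans (hmonnrm b)
  have hMpos : 0 < M := by omega
  have hca : Fintype.card (ι → Fin M) = M ^ Fintype.card ι := by
    rw [Fintype.card_fun, Fintype.card_fin]
  have hcb : Fintype.card (Option ι → Fin N) = N ^ (Fintype.card ι + 1) := by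
    rw [Fintype.card_fun, Fintype.card_fin, Fintype.card_option]
  have hca0 : 0 < Fintype.card (ι → Fin M) := by
    rw [hca]
    exact Nat.pow_pos hMpos
  have h2c : 2 * Fintype.card (ι → Fin M) ≤ Fintype.card (Option ι → Fin N) := by
    rw [hca, hcb]
    have h1 : M ≤ N * (s * s + 2) := by
      rw [hM]
      nlinarith
    calc 2 * M ^ Fintype.card ι ≤ 2 * (N * (s * s + 2)) ^ Fintype.card ι :=
          Nat.mul_le_mul_left _ (Nat.pow_le_pow_left h1 _)
      _ = N ^ Fintype.card ι * (2 * (s * s + 2) ^ Fintype.card ι) := by rw [mul_pow]; ring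
      _ ≤ N ^ Fintype.card ι * (2 * (s * s + 2) ^ s) :=
          Nat.mul_le_mul_left _ (Nat.mul_le_mul_left _ (Nat.pow_le_pow_right (by omega) hι))
      _ = N ^ (Fintype.card ι + 1) := by rw [← hN, pow_succ]
  obtain ⟨t, ht0, ht1, ht2⟩ := siegel A (s ^ (s * N)) hA (Nat.one_le_pow _ _ (by omega)) hca0 h2c
  let Q : MvPolynomial (Option ι) ℤ := ∑ b, MvPolynomial.monomial (ev b) (t b)
  have hQco : ∀ m, Q.coeff m = ∑ b, if ev b = m then t b else 0 := by
    intro m
    change (∑ b, MvPolynomial.monomial (ev b) (t b)).coeff m = _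
    rw [MvPolynomial.coeff_sum]
    apply Finset.sum_congr rfl
    intro b _
    rw [MvPolynomial.coeff_monomial]
  have hQev : ∀ b, Q.coeff (ev b) = t b := by
    intro b
    rw [hQco, Finset.sum_eq_single b]
    · rw [if_pos rfl]
    · intro c _ hc
      rw [if_neg fun h => hc (ev_inj h)]
    · intro h
      exact absurd (Finset.mem_univ _) h
  have hQne : ∀ m, Q.coeff m ≠ 0 → ∃ b : Option ι → Fin N, ev b = m := by
    intro m hm
    by_contra hc
    push Not at hc
    apply hm
    rw [hQco]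
    apply Finset.sum_eq_zero
    intro b _
    rw [if_neg (hc b)]
  refine ⟨Q, ?_, ?_, ?_, ?_⟩
  · intro hQ
    apply ht0
    funext b
    rw [← hQev b, hQ, MvPolynomial.coeff_zero]
    rfl
  · intro o
    rw [MvPolynomial.degreeOf_lt_iff (lt_of_lt_of_le (by omega) (le_tw 2 s))]
    intro m hm
    obtain ⟨b, rfl⟩ := hQne m (MvPolynomial.mem_support_iff.1 hm)
    rw [ev_apply]
    exact lt_of_lt_of_le (b o).2 hN2
  · intro m
    by_cases hm : Q.coeff m = 0
    · rw [hm, Int.natAbs_zero]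
      exact Nat.zero_le _
    · obtain ⟨b, rfl⟩ := hQne m hm
      rw [hQev]
      refine (ht2 b).trans ?_
      rw [hcb]
      have h1 : N ^ (Fintype.card ι + 1) ≤ tw 3 s := by
        refine le_trans ?_ (tw_mono (c := 2) (d := 3) (by norm_num) le_rfl)
        calc N ^ (Fintype.card ι + 1) ≤ N ^ (s + 1) := Nat.pow_le_pow_right hN0 (by omega)
          _ ≤ (2 ^ (s * s + 1)) ^ (s + 1) := Nat.pow_le_pow_left hN1 _
          _ = 2 ^ ((s * s + 1) * (s + 1)) := by rw [← pow_mul]
          _ ≤ 2 ^ 2 ^ s := Nat.pow_le_pow_right (by norm_num) (num0 s hs)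
      have h2 : s ^ (s * N) ≤ tw 3 s := by
        have h3 : s * (s * N) ≤ tw 2 s := by
          calc s * (s * N) = (s * s) * N := by ring
            _ ≤ 2 ^ s * 2 ^ (s * s + 1) := Nat.mul_le_mul hs0 hN1
            _ = 2 ^ (s + (s * s + 1)) := by rw [← pow_add]
            _ ≤ 2 ^ 2 ^ s := by
              apply Nat.pow_le_pow_right (by norm_num)
              have := num0 s hs
              nlinarith
        calc s ^ (s * N) ≤ (2 ^ s) ^ (s * N) :=
              Nat.pow_le_pow_left (Nat.lt_two_pow_self).le _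
          _ = 2 ^ (s * (s * N)) := by rw [← pow_mul]
          _ ≤ 2 ^ tw 2 s := Nat.pow_le_pow_right (by norm_num) h3
      exact tw_mul hs h1 h2
  · have h1 : MvPolynomial.aeval g Q = ∑ b, MvPolynomial.C (t b) * mon b := by
      change MvPolynomial.aeval g (∑ b, MvPolynomial.monomial (ev b) (t b)) = _
      rw [map_sum]
      apply Finset.sum_congr rfl
      intro b _
      rw [MvPolynomial.aeval_monomial, Finsupp.prod_fintype _ _ (fun o => pow_zero _)]
      rfl
    rw [h1]
    ext m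
    rw [MvPolynomial.coeff_sum, MvPolynomial.coeff_zero]
    simp only [MvPolynomial.coeff_C_mul]
    by_cases hm : ∀ i, m i < M
    · have h2 : m = ev (fun i => (⟨m i, hm i⟩ : Fin M)) := by
        ext i
        rw [ev_apply]
      have h3 := congrFun ht1 (fun i => (⟨m i, hm i⟩ : Fin M))
      rw [Matrix.mulVec, dotProduct, Pi.zero_apply] at h3
      rw [← h3]
      apply Finset.sum_congr rfl
      intro b _
      change _ = (mon b).coeff (ev _) * t b
      rw [← h2, mul_comm]
    · push Not at hm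
      obtain ⟨i, hi⟩ := hm
      apply Finset.sum_eq_zero
      intro b _
      have h2 : (mon b).coeff m = 0 := by
        by_contra hc
        have h3 := MvPolynomial.le_totalDegree (MvPolynomial.mem_support_iff.2 hc)
        have h4 := hmondeg b
        have h5 : m i ≤ m.sum fun _ e => e := by
          rw [Finsupp.sum_fintype _ _ (fun _ => rfl)]
          exact Finset.single_le_sum (f := fun i => m i) (fun _ _ => Nat.zero_le _)
            (Finset.mem_univ i)
        omega
      rw [h2, mul_zero]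

end Pool.Agent.HFB
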