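import Pool.Agent.HFB.SCX

/-!
# HFB / SYS: the equations of the structure constants hold

All from uniqueness (`rgm_uniq`) and `rgm_deg`: `comm`: `u_i u_j = u_j u_i`.  `assoc`: `(u_i u_j) u_k = (u_j u_k) u_i`: coefficients of `u_m`.  `leib`: `∇ = x (x-1) d/dx` is a derivation, `∇ (aeval x p) = aeval x (X (X-1) p')`; apply it to `u_i u_j = ∑ c_ijk u_k`.  `degc`, `degN`: `rgm_deg` with `rgm_mul`, `scx_der`.
-/

namespace Pool.Agent.HFB

open Polynomial Pool.Agent.Helper11 Pool.Agent.ESH

variable {K Φ : Type*} [Field K] [Field Φ] [Algebra K Φ] [FunField K Φ] [CharZero K] [IsAlgClosed K]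
  {x : Φ} {n : ℕ} {d : Fin n → ℕ} {u : Fin n → Φ}

private theorem comb_sum {a : Fin n → K[X]} {b : Fin n → Fin n → K[X]} :
    ∑ l, aeval x (a l) * ∑ m, aeval x (b l m) * u m = ∑ m, aeval x (∑ l, a l * b l m) * u m := by
  simp only [Finset.mul_sum, map_sum, map_mul, Finset.sum_mul]
  rw [Finset.sum_comm]
  refine Finset.sum_congr rfl fun m _ => Finset.sum_congr rfl fun l _ => ?_
  ring

theorem sys (hβ : IsBelyi K x) (hu : RBas K x d u) {c : Fin n → Fin n → Fin n → K[X]}
    {N : Fin n → Fin n → K[X]} (h : SCon x u c N) : Sys d c N := by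
  have hx0 : x ≠ 0 := by
    rintro rfl
    exact hβ.1 (isAlgebraic_zero)
  have hx1 : x - 1 ≠ 0 := by
    intro h0
    have h1 : x = 1 := sub_eq_zero.1 h0
    exact hβ.1 (by rw [h1]; exact isAlgebraic_one)
  have hder : ∀ i, x * (x - 1) * der hβ.1 (u i) = ∑ k, aeval x (N i k) * u k := by
    intro i
    have h1 := h.der i
    have h2 : KaehlerDifferential.D K Φ (u i) =
        ((x * (x - 1))⁻¹ * ∑ k, aeval x (N i k) * u k) • KaehlerDifferential.D K Φ x := by
      rw [mul_smul, ← h1, smul_smul, inv_mul_cancel₀ (mul_ne_zero hx0 hx1), one_smul]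
    rw [der_eq_of_D_eq hβ.1 h2, mul_inv_cancel_left₀ (mul_ne_zero hx0 hx1)]
  have hpol : ∀ p : K[X], x * (x - 1) * der hβ.1 (aeval x p) =
      aeval x (X * (X - 1) * derivative p) := by
    intro p
    rw [Derivation.map_aeval, der_self]
    simp
  refine ⟨?_, ?_, ?_, ?_, ?_⟩
  · intro i j k s hs
    refine rgm_deg hu (p := c i j) (m := d i + d j) ?_ k s hs
    rw [← h.mul]
    exact rgm_mul (hu.mem i) (hu.mem j)
  · intro i k s hs
    refine rgm_deg hu (p := N i) (m := d i + 1) ?_ k s hs
    rw [← hder]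
    exact scx_der hβ (hu.mem i)
  · intro i j k
    have h1 : ∑ k, aeval x (c i j k) * u k = ∑ k, aeval x (c j i k) * u k := by
      rw [← h.mul, ← h.mul, mul_comm]
    exact congrFun (rgm_uniq hu h1) k
  · intro i j k m
    have h1 : ∑ m, aeval x (∑ l, c i j l * c l k m) * u m =
        ∑ m, aeval x (∑ l, c j k l * c i l m) * u m := by
      rw [← comb_sum, ← comb_sum]
      simp only [← h.mul]
      calc ∑ l, aeval x (c i j l) * (u l * u k) = (∑ l, aeval x (c i j l) * u l) * u k := by
            rw [Finset.sum_mul]; exact Finset.sum_congr rfl fun l _ => by ring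
        _ = u i * (∑ l, aeval x (c j k l) * u l) := by
            rw [← h.mul, ← h.mul]; ring
        _ = ∑ l, aeval x (c j k l) * (u i * u l) := by
            rw [Finset.mul_sum]; exact Finset.sum_congr rfl fun l _ => by ring
    exact congrFun (rgm_uniq hu h1) m
  · intro i j k
    have h1 : ∑ k, aeval x (X * (X - 1) * derivative (c i j k) + ∑ l, c i j l * N l k) * u k =
        ∑ k, aeval x (∑ l, N i l * c l j k + ∑ l, N j l * c i l k) * u k := by
      simp only [map_add, add_mul, Finset.sum_add_distrib]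
      rw [← comb_sum, ← comb_sum, ← comb_sum]
      simp only [← h.mul, ← hder, ← hpol]
      have e1 : x * (x - 1) * der hβ.1 (u i * u j) =
          ∑ k, (x * (x - 1) * der hβ.1 (aeval x (c i j k)) * u k) +
          ∑ k, aeval x (c i j k) * (x * (x - 1) * der hβ.1 (u k)) := by
        rw [h.mul, map_sum, Finset.mul_sum, ← Finset.sum_add_distrib]
        refine Finset.sum_congr rfl fun k _ => ?_
        rw [Derivation.leibniz, smul_eq_mul, smul_eq_mul]
        ring
      have e2 : x * (x - 1) * der hβ.1 (u i * u j) =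
          ∑ l, aeval x (N i l) * (u l * u j) + ∑ l, aeval x (N j l) * (u i * u l) := by
        have e3 : ∑ l, aeval x (N i l) * (u l * u j) = (∑ l, aeval x (N i l) * u l) * u j := by
          rw [Finset.sum_mul]; exact Finset.sum_congr rfl fun l _ => by ring
        have e4 : ∑ l, aeval x (N j l) * (u i * u l) = u i * (∑ l, aeval x (N j l) * u l) := by
          rw [Finset.mul_sum]; exact Finset.sum_congr rfl fun l _ => by ring
        rw [e3, e4, ← hder, ← hder, Derivation.leibniz, smul_eq_mul, smul_eq_mul]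
        ring
      rw [← e1, ← e2]
    exact congrFun (rgm_uniq hu h1) k

end Pool.Agent.HFB
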