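import Pool.Agent.HFB.RIG
import Pool.Agent.HFB.RIN
import Pool.Agent.HFB.GAC
import Pool.Agent.HFB.GAF
import Pool.Agent.HFB.IDN
import Pool.Agent.HFB.ADM
import Pool.Agent.HFB.DOM
import Pool.Agent.HFB.TAY
import Pool.Agent.HFB.SYS
import Pool.Agent.HFB.SCX
import Pool.Agent.ESH.COL

/-!
# HFB / SLC: a good point on the orbit

`s₀ = n + M + 16`.  Structure constants `c, N` of `u` (`scx`), `sys`.  `Ψ(c, N) θ` := the vector in `ZI n M → C` of the coefficients of `psiC c θ`, `psiN N θ`, for `θ = gZ w`, `w : GI d M → C`; its entries are linear in `w`, with coefficients which are affine linear in the coefficients of `c`, `N` (integral linear combinations of the coefficients of `c`, `N` and constants).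
(1) By RIN `w ↦ Ψ(c, N) w` is injective (all degrees of `psiC c θ`, `psiN N θ` are `< M`: degree bounds), so there is an injective `J : GI d M → ZI n M` such that `w ↦ (Ψ(c, N) w)_J` is injective (ESH / COL `exists_minor`).
(2) `p_ζ = admP d c N ζ`, `u₀ = admU`.  At `γ₁` = the coefficient vector of the matrix `1` (`gZ γ₁ = 1`): by `tay_dual`, ADM (with `S = TrivSqZeroExt C C`) and IDN (`e = ε`): the derivative of `p_ζ` at `γ₁` in the direction `w` is `(Ψ w)_ζ + τ z_ζ`, the one of `u₀` is `τ`, where `τ = ∑_l θ_ll` (a constant by the degree bounds; `z_ζ` = coefficients of `c`, `N`);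
`u₀(γ₁) = 1`, `p_ζ(γ₁) = z_ζ`.  So the hypothesis of DOM is the injectivity in (1).
(3) `q` = the determinant of the matrix (`GI × GI`) of the map `w ↦ (Ψ(c_γ, N_γ) w)_J` multiplied by `u₀`, where `c_γ = p / u₀`: entries = integral linear combinations of the `p_ζ` and `u₀`: polynomial of total degree `≤ card GI · (n + 1) ≤ n² M (n + 1) ≤ 2^(s₀)`; `q(γ₁) ≠ 0` by (1).
(4) DOM with `s = tw 1 s₀` : `a ≤ tw 4 s₀` and `γ` with `u₀(γ) ≠ 0`, `q(γ) ≠ 0`, `p_{J t}(γ) = a_t u₀(γ)`.  `g = gZ γ`: `det g = C δ` (`gac_det`), `δ = u₀(γ)`.  `u' = g u` is a reduced basis (GAC) with structure constants `c' = δ⁻¹ polC c g`, `N' = δ⁻¹ polN N g` (GAF); coefficients: `z'_ζ = p_ζ(γ)/u₀(γ)` (ADM), so `z'_{J t} = a_t`.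
(5) If `LSys d c' N' (cZ w) (nZ w)` and `w ∘ J = 0`: RIG for `u'` gives `θ` with `cZ w = psiC c' θ`, `nZ w = psiN N' θ`, i.e. `w = Ψ(c', N') w'` with `θ = gZ w'`; `q(γ) ≠ 0` gives `w' = 0`, `w = 0`.
-/

namespace Pool.Agent.HFB

open Polynomial Pool.Agent.Helper11 Pool.Agent.ESH

/-! ### coefficients of generic polynomials -/

private theorem slc_coeff {R : Type*} [CommRing R] {M : ℕ} (a : Fin M → R) (t : ℕ) :
    (∑ s : Fin M, C (a s) * X ^ (s : ℕ) : R[X]).coeff t = if h : t < M then a ⟨t, h⟩ else 0 := by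
  rw [Polynomial.finsetSum_coeff]
  simp only [Polynomial.coeff_C_mul, Polynomial.coeff_X_pow]
  split_ifs with h
  · rw [Finset.sum_eq_single (⟨t, h⟩ : Fin M)]
    · simp
    · intro b _ hb
      rw [if_neg, mul_zero]
      intro hh
      apply hb
      apply Fin.ext
      exact hh.symm
    · intro hh
      exact absurd (Finset.mem_univ _) hh
  · apply Finset.sum_eq_zero
    intro b _
    rw [if_neg, mul_zero]
    intro hh
    apply h
    rw [hh]
    exact b.2

private theorem slc_cZ {R : Type*} [CommRing R] {n M : ℕ} (z : ZI n M → R) (i j k : Fin n) (t : ℕ) :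
    (cZ z i j k).coeff t = if h : t < M then z (Sum.inl (i, j, k, ⟨t, h⟩)) else 0 :=
  slc_coeff (fun s => z (Sum.inl (i, j, k, s))) t

private theorem slc_nZ {R : Type*} [CommRing R] {n M : ℕ} (z : ZI n M → R) (i k : Fin n) (t : ℕ) :
    (nZ z i k).coeff t = if h : t < M then z (Sum.inr (i, k, ⟨t, h⟩)) else 0 :=
  slc_coeff (fun s => z (Sum.inr (i, k, s))) t

private theorem slc_gZ_eq {R : Type*} [CommRing R] {n M : ℕ} {d : Fin n → ℕ} (w : GI d M → R)
    (i j : Fin n) : gZ w i j = ∑ s : Fin M, C (if h : (s : ℕ) + d j ≤ d i then w ⟨(i, j, s), h⟩ else 0) * X ^ (s : ℕ) := by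
  unfold gZ
  refine Finset.sum_congr rfl fun s _ => ?_
  split_ifs <;> simp

private theorem slc_gZ {R : Type*} [CommRing R] {n M : ℕ} {d : Fin n → ℕ} (w : GI d M → R)
    (i j : Fin n) (t : ℕ) : (gZ w i j).coeff t = if h : t < M then
      (if h' : t + d j ≤ d i then w ⟨(i, j, ⟨t, h⟩), h'⟩ else 0) else 0 := by
  rw [slc_gZ_eq, slc_coeff]

private theorem slc_cZ_map {R S : Type*} [CommRing R] [CommRing S] (φ : R →+* S) {n M : ℕ}
    (z : ZI n M → R) (i j k : Fin n) : (cZ z i j k).map φ = cZ (fun ζ => φ (z ζ)) i j k := by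
  ext t
  rw [Polynomial.coeff_map, slc_cZ, slc_cZ]
  split_ifs <;> simp

private theorem slc_nZ_map {R S : Type*} [CommRing R] [CommRing S] (φ : R →+* S) {n M : ℕ}
    (z : ZI n M → R) (i k : Fin n) : (nZ z i k).map φ = nZ (fun ζ => φ (z ζ)) i k := by
  ext t
  rw [Polynomial.coeff_map, slc_nZ, slc_nZ]
  split_ifs <;> simp

private theorem slc_gZ_map {R S : Type*} [CommRing R] [CommRing S] (φ : R →+* S) {n M : ℕ}
    {d : Fin n → ℕ} (w : GI d M → R) (i j : Fin n) :
    (gZ w i j).map φ = gZ (fun t => φ (w t)) i j := by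
  ext t
  rw [Polynomial.coeff_map, slc_gZ, slc_gZ]
  split_ifs <;> simp

private theorem slc_cZ_add {R : Type*} [CommRing R] {n M : ℕ}
    (z z' : ZI n M → R) (i j k : Fin n) : cZ (z + z') i j k = cZ z i j k + cZ z' i j k := by
  ext t
  rw [Polynomial.coeff_add, slc_cZ, slc_cZ, slc_cZ]
  split_ifs <;> simp

private theorem slc_cZ_smul {R : Type*} [CommRing R] {n M : ℕ} (a : R)
    (z : ZI n M → R) (i j k : Fin n) : cZ (fun ζ => a * z ζ) i j k = C a * cZ z i j k := by
  ext t
  rw [Polynomial.coeff_C_mul, slc_cZ, slc_cZ]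
  split_ifs <;> simp

private theorem slc_nZ_smul {R : Type*} [CommRing R] {n M : ℕ} (a : R)
    (z : ZI n M → R) (i k : Fin n) : nZ (fun ζ => a * z ζ) i k = C a * nZ z i k := by
  ext t
  rw [Polynomial.coeff_C_mul, slc_nZ, slc_nZ]
  split_ifs <;> simp

private theorem slc_gZ_add {R : Type*} [CommRing R] {n M : ℕ} {d : Fin n → ℕ}
    (w w' : GI d M → R) (i j : Fin n) : gZ (w + w') i j = gZ w i j + gZ w' i j := by
  ext t
  rw [Polynomial.coeff_add, slc_gZ, slc_gZ, slc_gZ]
  split_ifs <;> simp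

private theorem slc_gZ_smul {R : Type*} [CommRing R] {n M : ℕ} {d : Fin n → ℕ} (a : R)
    (w : GI d M → R) (i j : Fin n) : gZ (a • w) i j = C a * gZ w i j := by
  ext t
  rw [Polynomial.coeff_C_mul, slc_gZ, slc_gZ]
  split_ifs <;> simp

/-! ### the scaled infinitesimal action -/

private noncomputable def slcA {R : Type*} [CommRing R] {n M : ℕ} {d : Fin n → ℕ} (U : R)
    (z : ZI n M → R) (w : GI d M → R) : ZI n M → R
  | Sum.inl (i, j, k, s) => (psiC (cZ z) (gZ w) i j k).coeff s
  | Sum.inr (i, k, s) => (C U * (X * (X - 1) * derivative (gZ w i k)) + ∑ l, gZ w i l * nZ z l k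
      - ∑ l, nZ z i l * gZ w l k).coeff s

private theorem slcA_hom {R S : Type*} [CommRing R] [CommRing S] (φ : R →+* S) {n M : ℕ}
    {d : Fin n → ℕ} (U : R) (z : ZI n M → R) (w : GI d M → R) (ζ : ZI n M) :
    φ (slcA U z w ζ) = slcA (φ U) (fun ζ => φ (z ζ)) (fun t => φ (w t)) ζ := by
  rcases ζ with ⟨i, j, k, s⟩ | ⟨i, k, s⟩
  · simp only [slcA]
    rw [← Polynomial.coeff_map]
    simp only [psiC, Polynomial.map_sub, Polynomial.map_add, Polynomial.map_sum,
      Polynomial.map_mul, slc_cZ_map, slc_gZ_map]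
  · simp only [slcA]
    rw [← Polynomial.coeff_map]
    simp only [Polynomial.map_sub, Polynomial.map_add, Polynomial.map_sum,
      Polynomial.map_mul, Polynomial.map_C, Polynomial.map_X, Polynomial.map_one,
      ← Polynomial.derivative_map, slc_nZ_map, slc_gZ_map]

private theorem slcA_scale {R : Type*} [CommRing R] {n M : ℕ}
    {d : Fin n → ℕ} (a U : R) (z : ZI n M → R) (w : GI d M → R) (ζ : ZI n M) :
    slcA (a * U) (fun ζ => a * z ζ) w ζ = a * slcA U z w ζ := by
  rcases ζ with ⟨i, j, k, s⟩ | ⟨i, k, s⟩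
  · simp only [slcA]
    rw [← Polynomial.coeff_C_mul]
    refine congrArg (fun p : R[X] => p.coeff (s : ℕ)) ?_
    simp only [psiC, slc_cZ_smul, mul_add, mul_sub, Finset.mul_sum]
    refine congrArg₂ (fun p q : R[X] => p - q) (congrArg₂ (fun p q : R[X] => p + q) ?_ ?_) ?_
    · exact Finset.sum_congr rfl fun l _ => by ring
    · exact Finset.sum_congr rfl fun l _ => by ring
    · exact Finset.sum_congr rfl fun l _ => by ring
  · simp only [slcA]
    rw [← Polynomial.coeff_C_mul]
    refine congrArg (fun p : R[X] => p.coeff (s : ℕ)) ?_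
    simp only [slc_nZ_smul, mul_add, mul_sub, Finset.mul_sum, C_mul]
    refine congrArg₂ (fun p q : R[X] => p - q) (congrArg₂ (fun p q : R[X] => p + q) ?_ ?_) ?_
    · ring
    · exact Finset.sum_congr rfl fun l _ => by ring
    · exact Finset.sum_congr rfl fun l _ => by ring

private theorem slcA_add {R : Type*} [CommRing R] {n M : ℕ}
    {d : Fin n → ℕ} (U : R) (z : ZI n M → R) (w w' : GI d M → R) (ζ : ZI n M) :
    slcA U z (w + w') ζ = slcA U z w ζ + slcA U z w' ζ := by
  rcases ζ with ⟨i, j, k, s⟩ | ⟨i, k, s⟩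
  · simp only [slcA]
    rw [← Polynomial.coeff_add]
    refine congrArg (fun p : R[X] => p.coeff (s : ℕ)) ?_
    simp only [psiC, slc_gZ_add, mul_add, add_mul, Finset.sum_add_distrib]
    ring
  · simp only [slcA]
    rw [← Polynomial.coeff_add]
    refine congrArg (fun p : R[X] => p.coeff (s : ℕ)) ?_
    simp only [slc_gZ_add, mul_add, add_mul, Finset.sum_add_distrib, derivative_add]
    ring

private theorem slcA_smul {R : Type*} [CommRing R] {n M : ℕ}
    {d : Fin n → ℕ} (U a : R) (z : ZI n M → R) (w : GI d M → R) (ζ : ZI n M) :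
    slcA U z (a • w) ζ = a * slcA U z w ζ := by
  rcases ζ with ⟨i, j, k, s⟩ | ⟨i, k, s⟩
  · simp only [slcA]
    rw [← Polynomial.coeff_C_mul]
    refine congrArg (fun p : R[X] => p.coeff (s : ℕ)) ?_
    simp only [psiC, slc_gZ_smul, mul_add, mul_sub, Finset.mul_sum]
    refine congrArg₂ (fun p q : R[X] => p - q) (congrArg₂ (fun p q : R[X] => p + q) ?_ ?_) ?_
    · exact Finset.sum_congr rfl fun l _ => by ring
    · exact Finset.sum_congr rfl fun l _ => by ring
    · exact Finset.sum_congr rfl fun l _ => by ring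
  · simp only [slcA]
    rw [← Polynomial.coeff_C_mul]
    refine congrArg (fun p : R[X] => p.coeff (s : ℕ)) ?_
    simp only [slc_gZ_smul, mul_add, mul_sub, Finset.mul_sum, derivative_C_mul]
    refine congrArg₂ (fun p q : R[X] => p - q) (congrArg₂ (fun p q : R[X] => p + q) ?_ ?_) ?_
    · ring
    · exact Finset.sum_congr rfl fun l _ => by ring
    · exact Finset.sum_congr rfl fun l _ => by ring

private noncomputable def slcE {R : Type*} [CommRing R] {n M : ℕ} {d : Fin n → ℕ} (t : GI d M) :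
    GI d M → R := fun t' => if t = t' then 1 else 0

private theorem slcA_lin {R : Type*} [CommRing R] {n M : ℕ}
    {d : Fin n → ℕ} (U : R) (z : ZI n M → R) (w : GI d M → R) (ζ : ZI n M) :
    slcA U z w ζ = ∑ t, w t * slcA U z (slcE t) ζ := by
  let f : (GI d M → R) →ₗ[R] R :=
    { toFun := fun w => slcA U z w ζ
      map_add' := fun w w' => slcA_add U z w w' ζ
      map_smul' := fun a w => slcA_smul U a z w ζ }
  exact LinearMap.pi_apply_eq_sum_univ f w

/-! ### total degrees -/

private def TdP {ι K : Type*} [Field K] (D : ℕ) (f : (MvPolynomial ι K)[X]) : Prop :=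
  ∀ s, (f.coeff s).totalDegree ≤ D

private theorem td_add {ι K : Type*} [Field K] {D : ℕ} {f g : (MvPolynomial ι K)[X]}
    (hf : TdP D f) (hg : TdP D g) : TdP D (f + g) := fun s => by
  rw [Polynomial.coeff_add]
  exact (MvPolynomial.totalDegree_add _ _).trans (max_le (hf s) (hg s))

private theorem td_sub {ι K : Type*} [Field K] {D : ℕ} {f g : (MvPolynomial ι K)[X]}
    (hf : TdP D f) (hg : TdP D g) : TdP D (f - g) := fun s => by
  rw [Polynomial.coeff_sub]
  exact (MvPolynomial.totalDegree_sub _ _).trans (max_le (hf s) (hg s))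

private theorem td_sum {ι K κ : Type*} [Field K] {D : ℕ} (S : Finset κ)
    (f : κ → (MvPolynomial ι K)[X]) (hf : ∀ k ∈ S, TdP D (f k)) : TdP D (∑ k ∈ S, f k) := fun s => by
  rw [Polynomial.finsetSum_coeff]
  exact MvPolynomial.totalDegree_finsetSum_le fun k hk => hf k hk s

private theorem td_mul {ι K : Type*} [Field K] {D D' : ℕ} {f g : (MvPolynomial ι K)[X]}
    (hf : TdP D f) (hg : TdP D' g) : TdP (D + D') (f * g) := fun s => by
  rw [Polynomial.coeff_mul]
  refine MvPolynomial.totalDegree_finsetSum_le fun k _ => ?_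
  exact (MvPolynomial.totalDegree_mul _ _).trans (Nat.add_le_add (hf _) (hg _))

private theorem td_map {ι K : Type*} [Field K] (f : K[X]) :
    TdP 0 (f.map (MvPolynomial.C : K →+* MvPolynomial ι K)) := fun s => by
  rw [Polynomial.coeff_map, MvPolynomial.totalDegree_C]

private theorem slcA_deg {K : Type*} [Field K] {ι : Type*} {n M : ℕ} {d : Fin n → ℕ} {D : ℕ}
    (U : MvPolynomial ι K) (z : ZI n M → MvPolynomial ι K) (hU : U.totalDegree ≤ D)
    (hz : ∀ ζ, (z ζ).totalDegree ≤ D) (w : GI d M → K) (ζ : ZI n M) :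
    (slcA U z (fun t => MvPolynomial.C (w t)) ζ).totalDegree ≤ D := by
  have hc : ∀ i j k, TdP D (cZ z i j k) := by
    intro i j k s
    rw [slc_cZ]
    split_ifs
    · exact hz _
    · simp
  have hn : ∀ i k, TdP D (nZ z i k) := by
    intro i k s
    rw [slc_nZ]
    split_ifs
    · exact hz _
    · simp
  have hg : ∀ i k, TdP 0 (gZ (fun t => MvPolynomial.C (w t) : GI d M → MvPolynomial ι K) i k) := by
    intro i k
    rw [← slc_gZ_map]
    exact td_map _
  have hg' : ∀ i k, TdP 0 (X * (X - 1) *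
      derivative (gZ (fun t => MvPolynomial.C (w t) : GI d M → MvPolynomial ι K) i k)) := by
    intro i k
    have h1 : X * (X - 1) *
        derivative (gZ (fun t => MvPolynomial.C (w t) : GI d M → MvPolynomial ι K) i k) =
        (X * (X - 1) * derivative (gZ w i k)).map MvPolynomial.C := by
      simp only [Polynomial.map_sub, Polynomial.map_mul, Polynomial.map_X, Polynomial.map_one,
        ← Polynomial.derivative_map, slc_gZ_map]
    rw [h1]
    exact td_map _
  have hU' : TdP D (C U) := by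
    intro s
    rw [Polynomial.coeff_C]
    split_ifs
    · exact hU
    · simp
  rcases ζ with ⟨i, j, k, s⟩ | ⟨i, k, s⟩
  · simp only [slcA]
    have h1 : TdP D (psiC (cZ z) (gZ (fun t => MvPolynomial.C (w t) : GI d M → MvPolynomial ι K)) i j k) := by
      unfold psiC
      refine td_sub (td_add ?_ ?_) ?_
      · exact td_sum _ _ fun a _ => by
          have := td_mul (hg i a) (hc a j k)
          rwa [zero_add] at this
      · exact td_sum _ _ fun a _ => by
          have := td_mul (hg j a) (hc i a k)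
          rwa [zero_add] at this
      · exact td_sum _ _ fun a _ => by
          have := td_mul (hc i j a) (hg a k)
          rwa [add_zero] at this
    exact h1 s
  · simp only [slcA]
    have h1 : TdP D (C U * (X * (X - 1) * derivative (gZ (fun t => MvPolynomial.C (w t) : GI d M → MvPolynomial ι K) i k))
        + ∑ l, gZ (fun t => MvPolynomial.C (w t) : GI d M → MvPolynomial ι K) i l * nZ z l k
      - ∑ l, nZ z i l * gZ (fun t => MvPolynomial.C (w t) : GI d M → MvPolynomial ι K) l k) := by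
      refine td_sub (td_add ?_ ?_) ?_
      · have := td_mul hU' (hg' i k)
        rwa [add_zero] at this
      · exact td_sum _ _ fun a _ => by
          have := td_mul (hg i a) (hn a k)
          rwa [zero_add] at this
      · exact td_sum _ _ fun a _ => by
          have := td_mul (hn i a) (hg a k)
          rwa [add_zero] at this
    exact h1 s

private theorem slc_det_deg {K ι κ : Type*} [Field K] [Fintype κ] [DecidableEq κ] {D : ℕ}
    (A : Matrix κ κ (MvPolynomial ι K)) (hA : ∀ i j, (A i j).totalDegree ≤ D) :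
    A.det.totalDegree ≤ Fintype.card κ * D := by
  rw [Matrix.det_apply]
  refine MvPolynomial.totalDegree_finsetSum_le fun σ _ => ?_
  have h1 : (∏ i, A (σ i) i).totalDegree ≤ Fintype.card κ * D := by
    refine (MvPolynomial.totalDegree_finsetProd _ _).trans ?_
    calc ∑ i, (A (σ i) i).totalDegree ≤ ∑ _i : κ, D := Finset.sum_le_sum fun i _ => hA _ _
      _ = Fintype.card κ * D := by simp
  rcases Int.units_eq_one_or (Equiv.Perm.sign σ) with h | h
  · rw [h, one_smul]
    exact h1
  · rw [h, Units.neg_smul, one_smul, MvPolynomial.totalDegree_neg]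
    exact h1

/-! ### dual numbers -/

private theorem slcA_one_inr {R : Type*} [CommRing R] {n M : ℕ} {d : Fin n → ℕ}
    (z : ZI n M → R) (w : GI d M → R) (i k : Fin n) (s : Fin M) :
    slcA 1 z w (Sum.inr (i, k, s)) = (psiN (nZ z) (gZ w) i k).coeff s := by
  simp only [slcA, psiN, C_1, one_mul]

private theorem slcA_one_inl {R : Type*} [CommRing R] {n M : ℕ} {d : Fin n → ℕ} (U : R)
    (z : ZI n M → R) (w : GI d M → R) (i j k : Fin n) (s : Fin M) :
    slcA U z w (Sum.inl (i, j, k, s)) = (psiC (cZ z) (gZ w) i j k).coeff s := rfl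

private noncomputable def slcO {R : Type*} [CommRing R] {n M : ℕ} (d : Fin n → ℕ) : GI d M → R :=
  fun t => if t.1.1 = t.1.2.1 ∧ (t.1.2.2 : ℕ) = 0 then 1 else 0

private theorem slcO_gZ {R : Type*} [CommRing R] {n M : ℕ} (d : Fin n → ℕ)
    (hM : ∀ i j, d i + d j + 1 < M) : gZ (slcO d : GI d M → R) = 1 := by
  ext i j t
  rw [slc_gZ, Matrix.one_apply]
  have hM0 := hM i j
  by_cases hij : i = j
  · subst hij
    rw [if_pos rfl, Polynomial.coeff_one]
    by_cases ht : t = 0
    · subst ht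
      rw [dif_pos (by omega), dif_pos (by omega), if_pos rfl]
      simp [slcO]
    · rw [if_neg ht]
      split_ifs
      · simp [slcO, ht]
      · rfl
      · rfl
  · rw [if_neg hij, Polynomial.coeff_zero]
    split_ifs
    · simp [slcO, hij]
    · rfl
    · rfl

private noncomputable def slcT {R : Type*} [CommRing R] {n M : ℕ} {d : Fin n → ℕ} (w : GI d M → R) : R :=
  (∑ l, gZ w l l).coeff 0

private theorem slcT_eq {R : Type*} [CommRing R] {n M : ℕ} {d : Fin n → ℕ} (w : GI d M → R) :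
    ∑ l, gZ w l l = C (slcT w) := by
  ext t
  rw [Polynomial.coeff_C]
  by_cases ht : t = 0
  · subst ht
    rw [if_pos rfl]
    rfl
  · rw [if_neg ht, Polynomial.finsetSum_coeff]
    apply Finset.sum_eq_zero
    intro l _
    rw [slc_gZ]
    split_ifs with h1 h2
    · omega
    · rfl
    · rfl

private theorem slcT_map {R S : Type*} [CommRing R] [CommRing S] (φ : R →+* S) {n M : ℕ}
    {d : Fin n → ℕ} (w : GI d M → R) : φ (slcT w) = slcT (fun t => φ (w t)) := by
  unfold slcT
  rw [← Polynomial.coeff_map, Polynomial.map_sum]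
  simp only [slc_gZ_map]

private theorem slc_dual {K : Type*} [Field K] {n M : ℕ} {d : Fin n → ℕ}
    (hM : ∀ i j, d i + d j + 1 < M) (w : GI d M → K) :
    gZ (fun t => (TrivSqZeroExt.inl (slcO d t : K) + TrivSqZeroExt.inr (w t) : TrivSqZeroExt K K)) =
      1 + (C (TrivSqZeroExt.inr 1 : TrivSqZeroExt K K)) •
        gZ (fun t => algebraMap K (TrivSqZeroExt K K) (w t)) := by
  have h1 : (fun t => (TrivSqZeroExt.inl (slcO d t : K) + TrivSqZeroExt.inr (w t) :
      TrivSqZeroExt K K)) = (slcO d : GI d M → TrivSqZeroExt K K) +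
        (TrivSqZeroExt.inr 1 : TrivSqZeroExt K K) •
          (fun t => algebraMap K (TrivSqZeroExt K K) (w t)) := by
    funext t
    rw [Pi.add_apply, Pi.smul_apply]
    congr 1
    · unfold slcO
      split_ifs <;> simp
    · rw [TrivSqZeroExt.algebraMap_eq_inl]
      ext <;> simp
  rw [h1]
  funext i j
  rw [slc_gZ_add, slc_gZ_smul, Matrix.add_apply, Matrix.smul_apply, ← slcO_gZ (R := TrivSqZeroExt K K) d hM]
  rfl

private theorem slc_adm {K : Type*} [Field K] {n M : ℕ} {d : Fin n → ℕ}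
    (hM : ∀ i j, d i + d j + 1 < M) (z : ZI n M → K) (w : GI d M → K) (ζ : ZI n M) :
    MvPolynomial.aeval (fun t => (TrivSqZeroExt.inl (slcO d t : K) + TrivSqZeroExt.inr (w t) :
      TrivSqZeroExt K K)) (admP d (cZ z) (nZ z) ζ) =
      TrivSqZeroExt.inl (z ζ) + TrivSqZeroExt.inr (slcA 1 z w ζ + slcT w * z ζ) := by
  have he : (TrivSqZeroExt.inr 1 : TrivSqZeroExt K K) * TrivSqZeroExt.inr 1 = 0 := by simp
  have hinr : ∀ a : K, (TrivSqZeroExt.inr 1 : TrivSqZeroExt K K) *
      algebraMap K (TrivSqZeroExt K K) a = TrivSqZeroExt.inr a := by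
    intro a
    rw [TrivSqZeroExt.algebraMap_eq_inl]
    ext <;> simp
  rcases ζ with ⟨i, j, k, s⟩ | ⟨i, k, s⟩
  · rw [admP_inl, slc_dual hM]
    simp only [slc_cZ_map]
    rw [idn_c _ he, slcT_eq, Polynomial.coeff_add, Polynomial.coeff_C_mul, Polynomial.coeff_add,
      Polynomial.coeff_C_mul, ← slcT_map, slc_cZ, dif_pos s.2,
      ← slcA_one_inl (1 : TrivSqZeroExt K K)
        (fun ζ => algebraMap K (TrivSqZeroExt K K) (z ζ))
        (fun t => algebraMap K (TrivSqZeroExt K K) (w t)) i j k s]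
    rw [← map_one (algebraMap K (TrivSqZeroExt K K)), ← slcA_hom, ← map_mul, ← map_add, hinr,
      TrivSqZeroExt.algebraMap_eq_inl]
  · rw [admP_inr, slc_dual hM]
    simp only [slc_nZ_map]
    rw [idn_n _ he, slcT_eq, Polynomial.coeff_add, Polynomial.coeff_C_mul, Polynomial.coeff_add,
      Polynomial.coeff_C_mul, ← slcT_map, slc_nZ, dif_pos s.2,
      ← slcA_one_inr
        (fun ζ => algebraMap K (TrivSqZeroExt K K) (z ζ))
        (fun t => algebraMap K (TrivSqZeroExt K K) (w t)) i k s]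
    rw [← map_one (algebraMap K (TrivSqZeroExt K K)), ← slcA_hom, ← map_mul, ← map_add, hinr,
      TrivSqZeroExt.algebraMap_eq_inl]

private theorem slc_admU {K : Type*} [Field K] {n M : ℕ} {d : Fin n → ℕ}
    (hM : ∀ i j, d i + d j + 1 < M) (w : GI d M → K) :
    MvPolynomial.aeval (fun t => (TrivSqZeroExt.inl (slcO d t : K) + TrivSqZeroExt.inr (w t) :
      TrivSqZeroExt K K)) (admU K d M) =
      TrivSqZeroExt.inl 1 + TrivSqZeroExt.inr (slcT w) := by
  have he : (TrivSqZeroExt.inr 1 : TrivSqZeroExt K K) * TrivSqZeroExt.inr 1 = 0 := by simp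
  have hinr : ∀ a : K, (TrivSqZeroExt.inr 1 : TrivSqZeroExt K K) *
      algebraMap K (TrivSqZeroExt K K) a = TrivSqZeroExt.inr a := by
    intro a
    rw [TrivSqZeroExt.algebraMap_eq_inl]
    ext <;> simp
  rw [admU_eval, slc_dual hM, idn_det _ he, slcT_eq, Polynomial.coeff_add, Polynomial.coeff_C_mul,
    Polynomial.coeff_C_zero, ← slcT_map, hinr]
  simp

private theorem slc_der {K : Type*} [Field K] {n M : ℕ} {d : Fin n → ℕ}
    (hM : ∀ i j, d i + d j + 1 < M) (z : ZI n M → K) :
    (∀ ζ, MvPolynomial.eval (slcO d) (admP d (cZ z) (nZ z) ζ) = z ζ) ∧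
    MvPolynomial.eval (slcO d) (admU K d M) = 1 ∧
    (∀ (w : GI d M → K) ζ, ∑ i, w i * MvPolynomial.eval (slcO d)
      (MvPolynomial.pderiv i (admP d (cZ z) (nZ z) ζ)) = slcA 1 z w ζ + slcT w * z ζ) ∧
    ∀ w : GI d M → K, ∑ i, w i * MvPolynomial.eval (slcO d) (MvPolynomial.pderiv i (admU K d M)) =
      slcT w := by
  have ha : ∀ P : MvPolynomial (GI d M) K,
      MvPolynomial.aeval (slcO d : GI d M → K) P = MvPolynomial.eval (slcO d) P := by
    intro P
    rw [MvPolynomial.aeval_eq_eval]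
  have h1 : ∀ (w : GI d M → K) (ζ : ZI n M), TrivSqZeroExt.inl (MvPolynomial.eval (slcO d) (admP d (cZ z) (nZ z) ζ))
      + TrivSqZeroExt.inr (∑ i, w i * MvPolynomial.eval (slcO d)
      (MvPolynomial.pderiv i (admP d (cZ z) (nZ z) ζ))) =
      (TrivSqZeroExt.inl (z ζ) + TrivSqZeroExt.inr (slcA 1 z w ζ + slcT w * z ζ) : TrivSqZeroExt K K) := by
    intro w ζ
    rw [← slc_adm hM z w ζ, tay_dual (admP d (cZ z) (nZ z) ζ) (slcO d) w]
    simp only [ha]
  have h2 : ∀ (w : GI d M → K), TrivSqZeroExt.inl (MvPolynomial.eval (slcO d) (admU K d M))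
      + TrivSqZeroExt.inr (∑ i, w i * MvPolynomial.eval (slcO d)
      (MvPolynomial.pderiv i (admU K d M))) =
      (TrivSqZeroExt.inl 1 + TrivSqZeroExt.inr (slcT w) : TrivSqZeroExt K K) := by
    intro w
    rw [← slc_admU hM w, tay_dual (admU K d M) (slcO d) w]
    simp only [ha]
  refine ⟨fun ζ => ?_, ?_, fun w ζ => ?_, fun w => ?_⟩
  · have := congrArg TrivSqZeroExt.fst (h1 0 ζ)
    simpa using this
  · have := congrArg TrivSqZeroExt.fst (h2 0)
    simpa using this
  · have := congrArg TrivSqZeroExt.snd (h1 w ζ)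
    simpa using this
  · have := congrArg TrivSqZeroExt.snd (h2 w)
    simpa using this

/-! ### the theorem -/

private theorem slc_cZ_of {R : Type*} [CommRing R] {n M : ℕ} (c : Fin n → Fin n → Fin n → R[X])
    (N : Fin n → Fin n → R[X]) (hc : ∀ i j k s, M ≤ s → (c i j k).coeff s = 0)
    (hN : ∀ i k s, M ≤ s → (N i k).coeff s = 0) :
    ∃ z : ZI n M → R, cZ z = c ∧ nZ z = N ∧
      (∀ i j k (s : Fin M), z (Sum.inl (i, j, k, s)) = (c i j k).coeff s) ∧
      ∀ i k (s : Fin M), z (Sum.inr (i, k, s)) = (N i k).coeff s := by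
  refine ⟨Sum.elim (fun t => (c t.1 t.2.1 t.2.2.1).coeff t.2.2.2)
    (fun t => (N t.1 t.2.1).coeff t.2.2), ?_, ?_, fun _ _ _ _ => rfl, fun _ _ _ => rfl⟩
  · funext i j k
    ext t
    rw [slc_cZ]
    split_ifs with h
    · rfl
    · exact (hc i j k t (not_lt.1 h)).symm
  · funext i k
    ext t
    rw [slc_nZ]
    split_ifs with h
    · rfl
    · exact (hN i k t (not_lt.1 h)).symm

private theorem slc_sys_z {R : Type*} [CommRing R] {n M : ℕ} {d : Fin n → ℕ}
    (hM : ∀ i j, d i + d j + 1 < M) (c : Fin n → Fin n → Fin n → R[X])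
    (N : Fin n → Fin n → R[X]) (h : Sys d c N) :
    ∃ z : ZI n M → R, cZ z = c ∧ nZ z = N ∧
      (∀ i j k (s : Fin M), z (Sum.inl (i, j, k, s)) = (c i j k).coeff s) ∧
      ∀ i k (s : Fin M), z (Sum.inr (i, k, s)) = (N i k).coeff s := by
  apply slc_cZ_of
  · intro i j k s hs
    have := hM i j
    exact h.degc i j k s (by omega)
  · intro i k s hs
    have := hM i i
    exact h.degN i k s (by omega)

private theorem slc_gZ_of {R : Type*} [CommRing R] {n M : ℕ} {d : Fin n → ℕ}
    (hM : ∀ i j, d i + d j + 1 < M) (θ : Fin n → Fin n → R[X])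
    (h : ∀ i j s, d i < s + d j → (θ i j).coeff s = 0) :
    ∃ w : GI d M → R, θ = gZ w := by
  refine ⟨fun t => (θ t.1.1 t.1.2.1).coeff t.1.2.2, ?_⟩
  funext i j
  ext t
  rw [slc_gZ]
  have hM0 := hM i i
  split_ifs with h1 h2
  · rfl
  · exact h i j t (by omega)
  · exact h i j t (by omega)

private theorem slc_gZ_deg {R : Type*} [CommRing R] {n M : ℕ} {d : Fin n → ℕ} (w : GI d M → R)
    (i j : Fin n) (s : ℕ) (h : d i < s + d j) : (gZ w i j).coeff s = 0 := by
  rw [slc_gZ]
  split_ifs with h1 h2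
  · omega
  · rfl
  · rfl

private theorem slc_gZ_inj {R : Type*} [CommRing R] {n M : ℕ} {d : Fin n → ℕ} (w : GI d M → R)
    (h : ∀ i j, gZ w i j = 0) : w = 0 := by
  funext t
  obtain ⟨⟨i, j, s⟩, ht⟩ := t
  have h1 := congrArg (fun p => Polynomial.coeff p (s : ℕ)) (h i j)
  simp only [Polynomial.coeff_zero] at h1
  rw [slc_gZ, dif_pos s.2, dif_pos ht] at h1
  exact h1

/-- the coefficient of a product of polynomials of bounded degree -/
private theorem slc_mul_coeff {R : Type*} [CommRing R] (f g : R[X]) (A B A' B' E F : ℕ)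
    (hf : ∀ s, A < s + B → f.coeff s = 0) (hg : ∀ s, A' < s + B' → g.coeff s = 0)
    (h : A + A' + F ≤ E + B + B') (s : ℕ) (hs : E < s + F) : (f * g).coeff s = 0 := by
  rw [Polynomial.coeff_mul]
  apply Finset.sum_eq_zero
  intro x hx
  rw [Finset.HasAntidiagonal.mem_antidiagonal] at hx
  by_cases h1 : A < x.1 + B
  · rw [hf _ h1, zero_mul]
  · rw [hg _ (by omega), mul_zero]

private theorem slc_psiC_deg {R : Type*} [CommRing R] {n M : ℕ} {d : Fin n → ℕ}
    {c : Fin n → Fin n → Fin n → R[X]} {N : Fin n → Fin n → R[X]} (h : Sys d c N)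
    (w : GI d M → R) (i j k : Fin n) (s : ℕ) (hs : d i + d j < s + d k) :
    (psiC c (gZ w) i j k).coeff s = 0 := by
  unfold psiC
  rw [Polynomial.coeff_sub, Polynomial.coeff_add, Polynomial.finsetSum_coeff,
    Polynomial.finsetSum_coeff, Polynomial.finsetSum_coeff, Finset.sum_eq_zero, Finset.sum_eq_zero,
    Finset.sum_eq_zero]
  · simp
  · intro l _
    exact slc_mul_coeff _ _ (d i + d j) (d l) (d l) (d k) (d i + d j) (d k) (h.degc i j l)
      (slc_gZ_deg w l k) (by omega) s hs
  · intro b _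
    exact slc_mul_coeff _ _ (d j) (d b) (d i + d b) (d k) (d i + d j) (d k)
      (slc_gZ_deg w j b) (h.degc i b k) (by omega) s hs
  · intro a _
    exact slc_mul_coeff _ _ (d i) (d a) (d a + d j) (d k) (d i + d j) (d k)
      (slc_gZ_deg w i a) (h.degc a j k) (by omega) s hs

private theorem slc_bound (n M : ℕ) : n * (n * M) * (n + 1) + n ≤ 2 ^ (n + M + 16) := by
  have h1 : ∀ s : ℕ, 16 ≤ s → s ^ 4 ≤ 2 ^ s := by
    intro s hs
    induction s, hs using Nat.le_induction with
    | base => norm_num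
    | succ s hs ih =>
      have h2 : (s + 1) ^ 4 ≤ 2 * s ^ 4 := by
        have h5 : 16 * s ^ 3 ≤ s * s ^ 3 := Nat.mul_le_mul_right _ hs
        have h6 : s ^ 2 ≤ s ^ 3 := Nat.pow_le_pow_right (by omega) (by norm_num)
        have h7 : s ≤ s ^ 2 := Nat.le_self_pow (by norm_num) s
        have e1 : (s + 1) ^ 4 = s * s ^ 3 + 4 * s ^ 3 + 6 * s ^ 2 + 4 * s + 1 := by ring
        have e2 : s ^ 4 = s * s ^ 3 := by ring
        rw [e1, e2]
        omega
      rw [pow_succ 2 s]
      omega
  refine le_trans ?_ (h1 (n + M + 16) (by omega))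
  have h4 : n * (n * M) * (n + 1) + n ≤ (n + 1) * (n + 1) * (M + 1) * (n + 1) := by
    have h6 : n * (n * M) + 1 ≤ (n + 1) * (n + 1) * (M + 1) := by
      have e1 : (n + 1) * (n + 1) * (M + 1) = n * (n * M) + 1 + (2 * (n * M) + M + n * n + 2 * n) := by
        ring
      rw [e1]
      exact Nat.le_add_right _ _
    calc n * (n * M) * (n + 1) + n ≤ (n * (n * M) + 1) * (n + 1) := by
          rw [add_mul]
          omega
      _ ≤ _ := Nat.mul_le_mul_right _ h6
  refine h4.trans ?_
  have a1 : n + 1 ≤ n + M + 16 := by omega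
  have a2 : M + 1 ≤ n + M + 16 := by omega
  calc (n + 1) * (n + 1) * (M + 1) * (n + 1)
      ≤ (n + M + 16) * (n + M + 16) * (n + M + 16) * (n + M + 16) :=
        Nat.mul_le_mul (Nat.mul_le_mul (Nat.mul_le_mul a1 a1) a2) a1
    _ = (n + M + 16) ^ 4 := by ring

private theorem slc_card {n M : ℕ} (d : Fin n → ℕ) : Fintype.card (GI d M) ≤ n * (n * M) := by
  refine (Fintype.card_subtype_le _).trans ?_
  rw [Fintype.card_prod, Fintype.card_prod, Fintype.card_fin, Fintype.card_fin]

variable {K Φ : Type*} [Field K] [Field Φ] [Algebra K Φ] [FunField K Φ] [CharZero K] [IsAlgClosed K]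
  {x : Φ} {n : ℕ} {d : Fin n → ℕ} {u : Fin n → Φ}

theorem slc (hβ : IsBelyi K x) (hu : RBas K x d u) (M : ℕ) (hM : ∀ i j, d i + d j + 1 < M) :
    ∃ (u' : Fin n → Φ) (z : ZI n M → K) (J : GI d M → ZI n M) (a : GI d M → ℕ), RBas K x d u' ∧
      SCon x u' (cZ z) (nZ z) ∧ (∀ t, a t ≤ tw 4 (n + M + 16)) ∧ (∀ t, z (J t) = a t) ∧
      ∀ w : ZI n M → K, LSys d (cZ z) (nZ z) (cZ w) (nZ w) → (∀ t, w (J t) = 0) → w = 0 := by
  classical
  obtain ⟨c, N, hS⟩ := scx hβ hu
  have hsys := sys hβ hu hS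
  obtain ⟨z₁, hzc, hzN, -, -⟩ := slc_sys_z hM c N hsys
  subst hzc hzN
  -- injectivity
  have hinj : ∀ w : GI d M → K, (∀ ζ, slcA 1 z₁ w ζ = 0) → w = 0 := by
    intro w hw
    have h1 : psiC (cZ z₁) (gZ w) = 0 := by
      funext i j k
      ext s
      by_cases hs : s < M
      · exact hw (Sum.inl (i, j, k, ⟨s, hs⟩))
      · have := hM i j
        exact slc_psiC_deg hsys w i j k s (by omega)
    have h2 := rin hu hS (gZ w) h1
    exact slc_gZ_inj w fun i j => congrFun (congrFun h2 i) j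
  obtain ⟨J, -, hJ⟩ := exists_minor
    (Matrix.of fun (t : GI d M) (ζ : ZI n M) => slcA 1 z₁ (slcE t) ζ) (by
      intro w hw
      apply hinj w
      intro ζ
      rw [slcA_lin]
      exact hw ζ)
  -- the polynomials
  set P : ZI n M → MvPolynomial (GI d M) K := admP d (cZ z₁) (nZ z₁) with hP
  set U : MvPolynomial (GI d M) K := admU K d M with hU
  set A : Matrix (GI d M) (GI d M) (MvPolynomial (GI d M) K) :=
    Matrix.of fun t t' => slcA U P (fun t'' => MvPolynomial.C (slcE t t'')) (J t') with hA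
  have hAe : ∀ γ : GI d M → K, (MvPolynomial.eval γ A.det) = (Matrix.of fun t t' =>
      slcA (MvPolynomial.eval γ U) (fun ζ => MvPolynomial.eval γ (P ζ)) (slcE t) (J t') :
        Matrix (GI d M) (GI d M) K).det := by
    intro γ
    rw [RingHom.map_det]
    congr 1
    ext t t'
    rw [RingHom.mapMatrix_apply, Matrix.map_apply, hA, Matrix.of_apply, Matrix.of_apply, slcA_hom]
    congr 1
    funext t''
    rw [MvPolynomial.eval_C]
  obtain ⟨d1, d2, d3, d4⟩ := slc_der (d := d) hM z₁
  have hPd : ∀ ζ, (P ζ).totalDegree ≤ n + 1 := fun ζ => admP_deg _ _ ζ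
  have hUd : U.totalDegree ≤ n := admU_deg
  have hbd := slc_bound n M
  have hcard := slc_card (M := M) d
  have htw : tw 1 (n + M + 16) = 2 ^ (n + M + 16) := by rw [tw_succ, tw_zero]
  have hle := le_tw 1 (n + M + 16)
  have hdet : A.det.totalDegree ≤ Fintype.card (GI d M) * (n + 1) :=
    slc_det_deg A fun t t' => slcA_deg U P (hUd.trans (Nat.le_succ n)) hPd (slcE t) (J t')
  have hq1 : Fintype.card (GI d M) * (n + 1) ≤ n * (n * M) * (n + 1) :=
    Nat.mul_le_mul_right _ hcard
  obtain ⟨a, ha, γ, hγU, hγq, hγp⟩ := dom (fun t => P (J t)) U (A.det * U) (tw 1 (n + M + 16))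
    (by omega)
    (hcard.trans (by
      rw [htw]
      refine le_trans ?_ hbd
      exact (Nat.le_mul_of_pos_right _ (Nat.succ_pos n)).trans (Nat.le_add_right _ _)))
    (fun t => (hPd _).trans (by omega))
    (hUd.trans (by omega))
    ((MvPolynomial.totalDegree_mul _ _).trans (by
      rw [htw]
      refine le_trans ?_ hbd
      exact Nat.add_le_add (hdet.trans hq1) hUd))
    (slcO d)
    (by rw [d2]; exact one_ne_zero)
    (by
      rw [map_mul, d2, mul_one, hAe, d2]
      have e1 : (fun ζ => MvPolynomial.eval (slcO d) (P ζ)) = z₁ := funext d1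
      rw [e1]
      exact hJ)
    (by
      intro w hw
      have e1 : ∀ j, slcA 1 z₁ w (J j) = 0 := by
        intro j
        have h1 := hw j
        rw [d2, d3, d4, d1] at h1
        linear_combination h1
      have e2 : Matrix.vecMul w ((Matrix.of fun (t : GI d M) (ζ : ZI n M) =>
          slcA 1 z₁ (slcE t) ζ).submatrix id J) = 0 := by
        funext j
        rw [Matrix.vecMul, dotProduct]
        have h1 := e1 j
        rw [slcA_lin] at h1
        exact h1
      exact Matrix.eq_zero_of_vecMul_eq_zero hJ e2)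
  -- the new basis
  obtain ⟨δ, hδ⟩ := gac_det d (gZ γ) (slc_gZ_deg γ)
  have hUγ : MvPolynomial.eval γ U = δ := by
    have h1 := admU_eval (K := K) (d := d) (M := M) K γ
    rw [hδ, Polynomial.coeff_C_zero] at h1
    rw [← h1, MvPolynomial.aeval_eq_eval]
  have hδ0 : δ ≠ 0 := hUγ ▸ hγU
  have hdet0 : (gZ γ).det ≠ 0 := by
    rw [hδ]
    exact fun h => hδ0 (Polynomial.C_eq_zero.1 h)
  have hu' := gac hu (gZ γ) (slc_gZ_deg γ) hdet0
  have hS' := gaf hS (gZ γ) hδ hδ0
  have hsys' := sys hβ hu' hS'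
  obtain ⟨z, hz1, hz2, hz3, hz4⟩ := slc_sys_z hM _ _ hsys'
  have hid : algebraMap K K = RingHom.id K := rfl
  have hzP : ∀ ζ, z ζ = δ⁻¹ * MvPolynomial.eval γ (P ζ) := by
    intro ζ
    rcases ζ with ⟨i, j, k, s⟩ | ⟨i, k, s⟩
    · rw [hz3, Polynomial.coeff_C_mul]
      have h1 := admP_inl (d := d) K (cZ z₁) (nZ z₁) γ i j k s
      simp only [hid, Polynomial.map_id] at h1
      rw [← h1, MvPolynomial.aeval_eq_eval]
    · rw [hz4, Polynomial.coeff_C_mul]
      have h1 := admP_inr (d := d) K (cZ z₁) (nZ z₁) γ i k s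
      simp only [hid, Polynomial.map_id] at h1
      rw [← h1, MvPolynomial.aeval_eq_eval]
  rw [← hz1, ← hz2] at hS'
  refine ⟨_, z, J, a, hu', hS', ?_, ?_, ?_⟩
  · intro t
    refine (ha t).trans ?_
    rw [tw_comp]
  · intro t
    rw [hzP, hγp, hUγ]
    field_simp
  · intro w hL hw
    obtain ⟨θ, hθ, hc, hN⟩ := rig hβ hu' hS' hL
    obtain ⟨w', rfl⟩ := slc_gZ_of (M := M) hM θ hθ
    have e1 : ∀ ζ, w ζ = slcA 1 z w' ζ := by
      intro ζ
      rcases ζ with ⟨i, j, k, s⟩ | ⟨i, k, s⟩
      · rw [slcA_one_inl, ← hc, slc_cZ, dif_pos s.2]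
      · rw [slcA_one_inr, ← hN, slc_nZ, dif_pos s.2]
    have e2 : ∀ ζ, slcA 1 z w' ζ = δ⁻¹ * slcA δ (fun ζ => MvPolynomial.eval γ (P ζ)) w' ζ := by
      intro ζ
      rw [← slcA_scale, inv_mul_cancel₀ hδ0]
      congr 1
      funext ζ
      exact hzP ζ
    have hq0 : MvPolynomial.eval γ A.det ≠ 0 := by
      intro h
      apply hγq
      rw [map_mul, h, zero_mul]
    rw [hAe, hUγ] at hq0
    have e3 : Matrix.vecMul w' (Matrix.of fun t t' =>
      slcA δ (fun ζ => MvPolynomial.eval γ (P ζ)) (slcE t) (J t') :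
        Matrix (GI d M) (GI d M) K) = 0 := by
      funext j
      have h1 := e2 (J j)
      rw [← e1, hw j, slcA_lin] at h1
      have h2 := (mul_eq_zero.1 h1.symm).resolve_left (inv_ne_zero hδ0)
      rw [Matrix.vecMul, dotProduct]
      exact h2
    have e4 := Matrix.eq_zero_of_vecMul_eq_zero hq0 e3
    funext ζ
    rw [e1, e4]
    have h5 := slcA_smul (1 : K) 0 z (0 : GI d M → K) ζ
    rw [zero_smul, zero_mul] at h5
    exact h5

end Pool.Agent.HFB
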