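import Pool.Agent.HFB.DefsX
import Pool.Agent.HFB.LFU
import Pool.Agent.HFB.LCB
import Pool.Agent.HFB.LIV
import Pool.Agent.HFB.CHI

/-!
# HFB / SNA: the inequality at a finite place

Let `a' = a ∘ γ` (`AbsoluteValue.comp`, non-archimedean).  `liv`: `locF a' ω₀ = locF a ω₀`, `ω₀ = f₀ dx₀`.  LFU for `a'`, `α = m` (algebraic integers `z` satisfy `a' z ≤ 1` for a non-archimedean absolute value: integral equation): every matrix `A` in the set of `ω = f dβ` satisfies `a' (δ^g det A) ≤ 1`, `δ = m^(2n+2) D₀`, i.e. `log a' (det A) ≤ - log a' (δ^g)`;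
so the set is bounded above, and non-empty (`lne`), `locF a' ω ≤ - log a' (δ^g)` (`csSup_le`).  `lcb`: `locF a' ω₀ = locF a' ω - log a' (det B)`.
`sna_bdd`: the set of `ω₀` is a translate of the set of `ω` (as in LCB), here with `γ = 1`.
-/

namespace Pool.Agent.HFB

open Polynomial Pool.Agent.Helper11 Pool.Agent.ESH IntermediateField NumberField
open scoped KaehlerDifferential

private theorem SNA_sum_le {C : Type*} [Field C] (a : AbsoluteValue C ℝ) (ha : IsNonarchimedean a) {B : ℝ}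
    (hB : 0 ≤ B) {ι : Type*} (t : Finset ι) (f : ι → C) (h : ∀ i ∈ t, a (f i) ≤ B) :
    a (∑ i ∈ t, f i) ≤ B := by
  classical
  induction t using Finset.induction_on with
  | empty => simpa using hB
  | insert i t hi ih =>
    rw [Finset.sum_insert hi]
    refine (ha _ _).trans (max_le (h i (Finset.mem_insert_self _ _)) (ih ?_))
    intro j hj
    exact h j (Finset.mem_insert_of_mem hj)

private theorem SNA_int {C : Type*} [Field C] (a : AbsoluteValue C ℝ) (ha : IsNonarchimedean a) (s : C)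
    (hs : IsIntegral ℤ s) : a s ≤ 1 := by
  obtain ⟨p, hp, hs⟩ := hs
  rw [← aeval_def] at hs
  by_contra hlt
  push Not at hlt
  have h0 : 0 < a s := lt_trans one_pos hlt
  have hm : p.natDegree ≠ 0 := by
    intro h
    have : p = 1 := hp.natDegree_eq_zero.1 h
    rw [this] at hs
    simp at hs
  have h1 := hp.as_sum
  have h2 : s ^ p.natDegree = -∑ i ∈ Finset.range p.natDegree, ((p.coeff i : ℤ) : C) * s ^ i := by
    have h3 : aeval s p = s ^ p.natDegree +
        ∑ i ∈ Finset.range p.natDegree, ((p.coeff i : ℤ) : C) * s ^ i := by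
      conv_lhs => rw [h1]
      simp [map_sum]
    rw [hs] at h3
    exact eq_neg_of_add_eq_zero_left h3.symm
  have h3 : a (s ^ p.natDegree) ≤ a s ^ (p.natDegree - 1) := by
    rw [h2, AbsoluteValue.map_neg]
    apply SNA_sum_le a ha (pow_nonneg h0.le _)
    intro i hi
    rw [Finset.mem_range] at hi
    rw [map_mul, map_pow]
    calc a ((p.coeff i : ℤ) : C) * a s ^ i ≤ 1 * a s ^ i :=
          mul_le_mul_of_nonneg_right (IsNonarchimedean.apply_intCast_le_one ha)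
            (pow_nonneg h0.le _)
      _ = a s ^ i := one_mul _
      _ ≤ a s ^ (p.natDegree - 1) := pow_le_pow_right₀ hlt.le (by omega)
  rw [map_pow] at h3
  have h4 : a s ^ (p.natDegree - 1) < a s ^ p.natDegree :=
    pow_lt_pow_right₀ hlt (by omega)
  exact absurd h3 (not_le.2 h4)

private theorem SNA_key {C Φ : Type*} [Field C] [IsAlgClosed C] [CharZero C] [Field Φ] [Algebra C Φ]
    [FunField C Φ] {β : Φ} {n : ℕ} {d : Fin n → ℕ} {u : Fin n → Φ} {c : Fin n → Fin n → Fin n → C[X]}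
    {N : Fin n → Fin n → C[X]} {m : ℕ} {D₀ : C} (hP : Pak β d u c N m D₀) {g : ℕ}
    (idx : Fin g → Fin n × ℕ) (hidx : Function.Injective idx) (f : Fin g → Φ)
    (hf : ∀ t i, ((Algebra.trace C⟮β⟯ Φ (f t * u i) : C⟮β⟯) : Φ) = if i = (idx t).1 then β ^ (idx t).2 else 0)
    (a : AbsoluteValue C ℝ) (ha : IsNonarchimedean a) (A : Matrix (Fin g) (Fin g) C) (hA0 : A.det ≠ 0)
    (hA : ∀ i, IntDiff a (∑ j, A i j • (f j • KaehlerDifferential.D C Φ β))) :
    Real.log (a A.det) ≤ -Real.log (a (((m : C) ^ (2 * n + 2) * D₀) ^ g)) := by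
  have hm : (m : C) ≠ 0 := by
    have := hP.pos
    exact_mod_cast this.ne'
  obtain ⟨p, q, hD⟩ := hP.dis
  have h := lfu ha hP.bel hP.bas hP.con hm (IsNonarchimedean.apply_natCast_le_one ha)
    (fun i j l s => SNA_int a ha _ (hP.intc i j l s)) (fun i l s => SNA_int a ha _ (hP.intN i l s))
    hP.D0 hD idx hidx f hf A hA
  rw [Fintype.card_fin, map_mul] at h
  have h1 : a (((m : C) ^ (2 * n + 2) * D₀) ^ g) ≠ 0 :=
    (a.ne_zero_iff).2 (pow_ne_zero _ (mul_ne_zero (pow_ne_zero _ hm) hP.D0))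
  have h2 : a A.det ≠ 0 := (a.ne_zero_iff).2 hA0
  have h3 := Real.log_nonpos (mul_nonneg (a.nonneg _) (a.nonneg _)) h
  rw [Real.log_mul h1 h2] at h3
  linarith

theorem sna
    {K F C Φ : Type*} [Field K] [NumberField K] [Field F] [Algebra K F] [Field C] [Algebra K C]
    [Algebra.IsAlgebraic K C] [IsAlgClosed C] [CharZero C] [Field Φ] [Algebra C Φ] [Algebra F Φ] [FunField C Φ]
    (hc : Cmps K F C Φ) {β : Φ} {n : ℕ} {d : Fin n → ℕ} {u : Fin n → Φ} {c : Fin n → Fin n → Fin n → C[X]}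
    {N : Fin n → Fin n → C[X]} {m : ℕ} {D₀ : C} (hP : Pak β d u c N m D₀) {g : ℕ} (x₀ : F) (f₀ : Fin g → F)
    (idx : Fin g → Fin n × ℕ) (hidx : Function.Injective idx) (f : Fin g → Φ)
    (hf : ∀ t i, ((Algebra.trace C⟮β⟯ Φ (f t * u i) : C⟮β⟯) : Φ) = if i = (idx t).1 then β ^ (idx t).2 else 0)
    (hr : ∀ t, ∀ R : Place C Φ, 0 ≤ R.ordDiff (f t • KaehlerDifferential.D C Φ β))
    (B : Matrix (Fin g) (Fin g) C) (hB : B.det ≠ 0)
    (h : ∀ i, algebraMap F Φ (f₀ i) • KaehlerDifferential.D C Φ (algebraMap F Φ x₀) =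
      ∑ j, B i j • (f j • KaehlerDifferential.D C Φ β))
    (a : AbsoluteValue C ℝ) (ha : IsNonarchimedean a) (γ : C ≃ₐ[K] C) :
    locF a (fun i => algebraMap F Φ (f₀ i) • KaehlerDifferential.D C Φ (algebraMap F Φ x₀)) ≤
      -Real.log (a (γ (((m : C) ^ (2 * n + 2) * D₀) ^ g * B.det))) := by
  let a' : AbsoluteValue C ℝ := a.comp (f := ((γ : C ≃+* C) : C →+* C)) γ.injective
  have haa : ∀ c, a' c = a (γ c) := fun c => rfl
  have ha' : IsNonarchimedean a' := by
    intro y z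
    rw [haa, haa, haa, map_add]
    exact ha _ _
  have hm : (m : C) ≠ 0 := by
    have := hP.pos
    exact_mod_cast this.ne'
  rw [← liv hc γ a a' haa x₀ f₀]
  have hne := lne (fun i => f i • KaehlerDifferential.D C Φ β) hr a' ha'
  have hbd : ∀ r ∈ {r : ℝ | ∃ A : Matrix (Fin g) (Fin g) C, A.det ≠ 0 ∧
      (∀ i, IntDiff a' (∑ j, A i j • (f j • KaehlerDifferential.D C Φ β))) ∧ r = Real.log (a' A.det)},
      r ≤ -Real.log (a' (((m : C) ^ (2 * n + 2) * D₀) ^ g)) := by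
    rintro r ⟨A, hA0, hA, rfl⟩
    exact SNA_key hP idx hidx f hf a' ha' A hA0 hA
  rw [lcb a' _ (fun i => f i • KaehlerDifferential.D C Φ β) B hB h hne ⟨_, hbd⟩]
  have h1 : locF a' (fun i => f i • KaehlerDifferential.D C Φ β) ≤
      -Real.log (a' (((m : C) ^ (2 * n + 2) * D₀) ^ g)) := csSup_le hne hbd
  have h2 : a' (((m : C) ^ (2 * n + 2) * D₀) ^ g) ≠ 0 :=
    (a'.ne_zero_iff).2 (pow_ne_zero _ (mul_ne_zero (pow_ne_zero _ hm) hP.D0))
  have h3 : a' B.det ≠ 0 := (a'.ne_zero_iff).2 hB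
  rw [← haa, map_mul, Real.log_mul h2 h3]
  linarith


theorem sna_bdd
    {K F C Φ : Type*} [Field K] [NumberField K] [Field F] [Algebra K F] [Field C] [Algebra K C]
    [Algebra.IsAlgebraic K C] [IsAlgClosed C] [CharZero C] [Field Φ] [Algebra C Φ] [Algebra F Φ] [FunField C Φ]
    (hc : Cmps K F C Φ) {β : Φ} {n : ℕ} {d : Fin n → ℕ} {u : Fin n → Φ} {c : Fin n → Fin n → Fin n → C[X]}
    {N : Fin n → Fin n → C[X]} {m : ℕ} {D₀ : C} (hP : Pak β d u c N m D₀) {g : ℕ} (x₀ : F) (f₀ : Fin g → F)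
    (idx : Fin g → Fin n × ℕ) (hidx : Function.Injective idx) (f : Fin g → Φ)
    (hf : ∀ t i, ((Algebra.trace C⟮β⟯ Φ (f t * u i) : C⟮β⟯) : Φ) = if i = (idx t).1 then β ^ (idx t).2 else 0)
    (hr : ∀ t, ∀ R : Place C Φ, 0 ≤ R.ordDiff (f t • KaehlerDifferential.D C Φ β))
    (B : Matrix (Fin g) (Fin g) C) (hB : B.det ≠ 0)
    (h : ∀ i, algebraMap F Φ (f₀ i) • KaehlerDifferential.D C Φ (algebraMap F Φ x₀) =
      ∑ j, B i j • (f j • KaehlerDifferential.D C Φ β))
    (a : AbsoluteValue C ℝ) (ha : IsNonarchimedean a) :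
    BddAbove {r : ℝ | ∃ A : Matrix (Fin g) (Fin g) C, A.det ≠ 0 ∧ (∀ i, IntDiff a (∑ j, A i j •
      (algebraMap F Φ (f₀ j) • KaehlerDifferential.D C Φ (algebraMap F Φ x₀)))) ∧
      r = Real.log (a A.det)} := by
  have hm : (m : C) ≠ 0 := by
    have := hP.pos
    exact_mod_cast this.ne'
  refine ⟨-Real.log (a (((m : C) ^ (2 * n + 2) * D₀) ^ g)) - Real.log (a B.det), ?_⟩
  rintro r ⟨A, hA0, hA, rfl⟩
  have hsum : ∀ i, ∑ j, A i j • (algebraMap F Φ (f₀ j) • KaehlerDifferential.D C Φ (algebraMap F Φ x₀)) =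
      ∑ j, (A * B) i j • (f j • KaehlerDifferential.D C Φ β) := by
    intro i
    simp only [h, Finset.smul_sum, smul_smul, Matrix.mul_apply, Finset.sum_smul]
    exact Finset.sum_comm
  have h1 := SNA_key hP idx hidx f hf a ha (A * B)
    (by rw [Matrix.det_mul]; exact mul_ne_zero hA0 hB) (fun i => by rw [← hsum]; exact hA i)
  rw [Matrix.det_mul, map_mul, Real.log_mul ((a.ne_zero_iff).2 hA0) ((a.ne_zero_iff).2 hB)] at h1
  linarith


end Pool.Agent.HFB
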