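import Pool.Agent.HFB.DefsX
import Pool.Agent.HFB.EFR
import Pool.Agent.HFB.DSC
import Pool.Agent.ESH.TWA

/-!
# HFB / SPK: bounded models with explicit denominators

EFR: `u', z`, `c = cZ z`, `N = nZ z`, every `z ζ` is a root of `q_ζ ∈ ℤ[X]`, degree and coefficients `≤ T = tw 12 S`, `S = n + M + 16`.  `m = ∏_ζ |leading coefficient of q_ζ|`: `lc · z` is integral over `ℤ` (multiply the equation by `lc^(deg - 1)`), so `m z ζ` is integral; `m ≤ T^(card ZI)`, `card ZI = n³ M + n² M ≤ 2^S`.  `|τ z| ≤ T + 1` (Cauchy's bound: `q_ζ(τ z) = 0`,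
`|lc| ≥ 1`).  DSC: `D₀`; `D₀` is the leading coefficient of `det (tG c) = D₀ X^p (X-1)^q`, the coefficients of the entries of `tG` are bounded by `n² M (T+1)²`, degrees `< 2 M`, so those of the determinant by `n! (2 M n² M (T+1)²)^n`.  All are at most `tw 16 S` (`tw_mul`, `tw_pow`, `tw_fact`).
-/

namespace Pool.Agent.HFB

open Polynomial Pool.Agent.Helper11 Pool.Agent.ESH IntermediateField NumberField
open scoped KaehlerDifferential


private theorem spk_cauchy (q : ℤ[X]) (hq : q ≠ 0) (T : ℕ) (hT : ∀ i, (q.coeff i).natAbs ≤ T) (w : ℂ)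
    (hw : aeval w q = 0) : ‖w‖ ≤ T + 1 := by
  have hinj : Function.Injective (Int.castRingHom ℂ) := Int.cast_injective
  have h0 : q.map (Int.castRingHom ℂ) ≠ 0 := (Polynomial.map_ne_zero_iff hinj).2 hq
  have hr : (q.map (Int.castRingHom ℂ)).IsRoot w := by
    rw [IsRoot.def, eval_map]
    exact hw
  have h1 := hr.norm_lt_cauchyBound h0
  have h2 : ((q.map (Int.castRingHom ℂ)).cauchyBound : ℝ) ≤ T + 1 := by
    have h3 : (q.map (Int.castRingHom ℂ)).cauchyBound ≤ (T : NNReal) + 1 := by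
      unfold cauchyBound
      gcongr
      have hl : (1 : NNReal) ≤ ‖(q.map (Int.castRingHom ℂ)).leadingCoeff‖₊ := by
        rw [leadingCoeff_map_of_injective hinj]
        rw [← NNReal.coe_le_coe, coe_nnnorm]
        show (1 : ℝ) ≤ ‖((q.leadingCoeff : ℤ) : ℂ)‖
        rw [Complex.norm_intCast]
        have h5 : q.leadingCoeff ≠ 0 := leadingCoeff_ne_zero.2 hq
        exact_mod_cast Int.one_le_abs h5
      refine (div_le_self (zero_le) hl).trans ?_
      refine Finset.sup_le fun i _ => ?_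
      rw [coeff_map, ← NNReal.coe_le_coe, coe_nnnorm]
      show ‖((q.coeff i : ℤ) : ℂ)‖ ≤ _
      rw [Complex.norm_intCast, ← Int.cast_abs, Int.abs_eq_natAbs]
      have h6 := hT i
      rw [Int.cast_natCast, NNReal.coe_natCast, Nat.cast_le]
      exact h6
    exact_mod_cast h3
  have h7 : ‖w‖ < ((q.map (Int.castRingHom ℂ)).cauchyBound : ℝ) := by exact_mod_cast h1
  exact h7.le.trans h2

private theorem spk_coeff {R : Type*} [CommRing R] {n M : ℕ} (z : ZI n M → R) (i j l : Fin n) (s : ℕ) :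
    (cZ z i j l).coeff s = if h : s < M then z (Sum.inl (i, j, l, ⟨s, h⟩)) else 0 := by
  unfold cZ
  rw [finsetSum_coeff]
  split_ifs with h
  · rw [Finset.sum_eq_single ⟨s, h⟩]
    · rw [coeff_C_mul_X_pow, if_pos rfl]
    · intro t _ ht
      rw [coeff_C_mul_X_pow, if_neg]
      intro h'
      exact ht (Fin.ext h'.symm)
    · intro h'
      exact absurd (Finset.mem_univ _) h'
  · refine Finset.sum_eq_zero fun t _ => ?_
    rw [coeff_C_mul_X_pow, if_neg]
    intro h'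
    exact h (h' ▸ t.2)

private theorem spk_coeffN {R : Type*} [CommRing R] {n M : ℕ} (z : ZI n M → R) (i l : Fin n) (s : ℕ) :
    (nZ z i l).coeff s = if h : s < M then z (Sum.inr (i, l, ⟨s, h⟩)) else 0 := by
  unfold nZ
  rw [finsetSum_coeff]
  split_ifs with h
  · rw [Finset.sum_eq_single ⟨s, h⟩]
    · rw [coeff_C_mul_X_pow, if_pos rfl]
    · intro t _ ht
      rw [coeff_C_mul_X_pow, if_neg]
      intro h'
      exact ht (Fin.ext h'.symm)
    · intro h'
      exact absurd (Finset.mem_univ _) h'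
  · refine Finset.sum_eq_zero fun t _ => ?_
    rw [coeff_C_mul_X_pow, if_neg]
    intro h'
    exact h (h' ▸ t.2)

/-- a point of the plane at distance one from `0` and `1` -/
private theorem spk_pt : ∃ ζ : ℂ, ‖ζ‖ = 1 ∧ ‖ζ - 1‖ = 1 := by
  refine ⟨⟨1 / 2, Real.sqrt 3 / 2⟩, ?_, ?_⟩
  · rw [Complex.norm_def, Complex.normSq_apply]
    have h : Real.sqrt 3 * Real.sqrt 3 = 3 := Real.mul_self_sqrt (by norm_num)
    have h2 : (1 / 2 : ℝ) * (1 / 2) + Real.sqrt 3 / 2 * (Real.sqrt 3 / 2) = 1 := by nlinarith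
    rw [h2, Real.sqrt_one]
  · rw [Complex.norm_def, Complex.normSq_apply]
    have h : Real.sqrt 3 * Real.sqrt 3 = 3 := Real.mul_self_sqrt (by norm_num)
    simp only [Complex.sub_re, Complex.one_re, Complex.sub_im, Complex.one_im, sub_zero]
    have h2 : (1 / 2 - 1 : ℝ) * (1 / 2 - 1) + Real.sqrt 3 / 2 * (Real.sqrt 3 / 2) = 1 := by nlinarith
    rw [h2, Real.sqrt_one]

/-- the size of the discriminant -/
private theorem spk_det {C : Type*} [Field C] {n M : ℕ} (z : ZI n M → C) (T : ℕ) (D₀ : C) (p q : ℕ)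
    (hdet : (tG (cZ z)).det = Polynomial.C D₀ * X ^ p * (X - 1) ^ q) (τ : C →+* ℂ)
    (hτ : ∀ ζ, ‖τ (z ζ)‖ ≤ T) :
    ‖τ D₀‖ ≤ (n.factorial * (n * n * (M * T) * (M * T)) ^ n : ℕ) := by
  classical
  obtain ⟨ζ, h1, h2⟩ := spk_pt
  obtain ⟨φ, hφ⟩ : ∃ φ : C[X] →+* ℂ, φ = eval₂RingHom τ ζ := ⟨_, rfl⟩
  have h3 := congrArg φ hdet
  have h4 : φ (Polynomial.C D₀ * X ^ p * (X - 1) ^ q) = τ D₀ * ζ ^ p * (ζ - 1) ^ q := by
    rw [map_mul, map_mul, map_pow, map_pow, map_sub, map_one, hφ, coe_eval₂RingHom, eval₂_C, eval₂_X]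
  rw [h4, RingHom.map_det] at h3
  have h5 : ‖τ D₀‖ = ‖(φ.mapMatrix (tG (cZ z))).det‖ := by
    rw [h3, norm_mul, norm_mul, norm_pow, norm_pow, h1, h2, one_pow, one_pow, mul_one, mul_one]
  have h6 : ∀ i j l, ‖φ (cZ z i j l)‖ ≤ (M * T : ℕ) := by
    intro i j l
    unfold cZ
    rw [map_sum]
    refine (norm_sum_le _ _).trans ?_
    have h7 : ∀ s : Fin M, ‖φ (Polynomial.C (z (Sum.inl (i, j, l, s))) * X ^ (s : ℕ))‖ ≤ T := by
      intro s
      rw [map_mul, map_pow, hφ, coe_eval₂RingHom, eval₂_C, eval₂_X, norm_mul, norm_pow, h1, one_pow, mul_one]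
      exact hτ _
    refine (Finset.sum_le_sum fun s _ => h7 s).trans ?_
    rw [Finset.sum_const, Finset.card_univ, Fintype.card_fin, nsmul_eq_mul]
    push_cast
    exact le_refl _
  have h8 : ∀ i j, ‖φ (tG (cZ z) i j)‖ ≤ (n * n * (M * T) * (M * T) : ℕ) := by
    intro i j
    have h9 : tG (cZ z) i j = ∑ k, ∑ l, cZ z i j k * cZ z k l l := rfl
    rw [h9, map_sum]
    refine (norm_sum_le _ _).trans ?_
    have h10 : ∀ k : Fin n, ‖φ (∑ l, cZ z i j k * cZ z k l l)‖ ≤ (n * ((M * T) * (M * T)) : ℕ) := by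
      intro k
      rw [map_sum]
      refine (norm_sum_le _ _).trans ?_
      have h11 : ∀ l : Fin n, ‖φ (cZ z i j k * cZ z k l l)‖ ≤ ((M * T) * (M * T) : ℕ) := by
        intro l
        rw [map_mul, norm_mul, Nat.cast_mul]
        exact mul_le_mul (h6 _ _ _) (h6 _ _ _) (norm_nonneg _) (Nat.cast_nonneg _)
      refine (Finset.sum_le_sum fun l _ => h11 l).trans ?_
      rw [Finset.sum_const, Finset.card_univ, Fintype.card_fin, nsmul_eq_mul]
      push_cast
      exact le_refl _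
    refine (Finset.sum_le_sum fun k _ => h10 k).trans ?_
    rw [Finset.sum_const, Finset.card_univ, Fintype.card_fin, nsmul_eq_mul]
    push_cast
    nlinarith
  have h12 := Matrix.det_le (A := φ.mapMatrix (tG (cZ z))) (abv := NormedField.toAbsoluteValue ℂ)
    (x := ((n * n * (M * T) * (M * T) : ℕ) : ℝ)) (fun i j => h8 i j)
  rw [Fintype.card_fin, nsmul_eq_mul] at h12
  rw [h5]
  refine (le_of_eq ?_).trans (h12.trans (le_of_eq ?_))
  · rfl
  · push_cast
    ring

theorem spk {C Φ : Type*} [Field C] [CharZero C] [IsAlgClosed C] [Field Φ] [Algebra C Φ] [FunField C Φ] {β : Φ}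
    (hβ : IsBelyi C β) {n : ℕ} {d : Fin n → ℕ} {u : Fin n → Φ} (hu : RBas C β d u) (M : ℕ)
    (hM : ∀ i j, d i + d j + 1 < M) :
    ∃ (u' : Fin n → Φ) (c : Fin n → Fin n → Fin n → C[X]) (N : Fin n → Fin n → C[X]) (m : ℕ) (D₀ : C),
      Pak β d u' c N m D₀ ∧ (∀ i j k, (c i j k).natDegree < M) ∧ m ≤ tw 16 (n + M + 16) ∧
      ∀ τ : C →+* ℂ, (∀ i j k s, ‖τ ((c i j k).coeff s)‖ ≤ tw 16 (n + M + 16)) ∧
        ‖τ D₀‖ ≤ tw 16 (n + M + 16) := by
  classical
  obtain ⟨u', z, hu', hsc, hz⟩ := efr hβ hu M hM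
  obtain ⟨D₀, p, q, hD₀, hdet⟩ := dsc hβ hu' hsc
  choose Q hQ0 hQr hQd hQc using hz
  have hS : 16 ≤ n + M + 16 := by omega
  obtain ⟨S, hSd⟩ : ∃ S, S = n + M + 16 := ⟨_, rfl⟩
  rw [← hSd] at hS hQd hQc ⊢
  have hnS : n ≤ S := by omega
  have hMS : M ≤ S := by omega
  -- the denominator
  obtain ⟨m, hm⟩ : ∃ m : ℕ, m = ∏ ζ : ZI n M, (Q ζ).leadingCoeff.natAbs := ⟨_, rfl⟩
  have hmpos : 0 < m := by
    rw [hm]
    refine Finset.prod_pos fun ζ _ => ?_
    exact Int.natAbs_pos.2 (leadingCoeff_ne_zero.2 (hQ0 ζ))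
  have hint : ∀ ζ, IsIntegral ℤ ((m : C) * z ζ) := by
    intro ζ
    have h1 := isIntegral_leadingCoeff_smul (Q ζ) (z ζ) (hQr ζ)
    have h2 : (Q ζ).leadingCoeff ∣ (m : ℤ) := by
      have h3 : (Q ζ).leadingCoeff.natAbs ∣ m := by
        rw [hm]
        exact Finset.dvd_prod_of_mem _ (Finset.mem_univ ζ)
      exact Int.natAbs_dvd.1 (Int.natCast_dvd_natCast.2 h3)
    obtain ⟨r, hr⟩ := h2
    have h3 : (m : C) * z ζ = algebraMap ℤ C r * ((Q ζ).leadingCoeff • z ζ) := by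
      have h4 : (m : C) = (((Q ζ).leadingCoeff * r : ℤ) : C) := by
        rw [← hr]
        simp
      rw [h4, zsmul_eq_mul]
      push_cast
      rw [eq_intCast]
      ring
    rw [h3]
    exact (isIntegral_algebraMap).mul h1
  have hcardle : Fintype.card (ZI n M) ≤ tw 12 S := by
    have h1 : Fintype.card (ZI n M) = n * (n * (n * M)) + n * (n * M) := by
      simp only [ZI, Fintype.card_sum, Fintype.card_prod, Fintype.card_fin]
    rw [h1]
    have h2 : n * n * n * M ≤ tw 2 S := tw_poly hS hnS hnS hnS hMS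
    have h3 : n * n * 1 * M ≤ tw 2 S := tw_poly hS hnS hnS (by rw [tw_zero]; omega) hMS
    have h4 : n * n * n * M + n * n * 1 * M ≤ tw 3 S := tw_add hS h2 h3
    refine le_trans (le_of_eq (by ring)) (h4.trans (tw_mono (by norm_num) le_rfl))
  have hmle : m ≤ tw 16 S := by
    have h1 : m ≤ (tw 12 S) ^ Fintype.card (ZI n M) := by
      rw [hm]
      refine (Finset.prod_le_pow_card _ _ (tw 12 S) fun ζ _ => hQc ζ _).trans ?_
      rw [Finset.card_univ]
    exact h1.trans ((tw_pow hS le_rfl hcardle).trans (tw_mono (by norm_num) le_rfl))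
  have hT1 : tw 12 S + 1 ≤ tw 13 S := tw_add hS le_rfl (by
    have := le_tw 12 S
    omega)
  refine ⟨u', cZ z, nZ z, m, D₀, ⟨hβ, hu', hsc, hmpos, ?_, ?_, hD₀, p, q, hdet⟩, ?_, hmle, ?_⟩
  · intro i j l s
    rw [spk_coeff]
    split_ifs
    · exact hint _
    · rw [mul_zero]
      exact isIntegral_zero
  · intro i l s
    rw [spk_coeffN]
    split_ifs
    · exact hint _
    · rw [mul_zero]
      exact isIntegral_zero
  · intro i j l
    have hM0 : 0 < M := by
      have := hM i i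
      omega
    by_contra hcon
    push Not at hcon
    have h1 := spk_coeff z i j l (cZ z i j l).natDegree
    rw [dif_neg (by omega)] at h1
    have h2 : cZ z i j l = 0 := leadingCoeff_eq_zero.1 h1
    rw [h2, natDegree_zero] at hcon
    omega
  · intro τ
    have hτ : ∀ ζ, ‖τ (z ζ)‖ ≤ ((tw 12 S + 1 : ℕ) : ℝ) := by
      intro ζ
      push_cast
      refine spk_cauchy (Q ζ) (hQ0 ζ) _ (hQc ζ) _ ?_
      have h1 := hQr ζ
      rw [aeval_def] at h1 ⊢
      have h2 := congrArg τ h1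
      rw [hom_eval₂, map_zero] at h2
      rw [← h2]
      congr 1
      exact Subsingleton.elim _ _
    refine ⟨?_, ?_⟩
    · intro i j l s
      rw [spk_coeff]
      split_ifs
      · exact (hτ _).trans (by exact_mod_cast hT1.trans (tw_mono (by norm_num) le_rfl))
      · rw [map_zero, norm_zero]
        exact Nat.cast_nonneg _
    · refine (spk_det z _ D₀ p q hdet τ hτ).trans ?_
      rw [Nat.cast_le]
      have e1 : n * n * M * M ≤ tw 2 S := tw_poly hS hnS hnS hMS hMS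
      have e2 : (n * n * M * M) ^ n ≤ tw 4 S := tw_pow hS e1 (hnS.trans (le_tw 2 S))
      have e3 : n.factorial ≤ tw 4 S := (tw_fact (c := 0) hS hnS).trans (tw_mono (by norm_num) le_rfl)
      have e4 : n.factorial * (n * n * M * M) ^ n ≤ tw 15 S := (tw_mul hS e3 e2).trans (tw_mono (by norm_num) le_rfl)
      have e5 : 2 * n ≤ tw 13 S := (tw_mul (c := 0) (x := 2) (y := n) hS (by rw [tw_zero]; omega) hnS).trans
        (tw_mono (by norm_num) le_rfl)
      have e6 : (tw 12 S + 1) ^ (2 * n) ≤ tw 15 S := tw_pow hS hT1 e5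
      refine le_trans (le_of_eq ?_) (tw_mul hS e4 e6)
      have e7 : n * n * (M * (tw 12 S + 1)) * (M * (tw 12 S + 1)) = n * n * M * M * (tw 12 S + 1) ^ 2 := by ring
      rw [e7, mul_pow, ← pow_mul]
      ring

end Pool.Agent.HFB
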