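import Pool.Agent.HFB.DefsV

/-!
# HFB / VIN: elements of all the valuation rings over `V₀` are integral

`vin_int`: let `A` be the image of `V₀` in `Φ`, `b ≠ 0` not integral over `A`.  Then `b ∉ A[b⁻¹]` (otherwise `b = ∑ a_i b^(-i)` gives an integral equation), so `b⁻¹` is a non-unit of `A[b⁻¹]`; let `𝔪` be a maximal ideal of `A[b⁻¹]` containing `b⁻¹`.  `A → A[b⁻¹]/(b⁻¹)` is surjective, so `𝔪 ∩ A` is a maximal ideal of
the local ring `A`.  Let `W` be a valuation ring of `Φ` dominating the localisation of `A[b⁻¹]` at `𝔪` (`LocalSubring.exists_le_valuationSubring` or similar, compare ESH / PLV, BWE).  `W ∩ E` contains `V₀` and its maximal ideal contains the one of `V₀`, so it equals `V₀` (an element outside `V₀` has its inverse in the maximal ideal).  `b ∉ W`: contradiction.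
The statement about the minimal polynomial: `V₀` is integrally closed in `E` (`minpoly` of an integral element, `minpoly.isIntegrallyClosed_eq_field_fractions`).  `vin_tr`: `Algebra.isIntegral_trace`, or the trace is up to sign and multiplicity a coefficient of the minimal polynomial (`trace_eq_finrank_mul_minpoly_nextCoeff`), natural numbers are in `V₀`.
-/

namespace Pool.Agent.HFB

open Polynomial Pool.Agent.Helper11 Pool.Agent.ESH IntermediateField
open scoped KaehlerDifferential

variable {E Φ : Type*} [Field E] [Field Φ] [Algebra E Φ] [FiniteDimensional E Φ] [CharZero E]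

set_option backward.isDefEq.respectTransparency.types false in
/-- an element which is not integral over a local subring is outside some dominating valuation ring -/
private theorem vin_ex {K : Type*} [Field K] {x : K} {R : LocalSubring K}
    (hxR : ¬ IsIntegral R.toSubring x) : ∃ V : ValuationSubring K, R ≤ V.toLocalSubring ∧ x ∉ V := by
  obtain rfl | hx0 := eq_or_ne x 0
  · exact (hxR isIntegral_zero).elim
  let := invertibleOfNonzero hx0
  let B := Algebra.adjoin R.toSubring {x⁻¹}
  let xinv : B.toSubring := ⟨x⁻¹, Algebra.subset_adjoin rfl⟩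
  have : (IsLocalRing.maximalIdeal R.toSubring).map (algebraMap _ B) + .span {xinv} ≠ ⊤ := fun eq ↦ hxR <|
    have ⟨p, hp, hpx⟩ := Algebra.exists_aeval_invOf_eq_zero_of_idealMap_adjoin_sup_span_eq_top _ _
      (IsLocalRing.maximalIdeal.isMaximal R.toSubring).ne_top eq
    have H : IsUnit p.leadingCoeff := of_not_not fun h ↦ by simpa using sub_mem h hp
    ⟨.C H.unit⁻¹.1 * p, by simp [Polynomial.Monic], by simpa using .inr hpx⟩
  have ⟨V, hV⟩ := Ideal.image_subset_nonunits_valuationSubring (A := B.toSubring) _ this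
  refine ⟨V, ⟨fun r hr ↦ hV.1 (B.algebraMap_mem ⟨r, hr⟩),
    ((IsLocalRing.local_hom_TFAE _).out 3 0).mp fun r hr ↦ ?_⟩, (V.inv_mem_nonunits_iff.mp <|
      hV.2 ⟨_, le_add_self (α := Ideal B) (Ideal.subset_span rfl), rfl⟩).resolve_left hx0⟩
  rw [← V.image_maximalIdeal] at hV
  obtain ⟨⟨r, _⟩, hr, rfl⟩ := hV.2 ⟨_, le_self_add (α := Ideal B) (Ideal.mem_map_of_mem _ hr), rfl⟩
  exact hr

private theorem vin_mon (V₀ : ValuationSubring E) {b : Φ} (hb : SInt V₀ b) :
    ∃ p : V₀[X], p.Monic ∧ eval₂ ((algebraMap E Φ).comp V₀.subtype) b p = 0 := by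
  set f : V₀ →+* Φ := (algebraMap E Φ).comp V₀.subtype with hf
  have hint : IsIntegral f.range b := by
    by_contra hni
    obtain ⟨V, hV, hbV⟩ := vin_ex (R := LocalSubring.range f) hni
    apply hbV
    apply hb V
    have hle : ∀ e : E, e ∈ V₀ → algebraMap E Φ e ∈ V := fun e he =>
      hV.1 ⟨⟨e, he⟩, rfl⟩
    ext e
    rw [ValuationSubring.mem_comap]
    refine ⟨fun he => ?_, hle e⟩
    by_contra hne
    have he0 : e ≠ 0 := by
      rintro rfl
      exact hne V₀.zero_mem
    have hi : e⁻¹ ∈ V₀ := (V₀.mem_or_inv_mem e).resolve_left hne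
    have hmem : algebraMap E Φ e⁻¹ ∈ (LocalSubring.range f).toSubring := ⟨⟨e⁻¹, hi⟩, rfl⟩
    have hu : IsUnit (Subring.inclusion hV.1 ⟨algebraMap E Φ e⁻¹, hmem⟩) := by
      refine isUnit_iff_exists_inv.2 ⟨⟨algebraMap E Φ e, he⟩, Subtype.ext ?_⟩
      change algebraMap E Φ e⁻¹ * algebraMap E Φ e = 1
      rw [← map_mul, inv_mul_cancel₀ he0, map_one]
    obtain ⟨⟨y, hy⟩, hyy⟩ := isUnit_iff_exists_inv.1 (hV.2.1 _ hu)
    have h1 : algebraMap E Φ e⁻¹ * y = 1 := congrArg Subtype.val hyy
    have h2 : y = algebraMap E Φ e := by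
      have h3 : algebraMap E Φ e⁻¹ ≠ 0 := by
        rw [Ne, map_eq_zero]
        exact inv_ne_zero he0
      apply mul_left_cancel₀ h3
      rw [h1, ← map_mul, inv_mul_cancel₀ he0, map_one]
    obtain ⟨⟨z, hz⟩, hzz⟩ := hy
    have h4 : algebraMap E Φ z = algebraMap E Φ e := by rw [← h2, ← hzz]; rfl
    exact hne ((algebraMap E Φ).injective h4 ▸ hz)
  obtain ⟨p, hp, hpb⟩ := hint
  have hl : p ∈ Polynomial.lifts f.rangeRestrict := by
    rw [Polynomial.lifts_iff_coeff_lifts]
    intro n
    exact f.rangeRestrict_surjective _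
  obtain ⟨q, hq, _, hqm⟩ := Polynomial.lifts_and_degree_eq_and_monic hl hp
  refine ⟨q, hqm, ?_⟩
  rw [← hq, Polynomial.eval₂_map] at hpb
  exact hpb

theorem vin_min (V₀ : ValuationSubring E) {b : Φ} (hb : SInt V₀ b) (i : ℕ) : (minpoly E b).coeff i ∈ V₀ := by
  let _ : Algebra V₀ Φ := ((algebraMap E Φ).comp V₀.subtype).toAlgebra
  have : IsScalarTower V₀ E Φ := IsScalarTower.of_algebraMap_eq fun _ => rfl
  have hint : IsIntegral V₀ b := vin_mon V₀ hb
  rw [minpoly.isIntegrallyClosed_eq_field_fractions' E hint, coeff_map]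
  exact ((minpoly V₀ b).coeff i).2

theorem vin_tr (V₀ : ValuationSubring E) {b : Φ} (hb : SInt V₀ b) : Algebra.trace E Φ b ∈ V₀ := by
  let _ : Algebra V₀ Φ := ((algebraMap E Φ).comp V₀.subtype).toAlgebra
  have : IsScalarTower V₀ E Φ := IsScalarTower.of_algebraMap_eq fun _ => rfl
  have hint : IsIntegral V₀ b := vin_mon V₀ hb
  have h1 : IsIntegral V₀ (Algebra.trace E Φ b) := Algebra.isIntegral_trace hint
  obtain ⟨y, hy⟩ := IsIntegrallyClosed.isIntegral_iff.1 h1
  rw [← hy]
  exact y.2

end Pool.Agent.HFB
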