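import Pool.Agent.HFB.GAU
import Pool.Agent.HFB.VIN
import Pool.Agent.HFB.DSC

/-!
# HFB / VDB: boundedness of d/dx on the integral closure

`vdb_u`: every `W` over `V₀` contains `k°[x]` (`gau_pol`), `α u_i` is integral over `k°[x]` : `(α u_i)(α u_j) = ∑ (α c_ijk)(x) (α u_k)`: the finitely generated `k°[x]`-module spanned by `1` and the `α u_k` is stable under multiplication by `α u_i` (determinant trick), so `α u_i ∈ W`.
`vdb`: `b = ∑ b_i u_i`, `b_i ∈ k(x)`.  `Tr(b u_j) = ∑_i b_i t_ij`, `t = tG c` (`dsc_tr`), so `b_i D = ∑_j Tr(b u_j) adj(t)_ji`, `D = D₀ x^p (x-1)^q`.  `α Tr(b u_j) = Tr(b α u_j) ∈ V₀` (`vin_tr`), `α² t_ij` has coefficients in `k°`, so `α^(2n-2) adj(t)_ji` too; `x`, `x - 1` are units of `V₀` (`gau_unit`).  So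
`β_i = D₀ α^(2n-1) b_i ∈ V₀`.  `D₀ α^(2n+1) b' = ∑ β_i' α (α u_i) + ∑ β_i α² u_i'` (derivatives with respect to `x`; `β_i' ∈ V₀` by `gau_der`), and `α² u_i' = (x (x-1))⁻¹ ∑ (α N_ik)(x) (α u_k)`.  All terms are in every `W` over `V₀`.
-/

namespace Pool.Agent.HFB

open Polynomial Pool.Agent.Helper11 Pool.Agent.ESH IntermediateField
open scoped KaehlerDifferential

variable {k Φ : Type*} [Field k] [Field Φ] [Algebra k Φ] [FunField k Φ] [CharZero k] [IsAlgClosed k]

variable {x : Φ} {n : ℕ} {d : Fin n → ℕ} {u : Fin n → Φ}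

omit [FunField k Φ] [CharZero k] [IsAlgClosed k] in
private theorem inG_mem {a : AbsoluteValue k ℝ} (hx : Transcendental k x) {V₀ : ValuationSubring k⟮x⟯}
    (hV : IsGau a x V₀) {W : ValuationSubring Φ} (hW : W.comap (algebraMap k⟮x⟯ Φ) = V₀) {f : Φ}
    (hf : InG a x f) : f ∈ W := by
  have hf' : f ∈ k⟮x⟯ := by
    obtain ⟨p, q, hq, -, h⟩ := hf
    have hq0 : aeval x q ≠ 0 := fun h0 => hx ⟨q, hq, h0⟩
    rw [IntermediateField.mem_adjoin_simple_iff]
    exact ⟨p, q, by rw [← h, mul_div_cancel_right₀ _ hq0]⟩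
  have h1 : (⟨f, hf'⟩ : k⟮x⟯) ∈ V₀ := (hV _).2 hf
  rw [← hW] at h1
  exact h1

private theorem pol_mem {a : AbsoluteValue k ℝ} (ha : IsNonarchimedean a) (hx : Transcendental k x)
    {V₀ : ValuationSubring k⟮x⟯} (hV : IsGau a x V₀) {W : ValuationSubring Φ}
    (hW : W.comap (algebraMap k⟮x⟯ Φ) = V₀) {p : k[X]} (hp : ∀ s, a (p.coeff s) ≤ 1) :
    aeval x p ∈ W := inG_mem hx hV hW ((gau_pol ha hx p).2 hp)

theorem vdb_u {a : AbsoluteValue k ℝ} (ha : IsNonarchimedean a) (hx : Transcendental k x)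
    {c : Fin n → Fin n → Fin n → k[X]} {N : Fin n → Fin n → k[X]} (h : SCon x u c N)
    {V₀ : ValuationSubring k⟮x⟯} (hV : IsGau a x V₀) {α : k}
    (hc : ∀ i j l s, a (α * (c i j l).coeff s) ≤ 1) (i : Fin n) : SInt V₀ (algebraMap k Φ α * u i) := by
  intro W hW
  by_contra hcon
  rw [← W.valuation_le_one_iff, not_le] at hcon
  haveI : Nonempty (Fin n) := ⟨i⟩
  obtain ⟨m, hm⟩ := Finite.exists_max (fun i => W.valuation (algebraMap k Φ α * u i))
  have hγ : 1 < W.valuation (algebraMap k Φ α * u m) := lt_of_lt_of_le hcon (hm i)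
  have h1 : algebraMap k Φ α * u m * (algebraMap k Φ α * u m) =
      ∑ l, aeval x (C α * c m m l) * (algebraMap k Φ α * u l) := by
    have h2 : algebraMap k Φ α * u m * (algebraMap k Φ α * u m) =
        algebraMap k Φ α * algebraMap k Φ α * (u m * u m) := by ring
    rw [h2, h.mul, Finset.mul_sum]
    refine Finset.sum_congr rfl fun l _ => ?_
    rw [map_mul, aeval_C]
    ring
  have h3 : W.valuation (algebraMap k Φ α * u m * (algebraMap k Φ α * u m)) ≤
      W.valuation (algebraMap k Φ α * u m) := by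
    rw [h1]
    refine Valuation.map_sum_le _ fun l _ => ?_
    rw [map_mul]
    have h4 : W.valuation (aeval x (C α * c m m l)) ≤ 1 := by
      rw [W.valuation_le_one_iff]
      refine pol_mem ha hx hV hW fun s => ?_
      rw [coeff_C_mul]
      exact hc m m l s
    calc W.valuation (aeval x (C α * c m m l)) * W.valuation (algebraMap k Φ α * u l)
        ≤ 1 * W.valuation (algebraMap k Φ α * u m) := mul_le_mul' h4 (hm l)
      _ = _ := one_mul _
  rw [map_mul (W.valuation) (algebraMap k Φ α * u m) (algebraMap k Φ α * u m)] at h3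
  have h5 : W.valuation (algebraMap k Φ α * u m) * 1 <
      W.valuation (algebraMap k Φ α * u m) * W.valuation (algebraMap k Φ α * u m) :=
    mul_lt_mul_of_pos_left hγ (lt_trans zero_lt_one hγ)
  rw [mul_one] at h5
  exact absurd h5 (not_lt.2 h3)

theorem vdb
    {a : AbsoluteValue k ℝ} (ha : IsNonarchimedean a) (hβ : IsBelyi k x) (hu : RBas k x d u)
    {c : Fin n → Fin n → Fin n → k[X]} {N : Fin n → Fin n → k[X]} (h : SCon x u c N)
    {V₀ : ValuationSubring k⟮x⟯} (hV : IsGau a x V₀) {α : k} (hα : α ≠ 0) (hα1 : a α ≤ 1)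
    (hc : ∀ i j l s, a (α * (c i j l).coeff s) ≤ 1) (hN : ∀ i l s, a (α * (N i l).coeff s) ≤ 1)
    {D₀ : k} {p q : ℕ} (hD0 : D₀ ≠ 0) (hD : (tG c).det = C D₀ * X ^ p * (X - 1) ^ q)
    {b : Φ} (hb : SInt V₀ b) : SInt V₀ (algebraMap k Φ (α ^ (2 * n + 1) * D₀) * der hβ.1 b) := by
  classical
  intro W hW
  have hx := hβ.1
  have hx0 : x ≠ 0 := by
    rintro rfl
    exact hβ.1 (isAlgebraic_zero)
  have hx1 : x - 1 ≠ 0 := by
    intro h0
    have h1 : x = 1 := sub_eq_zero.1 h0
    exact hβ.1 (by rw [h1]; exact isAlgebraic_one)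
  let B : Module.Basis (Fin n) k⟮x⟯ Φ := Module.Basis.mk (rgm_ind hu) (rgm_span hu).ge
  have hB : ∀ i, B i = u i := fun i => Module.Basis.mk_apply _ _ i
  haveI : FiniteDimensional k⟮x⟯ Φ := Module.Finite.of_basis B
  haveI : CharZero k⟮x⟯ := charZero_of_injective_algebraMap (algebraMap k k⟮x⟯).injective
  have hpol : ∀ {p : k[X]}, (∀ s, a (p.coeff s) ≤ 1) → aeval x p ∈ W := fun hp =>
    pol_mem ha hx hV hW hp
  have hαW : algebraMap k Φ α ∈ W := inG_mem hx hV hW ((gau_const ha hx α).2 hα1)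
  have hX : ∀ s, a ((X : k[X]).coeff s) ≤ 1 := by
    intro s
    rw [coeff_X]
    split_ifs
    · rw [map_one]
    · rw [map_zero]; exact zero_le_one
  have hX1 : ∀ s, a ((X - 1 : k[X]).coeff s) ≤ 1 := by
    intro s
    rw [coeff_sub, coeff_X, coeff_one]
    split_ifs with h1 h2
    · omega
    · rw [sub_zero, map_one]
    · rw [zero_sub, a.map_neg, map_one]
    · rw [sub_zero, map_zero]; exact zero_le_one
  have hxi : x⁻¹ ∈ W := by
    have := inG_mem hx hV hW (gau_unit ha hx X hX ⟨1, by rw [coeff_X_one, map_one]⟩)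
    rwa [aeval_X] at this
  have hx1i : (x - 1)⁻¹ ∈ W := by
    have := inG_mem hx hV hW (gau_unit ha hx (X - 1) hX1 ⟨1, by
      rw [coeff_sub, coeff_X_one, coeff_one]; simp⟩)
    rwa [map_sub, aeval_X, map_one] at this
  set αx : Φ := algebraMap k Φ α with hαx
  have hu' : ∀ i, SInt V₀ (αx * u i) := fun i => vdb_u ha hx h hV hc i
  -- the coordinates
  let bb : Fin n → k⟮x⟯ := fun i => B.repr b i
  have hbsum : b = ∑ i, (bb i : Φ) * u i := by
    conv_lhs => rw [← B.sum_repr b]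
    refine Finset.sum_congr rfl fun i _ => ?_
    rw [hB, IntermediateField.smul_def, smul_eq_mul]
  let T : Fin n → k⟮x⟯ := fun j => Algebra.trace k⟮x⟯ Φ (b * u j)
  have hT : ∀ j, (T j : Φ) = ∑ i, (bb i : Φ) * aeval x (tG c i j) := by
    intro j
    have h1 : T j = ∑ i, bb i * Algebra.trace k⟮x⟯ Φ (u i * u j) := by
      change Algebra.trace k⟮x⟯ Φ (b * u j) = _
      conv_lhs => rw [← B.sum_repr b]
      rw [Finset.sum_mul, map_sum]
      refine Finset.sum_congr rfl fun i _ => ?_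
      rw [hB, smul_mul_assoc, map_smul, smul_eq_mul]
    rw [h1]
    push_cast
    refine Finset.sum_congr rfl fun i _ => ?_
    rw [dsc_tr hu h i j]
  have hαT : ∀ j, αx * (T j : Φ) ∈ W := by
    intro j
    have h1 : SInt V₀ (b * (αx * u j)) := fun W' hW' => mul_mem (hb W' hW') (hu' j W' hW')
    have h2 := vin_tr V₀ h1
    rw [← hW] at h2
    have h3 : algebraMap k⟮x⟯ Φ (Algebra.trace k⟮x⟯ Φ (b * (αx * u j))) = αx * (T j : Φ) := by
      have h4 : b * (αx * u j) = (algebraMap k k⟮x⟯ α) • (b * u j) := by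
        rw [Algebra.smul_def, ← IsScalarTower.algebraMap_apply]
        rw [hαx]
        ring
      rw [h4, map_smul, smul_eq_mul, map_mul, ← IsScalarTower.algebraMap_apply]
      rfl
    rw [← h3]
    exact h2
  -- the Gram matrix
  let t : Matrix (Fin n) (Fin n) Φ := (tG c).map (aeval x)
  have htij : ∀ i j, (αx ^ 2) * t i j ∈ W := by
    intro i j
    have h1 : αx ^ 2 * t i j = ∑ k', ∑ l, aeval x (C α * c i j k') * aeval x (C α * c k' l l) := by
      change αx ^ 2 * aeval x (tG c i j) = _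
      simp only [tG, Matrix.of_apply, map_sum, map_mul, aeval_C, Finset.mul_sum]
      refine Finset.sum_congr rfl fun k' _ => Finset.sum_congr rfl fun l _ => ?_
      ring
    rw [h1]
    refine sum_mem fun k' _ => sum_mem fun l _ => mul_mem (hpol fun s => ?_) (hpol fun s => ?_)
    · rw [coeff_C_mul]; exact hc _ _ _ s
    · rw [coeff_C_mul]; exact hc _ _ _ s
  have hdet : t.det = algebraMap k Φ D₀ * x ^ p * (x - 1) ^ q := by
    have h1 : t.det = aeval x (tG c).det := by
      rw [AlgHom.map_det]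
      rfl
    rw [h1, hD]
    simp
  have hadj : ∀ i j, αx ^ (2 * (n - 1)) * t.adjugate i j ∈ W := by
    intro i j
    have h1 : αx ^ (2 * (n - 1)) * t.adjugate i j = ((αx ^ 2) • t).adjugate i j := by
      rw [Matrix.adjugate_smul, Matrix.smul_apply, smul_eq_mul, Fintype.card_fin, ← pow_mul]
    rw [h1, Matrix.adjugate_apply, Matrix.det_apply]
    refine sum_mem fun σ _ => ?_
    have h2 : ∏ l, (((αx ^ 2) • t).updateRow j (Pi.single i 1)) (σ l) l ∈ W := by
      refine prod_mem fun l _ => ?_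
      rw [Matrix.updateRow_apply]
      split_ifs
      · by_cases hl : l = i
        · subst hl; rw [Pi.single_eq_same]; exact W.one_mem
        · rw [Pi.single_eq_of_ne hl]; exact W.zero_mem
      · rw [Matrix.smul_apply, smul_eq_mul]; exact htij _ _
    rcases Int.units_eq_one_or (Equiv.Perm.sign σ) with hs | hs
    · rw [hs, one_smul]; exact h2
    · rw [hs, Units.neg_smul, one_smul]; exact neg_mem h2
  rcases Nat.eq_zero_or_pos n with hn | hn
  · subst hn
    have : b = 0 := by rw [hbsum]; simp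
    rw [this, map_zero, mul_zero]
    exact W.zero_mem
  have hcram : ∀ i, (bb i : Φ) * t.det = ∑ j, (T j : Φ) * t.adjugate j i := by
    intro i
    have h1 : Matrix.vecMul (fun i => (bb i : Φ)) t = fun j => (T j : Φ) := by
      funext j
      rw [hT j]
      rfl
    have h2 : Matrix.vecMul (Matrix.vecMul (fun i => (bb i : Φ)) t) t.adjugate =
        t.det • (fun i => (bb i : Φ)) := by
      rw [Matrix.vecMul_vecMul, Matrix.mul_adjugate, Matrix.vecMul_smul, Matrix.vecMul_one]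
    rw [h1] at h2
    have h3 := congrFun h2 i
    rw [Pi.smul_apply, smul_eq_mul] at h3
    rw [mul_comm, ← h3]
    rfl
  set D₀x : Φ := algebraMap k Φ D₀ with hD₀x
  have hβi : ∀ i, D₀x * αx ^ (2 * n - 1) * (bb i : Φ) ∈ W := by
    intro i
    have h1 : D₀x * αx ^ (2 * n - 1) * (bb i : Φ) =
        (x⁻¹) ^ p * ((x - 1)⁻¹) ^ q *
          ∑ j, (αx * (T j : Φ)) * (αx ^ (2 * (n - 1)) * t.adjugate j i) := by
      have h2 : ∑ j, (αx * (T j : Φ)) * (αx ^ (2 * (n - 1)) * t.adjugate j i) =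
          αx ^ (2 * n - 1) * ((bb i : Φ) * t.det) := by
        rw [hcram i, Finset.mul_sum]
        refine Finset.sum_congr rfl fun j _ => ?_
        have h3 : 2 * n - 1 = 2 * (n - 1) + 1 := by omega
        rw [h3, pow_succ]
        ring
      rw [h2, hdet]
      have h4 : (x⁻¹) ^ p * x ^ p = 1 := by
        rw [← mul_pow, inv_mul_cancel₀ hx0, one_pow]
      have h5 : ((x - 1)⁻¹) ^ q * (x - 1) ^ q = 1 := by
        rw [← mul_pow, inv_mul_cancel₀ hx1, one_pow]
      calc D₀x * αx ^ (2 * n - 1) * (bb i : Φ)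
          = ((x⁻¹) ^ p * x ^ p) * (((x - 1)⁻¹) ^ q * (x - 1) ^ q) *
            (D₀x * αx ^ (2 * n - 1) * (bb i : Φ)) := by rw [h4, h5]; ring
        _ = _ := by ring
    rw [h1]
    exact mul_mem (mul_mem (pow_mem hxi _) (pow_mem hx1i _))
      (sum_mem fun j _ => mul_mem (hαT j) (hadj j i))
  have hβd : ∀ i, D₀x * αx ^ (2 * n - 1) * der hβ.1 (bb i : Φ) ∈ W := by
    intro i
    let f : k⟮x⟯ := algebraMap k k⟮x⟯ (D₀ * α ^ (2 * n - 1)) * bb i
    have hf : (f : Φ) = D₀x * αx ^ (2 * n - 1) * (bb i : Φ) := by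
      change algebraMap k⟮x⟯ Φ (algebraMap k k⟮x⟯ (D₀ * α ^ (2 * n - 1)) * bb i) = _
      rw [map_mul, ← IsScalarTower.algebraMap_apply, map_mul, map_pow]
      rfl
    have h1 : f ∈ V₀ := by
      rw [← hW]
      change (f : Φ) ∈ W
      rw [hf]
      exact hβi i
    have h2 := inG_mem hx hV hW (gau_der ha hx ((hV f).1 h1))
    have h3 : der hx (f : Φ) = D₀x * αx ^ (2 * n - 1) * der hβ.1 (bb i : Φ) := by
      have h4 : (f : Φ) = algebraMap k Φ (D₀ * α ^ (2 * n - 1)) * (bb i : Φ) := by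
        rw [hf, map_mul, map_pow]
      rw [h4, Derivation.leibniz, der_algebraMap, smul_zero, add_zero, smul_eq_mul, map_mul,
        map_pow]
    rwa [h3] at h2
  have hder : ∀ i, x * (x - 1) * der hβ.1 (u i) = ∑ k', aeval x (N i k') * u k' := by
    intro i
    have h1 := h.der i
    have h2 : KaehlerDifferential.D k Φ (u i) =
        ((x * (x - 1))⁻¹ * ∑ k', aeval x (N i k') * u k') • KaehlerDifferential.D k Φ x := by
      rw [mul_smul, ← h1, smul_smul, inv_mul_cancel₀ (mul_ne_zero hx0 hx1), one_smul]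
    rw [der_eq_of_D_eq hβ.1 h2, mul_inv_cancel_left₀ (mul_ne_zero hx0 hx1)]
  have hud : ∀ i, αx ^ 2 * der hβ.1 (u i) ∈ W := by
    intro i
    have h1 : αx ^ 2 * der hβ.1 (u i) =
        x⁻¹ * (x - 1)⁻¹ * ∑ k', aeval x (C α * N i k') * (αx * u k') := by
      have h2 : ∑ k', aeval x (C α * N i k') * (αx * u k') =
          αx ^ 2 * (x * (x - 1) * der hβ.1 (u i)) := by
        rw [hder, Finset.mul_sum]
        refine Finset.sum_congr rfl fun k' _ => ?_
        rw [map_mul, aeval_C]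
        ring
      rw [h2]
      field_simp
    rw [h1]
    refine mul_mem (mul_mem hxi hx1i) (sum_mem fun k' _ => mul_mem (hpol fun s => ?_)
      (hu' k' W hW))
    rw [coeff_C_mul]
    exact hN _ _ s
  have hfin : algebraMap k Φ (α ^ (2 * n + 1) * D₀) * der hβ.1 b =
      ∑ i, ((D₀x * αx ^ (2 * n - 1) * der hβ.1 (bb i : Φ)) * αx * (αx * u i) +
        (D₀x * αx ^ (2 * n - 1) * (bb i : Φ)) * (αx ^ 2 * der hβ.1 (u i))) := by
    have h1 : der hβ.1 b = ∑ i, ((bb i : Φ) * der hβ.1 (u i) + u i * der hβ.1 (bb i : Φ)) := by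
      conv_lhs => rw [hbsum]
      rw [map_sum]
      exact Finset.sum_congr rfl fun i _ => by
        rw [Derivation.leibniz, smul_eq_mul, smul_eq_mul]
    rw [h1, Finset.mul_sum]
    refine Finset.sum_congr rfl fun i _ => ?_
    have h3 : 2 * n + 1 = (2 * n - 1) + 2 := by omega
    rw [map_mul, map_pow, h3, pow_add]
    ring
  rw [hfin]
  exact sum_mem fun i _ => add_mem (mul_mem (mul_mem (hβd i) hαW) (hu' i W hW))
    (mul_mem (hβi i) (hud i))

end Pool.Agent.HFB
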