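import Pool.Agent.HFB.DefsV

/-!
# HFB / VLZ: valuation rings over `V₀` are localisations of the integral closure

`b` is algebraic over `E`: `∑_{i ≤ n} a_i b^i = 0` with `a_i ∈ V₀`, not all non-units (scale by the coefficient of maximal valuation).  Let `m` be the largest index with `a_m` a unit of `V₀`.  `m ≥ 1`: otherwise `a_0 = - ∑_{i ≥ 1} a_i b^i` would be a non-unit of `W`.
`e = a_m + a_{m+1} b + … + a_n b^(n-m)`: unit of `W` (`a_i`, `i > m`, are non-units of `V₀`, hence of `W`, `b ∈ W`).  `z = a_{m-1} + a_{m-2} b⁻¹ + … + a_0 b^(1-m)`; `e b + z = 0`  (multiply by `b^(m-1)`; `b ≠ 0`; for `b = 0` take `e = 1`).  For every `W'` over `V₀`: if `b ∈ W'` then `e ∈ W'` and `e b ∈ W'`; if `b⁻¹ ∈ W'` then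
`z ∈ W'`, so `e b = - z ∈ W'` and `e = - z b⁻¹ ∈ W'`.
-/

namespace Pool.Agent.HFB

open Polynomial Pool.Agent.Helper11 Pool.Agent.ESH IntermediateField
open scoped KaehlerDifferential

variable {E Φ : Type*} [Field E] [Field Φ] [Algebra E Φ] [Algebra.IsAlgebraic E Φ]

omit [Algebra.IsAlgebraic E Φ] in
private theorem mem_iff' {V₀ : ValuationSubring E} {W : ValuationSubring Φ}
    (hW : W.comap (algebraMap E Φ) = V₀) (a : E) : a ∈ V₀ ↔ algebraMap E Φ a ∈ W := by
  rw [← hW]
  rfl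

omit [Algebra.IsAlgebraic E Φ] in
private theorem val_lt {V₀ : ValuationSubring E} {W : ValuationSubring Φ}
    (hW : W.comap (algebraMap E Φ) = V₀) {a : E} (ha : V₀.valuation a < 1) :
    W.valuation (algebraMap E Φ a) < 1 := by
  by_cases h0 : a = 0
  · rw [h0, map_zero, map_zero]
    exact zero_lt_one
  · by_contra h
    push Not at h
    have h1 : algebraMap E Φ a⁻¹ ∈ W := by
      rw [← W.valuation_le_one_iff, map_inv₀, map_inv₀]
      exact inv_le_one_of_one_le₀ h
    rw [← mem_iff' hW, ← V₀.valuation_le_one_iff, map_inv₀] at h1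
    have h2 : V₀.valuation a ≠ 0 := by
      rwa [Ne, Valuation.zero_iff]
    have h3 : (1 : V₀.ValueGroup) ≤ V₀.valuation a := by
      have := (inv_le_one₀ (zero_lt_iff.2 h2)).1 h1
      exact this
    exact absurd ha (not_lt.2 h3)

omit [Algebra.IsAlgebraic E Φ] in
private theorem val_eq {V₀ : ValuationSubring E} {W : ValuationSubring Φ}
    (hW : W.comap (algebraMap E Φ) = V₀) {a : E} (ha : V₀.valuation a = 1) :
    W.valuation (algebraMap E Φ a) = 1 := by
  have h0 : a ≠ 0 := by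
    rintro rfl
    rw [map_zero] at ha
    exact zero_ne_one ha
  have h1 : algebraMap E Φ a ∈ W := (mem_iff' hW a).1 (by
    rw [← V₀.valuation_le_one_iff, ha])
  have h2 : algebraMap E Φ a⁻¹ ∈ W := (mem_iff' hW a⁻¹).1 (by
    rw [← V₀.valuation_le_one_iff, map_inv₀, ha, inv_one])
  rw [← W.valuation_le_one_iff] at h1 h2
  rw [map_inv₀, map_inv₀] at h2
  refine le_antisymm h1 ?_
  have h3 : W.valuation (algebraMap E Φ a) ≠ 0 := by
    rw [Ne, Valuation.zero_iff, map_eq_zero]
    exact h0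
  exact (inv_le_one₀ (zero_lt_iff.2 h3)).1 h2

private theorem exists_poly (V₀ : ValuationSubring E) (b : Φ) :
    ∃ (q : E[X]) (m : ℕ), aeval b q = 0 ∧ (∀ i, V₀.valuation (q.coeff i) ≤ 1) ∧
      V₀.valuation (q.coeff m) = 1 ∧ (∀ i, m < i → V₀.valuation (q.coeff i) < 1) ∧
      m ≤ q.natDegree := by
  classical
  obtain ⟨p, hp0, hp⟩ := Algebra.IsAlgebraic.isAlgebraic (R := E) b
  obtain ⟨i0, hi0, hmax⟩ := Finset.exists_max_image p.support
    (fun i => V₀.valuation (p.coeff i)) (Polynomial.support_nonempty.2 hp0)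
  have hc : p.coeff i0 ≠ 0 := Polynomial.mem_support_iff.1 hi0
  have hvc : V₀.valuation (p.coeff i0) ≠ 0 := by rwa [Ne, Valuation.zero_iff]
  set q : E[X] := C (p.coeff i0)⁻¹ * p with hq
  have hqc : ∀ i, q.coeff i = (p.coeff i0)⁻¹ * p.coeff i := fun i => by rw [hq, coeff_C_mul]
  have hle : ∀ i, V₀.valuation (q.coeff i) ≤ 1 := by
    intro i
    rw [hqc, map_mul, map_inv₀]
    by_cases hi : i ∈ p.support
    · have h1 : V₀.valuation (p.coeff i) ≤ V₀.valuation (p.coeff i0) := hmax i hi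
      calc (V₀.valuation (p.coeff i0))⁻¹ * V₀.valuation (p.coeff i)
          ≤ (V₀.valuation (p.coeff i0))⁻¹ * V₀.valuation (p.coeff i0) := by gcongr
        _ = 1 := inv_mul_cancel₀ hvc
    · rw [Polynomial.notMem_support_iff.1 hi, map_zero, mul_zero]
      exact zero_le_one
  have hone : V₀.valuation (q.coeff i0) = 1 := by
    rw [hqc, map_mul, map_inv₀, inv_mul_cancel₀ hvc]
  have hsup : ∀ i, V₀.valuation (q.coeff i) = 1 → i ∈ q.support := by
    intro i hi
    rw [Polynomial.mem_support_iff]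
    intro h
    rw [h, map_zero] at hi
    exact zero_ne_one hi
  let S := q.support.filter (fun i => V₀.valuation (q.coeff i) = 1)
  have hS : S.Nonempty := ⟨i0, Finset.mem_filter.2 ⟨hsup i0 hone, hone⟩⟩
  have hm := Finset.mem_filter.1 (S.max'_mem hS)
  refine ⟨q, S.max' hS, ?_, hle, hm.2, ?_, Polynomial.le_natDegree_of_mem_supp _ hm.1⟩
  · rw [hq, map_mul, hp, mul_zero]
  · intro i hi
    refine lt_of_le_of_ne (hle i) fun h => ?_
    exact absurd (S.le_max' i (Finset.mem_filter.2 ⟨hsup i h, h⟩)) (not_le.2 hi)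

theorem vlz (V₀ : ValuationSubring E) (W : ValuationSubring Φ) (hW : W.comap (algebraMap E Φ) = V₀) {b : Φ}
    (hb : b ∈ W) : ∃ e : Φ, SInt V₀ e ∧ SInt V₀ (e * b) ∧ e ∈ W ∧ e ∉ W.nonunits := by
  classical
  by_cases hb0 : b = 0
  · refine ⟨1, fun W' _ => W'.one_mem, fun W' _ => ?_, W.one_mem, ?_⟩
    · rw [hb0, mul_zero]; exact W'.zero_mem
    · rw [ValuationSubring.mem_nonunits_iff, map_one]
      exact lt_irrefl _
  obtain ⟨q, m, hq, hle, hm1, hlt, hmn⟩ := exists_poly V₀ b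
  obtain ⟨r, hr⟩ := Nat.exists_eq_add_of_le (show m ≤ q.natDegree + 1 by omega)
  have hmem : ∀ W' : ValuationSubring Φ, W'.comap (algebraMap E Φ) = V₀ → ∀ i,
      algebraMap E Φ (q.coeff i) ∈ W' := fun W' hW' i =>
    (mem_iff' hW' _).1 (by rw [← V₀.valuation_le_one_iff]; exact hle i)
  have hsum : ∑ i ∈ Finset.range m, algebraMap E Φ (q.coeff i) * b ^ i +
      ∑ j ∈ Finset.range r, algebraMap E Φ (q.coeff (m + j)) * b ^ (m + j) = 0 := by
    rw [← Finset.sum_range_add (fun i => algebraMap E Φ (q.coeff i) * b ^ i), ← hr, ← hq,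
      Polynomial.aeval_eq_sum_range]
    exact Finset.sum_congr rfl fun i _ => by rw [Algebra.smul_def]
  set e : Φ := ∑ j ∈ Finset.range r, algebraMap E Φ (q.coeff (m + j)) * b ^ j with he
  have hbm : ∑ j ∈ Finset.range r, algebraMap E Φ (q.coeff (m + j)) * b ^ (m + j) = b ^ m * e := by
    rw [he, Finset.mul_sum]
    exact Finset.sum_congr rfl fun j _ => by rw [pow_add]; ring
  rw [hbm] at hsum
  have hvb : W.valuation b ≤ 1 := W.valuation_le_one_iff b |>.2 hb
  have hvpow : ∀ j : ℕ, W.valuation (b ^ j) ≤ 1 := fun j =>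
    W.valuation_le_one_iff _ |>.2 (pow_mem hb j)
  have hr1 : 1 ≤ r := by omega
  have heW : ¬ W.valuation e < 1 := by
    intro hlt'
    obtain ⟨r', rfl⟩ : ∃ r', r = r' + 1 := ⟨r - 1, by omega⟩
    rw [Finset.sum_range_succ'] at he
    have hrest : W.valuation (∑ j ∈ Finset.range r',
        algebraMap E Φ (q.coeff (m + (j + 1))) * b ^ (j + 1)) < 1 := by
      refine Valuation.map_sum_lt _ one_ne_zero fun j _ => ?_
      rw [map_mul]
      exact mul_lt_one_of_lt_of_le (val_lt hW (hlt _ (by omega))) (hvpow _)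
    have h1 : algebraMap E Φ (q.coeff m) = e - ∑ j ∈ Finset.range r',
        algebraMap E Φ (q.coeff (m + (j + 1))) * b ^ (j + 1) := by
      rw [he]
      simp
    have h2 := Valuation.map_sub_lt _ hlt' hrest
    rw [← h1, val_eq hW hm1] at h2
    exact lt_irrefl _ h2
  have hm0 : m ≠ 0 := by
    rintro rfl
    have h1 : e = 0 := by simpa using hsum
    rw [h1, map_zero] at heW
    exact heW zero_lt_one
  obtain ⟨m', rfl⟩ := Nat.exists_eq_succ_of_ne_zero hm0
  set z : Φ := ∑ i ∈ Finset.range m'.succ, algebraMap E Φ (q.coeff i) * (b⁻¹) ^ (m' - i) with hz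
  have hz' : ∑ i ∈ Finset.range m'.succ, algebraMap E Φ (q.coeff i) * b ^ i = b ^ m' * z := by
    rw [hz, Finset.mul_sum]
    refine Finset.sum_congr rfl fun i hi => ?_
    have h1 : i ≤ m' := Nat.lt_succ_iff.1 (Finset.mem_range.1 hi)
    have h2 : b ^ m' * b⁻¹ ^ (m' - i) = b ^ i := by
      rw [inv_pow]
      conv_lhs => rw [← Nat.add_sub_of_le h1, pow_add]
      rw [Nat.add_sub_cancel_left, mul_assoc, mul_inv_cancel₀ (pow_ne_zero _ hb0), mul_one]
    rw [← h2]
    ring
  rw [hz'] at hsum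
  have hez : e * b = -z := by
    have h1 : b ^ m' * (z + e * b) = 0 := by
      rw [← hsum, pow_succ]
      ring
    rcases mul_eq_zero.1 h1 with h | h
    · exact absurd h (pow_ne_zero _ hb0)
    · exact eq_neg_of_add_eq_zero_right h
  have key : ∀ W' : ValuationSubring Φ, W'.comap (algebraMap E Φ) = V₀ → e ∈ W' ∧ e * b ∈ W' := by
    intro W' hW'
    rcases W'.mem_or_inv_mem b with h | h
    · have h1 : e ∈ W' := sum_mem fun j _ => mul_mem (hmem W' hW' _) (pow_mem h _)
      exact ⟨h1, mul_mem h1 h⟩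
    · have h1 : z ∈ W' := sum_mem fun j _ => mul_mem (hmem W' hW' _) (pow_mem h _)
      have h2 : e * b ∈ W' := by rw [hez]; exact neg_mem h1
      have h3 : e = e * b * b⁻¹ := by rw [mul_assoc, mul_inv_cancel₀ hb0, mul_one]
      refine ⟨?_, h2⟩
      rw [h3]
      exact mul_mem h2 h
  refine ⟨e, fun W' hW' => (key W' hW').1, fun W' hW' => (key W' hW').2, (key W hW).1, ?_⟩
  rw [ValuationSubring.mem_nonunits_iff]
  exact heW

/-- a derivation which is bounded on the integral closure is bounded on `W` -/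
theorem vlz_der {k : Type*} [Field k] [Algebra k Φ] (V₀ : ValuationSubring E) (W : ValuationSubring Φ)
    (hW : W.comap (algebraMap E Φ) = V₀) (D : Derivation k Φ Φ) (γ : Φ)
    (h : ∀ b, SInt V₀ b → SInt V₀ (γ * D b)) {b : Φ} (hb : b ∈ W) : γ * D b ∈ W := by
  obtain ⟨e, h1, h2, h3, h4⟩ := vlz V₀ W hW hb
  rw [ValuationSubring.mem_nonunits_iff, not_lt] at h4
  have he0 : e ≠ 0 := by
    rintro rfl
    rw [map_zero] at h4
    exact absurd h4 (not_le.2 zero_lt_one)
  have hinv : e⁻¹ ∈ W := by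
    rw [← W.valuation_le_one_iff, map_inv₀]
    exact inv_le_one_of_one_le₀ h4
  have h5 : γ * D (e * b) ∈ W := h _ h2 W hW
  have h6 : γ * D e ∈ W := h _ h1 W hW
  have h7 : γ * D b = e⁻¹ * (γ * D (e * b) - b * (γ * D e)) := by
    rw [Derivation.leibniz, smul_eq_mul, smul_eq_mul]
    field_simp
    ring
  rw [h7]
  exact mul_mem hinv (sub_mem h5 (mul_mem hb h6))

end Pool.Agent.HFB
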