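import Pool.Agent.HFB.GAU

/-!
# HFB / VRT: valuation rings over the Gauss valuation ring

`base`: `c ∈ W ↔ c ∈ V₀ ↔ a c ≤ 1` (`gau_const`; the constant `algebraMap k Φ c` is the image of `algebraMap k k(x) c`).  `tr`: `t = x`, `gau_pol`, `gau_unit`: `p(x)` and its inverse belong to `V₀`, hence to `W`.
-/

namespace Pool.Agent.HFB

open Polynomial Pool.Agent.Helper11 Pool.Agent.ESH IntermediateField
open scoped KaehlerDifferential

variable {k Φ : Type*} [Field k] [Field Φ] [Algebra k Φ] [FunField k Φ] [CharZero k] [IsAlgClosed k]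

theorem vrt {a : AbsoluteValue k ℝ} (ha : IsNonarchimedean a) {x : Φ} (hx : Transcendental k x)
    {V₀ : ValuationSubring k⟮x⟯} (hV : IsGau a x V₀) {W : ValuationSubring Φ}
    (hW : W.comap (algebraMap k⟮x⟯ Φ) = V₀) : ResTr a W := by
  have key : ∀ f : Φ, f ∈ k⟮x⟯ → (f ∈ W ↔ InG a x f) := by
    intro f hf
    rw [← hV ⟨f, hf⟩, ← hW]
    rfl
  have hpx : ∀ p : k[X], aeval x p ∈ k⟮x⟯ := by
    intro p
    exact (mem_adjoin_simple_iff k _).2 ⟨p, 1, by rw [map_one, div_one]⟩
  constructor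
  · intro c
    rw [key _ (k⟮x⟯.algebraMap_mem c)]
    exact gau_const ha hx c
  · refine ⟨x, fun p hp h1 => ⟨?_, ?_⟩⟩
    · rw [key _ (hpx p)]
      exact (gau_pol ha hx p).2 hp
    · rw [ValuationSubring.mem_nonunits_iff_or, not_or, not_not]
      obtain ⟨i, hi⟩ := h1
      have hp0 : p ≠ 0 := by
        rintro rfl
        rw [coeff_zero, map_zero] at hi
        exact zero_ne_one hi
      refine ⟨fun h => hp0 ((transcendental_iff.1 hx) p h), ?_⟩
      rw [key _ (k⟮x⟯.inv_mem (hpx p))]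
      exact gau_unit ha hx p hp ⟨i, hi⟩

end Pool.Agent.HFB
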