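import Pool.Agent.HFB.VDB
import Pool.Agent.HFB.VLZ
import Pool.Agent.HFB.VRT
import Pool.Agent.HFB.DSC

/-!
# HFB / VUP: coordinates of integral differentials

`γ = α^(2n+1) D₀`.  For `W` over `V₀`: `f dx = ∑ b_i dc_i` with `b_i, c_i ∈ W`, so `f = ∑ b_i dc_i/dx` (`D_eq_der_smul`, `kaehler_bijective`), and `γ f ∈ W` by `vlz_der` and `vdb`.  So `SInt V₀ (γ f)`, `SInt V₀ (γ f · α u_j)` (`vdb_u`), and the trace `γ α p(x) ∈ V₀` (`vin_tr`): `gau_pol`.
-/

namespace Pool.Agent.HFB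

open Polynomial Pool.Agent.Helper11 Pool.Agent.ESH IntermediateField
open scoped KaehlerDifferential

variable {k Φ : Type*} [Field k] [Field Φ] [Algebra k Φ] [FunField k Φ] [CharZero k] [IsAlgClosed k]

variable {x : Φ} {n : ℕ} {d : Fin n → ℕ} {u : Fin n → Φ}

theorem vup
    {a : AbsoluteValue k ℝ} (ha : IsNonarchimedean a) (hβ : IsBelyi k x) (hu : RBas k x d u)
    {c : Fin n → Fin n → Fin n → k[X]} {N : Fin n → Fin n → k[X]} (h : SCon x u c N)
    {V₀ : ValuationSubring k⟮x⟯} (hV : IsGau a x V₀) {α : k} (hα : α ≠ 0) (hα1 : a α ≤ 1)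
    (hc : ∀ i j l s, a (α * (c i j l).coeff s) ≤ 1) (hN : ∀ i l s, a (α * (N i l).coeff s) ≤ 1)
    {D₀ : k} {p q : ℕ} (hD0 : D₀ ≠ 0) (hD : (tG c).det = C D₀ * X ^ p * (X - 1) ^ q)
    (f : Φ) (hf : ∀ W : ValuationSubring Φ, W.comap (algebraMap k⟮x⟯ Φ) = V₀ →
      KInt k W (f • KaehlerDifferential.D k Φ x)) (j : Fin n) (P : k[X])
    (hP : ((Algebra.trace k⟮x⟯ Φ (f * u j) : k⟮x⟯) : Φ) = aeval x P) (s : ℕ) :
    a (α ^ (2 * n + 2) * D₀ * P.coeff s) ≤ 1 := by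
  have hx : Transcendental k x := hβ.1
  have hfd : FiniteDimensional k⟮x⟯ Φ := FunField.finiteDimensional_adjoin hx
  have halg : Algebra.IsAlgebraic k⟮x⟯ Φ := Algebra.IsAlgebraic.of_finite k⟮x⟯ Φ
  have hch : CharZero k⟮x⟯ := charZero_of_injective_algebraMap (algebraMap k k⟮x⟯).injective
  have hγf : SInt V₀ (algebraMap k Φ (α ^ (2 * n + 1) * D₀) * f) := by
    intro W hW
    obtain ⟨m, b, c', hbc, hω⟩ := hf W hW
    have h1 : f = ∑ i, b i * der hx (c' i) := by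
      apply (kaehler_bijective hx).1
      change f • KaehlerDifferential.D k Φ x = (∑ i, b i * der hx (c' i)) • KaehlerDifferential.D k Φ x
      rw [hω, Finset.sum_smul]
      refine Finset.sum_congr rfl fun i _ => ?_
      rw [D_eq_der_smul hx (c' i), smul_smul]
    rw [h1, Finset.mul_sum]
    refine sum_mem fun i _ => ?_
    have h2 : algebraMap k Φ (α ^ (2 * n + 1) * D₀) * der hx (c' i) ∈ W :=
      vlz_der V₀ W hW (der hx) _ (fun b hb => vdb ha hβ hu h hV hα hα1 hc hN hD0 hD hb) (hbc i).2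
    have h3 : algebraMap k Φ (α ^ (2 * n + 1) * D₀) * (b i * der hx (c' i))
        = b i * (algebraMap k Φ (α ^ (2 * n + 1) * D₀) * der hx (c' i)) := by ring
    rw [h3]
    exact mul_mem (hbc i).1 h2
  have hprod : SInt V₀ (algebraMap k Φ (α ^ (2 * n + 1) * D₀) * f * (algebraMap k Φ α * u j)) :=
    fun W hW => mul_mem (hγf W hW) (vdb_u ha hx h hV hc j W hW)
  have htr := vin_tr V₀ hprod
  have e1 : algebraMap k Φ (α ^ (2 * n + 1) * D₀) * f * (algebraMap k Φ α * u j)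
      = (algebraMap k k⟮x⟯ (α ^ (2 * n + 2) * D₀)) • (f * u j) := by
    rw [Algebra.smul_def, ← IsScalarTower.algebraMap_apply k k⟮x⟯ Φ]
    simp only [map_mul, map_pow]
    ring
  rw [e1, map_smul, hV] at htr
  have e2 : (((algebraMap k k⟮x⟯ (α ^ (2 * n + 2) * D₀)) • Algebra.trace k⟮x⟯ Φ (f * u j) : k⟮x⟯) : Φ)
      = aeval x (C (α ^ (2 * n + 2) * D₀) * P) := by
    rw [smul_eq_mul, MulMemClass.coe_mul, hP, map_mul (aeval x), aeval_C]
    rfl
  rw [e2, gau_pol ha hx] at htr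
  have := htr s
  rwa [coeff_C_mul] at this

end Pool.Agent.HFB
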